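import Pool.Agent.Lib.MP_1b8ce0_al.T.Defs

set_option linter.unusedSectionVars false
set_option linter.dupNamespace false

namespace Pool.Agent.Lib.MP_1b8ce0_al.T

open Pool.Agent.Lib.MP_6d85b4_al Filter

section Cox

variable {B : Type} [Fintype B] [DecidableEq B] (N : CoxeterMatrix B)

/-- roots and reflections -/
structure C0a : Prop where
  faith : ∀ w, (∀ i, Pos (rho N w (al i))) → w = 1
  refl_eq : ∀ r a, ReflOf N r a → ∀ v, rho N r v = v - (2 * Bf N a v) • a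
  refl_ex : ∀ a, IsRoot N a → ∃ r, ReflOf N r a
  refl_uniq : ∀ r r' a, ReflOf N r a → ReflOf N r' a → r = r'
  refl_root : ∀ r a b, ReflOf N r a → ReflOf N r b → b = a ∨ b = -a
  refl_neg : ∀ r a, ReflOf N r a → ReflOf N r (-a)
  refl_conj : ∀ w r a, ReflOf N r a → ReflOf N (w * r * w⁻¹) (rho N w a)
  refl_isRoot : ∀ r a, ReflOf N r a → IsRoot N a
  refl_sq : ∀ r, IsRefl N r → r * r = 1 ∧ r ≠ 1 ∧ sg N r = -1
  refl_comm : ∀ g r a, ReflOf N r a → (Commute g r ↔ rho N g a = a ∨ rho N g a = -a)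
  root_al : ∀ i, IsRoot N (al i) ∧ ReflOf N (sr N i) (al i)
  root_rho : ∀ w a, IsRoot N a → IsRoot N (rho N w a)
  root_neg : ∀ a, IsRoot N a → IsRoot N (-a)
  root_pos : ∀ a, IsRoot N a → Pos a ∨ Pos (-a)
  root_not : ∀ a, IsRoot N a → Pos a → ¬ Pos (-a)
  root_norm : ∀ a, IsRoot N a → Bf N a a = 1
  root_smul : ∀ a (t : ℝ), IsRoot N a → IsRoot N (t • a) → t = 1 ∨ t = -1
  root_indep : ∀ a b (s t : ℝ), IsRoot N a → IsRoot N b → b ≠ a → b ≠ -a → s • a + t • b = 0 →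
    s = 0 ∧ t = 0
  simple_pos : ∀ a i, IsRoot N a → Pos a → a ≠ al i → Pos (rho N (sr N i) a)
  simple_sum : ∀ d a j, IsRoot N a → Pos a → (∀ i, a i ≠ 0 → Pos (rho N d (al i))) →
    rho N d a = al j → ∃ i, a = al i
  inv_fin : ∀ w, (Inv N w).Finite
  inv_len : ∀ w, (Inv N w).ncard = N.toCoxeterSystem.length w
  inv_bdd : ∀ n : ℕ, {w | (Inv N w).ncard ≤ n}.Finite

/-- standard parabolic subgroups -/
structure C0b : Prop where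
  supp_root : ∀ T a, IsRoot N a → Supp T a → ∃ u ∈ par N T, ∃ i ∈ T, a = rho N u (al i)
  supp_par : ∀ T u v, u ∈ par N T → Supp T v → Supp T (rho N u v)
  coord : ∀ T u v j, u ∈ par N T → j ∉ T → rho N u v j = v j
  pos_par : ∀ T u a, u ∈ par N T → IsRoot N a → Pos a → ¬ Supp T a → Pos (rho N u a)
  refl_mem : ∀ T r a, ReflOf N r a → (r ∈ par N T ↔ Supp T a)
  inter : ∀ T U, par N T ⊓ par N U = par N (T ∩ U)
  sr_mem : ∀ T i, sr N i ∈ par N T ↔ i ∈ T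
  faithT : ∀ T u, u ∈ par N T → (∀ i ∈ T, Pos (rho N u (al i))) → u = 1
  minrep : ∀ T w, ∃ u ∈ par N T, ∀ i ∈ T, Pos (rho N (w * u) (al i))
  kil : ∀ c T U, ∃ u ∈ par N T, ∃ d, ∃ v ∈ par N U, c = u * d * v ∧
    par N T ⊓ cj d (par N U) = par N {i | i ∈ T ∧ ∃ j ∈ U, rho N d (al j) = al i}
  perp_fix : ∀ P L, (∀ p ∈ P, ∀ l ∈ L, N p l = 2) → ∀ u ∈ par N P,
    (∀ v, Supp L v → rho N u v = v) ∧ ∀ v ∈ par N L, Commute u v
  restr : ∀ (T : Set B) (H : Type) [Group H] (f : B → H), Braid N T f → (∀ s ∈ T, f s * f s = 1) →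
    ∃ φ : par N T →* H, ∀ s (h : sr N s ∈ par N T), s ∈ T → φ ⟨sr N s, h⟩ = f s
  dyer : IsDyer N Set.univ (sr N)

/-- rank two -/
structure C0c : Prop where
  ord : ∀ i j, orderOf (sr N i * sr N j) = N i j
  roots_fin : ∀ i j a, i ≠ j → N i j ≠ 0 → IsRoot N a → Pos a → Supp {i, j} a →
    ∃ k, k < N i j ∧ a = ch (N i j) k • al i + ch (N i j) (k + 1) • al j
  roots_inf : ∀ i j, N i j = 0 → {a | IsRoot N a ∧ Pos a ∧ Supp {i, j} a}.Infinite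
  fin : ∀ i j, N i j ≠ 0 → Finite (par N {i, j})
  card : ∀ i j, i ≠ j → Nat.card (par N {i, j}) = 2 * N i j
  elts : ∀ i j g, i ≠ j → N i j ≠ 0 → g ∈ par N {i, j} →
    (∃ k : ℕ, g = (sr N i * sr N j) ^ k) ∨
      ∃ u ∈ par N {i, j}, g = u * sr N i * u⁻¹ ∨ g = u * sr N j * u⁻¹
  half : ∀ i j k, i ≠ j → 0 < k → N i j = 2 * k →
    (∀ v, Supp {i, j} v → rho N ((sr N i * sr N j) ^ k) v = -v) ∧
      ∀ g ∈ par N {i, j}, Commute g ((sr N i * sr N j) ^ k)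
  rot_fix : ∀ i j (k : ℕ) v, i ≠ j → N i j ≠ 0 → (sr N i * sr N j) ^ k ≠ 1 → Supp {i, j} v →
    rho N ((sr N i * sr N j) ^ k) v = v → v = 0
  center : ∀ i j g, 3 ≤ N i j → g ∈ par N {i, j} → Commute g (sr N i) → Commute g (sr N j) →
    g = 1 ∨ ∃ k, N i j = 2 * k ∧ g = (sr N i * sr N j) ^ k
  posdef : ∀ i j v, i ≠ j → N i j ≠ 0 → Supp {i, j} v → v ≠ 0 → 0 < Bf N v v

/-- points of the Tits cone -/
structure C1a : Prop where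
  pt0 : InI N (pt0 B) ∧ ∀ a, IsRoot N a → Pos a → 0 < pt0 B a
  add : ∀ x y, InI N x → InI N y → InI N (x + y)
  smul : ∀ x (t : ℝ), InI N x → 0 < t → InI N (t • x)
  zero : ∀ x y a, InI N x → InI N y → 0 ≤ x a → y a ≤ 0 → ∃ s t : ℝ, 0 ≤ s ∧ 0 ≤ t ∧ s + t = 1 ∧
    InI N (s • x + t • y) ∧ s * x a + t * y a = 0
  act_mem : ∀ w x, InI N x → InI N (act N w x)
  fold : ∀ x U, InI N x → ∃ u ∈ par N U, ∀ i ∈ U, 0 ≤ x (rho N u (al i))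
  face : ∀ T, Finite (par N T) → ∃ y, InI N y ∧ Cham y ∧ Zs y = T
  zfin : ∀ x, InI N x → Cham x → Finite (par N (Zs x))
  uniq : ∀ w x, Cham x → Cham (act N w x) → act N w x = x ∧ w ∈ par N (Zs x)
  stab : ∀ x, InI N x → {w | act N w x = x}.Finite
  vanish : ∀ x a, Cham x → IsRoot N a → x a = 0 → Supp (Zs x) a
  sep_fin : ∀ x y, InI N x → InI N y → {a | IsRoot N a ∧ 0 ≤ x a ∧ y a ≤ 0}.Finite
  common : ∀ F : Set (Pt B), F.Finite → (∀ x ∈ F, InI N x) → (∀ x ∈ F, ∀ y ∈ F, Sep N x y = ∅) →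
    ∃ c, ∀ x ∈ F, Cham (act N c⁻¹ x)
  refl_lt : ∀ r b x y, InI N x → InI N y → ReflOf N r b → 0 < x b → y b < 0 →
    (Sep N x (act N r y)).ncard < (Sep N x y).ncard
  wall : ∀ a, IsRoot N a → ∃ y, InI N y ∧ y a = 0
  finfix : ∀ K : Subgroup N.Group, Finite K → ∃ y, InI N y ∧ ∀ g ∈ K, act N g y = y

/-- vertices (dimension two) -/
structure C1b : Prop where
  sph : ∀ i j k, i ≠ j → j ≠ k → i ≠ k → ¬ Finite (par N {i, j, k})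
  nullv : ∀ i j k, Tri0 N i j k → ∃ v : B → ℝ, Supp {i, j, k} v ∧ 0 < v i ∧ 0 < v j ∧
    0 < v k ∧ Bf N v (al i) ≤ 0 ∧ Bf N v (al j) ≤ 0 ∧ Bf N v (al k) ≤ 0 ∧
      (Bf N v (al i) = 0 → Bf N v (al j) = 0 → Bf N v (al k) = 0 →
        1 / (N i j : ℚ) + 1 / (N j k : ℚ) + 1 / (N i k : ℚ) = 1)
  fin_par : ∀ T, Finite (par N T) ↔ Simplex N T
  vertex : ∀ y i j, InI N y → i ≠ j → y (al i) = 0 → y (al j) = 0 →
    Cham y ∧ Zs y = {i, j} ∧ N i j ≠ 0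
  vx0 : ∀ U y a b, InI N y → IsRoot N a → IsRoot N b → b ≠ a → b ≠ -a → Supp U a → Supp U b →
    y a = 0 → y b = 0 → ∃ u ∈ par N U, ∃ i ∈ U, ∃ j ∈ U, i ≠ j ∧ N i j ≠ 0 ∧
      Cham (act N u⁻¹ y) ∧ Zs (act N u⁻¹ y) = {i, j}
  rank2 : ∀ y a b e, InI N y → IsRoot N a → IsRoot N b → IsRoot N e → b ≠ a → b ≠ -a →
    y a = 0 → y b = 0 → y e = 0 → ∃ s t : ℝ, e = s • a + t • b
  face_eq : ∀ y y' a b e, InI N y → InI N y' → IsRoot N a → IsRoot N b → IsRoot N e → b ≠ a →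
    b ≠ -a → y a = 0 → y b = 0 → y' a = 0 → y' b = 0 → 0 < y e → 0 < y' e
  side : ∀ a b, IsRoot N a → IsRoot N b → b ≠ a → b ≠ -a → ¬ Cross N a b →
    (∀ y, InI N y → y a = 0 → 0 < y b) ∨ ∀ y, InI N y → y a = 0 → y b < 0
  fix2 : ∀ a b g, Cross N a b → rho N g a = a → rho N g b = b → g = 1
  vx : ∀ T a b h, Cross N a b → Supp T a → Supp T b → Supp T (rho N h a) → Supp T (rho N h b) →
    h ∈ par N T
  vtype : ∀ U d i j, i ≠ j → N i j ≠ 0 → Supp U (rho N d (al i)) → Supp U (rho N d (al j)) →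
    i ∈ U ∧ j ∈ U ∧ d ∈ par N U
  swap : ∀ P L g a b, (∀ p ∈ P, ∀ l ∈ L, N p l = 2) → IsRoot N a → IsRoot N b → Supp P a →
    Supp L b → Supp L (rho N g a) → Supp P (rho N g b) → False

/-- torsion (dimension two) -/
structure C1t : Prop where
  cross_iff : ∀ r r' a b, ReflOf N r a → ReflOf N r' b → b ≠ a → b ≠ -a →
    (Cross N a b ↔ IsOfFinOrder (r * r'))
  cross_lt : ∀ a b, Cross N a b → |Bf N a b| < 1
  cross_vals : {t | ∃ a b, Cross N a b ∧ t = Bf N a b}.Finite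
  finsub : ∀ K : Subgroup N.Group, Finite K → ∃ c T, Simplex N T ∧ K ≤ cj c (par N T)
  tors : ∀ g, IsOfFinOrder g → g = 1 ∨ IsRefl N g ∨ IsRot N g
  rot_sg : ∀ g, IsRot N g → sg N g = 1 ∧ IsOfFinOrder g
  rot_type : ∀ c c' i j (k : ℕ) T, i ≠ j → N i j ≠ 0 → (sr N i * sr N j) ^ k ≠ 1 → Simplex N T →
    c * (sr N i * sr N j) ^ k * c⁻¹ ∈ cj c' (par N T) → T = {i, j} ∧ c'⁻¹ * c ∈ par N {i, j}
  rot_cent : ∀ c h i j (k : ℕ), i ≠ j → N i j ≠ 0 → (sr N i * sr N j) ^ k ≠ 1 →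
    Commute h (c * (sr N i * sr N j) ^ k * c⁻¹) → h ∈ cj c (par N {i, j})
  rot_refl : ∀ g r, IsRot N g → IsRefl N r → Commute g r → g * g = 1
  torc : ∀ g w, IsOfFinOrder g → Commute g w → ¬ IsOfFinOrder w → g = 1 ∨ IsRefl N g
  fin_comm : ∀ g h, Finite (Subgroup.closure {g, h}) → ¬ IsRefl N g → ¬ IsRefl N h → Commute g h
  pinf : ∀ c d i j k U g, Tri0 N i j k → g ∈ cj c (par N {i, j, k}) → ¬ IsOfFinOrder g →
    g ∈ cj d (par N U) → cj c (par N {i, j, k}) ≤ cj d (par N U) ∧ i ∈ U ∧ j ∈ U ∧ k ∈ U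

/-- parallel walls (dimension two) -/
structure C1c : Prop where
  nc : ∀ a b, IsRoot N a → IsRoot N b → ¬ Cross N a b → 1 ≤ |Bf N a b|
  nb : ∀ a b, IsRoot N a → IsRoot N b → (¬ ∃ x, InI N x ∧ x a ≤ 0 ∧ x b ≤ 0) → Bf N a b ≤ -1
  gram : ∀ r1 r2 r3 a1 a2 a3, ReflOf N r1 a1 → ReflOf N r2 a2 → ReflOf N r3 a3 →
    Bf N a1 a3 = 0 → Bf N a1 a2 ^ 2 + Bf N a2 a3 ^ 2 < 1 → Finite (Subgroup.closure {r1, r2, r3})
  fixc1 : ∀ (H : Subgroup N.Group) (O : Set N.Group), ¬ Finite H → O.Finite →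
    (∀ h ∈ H, ∀ r ∈ O, h * r * h⁻¹ ∈ O) → ∀ r ∈ O, ∀ r' ∈ O, ∀ a b, ReflOf N r a →
      ReflOf N r' b → ¬ Cross N a b
  fixc2 : ∀ (H : Subgroup N.Group) (O : Set N.Group), ¬ Finite H → O.Finite →
    (∀ h ∈ H, ∀ r ∈ O, h * r * h⁻¹ ∈ O) → ∀ r ∈ O, ∀ a, ReflOf N r a → ∀ η ∈ H,
      rho N η a = -a → ∀ h ∈ H, Commute h r

/-- normalisers (dimension two) -/
structure C1d : Prop where
  how : ∀ T d, Indep N T → Two T → (∀ t ∈ T, ∃ j, rho N d (al t) = al j) → d ∈ par N (perp N T)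
  how1 : ∀ i j d, (∀ t, t ≠ i → N i t = 0 ∨ N i t = 2) → rho N d (al i) = al j →
    d ∈ par N (lk N i)
  parn : ∀ T U c, Indep N T → Two T → cj c (par N T) ≤ par N U →
    T ⊆ U ∧ ∃ v ∈ par N U, ∃ n ∈ par N (perp N T), c = v * n

/-- essential roots -/
structure C2a : Prop where
  tri : ∀ w a, IsRoot N a → Per N w a ∨ Ess N w a ∨ Ess N w (-a) ∨ Evn N w a ∨ Evn N w (-a)
  nper : ∀ w a, Ess N w a → ¬ Per N w a
  nneg : ∀ w a, Ess N w a → ¬ Ess N w (-a)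
  conj : ∀ g w a, Ess N w a → Ess N (g * w * g⁻¹) (rho N g a)
  pow : ∀ w a (n : ℕ), 0 < n → (Ess N (w ^ n) a ↔ Ess N w a)
  inv : ∀ w a, Ess N w⁻¹ a ↔ Ess N w (-a)
  crit : ∀ w a y, IsRoot N a → InI N y →
    (∀ᶠ n : ℕ in atTop, 0 < y (rho N (w ^ n)⁻¹ a) ∧ y (rho N (w ^ n) a) < 0) → Ess N w a
  ex : ∀ w, ¬ IsOfFinOrder w → ∃ a, Ess N w a
  fin : ∀ w, ∃ F : Set (B → ℝ), F.Finite ∧ ∀ a, Ess N w a → ∃ k : ℤ, rho N (w ^ k) a ∈ F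
  per_ess : ∀ w d a, IsRoot N d → Per N w d → Ess N w a → Cross N d a
  esspar : ∀ w c T a, w ∈ cj c (par N T) → Ess N w a → Supp T (rho N c⁻¹ a)
  kj : ∀ g w a, Commute g w → Ess N w a →
    ∃ (k : ℕ) (j : ℤ), 0 < k ∧ rho N (g ^ k) a = rho N (w ^ j) a
  mu : ∀ K a, IsComm K → EK N K a → ∃ μ : K →* Multiplicative ℚ, ∀ g : K,
    (0 < (μ g).toAdd ↔ Ess N g a) ∧ ((μ g).toAdd < 0 ↔ Ess N g (-a)) ∧
      ((μ g).toAdd = 0 ↔ Per N g a)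
  hfix : ∀ K a g h, IsComm K → g ∈ K → h ∈ K → Ind2 g h → EK N K a →
    ∃ f ∈ K, ¬ IsOfFinOrder f ∧ rho N f a = a

/-- periodic walls (dimension two) -/
structure C2b : Prop where
  line : ∀ h d e, ¬ IsOfFinOrder h → IsRoot N d → Per N h d → IsRoot N e → e ≠ d → e ≠ -d →
    ¬ Ess N h e → ¬ Ess N h (-e) → ∃ ε : ℝ, (ε = 1 ∨ ε = -1) ∧
      ∀ a y, Ess N h a → InI N y → y d = 0 → y a = 0 → 0 < ε * y e
  per2 : ∀ h a b, Cross N a b → Per N h a → Per N h b → IsOfFinOrder h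
  noz2 : ∀ g h a, Commute g h → IsRoot N a → Per N g a → Per N h a → ¬ Ind2 g h
  chain : ∀ w, ¬ IsOfFinOrder w → CaseA N w → ∃ β lam, Chain N w β lam
  a0 : ∀ w, ¬ IsOfFinOrder w → CaseA N w → (∀ a, IsRoot N a → ¬ Per N w a) →
    ∀ g h, Commute g w → Commute h w → Commute g h

end Cox

def St_C0a : Prop := ∀ (B : Type) [Fintype B] [DecidableEq B] (N : CoxeterMatrix B), C0a N
def St_C0b : Prop := ∀ (B : Type) [Fintype B] [DecidableEq B] (N : CoxeterMatrix B), C0b N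
def St_C0c : Prop := ∀ (B : Type) [Fintype B] [DecidableEq B] (N : CoxeterMatrix B), C0c N
def St_C1a : Prop := ∀ (B : Type) [Fintype B] [DecidableEq B] (N : CoxeterMatrix B), C1a N
def St_C2a : Prop := ∀ (B : Type) [Fintype B] [DecidableEq B] (N : CoxeterMatrix B), C2a N
def St_C1b : Prop :=
  ∀ (B : Type) [Fintype B] [DecidableEq B] (N : CoxeterMatrix B), NoSph N → C1b N
def St_C1t : Prop :=
  ∀ (B : Type) [Fintype B] [DecidableEq B] (N : CoxeterMatrix B), NoSph N → C1t N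
def St_C1c : Prop :=
  ∀ (B : Type) [Fintype B] [DecidableEq B] (N : CoxeterMatrix B), NoSph N → C1c N
def St_C1d : Prop :=
  ∀ (B : Type) [Fintype B] [DecidableEq B] (N : CoxeterMatrix B), NoSph N → C1d N
def St_C2b : Prop :=
  ∀ (B : Type) [Fintype B] [DecidableEq B] (N : CoxeterMatrix B), NoSph N → C2b N

/-- all general facts -/
structure CA {B : Type} [Fintype B] [DecidableEq B] (N : CoxeterMatrix B) : Prop where
  a0 : C0a N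
  b0 : C0b N
  c0 : C0c N
  a1 : C1a N
  b1 : C1b N
  t1 : C1t N
  c1 : C1c N
  d1 : C1d N
  a2 : C2a N
  b2 : C2b N

def St_CA : Prop := ∀ (B : Type) [Fintype B] [DecidableEq B] (N : CoxeterMatrix B), NoSph N → CA N

/-- values of the Chebyshev sequence -/
def St_CH : Prop := ∀ m k : ℕ, 2 ≤ m →
  ch m 0 = 0 ∧ ch m 1 = 1 ∧ ch m 2 = 2 * Real.cos (Real.pi / m) ∧
    ch m (k + 2) = ch m 2 * ch m (k + 1) - ch m k ∧ (k ≤ m → ch m (m - k) = ch m k) ∧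
    (0 < k → k < m → 1 ≤ ch m k) ∧ (2 ≤ k → k + 2 ≤ m → ch m 2 ≤ ch m k) ∧
    (3 ≤ k → k + 3 ≤ m → 2 ≤ ch m k) ∧ (3 ≤ m → 1 ≤ ch m 2) ∧ (4 ≤ m → 2 ≤ ch m 2 ^ 2) ∧
    (6 ≤ m → 3 ≤ ch m 2 ^ 2) ∧ ch m 2 < 2

section Dyer

variable {S G : Type} [Group G]

/-- formal properties of the presentations -/
structure D1 (M : CoxeterMatrix S) (R : Set S) (x : S → G) : Prop where
  ext : ∀ (H : Type) [Group H] (φ φ' : G →* H), (∀ s, φ (x s) = φ' (x s)) → φ = φ'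
  iso : ∀ (H : Type) [Group H] (e : G ≃* H), IsDyer M R (fun s => e (x s))
  conjf : ∀ d : G, IsDyer M R (fun s => d * x s * d⁻¹)
  quot : ∀ (H : Type) [Group H] (π : G →* H) (R1 : Set S), Function.Surjective π → R ⊆ R1 →
    (∀ g, π g = 1 ↔ g ∈ Subgroup.normalClosure {y | ∃ s ∈ R1, y = x s * x s}) →
      IsDyer M R1 (fun s => π (x s))
  aut : ∀ θ θ' : G →* G, (∀ s, θ (θ' (x s)) = x s) → (∀ s, θ' (θ (x s)) = x s) →
    IsDyer M R (fun s => θ (x s))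
  chr : ∀ f : S → ℤˣ, (∀ s t, s ≠ t → Odd (M s t) → f s = f t) →
    ∃ χ : G →* ℤˣ, ∀ s, χ (x s) = f s
  chc : ∀ s, ∃ χ : G →* ℤˣ, (∀ t, OddConn M s t → χ (x t) = -1) ∧
    ∀ t, ¬ OddConn M s t → χ (x t) = 1
  chi : ∀ s, (∀ t, OddConn M s t → t ∉ R) → ∃ χ, IsChi M x s χ
  conj : ∀ s t, IsConj (x s) (x t) ↔ OddConn M s t
  zc : ∀ s t, Adj M s t → Commute (x s) (zc M x s t) ∧ Commute (x t) (zc M x s t)
  even : ∀ s t k, s ≠ t → 0 < k → M s t = 2 * k → (x s * x t) ^ k = (x t * x s) ^ k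
  two : ∀ s t, M s t = 2 → Commute (x s) (x t)
  perp : ∀ P L, (∀ p ∈ P, ∀ l ∈ L, M p l = 2) → ∀ u ∈ gp x P, ∀ v ∈ gp x L, Commute u v
  star : ∀ s g, g ∈ gp x (insert s (lk M s)) → ∃ (n : ℤ), ∃ l ∈ gp x (lk M s), g = x s ^ n * l

def St_D1 : Prop := (∀ (S : Type) (M : CoxeterMatrix S), IsDyer M ∅ (gen M)) ∧
  ∀ (S G : Type) [Group G] (M : CoxeterMatrix S) (R : Set S) (x : S → G), IsDyer M R x → D1 M R x

def St_TREE : Prop := ∀ (S G : Type) [Group G] (M : CoxeterMatrix S) (R : Set S) (x : S → G)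
  (S1 S2 : Set S), IsDyer M R x → S1 ∪ S2 = Set.univ →
    (∀ s t, s ∉ S2 → t ∉ S1 → M s t = 0) → Split (gp x S1) (gp x S2) (gp x (S1 ∩ S2))

/-- algebraic form of the tree lemmas, first part -/
structure TT1 (A1 A2 C : Subgroup G) : Prop where
  le : C ≤ A1 ∧ C ≤ A2
  tors : ∀ g, IsOfFinOrder g → Ell A1 A2 g
  serre : ∀ g g', Ell A1 A2 g → Ell A1 A2 g' → Ell A1 A2 (g * g') → JE A1 A2 g g'
  comm : ∀ g g', Ell A1 A2 g → Ell A1 A2 g' → Commute g g' → JE A1 A2 g g'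
  uniq1 : ∀ y h h', (∀ k, y ∉ cj k C) → y ∈ cj h A1 → y ∈ cj h' A1 → h⁻¹ * h' ∈ A1
  uniq2 : ∀ y h h', (∀ k, y ∉ cj k C) → y ∈ cj h A2 → y ∈ cj h' A2 → h⁻¹ * h' ∈ A2
  uniq12 : ∀ y h h', y ∈ cj h A1 → y ∈ cj h' A2 → ∃ k, y ∈ cj k C
  cent1 : ∀ y h u, (∀ k, y ∉ cj k C) → y ∈ cj h A1 → Commute u y → u ∈ cj h A1
  cent2 : ∀ y h u, (∀ k, y ∉ cj k C) → y ∈ cj h A2 → Commute u y → u ∈ cj h A2
  hyp : ∀ z, ¬ Ell A1 A2 z → ∃ (h : G) (Tr : Subgroup G), (∀ g, Commute g z → g ∈ Tr) ∧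
    (∀ y ∈ Tr, (∀ k, y ∉ cj k C) → ∀ u, Commute u y → u ∈ Tr) ∧
      (∀ g1 ∈ Tr, ∀ g2 ∈ Tr, cm g1 g2 ∈ cj h C) ∧ ∀ y ∈ Tr, Ell A1 A2 y → y ∈ cj h C

/-- algebraic form of the tree lemmas, second part -/
structure TT2 (A1 A2 C : Subgroup G) : Prop where
  helly : ∀ F : Set G, F.Finite → (∀ g ∈ F, ∀ g' ∈ F, JE A1 A2 g g') →
    ∃ h, (∀ g ∈ F, g ∈ cj h A1) ∨ ∀ g ∈ F, g ∈ cj h A2
  side : ∀ y0 y1, Ell A1 A2 y0 → Ell A1 A2 y1 → ¬ JE A1 A2 y0 y1 →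
    ∃ (h : G) (sd : G → Prop), y0 ∉ cj h C ∧ y1 ∉ cj h C ∧ sd y0 ∧ ¬ sd y1 ∧
      ∀ y y', y ∉ cj h C → y' ∉ cj h C → JE A1 A2 y y' → (sd y ↔ sd y')
  at1 : ∀ r, Ell A1 A2 r → r ∉ A1 → ∃ h ∈ A1, ∀ g ∈ A1, JE A1 A2 g r → g ∈ cj h C

def St_TT1 : Prop := ∀ (G : Type) [Group G] (A1 A2 C : Subgroup G), Split A1 A2 C → TT1 A1 A2 C
def St_TT2 : Prop := ∀ (G : Type) [Group G] (A1 A2 C : Subgroup G), Split A1 A2 C → TT2 A1 A2 C

/-- both tree packages for every visual splitting -/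
def St_TT : Prop := ∀ (S G : Type) [Group G] (M : CoxeterMatrix S) (R : Set S) (x : S → G)
  (S1 S2 : Set S), IsDyer M R x → S1 ∪ S2 = Set.univ → (∀ s t, s ∉ S2 → t ∉ S1 → M s t = 0) →
    TT1 (gp x S1) (gp x S2) (gp x (S1 ∩ S2)) ∧ TT2 (gp x S1) (gp x S2) (gp x (S1 ∩ S2))

theorem TT (h0 : St_TREE) (h1 : St_TT1) (h2 : St_TT2) : St_TT :=
  fun S G _ M R x S1 S2 a b c =>
    ⟨h1 G _ _ _ (h0 S G M R x S1 S2 a b c), h2 G _ _ _ (h0 S G M R x S1 S2 a b c)⟩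

/-- existence of the double and of the map to it -/
def St_DBL : Prop := ∀ (S : Type) [Fintype S] [DecidableEq S] (M : CoxeterMatrix S) (R : Set S),
  Nonempty (Dbl M R) ∧ ∀ E : Dbl M R, Flex M R → (NoSph M → NoSph E.N) ∧
    ∀ (G : Type) [Group G] (x : S → G) (R0 : Set S), IsDyer M R0 x → R0 ⊆ R →
      ∃ ψ : G →* E.N.Group, E.Hom x ψ

/-- folding the double onto the group: a map to a semidirect product, written out -/
structure Fold {M : CoxeterMatrix S} {R : Set S} (E : Dbl M R) (x : S → G)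
    (ι : G →* E.N.Group) (fo : E.N.Group → G) (th : E.N.Group →* MulAut G)
    (ke : E.N.Group →* (S → ℤˣ)) : Prop where
  mul : ∀ c c', fo (c * c') = fo c * th c (fo c')
  fi : ∀ g, fo (ι g) = g ∧ ke (ι g) = 1
  thk : ∀ c, ke c = 1 → th c = 1
  thx : ∀ c s, th c (x s) = x s ^ ((ke c s : ℤˣ) : ℤ)
  fa : ∀ s, fo (sr E.N (E.a s)) = x s
  fb : ∀ s, s ∉ R → fo (sr E.N (E.b s)) = 1
  ke1 : ∀ i, E.p i ∉ R → ke (sr E.N i) (E.p i) = -1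
  ke0 : ∀ i s, (s ∈ R ∨ s ≠ E.p i) → ke (sr E.N i) s = 1

def St_FOLD : Prop := ∀ (S G : Type) [Group G] (M : CoxeterMatrix S) (R : Set S) (x : S → G)
  (E : Dbl M R) (ι : G →* E.N.Group), IsDyer M R x → Flex M R → E.Hom x ι →
    ∃ fo th ke, Fold E x ι fo th ke

def St_SIDE : Prop := ∀ (S G : Type) [Fintype S] [DecidableEq S] [Group G] (M : CoxeterMatrix S)
  (R R0 : Set S) (x : S → G), IsDyer M R0 x → R0 ⊆ R → Flex M R → NoSph M →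
    Nonempty (Side M R x)

def St_ASIDE : Prop := ∀ (S G : Type) [Fintype S] [DecidableEq S] [Group G] (M : CoxeterMatrix S)
  (x : S → G), IsDyer M ∅ x → NoSph M → Nonempty (ASide M x)

/-- standard subgroups have the standard presentation -/
def St_RESTR : Prop := ∀ (S G : Type) [Fintype S] [DecidableEq S] [Group G] (M : CoxeterMatrix S)
  (R : Set S) (x : S → G), IsDyer M R x → Flex M R → ∀ T : Set S,
    (∀ (H : Type) [Group H] (f : S → H), Braid M T f → (∀ s ∈ T, s ∈ R → f s * f s = 1) →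
      ∃ φ : gp x T →* H, ∀ s (h : x s ∈ gp x T), s ∈ T → φ ⟨x s, h⟩ = f s) ∧
    IsDyer (res M T) {s | s.1 ∈ R} (fun s : T => (⟨x s, gp_mem x s.2⟩ : gp x T))

/-- parabolic subgroups -/
structure DPar (M : CoxeterMatrix S) (R : Set S) (x : S → G) : Prop where
  inter : ∀ T U, gp x T ⊓ gp x U = gp x (T ∩ U)
  mem : ∀ s T, x s ∈ gp x T ↔ s ∈ T
  ncomm : ∀ s t, s ≠ t → M s t ≠ 2 → ¬ Commute (x s) (x t)
  ord : ∀ s ∈ R, ∀ t ∈ R, orderOf (x s * x t) = M s t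
  inf : ∀ s, s ∉ R → ¬ IsOfFinOrder (x s)
  fin : ∀ T, Finite (gp x T) ↔ Simplex M T ∧ T ⊆ R
  kil : ∀ h T U, ∃ u ∈ gp x T, ∃ T0, T0 ⊆ T ∧ gp x T ⊓ cj h (gp x U) = cj u (gp x T0)
  pcl : ∀ (Z : Subgroup G) h T, Z ≤ cj h (gp x T) → ∃ d T0, T0 ⊆ T ∧ Z ≤ cj d (gp x T0) ∧
    ∀ h' U, Z ≤ cj h' (gp x U) → cj d (gp x T0) ≤ cj h' (gp x U)
  tl : ∀ T U h, Indep M T → Two T → cj h (gp x T) ≤ gp x U →
    T ⊆ U ∧ ∃ v ∈ gp x U, ∃ n ∈ gp x (perp M T), h = v * n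

/-- free products of cyclic groups -/
structure Free (M : CoxeterMatrix S) (R : Set S) (x : S → G) (T : Set S) : Prop where
  cen : ∀ g ∈ gp x T, g ≠ 1 → ∀ g1 ∈ gp x T, ∀ g2 ∈ gp x T, Commute g1 g → Commute g2 g →
    Commute g1 g2
  tor : ∀ g ∈ gp x T, IsOfFinOrder g → g = 1 ∨ ∃ t ∈ T, t ∈ R ∧ ∃ u ∈ gp x T, g = u * x t * u⁻¹
  tcen : ∀ g ∈ gp x T, IsOfFinOrder g → g ≠ 1 → ∀ h ∈ gp x T, Commute h g → h = 1 ∨ h = g
  maln : ∀ A, A ⊆ T → ∀ g ∈ gp x T, ∀ y ∈ gp x A, y ≠ 1 → y ∈ cj g (gp x A) → g ∈ gp x A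
  ncj : ∀ A, A ⊆ T → ∀ t ∈ T, ∀ u ∈ gp x T, x t ∈ cj u (gp x A) → t ∈ A
  cmm : ∀ h U, Two T → (∀ g1 ∈ gp x T, ∀ g2 ∈ gp x T, cm g1 g2 ∈ cj h (gp x U)) →
    gp x T ≤ cj h (gp x U) ∧ T ⊆ U
  cent : Two T → ∀ g, (∀ t ∈ T, Commute g (x t)) ↔ g ∈ gp x (perp M T)

def St_DPAR : Prop := ∀ (S G : Type) [Fintype S] [DecidableEq S] [Group G] (M : CoxeterMatrix S)
  (R : Set S) (x : S → G), DP M R x → DPar M R x

def St_FREE : Prop := ∀ (S G : Type) [Fintype S] [DecidableEq S] [Group G] (M : CoxeterMatrix S)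
  (R : Set S) (x : S → G), DP M R x → ∀ T, Indep M T → Free M R x T

end Dyer

theorem CA_of (h1 : St_C0a) (h2 : St_C0b) (h3 : St_C0c) (h4 : St_C1a) (h5 : St_C1b) (h6 : St_C1t)
    (h7 : St_C1c) (h8 : St_C1d) (h9 : St_C2a) (h10 : St_C2b) : St_CA :=
  fun B _ _ N h => ⟨h1 B N, h2 B N, h3 B N, h4 B N, h5 B N h, h6 B N h, h7 B N h, h8 B N h,
    h9 B N, h10 B N h⟩

end Pool.Agent.Lib.MP_1b8ce0_al.T
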