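import Mathlib
import Pool.Agent.Lib.MP_1b8ce0_al.T.StsA

set_option linter.unusedSectionVars false
set_option linter.dupNamespace false

namespace Pool.Agent.Lib.MP_1b8ce0_al.T

open Pool.Agent.Lib.MP_6d85b4_al

/-- functions on `W` extended by `W` acting by conjugation -/
@[ext] structure ASIDE_W (W : Type) where
  f : W → ℤ
  g : W

section Wr

variable {W : Type} [Group W]

instance ASIDE_mul : Mul (ASIDE_W W) :=
  ⟨fun a b => ⟨fun r => a.f r + b.f (a.g⁻¹ * r * a.g), a.g * b.g⟩⟩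
instance ASIDE_one : One (ASIDE_W W) := ⟨⟨fun _ => 0, 1⟩⟩
instance ASIDE_inv : _root_.Inv (ASIDE_W W) :=
  ⟨fun a => ⟨fun r => - a.f (a.g * r * a.g⁻¹), a.g⁻¹⟩⟩

@[simp] theorem ASIDE_mul_f (a b : ASIDE_W W) (r : W) :
    (a * b).f r = a.f r + b.f (a.g⁻¹ * r * a.g) := rfl
@[simp] theorem ASIDE_mul_g (a b : ASIDE_W W) : (a * b).g = a.g * b.g := rfl
@[simp] theorem ASIDE_one_f (r : W) : (1 : ASIDE_W W).f r = 0 := rfl
@[simp] theorem ASIDE_one_g : (1 : ASIDE_W W).g = 1 := rfl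
@[simp] theorem ASIDE_inv_f (a : ASIDE_W W) (r : W) : a⁻¹.f r = - a.f (a.g * r * a.g⁻¹) := rfl
@[simp] theorem ASIDE_inv_g (a : ASIDE_W W) : a⁻¹.g = a.g⁻¹ := rfl

instance ASIDE_group : Group (ASIDE_W W) :=
  Group.ofLeftAxioms
    (fun a b c => by ext r <;> simp [mul_assoc, add_assoc])
    (fun a => by ext r <;> simp)
    (fun a => by ext r <;> simp [mul_assoc])

/-- the second component -/
def ASIDE_proj : ASIDE_W W →* W where
  toFun := ASIDE_W.g
  map_one' := rfl
  map_mul' := fun _ _ => rfl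

open Classical in
/-- the indicator of one element -/
noncomputable def ASIDE_d (y r : W) : ℤ := if r = y then 1 else 0

theorem ASIDE_d_self (y : W) : ASIDE_d y y = 1 := by simp [ASIDE_d]

theorem ASIDE_d_ne {y r : W} (h : r ≠ y) : ASIDE_d y r = 0 := by simp [ASIDE_d, h]

theorem ASIDE_d_conj (c y r : W) : ASIDE_d y (c⁻¹ * r * c) = ASIDE_d (c * y * c⁻¹) r := by
  by_cases h : r = c * y * c⁻¹
  · subst h
    rw [ASIDE_d_self]
    have : c⁻¹ * (c * y * c⁻¹) * c = y := by group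
    rw [this, ASIDE_d_self]
  · rw [ASIDE_d_ne h, ASIDE_d_ne]
    intro e
    apply h
    rw [← e]
    group

/-- the lift of an involution -/
noncomputable def ASIDE_e (s : W) : ASIDE_W W := ⟨ASIDE_d s, s⟩

theorem ASIDE_alt_succ {H : Type} [Monoid H] (s t : H) (k : ℕ) :
    alt s t (k + 1) = s * alt t s k := by
  unfold alt
  rw [List.range_succ_eq_map, List.map_cons, List.prod_cons, List.map_map]
  simp only [Nat.zero_mod, if_true]
  congr 2
  apply List.map_congr_left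
  intro i _
  by_cases h : i % 2 = 0
  · have h' : ¬ (i + 1) % 2 = 0 := by omega
    simp [h, h']
  · have h' : (i + 1) % 2 = 0 := by omega
    simp [h, h']

theorem ASIDE_alt_f (k : ℕ) : ∀ (s t : W), s * s = 1 → t * t = 1 → ∀ r,
    (alt (ASIDE_e s) (ASIDE_e t) k).f r =
      ∑ l ∈ Finset.range k, ASIDE_d ((s * t) ^ l * s) r := by
  induction k with
  | zero => intro s t _ _ r; simp [alt]
  | succ k ih =>
    intro s t hs ht r
    rw [ASIDE_alt_succ, ASIDE_mul_f, ih t s ht hs, Finset.sum_range_succ', add_comm]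
    congr 1
    · refine Finset.sum_congr rfl fun l _ => ?_
      show ASIDE_d ((t * s) ^ l * t) (s⁻¹ * r * s) = _
      rw [ASIDE_d_conj]
      congr 1
      have h1 : s⁻¹ = s := inv_eq_of_mul_eq_one_right hs
      have h2 : s * (t * s) ^ l = (s * t) ^ l * s := (mul_pow_mul s t l).symm
      rw [h1, ← mul_assoc, h2, pow_succ]
      simp only [mul_assoc]
    · simp [ASIDE_e]

theorem ASIDE_braid (s t : W) (m : ℕ) (hs : s * s = 1) (ht : t * t = 1)
    (hb : alt s t m = alt t s m) (hm : (s * t) ^ m = 1) :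
    alt (ASIDE_e s) (ASIDE_e t) m = alt (ASIDE_e t) (ASIDE_e s) m := by
  ext r
  · rw [ASIDE_alt_f m s t hs ht, ASIDE_alt_f m t s ht hs, ← Finset.sum_range_reflect]
    refine Finset.sum_congr rfl fun l hl => ?_
    congr 1
    have hl' := Finset.mem_range.mp hl
    have h1 : (s * t) ^ (m - 1 - l) * (s * t) ^ (l + 1) = 1 := by
      rw [← pow_add, ← hm]
      congr 1
      omega
    have h2 : (t * s) * (s * t) = 1 := by
      rw [mul_assoc, ← mul_assoc s, hs, one_mul, ht]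
    have h3 : (t * s) ^ (l + 1) * (s * t) ^ (l + 1) = 1 := by
      rw [eq_inv_of_mul_eq_one_left h2, inv_pow, inv_mul_cancel]
    have h4 : (s * t) ^ (m - 1 - l) = (t * s) ^ (l + 1) := by
      rw [eq_inv_of_mul_eq_one_left h1, eq_inv_of_mul_eq_one_left h3]
    rw [h4, pow_succ, mul_assoc, mul_assoc, hs, mul_one]
  · have h1 := map_alt ASIDE_proj (ASIDE_e s) (ASIDE_e t) m
    have h2 := map_alt ASIDE_proj (ASIDE_e t) (ASIDE_e s) m
    exact h1.trans (hb.trans h2.symm)

theorem ASIDE_fin_conj (f : W → ℤ) (c : W) (h : (Function.support f).Finite) :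
    (Function.support fun r => f (c⁻¹ * r * c)).Finite := by
  refine (h.image fun y => c * y * c⁻¹).subset fun r hr => ⟨c⁻¹ * r * c, hr, ?_⟩
  show c * (c⁻¹ * r * c) * c⁻¹ = r
  group

theorem ASIDE_sum_mul (κ : W → ℤ) (hκ : ∀ c r, κ (c * r * c⁻¹) = κ r) (a b : ASIDE_W W)
    (ha : (Function.support a.f).Finite) (hb : (Function.support b.f).Finite) :
    ∑ᶠ r, (a * b).f r * κ r = ∑ᶠ r, a.f r * κ r + ∑ᶠ r, b.f r * κ r := by
  have h1 : ∑ᶠ r, b.f r * κ r = ∑ᶠ r, b.f (a.g⁻¹ * r * a.g) * κ r := by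
    rw [← finsum_comp_equiv (MulAut.conj a.g⁻¹).toEquiv]
    refine finsum_congr fun r => ?_
    show b.f (a.g⁻¹ * r * a.g⁻¹⁻¹) * κ (a.g⁻¹ * r * a.g⁻¹⁻¹) = _
    rw [hκ, inv_inv]
  rw [h1, ← finsum_add_distrib]
  · exact finsum_congr fun r => by rw [ASIDE_mul_f, add_mul]
  · exact ha.subset fun r hr => left_ne_zero_of_mul hr
  · exact (ASIDE_fin_conj b.f a.g hb).subset fun r hr => left_ne_zero_of_mul hr

theorem ASIDE_sum_e (κ : W → ℤ) (s : W) : ∑ᶠ r, (ASIDE_e s).f r * κ r = κ s := by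
  rw [finsum_eq_single _ s]
  · show ASIDE_d s s * κ s = κ s
    rw [ASIDE_d_self, one_mul]
  · intro r hr
    show ASIDE_d s r * κ r = 0
    rw [ASIDE_d_ne hr, zero_mul]

end Wr

section Cox

variable {B : Type} [Fintype B] [DecidableEq B] {N : CoxeterMatrix B}

theorem ASIDE_refl_conj (h : C0a N) (c : N.Group) {r : N.Group} (hr : IsRefl N r) :
    IsRefl N (c * r * c⁻¹) := by
  obtain ⟨a, ha⟩ := hr
  exact ⟨_, h.refl_conj c r a ha⟩

/-- the elements that count walls correctly -/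
def ASIDE_Good (h : C0a N) : Subgroup (ASIDE_W N.Group) where
  carrier := {z | (Function.support z.f).Finite ∧ (∀ r, z.f r ≠ 0 → IsRefl N r) ∧
    ∀ r a, ReflOf N r a → (Odd (z.f r) ↔ ¬ (Pos a ↔ Pos (rho N z.g⁻¹ a)))}
  one_mem' := by
    refine ⟨?_, fun r hr => absurd rfl hr, fun r a _ => ?_⟩
    · exact Set.finite_empty.subset fun r hr => absurd rfl hr
    · simp
  mul_mem' := by
    rintro z w ⟨z1, z2, z3⟩ ⟨w1, w2, w3⟩
    refine ⟨?_, fun r hr => ?_, fun r a ha => ?_⟩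
    · refine (z1.union (ASIDE_fin_conj w.f z.g w1)).subset fun r hr => ?_
      by_contra hc
      simp only [Set.mem_union, Function.mem_support, not_or, not_not] at hc
      apply hr
      rw [ASIDE_mul_f, hc.1, hc.2, add_zero]
    · by_cases h1 : z.f r = 0
      · rw [ASIDE_mul_f, h1, zero_add] at hr
        have h2 := ASIDE_refl_conj h z.g (w2 _ hr)
        have h3 : z.g * (z.g⁻¹ * r * z.g) * z.g⁻¹ = r := by group
        rwa [h3] at h2
      · exact z2 r h1
    · have h1 := h.refl_conj z.g⁻¹ r a ha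
      rw [inv_inv] at h1
      rw [ASIDE_mul_f, Int.odd_add, ← Int.not_odd_iff_even, z3 r a ha, w3 _ _ h1, ASIDE_mul_g,
        mul_inv_rev, rho_mul]
      tauto
  inv_mem' := by
    rintro z ⟨z1, z2, z3⟩
    refine ⟨?_, fun r hr => ?_, fun r a ha => ?_⟩
    · refine (ASIDE_fin_conj z.f z.g⁻¹ z1).subset fun r hr => ?_
      rw [Function.mem_support, inv_inv]
      intro e
      apply hr
      rw [ASIDE_inv_f, e, neg_zero]
    · rw [ASIDE_inv_f, neg_ne_zero] at hr
      have h2 := ASIDE_refl_conj h z.g⁻¹ (z2 _ hr)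
      have h3 : z.g⁻¹ * (z.g * r * z.g⁻¹) * z.g⁻¹⁻¹ = r := by group
      rwa [h3] at h2
    · have h1 := h.refl_conj z.g r a ha
      rw [ASIDE_inv_f, odd_neg, z3 _ _ h1, rho_inv, ASIDE_inv_g, inv_inv]
      tauto

theorem ASIDE_pos_neg (h : C0a N) {a : B → ℝ} (ha : IsRoot N a) : Pos (-a) ↔ ¬ Pos a :=
  ⟨fun h1 h2 => h.root_not a ha h2 h1, fun h1 => (h.root_pos a ha).resolve_left h1⟩

theorem ASIDE_sq (i : B) : sr N i * sr N i = 1 := N.toCoxeterSystem.simple_mul_simple_self i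

theorem ASIDE_e_mem (h : C0a N) (i : B) : ASIDE_e (sr N i) ∈ ASIDE_Good h := by
  have hi := (h.root_al i).2
  have hinv : (sr N i)⁻¹ = sr N i := inv_eq_of_mul_eq_one_right (ASIDE_sq i)
  refine ⟨?_, fun r hr => ?_, fun r a ha => ?_⟩
  · refine (Set.finite_singleton (sr N i)).subset fun r hr => ?_
    by_contra hc
    exact hr (ASIDE_d_ne hc)
  · have : r = sr N i := by
      by_contra hc
      exact hr (ASIDE_d_ne hc)
    exact ⟨_, this ▸ hi⟩
  · show Odd (ASIDE_d (sr N i) r) ↔ ¬ (Pos a ↔ Pos (rho N (sr N i)⁻¹ a))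
    have hra := h.refl_isRoot r a ha
    rw [hinv]
    by_cases hr : r = sr N i
    · subst hr
      have h1 : rho N (sr N i) a = -a := by
        rw [h.refl_eq _ a ha, h.root_norm a hra, mul_one, two_smul]
        abel
      rw [ASIDE_d_self, h1, ASIDE_pos_neg h hra]
      simp only [odd_one, true_iff]
      tauto
    · rw [ASIDE_d_ne hr]
      have h1 : a ≠ al i := fun e => hr (h.refl_uniq _ _ _ ha (e ▸ hi))
      have h2 : -a ≠ al i := fun e => hr (h.refl_uniq _ _ _ (h.refl_neg _ _ ha) (e ▸ hi))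
      have h3 : Pos a ↔ Pos (rho N (sr N i) a) := by
        refine ⟨fun hp => h.simple_pos a i hra hp h1, fun hp => ?_⟩
        by_contra hn
        have h4 := h.simple_pos (-a) i (h.root_neg a hra) ((ASIDE_pos_neg h hra).2 hn) h2
        rw [map_neg, ASIDE_pos_neg h (h.root_rho _ a hra)] at h4
        exact h4 hp
      simp only [Int.not_odd_zero, false_iff, not_not]
      exact h3

/-- the lifted generators -/
noncomputable def ASIDE_E (h : C0a N) (i : B) : ASIDE_Good h := ⟨ASIDE_e (sr N i), ASIDE_e_mem h i⟩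

theorem ASIDE_E_braid (h : C0a N) (hb : C0b N) : Braid N Set.univ (ASIDE_E h) := by
  intro i _ j _ hij h0
  apply Subtype.ext
  have h1 := map_alt (ASIDE_Good h).subtype (ASIDE_E h i) (ASIDE_E h j) (N i j)
  have h2 := map_alt (ASIDE_Good h).subtype (ASIDE_E h j) (ASIDE_E h i) (N i j)
  refine h1.trans (Eq.trans ?_ h2.symm)
  exact ASIDE_braid _ _ _ (ASIDE_sq i) (ASIDE_sq j)
    (hb.dyer.braid i trivial j trivial hij h0) (N.toCoxeterSystem.simple_mul_simple_pow i j)

theorem ASIDE_E_comm (h : C0a N) (hb : C0b N) {i j : B} (h2 : N i j = 2) :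
    Commute (ASIDE_E h i) (ASIDE_E h j) := by
  have hij : i ≠ j := by
    rintro rfl
    rw [N.diagonal] at h2
    omega
  have h1 := ASIDE_E_braid h hb i trivial j trivial hij (by omega)
  rw [h2] at h1
  have e1 := alt_two_mul (ASIDE_E h i) (ASIDE_E h j) 1
  have e2 := alt_two_mul (ASIDE_E h j) (ASIDE_E h i) 1
  rw [mul_one, pow_one] at e1 e2
  exact e1.symm.trans (h1.trans e2)

/-- weighted count -/
noncomputable def ASIDE_T (h : C0a N) (κ : N.Group → ℤ) (hκ : ∀ c r, κ (c * r * c⁻¹) = κ r) :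
    ASIDE_Good h →* Multiplicative ℤ :=
  MonoidHom.mk' (fun z => Multiplicative.ofAdd (∑ᶠ r, z.1.f r * κ r)) fun a b => by
    rw [← ofAdd_add, ← ASIDE_sum_mul κ hκ a.1 b.1 a.2.1 b.2.1]
    rfl

theorem ASIDE_T_E (h : C0a N) (κ : N.Group → ℤ) (hκ : ∀ c r, κ (c * r * c⁻¹) = κ r) (i : B) :
    ASIDE_T h κ hκ (ASIDE_E h i) = Multiplicative.ofAdd (κ (sr N i)) :=
  congrArg Multiplicative.ofAdd (ASIDE_sum_e κ (sr N i))

theorem ASIDE_class (hD : D1 N Set.univ (sr N)) (k : B → ℤ)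
    (hk : ∀ i j, i ≠ j → Odd (N i j) → k i = k j) :
    ∃ κ : N.Group → ℤ, (∀ c r, κ (c * r * c⁻¹) = κ r) ∧ ∀ i, κ (sr N i) = k i := by
  classical
  let K : (B → Prop) → ℤ := fun P => if h : ∃ i, P i then k h.choose else 0
  refine ⟨fun r => K fun i => IsConj r (sr N i), fun c r => ?_, fun i => ?_⟩
  · have h1 : IsConj r (c * r * c⁻¹) := isConj_iff.mpr ⟨c, rfl⟩
    exact congrArg K (funext fun i => propext ⟨fun h => h1.trans h, fun h => h1.symm.trans h⟩)
  · have h1 : ∃ j, IsConj (sr N i) (sr N j) := ⟨i, IsConj.refl _⟩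
    have h2 := (hD.conj _ _).1 h1.choose_spec
    show (if h : ∃ j, IsConj (sr N i) (sr N j) then k h.choose else 0) = k i
    rw [dif_pos h1]
    generalize h1.choose = j at h2
    induction h2 with
    | refl => rfl
    | tail _ hs ih => exact (hk _ _ hs.1 hs.2).symm.trans ih

/-- parity -/
def ASIDE_par : Multiplicative ℤ →* ℤˣ :=
  MonoidHom.mk' (fun n => Int.negOnePow n.toAdd) fun a b => by
    rw [toAdd_mul, Int.negOnePow_add]

end Cox

theorem ASIDE_flex {S : Type} (M : CoxeterMatrix S) : Flex M (Big M) := by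
  intro s hs t ht
  have h1 : ¬ 3 ≤ M s t := fun h => hs ⟨t, h⟩
  have h2 : M s t ≠ 1 := M.off_diagonal s t ht.symm
  omega

theorem ASIDE_thm (h0 : St_CA) (h1 : St_D1) (h4 : St_SIDE) : St_ASIDE := by
  intro S G _ _ _ M x hx hM
  classical
  obtain ⟨E⟩ := h4 S G M (Big M) ∅ x hx (Set.empty_subset _) (ASIDE_flex M) hM
  have hA := (h0 _ E.N E.ns).a0
  have hB := (h0 _ E.N E.ns).b0
  have hG := h1.2 S G M ∅ x hx
  have hW := h1.2 _ _ E.N Set.univ (sr E.N) hB.dyer
  let F : S → ASIDE_Good hA := fun s =>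
    if s ∈ Big M then ASIDE_E hA (E.a s) else ASIDE_E hA (E.a s) * ASIDE_E hA (E.b s)
  have F1 : ∀ s, s ∈ Big M → F s = ASIDE_E hA (E.a s) := fun s hs => if_pos hs
  have F2 : ∀ s, s ∉ Big M → F s = ASIDE_E hA (E.a s) * ASIDE_E hA (E.b s) :=
    fun s hs => if_neg hs
  have hc : ∀ s t, s ≠ t → M s t = 2 → Commute (F s) (F t) := by
    intro s t hst h2
    have key : ∀ i j, E.p i = s → E.p j = t → Commute (ASIDE_E hA i) (ASIDE_E hA j) := by
      intro i j hi hj
      apply ASIDE_E_comm hA hB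
      rw [E.lab i j (by rw [hi, hj]; exact hst), hi, hj, h2]
    have k2 : ∀ i, E.p i = s → Commute (ASIDE_E hA i) (F t) := by
      intro i hi
      by_cases ht : t ∈ Big M
      · rw [F1 t ht]
        exact key _ _ hi (E.pa t)
      · rw [F2 t ht]
        exact (key _ _ hi (E.pa t)).mul_right (key _ _ hi (E.pb t))
    by_cases hs : s ∈ Big M
    · rw [F1 s hs]
      exact k2 _ (E.pa s)
    · rw [F2 s hs]
      exact (k2 _ (E.pa s)).mul_left (k2 _ (E.pb s))
  have hbr : Braid M Set.univ F := by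
    intro s _ t _ hst hm
    by_cases h2 : M s t = 2
    · have e1 := alt_two_mul (F s) (F t) 1
      have e2 := alt_two_mul (F t) (F s) 1
      rw [mul_one, pow_one] at e1 e2
      rw [h2, e1, e2]
      exact hc s t hst h2
    · have h3 : M s t ≠ 1 := M.off_diagonal s t hst
      have hs : s ∈ Big M := ⟨t, by omega⟩
      have ht : t ∈ Big M := ⟨s, by rw [M.symmetric]; omega⟩
      have hp : E.p (E.a s) ≠ E.p (E.a t) := by rw [E.pa, E.pa]; exact hst
      have hl := E.lab _ _ hp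
      rw [E.pa, E.pa] at hl
      rw [F1 s hs, F1 t ht, ← hl]
      exact ASIDE_E_braid hA hB _ trivial _ trivial (fun e => hp (congrArg E.p e)) (hl ▸ hm)
  obtain ⟨Φ, hΦ⟩ := hx.lift _ F hbr (fun s hs => absurd hs (Set.notMem_empty s))
  have hψ : ∀ g, (Φ g).1.g = E.ψ g := by
    have := hG.ext _ ((ASIDE_proj.comp (ASIDE_Good hA).subtype).comp Φ) E.ψ (by
      intro s
      show (Φ (x s)).1.g = _
      rw [hΦ]
      by_cases hs : s ∈ Big M
      · rw [F1 s hs, E.hom.1 s hs]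
        rfl
      · rw [F2 s hs, E.hom.2 s hs]
        rfl)
    exact fun g => DFunLike.congr_fun this g
  have hsum : ∀ g, Odd (∑ᶠ r, (Φ g).1.f r) ↔ sg E.N (E.ψ g) = -1 := by
    intro g
    have := hG.ext _ ((ASIDE_par.comp (ASIDE_T hA (fun _ => 1) fun _ _ => rfl)).comp Φ)
      ((sg E.N).comp E.ψ) (by
        intro s
        simp only [MonoidHom.comp_apply]
        rw [hΦ]
        by_cases hs : s ∈ Big M
        · rw [F1 s hs, E.hom.1 s hs, ASIDE_T_E, sg_sr]
          rfl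
        · rw [F2 s hs, E.hom.2 s hs, map_mul, map_mul, map_mul, ASIDE_T_E, ASIDE_T_E, sg_sr,
            sg_sr]
          rfl)
    have h2 : Int.negOnePow (∑ᶠ r, (Φ g).1.f r * 1) = sg E.N (E.ψ g) := DFunLike.congr_fun this g
    simp only [mul_one] at h2
    rw [← h2, Int.negOnePow_eq_neg_one_iff]
  let ν : NData E.N E.ψ :=
    { n := fun g => (Φ g).1.f
      fin := fun g => (Φ g).2.1
      refl := fun g => (Φ g).2.2.1
      mul := fun g h r => by
        rw [map_mul, ← hψ g]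
        rfl
      odd := fun g r a ha hp => by
        rw [(Φ g).2.2.2 r a ha, hψ,
          ASIDE_pos_neg hA (hA.root_rho _ a (hA.refl_isRoot r a ha))]
        tauto
      sum := hsum }
  refine ⟨{ E with art := hx, nsM := hM, ν := ν, n1 := ?_, n0 := ?_, ex := ?_ }⟩
  · intro s hs
    show (Φ (x s)).1.f _ = 1
    rw [hΦ, F1 s hs]
    exact ASIDE_d_self _
  · intro s hs r hr
    show (Φ (x s)).1.f _ = 0
    rw [hΦ, F1 s hs]
    exact ASIDE_d_ne hr
  · intro χ
    let k : E.B → ℤ := fun i => if i = E.a (E.p i) then (χ (x (E.p i))).toAdd else 0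
    have ka : ∀ s, k (E.a s) = (χ (x s)).toAdd := by
      intro s
      show (if E.a s = E.a (E.p (E.a s)) then (χ (x (E.p (E.a s)))).toAdd else 0) = _
      rw [E.pa, if_pos rfl]
    have kb : ∀ s, s ∉ Big M → k (E.b s) = 0 := by
      intro s hs
      show (if E.b s = E.a (E.p (E.b s)) then (χ (x (E.p (E.b s)))).toAdd else 0) = _
      rw [E.pb, if_neg fun e => hs ((E.ab s).1 e.symm)]
    obtain ⟨κ, hκ, hk⟩ := ASIDE_class hW k (by
      intro i j hij ho
      have h3 : E.N i j ≠ 1 := E.N.off_diagonal i j hij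
      have h5 : 3 ≤ E.N i j := by
        obtain ⟨m, hm⟩ := ho
        omega
      obtain ⟨s, _, rfl⟩ := E.big i j h5
      obtain ⟨t, _, rfl⟩ := E.big j (E.a s) (by rw [E.N.symmetric]; exact h5)
      have hst : s ≠ t := fun e => hij (congrArg E.a e)
      have hl := E.lab (E.a s) (E.a t) (by rw [E.pa, E.pa]; exact hst)
      rw [E.pa, E.pa] at hl
      have h6 : IsConj (x s) (x t) :=
        (hG.conj s t).2 (Relation.ReflTransGen.single ⟨hst, hl ▸ ho⟩)
      rw [ka, ka, isConj_iff_eq.mp (χ.map_isConj h6)])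
    refine ⟨κ, hκ, fun g => ?_⟩
    have := hG.ext _ χ ((ASIDE_T hA κ hκ).comp Φ) (by
      intro s
      simp only [MonoidHom.comp_apply]
      rw [hΦ]
      by_cases hs : s ∈ Big M
      · rw [F1 s hs, ASIDE_T_E, hk, ka, ofAdd_toAdd]
      · rw [F2 s hs, map_mul, ASIDE_T_E, ASIDE_T_E, hk, hk, ka, kb s hs, ofAdd_toAdd, ofAdd_zero,
          mul_one])
    rw [this]
    rfl

end Pool.Agent.Lib.MP_1b8ce0_al.T
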