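import Pool.Agent.Lib.MP_1b8ce0_al.T.StsC

set_option linter.unusedSectionVars false
set_option linter.dupNamespace false

namespace Pool.Agent.Lib.MP_1b8ce0_al.T

theorem asm_main (hIA : St_IA) (hIB : St_IB) (hM : St_MATCH) (hGL : St_GL) (hH1 : St_H1)
    (S S' : Type) [Finite S] [Finite S'] (M : CoxeterMatrix S) (M' : CoxeterMatrix S')
    (h : NoSph M) (h' : NoSph M') :
    Nonempty (ArtinGroup M ≃* ArtinGroup M') ↔ TwistEquiv M M' := by
  classical
  have := Fintype.ofFinite S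
  have := Fintype.ofFinite S'
  refine ⟨fun hi => ?_, hH1 S S' M M'⟩
  obtain ⟨D, _, R, x, R', x', d, d', m⟩ := hIA S S' M M' h h' hi
  obtain ⟨D1, _, R1, x1, R1', x1', e, e', m1, l, l'⟩ := hIB D S S' M R x M' R' x' d d' m
  obtain ⟨V, E, hm⟩ := hM D1 S S' M R1 x1 M' R1' x1' e e' m1 l l'
  exact hGL S S' M M' V E h h' hm

theorem asm (hIA : St_IA) (hIB : St_IB) (hM : St_MATCH) (hGL : St_GL) (hH1 : St_H1)
    (hH2 : St_H2) :
    (∀ (S S' : Type) [Finite S] [Finite S'] (M : CoxeterMatrix S) (M' : CoxeterMatrix S'),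
      TwoDim M → TwoDim M' →
        (Nonempty (ArtinGroup M ≃* ArtinGroup M') ↔ TwistEquiv M M')) ∧
    ∃ f : List (List ℕ) × List (List ℕ) → Bool, Computable f ∧
      ∀ (n n' : ℕ) (M : CoxeterMatrix (Fin n)) (M' : CoxeterMatrix (Fin n')),
        TwoDim M → TwoDim M' →
          (f (table M, table M') = true ↔ Nonempty (ArtinGroup M ≃* ArtinGroup M')) := by
  refine ⟨fun S S' _ _ M M' h h' => asm_main hIA hIB hM hGL hH1 S S' M M' h.2 h'.2, ?_⟩
  obtain ⟨f, hf, hc⟩ := hH2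
  refine ⟨f, hf, fun n n' M M' h h' => ?_⟩
  rw [hc, asm_main hIA hIB hM hGL hH1 _ _ M M' h.2 h'.2]

end Pool.Agent.Lib.MP_1b8ce0_al.T
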