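import Mathlib
import Pool.Agent.Lib.MP_1b8ce0_al.T.StsA

set_option linter.dupNamespace false

namespace Pool.Agent.Lib.MP_1b8ce0_al.T

open Pool.Agent.Lib.MP_6d85b4_al

section

variable {B : Type} [Fintype B] [DecidableEq B] {N : CoxeterMatrix B} {a b : B → ℝ}
  {r r' : N.Group}

theorem C0a_norm (h : IsRoot N a) : Bf N a a = 1 := by
  obtain ⟨w, i, rfl⟩ := h
  rw [Bf, root_norm]
  norm_num

theorem C0a_ne (h : IsRoot N a) : a ≠ 0 := by
  rintro rfl
  have := C0a_norm h
  simp [Bf, bf] at this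

theorem C0a_not (h : IsRoot N a) (h1 : Pos a) : ¬ Pos (-a) := fun h2 =>
  C0a_ne h (funext fun i => le_antisymm (neg_nonneg.1 (h2 i)) (h1 i))

theorem C0a_al (i : B) : IsRoot N (al i) := ⟨1, i, (rho_one N _).symm⟩

theorem C0a_rho (w : N.Group) (h : IsRoot N a) : IsRoot N (rho N w a) := by
  obtain ⟨u, i, rfl⟩ := h
  exact ⟨w * u, i, (rho_mul N _ _ _).symm⟩

theorem C0a_sr_al (i : B) : rho N (sr N i) (al i) = -al i := by rw [rho_simple, rf_self]

theorem C0a_sr_sr (i : B) (v : B → ℝ) : rho N (sr N i) (rho N (sr N i) v) = v := by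
  rw [rho_simple, rf_rf]

theorem C0a_faith (w : N.Group) (h : ∀ i, Pos (rho N w (al i))) : w = 1 := by
  by_contra hw
  obtain ⟨i, hi⟩ := N.toCoxeterSystem.exists_rightDescent_of_ne_one hw
  have := pos_of_not_descent N _ i
    ((N.toCoxeterSystem.isRightDescent_iff_not_isRightDescent_mul).1 hi)
  rw [rho_mul, C0a_sr_al, map_neg] at this
  exact C0a_not (C0a_rho w (C0a_al i)) (h i) this

theorem C0a_eq (h : ReflOf N r a) (v : B → ℝ) : rho N r v = v - (2 * Bf N a v) • a := by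
  obtain ⟨w, i, rfl, rfl⟩ := h
  rw [rho_mul, rho_mul, rho_simple, rf_apply, map_add, map_smul, rho_inv', ← bf_al,
    ← bf_rho N w, rho_inv', Bf]
  module

theorem C0a_uniq (h : ReflOf N r a) (h' : ReflOf N r' a) : r = r' := by
  refine (inv_mul_eq_one.1 (C0a_faith _ fun i => ?_)).symm
  rw [rho_mul, C0a_eq h, ← C0a_eq h', rho_inv]
  exact pos_al i

theorem C0a_isRoot (h : ReflOf N r a) : IsRoot N a := by
  obtain ⟨w, i, e, -⟩ := h
  exact ⟨w, i, e⟩

theorem C0a_smul {t : ℝ} (h : IsRoot N a) (h' : IsRoot N (t • a)) : t = 1 ∨ t = -1 := by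
  have := C0a_norm h'
  rw [Bf_smul_left, Bf_smul_right, C0a_norm h, mul_one] at this
  exact mul_self_eq_one_iff.1 this

theorem C0a_smul' {t : ℝ} (h : IsRoot N a) (h' : IsRoot N b) (e : a = t • b) :
    b = a ∨ b = -a := by
  rcases C0a_smul h' (e ▸ h) with rfl | rfl
  · left; rw [e, one_smul]
  · right; rw [e, neg_one_smul, neg_neg]

theorem C0a_root (h : ReflOf N r a) (h' : ReflOf N r b) : b = a ∨ b = -a := by
  have e := (C0a_eq h a).symm.trans (C0a_eq h' a)
  rw [C0a_norm (C0a_isRoot h)] at e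
  refine C0a_smul' (t := Bf N b a) (C0a_isRoot h) (C0a_isRoot h') ?_
  linear_combination (norm := module) (-1 / 2 : ℝ) • e

theorem C0a_neg (h : ReflOf N r a) : ReflOf N r (-a) := by
  obtain ⟨w, i, rfl, rfl⟩ := h
  refine ⟨w * sr N i, i, by rw [rho_mul, C0a_sr_al, map_neg], ?_⟩
  group

theorem C0a_conj (w : N.Group) (h : ReflOf N r a) : ReflOf N (w * r * w⁻¹) (rho N w a) := by
  obtain ⟨u, i, rfl, rfl⟩ := h
  refine ⟨w * u, i, (rho_mul N _ _ _).symm, ?_⟩
  group

theorem C0a_ex (h : IsRoot N a) : ∃ r, ReflOf N r a := by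
  obtain ⟨w, i, e⟩ := h
  exact ⟨_, w, i, e, rfl⟩

theorem C0a_sq (h : IsRefl N r) : r * r = 1 ∧ r ≠ 1 ∧ sg N r = -1 := by
  obtain ⟨a, w, i, -, rfl⟩ := h
  have h1 : sg N (w * sr N i * w⁻¹) = -1 := by
    rw [map_mul, map_mul, sg_sr, map_inv, mul_comm (sg N w), mul_inv_cancel_right]
  refine ⟨?_, fun e => ?_, h1⟩
  · rw [mul_assoc, mul_assoc, mul_assoc, inv_mul_cancel_left,
      N.toCoxeterSystem.simple_mul_simple_cancel_left, mul_inv_cancel]
  · rw [e, map_one] at h1
    exact absurd h1 (by decide)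

theorem C0a_comm (g : N.Group) (h : ReflOf N r a) :
    Commute g r ↔ rho N g a = a ∨ rho N g a = -a := by
  have h1 := C0a_conj g h
  rw [commute_iff_eq, ← mul_inv_eq_iff_eq_mul]
  constructor
  · intro e
    exact C0a_root h (e ▸ h1)
  · rintro (e | e)
    · exact C0a_uniq (e ▸ h1) h
    · exact C0a_uniq (e ▸ h1) (C0a_neg h)

theorem C0a_indep {s t : ℝ} (h : IsRoot N a) (h' : IsRoot N b) (n1 : b ≠ a) (n2 : b ≠ -a)
    (e : s • a + t • b = 0) : s = 0 ∧ t = 0 := by
  have hs : s = 0 := by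
    by_contra hs
    refine (C0a_smul' (t := -(s⁻¹ * t)) h h' ?_).elim n1 n2
    rw [neg_smul, mul_smul, ← smul_neg, ← eq_neg_of_add_eq_zero_left e, inv_smul_smul₀ hs]
  rw [hs, zero_smul, zero_add] at e
  exact ⟨hs, (smul_eq_zero.1 e).resolve_right (C0a_ne h')⟩

theorem C0a_simple {i : B} (h : IsRoot N a) (hp : Pos a) (hn : a ≠ al i) :
    Pos (rho N (sr N i) a) := by
  obtain ⟨w, j, rfl⟩ := h
  rw [rho_simple]
  exact pos_rf N hp hn

theorem C0a_sum {d : N.Group} {j : B} (h : IsRoot N a) (hp : Pos a)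
    (hd : ∀ i, a i ≠ 0 → Pos (rho N d (al i))) (e : rho N d a = al j) : ∃ i, a = al i := by
  obtain ⟨i, hi⟩ := Function.ne_iff.1 (C0a_ne h)
  have e1 : a = ∑ i, a i • al i := by
    funext k
    simp [al, Pi.single_apply]
  have e2 : rho N d (al i) = rho N d (al i) j • al j := by
    funext k
    by_cases hk : k = j
    · simp [hk]
    · have e3 := congrFun e k
      rw [e1, map_sum, Finset.sum_apply, al_ne hk] at e3
      simp only [map_smul, Pi.smul_apply, smul_eq_mul] at e3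
      have e4 := (Finset.sum_eq_zero_iff_of_nonneg fun l _ => ?_).1 e3 i (Finset.mem_univ i)
      · rw [Pi.smul_apply, al_ne hk, smul_zero]
        exact (mul_eq_zero.1 e4).resolve_left hi
      · by_cases hl : a l = 0
        · rw [hl, zero_mul]
        · exact mul_nonneg (hp l) (hd l hl k)
  rw [root_eq N (hd i hi j) e2, one_smul, ← e] at e2
  exact ⟨i, by rw [← rho_inv N d a, ← e2, rho_inv]⟩

theorem C0a_inv_step (w : N.Group) (i : B) (h : Pos (rho N w⁻¹ (al i))) :
    Inv N (sr N i * w) = insert (al i) (rho N (sr N i) '' Inv N w) := by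
  have e : ∀ v, rho N (sr N i * w)⁻¹ v = rho N w⁻¹ (rho N (sr N i) v) := fun v => by
    rw [mul_inv_rev, rho_mul, N.toCoxeterSystem.inv_simple]
  ext a
  simp only [Inv, Set.mem_ofPred_eq, Set.mem_insert_iff, Set.mem_image, e]
  constructor
  · rintro ⟨h1, h2, h3⟩
    by_cases ha : a = al i
    · exact Or.inl ha
    · exact Or.inr ⟨_, ⟨C0a_rho _ h1, C0a_simple h1 h2 ha, h3⟩, C0a_sr_sr i a⟩
  · rintro (rfl | ⟨b, ⟨h1, h2, h3⟩, rfl⟩)
    · refine ⟨C0a_al i, pos_al i, ?_⟩
      rwa [C0a_sr_al, map_neg, neg_neg]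
    · refine ⟨C0a_rho _ h1, C0a_simple h1 h2 ?_, by rwa [C0a_sr_sr]⟩
      rintro rfl
      exact C0a_not (C0a_rho _ h1) h h3

theorem C0a_inv (w : N.Group) :
    (Inv N w).Finite ∧ (Inv N w).ncard = N.toCoxeterSystem.length w := by
  induction hn : N.toCoxeterSystem.length w generalizing w with
  | zero =>
    have e : Inv N w = ∅ := by
      rw [N.toCoxeterSystem.length_eq_zero_iff.1 hn]
      refine Set.eq_empty_of_forall_notMem fun a h => C0a_not h.1 h.2.1 ?_
      simpa using h.2.2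
    simp [e]
  | succ n ih =>
    have hw : w ≠ 1 := fun e => by simp [e] at hn
    obtain ⟨i, hi⟩ := N.toCoxeterSystem.exists_leftDescent_of_ne_one hw
    have h1 := N.toCoxeterSystem.isLeftDescent_iff.1 hi
    have h2 := N.toCoxeterSystem.isLeftDescent_iff_not_isLeftDescent_mul.1 hi
    rw [← N.toCoxeterSystem.isRightDescent_inv_iff] at h2
    have h3 := C0a_inv_step _ i (pos_of_not_descent N _ i h2)
    rw [N.toCoxeterSystem.simple_mul_simple_cancel_left] at h3
    obtain ⟨h4, h5⟩ := ih (sr N i * w) (Nat.succ_injective (h1.trans hn))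
    have h6 : al i ∉ rho N (sr N i) '' Inv N (sr N i * w) := by
      rintro ⟨b, hb, e⟩
      refine C0a_not hb.1 hb.2.1 ?_
      rw [← C0a_sr_sr (N := N) i b, e, C0a_sr_al, neg_neg]
      exact pos_al i
    rw [h3]
    refine ⟨(h4.image _).insert _, ?_⟩
    rw [Set.ncard_insert_of_notMem h6 (h4.image _),
      Set.ncard_image_of_injective _ (Function.LeftInverse.injective (C0a_sr_sr i)), h5]

theorem C0a_bdd (n : ℕ) : {w | (Inv N w).ncard ≤ n}.Finite := by
  refine ((List.finite_length_le B n).image N.toCoxeterSystem.wordProd).subset fun w hw => ?_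
  obtain ⟨l, h1, h2⟩ := N.toCoxeterSystem.exists_isReduced w
  refine ⟨l, ?_, h2.symm⟩
  have h3 : N.toCoxeterSystem.length (N.toCoxeterSystem.wordProd l) = l.length := h1
  rw [Set.mem_ofPred_eq, (C0a_inv w).2, h2, h3] at hw
  exact hw

end

theorem C0a_thm : St_C0a := fun _ _ _ N =>
  { faith := C0a_faith
    refl_eq := fun _ _ => C0a_eq
    refl_ex := fun _ => C0a_ex
    refl_uniq := fun _ _ _ => C0a_uniq
    refl_root := fun _ _ _ => C0a_root
    refl_neg := fun _ _ => C0a_neg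
    refl_conj := fun w _ _ => C0a_conj w
    refl_isRoot := fun _ _ => C0a_isRoot
    refl_sq := fun _ => C0a_sq
    refl_comm := fun g _ _ => C0a_comm g
    root_al := fun i => ⟨C0a_al i, 1, i, (rho_one N _).symm, by simp⟩
    root_rho := fun w _ => C0a_rho w
    root_neg := fun _ h => (C0a_ex h).elim fun _ h' => C0a_isRoot (C0a_neg h')
    root_pos := fun _ ⟨w, i, e⟩ => e ▸ dichotomy N w i
    root_not := fun _ => C0a_not
    root_norm := fun _ => C0a_norm
    root_smul := fun _ _ => C0a_smul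
    root_indep := fun _ _ _ _ => C0a_indep
    simple_pos := fun _ _ => C0a_simple
    simple_sum := fun _ _ _ => C0a_sum
    inv_fin := fun w => (C0a_inv w).1
    inv_len := fun w => (C0a_inv w).2
    inv_bdd := C0a_bdd }

end Pool.Agent.Lib.MP_1b8ce0_al.T
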