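import Mathlib
import Pool.Agent.Lib.MP_1b8ce0_al.T.StsA

set_option linter.unusedSectionVars false
set_option linter.dupNamespace false

namespace Pool.Agent.Lib.MP_1b8ce0_al.T

open Pool.Agent.Lib.MP_6d85b4_al

theorem C0b_alt_succ {G : Type} [Monoid G] (s t : G) (m : ℕ) :
    alt s t (m + 1) = s * alt t s m := by
  unfold alt
  rw [List.range_succ_eq_map, List.map_cons, List.prod_cons, List.map_map, if_pos rfl]
  congr 2
  apply List.map_congr_left
  intro i _
  by_cases h : i % 2 = 0
  · have : ¬ (i + 1) % 2 = 0 := by omega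
    simp [h, this]
  · have : (i + 1) % 2 = 0 := by omega
    simp [h, this]

theorem C0b_alt_mul {G : Type} [Group G] (m : ℕ) : ∀ s t : G, s * s = 1 → t * t = 1 →
    alt s t m = (s * t) ^ m * alt t s m := by
  induction m with
  | zero => intro s t _ _; simp [alt]
  | succ m ih =>
    intro s t hs ht
    rw [C0b_alt_succ, C0b_alt_succ, ih t s ht hs, pow_succ, ← mul_assoc, ← mul_pow_mul]
    simp only [mul_assoc]
    rw [← mul_assoc t t, ht, one_mul]

theorem C0b_braid_iff {G : Type} [Group G] {s t : G} (hs : s * s = 1) (ht : t * t = 1) (m : ℕ) :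
    alt s t m = alt t s m ↔ (s * t) ^ m = 1 := by
  rw [C0b_alt_mul m s t hs ht, mul_eq_right]

theorem C0b_liftable {S H : Type} [Group H] (M : CoxeterMatrix S) (f : S → H)
    (hb : Braid M Set.univ f) (hq : ∀ s, f s * f s = 1) : M.IsLiftable f := by
  intro i j
  by_cases h : i = j
  · subst h
    rw [hq, one_pow]
  · by_cases h0 : M i j = 0
    · rw [h0, pow_zero]
    · exact (C0b_braid_iff (hq i) (hq j) _).1 (hb i trivial j trivial h h0)

variable {B : Type} [Fintype B] [DecidableEq B] {N : CoxeterMatrix B}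

theorem C0b_sq (i : B) : sr N i * sr N i = 1 := N.toCoxeterSystem.simple_mul_simple_self i

theorem C0b_ind {T : Set B} {P : N.Group → Prop} (h1 : P 1)
    (hs : ∀ i ∈ T, ∀ w ∈ par N T, P w → P (sr N i * w)) {u : N.Group} (hu : u ∈ par N T) :
    P u := by
  induction hu using Subgroup.closure_induction_left with
  | one => exact h1
  | mul_left x hx y hy ih =>
    obtain ⟨i, hi, rfl⟩ := hx
    exact hs i hi y hy ih
  | inv_mul_cancel x hx y hy ih =>
    obtain ⟨i, hi, rfl⟩ := hx
    rw [N.toCoxeterSystem.inv_simple]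
    exact hs i hi y hy ih

theorem C0b_rho_sr (i : B) (w : N.Group) (v : B → ℝ) :
    rho N (sr N i * w) v = rf N i (rho N w v) := by rw [rho_mul, rho_simple]

theorem C0b_coord {T : Set B} {u : N.Group} (hu : u ∈ par N T) (v : B → ℝ) {j : B}
    (hj : j ∉ T) : rho N u v j = v j := by
  refine C0b_ind (P := fun u => rho N u v j = v j) (by simp) (fun i hi w _ ih => ?_) hu
  rw [C0b_rho_sr, rf_coord N (fun e : j = i => hj (e ▸ hi)), ih]

theorem C0b_supp {T : Set B} {u : N.Group} (hu : u ∈ par N T) {v : B → ℝ} (hv : Supp T v) :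
    Supp T (rho N u v) := fun j hj => by rw [C0b_coord hu v hj, hv j hj]

theorem C0b_supp_al {T : Set B} {i : B} : Supp T (al i) ↔ i ∈ T := by
  constructor
  · intro h
    by_contra hi
    have := h i hi
    rw [al_self] at this
    exact one_ne_zero this
  · exact fun hi j hj => al_ne fun e => hj (e ▸ hi)

theorem C0b_neg {w : N.Group} {i : B} (h : N.toCoxeterSystem.IsRightDescent w i) :
    Pos (-rho N w (al i)) := by
  have := pos_of_not_descent N _ i
    ((N.toCoxeterSystem.isRightDescent_iff_not_isRightDescent_mul).1 h)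
  rwa [rho_mul, rho_simple, rf_self, map_neg] at this

theorem C0b_minrep (T : Set B) (w : N.Group) :
    ∃ u ∈ par N T, ∀ i ∈ T, Pos (rho N (w * u) (al i)) := by
  obtain ⟨u, hu, hm⟩ := (measure fun u => N.toCoxeterSystem.length (w * u)).wf.has_min
    (par N T : Set N.Group) ⟨1, (par N T).one_mem⟩
  refine ⟨u, hu, fun i hi => pos_of_not_descent N _ i fun hd => ?_⟩
  refine hm (u * sr N i) ((par N T).mul_mem hu (gp_mem _ hi)) ?_
  change N.toCoxeterSystem.length (w * (u * sr N i)) < N.toCoxeterSystem.length (w * u)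
  rw [← mul_assoc]
  exact hd

theorem C0b_comb {g : N.Group} {x : B → ℝ} (hx : Pos x)
    (h : ∀ i, x i ≠ 0 → Pos (rho N g (al i))) : Pos (rho N g x) := by
  have e : x = ∑ i, x i • al i := by
    funext j
    simp [al, Finset.sum_apply, Pi.single_apply]
  intro j
  rw [e, map_sum, Finset.sum_apply]
  refine Finset.sum_nonneg fun i _ => ?_
  rw [map_smul, Pi.smul_apply, smul_eq_mul]
  by_cases h0 : x i = 0
  · rw [h0, zero_mul]
  · exact mul_nonneg (hx i) (h i h0 j)

theorem C0b_perp {P L : Set B} (h : ∀ p ∈ P, ∀ l ∈ L, N p l = 2) {u : N.Group}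
    (hu : u ∈ par N P) :
    (∀ v, Supp L v → rho N u v = v) ∧ ∀ v ∈ par N L, Commute u v := by
  constructor
  · intro v hv
    refine C0b_ind (P := fun u => rho N u v = v) (by simp) (fun i hi w _ ih => ?_) hu
    have h0 : ip N i v = 0 := by
      rw [ip_apply]
      refine Finset.sum_eq_zero fun j _ => ?_
      by_cases hj : j ∈ L
      · simp [cc, h i hi j hj]
      · rw [hv j hj, mul_zero]
    rw [C0b_rho_sr, ih, rf_apply, h0, zero_smul, add_zero]
  · intro v hv
    refine C0b_ind (P := fun u => Commute u v) (Commute.one_left _)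
      (fun i hi w _ ih => Commute.mul_left ?_ ih) hu
    refine C0b_ind (P := fun v => Commute (sr N i) v) (Commute.one_right _)
      (fun j hj w _ ih => Commute.mul_right ?_ ih) hv
    have h1 := (C0b_braid_iff (C0b_sq i) (C0b_sq j) 2).2
      (h i hi j hj ▸ N.toCoxeterSystem.simple_mul_simple_pow i j)
    simpa [alt, List.range_succ, commute_iff_eq] using h1

theorem C0b_dyer : IsDyer N Set.univ (sr N) where
  top := by
    rw [gp, Set.image_univ]
    exact N.toCoxeterSystem.subgroup_closure_range_simple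
  braid := fun s _ t _ _ _ =>
    (C0b_braid_iff (C0b_sq s) (C0b_sq t) _).2 (N.toCoxeterSystem.simple_mul_simple_pow s t)
  sqr := fun s _ => C0b_sq s
  lift := fun _ _ f hb hq =>
    ⟨N.toCoxeterSystem.lift ⟨f, C0b_liftable N f hb fun s => hq s trivial⟩,
      fun s => N.toCoxeterSystem.lift_apply_simple _ s⟩

section

variable (A : C0a N)
include A

theorem C0b_root (w : N.Group) (i : B) : IsRoot N (rho N w (al i)) := ⟨w, i, rfl⟩

theorem C0b_pos_of {a : B → ℝ} (ha : IsRoot N a) {j : B} (hj : 0 < a j) : Pos a :=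
  (A.root_pos a ha).resolve_right fun h => by
    have := h j
    rw [Pi.neg_apply] at this
    linarith

theorem C0b_pos_par {T : Set B} {u : N.Group} {a : B → ℝ} (hu : u ∈ par N T) (ha : IsRoot N a)
    (hp : Pos a) (hs : ¬ Supp T a) : Pos (rho N u a) := by
  unfold Supp at hs
  push Not at hs
  obtain ⟨j, hj, h0⟩ := hs
  refine C0b_pos_of A (A.root_rho u a ha) (j := j) ?_
  rw [C0b_coord hu a hj]
  exact lt_of_le_of_ne (hp j) h0.symm

theorem C0b_desc {T : Set B} {w : N.Group} (hw : w ∈ par N T) {i : B}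
    (h : N.toCoxeterSystem.IsRightDescent w i) : i ∈ T := by
  by_contra hi
  exact A.root_not _ (C0b_root A w i)
    (C0b_pos_par A hw (A.root_al i).1 (pos_al i) (mt C0b_supp_al.1 hi)) (C0b_neg h)

theorem C0b_faithT {T : Set B} {u : N.Group} (hu : u ∈ par N T)
    (h : ∀ i ∈ T, Pos (rho N u (al i))) : u = 1 := by
  refine A.faith u fun i => ?_
  by_cases hi : i ∈ T
  · exact h i hi
  · exact C0b_pos_par A hu (A.root_al i).1 (pos_al i) (mt C0b_supp_al.1 hi)

theorem C0b_refl_self {r : N.Group} {a : B → ℝ} (h : ReflOf N r a) : rho N r a = -a := by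
  rw [A.refl_eq r a h, A.root_norm a (A.refl_isRoot r a h)]
  module

theorem C0b_refl_mem {T : Set B} {r : N.Group} {a : B → ℝ} (h : ReflOf N r a) :
    r ∈ par N T ↔ Supp T a := by
  constructor
  · intro hr j hj
    have := C0b_coord hr a hj
    rw [C0b_refl_self A h, Pi.neg_apply] at this
    linarith
  · intro hs
    obtain ⟨u, hu, hp⟩ := C0b_minrep T r
    have h1 : r * u = 1 := by
      refine A.faith _ fun i => ?_
      by_cases hi : i ∈ T
      · exact hp i hi
      · refine C0b_pos_of A (C0b_root A _ i) (j := i) ?_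
        rw [rho_mul, A.refl_eq r a h, Pi.sub_apply, Pi.smul_apply, hs i hi, C0b_coord hu _ hi]
        simp
    rw [eq_inv_of_mul_eq_one_left h1]
    exact (par N T).inv_mem hu

theorem C0b_inv_par {T : Set B} {w : N.Group} (hw : w ∈ par N T) {a : B → ℝ} (ha : IsRoot N a)
    (hp : Pos a) : Pos (-rho N w a) → ∃ u ∈ par N T, ∃ i ∈ T, a = rho N u (al i) := by
  refine C0b_ind (P := fun w => Pos (-rho N w a) → ∃ u ∈ par N T, ∃ i ∈ T, a = rho N u (al i))
    (fun h => ?_) (fun i hi w hw ih h => ?_) hw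
  · rw [rho_one] at h
    exact absurd h (A.root_not a ha hp)
  · have hb := A.root_rho w a ha
    rcases A.root_pos _ hb with h1 | h1
    · by_cases h2 : rho N w a = al i
      · exact ⟨w⁻¹, (par N T).inv_mem hw, i, hi, by rw [← h2, rho_inv]⟩
      · have h3 := A.simple_pos _ i hb h1 h2
        rw [← rho_mul] at h3
        exact absurd h (A.root_not _ (A.root_rho _ a ha) h3)
    · exact ih h1

theorem C0b_supp_root {T : Set B} {a : B → ℝ} (ha : IsRoot N a) (hs : Supp T a) :
    ∃ u ∈ par N T, ∃ i ∈ T, a = rho N u (al i) := by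
  have key : ∀ b, IsRoot N b → Supp T b → Pos b → ∃ u ∈ par N T, ∃ i ∈ T, b = rho N u (al i) := by
    intro b hb hs hp
    obtain ⟨r, hr⟩ := A.refl_ex b hb
    refine C0b_inv_par A ((C0b_refl_mem A hr).2 hs) hb hp ?_
    rwa [C0b_refl_self A hr, neg_neg]
  rcases A.root_pos a ha with h | h
  · exact key a ha hs h
  · obtain ⟨u, hu, i, hi, e⟩ := key (-a) (A.root_neg a ha) (fun j hj => by simp [hs j hj]) h
    refine ⟨u * sr N i, (par N T).mul_mem hu (gp_mem _ hi), i, hi, ?_⟩
    rw [rho_mul, rho_simple, rf_self, map_neg, ← e, neg_neg]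

theorem C0b_inter (T U : Set B) : par N T ⊓ par N U = par N (T ∩ U) := by
  refine le_antisymm (fun w hw => ?_)
    (le_inf (gp_mono _ Set.inter_subset_left) (gp_mono _ Set.inter_subset_right))
  induction hn : N.toCoxeterSystem.length w using Nat.strong_induction_on generalizing w with
  | _ n ih =>
  by_cases h1 : w = 1
  · exact h1 ▸ Subgroup.one_mem _
  obtain ⟨i, hi⟩ := N.toCoxeterSystem.exists_rightDescent_of_ne_one h1
  have hT := C0b_desc A hw.1 hi
  have hU := C0b_desc A hw.2 hi
  have h2 := ih _ (hn ▸ hi) (w := w * sr N i)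
    ⟨(par N T).mul_mem hw.1 (gp_mem _ hT), (par N U).mul_mem hw.2 (gp_mem _ hU)⟩ rfl
  exact (Subgroup.mul_mem_cancel_right _ (gp_mem (sr N) (T := T ∩ U) ⟨hT, hU⟩)).1 h2

theorem C0b_conj {d : N.Group} {i j : B} (h : rho N d (al j) = al i) :
    d⁻¹ * sr N i * d = sr N j := by
  rw [A.refl_uniq _ _ _ (A.root_al i).2 ⟨d, j, h.symm, rfl⟩]
  group

theorem C0b_kil (c : N.Group) (T U : Set B) :
    ∃ u ∈ par N T, ∃ d, ∃ v ∈ par N U, c = u * d * v ∧
      par N T ⊓ cj d (par N U) = par N {i | i ∈ T ∧ ∃ j ∈ U, rho N d (al j) = al i} := by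
  obtain ⟨d, ⟨u, hu, v, hv, e⟩, hm⟩ := (measure N.toCoxeterSystem.length).wf.has_min
    {d | ∃ u ∈ par N T, ∃ v ∈ par N U, c = u * d * v}
    ⟨c, 1, (par N T).one_mem, 1, (par N U).one_mem, by simp⟩
  have hU : ∀ j ∈ U, Pos (rho N d (al j)) := fun j hj => pos_of_not_descent N _ j fun hd =>
    hm (d * sr N j) ⟨u, hu, sr N j * v, (par N U).mul_mem (gp_mem _ hj) hv, by
      rw [e]
      simp only [mul_assoc, CoxeterSystem.simple_mul_simple_cancel_left]⟩ hd
  have hT : ∀ i ∈ T, Pos (rho N d⁻¹ (al i)) := fun i hi => pos_of_not_descent N _ i fun hd =>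
    hm (sr N i * d) ⟨u * sr N i, (par N T).mul_mem hu (gp_mem _ hi), v, hv, by
      rw [e]
      simp only [mul_assoc, CoxeterSystem.simple_mul_simple_cancel_left]⟩
      (N.toCoxeterSystem.isRightDescent_inv_iff.1 hd)
  refine ⟨u, hu, d, v, hv, e, le_antisymm (fun w hw => ?_) (gp_le.2 ?_)⟩
  · induction hn : N.toCoxeterSystem.length w using Nat.strong_induction_on generalizing w with
    | _ n ih =>
    by_cases h1 : w = 1
    · exact h1 ▸ Subgroup.one_mem _
    obtain ⟨i, hi⟩ := N.toCoxeterSystem.exists_rightDescent_of_ne_one h1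
    have hiT := C0b_desc A hw.1 hi
    have hw2 : d⁻¹ * w * d ∈ par N U := hw.2
    have h2 : Pos (rho N d⁻¹ (-rho N w (al i))) := by
      refine C0b_comb (C0b_neg hi) fun k hk => hT k ?_
      by_contra hkT
      apply hk
      rw [Pi.neg_apply, C0b_supp hw.1 (C0b_supp_al.2 hiT) k hkT, neg_zero]
    have h3 : Supp U (rho N d⁻¹ (al i)) := by
      by_contra hs
      have h4 := C0b_pos_par A hw2 (C0b_root A _ i) (hT i hiT) hs
      rw [rho_mul, rho_inv', rho_mul] at h4
      rw [map_neg] at h2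
      exact A.root_not _ (A.root_rho _ _ (C0b_root A w i)) h4 h2
    obtain ⟨j, hj⟩ := A.simple_sum d _ i (C0b_root A _ i) (hT i hiT)
      (fun k hk => hU k (by
        by_contra hkU
        exact hk (h3 k hkU))) (rho_inv' N d _)
    have hjU : j ∈ U := C0b_supp_al.1 (hj ▸ h3)
    have hd : rho N d (al j) = al i := by rw [← hj, rho_inv']
    have h5 : w * sr N i ∈ cj d (par N U) := by
      have := (par N U).mul_mem hw2 (gp_mem (sr N) hjU)
      rw [← C0b_conj A hd] at this
      rw [mem_cj]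
      convert this using 1
      group
    have h6 := ih _ (hn ▸ hi) (w := w * sr N i) ⟨(par N T).mul_mem hw.1 (gp_mem _ hiT), h5⟩ rfl
    exact (Subgroup.mul_mem_cancel_right _
      (gp_mem (sr N) (T := {i | i ∈ T ∧ ∃ j ∈ U, rho N d (al j) = al i}) ⟨hiT, j, hjU, hd⟩)).1 h6
  · rintro i ⟨hi, j, hj, hd⟩
    refine ⟨gp_mem _ hi, ?_⟩
    change d⁻¹ * sr N i * d ∈ par N U
    rw [C0b_conj A hd]
    exact gp_mem _ hj

end

theorem C0b_restr (h1 : St_C0a) (T : Set B) (H : Type) [Group H] (f : B → H) (hb : Braid N T f)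
    (hq : ∀ s ∈ T, f s * f s = 1) :
    ∃ φ : par N T →* H, ∀ s (h : sr N s ∈ par N T), s ∈ T → φ ⟨sr N s, h⟩ = f s := by
  classical
  let j : (res N T).Group →* N.Group := (res N T).toCoxeterSystem.lift
    ⟨fun s => sr N s, fun a b => N.toCoxeterSystem.simple_mul_simple_pow a b⟩
  have hj : ∀ s : T, j (sr (res N T) s) = sr N s := fun s =>
    (res N T).toCoxeterSystem.lift_apply_simple _ s
  have hmem : ∀ w, j w ∈ par N T := by
    intro w
    induction w using (res N T).toCoxeterSystem.simple_induction_left with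
    | one => rw [map_one]; exact Subgroup.one_mem _
    | mul_simple_left w i ih =>
      rw [map_mul, hj]
      exact Subgroup.mul_mem _ (gp_mem _ i.2) ih
  have hal : ∀ s : T, (fun t : T => al (s : B) (t : B)) = al s := by
    intro s
    funext t
    by_cases h : t = s
    · rw [h, al_self, al_self]
    · rw [al_ne h, al_ne fun e => h (Subtype.ext e)]
  have hrf : ∀ (s : T) (v : B → ℝ), Supp T v →
      (fun t : T => rf N s v t) = rf (res N T) s fun t : T => v t := by
    intro s v hv
    have e : ip N s v = ip (res N T) s fun t : T => v t := by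
      rw [ip_apply, ip_apply, ← Finset.sum_filter_add_sum_filter_not Finset.univ (· ∈ T),
        Finset.sum_eq_zero (s := Finset.univ.filter fun x => ¬ x ∈ T) fun x hx => by
          rw [hv x (Finset.mem_filter.1 hx).2, mul_zero], add_zero]
      exact Finset.sum_subtype _ (by simp) fun x => cc N s x * v x
    rw [rf_apply, rf_apply, e, ← hal]
    rfl
  have hrho : ∀ (w : (res N T).Group) (v : B → ℝ), Supp T v →
      (fun t : T => rho N (j w) v t) = rho (res N T) w fun t : T => v t := by
    intro w v hv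
    induction w using (res N T).toCoxeterSystem.simple_induction_left with
    | one => simp
    | mul_simple_left w i ih =>
      rw [map_mul, hj, C0b_rho_sr, hrf i _ (C0b_supp (hmem w) hv), ih, C0b_rho_sr]
  have hinj : Function.Injective j := by
    refine (injective_iff_map_eq_one j).2 fun w hw => (h1 T (res N T)).faith w fun s => ?_
    rw [← hal, ← hrho w _ (C0b_supp_al.2 s.2), hw, rho_one, hal]
    exact pos_al s
  have hsur : ∀ u ∈ par N T, ∃ w, j w = u := fun u hu =>
    C0b_ind (P := fun u => ∃ w, j w = u) ⟨1, map_one j⟩ (fun i hi w _ ⟨x, hx⟩ =>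
      ⟨sr (res N T) ⟨i, hi⟩ * x, by rw [map_mul, hj, hx]⟩) hu
  let e : (res N T).Group ≃* par N T := MulEquiv.ofBijective (j.codRestrict _ hmem)
    ⟨fun a b h => hinj (congrArg Subtype.val h), fun u => by
      obtain ⟨w, hw⟩ := hsur u.1 u.2
      exact ⟨w, Subtype.ext hw⟩⟩
  obtain ⟨ψ, hψ⟩ := (C0b_dyer (N := res N T)).lift H (fun s => f s)
    (fun s _ t _ hst h0 => hb s s.2 t t.2 (fun e => hst (Subtype.ext e)) h0) fun s _ => hq s s.2
  refine ⟨ψ.comp e.symm.toMonoidHom, fun s h hs => ?_⟩
  have h2 : e (sr (res N T) ⟨s, hs⟩) = ⟨sr N s, h⟩ := Subtype.ext (hj ⟨s, hs⟩)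
  rw [← h2]
  simpa using hψ ⟨s, hs⟩

theorem C0b_thm (h1 : St_C0a) : St_C0b := fun B _ _ N =>
  have A := h1 B N
  { supp_root := fun _ _ ha hs => C0b_supp_root A ha hs
    supp_par := fun _ _ _ hu hv => C0b_supp hu hv
    coord := fun _ _ v _ hu hj => C0b_coord hu v hj
    pos_par := fun _ _ _ hu ha hp hs => C0b_pos_par A hu ha hp hs
    refl_mem := fun _ _ _ h => C0b_refl_mem A h
    inter := C0b_inter A
    sr_mem := fun _ i => (C0b_refl_mem A (A.root_al i).2).trans C0b_supp_al
    faithT := fun _ _ hu h => C0b_faithT A hu h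
    minrep := C0b_minrep
    kil := C0b_kil A
    perp_fix := fun _ _ h _ hu => C0b_perp h hu
    restr := fun T H _ f hb hq => C0b_restr h1 T H f hb hq
    dyer := C0b_dyer }

end Pool.Agent.Lib.MP_1b8ce0_al.T
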