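import Mathlib
import Pool.Agent.Lib.MP_1b8ce0_al.T.StsA

set_option linter.unusedSectionVars false
set_option linter.dupNamespace false

namespace Pool.Agent.Lib.MP_1b8ce0_al.T

open Pool.Agent.Lib.MP_6d85b4_al Real

/-! ### groups generated by two involutions -/
section Dihedral

variable {G : Type} [Group G]

theorem C0c_inv_mul {s t : G} (hs : s * s = 1) (ht : t * t = 1) : (s * t)⁻¹ = t * s := by
  rw [mul_inv_rev, inv_eq_of_mul_eq_one_right hs, inv_eq_of_mul_eq_one_right ht]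

theorem C0c_flip {s t : G} (hs : s * s = 1) (ht : t * t = 1) (n : ℤ) :
    s * (s * t) ^ n = (s * t) ^ (-n) * s := by
  have h : SemiconjBy s (s * t) (s * t)⁻¹ := by
    rw [C0c_inv_mul hs ht, SemiconjBy, ← mul_assoc, hs, one_mul, mul_assoc, hs, mul_one]
  have := h.zpow_right n
  rw [SemiconjBy, inv_zpow, ← zpow_neg] at this
  exact this

theorem C0c_nf {s t g : G} (hs : s * s = 1) (ht : t * t = 1)
    (hg : g ∈ Subgroup.closure ({s, t} : Set G)) :
    ∃ n : ℤ, g = (s * t) ^ n ∨ g = (s * t) ^ n * s := by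
  induction hg using Subgroup.closure_induction with
  | mem x hx =>
    rcases hx with rfl | rfl
    · exact ⟨0, Or.inr (by simp)⟩
    · refine ⟨-1, Or.inr ?_⟩
      rw [zpow_neg_one, C0c_inv_mul hs ht, mul_assoc, hs, mul_one]
  | one => exact ⟨0, Or.inl (by simp)⟩
  | mul x y _ _ hx hy =>
    obtain ⟨a, rfl | rfl⟩ := hx <;> obtain ⟨b, rfl | rfl⟩ := hy
    · exact ⟨a + b, Or.inl (zpow_add _ _ _).symm⟩
    · exact ⟨a + b, Or.inr (by rw [zpow_add, mul_assoc])⟩
    · exact ⟨a + -b, Or.inr (by rw [mul_assoc, C0c_flip hs ht, zpow_add, mul_assoc])⟩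
    · refine ⟨a + -b, Or.inl ?_⟩
      rw [mul_assoc, ← mul_assoc s, C0c_flip hs ht, mul_assoc, hs, mul_one, zpow_add]
  | inv x _ hx =>
    obtain ⟨a, rfl | rfl⟩ := hx
    · exact ⟨-a, Or.inl (zpow_neg _ _).symm⟩
    · refine ⟨a, Or.inr ?_⟩
      rw [mul_inv_rev, inv_eq_of_mul_eq_one_right hs, ← zpow_neg, C0c_flip hs ht, neg_neg]

theorem C0c_zpow_nat {r : G} {m : ℕ} (hm : m ≠ 0) (ho : orderOf r = m) (n : ℤ) :
    ∃ k : ℕ, k < m ∧ r ^ n = r ^ k := by
  have h0 : (m : ℤ) ≠ 0 := by exact_mod_cast hm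
  have h1 := Int.emod_nonneg n h0
  have h2 := Int.emod_lt_of_pos n (show (0 : ℤ) < m by omega)
  refine ⟨(n % m).toNat, by omega, ?_⟩
  rw [← zpow_natCast, Int.toNat_of_nonneg h1, ← ho, zpow_mod_orderOf]

end Dihedral

/-! ### the rank two recurrence -/

theorem C0c_fix {m k : ℕ} (h0 : 0 < k) (hk : k < m) {p q : ℝ}
    (hp : sq (2 * cos (π / m)) p q (2 * k) = p) (hq : sq (2 * cos (π / m)) p q (2 * k + 1) = q) :
    p = 0 ∧ q = 0 := by
  have hm : 2 ≤ m := by omega
  have hs := sin_pos_m hm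
  obtain ⟨n, hn⟩ : ∃ n, 2 * k = n + 1 := ⟨2 * k - 1, by omega⟩
  have hc : cos (((n + 1 : ℕ) : ℝ) * (π / m)) ≠ 1 := by
    intro h
    have a1 : (0 : ℝ) < m := by exact_mod_cast (by omega : 0 < m)
    have a2 : ((n + 1 : ℕ) : ℝ) < 2 * m := by exact_mod_cast (by omega : n + 1 < 2 * m)
    have a3 : (0 : ℝ) < ((n + 1 : ℕ) : ℝ) * (π / m) := by positivity
    have a4 : ((n + 1 : ℕ) : ℝ) * (π / m) < 2 * π := by
      rw [← mul_div_assoc, div_lt_iff₀ a1]
      nlinarith [pi_pos]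
    exact a3.ne' ((cos_eq_one_iff_of_lt_of_lt (by linarith [pi_pos]) a4).1 h)
  rw [hn, sq_succ] at hp hq
  have e0 := sq_sin (π / m) n
  have e1 := sq_sin (π / m) (n + 1)
  have e2 := sq_sin (π / m) (n + 1 + 1)
  have a0 : (n : ℝ) * (π / m) = ((n + 1 : ℕ) : ℝ) * (π / m) - π / m := by push_cast; ring
  have a2 : ((n + 1 + 1 : ℕ) : ℝ) * (π / m) = ((n + 1 : ℕ) : ℝ) * (π / m) + π / m := by
    push_cast; ring
  rw [a0, sin_sub] at e0
  rw [a2, sin_add] at e2
  have t1 := sin_sq_add_cos_sq (((n + 1 : ℕ) : ℝ) * (π / m))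
  have t2 := sin_sq_add_cos_sq (π / m)
  generalize sq (2 * cos (π / m)) 0 1 n = A at *
  generalize sq (2 * cos (π / m)) 0 1 (n + 1) = B at *
  generalize sq (2 * cos (π / m)) 0 1 (n + 1 + 1) = C at *
  generalize sin (((n + 1 : ℕ) : ℝ) * (π / m)) = S at *
  generalize cos (((n + 1 : ℕ) : ℝ) * (π / m)) = K at *
  generalize sin (π / m) = σ at *
  generalize cos (π / m) = κ at *
  have hσ : σ ≠ 0 := hs.ne'
  have d1 : (C - A) * σ = 2 * K * σ := by linear_combination e2 - e0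
  have d2 : C - A = 2 * K := mul_right_cancel₀ hσ d1
  have d3 : (B ^ 2 - A * C) * σ ^ 2 = 1 * σ ^ 2 := by
    have : (B ^ 2 - A * C) * σ ^ 2 = (B * σ) ^ 2 - (A * σ) * (C * σ) := by ring
    rw [this, e0, e1, e2]
    linear_combination σ ^ 2 * t1 - S ^ 2 * t2
  have d4 : B ^ 2 - A * C = 1 := mul_right_cancel₀ (pow_ne_zero 2 hσ) d3
  have hK : 2 - 2 * K ≠ 0 := fun h => hc (by linarith)
  constructor
  · refine mul_left_cancel₀ hK ?_
    linear_combination (C - 1) * hp - B * hq + p * d2 - p * d4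
  · refine mul_left_cancel₀ hK ?_
    linear_combination B * hp - (1 + A) * hq + q * d2 - q * d4

theorem C0c_ch_add {m : ℕ} (hm : 2 ≤ m) (n : ℕ) : ch m (n + m) = -ch m n := by
  have h : (m : ℝ) ≠ 0 := by exact_mod_cast (by omega : m ≠ 0)
  refine ch_val hm ?_
  have : ((n + m : ℕ) : ℝ) * (π / m) = n * (π / m) + π := by push_cast; field_simp
  rw [this, sin_add_pi, neg_mul, ch_sin]

theorem C0c_ch_red {m : ℕ} (hm : 2 ≤ m) (n : ℕ) : ∃ k, k < m ∧
    ((ch m n = ch m k ∧ ch m (n + 1) = ch m (k + 1)) ∨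
      (ch m n = -ch m k ∧ ch m (n + 1) = -ch m (k + 1))) := by
  induction n using Nat.strong_induction_on with
  | _ n ih =>
    by_cases h : n < m
    · exact ⟨n, h, Or.inl ⟨rfl, rfl⟩⟩
    · obtain ⟨n', rfl⟩ : ∃ n', n = n' + m := ⟨n - m, by omega⟩
      obtain ⟨k, hk, h2⟩ := ih n' (by omega)
      refine ⟨k, hk, ?_⟩
      rw [show n' + m + 1 = n' + 1 + m by ring, C0c_ch_add hm, C0c_ch_add hm]
      rcases h2 with ⟨a, b⟩ | ⟨a, b⟩
      · exact Or.inr ⟨by rw [a], by rw [b]⟩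
      · exact Or.inl ⟨by rw [a, neg_neg], by rw [b, neg_neg]⟩

section Cox

variable {B : Type} [Fintype B] [DecidableEq B] (N : CoxeterMatrix B)

theorem C0c_ss (i : B) : sr N i * sr N i = 1 := N.toCoxeterSystem.simple_mul_simple_self i

theorem C0c_two {i j : B} (hij : i ≠ j) (h0 : N i j ≠ 0) : 2 ≤ N i j := by
  have := N.off_diagonal i j hij
  omega

theorem C0c_rot (i j : B) (k : ℕ) (p q : ℝ) :
    rho N ((sr N i * sr N j) ^ k) (p • al j + q • al i) =
      sq (cc N i j) p q (2 * k) • al j + sq (cc N i j) p q (2 * k + 1) • al i := by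
  have h1 : Even (2 * k) := even_two_mul k
  rw [map_pow, map_mul, rho_simple, rho_simple, ← wE_two_mul, wE_alt, if_pos h1, if_pos h1]

theorem C0c_coef {i j : B} (hij : i ≠ j) {a b p q : ℝ}
    (h : a • al j + b • al i = p • al j + q • al i) : a = p ∧ b = q := by
  have h1 := congrFun h j
  have h2 := congrFun h i
  simp only [Pi.add_apply, Pi.smul_apply, smul_eq_mul, al_self, al_ne hij, al_ne hij.symm,
    mul_one, mul_zero, add_zero, zero_add] at h1 h2
  exact ⟨h1, h2⟩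

theorem C0c_supp {i j : B} (hij : i ≠ j) {v : B → ℝ} (h : Supp {i, j} v) :
    v = v j • al j + v i • al i :=
  InP.eq hij.symm fun l h1 h2 => h l (by simp [h1, h2])

theorem C0c_ord (i j : B) : orderOf (sr N i * sr N j) = N i j := by
  by_cases hij : i = j
  · subst hij
    rw [C0c_ss, orderOf_one, N.diagonal]
  have key : ∀ k : ℕ, (sr N i * sr N j) ^ k = 1 →
      sq (cc N i j) 0 1 (2 * k) = 0 ∧ sq (cc N i j) 0 1 (2 * k + 1) = 1 := by
    intro k hk
    have := C0c_rot N i j k 0 1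
    rw [hk, rho_one] at this
    exact C0c_coef hij this.symm
  rcases Nat.eq_zero_or_pos (N i j) with h0 | h0
  · rw [h0, orderOf_eq_zero_iff']
    intro k hk h
    have h1 := (key k h).1
    have h2 : cc N i j = 2 := by simp [cc, h0]
    rw [h2, sq_two] at h1
    have : 2 * k = 0 := by exact_mod_cast h1
    omega
  · rw [orderOf_eq_iff h0]
    refine ⟨N.toCoxeterSystem.simple_mul_simple_pow i j, fun k hk hk0 h => ?_⟩
    exact one_ne_zero (C0c_fix hk0 hk (key k h).1 (key k h).2).2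

theorem C0c_par (i j : B) : par N {i, j} = Subgroup.closure {sr N i, sr N j} := by
  rw [par, gp, Set.image_pair]

theorem C0c_mem_l (i j : B) : sr N i ∈ par N {i, j} := gp_mem _ (by simp)

theorem C0c_mem_r (i j : B) : sr N j ∈ par N {i, j} := gp_mem _ (by simp)

theorem C0c_mem_pow (i j : B) (k : ℕ) : (sr N i * sr N j) ^ k ∈ par N {i, j} :=
  Subgroup.pow_mem _ (Subgroup.mul_mem _ (C0c_mem_l N i j) (C0c_mem_r N i j)) k

theorem C0c_nf' {i j : B} (h0 : N i j ≠ 0) {g : N.Group} (hg : g ∈ par N {i, j}) :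
    ∃ k : ℕ, k < N i j ∧ (g = (sr N i * sr N j) ^ k ∨ g = (sr N i * sr N j) ^ k * sr N i) := by
  rw [C0c_par] at hg
  obtain ⟨n, hn⟩ := C0c_nf (C0c_ss N i) (C0c_ss N j) hg
  obtain ⟨k, hk, e⟩ := C0c_zpow_nat h0 (C0c_ord N i j) n
  rw [e] at hn
  exact ⟨k, hk, hn⟩

theorem C0c_flip' (i j : B) (k : ℕ) :
    sr N i * ((sr N i * sr N j) ^ k)⁻¹ = (sr N i * sr N j) ^ k * sr N i := by
  have := C0c_flip (C0c_ss N i) (C0c_ss N j) (-(k : ℤ))
  rwa [neg_neg, zpow_neg, zpow_natCast] at this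

/-- enumeration of a finite dihedral parabolic subgroup -/
def C0c_enum (i j : B) : Fin (N i j) ⊕ Fin (N i j) → par N {i, j}
  | .inl k => ⟨(sr N i * sr N j) ^ (k : ℕ), C0c_mem_pow N i j k⟩
  | .inr k => ⟨(sr N i * sr N j) ^ (k : ℕ) * sr N i,
      Subgroup.mul_mem _ (C0c_mem_pow N i j k) (C0c_mem_l N i j)⟩

theorem C0c_enum_surj {i j : B} (h0 : N i j ≠ 0) : Function.Surjective (C0c_enum N i j) := by
  rintro ⟨g, hg⟩
  obtain ⟨k, hk, rfl | rfl⟩ := C0c_nf' N h0 hg
  · exact ⟨.inl ⟨k, hk⟩, rfl⟩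
  · exact ⟨.inr ⟨k, hk⟩, rfl⟩

theorem C0c_sg_pow (i j : B) (k : ℕ) : sg N ((sr N i * sr N j) ^ k) = 1 := by
  rw [map_pow, map_mul, sg_sr, sg_sr]
  simp

theorem C0c_enum_inj (i j : B) : Function.Injective (C0c_enum N i j) := by
  have inj : ∀ a b : Fin (N i j), (sr N i * sr N j) ^ (a : ℕ) = (sr N i * sr N j) ^ (b : ℕ) →
      a = b := fun a b h =>
    Fin.ext (pow_injOn_Iio_orderOf (by rw [C0c_ord]; exact a.2) (by rw [C0c_ord]; exact b.2) h)
  have sep : ∀ a b : ℕ, (sr N i * sr N j) ^ a ≠ (sr N i * sr N j) ^ b * sr N i := by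
    intro a b h
    have := congrArg (sg N) h
    rw [map_mul (sg N) _ (sr N i), C0c_sg_pow, C0c_sg_pow, sg_sr] at this
    simp at this
  rintro (a | a) (b | b) h <;> have h' := congrArg Subtype.val h <;> simp only [C0c_enum] at h'
  · rw [inj a b h']
  · exact absurd h' (sep _ _)
  · exact absurd h'.symm (sep _ _)
  · rw [inj a b (mul_right_cancel h')]

theorem C0c_card {i j : B} : Nat.card (par N {i, j}) = 2 * N i j := by
  rcases Nat.eq_zero_or_pos (N i j) with h0 | h0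
  · have h1 : ¬ IsOfFinOrder (sr N i * sr N j) := by
      rw [← orderOf_eq_zero_iff, C0c_ord, h0]
    have h2 := injective_pow_iff_not_isOfFinOrder.2 h1
    have : Infinite (par N {i, j}) :=
      Infinite.of_injective (fun k : ℕ => (⟨_, C0c_mem_pow N i j k⟩ : par N {i, j}))
        fun a b h => h2 (congrArg Subtype.val h)
    rw [Nat.card_eq_zero_of_infinite, h0]
  · rw [← Nat.card_eq_of_bijective _ ⟨C0c_enum_inj N i j, C0c_enum_surj N h0.ne'⟩]
    simp [two_mul]

theorem C0c_elts {i j : B} {g : N.Group} (h0 : N i j ≠ 0) (hg : g ∈ par N {i, j}) :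
    (∃ k : ℕ, g = (sr N i * sr N j) ^ k) ∨
      ∃ u ∈ par N {i, j}, g = u * sr N i * u⁻¹ ∨ g = u * sr N j * u⁻¹ := by
  obtain ⟨k, -, rfl | rfl⟩ := C0c_nf' N h0 hg
  · exact Or.inl ⟨k, rfl⟩
  · right
    obtain ⟨l, rfl | rfl⟩ := Nat.even_or_odd' k
    · refine ⟨_, C0c_mem_pow N i j l, Or.inl ?_⟩
      rw [mul_assoc, C0c_flip', ← mul_assoc, ← pow_add, two_mul]
    · refine ⟨_, C0c_mem_pow N i j (l + 1), Or.inr ?_⟩
      have e : (sr N i * sr N j) ^ (l + 1) * sr N j = (sr N i * sr N j) ^ l * sr N i := by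
        rw [pow_succ, mul_assoc, mul_assoc, C0c_ss, mul_one]
      rw [e, mul_assoc _ (sr N i), C0c_flip', ← mul_assoc, ← pow_add, two_mul, add_assoc]

theorem C0c_half_comm {i j : B} {k : ℕ} (hk : 0 < k) (h : N i j = 2 * k) {g : N.Group}
    (hg : g ∈ par N {i, j}) : Commute g ((sr N i * sr N j) ^ k) := by
  have h1 : (sr N i * sr N j) ^ k * (sr N i * sr N j) ^ k = 1 := by
    rw [← pow_add, ← two_mul, ← h]
    exact N.toCoxeterSystem.simple_mul_simple_pow i j
  have h2 : Commute (sr N i) ((sr N i * sr N j) ^ k) := by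
    have := C0c_flip' N i j k
    rwa [inv_eq_of_mul_eq_one_right h1] at this
  obtain ⟨l, -, rfl | rfl⟩ := C0c_nf' N (by omega) hg
  · exact (Commute.refl _).pow_pow _ _
  · exact ((Commute.refl _).pow_pow _ _).mul_left h2

theorem C0c_center {i j : B} {g : N.Group} (h3 : 3 ≤ N i j) (hg : g ∈ par N {i, j})
    (hi : Commute g (sr N i)) (hj : Commute g (sr N j)) :
    g = 1 ∨ ∃ k, N i j = 2 * k ∧ g = (sr N i * sr N j) ^ k := by
  obtain ⟨k, hk, rfl | rfl⟩ := C0c_nf' N (by omega) hg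
  · have h1 := C0c_flip' N i j k
    rw [hi.eq] at h1
    have h2 := mul_left_cancel h1
    have h4 : (sr N i * sr N j) ^ (2 * k) = 1 := by
      rw [two_mul, pow_add]
      nth_rewrite 1 [← h2]
      exact inv_mul_cancel _
    have h5 := orderOf_dvd_of_pow_eq_one h4
    rw [C0c_ord] at h5
    obtain ⟨c, hc⟩ := h5
    have h6 : c < 2 := by
      by_contra h7
      have : N i j * 2 ≤ N i j * c := Nat.mul_le_mul_left _ (by omega)
      omega
    interval_cases c
    · left
      have : k = 0 := by omega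
      rw [this, pow_zero]
    · exact Or.inr ⟨k, by omega, rfl⟩
  · exfalso
    have h1 : Commute ((sr N i * sr N j) ^ k * sr N i) (sr N i * sr N j) := hi.mul_right hj
    have h2 : Commute (sr N i) (sr N i * sr N j) := by
      have h4 : Commute ((sr N i * sr N j) ^ k)⁻¹ (sr N i * sr N j) :=
        ((Commute.refl _).pow_left k).inv_left
      have := h4.mul_left h1
      rwa [inv_mul_cancel_left] at this
    have h4 := C0c_flip' N i j 1
    rw [pow_one, ← h2.eq] at h4
    have h5 := mul_left_cancel h4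
    have h6 : (sr N i * sr N j) ^ 2 = 1 := by
      rw [pow_two]
      nth_rewrite 1 [← h5]
      exact inv_mul_cancel _
    have h7 := orderOf_dvd_of_pow_eq_one h6
    rw [C0c_ord] at h7
    have := Nat.le_of_dvd two_pos h7
    omega

theorem C0c_rot_fix {i j : B} {k : ℕ} {v : B → ℝ} (hij : i ≠ j) (h0 : N i j ≠ 0)
    (hk : (sr N i * sr N j) ^ k ≠ 1) (hv : Supp {i, j} v)
    (h : rho N ((sr N i * sr N j) ^ k) v = v) : v = 0 := by
  rw [← pow_mod_orderOf, C0c_ord] at hk h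
  have h1 : k % N i j < N i j := Nat.mod_lt _ (by omega)
  have h2 : 0 < k % N i j := by
    refine Nat.pos_of_ne_zero fun e => hk ?_
    rw [e, pow_zero]
  have h3 := C0c_supp hij hv
  rw [h3, C0c_rot] at h
  obtain ⟨a, b⟩ := C0c_coef hij h
  obtain ⟨c, d⟩ := C0c_fix h2 h1 a b
  rw [h3, c, d]
  simp

theorem C0c_posdef {i j : B} {v : B → ℝ} (hij : i ≠ j) (h0 : N i j ≠ 0) (hv : Supp {i, j} v)
    (hne : v ≠ 0) : 0 < Bf N v v := by
  have h3 := C0c_supp hij hv
  generalize v j = p at h3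
  generalize v i = q at h3
  have hs := sin_pos_m (C0c_two N hij h0)
  have t := sin_sq_add_cos_sq (π / N i j)
  have e : Bf N v v = (p - q * cos (π / N i j)) ^ 2 + (q * sin (π / N i j)) ^ 2 := by
    rw [Bf]
    nth_rewrite 1 [h3]
    rw [bf_add_smul, bf_smul, bf_al, bf_al, h3]
    simp only [map_add, map_smul, ip_al, cc_self, smul_eq_mul, cc_symm N j i]
    rw [cc]
    linear_combination (-q ^ 2) * t
  rw [e]
  by_cases hq : q = 0
  · have hp : p ≠ 0 := fun hp => hne (by rw [h3, hp, hq]; simp)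
    rw [hq]
    have : 0 < p ^ 2 := by positivity
    simpa using this
  · have : 0 < (q * sin (π / N i j)) ^ 2 := by positivity
    positivity

theorem C0c_roots_inf {i j : B} (h0 : N i j = 0) :
    {a | IsRoot N a ∧ Pos a ∧ Supp {i, j} a}.Infinite := by
  have hij : i ≠ j := by
    rintro rfl
    rw [N.diagonal] at h0
    exact one_ne_zero h0
  have h2 : cc N i j = 2 := by simp [cc, h0]
  have key : ∀ k : ℕ, rho N ((sr N i * sr N j) ^ k) (al i) =
      ((2 * k : ℕ) : ℝ) • al j + ((2 * k + 1 : ℕ) : ℝ) • al i := by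
    intro k
    have := C0c_rot N i j k 0 1
    rwa [h2, sq_two, sq_two, zero_smul, zero_add, one_smul] at this
  refine Set.infinite_of_injective_forall_mem
    (f := fun k : ℕ => rho N ((sr N i * sr N j) ^ k) (al i)) ?_ ?_
  · intro a b h
    simp only [key] at h
    have h3 : 2 * a = 2 * b := by exact_mod_cast (C0c_coef hij h).1
    omega
  · intro k
    refine ⟨⟨_, i, rfl⟩, ?_, ?_⟩
    · rw [key]
      intro l
      exact add_nonneg (mul_nonneg (Nat.cast_nonneg _) (pos_al j l))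
        (mul_nonneg (Nat.cast_nonneg _) (pos_al i l))
    · rw [key]
      intro l hl
      simp only [Set.mem_insert_iff, Set.mem_singleton_iff, not_or] at hl
      simp [al_ne hl.1, al_ne hl.2]

theorem C0c_roots_fin (h0 : St_CH) (h2 : C0b N) {i j : B} {a : B → ℝ} (hij : i ≠ j)
    (hm0 : N i j ≠ 0) (ha : IsRoot N a) (hp : Pos a) (hs : Supp {i, j} a) :
    ∃ k, k < N i j ∧ a = ch (N i j) k • al i + ch (N i j) (k + 1) • al j := by
  have hm := C0c_two N hij hm0
  have key : ∀ n k : ℕ, rho N ((sr N i * sr N j) ^ k)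
      (ch (N i j) n • al j + ch (N i j) (n + 1) • al i) =
      ch (N i j) (n + 2 * k) • al j + ch (N i j) (n + 2 * k + 1) • al i := by
    intro n k
    rw [C0c_rot, add_assoc]
    unfold ch
    rw [sq_shift _ _ _ n (2 * k), sq_shift _ _ _ n (2 * k + 1)]
    rfl
  have c0 : ch (N i j) 0 = 0 := rfl
  have c1 : ch (N i j) 1 = 1 := rfl
  have c2 : ch (N i j) 2 = cc N i j := (h0 _ 0 hm).2.2.1
  have b1 : (al i : B → ℝ) = ch (N i j) 0 • al j + ch (N i j) (0 + 1) • al i := by
    rw [zero_add, c0, c1]; simp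
  have b2 : (al j : B → ℝ) =
      ch (N i j) (N i j - 1) • al j + ch (N i j) (N i j - 1 + 1) • al i := by
    rw [Nat.sub_add_cancel (by omega), ch_pred_self hm, ch_self hm]; simp
  have b3 : rf N i (al i) = ch (N i j) (N i j) • al j + ch (N i j) (N i j + 1) • al i := by
    rw [rf_self, ch_succ_self hm, ch_self hm]; simp
  have b4 : rf N i (al j) = ch (N i j) 1 • al j + ch (N i j) (1 + 1) • al i := by
    rw [rf_al, c1, one_add_one_eq_two, c2]; simp
  have main : ∃ n, a = ch (N i j) n • al j + ch (N i j) (n + 1) • al i := by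
    obtain ⟨u, hu, l, hl, rfl⟩ := h2.supp_root _ a ha hs
    obtain ⟨k, -, rfl | rfl⟩ := C0c_nf' N hm0 hu <;> rcases hl with rfl | rfl
    · exact ⟨_, by rw [← key 0 k, ← b1]⟩
    · exact ⟨_, by rw [← key _ k, ← b2]⟩
    · exact ⟨_, by rw [rho_mul, rho_simple, b3, key]⟩
    · exact ⟨_, by rw [rho_mul, rho_simple, b4, key]⟩
  obtain ⟨n, hn⟩ := main
  obtain ⟨k, hk, ⟨e1, e2⟩ | ⟨e1, e2⟩⟩ := C0c_ch_red hm n
  · refine ⟨N i j - (k + 1), by omega, ?_⟩
    have s1 := (h0 _ (k + 1) hm).2.2.2.2.1 (by omega)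
    have s2 := (h0 _ k hm).2.2.2.2.1 (by omega)
    rw [show N i j - (k + 1) + 1 = N i j - k by omega, s1, s2, hn, e1, e2, add_comm]
  · exfalso
    have p1 := hp j
    have p2 := hp i
    rw [hn, e1] at p1
    rw [hn, e2] at p2
    simp only [Pi.add_apply, Pi.smul_apply, smul_eq_mul, al_self, al_ne hij, al_ne hij.symm,
      mul_one, mul_zero, add_zero, zero_add] at p1 p2
    rcases Nat.eq_zero_or_pos k with rfl | hk0
    · rw [zero_add, c1] at p2
      linarith
    · have := ch_pos hm hk0 hk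
      linarith

end Cox

theorem C0c_thm (h0 : St_CH) (_h1 : St_C0a) (h2 : St_C0b) : St_C0c := by
  intro B _ _ N
  refine
    { ord := C0c_ord N
      roots_fin := fun i j a hij hm ha hp hs => C0c_roots_fin N h0 (h2 B N) hij hm ha hp hs
      roots_inf := fun i j h => C0c_roots_inf N h
      fin := fun i j h => Finite.of_surjective _ (C0c_enum_surj N h)
      card := fun i j _ => C0c_card N
      elts := fun i j g _ h hg => C0c_elts N h hg
      half := fun i j k hij hk h => ⟨fun v hv => ?_, fun g hg => C0c_half_comm N hk h hg⟩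
      rot_fix := fun i j k v hij h hk hv e => C0c_rot_fix N hij h hk hv e
      center := fun i j g h hg a b => C0c_center N h hg a b
      posdef := fun i j v hij h hv hne => C0c_posdef N hij h hv hne }
  have h3 := C0c_supp hij hv
  have h4 := sq_self (m := N i j) (by omega) (v j) (v i)
  rw [h3, C0c_rot, ← h, cc, h4.1, h4.2]
  module

end Pool.Agent.Lib.MP_1b8ce0_al.T
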