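import Mathlib
import Pool.Agent.Lib.MP_1b8ce0_al.T.StsA

set_option linter.unusedSectionVars false
set_option linter.dupNamespace false

namespace Pool.Agent.Lib.MP_1b8ce0_al.T

open Pool.Agent.Lib.MP_6d85b4_al

variable {B : Type} [Fintype B] [DecidableEq B] {N : CoxeterMatrix B}

theorem C1a_exp (x : Pt B) (a : B → ℝ) : x a = ∑ i, a i * x (al i) := by
  rw [LinearMap.pi_apply_eq_sum_univ]
  refine Finset.sum_congr rfl fun i _ => ?_
  rw [smul_eq_mul]
  congr 2
  ext j
  simp [al, Pi.single_apply, eq_comm]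

theorem C1a_nn {x : Pt B} (hx : Cham x) {a : B → ℝ} (ha : Pos a) : 0 ≤ x a := by
  rw [C1a_exp]
  exact Finset.sum_nonneg fun i _ => mul_nonneg (ha i) (hx i)

theorem C1a_van {x : Pt B} (hx : Cham x) {a : B → ℝ} (ha : Pos a) (h : x a ≤ 0) :
    Supp (Zs x) a := by
  have h0 := le_antisymm h (C1a_nn hx ha)
  rw [C1a_exp, Finset.sum_eq_zero_iff_of_nonneg fun i _ => mul_nonneg (ha i) (hx i)] at h0
  exact fun j hj => (mul_eq_zero.1 (h0 j (Finset.mem_univ j))).resolve_right hj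

theorem C1a_pt0 (h1 : C0a N) : InI N (pt0 B) ∧ ∀ a, IsRoot N a → Pos a → 0 < pt0 B a := by
  have e : ∀ i, pt0 B (al i) = 1 := fun i => by simp [pt0, al, Pi.single_apply]
  have h : ∀ a, IsRoot N a → Pos a → 0 < pt0 B a := fun a ha hp => by
    by_contra h
    have := C1a_van (x := pt0 B) (fun i => by simp [e]) hp (not_lt.1 h)
    exact h1.root_not a ha hp fun i => by simp [this i (by simp [Zs, e])]
  exact ⟨Set.finite_empty.subset fun a ha => (h a ha.1 ha.2.1).not_ge ha.2.2, h⟩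

theorem C1a_conv {x y : Pt B} (hx : InI N x) (hy : InI N y) {s t : ℝ} (hs : 0 ≤ s) (ht : 0 ≤ t)
    (h : 0 < s + t) : InI N (s • x + t • y) := by
  refine (hx.union hy).subset fun a ha => ?_
  by_contra hn
  simp only [Set.mem_union, Set.mem_ofPred_eq, ha.1, ha.2.1, true_and, not_or, not_le] at hn
  have := ha.2.2
  simp only [LinearMap.add_apply, LinearMap.smul_apply, smul_eq_mul] at this
  rcases hs.eq_or_lt with rfl | hs'
  · nlinarith [hn.2]
  · nlinarith [mul_pos hs' hn.1, mul_nonneg ht hn.2.le]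

theorem C1a_add {x y : Pt B} (hx : InI N x) (hy : InI N y) : InI N (x + y) := by
  simpa using C1a_conv hx hy zero_le_one zero_le_one (by norm_num)

theorem C1a_sum {ι : Type} (f : ι → Pt B) {s : Finset ι} (hs : s.Nonempty)
    (h : ∀ i ∈ s, InI N (f i)) : InI N (∑ i ∈ s, f i) :=
  Finset.sum_induction_nonempty f (InI N) (fun _ _ => C1a_add) hs h

theorem C1a_zero {x y : Pt B} {a : B → ℝ} (hx : InI N x) (hy : InI N y) (h1 : 0 ≤ x a)
    (h2 : y a ≤ 0) : ∃ s t : ℝ, 0 ≤ s ∧ 0 ≤ t ∧ s + t = 1 ∧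
      InI N (s • x + t • y) ∧ s * x a + t * y a = 0 := by
  rcases h1.eq_or_lt with h | h
  · exact ⟨1, 0, zero_le_one, le_rfl, by simp, C1a_conv hx hy zero_le_one le_rfl (by simp),
      by simp [← h]⟩
  · have hD : 0 < x a - y a := by linarith
    have hs : 0 ≤ -y a / (x a - y a) := div_nonneg (by linarith) hD.le
    have ht : 0 ≤ x a / (x a - y a) := div_nonneg h1 hD.le
    have e : -y a / (x a - y a) + x a / (x a - y a) = 1 := by field_simp; ring
    exact ⟨_, _, hs, ht, e, C1a_conv hx hy hs ht (by rw [e]; exact one_pos), by ring⟩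

theorem C1a_act (h1 : C0a N) (w : N.Group) {x : Pt B} (hx : InI N x) : InI N (act N w x) := by
  refine ((h1.inv_fin w).union (hx.image (rho N w))).subset fun a ha => ?_
  rcases h1.root_pos _ (h1.root_rho w⁻¹ a ha.1) with h | h
  · exact .inr ⟨_, ⟨h1.root_rho _ _ ha.1, h, ha.2.2⟩, rho_inv' N w a⟩
  · exact .inl ⟨ha.1, ha.2.1, h⟩

theorem C1a_refl (h1 : C0a N) {r : N.Group} {a : B → ℝ} (h : ReflOf N r a) :
    rho N r a = -a ∧ r⁻¹ = r ∧ ∀ v, rho N r (rho N r v) = v := by
  have e := (h1.refl_sq r ⟨a, h⟩).1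
  refine ⟨?_, inv_eq_of_mul_eq_one_right e, fun v => by rw [← rho_mul, e, rho_one]⟩
  rw [h1.refl_eq r a h, h1.root_norm a (h1.refl_isRoot r a h)]
  module

theorem C1a_fold (h1 : C0a N) {x : Pt B} (U : Set B) (hx : InI N x) :
    ∃ u ∈ par N U, ∀ i ∈ U, 0 ≤ x (rho N u (al i)) := by
  let Ng : N.Group → Set (B → ℝ) := fun u => {a | IsRoot N a ∧ Pos a ∧ x (rho N u a) < 0}
  have fin : ∀ u, (Ng u).Finite := fun u => (C1a_act h1 u⁻¹ hx).subset fun a ha =>
    ⟨ha.1, ha.2.1, by rw [act_apply, inv_inv]; exact ha.2.2.le⟩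
  obtain ⟨u, hu, hmin⟩ := exists_minimalFor_of_wellFoundedLT (· ∈ par N U)
    (fun u => (Ng u).ncard) ⟨1, (par N U).one_mem⟩
  refine ⟨u, hu, fun i hi => ?_⟩
  by_contra hn
  rw [not_le] at hn
  obtain ⟨e1, -, e3⟩ := C1a_refl h1 (h1.root_al i).2
  suffices h : (Ng (u * sr N i)).ncard < (Ng u).ncard from
    (hmin ((par N U).mul_mem hu (gp_mem _ hi)) h.le).not_gt h
  refine lt_of_le_of_lt (Set.ncard_le_ncard_of_injOn (t := Ng u \ {al i}) (rho N (sr N i))
    (fun a ha => ⟨⟨h1.root_rho _ _ ha.1, h1.simple_pos a i ha.1 ha.2.1 ?_, ?_⟩, fun h => ?_⟩)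
    (fun a _ b _ h => by rw [← e3 a, h, e3]) (fin u).sdiff)
    (Set.ncard_sdiff_singleton_lt_of_mem ⟨(h1.root_al i).1, pos_al i, hn⟩ (fin u))
  · rintro rfl
    have := ha.2.2
    rw [rho_mul, e1, map_neg, map_neg] at this
    linarith
  · rw [← rho_mul]; exact ha.2.2
  · have : a = -al i := by rw [← e3 a, h, e1]
    exact h1.root_not _ (h1.root_al i).1 (pos_al i) (this ▸ ha.2.1)

theorem C1a_face (h2 : C0b N) (T : Set B) (hT : Finite (par N T)) :
    ∃ y, InI N y ∧ Cham y ∧ Zs y = T := by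
  classical
  let y : Pt B := ∑ j ∈ Finset.univ.filter (· ∉ T), LinearMap.proj j
  have e : ∀ i, y (al i) = if i ∈ T then 0 else 1 := fun i => by
    simp [y, al, Pi.single_apply]
  have c : Cham y := fun i => by rw [e]; split_ifs <;> norm_num
  have z : Zs y = T := by ext i; simp [Zs, e]
  refine ⟨y, (Set.finite_range fun p : par N T × B => rho N p.1 (al p.2)).subset fun a ha => ?_,
    c, z⟩
  obtain ⟨u, hu, i, -, h⟩ := h2.supp_root T a ha.1 (z ▸ C1a_van c ha.2.1 ha.2.2)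
  exact ⟨(⟨u, hu⟩, i), h.symm⟩

theorem C1a_zfin (h1 : C0a N) (h2 : C0b N) {x : Pt B} (hx : InI N x) :
    (par N (Zs x) : Set N.Group).Finite := by
  refine (h1.inv_bdd (Set.ncard {a | IsRoot N a ∧ Pos a ∧ x a ≤ 0})).subset fun w hw => ?_
  refine Set.ncard_le_ncard (fun a ha => ⟨ha.1, ha.2.1, ?_⟩) hx
  have : Supp (Zs x) a := by
    by_contra h
    exact h1.root_not _ (h1.root_rho _ _ ha.1)
      (h2.pos_par _ _ a ((par N _).inv_mem hw) ha.1 ha.2.1 h) ha.2.2
  rw [C1a_exp]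
  refine (Finset.sum_eq_zero fun i _ => ?_).le
  by_cases h : i ∈ Zs x
  · rw [show x (al i) = 0 from h, mul_zero]
  · rw [this i h, zero_mul]

theorem C1a_uniq (h1 : C0a N) {x : Pt B} (hx : Cham x) (w : N.Group) (hw : Cham (act N w x)) :
    act N w x = x ∧ w ∈ par N (Zs x) := by
  induction hn : N.toCoxeterSystem.length w using Nat.strong_induction_on generalizing w with
  | _ n ih =>
  by_cases h : ∀ i, Pos (rho N w (al i))
  · rw [h1.faith w h]
    exact ⟨act_one N x, (par N _).one_mem⟩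
  · obtain ⟨i, hi⟩ := not_forall.1 h
    have hd : N.toCoxeterSystem.IsRightDescent w i := by
      by_contra h'
      exact hi (pos_of_not_descent N w i h')
    have h0 : x (al i) = 0 := by
      have := C1a_nn hw ((dichotomy N w i).resolve_left hi)
      rw [map_neg, act_rho] at this
      linarith [hx i]
    obtain ⟨-, e2, -⟩ := C1a_refl h1 (h1.root_al i).2
    have e : act N (w * sr N i) x = act N w x := by
      rw [act_mul]
      congr 1
      refine LinearMap.ext fun v => ?_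
      rw [act_apply, e2, h1.refl_eq _ _ (h1.root_al i).2, map_sub, map_smul, h0, smul_zero,
        sub_zero]
    obtain ⟨a, b⟩ := ih _ (hn ▸ hd) (w * sr N i) (e ▸ hw) rfl
    exact ⟨e ▸ a, ((par N _).mul_mem_cancel_right (gp_mem _ h0)).1 b⟩

theorem C1a_sep (h1 : C0a N) {x y : Pt B} (hx : InI N x) (hy : InI N y) :
    {a | IsRoot N a ∧ 0 ≤ x a ∧ y a ≤ 0}.Finite := by
  refine (hy.union (hx.image fun a => -a)).subset fun a ha => ?_
  rcases h1.root_pos a ha.1 with h | h
  · exact .inl ⟨ha.1, h, ha.2.2⟩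
  · exact .inr ⟨-a, ⟨h1.root_neg a ha.1, h, by simpa using ha.2.1⟩, neg_neg a⟩

theorem C1a_lt (h1 : C0a N) {r : N.Group} {b : B → ℝ} {x y : Pt B} (hx : InI N x) (hy : InI N y)
    (hr : ReflOf N r b) (xb : 0 < x b) (yb : y b < 0) :
    (Sep N x (act N r y)).ncard < (Sep N x y).ncard := by
  classical
  obtain ⟨e1, e2, e3⟩ := C1a_refl h1 hr
  have fin : (Sep N x y).Finite :=
    (C1a_sep h1 hx hy).subset fun a ha => ⟨ha.1, ha.2.1.le, ha.2.2.le⟩
  have m : ∀ g ∈ Sep N x (act N r y), y (rho N r g) < 0 := fun g hg => by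
    have := hg.2.2
    rwa [act_apply, e2] at this
  refine lt_of_le_of_lt (Set.ncard_le_ncard_of_injOn (t := Sep N x y \ {b})
    (fun g => if y g < 0 then g else rho N r g) (fun g hg => ?_) (fun g hg g' hg' h => ?_)
    fin.sdiff) (Set.ncard_sdiff_singleton_lt_of_mem ⟨h1.refl_isRoot _ _ hr, xb, yb⟩ fin)
  · have := m g hg
    split_ifs with h
    · refine ⟨⟨hg.1, hg.2.1, h⟩, ?_⟩
      rintro rfl
      rw [e1, map_neg] at this
      linarith
    · refine ⟨⟨h1.root_rho _ _ hg.1, ?_, this⟩, fun h' => ?_⟩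
      · rw [h1.refl_eq r b hr, map_sub, map_smul, smul_eq_mul] at this ⊢
        have : Bf N b g < 0 := by nlinarith
        nlinarith [hg.2.1]
      · have e : g = -b := by rw [← e3 g, h', e1]
        have := hg.2.1
        rw [e, map_neg] at this
        linarith
  · have a := m g hg
    have a' := m g' hg'
    dsimp only at h
    split_ifs at h with p q q
    · exact h
    · rw [h, e3] at a; exact absurd a q
    · rw [← h, e3] at a'; exact absurd a' p
    · rw [← e3 g, h, e3]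

theorem C1a_thm (h1 : St_C0a) (h2 : St_C0b) : St_C1a := by
  intro B _ _ N
  have h1 := h1 B N
  have h2 := h2 B N
  have p0 := C1a_pt0 h1
  refine ⟨p0, fun _ _ => C1a_add, fun x t hx ht => ?_, fun _ _ _ => C1a_zero,
    fun w _ => C1a_act h1 w, fun _ U => C1a_fold h1 U, C1a_face h2,
    fun x hx _ => C1a_zfin h1 h2 hx, fun w x hx => C1a_uniq h1 hx w, fun x hx => ?_,
    fun x a hx ha h => ?_, fun _ _ => C1a_sep h1, fun F hF hI hS => ?_,
    fun _ _ _ _ => C1a_lt h1, fun a ha => ?_, fun K hK => ?_⟩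
  · simpa using C1a_conv hx hx ht.le le_rfl (by simpa using ht)
  · obtain ⟨u, -, hu⟩ := C1a_fold h1 Set.univ hx
    have c : Cham (act N u⁻¹ x) := fun i => by
      rw [act_apply, inv_inv]; exact hu i trivial
    refine ((C1a_zfin h1 h2 (C1a_act h1 u⁻¹ hx)).image fun g => u * g * u⁻¹).subset
      fun w hw => ⟨u⁻¹ * w * u, (C1a_uniq h1 c _ ?_).2, by group⟩
    rwa [← act_mul, mul_inv_cancel_right, act_mul, show act N w x = x from hw]
  · rcases h1.root_pos a ha with p | p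
    · exact C1a_van hx p h.le
    · exact fun j hj => by simpa using C1a_van hx p (by simp [h]) j hj
  · rcases F.eq_empty_or_nonempty with rfl | hne
    · exact ⟨1, by simp⟩
    obtain ⟨u, -, hu⟩ := C1a_fold h1 Set.univ
      (C1a_sum id (hF.toFinset_nonempty.2 hne) fun x hx => hI x (hF.mem_toFinset.1 hx))
    refine ⟨u, fun x hx i => ?_⟩
    rw [act_apply, inv_inv]
    by_contra hn
    refine (hu i trivial).not_gt ?_
    rw [LinearMap.sum_apply, ← Finset.sum_const_zero (s := hF.toFinset)]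
    refine Finset.sum_lt_sum (fun y hy => ?_) ⟨x, hF.mem_toFinset.2 hx, not_le.1 hn⟩
    by_contra hy'
    exact Set.eq_empty_iff_forall_notMem.1 (hS y (hF.mem_toFinset.1 hy) x hx) _
      ⟨⟨u, i, rfl⟩, not_le.1 hy', not_le.1 hn⟩
  · obtain ⟨r, hr⟩ := h1.refl_ex a ha
    obtain ⟨e1, e2, -⟩ := C1a_refl h1 hr
    refine ⟨_, C1a_add p0.1 (C1a_act h1 r p0.1), ?_⟩
    rw [LinearMap.add_apply, act_apply, e2, e1, map_neg, add_neg_cancel]
  · have := Fintype.ofFinite K
    refine ⟨∑ h : K, act N h (pt0 B), C1a_sum _ Finset.univ_nonempty fun h _ => C1a_act h1 _ p0.1,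
      fun g hg => LinearMap.ext fun v => ?_⟩
    rw [act_apply, LinearMap.sum_apply, LinearMap.sum_apply,
      ← Equiv.sum_comp (Equiv.mulLeft (⟨g, hg⟩ : K)) fun h : K => act N h (pt0 B) v]
    refine Finset.sum_congr rfl fun h _ => ?_
    rw [← act_apply, ← act_mul]
    rfl

end Pool.Agent.Lib.MP_1b8ce0_al.T
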