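import Mathlib
import Pool.Agent.Lib.MP_1b8ce0_al.T.StsA

set_option linter.unusedSectionVars false
set_option linter.dupNamespace false

namespace Pool.Agent.Lib.MP_1b8ce0_al.T

open Pool.Agent.Lib.MP_6d85b4_al

theorem C1b_trig (α β γ : ℝ) (ha : 0 < α) (hb : 0 < β) (hc : 0 < γ) (ha' : α ≤ Real.pi / 2)
    (hb' : β ≤ Real.pi / 2) (hc' : γ ≤ Real.pi / 2) (hs : α + β + γ ≤ Real.pi) :
    ∃ x y z : ℝ, 0 < x ∧ 0 < y ∧ 0 < z ∧ x - Real.cos α * y - Real.cos γ * z ≤ 0 ∧
      y - Real.cos α * x - Real.cos β * z ≤ 0 ∧ z - Real.cos γ * x - Real.cos β * y ≤ 0 ∧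
      (x - Real.cos α * y - Real.cos γ * z = 0 → y - Real.cos α * x - Real.cos β * z = 0 →
        α + β + γ = Real.pi) := by
  have hp := Real.pi_pos
  obtain ⟨a, b, c, h1, h2, h3, h4, h5, h6, h7⟩ : ∃ a b c : ℝ, α ≤ a ∧ β ≤ b ∧ γ ≤ c ∧
      a ≤ Real.pi / 2 ∧ b ≤ Real.pi / 2 ∧ c ≤ Real.pi / 2 ∧ a + b + c = Real.pi := by
    have hd : 0 < 3 * Real.pi / 2 - (α + β + γ) := by linarith
    set t := (Real.pi - (α + β + γ)) / (3 * Real.pi / 2 - (α + β + γ)) with ht
    have t0 : 0 ≤ t := div_nonneg (by linarith) hd.le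
    have t1 : t ≤ 1 := (div_le_one hd).2 (by linarith)
    have t2 : t * (3 * Real.pi / 2 - (α + β + γ)) = Real.pi - (α + β + γ) :=
      div_mul_cancel₀ _ hd.ne'
    refine ⟨α + t * (Real.pi / 2 - α), β + t * (Real.pi / 2 - β), γ + t * (Real.pi / 2 - γ),
      ?_, ?_, ?_, ?_, ?_, ?_, ?_⟩
    · nlinarith
    · nlinarith
    · nlinarith
    · nlinarith
    · nlinarith
    · nlinarith
    · linear_combination t2
  have sa : 0 < Real.sin a := Real.sin_pos_of_pos_of_lt_pi (by linarith) (by linarith)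
  have sb : 0 < Real.sin b := Real.sin_pos_of_pos_of_lt_pi (by linarith) (by linarith)
  have sc : 0 < Real.sin c := Real.sin_pos_of_pos_of_lt_pi (by linarith) (by linarith)
  have ca : Real.cos a ≤ Real.cos α :=
    Real.cos_le_cos_of_nonneg_of_le_pi ha.le (by linarith) h1
  have cb : Real.cos b ≤ Real.cos β :=
    Real.cos_le_cos_of_nonneg_of_le_pi hb.le (by linarith) h2
  have cc' : Real.cos c ≤ Real.cos γ :=
    Real.cos_le_cos_of_nonneg_of_le_pi hc.le (by linarith) h3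
  have e1 : Real.sin b = Real.sin a * Real.cos c + Real.cos a * Real.sin c := by
    rw [← Real.sin_add, ← Real.sin_pi_sub]
    congr 1
    linarith
  have e2 : Real.sin c = Real.sin a * Real.cos b + Real.cos a * Real.sin b := by
    rw [← Real.sin_add, ← Real.sin_pi_sub]
    congr 1
    linarith
  have e3 : Real.sin a = Real.sin b * Real.cos c + Real.cos b * Real.sin c := by
    rw [← Real.sin_add, ← Real.sin_pi_sub]
    congr 1
    linarith
  have p1 := mul_nonneg (sub_nonneg.2 ca) sc.le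
  have p2 := mul_nonneg (sub_nonneg.2 cc') sa.le
  have p3 := mul_nonneg (sub_nonneg.2 ca) sb.le
  have p4 := mul_nonneg (sub_nonneg.2 cb) sa.le
  have p5 := mul_nonneg (sub_nonneg.2 cc') sb.le
  have p6 := mul_nonneg (sub_nonneg.2 cb) sc.le
  refine ⟨Real.sin b, Real.sin c, Real.sin a, sb, sc, sa, by linarith, by linarith, by linarith,
    fun q1 q2 => ?_⟩
  have inj : ∀ u v : ℝ, 0 < u → u ≤ v → v ≤ Real.pi / 2 → Real.cos u - Real.cos v = 0 → u = v :=
    fun u v k1 k2 k3 k4 => Real.injOn_cos ⟨by linarith, by linarith⟩ ⟨by linarith, by linarith⟩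
      (by linarith)
  have z1 : (Real.cos α - Real.cos a) * Real.sin c = 0 := by linarith
  have z2 : (Real.cos γ - Real.cos c) * Real.sin a = 0 := by linarith
  have z3 : (Real.cos β - Real.cos b) * Real.sin a = 0 := by linarith
  rw [inj α a ha h1 h4 ((mul_eq_zero.1 z1).resolve_right sc.ne'),
    inj β b hb h2 h5 ((mul_eq_zero.1 z3).resolve_right sa.ne'),
    inj γ c hc h3 h6 ((mul_eq_zero.1 z2).resolve_right sa.ne'), h7]

section

variable {B : Type} [Fintype B] [DecidableEq B] {N : CoxeterMatrix B}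

theorem C1b_sum (a : B → ℝ) : a = ∑ i, a i • al i := by
  funext j
  simp [al, Finset.sum_apply, Pi.single_apply]

theorem C1b_eval (x : Pt B) (a : B → ℝ) : x a = ∑ i, a i * x (al i) := by
  conv_lhs => rw [C1b_sum a]
  simp

theorem C1b_cham {x : Pt B} (hx : Cham x) {a : B → ℝ} (ha : Pos a) : 0 ≤ x a := by
  rw [C1b_eval]
  exact Finset.sum_nonneg fun i _ => mul_nonneg (ha i) (hx i)

theorem C1b_kill {x : Pt B} {T : Set B} (hx : ∀ i ∈ T, x (al i) = 0) {a : B → ℝ}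
    (ha : Supp T a) : x a = 0 := by
  rw [C1b_eval]
  refine Finset.sum_eq_zero fun i _ => ?_
  by_cases h : i ∈ T
  · rw [hx i h, mul_zero]
  · rw [ha i h, zero_mul]

theorem C1b_supp_al {T : Set B} {i : B} (h : i ∈ T) : Supp T (al i) :=
  fun _ hj => al_ne fun e => hj (e ▸ h)

theorem C1b_act_inv (u : N.Group) (x : Pt B) (a : B → ℝ) : act N u⁻¹ x a = x (rho N u a) := by
  rw [act_apply, inv_inv]

theorem C1b_act_back (u : N.Group) (x : Pt B) (a : B → ℝ) :
    act N u⁻¹ x (rho N u⁻¹ a) = x a := act_rho N _ _ _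

theorem C1b_rho_inj (w : N.Group) {a b : B → ℝ} (h : rho N w a = rho N w b) : a = b := by
  rw [← rho_inv N w a, h, rho_inv]

theorem C1b_ne (w : N.Group) {a b : B → ℝ} (h : b ≠ a) : rho N w b ≠ rho N w a :=
  fun e => h (C1b_rho_inj w e)

theorem C1b_ne' (w : N.Group) {a b : B → ℝ} (h : b ≠ -a) : rho N w b ≠ -rho N w a :=
  fun e => h (C1b_rho_inj w (by rw [e, map_neg]))

theorem C1b_al_ne {i j : B} (h : i ≠ j) : (al j : B → ℝ) ≠ al i := fun e => h (al_inj e).symm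

theorem C1b_al_ne' {i j : B} (h : i ≠ j) : (al j : B → ℝ) ≠ -al i := by
  intro e
  have := congrFun e j
  rw [al_self, Pi.neg_apply, al_ne h.symm, neg_zero] at this
  exact one_ne_zero this

/-- two independent vectors span a coordinate plane -/
theorem C1b_plane {p q : B} {a b e : B → ℝ} (ha : Supp {p, q} a) (hb : Supp {p, q} b)
    (he : Supp {p, q} e) (hi : ∀ s t : ℝ, s • a + t • b = 0 → s = 0 ∧ t = 0) :
    ∃ s t : ℝ, e = s • a + t • b := by
  have key : ∀ u v : B → ℝ, Supp {p, q} u → Supp {p, q} v → u p = v p → u q = v q → u = v := by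
    intro u v hu hv h1 h2
    funext j
    by_cases h : j ∈ ({p, q} : Set B)
    · rcases h with rfl | rfl
      · exact h1
      · exact h2
    · rw [hu j h, hv j h]
  have comb : ∀ s t : ℝ, Supp {p, q} (s • a + t • b) := fun s t j hj => by
    simp [ha j hj, hb j hj]
  have z : Supp ({p, q} : Set B) 0 := fun _ _ => rfl
  have hd : a p * b q - a q * b p ≠ 0 := by
    intro hd
    have h1 := hi (b q) (-a q) (key _ _ (comb _ _) z
      (by simp only [Pi.add_apply, Pi.smul_apply, smul_eq_mul, Pi.zero_apply]; linarith)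
      (by simp only [Pi.add_apply, Pi.smul_apply, smul_eq_mul, Pi.zero_apply]; ring))
    have h2 := hi (b p) (-a p) (key _ _ (comb _ _) z
      (by simp only [Pi.add_apply, Pi.smul_apply, smul_eq_mul, Pi.zero_apply]; ring)
      (by simp only [Pi.add_apply, Pi.smul_apply, smul_eq_mul, Pi.zero_apply]; linarith))
    have h3 := hi 0 1 (key _ _ (comb _ _) z (by simp [h2.1]) (by simp [h1.1]))
    exact one_ne_zero h3.2
  refine ⟨(e p * b q - e q * b p) / (a p * b q - a q * b p),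
    (a p * e q - a q * e p) / (a p * b q - a q * b p), key _ _ he (comb _ _) ?_ ?_⟩
  · simp only [Pi.add_apply, Pi.smul_apply, smul_eq_mul]
    rw [div_mul_eq_mul_div, div_mul_eq_mul_div, ← add_div, eq_div_iff hd]
    ring
  · simp only [Pi.add_apply, Pi.smul_apply, smul_eq_mul]
    rw [div_mul_eq_mul_div, div_mul_eq_mul_div, ← add_div, eq_div_iff hd]
    ring

theorem C1b_two_le {i j : B} (h : i ≠ j) (h0 : N i j ≠ 0) : 2 ≤ N i j := by
  have := N.off_diagonal i j h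
  omega

theorem C1b_Bf_self (i : B) : Bf N (al i) (al i) = 1 := by
  rw [Bf_al, N.diagonal]
  simp

theorem C1b_nullv (hN : NoSph N) (i j k : B) (h : Tri0 N i j k) :
    ∃ v : B → ℝ, Supp {i, j, k} v ∧ 0 < v i ∧ 0 < v j ∧
    0 < v k ∧ Bf N v (al i) ≤ 0 ∧ Bf N v (al j) ≤ 0 ∧ Bf N v (al k) ≤ 0 ∧
      (Bf N v (al i) = 0 → Bf N v (al j) = 0 → Bf N v (al k) = 0 →
        1 / (N i j : ℚ) + 1 / (N j k : ℚ) + 1 / (N i k : ℚ) = 1) := by
  obtain ⟨hij, hjk, hik, h1, h2, h3⟩ := h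
  have hp := Real.pi_pos
  have aux : ∀ m : ℕ, 2 ≤ m → 0 < Real.pi / m ∧ Real.pi / m ≤ Real.pi / 2 := by
    intro m hm
    have : (2 : ℝ) ≤ m := by exact_mod_cast hm
    exact ⟨by positivity, div_le_div_of_nonneg_left hp.le (by norm_num) this⟩
  have a1 := aux _ (C1b_two_le hij h1)
  have a2 := aux _ (C1b_two_le hjk h2)
  have a3 := aux _ (C1b_two_le hik h3)
  have hs : (1 / (N i j : ℝ) + 1 / (N j k : ℝ) + 1 / (N i k : ℝ)) ≤ 1 := by
    have := (Rat.cast_le (K := ℝ)).2 (hN i j k hij hjk hik)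
    push_cast at this
    exact this
  have e : Real.pi / N i j + Real.pi / N j k + Real.pi / N i k =
      Real.pi * (1 / (N i j : ℝ) + 1 / (N j k : ℝ) + 1 / (N i k : ℝ)) := by ring
  obtain ⟨x, y, z, hx, hy, hz, q1, q2, q3, q4⟩ := C1b_trig _ _ _ a1.1 a2.1 a3.1 a1.2 a2.2 a3.2
    (by rw [e]; nlinarith)
  have b1 : Bf N (x • al i + y • al j + z • al k) (al i) =
      x - Real.cos (Real.pi / N i j) * y - Real.cos (Real.pi / N i k) * z := by
    rw [Bf_add_left, Bf_add_left, Bf_smul_left, Bf_smul_left, Bf_smul_left, C1b_Bf_self, Bf_al,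
      Bf_al, N.symmetric j i, N.symmetric k i]
    ring
  have b2 : Bf N (x • al i + y • al j + z • al k) (al j) =
      y - Real.cos (Real.pi / N i j) * x - Real.cos (Real.pi / N j k) * z := by
    rw [Bf_add_left, Bf_add_left, Bf_smul_left, Bf_smul_left, Bf_smul_left, C1b_Bf_self, Bf_al,
      Bf_al, N.symmetric k j]
    ring
  have b3 : Bf N (x • al i + y • al j + z • al k) (al k) =
      z - Real.cos (Real.pi / N i k) * x - Real.cos (Real.pi / N j k) * y := by
    rw [Bf_add_left, Bf_add_left, Bf_smul_left, Bf_smul_left, Bf_smul_left, C1b_Bf_self, Bf_al,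
      Bf_al]
    ring
  refine ⟨x • al i + y • al j + z • al k, ?_, ?_, ?_, ?_, b1 ▸ q1, b2 ▸ q2, b3 ▸ q3, ?_⟩
  · intro t ht
    simp only [Set.mem_insert_iff, Set.mem_singleton_iff, not_or] at ht
    simp [al_ne ht.1, al_ne ht.2.1, al_ne ht.2.2]
  · simpa [al_ne hij, al_ne hik] using hx
  · simpa [al_ne hij.symm, al_ne hjk] using hy
  · simpa [al_ne hik.symm, al_ne hjk.symm] using hz
  · intro r1 r2 _
    have r4 := q4 (b1 ▸ r1) (b2 ▸ r2)
    rw [e] at r4
    have r5 : (1 / (N i j : ℝ) + 1 / (N j k : ℝ) + 1 / (N i k : ℝ)) = 1 :=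
      mul_left_cancel₀ hp.ne' (by rw [r4, mul_one])
    refine Rat.cast_injective (α := ℝ) ?_
    push_cast
    exact r5

theorem C1b_fin_le {T U : Set B} (h : T ⊆ U) (hU : Finite (par N U)) : Finite (par N T) :=
  Finite.of_injective _ (Subgroup.inclusion_injective (gp_mono (sr N) h))

theorem C1b_label (C : C0c N) {T : Set B} (hT : Finite (par N T)) {s t : B} (hs : s ∈ T)
    (ht : t ∈ T) : N s t ≠ 0 := by
  have h1 : IsOfFinOrder (⟨sr N s * sr N t, (par N T).mul_mem (gp_mem _ hs) (gp_mem _ ht)⟩ :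
      par N T) := isOfFinOrder_of_finite _
  have h2 := (par N T).subtype.isOfFinOrder h1
  rw [← C.ord]
  exact (orderOf_pos_iff.2 h2).ne'

theorem C1b_neg_of_descent {u : N.Group} {t : B} (h : N.toCoxeterSystem.IsRightDescent u t) :
    Pos (-rho N u (al t)) := by
  have := pos_of_not_descent N _ t
    ((N.toCoxeterSystem.isRightDescent_iff_not_isRightDescent_mul).1 h)
  rwa [rho_mul, rho_simple, rf_self, map_neg] at this

theorem C1b_grow (A : C0a N) (P : C0b N) {T : Set B} {v : B → ℝ}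
    (hv : ∀ t ∈ T, Bf N v (al t) ≤ 0) (u : N.Group) (hu : u ∈ par N T) : Pos (rho N u v - v) := by
  induction hn : N.toCoxeterSystem.length u using Nat.strong_induction_on generalizing u with
  | _ n ih =>
  by_cases h1 : u = 1
  · subst h1
    intro j
    simp
  obtain ⟨t, ht, h2⟩ : ∃ t ∈ T, ¬ Pos (rho N u (al t)) := by
    by_contra h
    push Not at h
    exact h1 (P.faithT T u hu h)
  have hd : N.toCoxeterSystem.IsRightDescent u t := by
    by_contra h
    exact h2 (pos_of_not_descent N u t h)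
  have h3 := C1b_neg_of_descent hd
  have h4 := ih _ (hn ▸ hd) (u * sr N t) ((par N T).mul_mem hu (gp_mem _ ht)) rfl
  rw [rho_mul, A.refl_eq _ _ (A.root_al t).2, map_sub, map_smul] at h4
  intro j
  have h5 := h4 j
  have h6 := h3 j
  have h7 := hv t ht
  rw [Bf_symm] at h7
  simp only [Pi.sub_apply, Pi.smul_apply, smul_eq_mul, Pi.neg_apply] at h5 h6 ⊢
  nlinarith

theorem C1b_sph (hN : NoSph N) (A : C0a N) (P : C0b N) (C : C0c N) (i j k : B) (hij : i ≠ j)
    (hjk : j ≠ k) (hik : i ≠ k) : ¬ Finite (par N {i, j, k}) := by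
  intro hT
  obtain ⟨v, hv, v1, v2, v3, b1, b2, b3, -⟩ := C1b_nullv hN i j k ⟨hij, hjk, hik,
    C1b_label C hT (by simp) (by simp), C1b_label C hT (by simp) (by simp),
    C1b_label C hT (by simp) (by simp)⟩
  obtain ⟨u, hu⟩ := Finite.exists_max
    (fun u : par N {i, j, k} => N.toCoxeterSystem.length (u : N.Group))
  have hneg : ∀ t ∈ ({i, j, k} : Set B), Pos (-rho N u (al t)) := by
    intro t ht
    refine C1b_neg_of_descent ?_
    by_contra h
    have h1 := (N.toCoxeterSystem.not_isRightDescent_iff).1 h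
    have h2 := hu ⟨u * sr N t, (par N _).mul_mem u.2 (gp_mem _ ht)⟩
    simp only at h2
    unfold sr at h2
    omega
  have h1 := C1b_grow A P (T := {i, j, k}) (v := v) (by
    rintro t (rfl | rfl | rfl)
    · exact b1
    · exact b2
    · exact b3) u u.2 i
  have h2 : rho N u v i ≤ 0 := by
    have := C1b_eval (LinearMap.proj i ∘ₗ rho N u) v
    simp only [LinearMap.comp_apply, LinearMap.proj_apply] at this
    rw [this]
    refine Finset.sum_nonpos fun t _ => ?_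
    by_cases ht : t ∈ ({i, j, k} : Set B)
    · have h3 := hneg t ht i
      have h4 : 0 ≤ v t := by
        rcases ht with rfl | rfl | rfl
        · exact v1.le
        · exact v2.le
        · exact v3.le
      simp only [Pi.neg_apply] at h3
      nlinarith
    · rw [hv t ht, zero_mul]
  simp only [Pi.sub_apply] at h1
  linarith

theorem C1b_sub {T : Set B} (hT : Simplex N T) (i₀ : B) : ∃ p q, N p q ≠ 0 ∧ T ⊆ {p, q} := by
  have h0 : ∀ i, N i i ≠ 0 := fun i => by rw [N.diagonal]; exact one_ne_zero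
  by_cases h : ∃ p ∈ T, ∃ q ∈ T, p ≠ q
  · obtain ⟨p, hp, q, hq, hpq⟩ := h
    refine ⟨p, q, hT.1 p hp q hq, fun t ht => ?_⟩
    rcases hT.2 p hp q hq t ht with h | h | h
    · exact absurd h hpq
    · exact Or.inr h.symm
    · exact Or.inl h.symm
  · push Not at h
    rcases T.eq_empty_or_nonempty with rfl | ⟨p, hp⟩
    · exact ⟨i₀, i₀, h0 _, Set.empty_subset _⟩
    · exact ⟨p, p, h0 _, fun t ht => Or.inl (h t ht p hp)⟩

theorem C1b_fin_par (hN : NoSph N) (A : C0a N) (P : C0b N) (C : C0c N) (T : Set B) :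
    Finite (par N T) ↔ Simplex N T := by
  constructor
  · intro hT
    refine ⟨fun s hs t ht => C1b_label C hT hs ht, fun s hs t ht u hu => ?_⟩
    by_contra h
    push Not at h
    refine C1b_sph hN A P C s t u h.1 h.2.1 h.2.2 (C1b_fin_le ?_ hT)
    rintro x (rfl | rfl | rfl) <;> assumption
  · intro hT
    rcases T.eq_empty_or_nonempty with rfl | ⟨p, -⟩
    · have : par N ∅ = ⊥ := by simp [gp]
      rw [this]
      infer_instance
    · obtain ⟨p, q, h1, h2⟩ := C1b_sub hT p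
      exact C1b_fin_le h2 (C.fin p q h1)

theorem C1b_rank2 (hN : NoSph N) (A : C0a N) (P : C0b N) (C : C0c N) (D : C1a N) (y : Pt B)
    (a b e : B → ℝ) (hy : InI N y) (ha : IsRoot N a) (hb : IsRoot N b) (he : IsRoot N e)
    (h1 : b ≠ a) (h2 : b ≠ -a) (ya : y a = 0) (yb : y b = 0) (ye : y e = 0) :
    ∃ s t : ℝ, e = s • a + t • b := by
  obtain ⟨u, -, hu⟩ := D.fold y Set.univ hy
  have hc : Cham (act N u⁻¹ y) := fun i => by
    rw [C1b_act_inv]
    exact hu i trivial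
  obtain ⟨-, i₀, -⟩ := id ha
  obtain ⟨p, q, -, hpq⟩ := C1b_sub
    ((C1b_fin_par hN A P C _).1 (D.zfin _ (D.act_mem _ _ hy) hc)) i₀
  have key : ∀ g, IsRoot N g → y g = 0 → Supp {p, q} (rho N u⁻¹ g) := fun g hg h0 j hj =>
    D.vanish _ _ hc (A.root_rho _ _ hg) (by rw [C1b_act_back, h0]) j fun h => hj (hpq h)
  obtain ⟨s, t, h⟩ := C1b_plane (key a ha ya) (key b hb yb) (key e he ye) fun s t =>
    A.root_indep _ _ s t (A.root_rho _ _ ha) (A.root_rho _ _ hb) (C1b_ne _ h1) (C1b_ne' _ h2)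
  refine ⟨s, t, C1b_rho_inj (N := N) u⁻¹ ?_⟩
  rw [h, map_add, map_smul, map_smul]

theorem C1b_vertex (hN : NoSph N) (A : C0a N) (P : C0b N) (C : C0c N) (D : C1a N) (y : Pt B)
    (i j : B) (hy : InI N y) (hij : i ≠ j) (yi : y (al i) = 0) (yj : y (al j) = 0) :
    Cham y ∧ Zs y = {i, j} ∧ N i j ≠ 0 := by
  have h0 : ∀ t ∈ ({i, j} : Set B), y (al t) = 0 := by
    rintro t (rfl | rfl) <;> assumption
  have hm : N i j ≠ 0 := by
    intro h
    refine C.roots_inf i j h (Set.Finite.subset hy ?_)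
    rintro a ⟨h1, h2, h3⟩
    exact ⟨h1, h2, (C1b_kill h0 h3).le⟩
  obtain ⟨y₁, hy₁, hc₁, hz₁⟩ := D.face {i, j} (C.fin i j hm)
  have h1 : ∀ t ∈ ({i, j} : Set B), y₁ (al t) = 0 := fun t ht => by
    rw [← hz₁] at ht
    exact ht
  have hpos : ∀ k, k ∉ ({i, j} : Set B) → 0 < y (al k) := by
    intro k hk
    by_contra h
    obtain ⟨s, t, -, -, -, hz, h2⟩ := D.zero y₁ y (al k) hy₁ hy (hc₁ k) (not_lt.1 h)
    obtain ⟨s', t', h3⟩ := C1b_rank2 hN A P C D _ (al i) (al j) (al k) hz (A.root_al i).1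
      (A.root_al j).1 (A.root_al k).1 (C1b_al_ne hij) (C1b_al_ne' hij)
      (by simp [yi, h1 i (by simp)]) (by simp [yj, h1 j (by simp)]) (by simpa using h2)
    simp only [Set.mem_insert_iff, Set.mem_singleton_iff, not_or] at hk
    have h4 := congrFun h3 k
    simp [al_ne hk.1, al_ne hk.2] at h4
  refine ⟨fun k => ?_, ?_, hm⟩
  · by_cases hk : k ∈ ({i, j} : Set B)
    · exact (h0 k hk).ge
    · exact (hpos k hk).le
  · ext k
    refine ⟨fun hk => ?_, h0 k⟩
    by_contra h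
    exact (hpos k h).ne' hk

theorem C1b_coef {x : Pt B} {U : Set B} (hx : ∀ i ∈ U, 0 ≤ x (al i)) {a : B → ℝ} (hs : Supp U a)
    (hp : Pos a) (h0 : x a = 0) {i : B} (hi : a i ≠ 0) : x (al i) = 0 := by
  rw [C1b_eval, Finset.sum_eq_zero_iff_of_nonneg] at h0
  · exact (mul_eq_zero.1 (h0 i (Finset.mem_univ _))).resolve_left hi
  · intro t _
    by_cases ht : t ∈ U
    · exact mul_nonneg (hp t) (hx t ht)
    · rw [hs t ht, zero_mul]

theorem C1b_vx0 (hN : NoSph N) (A : C0a N) (P : C0b N) (C : C0c N) (D : C1a N) (U : Set B)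
    (y : Pt B) (a b : B → ℝ) (hy : InI N y) (ha : IsRoot N a) (hb : IsRoot N b) (h1 : b ≠ a)
    (h2 : b ≠ -a) (sa : Supp U a) (sb : Supp U b) (ya : y a = 0) (yb : y b = 0) :
    ∃ u ∈ par N U, ∃ i ∈ U, ∃ j ∈ U, i ≠ j ∧ N i j ≠ 0 ∧
      Cham (act N u⁻¹ y) ∧ Zs (act N u⁻¹ y) = {i, j} := by
  obtain ⟨u, hu, hf⟩ := D.fold y U hy
  have hx : ∀ i ∈ U, 0 ≤ act N u⁻¹ y (al i) := fun i hi => by
    rw [C1b_act_inv]
    exact hf i hi
  have key : ∀ g, IsRoot N g → Supp U g → y g = 0 → ∀ i, rho N u⁻¹ g i ≠ 0 →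
      i ∈ U ∧ act N u⁻¹ y (al i) = 0 := by
    intro g hg sg' yg i hi
    have s1 := P.supp_par U u⁻¹ g ((par N U).inv_mem hu) sg'
    have s2 : act N u⁻¹ y (rho N u⁻¹ g) = 0 := by rw [C1b_act_back, yg]
    refine ⟨by_contra fun h => hi (s1 i h), ?_⟩
    rcases A.root_pos _ (A.root_rho u⁻¹ _ hg) with h | h
    · exact C1b_coef hx s1 h s2 hi
    · exact C1b_coef hx (fun t ht => by simp [s1 t ht]) h (by rw [map_neg, s2, neg_zero])
        (by simpa using hi)
  have hind := fun s t => A.root_indep _ _ s t (A.root_rho u⁻¹ _ ha) (A.root_rho u⁻¹ _ hb)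
    (C1b_ne _ h1) (C1b_ne' _ h2)
  obtain ⟨i, hi⟩ : ∃ i, rho N u⁻¹ a i ≠ 0 := by
    by_contra h
    push Not at h
    exact one_ne_zero (hind 1 0 (by funext t; simp [h t])).1
  obtain ⟨j, hji, hj⟩ : ∃ j, j ≠ i ∧ (rho N u⁻¹ a j ≠ 0 ∨ rho N u⁻¹ b j ≠ 0) := by
    by_contra h
    push Not at h
    refine hi (hind (-rho N u⁻¹ b i) (rho N u⁻¹ a i) ?_).2
    funext t
    by_cases ht : t = i
    · subst ht
      simp only [Pi.add_apply, Pi.smul_apply, smul_eq_mul, Pi.zero_apply]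
      ring
    · simp [(h t ht).1, (h t ht).2]
  have k1 := key a ha sa ya i hi
  have k2 : j ∈ U ∧ act N u⁻¹ y (al j) = 0 := by
    rcases hj with hj | hj
    · exact key a ha sa ya j hj
    · exact key b hb sb yb j hj
  obtain ⟨v1, v2, v3⟩ := C1b_vertex hN A P C D _ i j (D.act_mem _ _ hy) hji.symm k1.2 k2.2
  exact ⟨u, hu, i, k1.1, j, k2.1, hji.symm, v3, v1, v2⟩

/-- normal form of a vertex: the simple roots `i`, `j` are combinations of the two roots -/
theorem C1b_norm (hN : NoSph N) (A : C0a N) (P : C0b N) (C : C0c N) (D : C1a N)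
    (y : Pt B) (a b : B → ℝ) (hy : InI N y) (ha : IsRoot N a) (hb : IsRoot N b) (h1 : b ≠ a)
    (h2 : b ≠ -a) (ya : y a = 0) (yb : y b = 0) :
    ∃ u i j, i ≠ j ∧ Cham (act N u⁻¹ y) ∧ Zs (act N u⁻¹ y) = {i, j} ∧
      ∀ k ∈ ({i, j} : Set B), ∃ s t : ℝ, rho N u (al k) = s • a + t • b := by
  obtain ⟨u, -, i, -, j, -, hij, -, hc, hz⟩ := C1b_vx0 hN A P C D Set.univ y a b hy ha hb h1 h2
    (fun _ h => (h trivial).elim) (fun _ h => (h trivial).elim) ya yb
  refine ⟨u, i, j, hij, hc, hz, fun k hk => C1b_rank2 hN A P C D y a b _ hy ha hb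
    (A.root_rho _ _ (A.root_al k).1) h1 h2 ya yb ?_⟩
  rw [← hz] at hk
  rw [← C1b_act_inv]
  exact hk

theorem C1b_face_eq (hN : NoSph N) (A : C0a N) (P : C0b N) (C : C0c N) (D : C1a N)
    (y y' : Pt B) (a b e : B → ℝ) (hy : InI N y) (hy' : InI N y') (ha : IsRoot N a)
    (hb : IsRoot N b) (he : IsRoot N e) (h1 : b ≠ a) (h2 : b ≠ -a) (ya : y a = 0) (yb : y b = 0)
    (ya' : y' a = 0) (yb' : y' b = 0) (h : 0 < y e) : 0 < y' e := by
  obtain ⟨u, i, j, hij, hc, hz, hk⟩ := C1b_norm hN A P C D y a b hy ha hb h1 h2 ya yb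
  have h3 : ∀ k ∈ ({i, j} : Set B), act N u⁻¹ y' (al k) = 0 := by
    intro k hk'
    obtain ⟨s, t, h4⟩ := hk k hk'
    rw [C1b_act_inv, h4]
    simp [ya', yb']
  obtain ⟨v1, v2, -⟩ := C1b_vertex hN A P C D _ i j (D.act_mem _ _ hy') hij (h3 i (by simp))
    (h3 j (by simp))
  have he' := A.root_rho u⁻¹ _ he
  rw [← C1b_act_back (N := N) u y] at h
  rw [← C1b_act_back (N := N) u y']
  have hp : Pos (rho N u⁻¹ e) := by
    refine (A.root_pos _ he').resolve_right fun h4 => ?_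
    have := C1b_cham hc h4
    rw [map_neg] at this
    linarith
  refine lt_of_le_of_ne (C1b_cham v1 hp) fun h4 => h.ne' ?_
  have h5 := D.vanish _ _ v1 he' h4.symm
  rw [v2, ← hz] at h5
  exact C1b_kill (fun _ ht => ht) h5

theorem C1b_side (D : C1a N) (a b : B → ℝ) (ha : IsRoot N a) (hb : IsRoot N b) (h1 : b ≠ a)
    (h2 : b ≠ -a) (hc : ¬ Cross N a b) :
    (∀ y, InI N y → y a = 0 → 0 < y b) ∨ ∀ y, InI N y → y a = 0 → y b < 0 := by
  by_contra h
  push Not at h
  obtain ⟨⟨y₁, i1, a1, b1⟩, y₂, i2, a2, b2⟩ := h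
  obtain ⟨s, t, -, -, -, hz, h3⟩ := D.zero y₂ y₁ b i2 i1 b2 b1
  exact hc ⟨ha, hb, h1, h2, _, hz, by simp [a1, a2], by simpa using h3⟩

theorem C1b_fix2 (hN : NoSph N) (A : C0a N) (P : C0b N) (C : C0c N) (D : C1a N)
    (a b : B → ℝ) (g : N.Group) (hc : Cross N a b) (ga : rho N g a = a) (gb : rho N g b = b) :
    g = 1 := by
  obtain ⟨ha, hb, h1, h2, y, hy, ya, yb⟩ := hc
  obtain ⟨u, i, j, hij, hc, hz, hk⟩ := C1b_norm hN A P C D y a b hy ha hb h1 h2 ya yb
  have h3 : ∀ k ∈ ({i, j} : Set B), rho N (u⁻¹ * g * u) (al k) = al k := by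
    intro k hk'
    obtain ⟨s, t, h4⟩ := hk k hk'
    rw [rho_mul, rho_mul, h4, map_add, map_smul, map_smul, ga, gb, ← h4, rho_inv]
  have h4 : ∀ k ∈ ({i, j} : Set B), act N (u⁻¹ * g * u) (act N u⁻¹ y) (al k) = 0 := by
    intro k hk'
    have := act_rho N (u⁻¹ * g * u) (act N u⁻¹ y) (al k)
    rw [h3 k hk'] at this
    rw [← hz] at hk'
    rw [this]
    exact hk'
  obtain ⟨v1, -, -⟩ := C1b_vertex hN A P C D _ i j (D.act_mem _ _ (D.act_mem _ _ hy)) hij
    (h4 i (by simp)) (h4 j (by simp))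
  have h5 := (D.uniq _ _ hc v1).2
  rw [hz] at h5
  have h6 := P.faithT _ _ h5 fun k hk' => by
    rw [h3 k hk']
    exact pos_al k
  calc g = u * (u⁻¹ * g * u) * u⁻¹ := by group
    _ = 1 := by rw [h6]; group

theorem C1b_vx (hN : NoSph N) (A : C0a N) (P : C0b N) (C : C0c N) (D : C1a N) (T : Set B)
    (a b : B → ℝ) (h : N.Group) (hc : Cross N a b) (sa : Supp T a) (sb : Supp T b)
    (sa' : Supp T (rho N h a)) (sb' : Supp T (rho N h b)) : h ∈ par N T := by
  obtain ⟨ha, hb, h1, h2, y, hy, ya, yb⟩ := hc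
  obtain ⟨u, hu, i, hi, j, hj, -, -, c1, z1⟩ := C1b_vx0 hN A P C D T y a b hy ha hb h1 h2 sa sb
    ya yb
  obtain ⟨u', hu', -, -, -, -, -, -, c2, -⟩ := C1b_vx0 hN A P C D T (act N h y) _ _
    (D.act_mem _ _ hy) (A.root_rho h _ ha) (A.root_rho h _ hb) (C1b_ne _ h1) (C1b_ne' _ h2)
    sa' sb' (by rw [act_rho, ya]) (by rw [act_rho, yb])
  have e : act N u'⁻¹ (act N h y) = act N (u'⁻¹ * h * u) (act N u⁻¹ y) := by
    rw [← act_mul, ← act_mul, mul_inv_cancel_right]
  rw [e] at c2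
  have h3 := (D.uniq _ _ c1 c2).2
  rw [z1] at h3
  have h4 : u'⁻¹ * h * u ∈ par N T := gp_mono (sr N) (by rintro t (rfl | rfl) <;> assumption) h3
  rwa [(par N T).mul_mem_cancel_right hu, (par N T).mul_mem_cancel_left ((par N T).inv_mem hu')]
    at h4

theorem C1b_vtype (hN : NoSph N) (A : C0a N) (P : C0b N) (C : C0c N) (D : C1a N) (U : Set B)
    (d : N.Group) (i j : B) (hij : i ≠ j) (hm : N i j ≠ 0) (si : Supp U (rho N d (al i)))
    (sj : Supp U (rho N d (al j))) : i ∈ U ∧ j ∈ U ∧ d ∈ par N U := by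
  obtain ⟨y, hy, hc, hz⟩ := D.face {i, j} (C.fin i j hm)
  have h0 : ∀ t ∈ ({i, j} : Set B), y (al t) = 0 := fun t ht => by
    rw [← hz] at ht
    exact ht
  obtain ⟨u, hu, i', hi', j', hj', -, -, c2, z2⟩ := C1b_vx0 hN A P C D U (act N d y) _ _
    (D.act_mem _ _ hy) (A.root_rho d _ (A.root_al i).1) (A.root_rho d _ (A.root_al j).1)
    (C1b_ne _ (C1b_al_ne hij)) (C1b_ne' _ (C1b_al_ne' hij)) si sj
    (by rw [act_rho, h0 i (by simp)]) (by rw [act_rho, h0 j (by simp)])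
  rw [← act_mul] at c2 z2
  obtain ⟨h3, h4⟩ := D.uniq _ _ hc c2
  rw [h3] at z2
  have h5 : Zs y ⊆ U := by
    rw [z2]
    rintro t (rfl | rfl) <;> assumption
  have h6 : u⁻¹ * d ∈ par N U := gp_mono (sr N) h5 h4
  rw [hz] at h5
  exact ⟨h5 (by simp), h5 (by simp),
    ((par N U).mul_mem_cancel_left ((par N U).inv_mem hu)).1 h6⟩

theorem C1b_swap (hN : NoSph N) (A : C0a N) (P : C0b N) (C : C0c N) (D : C1a N) (Q L : Set B)
    (g : N.Group) (a b : B → ℝ) (h2 : ∀ p ∈ Q, ∀ l ∈ L, N p l = 2) (ha : IsRoot N a)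
    (hb : IsRoot N b) (sa : Supp Q a) (sb : Supp L b) (sa' : Supp L (rho N g a))
    (sb' : Supp Q (rho N g b)) : False := by
  have h2' : ∀ l ∈ L, ∀ p ∈ Q, N l p = 2 := fun l hl p hp => by rw [N.symmetric, h2 p hp l hl]
  have hne : ∀ p ∈ Q, ∀ l ∈ L, p ≠ l := by
    rintro p hp l hl rfl
    have := h2 p hp p hl
    rw [N.diagonal] at this
    omega
  obtain ⟨u, hu, p, hp, ea⟩ := P.supp_root Q a ha sa
  obtain ⟨v, hv, l, hl, eb⟩ := P.supp_root L b hb sb
  obtain ⟨v', hv', l', hl', ea'⟩ := P.supp_root L _ (A.root_rho g _ ha) sa'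
  obtain ⟨u', hu', p', hp', eb'⟩ := P.supp_root Q _ (A.root_rho g _ hb) sb'
  have f1 : rho N ((u' * v')⁻¹ * g * (u * v)) (al p) = al l' := by
    rw [rho_mul, rho_mul, rho_mul N u v, (P.perp_fix L Q h2' v hv).1 _ (C1b_supp_al hp), ← ea,
      ← (P.perp_fix Q L h2 u' hu').1 _ sa', ea', ← rho_mul N u' v', rho_inv]
  have f2 : rho N ((u' * v')⁻¹ * g * (u * v)) (al l) = al p' := by
    rw [rho_mul, rho_mul, rho_mul N u v, ← eb, (P.perp_fix Q L h2 u hu).1 _ sb, eb',
      ← (P.perp_fix L Q h2' v' hv').1 _ (C1b_supp_al hp'), ← rho_mul N u' v', rho_inv,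
      (P.perp_fix L Q h2' v' hv').1 _ (C1b_supp_al hp')]
  generalize (u' * v')⁻¹ * g * (u * v) = f at f1 f2
  obtain ⟨k1, -, k3⟩ := C1b_vtype hN A P C D {p', l'} f p l (hne p hp l hl)
    (by rw [h2 p hp l hl]; omega) (by rw [f1]; exact C1b_supp_al (by simp))
    (by rw [f2]; exact C1b_supp_al (by simp))
  obtain rfl : p = p' := k1.resolve_right (hne p hp l' hl')
  have hcom : Commute f (sr N p) := by
    have : par N {p, l'} ≤ Subgroup.centralizer {sr N p} := by
      refine gp_le.2 ?_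
      rintro t (rfl | rfl)
      · exact Subgroup.mem_centralizer_singleton_iff.2 rfl
      · exact Subgroup.mem_centralizer_singleton_iff.2
          ((P.perp_fix L Q h2' _ (gp_mem _ hl')).2 _ (gp_mem _ hp))
    exact Subgroup.mem_centralizer_singleton_iff.1 (this k3)
  rcases (A.refl_comm f _ _ (A.root_al p).2).1 hcom with h | h
  · exact C1b_al_ne (hne p hp l' hl') (f1.symm.trans h)
  · exact C1b_al_ne' (hne p hp l' hl') (f1.symm.trans h)

end

theorem C1b_thm (_h0 : St_CH) (h1 : St_C0a) (h2 : St_C0b) (h3 : St_C0c) (h4 : St_C1a) : St_C1b := by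
  intro B _ _ N hN
  have A := h1 B N
  have P := h2 B N
  have C := h3 B N
  have D := h4 B N
  exact
    { sph := C1b_sph hN A P C
      nullv := C1b_nullv hN
      fin_par := C1b_fin_par hN A P C
      vertex := C1b_vertex hN A P C D
      vx0 := C1b_vx0 hN A P C D
      rank2 := C1b_rank2 hN A P C D
      face_eq := C1b_face_eq hN A P C D
      side := C1b_side D
      fix2 := C1b_fix2 hN A P C D
      vx := C1b_vx hN A P C D
      vtype := C1b_vtype hN A P C D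
      swap := C1b_swap hN A P C D }

end Pool.Agent.Lib.MP_1b8ce0_al.T
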