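import Mathlib
import Pool.Agent.Lib.MP_1b8ce0_al.T.StsA

set_option linter.unusedSectionVars false
set_option linter.dupNamespace false

namespace Pool.Agent.Lib.MP_1b8ce0_al.T

open Pool.Agent.Lib.MP_6d85b4_al Filter

theorem C1c_seq (v : ℕ → ℝ) (t : ℝ) (ht : t < 2) (hrec : ∀ n, v (n + 2) = t * v (n + 1) - v n)
    (hpos : ∀ n, 0 < v n) : False := by
  have hd : ∀ n, v (n + 2) - v (n + 1) = v (n + 1) - v n - (2 - t) * v (n + 1) := fun n => by
    rw [hrec]; ring
  have h1 : ∀ m, 0 ≤ v (m + 1) - v m := by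
    intro m
    by_contra hneg
    push Not at hneg
    have key : ∀ k : ℕ, v (m + k + 1) - v (m + k) ≤ v (m + 1) - v m ∧
        v (m + k) ≤ v m + k * (v (m + 1) - v m) := by
      intro k
      induction k with
      | zero => simp
      | succ k ih =>
        have a1 := hd (m + k)
        have a2 := mul_pos (sub_pos.2 ht) (hpos (m + k + 1))
        have e1 : m + (k + 1) + 1 = m + k + 2 := by ring
        have e2 : m + (k + 1) = m + k + 1 := by ring
        rw [e1, e2]
        push_cast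
        constructor <;> nlinarith [ih.1, ih.2]
    obtain ⟨k, hk⟩ := exists_nat_gt (v m / (v m - v (m + 1)))
    rw [div_lt_iff₀ (by linarith)] at hk
    have := (key k).2
    have := hpos (m + k)
    nlinarith
  have h2 : ∀ n, v 0 ≤ v n := by
    intro n
    induction n with
    | zero => exact le_rfl
    | succ n ih => linarith [h1 n]
  have h3 : ∀ n : ℕ, v (n + 1) - v n ≤ v 1 - v 0 - n * ((2 - t) * v 0) := by
    intro n
    induction n with
    | zero => simp
    | succ n ih =>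
      have a1 := hd n
      have a2 := mul_le_mul_of_nonneg_left (h2 (n + 1)) (sub_pos.2 ht).le
      have e1 : n + 1 + 1 = n + 2 := by ring
      rw [e1]
      push_cast
      nlinarith
  have hp := mul_pos (sub_pos.2 ht) (hpos 0)
  obtain ⟨k, hk⟩ := exists_nat_gt ((v 1 - v 0) / ((2 - t) * v 0))
  rw [div_lt_iff₀ hp] at hk
  linarith [h1 k, h3 k]

theorem C1c_seq' (v : ℕ → ℝ) (t : ℝ) (ht : t < 2) (hrec : ∀ n, v (n + 2) = t * v (n + 1) - v n)
    (hpos : (∀ᶠ n in atTop, 0 < v n) ∨ ∀ᶠ n in atTop, v n < 0) : False := by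
  rcases hpos with h | h
  · obtain ⟨m, hm⟩ := eventually_atTop.1 h
    exact C1c_seq (fun n => v (m + n)) t ht (fun n => hrec (m + n)) fun n => hm _ (by omega)
  · obtain ⟨m, hm⟩ := eventually_atTop.1 h
    refine C1c_seq (fun n => -v (m + n)) t ht (fun n => ?_) fun n => neg_pos.2 (hm _ (by omega))
    have := hrec (m + n)
    show -v (m + n + 2) = t * -v (m + n + 1) - -v (m + n)
    rw [this]
    ring

section

variable {B : Type} [Fintype B] [DecidableEq B] {N : CoxeterMatrix B}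

theorem C1c_sub_right (a b e : B → ℝ) : Bf N a (b - e) = Bf N a b - Bf N a e := by
  rw [sub_eq_add_neg, Bf_add_right, Bf_neg_right, sub_eq_add_neg]

theorem C1c_sub_left (a b e : B → ℝ) : Bf N (a - b) e = Bf N a e - Bf N b e := by
  rw [Bf_symm, C1c_sub_right, Bf_symm N e, Bf_symm N e]

/-- elements moving every vector by an element of `U` -/
def C1c_K (N : CoxeterMatrix B) (U : Submodule ℝ (B → ℝ)) : Subgroup N.Group where
  carrier := {h | ∀ v, rho N h v - v ∈ U}
  one_mem' := fun v => by simp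
  mul_mem' := fun {h k} hh hk v => by
    have := U.add_mem (hh (rho N k v)) (hk v)
    rw [rho_mul]
    simpa using this
  inv_mem' := fun {h} hh v => by
    have := U.neg_mem (hh (rho N h⁻¹ v))
    rw [rho_inv'] at this
    simpa using this

theorem C1c_refl_mem (h0 : C0a N) {U : Submodule ℝ (B → ℝ)} {r : N.Group} {a : B → ℝ}
    (hr : ReflOf N r a) (ha : a ∈ U) : r ∈ C1c_K N U := by
  intro v
  rw [h0.refl_eq r a hr v]
  simpa using U.smul_mem _ ha

theorem C1c_one (h0 : C0a N) {S : Set (B → ℝ)} {h : N.Group}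
    (hK : h ∈ C1c_K N (Submodule.span ℝ S)) (hf : ∀ a ∈ S, rho N h a = a)
    (hnd : ∀ u ∈ Submodule.span ℝ S, (∀ a ∈ S, Bf N a u = 0) → u = 0) : h = 1 := by
  refine h0.faith h fun i => ?_
  have : rho N h (al i) - al i = 0 := by
    refine hnd _ (hK _) fun a ha => ?_
    have e := Bf_rho N h a (al i)
    rw [hf a ha] at e
    rw [C1c_sub_right, e, sub_self]
  rw [sub_eq_zero.1 this]
  exact pos_al i

theorem C1c_nc (h0 : C0a N) (h4 : C1a N) (h6 : C1t N) (h7 : C2a N) (a b : B → ℝ)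
    (ha : IsRoot N a) (hb : IsRoot N b) (hc : ¬ Cross N a b) : 1 ≤ |Bf N a b| := by
  by_contra hlt
  push Not at hlt
  have na := h0.root_norm a ha
  have nb := h0.root_norm b hb
  have hba : b ≠ a := by
    rintro rfl
    rw [na] at hlt
    simp at hlt
  have hba' : b ≠ -a := by
    rintro rfl
    rw [Bf_neg_right, na] at hlt
    simp at hlt
  obtain ⟨r, hr⟩ := h0.refl_ex a ha
  obtain ⟨r', hr'⟩ := h0.refl_ex b hb
  have hinf : ¬ IsOfFinOrder (r * r') := fun h => hc ((h6.cross_iff r r' a b hr hr' hba hba').2 h)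
  set p := Bf N a b with hp
  have hp2 : p ^ 2 < 1 := by
    have := abs_lt.1 hlt
    nlinarith [this.1, this.2]
  have hpb : Bf N b a = p := Bf_symm N b a
  set g := r * r' with hg
  have ga : rho N g a = (4 * p ^ 2 - 1) • a - (2 * p) • b := by
    rw [hg, rho_mul, h0.refl_eq r' b hr' a, map_sub, map_smul, h0.refl_eq r a hr a,
      h0.refl_eq r a hr b, na, hpb, ← hp]
    module
  have gb : rho N g b = (2 * p) • a - b := by
    rw [hg, rho_mul, h0.refl_eq r' b hr' b, map_sub, map_smul, h0.refl_eq r a hr b, nb, ← hp]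
    module
  have gg : rho N g (rho N g a) = (4 * p ^ 2 - 2) • rho N g a - a := by
    conv_lhs => rw [ga, map_sub, map_smul, map_smul, gb]
    rw [ga]
    module
  have hgK : g ∈ C1c_K N (Submodule.span ℝ {a, b}) :=
    Subgroup.mul_mem _ (C1c_refl_mem h0 hr (Submodule.subset_span (by simp)))
      (C1c_refl_mem h0 hr' (Submodule.subset_span (by simp)))
  have hone : ∀ k : ℕ, 0 < k → rho N (g ^ k) a = a → rho N (g ^ k) b = b → False := by
    intro k hk e1 e2
    refine hinf (isOfFinOrder_iff_pow_eq_one.2 ⟨k, hk, ?_⟩)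
    refine C1c_one h0 (Subgroup.pow_mem _ hgK k) ?_ ?_
    · rintro x (rfl | rfl)
      · exact e1
      · exact e2
    · intro u hu hz
      obtain ⟨s, t, rfl⟩ := Submodule.mem_span_pair.1 hu
      have z1 := hz a (by simp)
      have z2 := hz b (by simp)
      rw [Bf_add_right, Bf_smul_right, Bf_smul_right] at z1 z2
      rw [na, ← hp] at z1
      rw [nb, hpb] at z2
      have hs : s * (1 - p ^ 2) = 0 := by linear_combination z1 - p * z2
      have ht : t * (1 - p ^ 2) = 0 := by linear_combination z2 - p * z1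
      have hs0 : s = 0 := (mul_eq_zero.1 hs).resolve_right (by linarith)
      have ht0 : t = 0 := (mul_eq_zero.1 ht).resolve_right (by linarith)
      rw [hs0, ht0]
      simp
  have hnp : ¬ Per N g a := by
    rintro ⟨k, hk, e⟩
    by_cases hp0 : p = 0
    · refine hone 2 two_pos ?_ ?_
      · rw [pow_two, rho_mul, gg, ga, hp0]
        module
      · rw [pow_two, rho_mul, gb, map_sub, map_smul, gb, hp0]
        module
    · refine hone k hk e ?_
      have c1 : rho N (g ^ k) (rho N g a) = rho N g a := by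
        rw [← rho_mul, ← pow_succ, pow_succ', rho_mul, e]
      rw [ga, map_sub, map_smul, map_smul, e] at c1
      have c2 : (2 * p) • rho N (g ^ k) b = (2 * p) • b := sub_right_injective c1
      exact smul_right_injective _ (mul_ne_zero two_ne_zero hp0) c2
  refine C1c_seq' (fun n => pt0 B (rho N (g ^ n) a)) (4 * p ^ 2 - 2) (by linarith) (fun n => ?_) ?_
  · have e1 : g ^ (n + 2) = g ^ n * g * g := by rw [pow_succ, pow_succ]
    show pt0 B (rho N (g ^ (n + 2)) a) =
      (4 * p ^ 2 - 2) * pt0 B (rho N (g ^ (n + 1)) a) - pt0 B (rho N (g ^ n) a)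
    rw [e1, rho_mul N (g ^ n * g) g, rho_mul N (g ^ n) g, gg, map_sub, map_smul, map_sub, map_smul,
      pow_succ g n, rho_mul N (g ^ n) g, smul_eq_mul]
  · rcases h7.tri g a ha with h | h | h | h | h
    · exact absurd h hnp
    · exact Or.inr ((h.2 _ h4.pt0.1).mono fun n hn => hn.2)
    · refine Or.inl ((h.2 _ h4.pt0.1).mono fun n hn => ?_)
      have := hn.2
      rw [map_neg, map_neg] at this
      exact neg_neg_iff_pos.1 this
    · exact Or.inl ((h.2 _ h4.pt0.1).mono fun n hn => hn.2)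
    · refine Or.inr ((h.2 _ h4.pt0.1).mono fun n hn => ?_)
      have := hn.2
      rw [map_neg, map_neg] at this
      exact neg_pos.1 this

theorem C1c_nb (h0 : C0a N) (h4 : C1a N) (h6 : C1t N) (h7 : C2a N) (a b : B → ℝ)
    (ha : IsRoot N a) (hb : IsRoot N b) (hn : ¬ ∃ x, InI N x ∧ x a ≤ 0 ∧ x b ≤ 0) :
    Bf N a b ≤ -1 := by
  have hc : ¬ Cross N a b := by
    rintro ⟨-, -, -, -, x, hx, e1, e2⟩
    exact hn ⟨x, hx, e1.le, e2.le⟩
  have h1 := C1c_nc h0 h4 h6 h7 a b ha hb hc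
  by_contra hlt
  push Not at hlt
  have hge : 1 ≤ Bf N a b := by
    rcases le_abs.1 h1 with h | h
    · exact h
    · linarith
  obtain ⟨y, hy, ya⟩ := h4.wall a ha
  have yb : 0 < y b := by
    by_contra h
    exact hn ⟨y, hy, ya.le, not_lt.1 h⟩
  obtain ⟨r, hr⟩ := h0.refl_ex b hb
  refine hn ⟨act N r⁻¹ y, h4.act_mem _ _ hy, ?_, ?_⟩
  · rw [act_apply, inv_inv, h0.refl_eq r b hr a, map_sub, map_smul, ya, Bf_symm N b a, smul_eq_mul]
    nlinarith
  · rw [act_apply, inv_inv, h0.refl_eq r b hr b, map_sub, map_smul, h0.root_norm b hb,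
      smul_eq_mul]
    linarith

theorem C1c_gram (h0 : C0a N) (h4 : C1a N) (h6 : C1t N) (h7 : C2a N) (r1 r2 r3 : N.Group)
    (a1 a2 a3 : B → ℝ) (e1 : ReflOf N r1 a1) (e2 : ReflOf N r2 a2) (e3 : ReflOf N r3 a3)
    (h13 : Bf N a1 a3 = 0) (hlt : Bf N a1 a2 ^ 2 + Bf N a2 a3 ^ 2 < 1) :
    Finite (Subgroup.closure {r1, r2, r3}) := by
  have i1 := h0.refl_isRoot _ _ e1
  have i2 := h0.refl_isRoot _ _ e2
  have i3 := h0.refl_isRoot _ _ e3
  have n1 := h0.root_norm _ i1
  have n2 := h0.root_norm _ i2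
  have n3 := h0.root_norm _ i3
  set p := Bf N a1 a2 with hp
  set q := Bf N a2 a3 with hq
  have h21 : Bf N a2 a1 = p := Bf_symm N _ _
  have h32 : Bf N a3 a2 = q := Bf_symm N _ _
  have h31 : Bf N a3 a1 = 0 := by rw [Bf_symm, h13]
  set S : Set (B → ℝ) := {a1, a2, a3} with hS
  have hroot : ∀ a ∈ S, IsRoot N a := by
    rintro a (rfl | rfl | rfl)
    · exact i1
    · exact i2
    · exact i3
  have hpsd : ∀ u ∈ Submodule.span ℝ S, 0 ≤ Bf N u u := by
    intro u hu
    obtain ⟨x, y, z, rfl⟩ := Submodule.mem_span_triple.1 hu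
    simp only [Bf_add_left, Bf_add_right, Bf_smul_left, Bf_smul_right, n1, n2, n3, h13, h31, h21,
      h32, ← hp, ← hq]
    nlinarith [sq_nonneg (x + p * y), sq_nonneg (z + q * y),
      mul_nonneg (sub_pos.2 hlt).le (sq_nonneg y)]
  have hnd : ∀ u ∈ Submodule.span ℝ S, (∀ a ∈ S, Bf N a u = 0) → u = 0 := by
    intro u hu hz
    obtain ⟨x, y, z, rfl⟩ := Submodule.mem_span_triple.1 hu
    have z1 := hz a1 (by simp [hS])
    have z2 := hz a2 (by simp [hS])
    have z3 := hz a3 (by simp [hS])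
    simp only [Bf_add_right, Bf_smul_right, n1, n2, n3, h13, h31, h21, h32, ← hp, ← hq] at z1 z2 z3
    have hy : y * (1 - (p ^ 2 + q ^ 2)) = 0 := by linear_combination z2 - p * z1 - q * z3
    have hy0 : y = 0 := (mul_eq_zero.1 hy).resolve_right (by linarith)
    have hx0 : x = 0 := by rw [hy0] at z1; linarith
    have hz0 : z = 0 := by rw [hy0] at z3; linarith
    rw [hx0, hy0, hz0]
    simp
  have hle : Subgroup.closure {r1, r2, r3} ≤ C1c_K N (Submodule.span ℝ S) := by
    rw [Subgroup.closure_le]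
    rintro r (rfl | rfl | rfl)
    · exact C1c_refl_mem h0 e1 (Submodule.subset_span (by simp [hS]))
    · exact C1c_refl_mem h0 e2 (Submodule.subset_span (by simp [hS]))
    · exact C1c_refl_mem h0 e3 (Submodule.subset_span (by simp [hS]))
  have hin : ∀ h ∈ Subgroup.closure {r1, r2, r3}, ∀ a ∈ S,
      rho N h a ∈ Submodule.span ℝ S := by
    intro h hh a ha
    have := Submodule.add_mem _ (hle hh a) (Submodule.subset_span ha)
    simpa using this
  set Vals : Set ℝ := {t | ∃ a b, Cross N a b ∧ t = Bf N a b} ∪ {1, -1} with hV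
  have hVf : Vals.Finite := h6.cross_vals.union (Set.toFinite _)
  have hval : ∀ a ∈ S, ∀ e ∈ Submodule.span ℝ S, IsRoot N e → Bf N a e ∈ Vals := by
    intro a ha e he hr
    by_cases hc : Cross N a e
    · exact Or.inl ⟨a, e, hc, rfl⟩
    · have b1 := C1c_nc h0 h4 h6 h7 a e (hroot a ha) hr hc
      have b2 := hpsd _ (Submodule.sub_mem _ (Submodule.subset_span ha) he)
      have b3 := hpsd _ (Submodule.add_mem _ (Submodule.subset_span ha) he)
      simp only [C1c_sub_left, C1c_sub_right, Bf_add_left, Bf_add_right,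
        h0.root_norm a (hroot a ha), h0.root_norm e hr, Bf_symm N e a] at b2 b3
      refine Or.inr ?_
      rcases le_abs.1 b1 with h | h
      · exact Or.inl (by linarith)
      · exact Or.inr (by rw [Set.mem_singleton_iff]; linarith)
  have : Finite Vals := hVf
  have : Finite S := Set.toFinite _
  let f : Subgroup.closure {r1, r2, r3} → S → S → Vals := fun h a b =>
    ⟨Bf N a (rho N h b), hval a a.2 _ (hin h h.2 b b.2) (h0.root_rho _ _ (hroot b b.2))⟩
  refine Finite.of_injective f fun h k e => ?_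
  have hb : ∀ b ∈ S, rho N h b = rho N k b := by
    intro b hb
    refine sub_eq_zero.1 (hnd _ (Submodule.sub_mem _ (hin h h.2 b hb) (hin k k.2 b hb)) ?_)
    intro a ha
    have := congrArg Subtype.val (congrFun (congrFun e ⟨a, ha⟩) ⟨b, hb⟩)
    rw [C1c_sub_right]
    exact sub_eq_zero.2 this
  have : (k : N.Group)⁻¹ * h = 1 := by
    refine C1c_one h0 (hle (Subgroup.mul_mem _ (Subgroup.inv_mem _ k.2) h.2)) (fun a ha => ?_) hnd
    rw [rho_mul, hb a ha, rho_inv]
  exact Subtype.ext (inv_mul_eq_one.1 this).symm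

theorem C1c_roots_fin (h0 : C0a N) {O : Set N.Group} (hO : O.Finite) :
    {e | ∃ s ∈ O, ReflOf N s e}.Finite := by
  have : {e | ∃ s ∈ O, ReflOf N s e} = ⋃ s ∈ O, {e | ReflOf N s e} := by
    ext e
    simp
  rw [this]
  refine hO.biUnion fun s _ => ?_
  rcases Set.eq_empty_or_nonempty {e | ReflOf N s e} with h | ⟨a, ha⟩
  · rw [h]
    exact Set.finite_empty
  · exact (Set.toFinite {a, -a}).subset fun e he => h0.refl_root s a e ha he

theorem C1c_fixc1 (h0 : C0a N) (h5 : C1b N) (H : Subgroup N.Group) (O : Set N.Group)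
    (hH : ¬ Finite H) (hO : O.Finite) (hc : ∀ h ∈ H, ∀ r ∈ O, h * r * h⁻¹ ∈ O) (r : N.Group)
    (hr : r ∈ O) (r' : N.Group) (hr' : r' ∈ O) (a b : B → ℝ) (ea : ReflOf N r a)
    (eb : ReflOf N r' b) : ¬ Cross N a b := by
  intro hx
  have : Finite {e | ∃ s ∈ O, ReflOf N s e} := C1c_roots_fin h0 hO
  let f : H → {e | ∃ s ∈ O, ReflOf N s e} × {e | ∃ s ∈ O, ReflOf N s e} := fun h =>
    (⟨rho N h a, _, hc h h.2 r hr, h0.refl_conj _ _ _ ea⟩,
      ⟨rho N h b, _, hc h h.2 r' hr', h0.refl_conj _ _ _ eb⟩)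
  refine hH (Finite.of_injective f fun h k e => ?_)
  have e1 : rho N h a = rho N k a := congrArg (fun z => z.1.1) e
  have e2 : rho N h b = rho N k b := congrArg (fun z => z.2.1) e
  have : (k : N.Group)⁻¹ * h = 1 := by
    refine h5.fix2 a b _ hx ?_ ?_
    · rw [rho_mul, e1, rho_inv]
    · rw [rho_mul, e2, rho_inv]
  exact Subtype.ext (inv_mul_eq_one.1 this).symm

/-- the action on an invariant set of vectors -/
noncomputable def C1c_perm (H : Subgroup N.Group) (F : Set (B → ℝ))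
    (hF : ∀ k ∈ H, ∀ e ∈ F, rho N k e ∈ F) : H →* Equiv.Perm F where
  toFun k :=
    { toFun := fun e => ⟨rho N k e, hF k k.2 e e.2⟩
      invFun := fun e => ⟨rho N (k : N.Group)⁻¹ e, hF _ (H.inv_mem k.2) e e.2⟩
      left_inv := fun _ => Subtype.ext (rho_inv N _ _)
      right_inv := fun _ => Subtype.ext (rho_inv' N _ _) }
  map_one' := Equiv.ext fun _ => Subtype.ext (rho_one N _)
  map_mul' := fun _ _ => Equiv.ext fun _ => Subtype.ext (rho_mul N _ _ _)

theorem C1c_mean (h4 : C1a N) (H : Subgroup N.Group) (F : Set (B → ℝ)) (hf : F.Finite)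
    (hF : ∀ k ∈ H, ∀ e ∈ F, rho N k e ∈ F) :
    ∃ x, InI N x ∧ ∀ g ∈ H, ∀ e ∈ F, x (rho N g e) = x e := by
  classical
  have : Finite F := hf
  let ψ := C1c_perm H F hF
  have : Fintype ψ.range := Fintype.ofFinite _
  have hex : ∀ q : ψ.range, ∃ k : H, ψ k = q := fun q => q.2
  choose k hk using hex
  have hval : ∀ e : F, (∑ q : ψ.range, act N (k q : N.Group)⁻¹ (pt0 B)) e =
      ∑ q : ψ.range, pt0 B ((q : Equiv.Perm F) e) := by
    intro e
    rw [LinearMap.sum_apply]
    refine Finset.sum_congr rfl fun q _ => ?_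
    rw [act_apply, inv_inv, ← hk q]
    rfl
  refine ⟨∑ q : ψ.range, act N (k q : N.Group)⁻¹ (pt0 B), ?_, fun g hg e he => ?_⟩
  · exact Finset.sum_induction_nonempty _ (InI N) h4.add Finset.univ_nonempty
      fun q _ => h4.act_mem _ _ h4.pt0.1
  · have e1 := hval ⟨rho N g e, hF g hg e he⟩
    have e2 := hval ⟨e, he⟩
    simp only at e1 e2
    rw [e1, e2]
    exact Fintype.sum_equiv (Equiv.mulRight (⟨ψ ⟨g, hg⟩, ⟨g, hg⟩, rfl⟩ : ψ.range)) _ _
      fun q => rfl

theorem C1c_fixc2 (h0 : C0a N) (h4 : C1a N) (h5 : C1b N) (H : Subgroup N.Group)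
    (O : Set N.Group) (hH : ¬ Finite H) (hO : O.Finite)
    (hc : ∀ h ∈ H, ∀ r ∈ O, h * r * h⁻¹ ∈ O) (r : N.Group) (hr : r ∈ O) (a : B → ℝ)
    (ea : ReflOf N r a) (η : N.Group) (hη : η ∈ H) (eη : rho N η a = -a) (h : N.Group)
    (hh : h ∈ H) : Commute h r := by
  rw [h0.refl_comm h r a ea]
  by_contra hne
  push Not at hne
  obtain ⟨x, hx, hinv⟩ := C1c_mean h4 H _ (C1c_roots_fin h0 hO) (by
    rintro k hk e ⟨s, hs, es⟩
    exact ⟨_, hc k hk s hs, h0.refl_conj _ _ _ es⟩)
  have xa : x a = 0 := by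
    have := hinv η hη a ⟨r, hr, ea⟩
    rw [eη, map_neg] at this
    linarith
  have ia := h0.refl_isRoot _ _ ea
  refine C1c_fixc1 h0 h5 H O hH hO hc r hr _ (hc h hh r hr) a _ ea (h0.refl_conj _ _ _ ea)
    ⟨ia, h0.root_rho _ _ ia, hne.1, hne.2, x, hx, xa, ?_⟩
  rw [hinv h hh a ⟨r, hr, ea⟩, xa]

end

theorem C1c_thm (h1 : St_C0a) (_h2 : St_C0b) (h4 : St_C1a) (h5 : St_C1b) (h6 : St_C1t)
    (h7 : St_C2a) : St_C1c := by
  intro B _ _ N ns
  exact ⟨C1c_nc (h1 B N) (h4 B N) (h6 B N ns) (h7 B N),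
    C1c_nb (h1 B N) (h4 B N) (h6 B N ns) (h7 B N),
    C1c_gram (h1 B N) (h4 B N) (h6 B N ns) (h7 B N),
    C1c_fixc1 (h1 B N) (h5 B N ns), C1c_fixc2 (h1 B N) (h4 B N) (h5 B N ns)⟩

end Pool.Agent.Lib.MP_1b8ce0_al.T
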