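import Mathlib
import Pool.Agent.Lib.MP_1b8ce0_al.T.StsA

set_option linter.unusedSectionVars false
set_option linter.dupNamespace false

namespace Pool.Agent.Lib.MP_1b8ce0_al.T

open Pool.Agent.Lib.MP_6d85b4_al

variable {B : Type} [Fintype B] [DecidableEq B] {N : CoxeterMatrix B}

theorem C1d_coord (w : N.Group) (v : B → ℝ) (k : B) :
    rho N w v k = ∑ i, v i * rho N w (al i) k := by
  have h : v = ∑ i, v i • al i := by
    funext j
    simp [al, Finset.sum_apply, Pi.single_apply]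
  conv_lhs => rw [h, map_sum]
  simp [Finset.sum_apply]

/-- the roots over `T` which involve the extra vertex `s` -/
def C1d_set (N : CoxeterMatrix B) (T : Set B) (s : B) : Set (B → ℝ) :=
  {g | IsRoot N g ∧ Supp (insert s T) g ∧ 0 < g s}

theorem C1d_fin (h1 : C0a N) {T : Set B} {d : N.Group} {s : B} (hs : s ∉ T)
    (hT : ∀ t ∈ T, ∃ j, rho N d (al t) = al j) (hd : Pos (-rho N d (al s))) :
    (C1d_set N T s).Finite := by
  obtain ⟨k, hk, hk'⟩ : ∃ k, rho N d (al s) k ≠ 0 ∧ ∀ t ∈ T, rho N d (al t) ≠ al k := by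
    by_contra h
    push Not at h
    have := C1d_coord d⁻¹ (rho N d (al s)) s
    rw [rho_inv, al_self, Finset.sum_eq_zero] at this
    · exact one_ne_zero this
    · intro k _
      by_cases hk : rho N d (al s) k = 0
      · rw [hk, zero_mul]
      · obtain ⟨t, ht, e⟩ := h k hk
        rw [← e, rho_inv, al_ne fun e' : s = t => hs (e' ▸ ht), mul_zero]
  have hk2 : rho N d (al s) k < 0 := lt_of_le_of_ne (by simpa using hd k) hk
  refine (h1.inv_fin d⁻¹).subset fun g ⟨g1, g2, g3⟩ => ⟨g1, ?_, ?_⟩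
  · refine (h1.root_pos g g1).resolve_right fun h => ?_
    have := h s
    rw [Pi.neg_apply] at this
    linarith
  · rw [inv_inv]
    refine (h1.root_pos _ (h1.root_rho d g g1)).resolve_left fun h => ?_
    have := h k
    rw [C1d_coord, Finset.sum_eq_single s] at this
    · exact absurd (mul_neg_of_pos_of_neg g3 hk2) (not_lt.2 this)
    · intro i _ hi
      by_cases h' : i ∈ T
      · obtain ⟨j, e⟩ := hT i h'
        rw [e, al_ne fun e' : k = j => hk' i h' (e' ▸ e), mul_zero]
      · rw [g2 i (by simp [hi, h']), zero_mul]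
    · simp

theorem C1d_step (h1 : C0a N) {T : Set B}
    (H : ∀ s, s ∉ T → (C1d_set N T s).Finite → ∀ t ∈ T, N s t = 2) (d : N.Group)
    (hT : ∀ t ∈ T, ∃ j, rho N d (al t) = al j) : d ∈ par N (perp N T) := by
  induction hn : N.toCoxeterSystem.length d using Nat.strong_induction_on generalizing d with
  | _ n ih =>
  by_cases hd : ∀ i, Pos (rho N d (al i))
  · rw [h1.faith d hd]
    exact one_mem _
  push Not at hd
  obtain ⟨s, hs⟩ := hd
  have hsT : s ∉ T := fun h => by
    obtain ⟨j, e⟩ := hT s h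
    exact hs (e ▸ pos_al j)
  have h2 := H s hsT (C1d_fin h1 hsT hT ((dichotomy N d s).resolve_left hs))
  have h3 : N.toCoxeterSystem.IsRightDescent d s := by
    by_contra h
    exact hs (pos_of_not_descent N d s h)
  have h4 := ih _ (hn ▸ h3) (d * sr N s) (fun t ht => by
    rw [rho_mul, rho_simple, rf_al, cc, h2 t ht]
    simpa using hT t ht) rfl
  have h5 : sr N s ∈ par N (perp N T) := gp_mem _ h2
  exact (Subgroup.mul_mem_cancel_right _ h5).1 h4

theorem C1d_cc {s t : B} (h : s ≠ t) : 0 ≤ cc N s t := by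
  have h1 := N.off_diagonal s t h
  have h2 := ch_nonneg (m := N s t) (k := 2) h1 (by omega)
  simpa [ch, MP_6d85b4_al.sq, cc] using h2

theorem C1d_two {s t t' : B} (h1 : s ≠ t) (h2 : s ≠ t') (h3 : t ≠ t') (h0 : N t t' = 0)
    {T : Set B} (ht : t ∈ T) (ht' : t' ∈ T) (hf : (C1d_set N T s).Finite) : N s t = 2 := by
  have c0 : cc N t t' = 2 := by simp [cc, h0]
  have key : ∀ n : ℕ, ∃ x y : ℝ, x - y = n * (cc N s t + cc N s t') ∧
      rho N ((sr N t * sr N t') ^ n) (al s) = al s + x • al t + y • al t' := by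
    intro n
    induction n with
    | zero => exact ⟨0, 0, by simp, by simp⟩
    | succ n ih =>
      obtain ⟨x, y, e1, e2⟩ := ih
      refine ⟨cc N s t + 2 * (cc N s t' + 2 * x - y) - x, cc N s t' + 2 * x - y,
        by push_cast; linarith, ?_⟩
      rw [pow_succ', rho_mul, rho_mul, e2, rho_simple, rho_simple]
      simp only [map_add, map_smul, rf_al, cc_self, cc_symm N t s, cc_symm N t' s,
        cc_symm N t' t, c0]
      module
  choose x y e1 e2 using key
  by_contra hne
  have hp : 0 < cc N s t + cc N s t' :=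
    add_pos_of_pos_of_nonneg (lt_of_le_of_ne (C1d_cc h1) fun e => hne (eq_two_of_cc N e.symm))
      (C1d_cc h2)
  refine Set.infinite_of_injective_forall_mem
    (f := fun n : ℕ => rho N ((sr N t * sr N t') ^ n) (al s)) (s := C1d_set N T s)
    (fun m n h => ?_) (fun n => ⟨⟨_, _, rfl⟩, fun j hj => ?_, ?_⟩) hf
  · have a1 := congrFun h t
    have a2 := congrFun h t'
    simp only [e2, Pi.add_apply, Pi.smul_apply, smul_eq_mul, al_self, al_ne h3,
      al_ne h3.symm] at a1 a2
    have : (m : ℝ) * (cc N s t + cc N s t') = n * (cc N s t + cc N s t') := by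
      rw [← e1, ← e1]
      linarith
    exact_mod_cast mul_right_cancel₀ hp.ne' this
  · rw [Set.mem_insert_iff, not_or] at hj
    rw [e2]
    simp [al_ne hj.1, al_ne (fun e : j = t => hj.2 (e ▸ ht)),
      al_ne (fun e : j = t' => hj.2 (e ▸ ht'))]
  · rw [e2]
    simp [al_ne h1, al_ne h2]

theorem C1d_one {s t : B} (h1 : s ≠ t) (h0 : N s t = 0) : (C1d_set N {t} s).Infinite := by
  have c0 : cc N s t = 2 := by simp [cc, h0]
  have key : ∀ n : ℕ, rho N ((sr N s * sr N t) ^ n) (al s) =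
      (2 * n + 1 : ℝ) • al s + (2 * n : ℝ) • al t := by
    intro n
    induction n with
    | zero => simp
    | succ n ih =>
      rw [pow_succ', rho_mul, rho_mul, ih, rho_simple, rho_simple]
      simp only [map_add, map_smul, rf_al, cc_self, cc_symm N t s, c0]
      push_cast
      module
  refine Set.infinite_of_injective_forall_mem
    (f := fun n : ℕ => rho N ((sr N s * sr N t) ^ n) (al s)) (fun m n h => ?_)
    (fun n => ⟨⟨_, _, rfl⟩, fun j hj => ?_, ?_⟩)
  · simp only [key] at h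
    simpa [al_ne h1] using congrFun h s
  · rw [Set.mem_insert_iff, not_or] at hj
    rw [key]
    simp [al_ne hj.1, al_ne (show j ≠ t from hj.2)]
  · simp only [key, Pi.add_apply, Pi.smul_apply, smul_eq_mul, al_self, al_ne h1]
    positivity

theorem C1d_how (h1 : C0a N) (T : Set B) (d : N.Group) (hI : Indep N T) (h2 : Two T)
    (hT : ∀ t ∈ T, ∃ j, rho N d (al t) = al j) : d ∈ par N (perp N T) := by
  refine C1d_step h1 (fun s hs hf t ht => ?_) d hT
  obtain ⟨t', ht', h⟩ : ∃ t' ∈ T, t ≠ t' := by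
    obtain ⟨a, ha, b, hb, h⟩ := h2
    by_cases e : t = a
    exacts [⟨b, hb, e ▸ h⟩, ⟨a, ha, e⟩]
  exact C1d_two (fun e => hs (e ▸ ht)) (fun e => hs (e ▸ ht')) h (hI t ht t' ht' h) ht ht' hf

theorem C1d_thm (h1 : St_C0a) (h2 : St_C0b) (h3 : St_C0c) : St_C1d := by
  intro B _ _ N _
  have a0 := h1 B N
  have b0 := h2 B N
  refine ⟨C1d_how a0, fun i j d hi hd => ?_, fun T U c hI hT hc => ?_⟩
  · have := C1d_step a0 (T := {i}) (fun s hs hf t ht => ?_) d fun t ht => ⟨j, ht ▸ hd⟩
    · refine gp_mono _ (fun s hs => ?_) this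
      exact (N.symmetric i s).trans (hs i rfl)
    · obtain rfl : t = i := ht
      rw [N.symmetric]
      exact (hi s hs).resolve_left fun e => C1d_one hs ((N.symmetric s t).trans e) hf
  · obtain ⟨u, hu, d, v, hv, e, hJ⟩ := b0.kil c⁻¹ T U
    have e' : c = v⁻¹ * d⁻¹ * u⁻¹ := by rw [← inv_inv c, e]; group
    have k1 : ∀ t ∈ T, ∃ j ∈ U, rho N d⁻¹ (al t) = al j := fun t ht => by
      have m1 : sr N t ∈ par N T := gp_mem _ ht
      have m2 : c * (u * sr N t * u⁻¹) * c⁻¹ ∈ par N U :=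
        hc (conj_mem_cj.2 (mul_mem (mul_mem hu m1) (inv_mem hu)))
      have m3 : sr N t ∈ cj d (par N U) := by
        have := mul_mem (mul_mem hv m2) (inv_mem hv)
        rw [mem_cj]
        convert this using 1
        rw [e']
        group
      obtain ⟨-, j, hj, e1⟩ := (b0.sr_mem _ t).1 (hJ ▸ Subgroup.mem_inf.2 ⟨m1, m3⟩)
      exact ⟨j, hj, by rw [← e1, rho_inv]⟩
    have k2 := C1d_how a0 T d⁻¹ hI hT fun t ht => (k1 t ht).imp fun _ h => h.2
    obtain ⟨k3, k4⟩ := b0.perp_fix (perp N T) T (fun p hp => hp) d⁻¹ k2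
    have k5 : T ⊆ U := fun t ht => by
      obtain ⟨j, hj, e1⟩ := k1 t ht
      rw [k3 _ fun i hi => al_ne fun e2 : i = t => hi (e2 ▸ ht)] at e1
      exact al_inj e1 ▸ hj
    refine ⟨k5, v⁻¹ * u⁻¹, mul_mem (inv_mem hv) (gp_mono _ k5 (inv_mem hu)), d⁻¹, k2, ?_⟩
    rw [e', mul_assoc, (k4 _ (inv_mem hu)).eq, mul_assoc]

end Pool.Agent.Lib.MP_1b8ce0_al.T
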