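import Mathlib
import Pool.Agent.Lib.MP_1b8ce0_al.T.StsA

set_option linter.unusedSectionVars false
set_option linter.dupNamespace false

namespace Pool.Agent.Lib.MP_1b8ce0_al.T

open Pool.Agent.Lib.MP_6d85b4_al

theorem C1t_dihedral {G : Type} [Group G] {r r' : G} (h : r * r = 1) (h' : r' * r' = 1)
    (ho : IsOfFinOrder (r * r')) : Finite (Subgroup.closure ({r, r'} : Set G)) := by
  have hi : r⁻¹ = r := inv_eq_of_mul_eq_one_right h
  have hi' : r'⁻¹ = r' := inv_eq_of_mul_eq_one_right h'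
  set Z := Subgroup.zpowers (r * r') with hZ
  have ht : r' * r ∈ Z := by
    have : r' * r = (r * r')⁻¹ := by rw [mul_inv_rev, hi, hi']
    rw [this]
    exact Z.inv_mem (Subgroup.mem_zpowers _)
  have hc : ∀ z ∈ Z, r * z * r ∈ Z := by
    rintro z ⟨k, rfl⟩
    have e : r * (r * r') ^ k * r = (r' * r) ^ k := by
      have e1 : r * (r * r') * r⁻¹ = r' * r := by rw [← mul_assoc, h, one_mul, hi]
      rw [← e1, conj_zpow, hi]
    show r * (r * r') ^ k * r ∈ Z
    rw [e]
    exact Z.zpow_mem ht k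
  have key : ∀ g ∈ Subgroup.closure ({r, r'} : Set G), g ∈ Z ∨ g * r ∈ Z := by
    intro g hg
    induction hg using Subgroup.closure_induction'' with
    | one => exact Or.inl Z.one_mem
    | mem x hx =>
      rcases hx with rfl | rfl
      · exact Or.inr (h ▸ Z.one_mem)
      · exact Or.inr ht
    | inv_mem x hx =>
      rcases hx with rfl | rfl
      · exact Or.inr (by rw [hi, h]; exact Z.one_mem)
      · exact Or.inr (by rw [hi']; exact ht)
    | mul x y _ _ hx hy =>
      rcases hx with hx | hx <;> rcases hy with hy | hy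
      · exact Or.inl (Z.mul_mem hx hy)
      · exact Or.inr (by rw [mul_assoc]; exact Z.mul_mem hx hy)
      · right
        have e : x * y * r = (x * r) * (r * y * r) := by
          rw [mul_assoc x r, ← mul_assoc r (r * y), ← mul_assoc r r, h, one_mul, mul_assoc]
        rw [e]
        exact Z.mul_mem hx (hc y hy)
      · left
        have e : x * y = (x * r) * (r * (y * r) * r) := by
          rw [mul_assoc r (y * r), mul_assoc y, h, mul_one, mul_assoc x, ← mul_assoc r r, h,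
            one_mul]
        rw [e]
        exact Z.mul_mem hx (hc _ hy)
  have hf : (Z : Set G).Finite := finite_zpowers.2 ho
  have : (Subgroup.closure ({r, r'} : Set G) : Set G).Finite := by
    refine (hf.union (hf.image (· * r))).subset fun g hg => ?_
    rcases key g hg with hg | hg
    · exact Or.inl hg
    · exact Or.inr ⟨g * r, hg, by show g * r * r = g; rw [mul_assoc, h, mul_one]⟩
  exact this

theorem C1t_fin_cj {G : Type} [Group G] {K : Subgroup G} (hK : Finite K) {c g : G}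
    (hg : g ∈ cj c K) : IsOfFinOrder g := by
  obtain ⟨n, hn, e⟩ := isOfFinOrder_iff_pow_eq_one.1 (isOfFinOrder_of_finite (⟨_, hg⟩ : K))
  refine isOfFinOrder_iff_pow_eq_one.2 ⟨n, hn, ?_⟩
  have e1 : (c⁻¹ * g * c) ^ n = 1 := by simpa using congrArg Subtype.val e
  have e2 : g = c * (c⁻¹ * g * c) * c⁻¹ := by group
  rw [e2, conj_pow, e1]
  group

variable {B : Type} [Fintype B] [DecidableEq B] {N : CoxeterMatrix B}

theorem C1t_refl_fix (A : C0a N) {r : N.Group} {a : B → ℝ} (h : ReflOf N r a) (x : Pt B) :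
    act N r x = x ↔ x a = 0 := by
  have hi : r⁻¹ = r := inv_eq_of_mul_eq_one_right (A.refl_sq r ⟨a, h⟩).1
  constructor
  · intro e
    have e1 := LinearMap.congr_fun e a
    rw [act_apply, hi, A.refl_eq r a h, A.root_norm a (A.refl_isRoot r a h), map_sub, map_smul,
      smul_eq_mul] at e1
    linarith
  · intro e
    refine LinearMap.ext fun v => ?_
    rw [act_apply, hi, A.refl_eq r a h, map_sub, map_smul, e, smul_zero, sub_zero]

theorem C1t_par_fix (A : C0a N) (y : Pt B) {w : N.Group} (hw : w ∈ par N (Zs y)) :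
    act N w y = y := by
  induction hw using Subgroup.closure_induction'' with
  | one => exact act_one N y
  | mem x hx =>
    obtain ⟨i, hi, rfl⟩ := hx
    exact (C1t_refl_fix A (A.root_al i).2 y).2 hi
  | inv_mem x hx =>
    obtain ⟨i, hi, rfl⟩ := hx
    rw [CoxeterSystem.inv_simple]
    exact (C1t_refl_fix A (A.root_al i).2 y).2 hi
  | mul x z _ _ hx hz => rw [act_mul, hz, hx]

theorem C1t_supp_al {T : Set B} {i : B} (hi : i ∈ T) : Supp T (al i) :=
  fun _ hj => al_ne fun e => hj (e ▸ hi)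

theorem C1t_cross_norm (A : C0a N) (D : C1a N) (E : C1b N) {a b : B → ℝ} (h : Cross N a b) :
    ∃ u i j, i ≠ j ∧ N i j ≠ 0 ∧ Supp {i, j} (rho N u a) ∧ Supp {i, j} (rho N u b) := by
  obtain ⟨ha, hb, h1, h2, y, hy, ya, yb⟩ := h
  obtain ⟨u, -, i, -, j, -, hij, hN, hc, hz⟩ := E.vx0 Set.univ y a b hy ha hb h1 h2
    (fun j hj => absurd (Set.mem_univ j) hj) (fun j hj => absurd (Set.mem_univ j) hj) ya yb
  refine ⟨u⁻¹, i, j, hij, hN, ?_, ?_⟩
  · rw [← hz]
    exact D.vanish _ _ hc (A.root_rho _ _ ha) (by rw [act_rho]; exact ya)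
  · rw [← hz]
    exact D.vanish _ _ hc (A.root_rho _ _ hb) (by rw [act_rho]; exact yb)

theorem C1t_cross_iff (A : C0a N) (D : C1a N) (r r' : N.Group) (a b : B → ℝ)
    (hr : ReflOf N r a) (hr' : ReflOf N r' b) (h1 : b ≠ a) (h2 : b ≠ -a) :
    Cross N a b ↔ IsOfFinOrder (r * r') := by
  constructor
  · rintro ⟨-, -, -, -, y, hy, ya, yb⟩
    have e : act N (r * r') y = y := by
      rw [act_mul, (C1t_refl_fix A hr' y).2 yb, (C1t_refl_fix A hr y).2 ya]
    refine finite_powers.1 ((D.stab y hy).subset ?_)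
    rintro _ ⟨n, rfl⟩
    show act N ((r * r') ^ n) y = y
    induction n with
    | zero => rw [pow_zero, act_one]
    | succ n ih => rw [pow_succ, act_mul, e, ih]
  · intro ho
    obtain ⟨y, hy, hf⟩ := D.finfix _
      (C1t_dihedral (A.refl_sq r ⟨a, hr⟩).1 (A.refl_sq r' ⟨b, hr'⟩).1 ho)
    exact ⟨A.refl_isRoot r a hr, A.refl_isRoot r' b hr', h1, h2, y, hy,
      (C1t_refl_fix A hr y).1 (hf r (Subgroup.subset_closure (by simp))),
      (C1t_refl_fix A hr' y).1 (hf r' (Subgroup.subset_closure (by simp)))⟩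

theorem C1t_cross_lt (A : C0a N) (C : C0c N) (D : C1a N) (E : C1b N) (a b : B → ℝ)
    (h : Cross N a b) : |Bf N a b| < 1 := by
  obtain ⟨u, i, j, hij, hN, sa, sb⟩ := C1t_cross_norm A D E h
  obtain ⟨ha, hb, h1, h2, -⟩ := h
  have inj : ∀ v, rho N u v = 0 → v = 0 := by
    intro v hv
    rw [← rho_inv N u v, hv, map_zero]
  have p1 := C.posdef i j (rho N u (a + b)) hij hN
    (fun t ht => by rw [map_add, Pi.add_apply, sa t ht, sb t ht, add_zero])
    (fun e => h2 (eq_neg_of_add_eq_zero_right (inj _ e)))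
  have p2 := C.posdef i j (rho N u (a + -b)) hij hN
    (fun t ht => by
      rw [map_add, map_neg, Pi.add_apply, Pi.neg_apply, sa t ht, sb t ht, neg_zero, add_zero])
    (fun e => h1 (add_neg_eq_zero.1 (inj _ e)).symm)
  rw [Bf_rho, Bf_add_left, Bf_add_right, Bf_add_right, A.root_norm a ha, A.root_norm b hb,
    Bf_symm N b a] at p1
  rw [Bf_rho, Bf_add_left, Bf_add_right, Bf_add_right, Bf_neg_left, Bf_neg_left, Bf_neg_right,
    Bf_neg_right, A.root_norm a ha, A.root_norm b hb, Bf_symm N b a] at p2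
  rw [abs_lt]
  constructor <;> linarith

theorem C1t_cross_vals (A : C0a N) (C : C0c N) (D : C1a N) (E : C1b N) :
    {t | ∃ a b, Cross N a b ∧ t = Bf N a b}.Finite := by
  set R0 : Set (B → ℝ) := ⋃ i, ⋃ j,
    (fun k : ℕ => ch (N i j) k • al i + ch (N i j) (k + 1) • al j) '' {k | k < N i j} with hR0
  have f0 : R0.Finite := Set.finite_iUnion fun i => Set.finite_iUnion fun j =>
    (Set.finite_lt_nat _).image _
  set R : Set (B → ℝ) := R0 ∪ (fun v => -v) '' R0 with hR
  have f1 : R.Finite := f0.union (f0.image _)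
  have m0 : ∀ i j a, i ≠ j → N i j ≠ 0 → IsRoot N a → Pos a → Supp {i, j} a → a ∈ R0 := by
    intro i j a hij hN ha hp hs
    obtain ⟨k, hk, e⟩ := C.roots_fin i j a hij hN ha hp hs
    exact Set.mem_iUnion.2 ⟨i, Set.mem_iUnion.2 ⟨j, k, hk, e.symm⟩⟩
  have m1 : ∀ i j a, i ≠ j → N i j ≠ 0 → IsRoot N a → Supp {i, j} a → a ∈ R := by
    intro i j a hij hN ha hs
    rcases A.root_pos a ha with hp | hp
    · exact Or.inl (m0 i j a hij hN ha hp hs)
    · exact Or.inr ⟨-a, m0 i j _ hij hN (A.root_neg a ha) hp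
        (fun t ht => by rw [Pi.neg_apply, hs t ht, neg_zero]), neg_neg a⟩
  refine (f1.image2 (Bf N) f1).subset ?_
  rintro _ ⟨a, b, h, rfl⟩
  obtain ⟨u, i, j, hij, hN, sa, sb⟩ := C1t_cross_norm A D E h
  exact ⟨_, m1 i j _ hij hN (A.root_rho u a h.1) sa, _, m1 i j _ hij hN (A.root_rho u b h.2.1) sb,
    Bf_rho N u a b⟩

theorem C1t_finsub (D : C1a N) (E : C1b N) (K : Subgroup N.Group) (hK : Finite K) :
    ∃ c T, Simplex N T ∧ K ≤ cj c (par N T) := by
  obtain ⟨y, hy, hf⟩ := D.finfix K hK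
  obtain ⟨u, -, hu⟩ := D.fold y Set.univ hy
  have hc : Cham (act N u⁻¹ y) := fun i => by
    rw [act_apply, inv_inv]
    exact hu i (Set.mem_univ i)
  refine ⟨u, Zs (act N u⁻¹ y), (E.fin_par _).1 (D.zfin _ (D.act_mem _ _ hy) hc), fun g hg => ?_⟩
  have e : act N (u⁻¹ * g * u) (act N u⁻¹ y) = act N u⁻¹ y := by
    rw [← act_mul, mul_inv_cancel_right, act_mul, hf g hg]
  exact (D.uniq _ _ hc (by rw [e]; exact hc)).2

theorem C1t_isRefl (w : N.Group) (i : B) : IsRefl N (w * sr N i * w⁻¹) := ⟨_, w, i, rfl, rfl⟩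

theorem C1t_single {i : B} {g : N.Group} (hg : g ∈ par N {i}) : g = 1 ∨ g = sr N i := by
  induction hg using Subgroup.closure_induction'' with
  | one => exact Or.inl rfl
  | mem x hx =>
    obtain ⟨j, rfl, rfl⟩ := hx
    exact Or.inr rfl
  | inv_mem x hx =>
    obtain ⟨j, rfl, rfl⟩ := hx
    exact Or.inr (CoxeterSystem.inv_simple _ _)
  | mul x z _ _ hx hz =>
    rcases hx with rfl | rfl <;> rcases hz with rfl | rfl
    · exact Or.inl (one_mul _)
    · exact Or.inr (one_mul _)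
    · exact Or.inr (mul_one _)
    · exact Or.inl (CoxeterSystem.simple_mul_simple_self _ _)

theorem C1t_classify (C : C0c N) (c : N.Group) {T : Set B} (hT : Simplex N T) :
    (∀ g ∈ cj c (par N T), g = 1 ∨ IsRefl N g) ∨ ∃ i j, i ≠ j ∧ N i j ≠ 0 ∧
      ∀ g ∈ cj c (par N T), IsRefl N g ∨ ∃ k : ℕ, g = c * (sr N i * sr N j) ^ k * c⁻¹ := by
  have back : ∀ g x : N.Group, c⁻¹ * g * c = x → g = c * x * c⁻¹ := by
    rintro g _ rfl
    group
  by_cases h2 : ∃ i ∈ T, ∃ j ∈ T, i ≠ j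
  · obtain ⟨i, hi, j, hj, hij⟩ := h2
    refine Or.inr ⟨i, j, hij, hT.1 i hi j hj, fun g hg => ?_⟩
    have hsub : T ⊆ {i, j} := by
      intro t ht
      rcases hT.2 i hi j hj t ht with e | e | e
      · exact absurd e hij
      · exact Or.inr e.symm
      · exact Or.inl e.symm
    rcases C.elts i j _ hij (hT.1 i hi j hj) (gp_mono _ hsub hg) with ⟨k, e⟩ | ⟨u, -, e | e⟩
    · exact Or.inr ⟨k, back _ _ e⟩
    · left
      have e1 : g = (c * u) * sr N i * (c * u)⁻¹ := by rw [back _ _ e]; group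
      rw [e1]
      exact C1t_isRefl _ _
    · left
      have e1 : g = (c * u) * sr N j * (c * u)⁻¹ := by rw [back _ _ e]; group
      rw [e1]
      exact C1t_isRefl _ _
  · refine Or.inl fun g hg => ?_
    rcases T.eq_empty_or_nonempty with rfl | ⟨i, hi⟩
    · left
      have e : c⁻¹ * g * c = 1 := by simpa [mem_cj, par, gp] using hg
      rw [back _ _ e]
      group
    · have hsub : T ⊆ {i} := by
        intro t ht
        by_contra hne
        exact h2 ⟨t, ht, i, hi, hne⟩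
      rcases C1t_single (gp_mono _ hsub hg) with e | e
      · left
        rw [back _ _ e]
        group
      · right
        rw [back _ _ e]
        exact C1t_isRefl _ _

theorem C1t_tors (C : C0c N) (D : C1a N) (E : C1b N) (g : N.Group) (hg : IsOfFinOrder g) :
    g = 1 ∨ IsRefl N g ∨ IsRot N g := by
  obtain ⟨c, T, hT, hle⟩ := C1t_finsub D E (Subgroup.zpowers g) (finite_zpowers.2 hg)
  have hm := hle (Subgroup.mem_zpowers g)
  rcases C1t_classify C c hT with h | ⟨i, j, hij, hN, h⟩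
  · exact (h g hm).imp_right Or.inl
  · by_cases h1 : g = 1
    · exact Or.inl h1
    · rcases h g hm with h | ⟨k, e⟩
      · exact Or.inr (Or.inl h)
      · exact Or.inr (Or.inr ⟨c, i, j, k, hij, hN, e, h1⟩)

theorem C1t_rho_mem (i j : B) (k : ℕ) : (sr N i * sr N j) ^ k ∈ par N {i, j} :=
  Subgroup.pow_mem _ (Subgroup.mul_mem _ (gp_mem _ (by simp)) (gp_mem _ (by simp))) k

theorem C1t_rot_sg (C : C0c N) (g : N.Group) (hg : IsRot N g) : sg N g = 1 ∧ IsOfFinOrder g := by
  obtain ⟨c, i, j, k, -, hN, rfl, -⟩ := hg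
  refine ⟨?_, C1t_fin_cj (C.fin i j hN) (conj_mem_cj.2 (C1t_rho_mem i j k))⟩
  rw [map_mul, map_mul, map_pow, map_mul, sg_sr, sg_sr, map_inv]
  simp

theorem C1t_rot_kill (Bb : C0b N) (C : C0c N) {i j : B} {k : ℕ} (hij : i ≠ j) (hN : N i j ≠ 0)
    (h1 : (sr N i * sr N j) ^ k ≠ 1) (y : Pt B) (hy : act N ((sr N i * sr N j) ^ k) y = y) :
    y (al i) = 0 ∧ y (al j) = 0 := by
  set g := (sr N i * sr N j) ^ k with hg
  let P : Submodule ℝ (B → ℝ) :=
    { carrier := {v | Supp {i, j} v}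
      add_mem' := fun {a b} ha hb t ht => by rw [Pi.add_apply, ha t ht, hb t ht, add_zero]
      zero_mem' := fun _ _ => rfl
      smul_mem' := fun s a ha t ht => by rw [Pi.smul_apply, ha t ht, smul_zero] }
  let f : (B → ℝ) →ₗ[ℝ] (B → ℝ) := LinearMap.id - rho N g
  have fa : ∀ v, f v = v - rho N g v := fun v => rfl
  have hf : ∀ v ∈ P, f v ∈ P := fun v hv =>
    P.sub_mem hv (Bb.supp_par _ g v (C1t_rho_mem i j k) hv)
  have inj : Function.Injective (f.restrict hf) := by
    rw [injective_iff_map_eq_zero]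
    intro v hv
    have e : f v = 0 := congrArg Subtype.val hv
    rw [fa, sub_eq_zero] at e
    exact Subtype.ext (C.rot_fix i j k v hij hN h1 v.2 e.symm)
  have sur := LinearMap.injective_iff_surjective.1 inj
  have kill : ∀ v ∈ P, y v = 0 := by
    intro v hv
    obtain ⟨w, hw⟩ := sur ⟨v, hv⟩
    have e : f w = v := congrArg Subtype.val hw
    have e1 : y (rho N g w) = y w := by
      have := act_rho N g y w
      rwa [hy] at this
    rw [← e, fa, map_sub, e1, sub_self]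
  exact ⟨kill _ (C1t_supp_al (by simp)), kill _ (C1t_supp_al (by simp))⟩

theorem C1t_rot_type (A : C0a N) (Bb : C0b N) (C : C0c N) (D : C1a N) (E : C1b N)
    (c c' : N.Group) (i j : B) (k : ℕ) (T : Set B) (hij : i ≠ j) (hN : N i j ≠ 0)
    (h1 : (sr N i * sr N j) ^ k ≠ 1) (hT : Simplex N T)
    (hm : c * (sr N i * sr N j) ^ k * c⁻¹ ∈ cj c' (par N T)) :
    T = {i, j} ∧ c'⁻¹ * c ∈ par N {i, j} := by
  obtain ⟨y, hy, hc, hz⟩ := D.face T ((E.fin_par T).2 hT)
  rw [mem_cj, ← hz] at hm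
  have e := C1t_par_fix A y hm
  have e1 : act N ((sr N i * sr N j) ^ k) (act N (c'⁻¹ * c)⁻¹ y) = act N (c'⁻¹ * c)⁻¹ y := by
    have e2 : (sr N i * sr N j) ^ k * (c'⁻¹ * c)⁻¹ =
        (c'⁻¹ * c)⁻¹ * (c'⁻¹ * (c * (sr N i * sr N j) ^ k * c⁻¹) * c') := by group
    rw [← act_mul, e2, act_mul, e]
  obtain ⟨k1, k2⟩ := C1t_rot_kill Bb C hij hN h1 _ e1
  obtain ⟨hc', hz', -⟩ := E.vertex _ i j (D.act_mem _ _ hy) hij k1 k2
  obtain ⟨u1, u2⟩ := D.uniq _ y hc hc'
  rw [u1] at hz'
  rw [hz'] at u2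
  exact ⟨hz.symm.trans hz', (Subgroup.inv_mem_iff _).1 u2⟩

theorem C1t_rot_cent (A : C0a N) (Bb : C0b N) (C : C0c N) (D : C1a N) (E : C1b N)
    (c h : N.Group) (i j : B) (k : ℕ) (hij : i ≠ j) (hN : N i j ≠ 0)
    (h1 : (sr N i * sr N j) ^ k ≠ 1) (hc : Commute h (c * (sr N i * sr N j) ^ k * c⁻¹)) :
    h ∈ cj c (par N {i, j}) := by
  have e : (h * c) * (sr N i * sr N j) ^ k * (h * c)⁻¹ = c * (sr N i * sr N j) ^ k * c⁻¹ := by
    have e1 : (h * c) * (sr N i * sr N j) ^ k * (h * c)⁻¹ =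
        h * (c * (sr N i * sr N j) ^ k * c⁻¹) * h⁻¹ := by group
    rw [e1, hc.eq, mul_inv_cancel_right]
  have := (C1t_rot_type A Bb C D E (h * c) c i j k {i, j} hij hN h1
    ((E.fin_par _).1 (C.fin i j hN)) (by rw [e]; exact conj_mem_cj.2 (C1t_rho_mem i j k))).2
  rwa [← mul_assoc] at this

theorem C1t_conj_rho (i j : B) {x : N.Group} (hx : x ∈ par N {i, j}) :
    x * (sr N i * sr N j) * x⁻¹ = (sr N i * sr N j) ^ ((sg N x : ℤˣ) : ℤ) := by
  have gen : ∀ t ∈ ({i, j} : Set B), sr N t * (sr N i * sr N j) * (sr N t)⁻¹ =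
      (sr N i * sr N j) ^ ((sg N (sr N t) : ℤˣ) : ℤ) := by
    intro t ht
    rw [sg_sr, Units.val_neg, Units.val_one, zpow_neg_one, mul_inv_rev, CoxeterSystem.inv_simple,
      CoxeterSystem.inv_simple, CoxeterSystem.inv_simple]
    rcases ht with rfl | rfl
    · rw [← mul_assoc, CoxeterSystem.simple_mul_simple_self, one_mul]
    · rw [mul_assoc, mul_assoc, CoxeterSystem.simple_mul_simple_self, mul_one]
  induction hx using Subgroup.closure_induction'' with
  | one => simp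
  | mem x hx =>
    obtain ⟨t, ht, rfl⟩ := hx
    exact gen t ht
  | inv_mem x hx =>
    obtain ⟨t, ht, rfl⟩ := hx
    rw [show (sr N t)⁻¹ = sr N t from CoxeterSystem.inv_simple _ _]
    exact gen t ht
  | mul x z _ _ hx hz =>
    have e : x * z * (sr N i * sr N j) * (x * z)⁻¹ = x * (z * (sr N i * sr N j) * z⁻¹) * x⁻¹ := by
      group
    rw [e, hz, ← conj_zpow, hx, ← zpow_mul, map_mul, Units.val_mul]

theorem C1t_rot_refl (A : C0a N) (Bb : C0b N) (C : C0c N) (D : C1a N) (E : C1b N)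
    (g r : N.Group) (hg : IsRot N g) (hr : IsRefl N r) (hc : Commute g r) : g * g = 1 := by
  obtain ⟨c, i, j, k, hij, hN, rfl, hne⟩ := hg
  have h1 : (sr N i * sr N j) ^ k ≠ 1 := fun e => hne (by rw [e]; group)
  have hm := C1t_rot_cent A Bb C D E c r i j k hij hN h1 hc.symm
  have e := C1t_conj_rho i j hm
  have s : sg N (c⁻¹ * r * c) = -1 := by
    rw [map_mul, map_mul, (A.refl_sq r hr).2.2, map_inv]
    simp
  rw [s, Units.val_neg, Units.val_one, zpow_neg_one] at e
  have e1 : (c⁻¹ * r * c) * (sr N i * sr N j) ^ k * (c⁻¹ * r * c)⁻¹ = ((sr N i * sr N j) ^ k)⁻¹ := by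
    rw [← conj_pow, e, inv_pow]
  have e2 : (c⁻¹ * r * c) * (sr N i * sr N j) ^ k * (c⁻¹ * r * c)⁻¹ = (sr N i * sr N j) ^ k := by
    have e3 : (c⁻¹ * r * c) * (sr N i * sr N j) ^ k * (c⁻¹ * r * c)⁻¹ =
        c⁻¹ * (r * (c * (sr N i * sr N j) ^ k * c⁻¹) * r⁻¹) * c := by group
    rw [e3, ← hc.eq, mul_inv_cancel_right]
    group
  have e4 : (sr N i * sr N j) ^ k * (sr N i * sr N j) ^ k = 1 :=
    mul_eq_one_iff_eq_inv.2 (e2.symm.trans e1)
  have e5 : c * (sr N i * sr N j) ^ k * c⁻¹ * (c * (sr N i * sr N j) ^ k * c⁻¹) =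
      c * ((sr N i * sr N j) ^ k * (sr N i * sr N j) ^ k) * c⁻¹ := by
    simp only [mul_assoc, inv_mul_cancel_left]
  rw [e5, e4, mul_one, mul_inv_cancel]

theorem C1t_torc (A : C0a N) (Bb : C0b N) (C : C0c N) (D : C1a N) (E : C1b N)
    (g w : N.Group) (hg : IsOfFinOrder g) (hc : Commute g w) (hw : ¬ IsOfFinOrder w) :
    g = 1 ∨ IsRefl N g := by
  rcases C1t_tors C D E g hg with h | h | ⟨c, i, j, k, hij, hN, rfl, hne⟩
  · exact Or.inl h
  · exact Or.inr h
  · have h1 : (sr N i * sr N j) ^ k ≠ 1 := fun e => hne (by rw [e]; group)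
    exact absurd (C1t_fin_cj (C.fin i j hN)
      (C1t_rot_cent A Bb C D E c w i j k hij hN h1 hc.symm)) hw

theorem C1t_fin_comm (C : C0c N) (D : C1a N) (E : C1b N) (g h : N.Group)
    (hf : Finite (Subgroup.closure ({g, h} : Set N.Group))) (hg : ¬ IsRefl N g)
    (hh : ¬ IsRefl N h) : Commute g h := by
  obtain ⟨c, T, hT, hle⟩ := C1t_finsub D E _ hf
  have mg := hle (Subgroup.subset_closure (show g ∈ ({g, h} : Set N.Group) by simp))
  have mh := hle (Subgroup.subset_closure (show h ∈ ({g, h} : Set N.Group) by simp))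
  rcases C1t_classify C c hT with H | ⟨i, j, -, -, H⟩
  · rw [(H g mg).resolve_right hg]
    exact Commute.one_left h
  · obtain ⟨k, e⟩ := (H g mg).resolve_left hg
    obtain ⟨l, e'⟩ := (H h mh).resolve_left hh
    rw [e, e', ← conj_pow, ← conj_pow]
    exact Commute.pow_pow_self _ k l

theorem C1t_pinf (Bb : C0b N) (E : C1b N) (c d : N.Group) (i j k : B) (U : Set B) (g : N.Group)
    (ht : Tri0 N i j k) (hc : g ∈ cj c (par N {i, j, k})) (hg : ¬ IsOfFinOrder g)
    (hd : g ∈ cj d (par N U)) :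
    cj c (par N {i, j, k}) ≤ cj d (par N U) ∧ i ∈ U ∧ j ∈ U ∧ k ∈ U := by
  obtain ⟨hij, hjk, hik, nij, njk, nik⟩ := ht
  obtain ⟨u, hu, d', v, hv, he, hk⟩ := Bb.kil (c⁻¹ * d) {i, j, k} U
  have hd' : d = c * u * d' * v := by
    have : d = c * (c⁻¹ * d) := by group
    rw [this, he]
    group
  set J : Set B := {t | t ∈ ({i, j, k} : Set B) ∧ ∃ j ∈ U, rho N d' (al j) = al t} with hJ
  have hm : g ∈ cj (c * u) (par N J) := by
    rw [mem_cj, ← hk]
    constructor
    · have e : (c * u)⁻¹ * g * (c * u) = u⁻¹ * (c⁻¹ * g * c) * u := by group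
      rw [e]
      exact Subgroup.mul_mem _ (Subgroup.mul_mem _ (Subgroup.inv_mem _ hu) hc) hu
    · have e : d'⁻¹ * ((c * u)⁻¹ * g * (c * u)) * d' = v * (d⁻¹ * g * d) * v⁻¹ := by
        rw [hd']
        group
      show d'⁻¹ * ((c * u)⁻¹ * g * (c * u)) * d' ∈ par N U
      rw [e]
      exact Subgroup.mul_mem _ (Subgroup.mul_mem _ hv hd) (Subgroup.inv_mem _ hv)
  have hns : ¬ Simplex N J := fun hs => hg (C1t_fin_cj ((E.fin_par J).2 hs) hm)
  have hall : i ∈ J ∧ j ∈ J ∧ k ∈ J := by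
    by_contra hcon
    apply hns
    constructor
    · have d1 : ∀ s, N s s ≠ 0 := fun s => by rw [N.diagonal]; exact one_ne_zero
      rintro s ⟨rfl | rfl | rfl, -⟩ t ⟨rfl | rfl | rfl, -⟩ <;>
        first | exact d1 _ | assumption | (rw [N.symmetric]; assumption)
    · intro s hs t ht w hw
      rcases hs.1 with rfl | rfl | rfl <;> rcases ht.1 with rfl | rfl | rfl <;>
        rcases hw.1 with rfl | rfl | rfl <;>
        first
          | exact Or.inl rfl
          | exact Or.inr (Or.inl rfl)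
          | exact Or.inr (Or.inr rfl)
          | exact absurd ⟨by assumption, by assumption, by assumption⟩ hcon
  have sp : ∀ t ∈ J, Supp U (rho N d'⁻¹ (al t)) := by
    rintro t ⟨-, s, hs, e⟩
    rw [← e, rho_inv]
    exact C1t_supp_al hs
  obtain ⟨iU, jU, dU⟩ := E.vtype U d'⁻¹ i j hij nij (sp i hall.1) (sp j hall.2.1)
  obtain ⟨-, kU, -⟩ := E.vtype U d'⁻¹ j k hjk njk (sp j hall.2.1) (sp k hall.2.2)
  have hsub : ({i, j, k} : Set B) ⊆ U := by
    rintro t (rfl | rfl | rfl) <;> assumption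
  have eU : c⁻¹ * d ∈ par N U := by
    rw [he]
    exact Subgroup.mul_mem _ (Subgroup.mul_mem _ (gp_mono _ hsub hu)
      ((Subgroup.inv_mem_iff _).1 dU)) hv
  refine ⟨fun x hx => ?_, iU, jU, kU⟩
  have e : d⁻¹ * x * d = (c⁻¹ * d)⁻¹ * (c⁻¹ * x * c) * (c⁻¹ * d) := by group
  rw [mem_cj, e]
  exact Subgroup.mul_mem _ (Subgroup.mul_mem _ (Subgroup.inv_mem _ eU) (gp_mono _ hsub hx)) eU

theorem C1t_thm (h1 : St_C0a) (h2 : St_C0b) (h3 : St_C0c) (h4 : St_C1a) (h5 : St_C1b) :
    St_C1t := by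
  intro B _ _ N hN
  have A := h1 B N
  have Bb := h2 B N
  have C := h3 B N
  have D := h4 B N
  have E := h5 B N hN
  exact
    { cross_iff := C1t_cross_iff A D
      cross_lt := C1t_cross_lt A C D E
      cross_vals := C1t_cross_vals A C D E
      finsub := C1t_finsub D E
      tors := C1t_tors C D E
      rot_sg := C1t_rot_sg C
      rot_type := C1t_rot_type A Bb C D E
      rot_cent := C1t_rot_cent A Bb C D E
      rot_refl := C1t_rot_refl A Bb C D E
      torc := C1t_torc A Bb C D E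
      fin_comm := C1t_fin_comm C D E
      pinf := C1t_pinf Bb E }

end Pool.Agent.Lib.MP_1b8ce0_al.T
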