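import Mathlib
import Pool.Agent.Lib.MP_1b8ce0_al.T.StsA

/-! Essential and periodic roots of an element. -/

set_option linter.unusedSectionVars false
set_option linter.dupNamespace false

namespace Pool.Agent.Lib.MP_1b8ce0_al.T

open Pool.Agent.Lib.MP_6d85b4_al Filter

theorem C2a_ivt (g : ℕ → ℝ) (m : ℕ) (h0 : 0 ≤ g 0) (hm : g m < 0) :
    ∃ k < m, 0 ≤ g k ∧ g (k + 1) ≤ 0 := by
  induction m with
  | zero => exact absurd h0 (not_le.2 hm)
  | succ m ih =>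
    by_cases h : g m < 0
    · obtain ⟨k, h1, h2⟩ := ih h
      exact ⟨k, h1.trans m.lt_succ_self, h2⟩
    · exact ⟨m, m.lt_succ_self, not_lt.1 h, hm.le⟩

theorem C2a_hom {Q : Type} [CommGroup Q] (g₀ : Q) (h0 : ∀ j : ℤ, g₀ ^ j = 1 → j = 0)
    (h : ∀ q : Q, ∃ (k : ℕ) (j : ℤ), 0 < k ∧ q ^ k = g₀ ^ j) :
    ∃ μ : Q →* Multiplicative ℚ, ∀ q : Q, ∃ (k : ℕ) (j : ℤ), 0 < k ∧ q ^ k = g₀ ^ j ∧
      (μ q).toAdd = j / k := by
  choose k j hk hj using h
  have key : ∀ (q : Q) (k' : ℕ) (j' : ℤ), 0 < k' → q ^ k' = g₀ ^ j' →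
      (j q / k q : ℚ) = j' / k' := by
    intro q k' j' h1 h2
    have h3 : g₀ ^ (j q * k' - j' * k q) = 1 := by
      rw [zpow_sub, zpow_mul, zpow_mul, ← hj, ← h2, zpow_natCast, zpow_natCast, ← pow_mul,
        ← pow_mul, mul_comm k', mul_inv_cancel]
    rw [div_eq_div_iff (by exact_mod_cast (hk q).ne') (by exact_mod_cast h1.ne')]
    exact_mod_cast sub_eq_zero.1 (h0 _ h3)
  refine ⟨MonoidHom.mk' (fun q => Multiplicative.ofAdd (j q / k q : ℚ)) fun q r => ?_,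
    fun q => ⟨k q, j q, hk q, hj q, rfl⟩⟩
  rw [← ofAdd_add, key (q * r) (k q * k r) (j q * k r + j r * k q) (Nat.mul_pos (hk q) (hk r))]
  · have h1 : (k q : ℚ) ≠ 0 := by exact_mod_cast (hk q).ne'
    have h2 : (k r : ℚ) ≠ 0 := by exact_mod_cast (hk r).ne'
    congr 1
    push_cast
    field_simp
  · rw [mul_pow, zpow_add, zpow_mul, zpow_mul, ← hj, ← hj, zpow_natCast, zpow_natCast, ← pow_mul,
      ← pow_mul, mul_comm (k r)]

variable {B : Type} [Fintype B] [DecidableEq B] {N : CoxeterMatrix B}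

/-- the forward orbit ends on the positive side -/
def C2a_Up (N : CoxeterMatrix B) (w : N.Group) (a : B → ℝ) : Prop :=
  ∀ x, InI N x → ∀ᶠ n : ℕ in atTop, 0 < x (rho N (w ^ n) a)

theorem C2a_ess {w : N.Group} {a : B → ℝ} :
    Ess N w a ↔ IsRoot N a ∧ C2a_Up N w⁻¹ a ∧ C2a_Up N w (-a) := by
  simp only [Ess, C2a_Up, eventually_and, inv_pow, map_neg, neg_pos, forall_and]

theorem C2a_evn {w : N.Group} {a : B → ℝ} :
    Evn N w a ↔ IsRoot N a ∧ C2a_Up N w⁻¹ a ∧ C2a_Up N w a := by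
  simp only [Evn, C2a_Up, eventually_and, inv_pow, forall_and]

theorem C2a_fix_pow {u : N.Group} {a : B → ℝ} (h : rho N u a = a) (n : ℕ) :
    rho N (u ^ n) a = a := by
  induction n with
  | zero => rw [pow_zero, rho_one]
  | succ n ih => rw [pow_succ, rho_mul, h, ih]

theorem C2a_fix_inv {u : N.Group} {a : B → ℝ} (h : rho N u a = a) : rho N u⁻¹ a = a := by
  conv_lhs => rw [← h]
  rw [rho_inv]

theorem C2a_per_inv {w : N.Group} {a : B → ℝ} (h : Per N w⁻¹ a) : Per N w a := by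
  obtain ⟨k, h1, h2⟩ := h
  exact ⟨k, h1, by simpa using C2a_fix_inv h2⟩

theorem C2a_per_neg {w : N.Group} {a : B → ℝ} (h : Per N w (-a)) : Per N w a := by
  obtain ⟨k, h1, h2⟩ := h
  exact ⟨k, h1, by simpa using h2⟩

theorem C2a_tend {k : ℕ} (hk : 0 < k) : Tendsto (fun n : ℕ => k * n) atTop atTop :=
  tendsto_atTop_mono (fun n => Nat.le_mul_of_pos_left n hk) tendsto_id

theorem C2a_avoid {w : N.Group} {a : B → ℝ} (h : ¬ Per N w a) {F : Set (B → ℝ)} (hF : F.Finite) :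
    ∀ᶠ n : ℕ in atTop, rho N (w ^ n) a ∉ F := by
  have hi : Function.Injective fun n : ℕ => rho N (w ^ n) a := by
    refine Function.Injective.of_lt_imp_ne fun n m hnm e => h ⟨m - n, Nat.sub_pos_of_lt hnm, ?_⟩
    have e2 := congrArg (rho N (w ^ n)⁻¹) e
    simp only [rho_inv] at e2
    rw [← rho_mul, ← Nat.add_sub_cancel' hnm.le, pow_add, inv_mul_cancel_left] at e2
    exact e2.symm
  rw [← Nat.cofinite_eq_atTop]
  exact hi.tendsto_cofinite.eventually hF.eventually_cofinite_notMem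

theorem C2a_same (h1 : C0a N) (h4 : C1a N) {w : N.Group} {a : B → ℝ} (ha : IsRoot N a)
    (h : ¬ Per N w a) {x y : Pt B} (hx : InI N x) (hy : InI N y) :
    ∀ᶠ n : ℕ in atTop, (0 < x (rho N (w ^ n) a) ∧ 0 < y (rho N (w ^ n) a)) ∨
      (x (rho N (w ^ n) a) < 0 ∧ y (rho N (w ^ n) a) < 0) := by
  filter_upwards [C2a_avoid h (h4.sep_fin x y hx hy), C2a_avoid h (h4.sep_fin y x hy hx)]
    with n k1 k2
  have hr := h1.root_rho (w ^ n) a ha
  simp only [hr, true_and, not_and, not_le] at k1 k2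
  by_cases k : 0 ≤ x (rho N (w ^ n) a)
  · exact Or.inl ⟨k2 (k1 k).le, k1 k⟩
  · exact Or.inr ⟨not_le.1 k, not_le.1 fun e => k (k2 e).le⟩

theorem C2a_dich (h1 : C0a N) (h4 : C1a N) {w : N.Group} {a : B → ℝ} (ha : IsRoot N a)
    (h : ¬ Per N w a) : C2a_Up N w a ∨ C2a_Up N w (-a) := by
  have hp := h4.pt0.1
  obtain ⟨n₀, hn⟩ := eventually_atTop.1 (C2a_same h1 h4 ha h hp (h4.act_mem w⁻¹ _ hp))
  simp only [act_apply, inv_inv, ← rho_mul, ← pow_succ'] at hn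
  rcases hn n₀ le_rfl with k | k
  · have k1 : ∀ n ≥ n₀, 0 < pt0 B (rho N (w ^ n) a) := fun n hn' => by
      induction n, hn' using Nat.le_induction with
      | base => exact k.1
      | succ n h5 ih => exact ((hn n h5).resolve_right fun e => lt_asymm ih e.1).2
    refine Or.inl fun x hx => ?_
    filter_upwards [C2a_same h1 h4 ha h hp hx, eventually_ge_atTop n₀] with n k2 k3
    exact (k2.resolve_right fun e => lt_asymm (k1 n k3) e.1).2
  · have k1 : ∀ n ≥ n₀, pt0 B (rho N (w ^ n) a) < 0 := fun n hn' => by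
      induction n, hn' using Nat.le_induction with
      | base => exact k.1
      | succ n h5 ih => exact ((hn n h5).resolve_left fun e => lt_asymm ih e.1).2
    refine Or.inr fun x hx => ?_
    filter_upwards [C2a_same h1 h4 ha h hp hx, eventually_ge_atTop n₀] with n k2 k3
    rw [map_neg, map_neg, neg_pos]
    exact (k2.resolve_left fun e => lt_asymm (k1 n k3) e.1).2

theorem C2a_up (h1 : C0a N) (h4 : C1a N) {w : N.Group} {a : B → ℝ} (ha : IsRoot N a)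
    (h : ¬ Per N w a) {y : Pt B} (hy : InI N y)
    (hf : ∃ᶠ n : ℕ in atTop, 0 < y (rho N (w ^ n) a)) : C2a_Up N w a := by
  refine (C2a_dich h1 h4 ha h).resolve_right fun e => ?_
  obtain ⟨n, k1, k2⟩ := (hf.and_eventually (e y hy)).exists
  rw [map_neg, map_neg, neg_pos] at k2
  exact lt_asymm k1 k2

theorem C2a_nper' {w : N.Group} {a : B → ℝ} {y : Pt B}
    (h : ∀ᶠ n : ℕ in atTop, 0 < y (rho N (w ^ n)⁻¹ a) ∧ y (rho N (w ^ n) a) < 0) :
    ¬ Per N w a := by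
  rintro ⟨k, hk, e⟩
  obtain ⟨n, k1, k2⟩ := ((C2a_tend hk).eventually h).exists
  rw [pow_mul, C2a_fix_inv (C2a_fix_pow e n)] at k1
  rw [pow_mul, C2a_fix_pow e n] at k2
  exact lt_asymm k1 k2

theorem C2a_nper (h4 : C1a N) {w : N.Group} {a : B → ℝ} (h : Ess N w a) : ¬ Per N w a :=
  C2a_nper' (h.2 _ h4.pt0.1)

theorem C2a_nneg (h4 : C1a N) {w : N.Group} {a : B → ℝ} (h : Ess N w a) : ¬ Ess N w (-a) := by
  intro e
  obtain ⟨n, k1, k2⟩ := ((h.2 _ h4.pt0.1).and (e.2 _ h4.pt0.1)).exists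
  rw [map_neg, map_neg, neg_pos] at k2
  exact lt_asymm k1.1 k2.1

theorem C2a_conj (h1 : C0a N) (h4 : C1a N) (g : N.Group) {w : N.Group} {a : B → ℝ}
    (h : Ess N w a) : Ess N (g * w * g⁻¹) (rho N g a) := by
  refine ⟨h1.root_rho _ _ h.1, fun x hx => ?_⟩
  filter_upwards [h.2 _ (h4.act_mem g⁻¹ x hx)] with n k
  simpa only [conj_pow, mul_inv_rev, inv_inv, rho_mul, rho_inv, act_apply] using k

theorem C2a_crit (h1 : C0a N) (h4 : C1a N) {w : N.Group} {a : B → ℝ} {y : Pt B}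
    (ha : IsRoot N a) (hy : InI N y) (h : ¬ Per N w a)
    (k1 : ∃ᶠ n : ℕ in atTop, 0 < y (rho N (w ^ n)⁻¹ a))
    (k2 : ∃ᶠ n : ℕ in atTop, y (rho N (w ^ n) a) < 0) : Ess N w a :=
  C2a_ess.2 ⟨ha, C2a_up h1 h4 ha (fun e => h (C2a_per_inv e)) hy (by simpa only [inv_pow] using k1),
    C2a_up h1 h4 (h1.root_neg a ha) (fun e => h (C2a_per_neg e)) hy
      (by simpa only [map_neg, neg_pos] using k2)⟩

theorem C2a_pow (h1 : C0a N) (h4 : C1a N) {w : N.Group} {a : B → ℝ} {n : ℕ} (hn : 0 < n) :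
    Ess N (w ^ n) a ↔ Ess N w a := by
  constructor
  · intro h
    have k := h.2 _ h4.pt0.1
    simp only [← pow_mul] at k
    refine C2a_crit h1 h4 h.1 h4.pt0.1 ?_
      ((C2a_tend hn).frequently (k.mono fun _ e => e.1).frequently)
      ((C2a_tend hn).frequently (k.mono fun _ e => e.2).frequently)
    rintro ⟨m, hm, e⟩
    exact C2a_nper h4 h ⟨m, hm, by rw [← pow_mul, mul_comm, pow_mul, C2a_fix_pow e]⟩
  · intro h
    refine ⟨h.1, fun x hx => ?_⟩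
    simp only [← pow_mul]
    exact (C2a_tend hn).eventually (h.2 x hx)

theorem C2a_inv (h1 : C0a N) {w : N.Group} {a : B → ℝ} : Ess N w⁻¹ a ↔ Ess N w (-a) := by
  rw [C2a_ess, C2a_ess, inv_inv, neg_neg]
  exact ⟨fun h => ⟨h1.root_neg a h.1, h.2.2, h.2.1⟩,
    fun h => ⟨by simpa using h1.root_neg _ h.1, h.2.2, h.2.1⟩⟩

theorem C2a_tri (h1 : C0a N) (h4 : C1a N) (w : N.Group) {a : B → ℝ} (ha : IsRoot N a) :
    Per N w a ∨ Ess N w a ∨ Ess N w (-a) ∨ Evn N w a ∨ Evn N w (-a) := by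
  by_cases h : Per N w a
  · exact Or.inl h
  have hn := h1.root_neg a ha
  simp only [C2a_ess, C2a_evn, neg_neg]
  rcases C2a_dich h1 h4 ha h with k | k <;>
    rcases C2a_dich h1 h4 ha (fun e => h (C2a_per_inv e)) with k' | k'
  · exact Or.inr (Or.inr (Or.inr (Or.inl ⟨ha, k', k⟩)))
  · exact Or.inr (Or.inr (Or.inl ⟨hn, k', k⟩))
  · exact Or.inr (Or.inl ⟨ha, k', k⟩)
  · exact Or.inr (Or.inr (Or.inr (Or.inr ⟨hn, k', k⟩)))

theorem C2a_fin (h1 : C0a N) (h4 : C1a N) (w : N.Group) :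
    ∃ F : Set (B → ℝ), F.Finite ∧ ∀ a, Ess N w a → ∃ k : ℤ, rho N (w ^ k) a ∈ F := by
  have hp := h4.pt0.1
  refine ⟨_, h4.sep_fin _ _ hp (h4.act_mem w⁻¹ _ hp), fun a ha => ?_⟩
  obtain ⟨n, k1, k2⟩ := (ha.2 _ hp).exists
  obtain ⟨k, -, k3, k4⟩ := C2a_ivt (fun k => pt0 B (rho N (w ^ ((k : ℤ) - n)) a)) (n + n)
    (by simpa using k1.le) (by simpa using k2)
  refine ⟨k - n, h1.root_rho _ _ ha.1, k3, ?_⟩
  rw [act_apply, inv_inv, ← rho_mul, ← zpow_one_add]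
  rwa [show (1 : ℤ) + (k - n) = ((k + 1 : ℕ) : ℤ) - n by push_cast; ring]

theorem C2a_bd (h1 : C0a N) (h4 : C1a N) {w : N.Group} (h : ∀ a, ¬ Ess N w a) {b : B → ℝ}
    (hb : IsRoot N b) : ∃ L : ℕ, ∀ n : ℕ, ∃ K : Finset ℕ, K.card ≤ L ∧ ∀ k < n,
      0 < pt0 B (rho N (w ^ k) b) → pt0 B (rho N (w ^ (n - k))⁻¹ b) < 0 →
        ∃ k' ∈ K, rho N (w ^ k') b = rho N (w ^ k) b := by
  rcases C2a_tri h1 h4 w hb with ⟨p, hp, e⟩ | e | e | e | e
  · refine ⟨p, fun n => ⟨Finset.range p, by simp, fun k _ _ _ =>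
      ⟨k % p, Finset.mem_range.2 (Nat.mod_lt k hp), ?_⟩⟩⟩
    conv_rhs => rw [← Nat.mod_add_div k p, pow_add, rho_mul, pow_mul, C2a_fix_pow e]
  · exact (h _ e).elim
  · exact (h _ e).elim
  · obtain ⟨L, hL⟩ := eventually_atTop.1 (e.2 _ h4.pt0.1)
    refine ⟨L, fun n => ⟨Finset.Ico (n - L) n, by simp only [Nat.card_Ico]; omega,
      fun k hk _ k2 => ⟨k, ?_, rfl⟩⟩⟩
    have : ¬ L ≤ n - k := fun e' => lt_asymm k2 (hL _ e').1
    rw [Finset.mem_Ico]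
    omega
  · obtain ⟨L, hL⟩ := eventually_atTop.1 (e.2 _ h4.pt0.1)
    refine ⟨L, fun n => ⟨Finset.range L, by simp, fun k _ k1 _ => ⟨k, ?_, rfl⟩⟩⟩
    refine Finset.mem_range.2 (not_le.1 fun e' => lt_asymm k1 ?_)
    simpa only [map_neg, neg_pos] using (hL _ e').2

theorem C2a_ex (h1 : C0a N) (h4 : C1a N) {w : N.Group} (hw : ¬ IsOfFinOrder w) :
    ∃ a, Ess N w a := by
  classical
  by_contra h
  have hp := h4.pt0.1
  have hF := h4.sep_fin _ _ hp (h4.act_mem w _ hp)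
  choose! L K hK hL using fun b => C2a_bd h1 h4 (not_exists.1 h) (b := b)
  refine Set.infinite_of_injective_forall_mem (injective_pow_iff_not_isOfFinOrder.2 hw)
    (fun n => ?_) (h1.inv_bdd (∑ b ∈ hF.toFinset, L b))
  have hs : Inv N (w ^ n) ⊆
      ↑(hF.toFinset.biUnion fun b => (K b n).image fun k => rho N (w ^ k) b) := by
    rintro a ⟨ha, k1, k2⟩
    have k3 := h4.pt0.2 _ (h1.root_neg _ (h1.root_rho (w ^ n)⁻¹ _ ha)) k2
    rw [map_neg, neg_pos] at k3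
    have k4 := h4.pt0.2 _ ha k1
    obtain ⟨k, hk, k5, k6⟩ := C2a_ivt (fun k => pt0 B (rho N (w ^ k)⁻¹ a)) n
      (by simpa using k4.le) k3
    have hb := h1.root_rho (w ^ k)⁻¹ _ ha
    obtain ⟨k', k7, k8⟩ := hL _ hb n k hk (by rwa [rho_inv']) (by
      rwa [← rho_mul, ← mul_inv_rev, ← pow_add, Nat.add_sub_cancel' hk.le])
    simp only [Finset.coe_biUnion, Set.mem_iUnion, Finset.mem_coe, Finset.mem_image,
      Set.Finite.mem_toFinset]
    refine ⟨_, ⟨hb, k5, ?_⟩, k', k7, by rw [k8, rho_inv']⟩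
    rwa [act_apply, ← rho_mul, ← mul_inv_rev, ← pow_succ]
  refine (Set.ncard_le_ncard hs (Finset.finite_toSet _)).trans ?_
  rw [Set.ncard_coe_finset]
  exact Finset.card_biUnion_le.trans (Finset.sum_le_sum fun b hb =>
    Finset.card_image_le.trans (hK b (hF.mem_toFinset.1 hb).1 n))

theorem C2a_per_ess (h4 : C1a N) {w : N.Group} {d a : B → ℝ} (hd : IsRoot N d) (hp : Per N w d)
    (ha : Ess N w a) : Cross N d a := by
  refine ⟨hd, ha.1, fun e => C2a_nper h4 ha (e ▸ hp),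
    fun e => C2a_nper h4 ha (C2a_per_neg (by rwa [e, neg_neg])), ?_⟩
  obtain ⟨p, hp, e⟩ := hp
  obtain ⟨y, hy, h0⟩ := h4.wall d hd
  obtain ⟨n, k1, k2⟩ := ((C2a_tend hp).eventually (ha.2 y hy)).exists
  have e1 : rho N (w ^ (p * n)) d = d := by rw [pow_mul, C2a_fix_pow e]
  obtain ⟨s, t, -, -, -, k3, k4⟩ := h4.zero (act N (w ^ (p * n)) y) (act N (w ^ (p * n))⁻¹ y) a
    (h4.act_mem _ _ hy) (h4.act_mem _ _ hy) k1.le (by rw [act_apply, inv_inv]; exact k2.le)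
  refine ⟨_, k3, ?_, k4⟩
  simp only [LinearMap.add_apply, LinearMap.smul_apply, act_apply, inv_inv, e1, C2a_fix_inv e1, h0,
    smul_zero, add_zero]

theorem C2a_esspar (h1 : C0a N) (h2 : C0b N) (h4 : C1a N) {w c : N.Group} {T : Set B} {a : B → ℝ}
    (hw : w ∈ cj c (par N T)) (ha : Ess N w a) : Supp T (rho N c⁻¹ a) := by
  have hb := C2a_conj h1 h4 c⁻¹ ha
  rw [inv_inv] at hb
  by_contra h
  obtain ⟨n, k1, k2⟩ := (hb.2 _ h4.pt0.1).exists
  have hu := (par N T).pow_mem (mem_cj.1 hw) n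
  rcases h1.root_pos _ hb.1 with k | k
  · exact lt_asymm k2 (h4.pt0.2 _ (h1.root_rho _ _ hb.1) (h2.pos_par T _ _ hu hb.1 k h))
  · have k3 := h4.pt0.2 _ (h1.root_rho _ _ (h1.root_neg _ hb.1))
      (h2.pos_par T _ _ ((par N T).inv_mem hu) (h1.root_neg _ hb.1) k
        fun e => h fun j hj => neg_eq_zero.1 (e j hj))
    rw [map_neg, map_neg, neg_pos] at k3
    exact lt_asymm k1 k3

theorem C2a_kj (h1 : C0a N) (h4 : C1a N) {g w : N.Group} {a : B → ℝ} (hc : Commute g w)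
    (ha : Ess N w a) : ∃ (k : ℕ) (j : ℤ), 0 < k ∧ rho N (g ^ k) a = rho N (w ^ j) a := by
  obtain ⟨F, hF, h⟩ := C2a_fin h1 h4 w
  have he : ∀ n : ℕ, Ess N w (rho N (g ^ n) a) := fun n => by
    have := C2a_conj h1 h4 (g ^ n) ha
    rwa [(hc.pow_left n).eq, mul_inv_cancel_right] at this
  choose k hk using fun n => h _ (he n)
  obtain ⟨n, m, hnm, e⟩ := hF.exists_lt_map_eq_of_forall_mem hk
  refine ⟨m - n, k n - k m, Nat.sub_pos_of_lt hnm, ?_⟩
  have e2 := congrArg (rho N ((g ^ n)⁻¹ * (w ^ k m)⁻¹)) e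
  simp only [← rho_mul] at e2
  rw [← Nat.add_sub_cancel' hnm.le, pow_add, Nat.add_sub_cancel' hnm.le] at e2
  have e3 : (g ^ n)⁻¹ * (w ^ k m)⁻¹ * (w ^ k n * g ^ n) = w ^ (k n - k m) := by
    rw [sub_eq_neg_add, zpow_add, zpow_neg, mul_assoc, ← mul_assoc (w ^ k m)⁻¹, ← zpow_neg,
      ← zpow_add, ← ((hc.pow_left n).zpow_right _).eq, inv_mul_cancel_left]
  rw [e3, mul_assoc, inv_mul_cancel_left, inv_mul_cancel_left] at e2
  exact e2.symm

/-- the stabiliser of a vector -/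
def C2a_St (K : Subgroup N.Group) (a : B → ℝ) : Subgroup K where
  carrier := {g | rho N g a = a}
  mul_mem' := fun {g h} hg hh => by
    simp only [Set.mem_ofPred_eq, Subgroup.coe_mul, rho_mul] at hg hh ⊢
    rw [hh, hg]
  one_mem' := rho_one N a
  inv_mem' := fun hg => C2a_fix_inv hg

theorem C2a_St_eq (K : Subgroup N.Group) (a : B → ℝ) (g h : K) :
    (g : K ⧸ C2a_St K a) = h ↔ rho N g a = rho N h a := by
  rw [QuotientGroup.eq]
  change rho N ((g : N.Group)⁻¹ * h) a = a ↔ _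
  rw [rho_mul]
  exact ⟨fun e => by rw [← e, rho_inv', e], fun e => by rw [← e, rho_inv]⟩

theorem C2a_mu (h1 : C0a N) (h4 : C1a N) {K : Subgroup N.Group} {a : B → ℝ} (hK : IsComm K)
    (ha : EK N K a) : ∃ μ : K →* Multiplicative ℚ, ∀ g : K,
      (0 < (μ g).toAdd ↔ Ess N g a) ∧ ((μ g).toAdd < 0 ↔ Ess N g (-a)) ∧
        ((μ g).toAdd = 0 ↔ Per N g a) := by
  obtain ⟨g₀, hg, he⟩ := ha
  let : CommGroup K := { (inferInstance : Group K) with
    mul_comm := fun g h => Subtype.ext (hK g g.2 h h.2).eq }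
  let π : K →* K ⧸ C2a_St K a := QuotientGroup.mk' _
  have hπ : ∀ g h : K, π g = π h ↔ rho N g a = rho N h a := C2a_St_eq K a
  obtain ⟨μ, hμ⟩ := C2a_hom (π ⟨g₀, hg⟩) (fun j hj => by
    rw [← map_zpow, ← map_one π, hπ] at hj
    by_contra h0
    refine C2a_nper h4 he ⟨j.natAbs, Int.natAbs_pos.2 h0, ?_⟩
    have hj' : rho N (g₀ ^ j) a = a := by simpa using hj
    rcases Int.natAbs_eq j with e | e
    · rwa [e, zpow_natCast] at hj'
    · rw [e, zpow_neg, zpow_natCast] at hj'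
      simpa using C2a_fix_inv hj') (fun q => by
    obtain ⟨g, rfl⟩ := QuotientGroup.mk'_surjective _ q
    obtain ⟨k, j, hk, e⟩ := C2a_kj h1 h4 (hK g g.2 g₀ hg) he
    exact ⟨k, j, hk, by rw [← map_pow, ← map_zpow, hπ]; simpa using e⟩)
  have p1 : ∀ g : K, 0 < (μ (π g)).toAdd → Ess N g a := fun g h => by
    obtain ⟨k, j, hk, e, e'⟩ := hμ (π g)
    have hj : 0 < j := by
      rw [e', div_pos_iff_of_pos_right (by exact_mod_cast hk)] at h
      exact_mod_cast h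
    obtain ⟨i, rfl⟩ := Int.eq_ofNat_of_zero_le hj.le
    rw [zpow_natCast] at e
    refine (C2a_pow h1 h4 hk).1 ⟨he.1, fun x hx => ?_⟩
    filter_upwards [((C2a_pow h1 h4 (by exact_mod_cast hj : 0 < i)).2 he).2 x hx] with n hn
    have e1 := (hπ ((g ^ k) ^ n) ((⟨g₀, hg⟩ ^ i) ^ n)).1 (by simp only [map_pow, e])
    have e2 := (hπ ((g ^ k) ^ n)⁻¹ ((⟨g₀, hg⟩ ^ i) ^ n)⁻¹).1 (by simp only [map_inv, map_pow, e])
    simp only [Subgroup.coe_inv, Subgroup.coe_pow] at e1 e2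
    rwa [e1, e2]
  have p2 : ∀ g : K, (μ (π g)).toAdd < 0 → Ess N g (-a) := fun g h =>
    (C2a_inv h1).1 (p1 g⁻¹ (by rwa [map_inv, map_inv, toAdd_inv, neg_pos]))
  have p3 : ∀ g : K, (μ (π g)).toAdd = 0 → Per N g a := fun g h => by
    obtain ⟨k, j, hk, e, e'⟩ := hμ (π g)
    have hj : j = 0 := by
      rw [e', div_eq_zero_iff] at h
      exact_mod_cast h.resolve_right (by exact_mod_cast hk.ne')
    rw [hj, zpow_zero, ← map_pow, ← map_one π, hπ] at e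
    exact ⟨k, hk, by simpa using e⟩
  have q3 : ∀ g : K, Ess N g (-a) → ¬ Per N g a := fun g h e =>
    C2a_nper h4 h (C2a_per_neg (by rwa [neg_neg]))
  refine ⟨μ.comp π, fun g => ⟨⟨p1 g, fun h => ?_⟩, ⟨p2 g, fun h => ?_⟩, ⟨p3 g, fun h => ?_⟩⟩⟩ <;>
    rcases lt_trichotomy (μ (π g)).toAdd 0 with k | k | k
  · exact (C2a_nneg h4 h (p2 g k)).elim
  · exact (C2a_nper h4 h (p3 g k)).elim
  · exact k
  · exact k
  · exact (q3 g h (p3 g k)).elim
  · exact (C2a_nneg h4 (p1 g k) h).elim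
  · exact (q3 g (p2 g k) h).elim
  · exact k
  · exact (C2a_nper h4 (p1 g k) h).elim

theorem C2a_hfix (h1 : C0a N) (h4 : C1a N) {K : Subgroup N.Group} {a : B → ℝ} {g h : N.Group}
    (hK : IsComm K) (hg : g ∈ K) (hh : h ∈ K) (hi : Ind2 g h) (ha : EK N K a) :
    ∃ f ∈ K, ¬ IsOfFinOrder f ∧ rho N f a = a := by
  obtain ⟨μ, hμ⟩ := C2a_mu h1 h4 hK ha
  obtain ⟨i, j, hij, e⟩ : ∃ i j : ℤ, ¬ (i = 0 ∧ j = 0) ∧
      i * (μ ⟨g, hg⟩).toAdd + j * (μ ⟨h, hh⟩).toAdd = 0 := by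
    generalize (μ ⟨g, hg⟩).toAdd = x
    generalize (μ ⟨h, hh⟩).toAdd = y
    by_cases hx : x = 0
    · exact ⟨1, 0, by simp, by simp [hx]⟩
    · refine ⟨y.num * x.den, -(x.num * y.den), fun e => ?_, ?_⟩
      · simpa [hx, y.den_ne_zero] using e.2
      · push_cast
        rw [mul_assoc, Rat.den_mul_eq_num, neg_mul, mul_assoc, Rat.den_mul_eq_num]
        ring
  obtain ⟨k, hk, e'⟩ := (hμ (⟨g, hg⟩ ^ i * ⟨h, hh⟩ ^ j)).2.2.1 (by
    rw [map_mul, map_zpow, map_zpow, toAdd_mul, toAdd_zpow, toAdd_zpow, zsmul_eq_mul, zsmul_eq_mul,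
      e])
  simp only [Subgroup.coe_mul, Subgroup.coe_zpow] at e'
  refine ⟨(g ^ i * h ^ j) ^ k, K.pow_mem (K.mul_mem (K.zpow_mem hg i) (K.zpow_mem hh j)) k,
    fun hf => hij ?_, e'⟩
  obtain ⟨m, hm, e2⟩ := isOfFinOrder_iff_pow_eq_one.1 (hf.of_pow hk.ne')
  rw [((hK g hg h hh).zpow_zpow i j).mul_pow, ← zpow_natCast, ← zpow_natCast, ← zpow_mul,
    ← zpow_mul] at e2
  simpa [hm.ne'] using hi _ _ e2

theorem C2a_thm (h1 : St_C0a) (h2 : St_C0b) (h4 : St_C1a) : St_C2a := fun B _ _ N =>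
  have h1 := h1 B N
  have h4 := h4 B N
  { tri := fun w _ => C2a_tri h1 h4 w
    nper := fun _ _ => C2a_nper h4
    nneg := fun _ _ => C2a_nneg h4
    conj := fun g _ _ => C2a_conj h1 h4 g
    pow := fun _ _ _ => C2a_pow h1 h4
    inv := fun _ _ => C2a_inv h1
    crit := fun _ _ _ ha hy h => C2a_crit h1 h4 ha hy (C2a_nper' h)
      (h.mono fun _ e => e.1).frequently (h.mono fun _ e => e.2).frequently
    ex := fun _ => C2a_ex h1 h4
    fin := C2a_fin h1 h4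
    per_ess := fun _ _ _ => C2a_per_ess h4
    esspar := fun _ _ _ _ => C2a_esspar h1 (h2 B N) h4
    kj := fun _ _ _ => C2a_kj h1 h4
    mu := fun _ _ => C2a_mu h1 h4
    hfix := fun _ _ _ _ => C2a_hfix h1 h4 }

end Pool.Agent.Lib.MP_1b8ce0_al.T
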