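import Mathlib
import Pool.Agent.Lib.MP_1b8ce0_al.T.StsA

set_option linter.unusedSectionVars false
set_option linter.dupNamespace false

namespace Pool.Agent.Lib.MP_1b8ce0_al.T

open Pool.Agent.Lib.MP_6d85b4_al Filter

/-- a discrete total order without ends is the order of the integers -/
theorem C2b_order {E : Type} (r : E → E → Prop) (irr : ∀ a, ¬ r a a)
    (tr : ∀ a b c, r a b → r b c → r a c) (tri : ∀ a b, ¬ r a b → ¬ r b a → a = b)
    (fin : ∀ a c, {b | r a b ∧ r b c}.Finite) (hmax : ∀ a, ∃ b, r a b) (hmin : ∀ a, ∃ b, r b a)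
    (ne : Nonempty E) : ∃ β : ℤ ≃ E, ∀ i j, i < j ↔ r (β i) (β j) := by
  classical
  have sto : IsStrictTotalOrder E r := { trichotomous := tri, irrefl := irr, trans := tr }
  let _ : LinearOrder E := linearOrderOfSTO r
  have hlt : ∀ a b : E, a < b ↔ r a b := fun _ _ => Iff.rfl
  let _ : LocallyFiniteOrder E := LocallyFiniteOrder.ofFiniteIcc fun a c => by
    refine (((fin a c).insert c).insert a).subset fun b hb => ?_
    rcases hb.1.eq_or_lt with h1 | h1
    · exact Or.inl h1.symm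
    · rcases hb.2.eq_or_lt with h2 | h2
      · exact Or.inr (Or.inl h2)
      · exact Or.inr (Or.inr ⟨h1, h2⟩)
  let _ : SuccOrder E := LinearLocallyFiniteOrder.succOrder E
  let _ : PredOrder E := LinearLocallyFiniteOrder.predOrder E
  have : NoMaxOrder E := ⟨hmax⟩
  have : NoMinOrder E := ⟨hmin⟩
  refine ⟨(orderIsoIntOfLinearSuccPredArch (ι := E)).symm.toEquiv, fun i j => ?_⟩
  rw [← hlt]
  exact ((orderIsoIntOfLinearSuccPredArch (ι := E)).symm.lt_iff_lt).symm

/-- an increasing surjection of the integers is a translation -/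
theorem C2b_shift (f : ℤ → ℤ) (hf : StrictMono f) (hs : Function.Surjective f) (i : ℤ) :
    f i = i + f 0 := by
  have step : ∀ k, f (k + 1) = f k + 1 := by
    intro k
    obtain ⟨l, hl⟩ := hs (f k + 1)
    have h1 : k < l := hf.lt_iff_lt.mp (by omega)
    have h2 : f (k + 1) ≤ f l := hf.monotone (by omega)
    have h3 : f k < f (k + 1) := hf (by omega)
    omega
  induction i using Int.induction_on with
  | zero => simp
  | succ n ih => rw [step, ih]; ring
  | pred n ih =>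
    have := step (-(n : ℤ) - 1)
    rw [sub_add_cancel] at this
    omega

variable {B : Type} [Fintype B] [DecidableEq B] {N : CoxeterMatrix B}

/-- stabiliser of a vector -/
def C2b_st (N : CoxeterMatrix B) (a : B → ℝ) : Subgroup N.Group where
  carrier := {g | rho N g a = a}
  mul_mem' := fun {g h} hg hh => by
    have hg' : rho N g a = a := hg
    have hh' : rho N h a = a := hh
    show rho N (g * h) a = a
    rw [rho_mul, hh', hg']
  one_mem' := rho_one N a
  inv_mem' := fun {g} hg => by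
    have hg' : rho N g a = a := hg
    show rho N g⁻¹ a = a
    conv_lhs => rw [← hg']
    exact rho_inv N g a

theorem C2b_mem {a : B → ℝ} {g : N.Group} : g ∈ C2b_st N a ↔ rho N g a = a := Iff.rfl

theorem C2b_act_inv (g : N.Group) (x : Pt B) (a : B → ℝ) :
    act N g⁻¹ x a = x (rho N g a) := by
  rw [act_apply, inv_inv]

theorem C2b_per_neg {w : N.Group} {a : B → ℝ} (h : Per N w a) : Per N w (-a) := by
  obtain ⟨k, hk, h⟩ := h
  exact ⟨k, hk, by rw [map_neg, h]⟩

theorem C2b_cross_neg (a0 : C0a N) {a b : B → ℝ} (h : Cross N a b) : Cross N a (-b) := by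
  obtain ⟨ha, hb, h1, h2, x, hx, h3, h4⟩ := h
  refine ⟨ha, a0.root_neg _ hb, fun e => h2 (by rw [← e, neg_neg]), fun e => h1 (neg_injective e),
    x, hx, h3, by rw [map_neg, h4, neg_zero]⟩

theorem C2b_per2 (b1 : C1b N) (h : N.Group) (a b : B → ℝ) (hc : Cross N a b) (ha : Per N h a)
    (hb : Per N h b) : IsOfFinOrder h := by
  obtain ⟨k, hk, ha⟩ := ha
  obtain ⟨l, hl, hb⟩ := hb
  have h1 : h ^ (k * l) ∈ C2b_st N a := by
    rw [pow_mul]
    exact Subgroup.pow_mem _ (C2b_mem.mpr ha) l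
  have h2 : h ^ (k * l) ∈ C2b_st N b := by
    rw [mul_comm, pow_mul]
    exact Subgroup.pow_mem _ (C2b_mem.mpr hb) k
  exact isOfFinOrder_iff_pow_eq_one.mpr ⟨k * l, Nat.mul_pos hk hl, b1.fix2 a b _ hc h1 h2⟩

/-- an even wall crossing a periodic wall -/
theorem C2b_line0 (a1 : C1a N) (b1 : C1b N) (a2 : C2a N) {h : N.Group} {d e a : B → ℝ} {y : Pt B}
    (hd : IsRoot N d) (hp : Per N h d) (he : Evn N h e) (h1 : e ≠ d) (h2 : e ≠ -d)
    (ha : Ess N h a) (hy : InI N y) (hyd : y d = 0) (hya : y a = 0) : 0 < y e := by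
  have hda : d ≠ a := fun E => a2.nper h a ha (E ▸ hp)
  have hda' : d ≠ -a := fun E => a2.nper h a ha (by
    have := C2b_per_neg hp
    rwa [E, neg_neg] at this)
  obtain ⟨p, hp0, hp⟩ := hp
  obtain ⟨n, hn⟩ := eventually_atTop.mp ((ha.2 y hy).and (he.2 y hy))
  obtain ⟨⟨q1, q2⟩, q3, q4⟩ := hn (p * n) (Nat.le_mul_of_pos_left n hp0)
  have hg : h ^ (p * n) ∈ C2b_st N d := by
    rw [pow_mul]
    exact Subgroup.pow_mem _ (C2b_mem.mpr hp) n
  generalize h ^ (p * n) = g at q1 q2 q3 q4 hg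
  have hg1 : rho N g d = d := hg
  have hg2 : rho N g⁻¹ d = d := (C2b_st N d).inv_mem hg
  rcases lt_trichotomy 0 (y e) with h0 | h0 | h0
  · exact h0
  · exfalso
    obtain ⟨s, t, hst⟩ := b1.rank2 y a d e hy ha.1 hd he.1 hda hda' hya hyd h0.symm
    rw [hst] at q3 q4
    simp only [map_add, map_smul, hg1, hg2, hyd, smul_eq_mul, mul_zero, add_zero] at q3 q4
    nlinarith [mul_pos q3 q4, mul_pos q1 (neg_pos.mpr q2), sq_nonneg s]
  · exfalso
    have key : ∀ u : N.Group, rho N u d = d → 0 < y (rho N u e) →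
        ∃ (z : Pt B) (s : ℝ), 0 < s ∧ InI N z ∧ z d = 0 ∧ z e = 0 ∧ z a = s * y (rho N u a) := by
      intro u hu hue
      obtain ⟨s, t, hs, ht, hst, hz, hz0⟩ := a1.zero (act N u⁻¹ y) y e (a1.act_mem _ _ hy) hy
        (by rw [C2b_act_inv]; exact hue.le) h0.le
      rw [C2b_act_inv] at hz0
      refine ⟨s • act N u⁻¹ y + t • y, s, ?_, hz, ?_, ?_, ?_⟩
      · rcases hs.eq_or_lt with hs | hs
        · exfalso
          have ht1 : t = 1 := by linarith
          rw [← hs, ht1] at hz0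
          linarith
        · exact hs
      · simp only [LinearMap.add_apply, LinearMap.smul_apply, C2b_act_inv, hu, hyd, smul_zero,
          add_zero]
      · simp only [LinearMap.add_apply, LinearMap.smul_apply, C2b_act_inv, smul_eq_mul, hz0]
      · simp only [LinearMap.add_apply, LinearMap.smul_apply, C2b_act_inv, smul_eq_mul, hya,
          mul_zero, add_zero]
    obtain ⟨z, s, hs, hz, hz1, hz2, hz3⟩ := key g⁻¹ hg2 q3
    obtain ⟨z', s', hs', hz', hz1', hz2', hz3'⟩ := key g hg1 q4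
    have := b1.face_eq z z' d e a hz hz' hd he.1 ha.1 h1 h2 hz1 hz2 hz1' hz2'
      (by rw [hz3]; exact mul_pos hs q1)
    rw [hz3'] at this
    nlinarith [mul_pos hs' (neg_pos.mpr q2)]

theorem C2b_line (a0 : C0a N) (a1 : C1a N) (b1 : C1b N) (a2 : C2a N) (h : N.Group) (d e : B → ℝ)
    (hh : ¬ IsOfFinOrder h) (hd : IsRoot N d) (hp : Per N h d) (he : IsRoot N e) (h1 : e ≠ d)
    (h2 : e ≠ -d) (h3 : ¬ Ess N h e) (h4 : ¬ Ess N h (-e)) : ∃ ε : ℝ, (ε = 1 ∨ ε = -1) ∧
      ∀ a y, Ess N h a → InI N y → y d = 0 → y a = 0 → 0 < ε * y e := by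
  by_cases hc : Cross N d e
  · rcases a2.tri h e he with h5 | h5 | h5 | h5 | h5
    · exact absurd (C2b_per2 b1 h d e hc hp h5) hh
    · exact absurd h5 h3
    · exact absurd h5 h4
    · refine ⟨1, Or.inl rfl, fun a y ha hy hyd hya => ?_⟩
      rw [one_mul]
      exact C2b_line0 a1 b1 a2 hd hp h5 h1 h2 ha hy hyd hya
    · refine ⟨-1, Or.inr rfl, fun a y ha hy hyd hya => ?_⟩
      have hc' := C2b_cross_neg a0 hc
      have := C2b_line0 a1 b1 a2 hd hp h5 hc'.2.2.1 hc'.2.2.2.1 ha hy hyd hya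
      rw [map_neg] at this
      linarith
  · rcases b1.side d e hd he h1 h2 hc with h5 | h5
    · exact ⟨1, Or.inl rfl, fun a y _ hy hyd _ => by rw [one_mul]; exact h5 y hy hyd⟩
    · exact ⟨-1, Or.inr rfl, fun a y _ hy hyd _ => by linarith [h5 y hy hyd]⟩

theorem C2b_noz2 (b1 : C1b N) (a2 : C2a N) (g h : N.Group) (a : B → ℝ) (hc : Commute g h)
    (ha : IsRoot N a) (hg : Per N g a) (hh : Per N h a) : ¬ Ind2 g h := by
  intro hi
  have hinf : ¬ IsOfFinOrder g := by
    intro hf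
    obtain ⟨n, hn, h1⟩ := isOfFinOrder_iff_pow_eq_one.mp hf
    have := (hi n 0 (by rw [zpow_natCast, h1, zpow_zero, one_mul])).1
    omega
  obtain ⟨b, hb⟩ := a2.ex g hinf
  have hab := a2.per_ess g a b ha hg hb
  obtain ⟨k, j, hk, hkj⟩ := a2.kj h g b hc.symm hb
  obtain ⟨p, hp, hg⟩ := hg
  obtain ⟨q, hq, hh⟩ := hh
  have hpow : ∀ n : ℕ, (g ^ (-j) * h ^ (k : ℤ)) ^ n = g ^ (-j * n) * h ^ ((k : ℤ) * n) := by
    intro n
    rw [(hc.zpow_zpow (-j) k).mul_pow, ← zpow_natCast, ← zpow_natCast, ← zpow_mul, ← zpow_mul]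
  have hfa : Per N (g ^ (-j) * h ^ (k : ℤ)) a := by
    refine ⟨p * q, Nat.mul_pos hp hq, ?_⟩
    rw [hpow, ← C2b_mem]
    refine (C2b_st N a).mul_mem ?_ ?_
    · have e : g ^ (-j * ((p * q : ℕ) : ℤ)) = (g ^ p) ^ (-j * q) := by
        rw [← zpow_natCast, ← zpow_mul]
        congr 1
        push_cast
        ring
      rw [e]
      exact Subgroup.zpow_mem _ (C2b_mem.mpr hg) _
    · have e : h ^ ((k : ℤ) * ((p * q : ℕ) : ℤ)) = (h ^ q) ^ ((k : ℤ) * p) := by
        rw [← zpow_natCast, ← zpow_mul]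
        congr 1
        push_cast
        ring
      rw [e]
      exact Subgroup.zpow_mem _ (C2b_mem.mpr hh) _
  have hfb : Per N (g ^ (-j) * h ^ (k : ℤ)) b := by
    refine ⟨1, one_pos, ?_⟩
    rw [pow_one, rho_mul, zpow_natCast, hkj, zpow_neg, rho_inv]
  obtain ⟨n, hn, h1⟩ := isOfFinOrder_iff_pow_eq_one.mp (C2b_per2 b1 _ a b hab hfa hfb)
  rw [hpow] at h1
  have h2 := (hi _ _ h1).2
  have h3 : (0 : ℤ) < (k : ℤ) * n := by positivity
  omega

/-- the order of the essential walls -/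
def C2b_lt (N : CoxeterMatrix B) (a a' : B → ℝ) : Prop := ∀ x, InI N x → 0 ≤ x a' → 0 < x a

theorem C2b_lt_rho (a1 : C1a N) (g : N.Group) {a a' : B → ℝ} (h : C2b_lt N a a') :
    C2b_lt N (rho N g a) (rho N g a') := by
  intro x hx h1
  rw [← C2b_act_inv] at h1 ⊢
  exact h _ (a1.act_mem _ _ hx) h1

theorem C2b_total (a1 : C1a N) (b1 : C1b N) (a2 : C2a N) {w : N.Group} (hA : CaseA N w)
    {a a' : B → ℝ} (ha : Ess N w a) (ha' : Ess N w a') (h1 : ¬ C2b_lt N a a')
    (h2 : ¬ C2b_lt N a' a) : a = a' := by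
  by_contra hne
  have hne' : a' ≠ -a := fun E => a2.nneg w a ha (E ▸ ha')
  rcases b1.side a a' ha.1 ha'.1 (Ne.symm hne) hne' (hA a a' ha ha') with h | h
  · refine h2 fun x hx hxa => ?_
    by_contra hxa'
    obtain ⟨n, q1, q2⟩ := ((ha.2 x hx).and (ha'.2 x hx)).exists
    obtain ⟨s, t, hs, ht, hst, hz, hz0⟩ := a1.zero x (act N (w ^ n)⁻¹ x) a hx
      (a1.act_mem _ _ hx) hxa (by rw [C2b_act_inv]; exact q1.2.le)
    have := h _ hz (by simpa only [LinearMap.add_apply, LinearMap.smul_apply, smul_eq_mul] using hz0)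
    simp only [LinearMap.add_apply, LinearMap.smul_apply, smul_eq_mul, C2b_act_inv] at this
    nlinarith [mul_nonneg hs (neg_nonneg.mpr (not_lt.mp hxa')),
      mul_nonneg ht (neg_nonneg.mpr q2.2.le)]
  · refine h1 fun x hx hxa' => ?_
    by_contra hxa
    obtain ⟨n, q1, q2⟩ := ((ha.2 x hx).and (ha'.2 x hx)).exists
    obtain ⟨s, t, hs, ht, hst, hz, hz0⟩ := a1.zero (act N (w ^ n) x) x a
      (a1.act_mem _ _ hx) hx (by rw [act_apply]; exact q1.1.le) (not_lt.mp hxa)
    have := h _ hz (by simpa only [LinearMap.add_apply, LinearMap.smul_apply, smul_eq_mul] using hz0)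
    simp only [LinearMap.add_apply, LinearMap.smul_apply, smul_eq_mul, act_apply] at this
    nlinarith [mul_nonneg hs q2.1.le, mul_nonneg ht hxa']

theorem C2b_ess_rho (a2 : C2a N) {g w : N.Group} (hg : Commute g w) {a : B → ℝ}
    (ha : Ess N w a) : Ess N w (rho N g a) := by
  have := a2.conj g w a ha
  rwa [hg.eq, mul_inv_cancel_right] at this

theorem C2b_chain (a1 : C1a N) (b1 : C1b N) (a2 : C2a N) (w : N.Group) (hw : ¬ IsOfFinOrder w)
    (hA : CaseA N w) : ∃ β lam, Chain N w β lam := by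
  have hww : Commute w w := Commute.refl w
  have hmove : ∀ a, Ess N w a → C2b_lt N a (rho N w a) ∨ C2b_lt N (rho N w a) a := by
    intro a ha
    by_contra hn
    rw [not_or] at hn
    have := C2b_total a1 b1 a2 hA ha (C2b_ess_rho a2 hww ha) hn.1 hn.2
    exact a2.nper w a ha ⟨1, one_pos, by rw [pow_one]; exact this.symm⟩
  obtain ⟨β, hβ⟩ := C2b_order (E := {a // Ess N w a}) (fun a a' => C2b_lt N a.1 a'.1)
    (fun a h => by
      obtain ⟨y, hy, h0⟩ := a1.wall a.1 a.2.1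
      have := h y hy h0.ge
      linarith)
    (fun a b c h1 h2 x hx h3 => h1 x hx (h2 x hx h3).le)
    (fun a b h1 h2 => Subtype.ext (C2b_total a1 b1 a2 hA a.2 b.2 h1 h2))
    (fun a c => by
      obtain ⟨y, hy, h0⟩ := a1.wall c.1 c.2.1
      obtain ⟨y', hy', h0'⟩ := a1.wall a.1 a.2.1
      refine ((a1.sep_fin y y' hy hy').preimage Subtype.val_injective.injOn).subset ?_
      rintro b ⟨h1, h2⟩
      refine ⟨b.2.1, (h2 y hy h0.ge).le, ?_⟩
      by_contra h3
      have := h1 y' hy' (not_le.mp h3).le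
      linarith)
    (fun a => by
      rcases hmove a.1 a.2 with h | h
      · exact ⟨⟨_, C2b_ess_rho a2 hww a.2⟩, h⟩
      · refine ⟨⟨_, C2b_ess_rho a2 hww.inv_left a.2⟩, ?_⟩
        have := C2b_lt_rho a1 w⁻¹ h
        rwa [rho_inv] at this)
    (fun a => by
      rcases hmove a.1 a.2 with h | h
      · refine ⟨⟨_, C2b_ess_rho a2 hww.inv_left a.2⟩, ?_⟩
        have := C2b_lt_rho a1 w⁻¹ h
        rwa [rho_inv] at this
      · exact ⟨⟨_, C2b_ess_rho a2 hww a.2⟩, h⟩)
    (by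
      obtain ⟨a, ha⟩ := a2.ex w hw
      exact ⟨⟨a, ha⟩⟩)
  have hsh : ∀ g, ∃ c : ℤ, Commute g w → ∀ i, rho N g (β i).1 = (β (i + c)).1 := by
    intro g
    by_cases hg : Commute g w
    · obtain ⟨f, hf⟩ : ∃ f : ℤ → ℤ, ∀ i, (β (f i)).1 = rho N g (β i).1 :=
        ⟨fun i => β.symm ⟨_, C2b_ess_rho a2 hg (β i).2⟩, fun i => by rw [Equiv.apply_symm_apply]⟩
      have hmono : StrictMono f := by
        intro i j hij
        rw [hβ, hf, hf]
        exact C2b_lt_rho a1 g ((hβ i j).mp hij)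
      have hsurj : Function.Surjective f := by
        intro i
        refine ⟨β.symm ⟨_, C2b_ess_rho a2 hg.inv_left (β i).2⟩, β.injective (Subtype.ext ?_)⟩
        rw [hf, Equiv.apply_symm_apply, rho_inv']
      exact ⟨f 0, fun _ i => by rw [← C2b_shift f hmono hsurj i, hf]⟩
    · exact ⟨0, fun h => absurd h hg⟩
  choose lam hlam using hsh
  refine ⟨fun i => (β i).1, lam, fun i => (β i).2, fun a ha => ⟨β.symm ⟨a, ha⟩, ?_⟩,
    fun i j hij => (hβ i j).mp hij, hlam⟩
  rw [Equiv.apply_symm_apply]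

/-- commuting elements that move a root in the same way -/
theorem C2b_ess_congr {u v : N.Group} {e : B → ℝ} (hc : Commute u v)
    (h : rho N u e = rho N v e) (he : Ess N v e) : Ess N u e := by
  have hf : v⁻¹ * u ∈ C2b_st N e := by
    rw [C2b_mem, rho_mul, h, rho_inv]
  have hcf : Commute v (v⁻¹ * u) := (Commute.refl v).inv_right.mul_right hc.symm
  have hu : ∀ n : ℕ, u ^ n = v ^ n * (v⁻¹ * u) ^ n := by
    intro n
    rw [← hcf.mul_pow, mul_inv_cancel_left]
  have h1 : ∀ n : ℕ, rho N (u ^ n) e = rho N (v ^ n) e := by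
    intro n
    rw [hu, rho_mul, C2b_mem.mp (Subgroup.pow_mem _ hf n)]
  have h2 : ∀ n : ℕ, rho N (u ^ n)⁻¹ e = rho N (v ^ n)⁻¹ e := by
    intro n
    rw [hu, (hcf.pow_pow n n).eq, mul_inv_rev, rho_mul,
      C2b_mem.mp ((C2b_st N e).inv_mem (Subgroup.pow_mem _ hf n))]
  refine ⟨he.1, fun x hx => (he.2 x hx).mono fun n hn => ?_⟩
  rw [h1, h2]
  exact hn

theorem C2b_a0 (a0 : C0a N) (a1 : C1a N) (b1 : C1b N) (t1 : C1t N) (a2 : C2a N) (w : N.Group)
    (hw : ¬ IsOfFinOrder w) (hA : CaseA N w) (hP : ∀ a, IsRoot N a → ¬ Per N w a)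
    (g h : N.Group) (hg : Commute g w) (hh : Commute h w) : Commute g h := by
  obtain ⟨β, lam, hc⟩ := C2b_chain a1 b1 a2 w hw hA
  have key : ∀ f, Commute f w → rho N f (β 0) = β 0 → f = 1 := by
    intro f hf h0
    by_cases hfin : IsOfFinOrder f
    · rcases t1.torc f w hfin hf hw with h1 | ⟨a, ha⟩
      · exact h1
      · exfalso
        refine hP a (a0.refl_isRoot f a ha) ?_
        rcases (a0.refl_comm w f a ha).mp hf.symm with h2 | h2
        · exact ⟨1, one_pos, by rw [pow_one, h2]⟩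
        · exact ⟨2, two_pos, by rw [pow_two, rho_mul, h2, map_neg, h2, neg_neg]⟩
    · exfalso
      obtain ⟨e, he⟩ := a2.ex f hfin
      have hx := a2.per_ess f (β 0) e (hc.ess 0).1 ⟨1, one_pos, by rw [pow_one, h0]⟩ he
      obtain ⟨k, j, hk, hkj⟩ := a2.kj w f e hf.symm he
      rcases lt_trichotomy j 0 with hj | hj | hj
      · obtain ⟨m, rfl⟩ : ∃ m : ℕ, j = -(m : ℤ) := ⟨j.natAbs, by omega⟩
        have h1 : Ess N (f⁻¹ ^ m) (-e) :=
          (a2.pow _ _ m (by omega)).mpr ((a2.inv f (-e)).mpr (by rwa [neg_neg]))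
        have h2 : Ess N (w ^ k) (-e) := by
          refine C2b_ess_congr (hf.symm.inv_right.pow_pow k m) ?_ h1
          rw [map_neg, map_neg, hkj, zpow_neg, zpow_natCast, inv_pow]
        exact hA _ _ (hc.ess 0) ((a2.pow _ _ k hk).mp h2) (C2b_cross_neg a0 hx)
      · rw [hj, zpow_zero, rho_one] at hkj
        exact hP e he.1 ⟨k, hk, hkj⟩
      · obtain ⟨m, rfl⟩ : ∃ m : ℕ, j = (m : ℤ) := ⟨j.natAbs, by omega⟩
        have h1 : Ess N (f ^ m) e := (a2.pow _ _ m (by omega)).mpr he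
        have h2 : Ess N (w ^ k) e := by
          refine C2b_ess_congr (hf.symm.pow_pow k m) ?_ h1
          rw [hkj, zpow_natCast]
        exact hA _ _ (hc.ess 0) ((a2.pow _ _ k hk).mp h2) hx
  have h1 := key ((h * g)⁻¹ * (g * h)) ((hh.mul_left hg).inv_left.mul_left (hg.mul_left hh)) (by
    have e : rho N (g * h) (β 0) = rho N (h * g) (β 0) := by
      rw [rho_mul, rho_mul, hc.shift h hh, hc.shift g hg, hc.shift g hg, hc.shift h hh,
        add_right_comm]
    rw [rho_mul, e, rho_inv])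
  exact (inv_mul_eq_one.mp h1).symm

theorem C2b_thm (h1 : St_C0a) (h4 : St_C1a) (h5 : St_C1b) (h6 : St_C1t) (h7 : St_C2a) :
    St_C2b := fun B _ _ N hN =>
  { line := C2b_line (h1 B N) (h4 B N) (h5 B N hN) (h7 B N)
    per2 := C2b_per2 (h5 B N hN)
    noz2 := C2b_noz2 (h5 B N hN) (h7 B N)
    chain := C2b_chain (h4 B N) (h5 B N hN) (h7 B N)
    a0 := C2b_a0 (h1 B N) (h4 B N) (h5 B N hN) (h6 B N hN) (h7 B N) }

end Pool.Agent.Lib.MP_1b8ce0_al.T
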