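import Mathlib
import Pool.Agent.Lib.MP_1b8ce0_al.T.StsA

set_option linter.dupNamespace false

namespace Pool.Agent.Lib.MP_1b8ce0_al.T

open Pool.Agent.Lib.MP_6d85b4_al Real

theorem CH_mono {m j k : ℕ} (hm : 2 ≤ m) (h1 : j ≤ k) (h2 : k + j ≤ m) : ch m j ≤ ch m k := by
  have hs := sin_pos_m hm
  have a0 : (0 : ℝ) < m := by exact_mod_cast (by omega : 0 < m)
  have a1 : (j : ℝ) ≤ k := by exact_mod_cast h1
  have a2 : (k : ℝ) + j ≤ m := by exact_mod_cast h2
  have a3 : (0 : ℝ) ≤ j := Nat.cast_nonneg j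
  have hx : 0 < π / m := div_pos pi_pos a0
  have e : (m : ℝ) * (π / m) = π := mul_div_cancel₀ _ a0.ne'
  refine le_of_mul_le_mul_right ?_ hs
  rw [ch_sin, ch_sin, ← sub_nonneg, sin_sub_sin]
  generalize π / m = x at hx e
  refine mul_nonneg (mul_nonneg zero_le_two (sin_nonneg_of_nonneg_of_le_pi ?_ ?_))
    (cos_nonneg_of_neg_pi_div_two_le_of_le ?_ ?_) <;> nlinarith [pi_pos]

theorem CH_cos {n m : ℕ} (hn : 0 < n) (h : n ≤ m) : cos (π / n) ≤ cos (π / m) := by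
  have a0 : (1 : ℝ) ≤ n := by exact_mod_cast hn
  have a1 : (n : ℝ) ≤ m := by exact_mod_cast h
  refine cos_le_cos_of_nonneg_of_le_pi (by positivity) (div_le_self pi_pos.le a0) ?_
  exact div_le_div_of_nonneg_left pi_pos.le (by linarith) a1

theorem CH_two (m : ℕ) : ch m 2 = 2 * cos (π / m) := by simp [ch, MP_6d85b4_al.sq]

theorem CH_six {m : ℕ} (h : 6 ≤ m) : 3 ≤ ch m 2 ^ 2 := by
  have h1 := CH_cos (by norm_num) h
  rw [Nat.cast_ofNat, cos_pi_div_six] at h1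
  have h2 : √3 ^ 2 = 3 := sq_sqrt (by norm_num)
  rw [CH_two]
  nlinarith [sqrt_nonneg 3]

theorem CH_thm : St_CH := by
  intro m k hm
  have r : ∀ k, ch m (k + 2) = ch m 2 * ch m (k + 1) - ch m k := fun k => by
    rw [CH_two]; rfl
  have h1 : ch m 1 = 1 := rfl
  refine ⟨rfl, rfl, CH_two m, r k, fun h => ?_, fun a b => ?_, fun a b => CH_mono hm a b,
    fun a b => ?_, fun h => ?_, fun h => ?_, CH_six, ?_⟩
  · have h0 : (m : ℝ) ≠ 0 := by exact_mod_cast (by omega : m ≠ 0)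
    refine ch_val hm ?_
    rw [ch_sin, Nat.cast_sub h, sub_mul, mul_div_cancel₀ _ h0, sin_pi_sub]
  · exact h1 ▸ CH_mono hm a b
  · have h2 := CH_mono hm a b
    have h3 := CH_six (by omega : 6 ≤ m)
    have h4 := r 1
    rw [h1] at h4
    change ch m 3 = ch m 2 * ch m 2 - 1 at h4
    nlinarith
  · have h2 := CH_cos (by norm_num) h
    rw [Nat.cast_ofNat, cos_pi_div_three] at h2
    rw [CH_two]
    linarith
  · have h2 := CH_cos (by norm_num) h
    rw [Nat.cast_ofNat, cos_pi_div_four] at h2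
    have h3 : √2 ^ 2 = 2 := sq_sqrt (by norm_num)
    rw [CH_two]
    nlinarith [sqrt_nonneg 2]
  · have h2 := sin_pos_m hm
    have h3 := sin_sq_add_cos_sq (π / m)
    rw [CH_two]
    nlinarith

end Pool.Agent.Lib.MP_1b8ce0_al.T
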