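import Pool.Agent.Lib.MP_1b8ce0_al.T.StsA

set_option linter.unusedSectionVars false
set_option linter.dupNamespace false

namespace Pool.Agent.Lib.MP_1b8ce0_al.T

open Pool.Agent.Lib.MP_6d85b4_al Filter

/-! ### centralisers in two dimensional Coxeter groups -/

/-- the chamber along a panel, and its uniqueness -/
def St_PAN : Prop := ∀ (B : Type) [Fintype B] [DecidableEq B] (N : CoxeterMatrix B), NoSph N →
  (∀ (y1 y2 : Pt B) (d e1 e2 : B → ℝ), InI N y1 → InI N y2 → IsRoot N d → IsRoot N e1 →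
    IsRoot N e2 → y1 d = 0 → y2 d = 0 → y1 e1 = 0 → y2 e2 = 0 → 0 < y2 e1 → 0 < y1 e2 →
    (∀ a, IsRoot N a → y1 a = 0 → a = d ∨ a = -d ∨ a = e1 ∨ a = -e1) →
    (∀ a, IsRoot N a → y2 a = 0 → a = d ∨ a = -d ∨ a = e2 ∨ a = -e2) →
    Sep N y1 y2 = ∅ → Sep N y2 y1 = ∅ →
    ∃ c l p1 p2, rho N c (al l) = d ∧ rho N c (al p1) = e1 ∧ rho N c (al p2) = e2 ∧
      N l p1 = 2 ∧ N l p2 = 2) ∧
  ∀ c c' l p l' p', N l p = 2 → rho N c (al l) = rho N c' (al l') →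
    rho N c (al p) = rho N c' (al p') → c = c' ∧ l = l' ∧ p = p'

/-- case A with a periodic wall -/
def St_SA : Prop := ∀ (B : Type) [Fintype B] [DecidableEq B] (N : CoxeterMatrix B), NoSph N →
  ∀ w, ¬ IsOfFinOrder w → CaseA N w → (∃ d, IsRoot N d ∧ Per N w d) → ∃ c P L, ProdA N w c P L

/-- consequences of the product structure -/
def St_SAC : Prop := ∀ (B : Type) [Fintype B] [DecidableEq B] (N : CoxeterMatrix B), NoSph N →
  ∀ w c P L, ¬ IsOfFinOrder w → CaseA N w → ProdA N w c P L → Indep N P ∧ Indep N L ∧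
    (∀ u ∈ par N P, ∀ v ∈ par N L, ∀ u' ∈ par N P, ∀ v' ∈ par N L, u * v = u' * v' →
      u = u' ∧ v = v') ∧
    (∀ u ∈ par N P, ∀ v ∈ par N L, ∀ u' ∈ par N P, ∀ v' ∈ par N L,
      Commute (c * (u * v) * c⁻¹) w → Commute (c * (u' * v') * c⁻¹) w → Commute u u') ∧
    ∀ u ∈ par N P, ∀ v ∈ par N L, w = c * (u * v) * c⁻¹ → v * v = 1

/-- case B -/
def St_CB : Prop := ∀ (B : Type) [Fintype B] [DecidableEq B] (N : CoxeterMatrix B), NoSph N →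
  (∀ w a b, Ess N w a → Ess N w b → Cross N a b → ∃ K : Subgroup N.Group, w ∈ K ∧ IsComm K ∧
    (∀ g h, Commute g w → Commute h w → g ∉ K → h ∉ K → g * h ∈ K) ∧
    ∀ g, Commute g w → Nrm g K) ∧
  ∀ (w g h : N.Group) (n : ℕ), ¬ IsOfFinOrder w → Commute g w → Commute h w → Commute g h →
    0 < n → g ^ n = h ^ n → sg N g = sg N h → g = h

/-- three directions -/
def St_FJ : Prop := ∀ (B : Type) [Fintype B] [DecidableEq B] (N : CoxeterMatrix B), NoSph N →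
  ∀ (K : Subgroup N.Group) (w g b : N.Group) a1 a2, IsComm K → w ∈ K → g ∈ K → Ind2 g w →
    Ess N w a1 → Ess N w a2 → Cross N a1 a2 → Nrm b K → Commute b w →
    (∀ n : ℕ, 0 < n → ¬ Commute b (g ^ n)) → ∃ a e f, Tri N K a e f

/-- a minimal triangle is a chamber -/
def St_FT : Prop := ∀ (B : Type) [Fintype B] [DecidableEq B] (N : CoxeterMatrix B), NoSph N →
  ∀ (K : Subgroup N.Group) (w g : N.Group) a e f, IsComm K → w ∈ K → g ∈ K → Ind2 g w →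
    Tri N K a e f → ∃ c i j k, Tri0 N i j k ∧ EK N K (rho N c (al i)) ∧
      EK N K (rho N c (al j)) ∧ EK N K (rho N c (al k))

/-- the flat is tiled by the triangle -/
def St_FA : Prop := ∀ (B : Type) [Fintype B] [DecidableEq B] (N : CoxeterMatrix B), NoSph N →
  ∀ (K : Subgroup N.Group) (w g c : N.Group) i j k, IsComm K → w ∈ K → g ∈ K → Ind2 g w →
    Tri0 N i j k → EK N K (rho N c (al i)) → EK N K (rho N c (al j)) → EK N K (rho N c (al k)) →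
    (∀ b, Nrm b K → b ∈ cj c (par N {i, j, k})) ∧
      ∃ h ∈ par N {i, j, k}, ¬ IsOfFinOrder h ∧ ∃ a e, IsRoot N a ∧ IsRoot N e ∧ e ≠ a ∧ e ≠ -a ∧
        Supp {i, j, k} a ∧ Supp {i, j, k} e ∧ rho N h a = a ∧ rho N h e = e

/-- the triangle is Euclidean -/
def St_EUC : Prop := ∀ (B : Type) [Fintype B] [DecidableEq B] (N : CoxeterMatrix B), NoSph N →
  ∀ i j k h a e, Tri0 N i j k → h ∈ par N {i, j, k} → ¬ IsOfFinOrder h → IsRoot N a →
    IsRoot N e → e ≠ a → e ≠ -a → Supp {i, j, k} a → Supp {i, j, k} e → rho N h a = a →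
    rho N h e = e → (N i j = 3 ∧ N j k = 3 ∧ N i k = 3) ∨
      ∃ i' j' k', ({i', j', k'} : Set B) = {i, j, k} ∧ (Tri4 N i' j' k' ∨ Tri6 N i' j' k')

/-- the plane model of `(4,4,2)` -/
structure ModF {B : Type} [Fintype B] [DecidableEq B] (N : CoxeterMatrix B) (i j k : B)
    (μ : par N {i, j, k} →* Equiv.Perm (ℤ × ℤ)) : Prop where
  form : ∀ g, ∃ e1 e2 p q, (e1 = 1 ∨ e1 = -1) ∧ (e2 = 1 ∨ e2 = -1) ∧
    (Diag (μ g) e1 e2 p q ∨ Swp (μ g) e1 e2 p q)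
  ex : ∀ e1 e2 p q, (e1 = 1 ∨ e1 = -1) → (e2 = 1 ∨ e2 = -1) →
    (∃ g, Diag (μ g) e1 e2 p q) ∧ ∃ g, Swp (μ g) e1 e2 p q
  r1 : ∀ g p, Diag (μ g) (-1) 1 p 0 → IsRefl N g
  r2 : ∀ g q, Diag (μ g) 1 (-1) 0 q → IsRefl N g
  r3 : ∀ g p, Swp (μ g) 1 1 p (-p) → IsRefl N g
  r4 : ∀ g p, Swp (μ g) (-1) (-1) p p → IsRefl N g
  cd : ∀ (χ : N.Group →* ℤˣ) g e1 e2 p q, Diag (μ g) e1 e2 p q →
    χ g = (χ (sr N i) * χ (sr N k)) ^ (p + q) * if e1 = e2 then 1 else χ (sr N i)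
  cs : ∀ (χ : N.Group →* ℤˣ) g e1 e2 p q, Swp (μ g) e1 e2 p q →
    χ g = χ (sr N j) * (χ (sr N i) * χ (sr N k)) ^ (p + q) * if e1 = e2 then 1 else χ (sr N i)

def St_MODEL : Prop := ∀ (B : Type) [Fintype B] [DecidableEq B] (N : CoxeterMatrix B) i j k,
  Tri4 N i j k → (∃ μ, Model N i j k μ) ∧ ∀ μ, Model N i j k μ → ModF N i j k μ

/-- translations of `(6,3,2)` lie in the kernel of every character -/
def St_G2 : Prop := ∀ (B : Type) [Fintype B] [DecidableEq B] (N : CoxeterMatrix B) i j k,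
  Tri6 N i j k → ∀ g ∈ par N {i, j, k}, ∀ w ∈ par N {i, j, k}, Commute g w → Ind2 g w →
    ∀ χ : N.Group →* ℤˣ, χ g = 1

/-- properties of an exotic pair -/
structure ExF {B : Type} [Fintype B] [DecidableEq B] (N : CoxeterMatrix B) (c : N.Group)
    (i j k : B) (g h : N.Group) : Prop where
  inf : ¬ IsOfFinOrder g
  cg : ∀ χ : N.Group →* ℤˣ, χ g = χ (sr N i) * χ (sr N k)
  chh : ∀ χ : N.Group →* ℤˣ, χ h = χ (sr N j)
  cmi : ¬ IsOfFinOrder (cm g h)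
  mem : g ∈ cj c (par N {i, j, k}) ∧ h ∈ cj c (par N {i, j, k})
  cen : ∀ u, Commute u g → u ∈ cj c (par N {i, j, k})
  oth : ∀ u, Exo N g u → u ∈ cj c (par N {i, j, k})
  fin : ∀ u, Commute u g → sg N u = -1 → (h * u) ^ 2 = (u * h) ^ 2 →
    IsRefl N (g * h * u * h)⁻¹

def St_EXF : Prop := ∀ (B : Type) [Fintype B] [DecidableEq B] (N : CoxeterMatrix B), NoSph N →
  ∀ c i j k g h, ExoAt N c i j k g h → ExF N c i j k g h

/-! ### images of edges -/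

/-- use of the cocycle -/
structure NF {B : Type} [Fintype B] [DecidableEq B] {N : CoxeterMatrix B} {G : Type} [Group G]
    {ψ : G →* N.Group} (ν : NData N ψ) : Prop where
  inv : ∀ z g r, Commute g z → Commute r (ψ z) → ν.n z ((ψ g)⁻¹ * r * ψ g) = ν.n z r
  flip : ∀ g r a (q : ℕ), ReflOf N r a → rho N (ψ g) a = -a → 0 < q → ν.n (g ^ q) r ≠ 0
  fix1 : ∀ s t g r a (q : ℕ), 0 < q → Commute s (g ^ q) → Commute t (g ^ q) →
    ψ g ∈ Subgroup.closure {ψ s, ψ t} → ReflOf N r a → rho N (ψ g) a = -a →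
      Finite (Subgroup.closure {ψ s, ψ t}) ∨ (Commute (ψ s) r ∧ Commute (ψ t) r)
  fix2 : ∀ s t g a b (q : ℕ), 0 < q → Commute s (g ^ q) → Commute t (g ^ q) → Cross N a b →
    rho N (ψ g) a = -a → rho N (ψ g) b = -b → Finite (Subgroup.closure {ψ s, ψ t})
  rot4 : ∀ s t c i j (k l m : ℕ), 0 < k → (s * t) ^ k = (t * s) ^ k → i ≠ j → 0 < m →
    N i j = 2 * m → Odd l → ψ s = c * (sr N i * sr N j) ^ l * c⁻¹ →
    ψ t ∈ cj c (par N {i, j}) → sg N (ψ t) = -1 → Odd m ∧ (Odd k → Commute (ψ s) (ψ t))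

def St_NF : Prop := ∀ (B : Type) [Fintype B] [DecidableEq B] (N : CoxeterMatrix B) (G : Type)
  [Group G] (ψ : G →* N.Group) (ν : NData N ψ), NoSph N → NF ν

def St_LODD : Prop := ∀ (B : Type) [Fintype B] [DecidableEq B] (N : CoxeterMatrix B) (G : Type)
  [Group G] (ψ : G →* N.Group) (_ : NData N ψ), NoSph N → ∀ (s t : G) (m : ℕ), Odd m →
    alt s t m = alt t s m → ψ s = ψ t ∨ (IsRefl N (ψ s) ∧ IsRefl N (ψ t))

/-- the flat case of an even edge -/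
def St_LFLAT : Prop := ∀ (B : Type) [Fintype B] [DecidableEq B] (N : CoxeterMatrix B) (G : Type)
  [Group G] (ψ : G →* N.Group) (_ : NData N ψ), NoSph N → ∀ (s t : G) (k : ℕ) c i j l, 0 < k →
    (s * t) ^ k = (t * s) ^ k → Tri4 N i j l → ψ s ∈ cj c (par N {i, j, l}) →
    ψ t ∈ cj c (par N {i, j, l}) → ¬ Commute (ψ s) (ψ t) → Ind2 (ψ s) (ψ ((s * t) ^ k)) →
    (∃ χ : N.Group →* ℤˣ, χ (ψ s) = -1) → ExoAt N c i j l (ψ s) (ψ t)

def St_LEVEN : Prop := ∀ (B : Type) [Fintype B] [DecidableEq B] (N : CoxeterMatrix B) (G : Type)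
  [Group G] (ψ : G →* N.Group) (_ : NData N ψ), NoSph N → ∀ (s t : G) (k : ℕ)
    (χ1 χ2 : N.Group →* ℤˣ), 0 < k → (s * t) ^ k = (t * s) ^ k → χ1 (ψ s) = -1 → χ1 (ψ t) = 1 →
    χ2 (ψ s) = 1 → χ2 (ψ t) = -1 → Finite (Subgroup.closure {ψ s, ψ t}) ∨ Commute (ψ s) (ψ t) ∨
      (Even k ∧ (Exo N (ψ s) (ψ t) ∨ Exo N (ψ t) (ψ s)))

/-! ### two Artin families of one group -/

/-- a statement about two Artin families; `A'` is the side of the second family -/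
def Both (P : ∀ {G S S' : Type} [Group G] {M : CoxeterMatrix S} {x : S → G}
    {M' : CoxeterMatrix S'} {x' : S' → G}, ASide M x → ASide M' x' → Prop) : Prop :=
  ∀ (G S S' : Type) [Group G] [Fintype S] [DecidableEq S] [Fintype S'] [DecidableEq S']
    (M : CoxeterMatrix S) (x : S → G) (M' : CoxeterMatrix S') (x' : S' → G)
    (A : ASide M x) (A' : ASide M' x'), P A A'

section Two

variable {G S S' : Type} [Group G] {M : CoxeterMatrix S} {x : S → G}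
  {M' : CoxeterMatrix S'} {x' : S' → G}

/-- the class of `s` and its neighbours centralise the image of `s` -/
def Coll (M : CoxeterMatrix S) (x : S → G) (A' : ASide M' x') (s : S) : Prop :=
  ∀ t ∈ Cls M s ∪ Bd M s, Commute (A'.ψ (x t)) (A'.ψ (x s))

def ExoE (M : CoxeterMatrix S) (x : S → G) (A' : ASide M' x') (s t : S) : Prop :=
  Adj M s t ∧ ¬ OddConn M s t ∧ Exo A'.N (A'.ψ (x s)) (A'.ψ (x t))

end Two

def St_COL : Prop := Both fun {_ _ _} _ {M x M' x'} _ A' => ∀ s χ, IsChi M x s χ →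
  ¬ IsOfFinOrder (A'.ψ (x s)) → Coll M x A' s → ∀ y ∈ Big M', χ (x' y) = 1

def St_FCE : Prop := Both fun {_ _ _} _ {M x M' x'} _ _ => ∀ f χ, f ∉ Big M → IsChi M x f χ →
  ∀ s' t', 3 ≤ M' s' t' → χ (zc M' x' s' t') = 1

def St_NOCOL : Prop := Both fun {_ _ _} _ {M x _ _} _ A' => ∀ s ∈ Big M,
  ¬ IsOfFinOrder (A'.ψ (x s)) → ¬ Coll M x A' s

/-- classes whose image is not a reflection -/
def St_CLS : Prop := Both fun {_ _ _} _ {M x _ _} _ A' => ∀ s, A'.ψ (x s) ≠ 1 ∧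
  (∀ t, ¬ OddConn M s t → M s t ≠ 0 → Finite (Subgroup.closure {A'.ψ (x s), A'.ψ (x t)}) ∨
    Commute (A'.ψ (x s)) (A'.ψ (x t)) ∨
      (Even (M s t / 2) ∧ (ExoE M x A' s t ∨ ExoE M x A' t s))) ∧
  (¬ IsRefl A'.N (A'.ψ (x s)) → ∀ t, OddConn M s t → A'.ψ (x t) = A'.ψ (x s)) ∧
  (¬ IsOfFinOrder (A'.ψ (x s)) → Coll M x A' s ∨
    ∃ u t, OddConn M s u ∧ Even (M u t / 2) ∧ (ExoE M x A' u t ∨ ExoE M x A' t u)) ∧
  (∀ (c : A'.N.Group) i j (l : ℕ), i ≠ j → A'.N i j ≠ 0 →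
    A'.ψ (x s) = c * (sr A'.N i * sr A'.N j) ^ l * c⁻¹ →
      ∀ t ∈ Cls M s ∪ Bd M s, A'.ψ (x t) ∈ cj c (par A'.N {i, j})) ∧
  ∀ c i j k h, ExoAt A'.N c i j k (A'.ψ (x s)) h →
    ∀ t ∈ Cls M s ∪ Bd M s, A'.ψ (x t) ∈ cj c (par A'.N {i, j, k})

/-- first half of the exclusion of rotations -/
def St_ROT1 : Prop := Both fun {G _ _} _ {M x M' x'} _ A' => ∀ s, IsRot A'.N (A'.ψ (x s)) →
  ∃ a' b' k, M' a' b' = 2 * k ∧ Odd k ∧ 3 ≤ k ∧ (∀ t', t' ≠ a' → t' ≠ b' → M' a' t' = 0) ∧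
    (∀ χ : G →* ℤˣ, χ (x s) = χ (x' a') * χ (x' b')) ∧
    (∀ χ : G →* ℤˣ, χ (x s) = -1 → (∀ t, ¬ OddConn M s t → χ (x t) = 1) → χ (x' a') = -1) ∧
    ((∃ h, cm (x' a') (x' b') ∈ cj h (gp x (Bd M s))) ∨
      ∃ h, x' a' ∈ cj h (gp x (Cls M s ∪ Bd M s)) ∧ x' b' ∈ cj h (gp x (Cls M s ∪ Bd M s))) ∧
    ∀ t (m : ℕ), ¬ OddConn M s t → M s t = 2 * m → Odd m → Commute (A'.ψ (x s)) (A'.ψ (x t))

def St_ROT : Prop := Both fun {_ _ _} _ {M x _ _} _ A' => ∀ s ∈ Big M, ¬ IsRot A'.N (A'.ψ (x s))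

/-- a generator with a large label maps to a reflection or its class has an exotic edge -/
def St_TYP : Prop := Both fun {_ _ _} _ {M x _ _} _ A' => ∀ s ∈ Big M,
  IsRefl A'.N (A'.ψ (x s)) ∨ ∃ u t, OddConn M s u ∧ (ExoE M x A' u t ∨ ExoE M x A' t u)

/-- data of two exotic edges facing each other -/
structure Face {G S S' : Type} [Group G] {M : CoxeterMatrix S} {x : S → G}
    {M' : CoxeterMatrix S'} {x' : S' → G} (A : ASide M x) (A' : ASide M' x')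
    (s t a b c : S) (a' : S') : Prop where
  ex : ExoE M x A' s t
  tri : M a b = 4 ∧ M b c = 4 ∧ M a c = 2
  ca : OddConn M s a
  cb : ¬ OddConn M s b
  cc : ¬ OddConn M s c
  nr : ¬ IsRefl A.N (A.ψ (x' a')) ∧ a' ∈ Big M'
  sc : sg A'.N (A'.ψ (x c)) = -1
  nbr : ∃ d, ∀ u ∈ Cls M' a' ∪ Bd M' a', A.ψ (x' u) ∈ cj d (par A.N {A.a a, A.a b, A.a c})
  par1 : ∀ χ : G →* ℤˣ, χ (x' a') = -1 → (∀ u, ¬ OddConn M' a' u → χ (x' u) = 1) →
    χ (x s) = -1 ∧ ∀ u ∈ Bd M s, χ (x u) = 1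
  notp : ∀ h, cm (x s) (x t) ∉ cj h (gp x' (Bd M' a'))

def St_EE : Prop := Both fun {_ _ _} _ {M x _ _} A A' => ∀ s t, ExoE M x A' s t →
  ∃ a b c a', Face A A' s t a b c a'

def St_EXT : Prop := Both fun {_ _ _} _ {M _ _ _} A A' => ∀ s t a b c a',
  Face A A' s t a b c a' → s = a ∧ t = b ∧ ∀ u, u ≠ a → u ≠ b → u ≠ c → M a u = 0

/-- the exotic automorphism -/
def St_EXA : Prop := ∀ (S G : Type) [DecidableEq S] [Group G] (M : CoxeterMatrix S) (x : S → G)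
  (a b c : S), IsDyer M ∅ x → M a b = 4 → M b c = 4 → M a c = 2 →
    (∀ u, u ≠ a → u ≠ b → u ≠ c → M a u = 0) →
      IsDyer M ∅ (Function.update x a (x a * x b * x c * x b)⁻¹)

/-- a common quotient with matched reflections -/
def St_IA : Prop := ∀ (S S' : Type) [Fintype S] [DecidableEq S] [Fintype S'] [DecidableEq S']
  (M : CoxeterMatrix S) (M' : CoxeterMatrix S'), NoSph M → NoSph M' →
    Nonempty (ArtinGroup M ≃* ArtinGroup M') → ∃ (D : Type) (_ : Group D) (R : Set S) (x : S → D)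
      (R' : Set S') (x' : S' → D), DP M R x ∧ DP M' R' x' ∧ Matched R x R' x'

end Pool.Agent.Lib.MP_1b8ce0_al.T
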