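import Mathlib
import Pool.Agent.Lib.MP_1b8ce0_al.T.StsB

set_option linter.unusedSectionVars false
set_option linter.dupNamespace false

namespace Pool.Agent.Lib.MP_1b8ce0_al.T

open Pool.Agent.Lib.MP_6d85b4_al

theorem CLS_symm {S : Type} {M : CoxeterMatrix S} {s t : S} (h : OddConn M s t) :
    OddConn M t s := by
  induction h with
  | refl => exact Relation.ReflTransGen.refl
  | tail _ h2 ih =>
    exact Relation.ReflTransGen.head ⟨h2.1.symm, by rw [M.symmetric]; exact h2.2⟩ ih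

theorem CLS_fin {W : Type} [Group W] {g h : W} (hf : Finite (Subgroup.closure {g, h})) :
    IsOfFinOrder g := by
  have hg : g ∈ Subgroup.closure ({g, h} : Set W) := Subgroup.subset_closure (by simp)
  have h1 : IsOfFinOrder (⟨g, hg⟩ : Subgroup.closure ({g, h} : Set W)) := isOfFinOrder_of_finite _
  exact (Subgroup.closure ({g, h} : Set W)).subtype.isOfFinOrder h1

section Two

variable {G S S' : Type} [Group G] {M : CoxeterMatrix S} {x : S → G}
  {M' : CoxeterMatrix S'} {x' : S' → G}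

theorem CLS_chc (hG : D1 M ∅ x) (A' : ASide M' x') (s : S) :
    ∃ χ : A'.N.Group →* ℤˣ, χ (A'.ψ (x s)) = -1 ∧ ∀ t, ¬ OddConn M s t → χ (A'.ψ (x t)) = 1 := by
  obtain ⟨χ, h1, h2⟩ := hG.chc s
  obtain ⟨χ', h3, _⟩ := A'.chr χ
  exact ⟨χ', by rw [h3, h1 s Relation.ReflTransGen.refl], fun t ht => by rw [h3, h2 t ht]⟩

theorem CLS_one (hG : D1 M ∅ x) (A' : ASide M' x') (s : S) : A'.ψ (x s) ≠ 1 := by
  intro h
  obtain ⟨χ, h1, _⟩ := CLS_chc hG A' s
  rw [h, map_one] at h1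
  exact absurd h1 (by decide)

theorem CLS_two (h3 : St_LEVEN) (hG : D1 M ∅ x) (A' : ASide M' x') (s t : S)
    (hst : ¬ OddConn M s t) (h0 : M s t ≠ 0) :
    Finite (Subgroup.closure {A'.ψ (x s), A'.ψ (x t)}) ∨ Commute (A'.ψ (x s)) (A'.ψ (x t)) ∨
      (Even (M s t / 2) ∧ (ExoE M x A' s t ∨ ExoE M x A' t s)) := by
  have hne : s ≠ t := by
    rintro rfl
    exact hst Relation.ReflTransGen.refl
  have hts : ¬ OddConn M t s := fun h => hst (CLS_symm h)
  have hev : Even (M s t) := by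
    by_contra h
    exact hst (Relation.ReflTransGen.single ⟨hne, Nat.not_even_iff_odd.1 h⟩)
  obtain ⟨k, hk⟩ := hev
  obtain ⟨χ1, a1, a2⟩ := CLS_chc hG A' s
  obtain ⟨χ2, b1, b2⟩ := CLS_chc hG A' t
  have hk2 : M s t / 2 = k := by omega
  rcases h3 A'.B A'.N G A'.ψ A'.ν A'.ns (x s) (x t) k χ1 χ2 (by omega)
    (hG.even s t k hne (by omega) (by omega)) a1 (a2 t hst) (b2 s hts) b1 with h | h | ⟨h, h'⟩
  · exact Or.inl h
  · exact Or.inr (Or.inl h)
  · refine Or.inr (Or.inr ⟨hk2 ▸ h, ?_⟩)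
    rcases h' with h' | h'
    · exact Or.inl ⟨⟨hne, h0⟩, hst, h'⟩
    · exact Or.inr ⟨⟨hne.symm, by rw [M.symmetric]; exact h0⟩, hts, h'⟩

theorem CLS_three (h2 : St_LODD) (hx : IsDyer M ∅ x) (A' : ASide M' x') (s : S)
    (hr : ¬ IsRefl A'.N (A'.ψ (x s))) (t : S) (ht : OddConn M s t) :
    A'.ψ (x t) = A'.ψ (x s) := by
  induction ht with
  | refl => rfl
  | @tail u v _ huv ih =>
    have h0 : M u v ≠ 0 := by
      intro h
      have h1 := huv.2
      rw [h] at h1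
      exact absurd h1 (by decide)
    rcases h2 A'.B A'.N G A'.ψ A'.ν A'.ns (x u) (x v) (M u v) huv.2
      (hx.braid u (Set.mem_univ _) v (Set.mem_univ _) huv.1 h0) with h | h
    · rw [← h, ih]
    · exact absurd (ih ▸ h.1) hr

/-- the four possibilities for a vertex of the class or of its boundary -/
theorem CLS_cases (h2 : St_LODD) (h3 : St_LEVEN) (hx : IsDyer M ∅ x) (hG : D1 M ∅ x)
    (A' : ASide M' x') (s : S) (hr : ¬ IsRefl A'.N (A'.ψ (x s))) (t : S)
    (ht : t ∈ Cls M s ∪ Bd M s) :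
    Finite (Subgroup.closure {A'.ψ (x s), A'.ψ (x t)}) ∨ Commute (A'.ψ (x t)) (A'.ψ (x s)) ∨
      ∃ u, OddConn M s u ∧ A'.ψ (x u) = A'.ψ (x s) ∧ Even (M u t / 2) ∧
        (ExoE M x A' u t ∨ ExoE M x A' t u) := by
  rcases ht with ht | ⟨ht, u, hu, h0⟩
  · refine Or.inr (Or.inl ?_)
    rw [CLS_three h2 hx A' s hr t ht]
  · have hus := CLS_three h2 hx A' s hr u hu
    rcases CLS_two h3 hG A' u t (fun h => ht (Relation.ReflTransGen.trans hu h)) h0 with
      h | h | ⟨h, h'⟩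
    · exact Or.inl (hus ▸ h)
    · exact Or.inr (Or.inl (hus ▸ h.symm))
    · exact Or.inr (Or.inr ⟨u, hu, hus, h, h'⟩)

end Two

theorem CLS_thm (hA : St_CA) (h1 : St_D1) (h2 : St_LODD) (h3 : St_LEVEN) (h4 : St_EXF) :
    St_CLS := by
  intro G S S' _ _ _ _ _ M x M' x' A A' s
  have hG : D1 M ∅ x := h1.2 S G M ∅ x A.art
  have hC := hA A'.B A'.N A'.ns
  have hinf : ∀ g, ¬ IsOfFinOrder g → ¬ IsRefl A'.N g := by
    intro g hg hr
    exact hg (isOfFinOrder_iff_pow_eq_one.2 ⟨2, two_pos, by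
      rw [pow_two]
      exact (hC.a0.refl_sq g hr).1⟩)
  have hexo : ∀ g h, Exo A'.N g h → ¬ IsOfFinOrder g ∧ sg A'.N h = -1 := by
    rintro g h ⟨c, i, j, k, hex⟩
    have F := h4 A'.B A'.N A'.ns c i j k g h hex
    exact ⟨F.inf, by rw [F.chh, sg_sr]⟩
  refine ⟨CLS_one hG A' s, CLS_two h3 hG A' s, CLS_three h2 A.art A' s, ?_, ?_, ?_⟩
  · intro hs
    by_contra hn
    rw [not_or] at hn
    refine hn.1 fun t ht => ?_
    rcases CLS_cases h2 h3 A.art hG A' s (hinf _ hs) t ht with h | h | ⟨u, hu, _, h, h'⟩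
    · exact absurd (CLS_fin h) hs
    · exact h
    · exact absurd ⟨u, t, hu, h, h'⟩ hn.2
  · intro c i j l hij h0 hs t ht
    have hne := CLS_one hG A' s
    have hrot : IsRot A'.N (A'.ψ (x s)) := ⟨c, i, j, l, hij, h0, hs, hne⟩
    obtain ⟨hsg, hfin⟩ := hC.t1.rot_sg _ hrot
    have hl : (sr A'.N i * sr A'.N j) ^ l ≠ 1 := by
      intro h
      rw [h, mul_one, mul_inv_cancel] at hs
      exact hne hs
    have hr : ¬ IsRefl A'.N (A'.ψ (x s)) := by
      intro h
      rw [(hC.a0.refl_sq _ h).2.2] at hsg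
      exact absurd hsg (by decide)
    rcases CLS_cases h2 h3 A.art hG A' s hr t ht with h | h | ⟨u, _, hus, _, h | h⟩
    · obtain ⟨c', T, hT, hle⟩ := hC.t1.finsub _ h
      have a1 : A'.ψ (x s) ∈ cj c' (par A'.N T) := hle (Subgroup.subset_closure (by simp))
      have a2 : A'.ψ (x t) ∈ cj c' (par A'.N T) := hle (Subgroup.subset_closure (by simp))
      rw [hs] at a1
      obtain ⟨rfl, a3⟩ := hC.t1.rot_type c c' i j l T hij h0 hl hT a1
      have a4 : cj c (par A'.N {i, j}) = cj c' (par A'.N {i, j}) := by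
        have a5 := cj_cj c' (c'⁻¹ * c) (par A'.N {i, j})
        rw [mul_inv_cancel_left, cj_self a3] at a5
        exact a5.symm
      rw [a4]
      exact a2
    · rw [hs] at h
      exact hC.t1.rot_cent c _ i j l hij h0 hl h
    · exact absurd (hus ▸ hfin) (hexo _ _ h.2.2).1
    · have a1 := (hexo _ _ h.2.2).2
      rw [hus, hsg] at a1
      exact absurd a1 (by decide)
  · intro c i j k h hex t ht
    have F := h4 A'.B A'.N A'.ns c i j k _ h hex
    rcases CLS_cases h2 h3 A.art hG A' s (hinf _ F.inf) t ht with h | h | ⟨u, _, hus, _, h | h⟩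
    · exact absurd (CLS_fin h) F.inf
    · exact F.cen _ h
    · exact F.oth _ (hus ▸ h.2.2)
    · have a1 := (hexo _ _ h.2.2).2
      rw [hus, F.cg, sg_sr, sg_sr] at a1
      exact absurd a1 (by decide)

theorem TYP_thm (hA : St_CA) (h5 : St_CLS) (h6 : St_NOCOL) (h7 : St_ROT) : St_TYP := by
  intro G S S' _ _ _ _ _ M x M' x' A A' s hs
  have hC := hA A'.B A'.N A'.ns
  obtain ⟨a1, _, _, a4, _⟩ := h5 G S S' M x M' x' A A' s
  by_cases hf : IsOfFinOrder (A'.ψ (x s))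
  · rcases hC.t1.tors _ hf with h | h | h
    · exact absurd h a1
    · exact Or.inl h
    · exact absurd h (h7 G S S' M x M' x' A A' s hs)
  · rcases a4 hf with h | ⟨u, t, hu, _, h⟩
    · exact absurd h (h6 G S S' M x M' x' A A' s hs hf)
    · exact Or.inr ⟨u, t, hu, h⟩

end Pool.Agent.Lib.MP_1b8ce0_al.T
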