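import Pool.Agent.Lib.MP_1b8ce0_al.T.StsB

set_option linter.unusedSectionVars false
set_option linter.dupNamespace false

namespace Pool.Agent.Lib.MP_1b8ce0_al.T

open Pool.Agent.Lib.MP_6d85b4_al Filter

/-! ### two Dyer families of one group -/

/-- a statement about two matched Dyer families -/
def Pair (P : ∀ {D S S' : Type} [Group D], CoxeterMatrix S → Set S → (S → D) →
    CoxeterMatrix S' → Set S' → (S' → D) → Prop) : Prop :=
  ∀ (D S S' : Type) [Group D] [Fintype S] [DecidableEq S] [Fintype S'] [DecidableEq S']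
    (M : CoxeterMatrix S) (R : Set S) (x : S → D) (M' : CoxeterMatrix S') (R' : Set S')
    (x' : S' → D), DP M R x → DP M' R' x' → Matched R x R' x' → P M R x M' R' x'

/-- centralisers of elements with a nonzero exponent at a free vertex -/
def St_TR0 : Prop := ∀ (S G : Type) [Fintype S] [DecidableEq S] [Group G] (M : CoxeterMatrix S)
  (R : Set S) (x : S → G), DP M R x → ∀ f χ g, f ∉ R → IsChi M x f χ → χ g ≠ 1 →
    (∃ h, ∀ g1 g2, Commute g1 g → Commute g2 g → cm g1 g2 ∈ cj h (gp x (lk M f))) ∧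
    (∀ h, g ∈ cj h (gp x (insert f (lk M f))) → ∀ u, Commute u g →
      u ∈ cj h (gp x (insert f (lk M f)))) ∧
    Indep M (lk M f) ∧ perp M (perp M (lk M f)) = lk M f ∧
    (Two (lk M f) → Indep M (perp M (lk M f)))

structure Key {D S S' : Type} [Group D] (x : S → D) (M' : CoxeterMatrix S') (x' : S' → D)
    (f : S) (d : D) (L' : Set S') : Prop where
  ind : Indep M' L'
  two : Two L'
  mem : x f ∈ cj d (gp x' (perp M' L'))
  cen : ∀ g, Commute g (x f) → ∃ n : ℤ, ∃ l ∈ cj d (gp x' L'), g = x f ^ n * l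
  cyc : ∀ g ∈ cj d (gp x' (perp M' L')), Commute g (x f) → ∃ n : ℤ, g = x f ^ n

def St_KEY : Prop := Pair fun M R x M' _ x' => ∀ f, f ∉ R → Two (lk M f) →
  ∃ d L', Key x M' x' f d L'

/-- after transvections at leaves the links agree -/
def St_KEYN : Prop := Pair fun {D S _} _ M R x M' R' x' => ∀ f d L', f ∉ R → Two (lk M f) →
  Key x M' x' f d L' → ∃ y : S → D, DP M R y ∧ Matched R y R' x' ∧
    gp y (lk M f) = cj d (gp x' L')

/-- the second family has a free vertex with the same link -/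
def St_SYM : Prop := Pair fun M R x M' R' x' => ∀ f L', f ∉ R → Two (lk M f) → Indep M' L' →
  Two L' → gp x (lk M f) = gp x' L' → ∃ f', f' ∉ R' ∧ lk M' f' = L'

/-- the free vertices with the link of `f` -/
def Same {S : Type} (M : CoxeterMatrix S) (R : Set S) (f : S) : Set S :=
  {y | y ∉ R ∧ lk M y = lk M f}

structure Sym {D S S' : Type} [Group D] (M : CoxeterMatrix S) (R : Set S) (x : S → D)
    (M' : CoxeterMatrix S') (R' : Set S') (x' : S' → D) (f : S) (f' : S') : Prop where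
  nf : f ∉ R
  nf' : f' ∉ R'
  two : Two (lk M f)
  two' : Two (lk M' f')
  eq : gp x (lk M f) = gp x' (lk M' f')

def St_CNT : Prop := Pair fun M R x M' R' x' => ∀ f f', Sym M R x M' R' x' f f' →
  gp x (perp M (lk M f)) = gp x' (perp M' (lk M' f')) ∧
  (∀ q ∈ perp M (lk M f), q ∉ Same M R f → ∀ u ∈ Same M' R' f', ∀ χ, IsChi M' x' u χ →
    χ (x q) = 1) ∧
  Nonempty (Same M R f ≃ Same M' R' f')

/-- the part of `perp (lk f)` in the component of `q` -/
def QC {S : Type} (M : CoxeterMatrix S) (f q : S) : Set S :=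
  {s | s ∈ perp M (lk M f) ∧ Conn M (lk M f)ᶜ q s}

/-- a component stays together in every splitting over the link group -/
def St_LOC1 : Prop := ∀ (S G : Type) [Fintype S] [DecidableEq S] [Group G] (M : CoxeterMatrix S)
  (R : Set S) (x : S → G), DP M R x → ∀ f q (A1 A2 : Subgroup G), f ∉ R → Two (lk M f) →
    TT1 A1 A2 (gp x (lk M f)) → TT2 A1 A2 (gp x (lk M f)) → q ∈ perp M (lk M f) →
    q ∉ Same M R f → ∃ h, gp x (QC M f q ∪ lk M f) ≤ cj h A1 ∨ gp x (QC M f q ∪ lk M f) ≤ cj h A2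

def St_LOC : Prop := Pair fun M R x M' R' x' => ∀ f f', Sym M R x M' R' x' f f' →
  ∀ q ∈ perp M (lk M f), q ∉ Same M R f → ∃ q' ∈ perp M' (lk M' f'), q' ∉ Same M' R' f' ∧
    ∃ h ∈ gp x (perp M (lk M f)), gp x (QC M f q) ≤ cj h (gp x' (QC M' f' q'))

def St_LOC2 : Prop := Pair fun M R x M' R' x' => ∀ f f', Sym M R x M' R' x' f f' →
  ∀ q ∈ perp M (lk M f), q ∉ Same M R f → ∃ q' ∈ perp M' (lk M' f'), q' ∉ Same M' R' f' ∧
    ∃ h ∈ gp x (perp M (lk M f)), gp x (QC M f q) = cj h (gp x' (QC M' f' q'))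

def St_MOD : Prop := Pair fun {D S _} _ M R x M' R' x' => ∀ f f', Sym M R x M' R' x' f f' →
  ∃ y : S → D, DP M R y ∧ Matched R y R' x' ∧ ∃ u, u ∉ R' ∧ y f = x' u

/-- all free vertices of degree at least two become reflections -/
def St_IB : Prop := Pair fun {_ S S'} _ M _ _ M' _ _ => ∃ (D1 : Type) (_ : Group D1) (R1 : Set S)
  (x1 : S → D1) (R1' : Set S') (x1' : S' → D1), DP M R1 x1 ∧ DP M' R1' x1' ∧
    Matched R1 x1 R1' x1' ∧ Low M R1 ∧ Low M' R1'

/-! ### geometry of a rigid family -/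

def GeoAll (P : ∀ {T B : Type} [Fintype T] [DecidableEq T] [Fintype B] [DecidableEq B]
    (M : CoxeterMatrix T) (N : CoxeterMatrix B), (M.Group →* N.Group) → (T → B → ℝ) → Prop) :
    Prop :=
  ∀ (T B : Type) [Fintype T] [DecidableEq T] [Fintype B] [DecidableEq B] (M : CoxeterMatrix T)
    (N : CoxeterMatrix B) (j : M.Group →* N.Group) (β : T → B → ℝ), Geo M N j β → P M N j β

/-- transfer of crossing, vertices, graph facts -/
structure G0 {T B : Type} [Fintype T] [DecidableEq T] [Fintype B] [DecidableEq B]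
    (M : CoxeterMatrix T) (N : CoxeterMatrix B) (j : M.Group →* N.Group) (β : T → B → ℝ) :
    Prop where
  cross : ∀ w w' s t, Cross N (rho N (j w) (β s)) (rho N (j w') (β t)) ↔
    Cross M (rho M w (al s)) (rho M w' (al t))
  same : ∀ w w' s t, (rho N (j w') (β t) = rho N (j w) (β s) ∨
    rho N (j w') (β t) = -rho N (j w) (β s)) ↔
      (rho M w' (al t) = rho M w (al s) ∨ rho M w' (al t) = -rho M w (al s))
  vert : ∀ s t, Adj M s t → ∃ y, OnV N β s t y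
  nz : ∀ s t u y, Adj M s t → u ≠ s → u ≠ t → OnV N β s t y → y (β u) ≠ 0
  two : ∀ s t, M s t = 2 → Bf N (β s) (β t) = 0
  far : ∀ s t, M s t = 0 → ¬ Cross N (β s) (β t)
  nb : ∀ s t, Adj M s t → ∃ u, u ≠ t ∧ Adj M s u
  prop : ∀ (A : Set T) (a : B → ℝ), IsRoot N a →
    (∀ u ∈ A, β u ≠ a ∧ β u ≠ -a ∧ ¬ Cross N (β u) a) →
      ∀ u v, Conn M A u v → u ∈ A → ∀ y y', InI N y → InI N y' → y (β u) = 0 → y' (β v) = 0 →
        0 < y a → 0 < y' a
  tri : ∀ s t u c, Adj M s t → Adj M t u → Adj M s u → c ≠ s → c ≠ t → c ≠ u →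
    ∃ c', Conn M {s, t, u}ᶜ c c' ∧ Adj M c' s

def St_G0 : Prop := GeoAll fun M N j β => G0 M N j β

/-- `a` has one sign on all vertices of the wall of `u` -/
def NM {T B : Type} [Fintype B] [DecidableEq B] (M : CoxeterMatrix T) (N : CoxeterMatrix B)
    (β : T → B → ℝ) (u : T) (a : B → ℝ) : Prop :=
  ∃ ε : ℝ, (ε = 1 ∨ ε = -1) ∧ ∀ v y, Adj M u v → OnV N β u v y → 0 < ε * y a

/-- the triangles with a right angle -/
def St_GT : Prop := GeoAll fun M N j β => ∀ s t u, 3 ≤ M s t → M s u = 2 →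
  (4 ≤ M t u → NM M N β u (rho N (j (sr M s)) (β t))) ∧
  (M t u = 3 → NM M N β u (rho N (j (sr M s * sr M t)) (β s))) ∧
  (M t u = 3 → 3 ≤ 4 * Bf N (β s) (β t) ^ 2) ∧
  (M t u ≠ 0 → ∀ y y', OnV N β t u y → OnV N β s u y' →
    Bf N (β s) (β t) * (y (β s) * y' (β t)) < 0)

/-- the interior lines through a vertex -/
def St_GA0 : Prop := GeoAll fun M N j β => ∀ s t w u (k : ℕ), 3 ≤ M s t → (u = s ∨ u = t) →
  1 ≤ k → k + 2 ≤ M s t →
  rho M w (al u) = ch (M s t) k • al s + ch (M s t) (k + 1) • al t →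
  ((2 ≤ k ∧ k + 3 ≤ M s t) ∨
    ¬ ∃ v, (M s v = 2 ∧ M t v = 3) ∨ (M s v = 3 ∧ M t v = 2)) →
  OneSign M N β s t (rho N (j w) (β u))

/-- edges with label at least three are unmixed and sharp -/
def St_GAB : Prop := GeoAll fun M N _ β => ∀ s t, 3 ≤ M s t →
  ∃ e f : ℝ, (e = 1 ∨ e = -1) ∧ (f = 1 ∨ f = -1) ∧
    (∀ b y, b ≠ s → Adj M t b → OnV N β t b y → 0 < e * y (β s)) ∧
    (∀ a y, a ≠ t → Adj M s a → OnV N β s a y → 0 < f * y (β t)) ∧
    e * f * Bf N (β s) (β t) = -Real.cos (Real.pi / M s t)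

/-- after conjugating parts by reflections the family is oriented -/
def St_GOR : Prop := GeoAll fun {T B} _ _ _ _ M N j _ => ∃ (θ : M.Group ≃* M.Group)
  (β' : T → B → ℝ), EdgeInner M θ ∧ Geo M N (j.comp θ.toMonoidHom) β' ∧ Oriented M N β'

/-- positivity for a root basis inside another root system -/
def St_HEE : Prop := ∀ (T B : Type) [Fintype T] [DecidableEq T] [Fintype B] [DecidableEq B]
  (M : CoxeterMatrix T) (N : CoxeterMatrix B) (j : M.Group →* N.Group) (β : T → B → ℝ),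
    (∀ t, ReflOf N (j (sr M t)) (β t)) →
    (∀ s t, s ≠ t → M s t ≠ 0 → Bf N (β s) (β t) = -Real.cos (Real.pi / M s t)) →
    (∀ s t, M s t = 0 → Bf N (β s) (β t) ≤ -1) → ∀ w t, ∃ c : T → ℝ,
      ((∀ i, 0 ≤ c i) ∨ ∀ i, c i ≤ 0) ∧ rho N (j w) (β t) = ∑ i, c i • β i

/-- an oriented family bounds one chamber -/
def St_GFIN : Prop := GeoAll fun {T B} _ _ _ _ M N j β => ∀ U : Set B, Oriented M N β →
  (∀ w, j w ∈ par N U) →
  (∀ r, IsRefl N r → r ∈ par N U → r ∉ j.range → ∃ K : Subgroup N.Group, Finite K ∧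
    ∀ w, IsRefl N (j w) → IsOfFinOrder (r * j w) → j w ∈ K) →
  ∃ (c : N.Group) (σ : T → B), ∀ t, σ t ∈ U ∧ j (sr M t) = c * sr N (σ t) * c⁻¹

/-! ### labelled graphs -/

def MaxRigid {S : Type} (M : CoxeterMatrix S) (T : Set S) : Prop :=
  Rigid M T ∧ ∀ T1, Rigid M T1 → T ⊆ T1 → T1 = T

structure RG {S : Type} (M : CoxeterMatrix S) : Prop where
  max : ∀ T, Rigid M T → ∃ T1, T ⊆ T1 ∧ MaxRigid M T1
  closed : NoSph M → ∀ T, MaxRigid M T → Closed M T
  edge : ∀ A y p q, y ∉ A → p ∈ Att M A y → q ∈ Att M A y → Adj M p q →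
    ∃ T, Rigid M T ∧ p ∈ T ∧ q ∈ T ∧ ∃ z ∈ T, Conn M Aᶜ y z
  inside : ∀ A T z, Closed M A → Rigid M T → z ∈ T → z ∉ A →
    ∀ u ∈ T, u ∈ Att M A z ∨ Conn M Aᶜ z u
  deg : ∀ T t, Rigid M T → t ∈ T → ∃ u ∈ T, ∃ v ∈ T, u ≠ v ∧ Adj M t u ∧ Adj M t v
  res : ∀ T, Rigid M T → Rigid (res M T) Set.univ
  image : ∀ (S' : Type) (M' : CoxeterMatrix S') T (σ : S → S'), Rigid M T →
    (∀ s ∈ T, ∀ t ∈ T, M' (σ s) (σ t) = M s t) → Rigid M' (σ '' T)

def St_RG : Prop := ∀ (S : Type) [Finite S] (M : CoxeterMatrix S), RG M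

/-! ### the matching -/

structure EdgeF {D S S' : Type} [Group D] (M : CoxeterMatrix S) (R : Set S) (x : S → D)
    (M' : CoxeterMatrix S') (R' : Set S') (x' : S' → D) : Prop where
  flip : ∀ s t s' t', EE M R x M' R' x' s t s' t' → EE M' R' x' M R x s' t' s t
  symm : ∀ s t s' t', EE M R x M' R' x' s t s' t' → EE M R x M' R' x' t s t' s'
  edge : ∀ s t s' t', EE M R x M' R' x' s t s' t' → M' s' t' = M s t ∧ IsConj (x s) (x' s')
  etot : ∀ s ∈ R, ∀ t ∈ R, Adj M s t → ∃ s' t', EE M R x M' R' x' s t s' t'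
  uniq : ∀ s t s' t' a b, EE M R x M' R' x' s t s' t' → EE M R x M' R' x' s t a b →
    (a = s' ∧ b = t') ∨ (Odd (M s t) ∧ a = t' ∧ b = s')
  odd : ∀ s t s' t', EE M R x M' R' x' s t s' t' → Odd (M s t) → EE M R x M' R' x' s t t' s'

def St_EDGE : Prop := Pair fun M R x M' R' x' => EdgeF M R x M' R' x'

/-- rigid sets lie in the Coxeter part; walls crossing an outer wall -/
def St_THIN : Prop := Pair fun {D _ _} _ M R x M' R' x' => Low M R → Low M' R' → ∀ T,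
  MaxRigid M T → T ⊆ R ∧ (∃ d, gp x T ≤ cj d (gp x' R')) ∧
    ∀ r : D, IsOfFinOrder r → r ∉ gp x T → ∃ K : Subgroup D, Finite K ∧
      ∀ g ∈ gp x T, IsOfFinOrder g → IsOfFinOrder (r * g) → g ∈ K

def St_RIG : Prop := Pair fun M R x M' R' x' => Low M R → Low M' R' → ∀ T, Rigid M T →
  ∃ σ, Good M M' (EE M R x M' R' x') T σ

/-- counting the free vertices of each kind -/
def St_COUNT : Prop := Pair fun M R x M' R' x' => Low M R → Low M' R' →
  Nat.card {f // f ∉ R} = Nat.card {f // f ∉ R'} ∧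
  Nat.card {f // f ∉ R ∧ ∃ g, g ∉ R ∧ M f g = 2} =
    Nat.card {f // f ∉ R' ∧ ∃ g, g ∉ R' ∧ M' f g = 2} ∧
  ∀ l ∈ R, ∀ l' ∈ R', IsConj (x l) (x' l') →
    Nat.card {f // f ∉ R' ∧ ∃ g ∈ R', M' f g = 2 ∧ IsConj (x' g) (x' l')} ≤
      Nat.card {f // f ∉ R ∧ ∃ g ∈ R, M f g = 2 ∧ IsConj (x g) (x l)}

/-- a bijection of the free vertices -/
def St_PI : Prop := Pair fun M R x M' R' x' => Low M R → Low M' R' →
  ∃ π : {f // f ∉ R} ≃ {f // f ∉ R'}, (∀ f g, M f.1 g.1 = 2 ↔ M' (π f).1 (π g).1 = 2) ∧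
    (∀ f, ∀ l ∈ R, M f.1 l = 2 → ∃ l' ∈ R', M' (π f).1 l' = 2 ∧ IsConj (x l) (x' l')) ∧
    ∀ f, ∀ l' ∈ R', M' (π f).1 l' = 2 → ∃ l ∈ R, M f.1 l = 2 ∧ IsConj (x l) (x' l')

def St_MATCH : Prop := Pair fun M R _ M' R' _ => Low M R → Low M' R' →
  ∃ V E, Match M M' V E

/-! ### from the matching to twists -/

open Classical in
/-- the edge relation after a twist -/
def twE {S S' : Type} (E : S → S → S' → S' → Prop) (p q : S) (X : Set S) (a b : S)
    (a' b' : S') : Prop :=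
  if a ∈ X ∨ b ∈ X then E (Equiv.swap p q a) (Equiv.swap p q b) a' b' else E a b a' b'

def St_TWM : Prop := ∀ (S S' : Type) (M : CoxeterMatrix S) (M' : CoxeterMatrix S') (p q : S)
  (X : Set S), (p ≠ q → Odd (M p q) → p ∉ X → q ∉ X →
    (∀ x ∈ X, ∀ y, y ∉ X → y ≠ p → y ≠ q → M x y = 0) → ∃ N, TwistAt M N p q X) ∧
  ∀ N, TwistAt M N p q X → (NoSph M → NoSph N) ∧ (∀ s t, OddConn N s t ↔ OddConn M s t) ∧
    ∀ V E, Match M M' V E → Match N M' V (twE E p q X)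

/-- odd paths inside `A` -/
def OC {S : Type} (M : CoxeterMatrix S) (A : Set S) (s t : S) : Prop :=
  Relation.ReflTransGen (fun u v => u ∈ A ∧ v ∈ A ∧ u ≠ v ∧ Odd (M u v)) s t

/-- `Z` hangs at the vertex `p` of `A` -/
def Hang {S : Type} (M : CoxeterMatrix S) (A Z : Set S) (p : S) : Prop :=
  p ∈ A ∧ (∀ z ∈ Z, z ∉ A) ∧ ∀ z ∈ Z, ∀ u, u ∉ Z → u ≠ p → M z u = 0

/-- sliding a hanging part along odd paths -/
def St_SL : Prop := ∀ (S S' : Type) (M : CoxeterMatrix S) (M' : CoxeterMatrix S') V E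
  (A Z : Set S) (p0 p c y : S) (a' b' : S'), NoSph M → Match M M' V E → Hang M A Z p0 →
    OC M A p p0 → OC M (insert p0 Z) p0 c → y ∈ insert p0 Z → E c y a' b' →
      ∃ N E1 y1, Relation.ReflTransGen Twist M N ∧ NoSph N ∧ Match N M' V E1 ∧ Hang N A Z p ∧
        y1 ∈ Z ∧ E1 p y1 a' b' ∧ ∀ u v, u ∉ Z → v ∉ Z →
          N u v = M u v ∧ ∀ u' v', E1 u v u' v' ↔ E u v u' v'

/-- one growth step -/
def Grow {S S' : Type} (M : CoxeterMatrix S) (M' : CoxeterMatrix S') (A : Set S) : Prop :=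
  ∃ N V E A1 τ1, Relation.ReflTransGen Twist M N ∧ NoSph N ∧ A ⊂ A1 ∧ Part N M' V E A1 τ1

def Step (P : ∀ {S S' : Type}, CoxeterMatrix S → CoxeterMatrix S' → Set S → (S → S') → Prop) :
    Prop :=
  ∀ (S S' : Type) [Finite S] [Finite S'] (M : CoxeterMatrix S) (M' : CoxeterMatrix S') V E A τ,
    NoSph M → NoSph M' → Part M M' V E A τ → P M M' A τ → Grow M M' A

/-- a component attached along an edge -/
def St_GR1 : Prop := Step fun M _ A _ => ∃ y p q, y ∉ A ∧ p ∈ Att M A y ∧ q ∈ Att M A y ∧ p ≠ q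

/-- an edge attachment on the second side gives one on the first side -/
def St_GR0 : Prop := ∀ (S S' : Type) [Finite S] [Finite S'] (M : CoxeterMatrix S)
  (M' : CoxeterMatrix S') V E A τ, Part M M' V E A τ →
    (∀ s t s' t', E s t s' t' → ((s ∈ A ∧ t ∈ A) ↔ (s' ∈ τ '' A ∧ t' ∈ τ '' A))) ∧
    ∀ y p q, y ∉ τ '' A → p ∈ Att M' (τ '' A) y → q ∈ Att M' (τ '' A) y → p ≠ q →
      ∃ y p q, y ∉ A ∧ p ∈ Att M A y ∧ q ∈ Att M A y ∧ p ≠ q

/-- components attached at single vertices -/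
def St_GR2 : Prop := Step fun M M' A τ =>
  (∀ y p q, y ∉ A → p ∈ Att M A y → q ∈ Att M A y → p = q) ∧
  (∀ y p q, y ∉ τ '' A → p ∈ Att M' (τ '' A) y → q ∈ Att M' (τ '' A) y → p = q) ∧
  ∃ p ∈ A, ∃ b', b' ∉ τ '' A ∧ Adj M' (τ p) b'

def St_GL : Prop := ∀ (S S' : Type) [Finite S] [Finite S'] (M : CoxeterMatrix S)
  (M' : CoxeterMatrix S') V E, NoSph M → NoSph M' → Match M M' V E → TwistEquiv M M'

def St_H1 : Prop := ∀ (S S' : Type) (M : CoxeterMatrix S) (M' : CoxeterMatrix S'),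
  TwistEquiv M M' → Nonempty (ArtinGroup M ≃* ArtinGroup M')

def St_H2 : Prop := ∃ f : List (List ℕ) × List (List ℕ) → Bool, Computable f ∧
  ∀ (n n' : ℕ) (M : CoxeterMatrix (Fin n)) (M' : CoxeterMatrix (Fin n')),
    f (table M, table M') = true ↔ TwistEquiv M M'

end Pool.Agent.Lib.MP_1b8ce0_al.T
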