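import Mathlib
import Pool.Agent.Lib.MP_1b8ce0_al.T.StsC

set_option linter.unusedSectionVars false
set_option linter.unusedVariables false
set_option linter.dupNamespace false

namespace Pool.Agent.Lib.MP_1b8ce0_al.T

open Pool.Agent.Lib.MP_6d85b4_al

section One

variable {S G : Type} [Group G] {M : CoxeterMatrix S} {R : Set S} {x : S → G}

/-- the odd class of a free vertex is a point -/
theorem CNT_odd (hF : Flex M R) {f t : S} (hf : f ∉ R) (h : OddConn M f t) : t = f := by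
  rcases Relation.ReflTransGen.cases_head h with h | ⟨c, ⟨hc, ho⟩, -⟩
  · exact h.symm
  · exfalso
    rcases hF f hf c (Ne.symm hc) with h0 | h0
    · rw [h0] at ho
      exact absurd ho (by decide)
    · rw [h0] at ho
      exact absurd ho (by decide)

theorem CNT_chi (h1 : St_D1) (hD : DP M R x) {f : S} (hf : f ∉ R) : ∃ χ, IsChi M x f χ :=
  (h1.2 S G M R x hD.dy).chi f fun t ht => by
    rw [CNT_odd hD.fl hf ht]
    exact hf

theorem CNT_chi_self {f : S} {χ : G →* Multiplicative ℤ} (h : IsChi M x f χ) :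
    χ (x f) = Multiplicative.ofAdd 1 := h.1 f Relation.ReflTransGen.refl

theorem CNT_chi_ne (hF : Flex M R) {f t : S} (hf : f ∉ R) {χ : G →* Multiplicative ℤ}
    (h : IsChi M x f χ) (ht : t ≠ f) : χ (x t) = 1 :=
  h.2 t fun ho => ht (CNT_odd hF hf ho)

theorem CNT_comm {T : Set S} {g : G} (h : ∀ t ∈ T, Commute g (x t)) :
    ∀ k ∈ gp x T, Commute g k := by
  have : gp x T ≤ Subgroup.centralizer {g} := gp_le.2 fun s hs => by
    rw [Subgroup.mem_centralizer_singleton_iff]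
    exact (h s hs).symm.eq
  intro k hk
  have h2 := this hk
  rw [Subgroup.mem_centralizer_singleton_iff] at h2
  exact Commute.symm h2

theorem CNT_tors {g : G} (hg : g * g = 1) (χ : G →* Multiplicative ℤ) : χ g = 1 := by
  have h : χ g * χ g = 1 := by rw [← map_mul, hg, map_one]
  have h2 : (χ g).toAdd + (χ g).toAdd = 0 := by
    rw [← toAdd_mul, h, toAdd_one]
  have h3 : (χ g).toAdd = 0 := by omega
  exact toAdd_eq_zero.1 h3

theorem CNT_indep [Fintype S] [DecidableEq S] (h1 : St_D1) (h6 : St_TR0) (hD : DP M R x) {f : S}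
    (hf : f ∉ R) : Indep M (lk M f) := by
  obtain ⟨χ, hχ⟩ := CNT_chi h1 hD hf
  refine (h6 S G M R x hD f χ (x f) hf hχ ?_).2.2.1
  rw [CNT_chi_self hχ]
  decide

theorem CNT_same_perp {f y : S} (hy : y ∈ Same M R f) : y ∈ perp M (lk M f) := by
  intro t ht
  rw [← hy.2] at ht
  exact ht

end One

section TwoFam

variable {D S S' : Type} [Group D] [Fintype S] [DecidableEq S] [Fintype S'] [DecidableEq S']
  {M : CoxeterMatrix S} {R : Set S} {x : S → D} {M' : CoxeterMatrix S'} {R' : Set S'}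
  {x' : S' → D} {f : S} {f' : S'}

theorem CNT_symm (h : Sym M R x M' R' x' f f') : Sym M' R' x' M R x f' f :=
  ⟨h.nf', h.nf, h.two', h.two, h.eq.symm⟩

theorem CNT_le (h1 : St_D1) (h5 : St_FREE) (h6 : St_TR0) (hD : DP M R x) (hD' : DP M' R' x')
    (h : Sym M R x M' R' x' f f') :
    gp x (perp M (lk M f)) ≤ gp x' (perp M' (lk M' f')) := by
  intro g hg
  have F := h5 S D M R x hD _ (CNT_indep h1 h6 hD h.nf)
  have F' := h5 S' D M' R' x' hD' _ (CNT_indep h1 h6 hD' h.nf')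
  have h2 := CNT_comm ((F.cent h.two g).2 hg)
  refine (F'.cent h.two' g).1 fun t ht => h2 _ ?_
  rw [h.eq]
  exact gp_mem x' ht

theorem CNT_one (h1 : St_D1) (h5 : St_FREE) (h6 : St_TR0) (hD : DP M R x) (hD' : DP M' R' x')
    (h : Sym M R x M' R' x' f f') :
    gp x (perp M (lk M f)) = gp x' (perp M' (lk M' f')) :=
  le_antisymm (CNT_le h1 h5 h6 hD hD' h) (CNT_le h1 h5 h6 hD' hD (CNT_symm h))

theorem CNT_two (h1 : St_D1) (h5 : St_FREE) (h6 : St_TR0) (hD : DP M R x) (hD' : DP M' R' x')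
    (h : Sym M R x M' R' x' f f') (q : S) (hq : q ∈ perp M (lk M f)) (hn : q ∉ Same M R f)
    (u : S') (hu : u ∈ Same M' R' f') (χ : D →* Multiplicative ℤ) (hχ : IsChi M' x' u χ) :
    χ (x q) = 1 := by
  by_cases hR : q ∈ R
  · exact CNT_tors (hD.dy.sqr q hR) χ
  by_contra hne
  obtain ⟨k, hk⟩ := (h6 S' D M' R' x' hD' u χ (x q) hu.1 hχ hne).1
  have hsub : lk M f ⊆ lk M q := fun t ht => hq t ht
  have htwo : Two (lk M q) := by
    obtain ⟨s, hs, t, ht, hst⟩ := h.two
    exact ⟨s, hsub hs, t, hsub ht, hst⟩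
  have F := h5 S D M R x hD _ (CNT_indep h1 h6 hD hR)
  have hc : ∀ g ∈ gp x (lk M q), Commute (x q) g :=
    CNT_comm fun t ht => (h1.2 S D M R x hD.dy).two q t ht
  have h3 := F.cmm k (lk M f) htwo fun g1 hg1 g2 hg2 => by
    have := hk g1 g2 (hc g1 hg1).symm (hc g2 hg2).symm
    rw [hu.2, ← h.eq] at this
    exact this
  exact hn ⟨hR, Set.Subset.antisymm h3.2 hsub⟩

/-- expansion of an exponent sum of the first family in those of the second family -/
theorem CNT_exp (h1 : St_D1) (h5 : St_FREE) (h6 : St_TR0) (hD : DP M R x) (hD' : DP M' R' x')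
    (h : Sym M R x M' R' x' f f') [Fintype (Same M' R' f')]
    (χ' : Same M' R' f' → D →* Multiplicative ℤ) (hχ' : ∀ u, IsChi M' x' u.1 (χ' u))
    (y : S) (hy : y ∈ Same M R f) (χ : D →* Multiplicative ℤ) (hχ : IsChi M x y χ)
    (g : D) (hg : g ∈ gp x' (perp M' (lk M' f'))) :
    (χ g).toAdd = ∑ u : Same M' R' f', (χ' u g).toAdd * (χ (x' u.1)).toAdd := by
  induction hg using Subgroup.closure_induction with
  | mem g hg =>
    obtain ⟨q, hq, rfl⟩ := hg
    by_cases hs : q ∈ Same M' R' f'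
    · rw [Finset.sum_eq_single (⟨q, hs⟩ : Same M' R' f')]
      · rw [CNT_chi_self (hχ' ⟨q, hs⟩)]
        simp
      · intro u _ hu
        rw [CNT_chi_ne hD'.fl u.2.1 (hχ' u) fun e => hu (Subtype.ext e.symm)]
        simp
      · intro hh
        exact absurd (Finset.mem_univ _) hh
    · rw [CNT_two h1 h5 h6 hD' hD (CNT_symm h) q hq hs y hy χ hχ]
      rw [toAdd_one]
      refine (Finset.sum_eq_zero fun u _ => ?_).symm
      have hqu : q ≠ u.1 := fun e => hs (by rw [e]; exact u.2)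
      rw [CNT_chi_ne hD'.fl u.2.1 (hχ' u) hqu]
      simp
  | one => simp
  | mul a b _ _ ha hb =>
    simp only [map_mul, toAdd_mul, add_mul, Finset.sum_add_distrib]
    rw [ha, hb]
  | inv a _ ha =>
    simp only [map_inv, toAdd_inv, neg_mul, Finset.sum_neg_distrib]
    rw [ha]

theorem CNT_mul (h1 : St_D1) (h5 : St_FREE) (h6 : St_TR0) (hD : DP M R x) (hD' : DP M' R' x')
    (h : Sym M R x M' R' x' f f') [Fintype (Same M R f)] [Fintype (Same M' R' f')]
    (χ : Same M R f → D →* Multiplicative ℤ) (hχ : ∀ y, IsChi M x y.1 (χ y))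
    (χ' : Same M' R' f' → D →* Multiplicative ℤ) (hχ' : ∀ u, IsChi M' x' u.1 (χ' u)) :
    (Matrix.of fun (y : Same M R f) (u : Same M' R' f') => (χ' u (x y.1)).toAdd) *
      (Matrix.of fun (u : Same M' R' f') (y : Same M R f) => (χ y (x' u.1)).toAdd) = 1 := by
  ext y2 y
  rw [Matrix.mul_apply]
  simp only [Matrix.of_apply]
  have hm : x y2.1 ∈ gp x' (perp M' (lk M' f')) :=
    CNT_le h1 h5 h6 hD hD' h (gp_mem x (CNT_same_perp y2.2))
  rw [← CNT_exp h1 h5 h6 hD hD' h χ' hχ' y.1 y.2 (χ y) (hχ y) _ hm, Matrix.one_apply]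
  split_ifs with e
  · rw [e, CNT_chi_self (hχ y)]
    rfl
  · rw [CNT_chi_ne hD.fl y.2.1 (hχ y) fun e2 => e (Subtype.ext e2)]
    rfl

end TwoFam

theorem CNT_thm (h1 : St_D1) (h2 : St_TT) (h3 : St_RESTR) (h4 : St_DPAR) (h5 : St_FREE)
    (h6 : St_TR0) : St_CNT := by
  intro D S S' _ _ _ _ _ M R x M' R' x' hD hD' _ f f' h
  refine ⟨CNT_one h1 h5 h6 hD hD' h, CNT_two h1 h5 h6 hD hD' h, ?_⟩
  classical
  let i1 : Fintype (Same M R f) := Fintype.ofFinite _
  let i2 : Fintype (Same M' R' f') := Fintype.ofFinite _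
  choose χ hχ using fun y : Same M R f => CNT_chi h1 hD y.2.1
  choose χ' hχ' using fun u : Same M' R' f' => CNT_chi h1 hD' u.2.1
  have e1 := CNT_mul h1 h5 h6 hD hD' h χ hχ χ' hχ'
  have e2 := CNT_mul h1 h5 h6 hD' hD (CNT_symm h) χ' hχ' χ hχ
  have e3 := congrArg Matrix.trace e1
  rw [Matrix.trace_mul_comm, e2, Matrix.trace_one, Matrix.trace_one] at e3
  exact ⟨Fintype.equivOfCardEq (Nat.cast_injective (R := ℤ) e3).symm⟩

end Pool.Agent.Lib.MP_1b8ce0_al.T
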