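import Mathlib
import Pool.Agent.Lib.MP_1b8ce0_al.T.StsB

set_option linter.unusedSectionVars false
set_option linter.dupNamespace false

namespace Pool.Agent.Lib.MP_1b8ce0_al.T

open Pool.Agent.Lib.MP_6d85b4_al

section Aux

variable {G S S' : Type} [Group G] {M : CoxeterMatrix S} {x : S → G}
  {M' : CoxeterMatrix S'} {x' : S' → G}

theorem COL_cover (M : CoxeterMatrix S) (s : S) :
    (Cls M s)ᶜ ∪ (Cls M s ∪ Bd M s) = Set.univ := by
  ext t
  by_cases h : t ∈ Cls M s <;> simp [h]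

theorem COL_sep (M : CoxeterMatrix S) (s : S) :
    ∀ a b, a ∉ Cls M s ∪ Bd M s → b ∉ (Cls M s)ᶜ → M a b = 0 := by
  intro a b ha hb
  by_contra h
  have hb' : OddConn M s b := by simpa [Cls] using hb
  refine ha (Or.inr ⟨fun h1 => ha (Or.inl h1), b, hb', ?_⟩)
  rwa [M.symmetric b a]

/-- the exponent sum of a class vanishes on conjugates of the complementary subgroup -/
theorem COL_chi {s : S} {χ : G →* Multiplicative ℤ} (hχ : IsChi M x s χ) {g h : G}
    (hg : g ∈ cj h (gp x (Cls M s)ᶜ)) : χ g = 1 := by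
  have h1 : gp x (Cls M s)ᶜ ≤ χ.ker := gp_le.2 fun t ht => hχ.2 t ht
  have h2 : χ (h⁻¹ * g * h) = 1 := h1 (mem_cj.1 hg)
  rw [map_mul, map_mul, map_inv, mul_right_comm, inv_mul_cancel, one_mul] at h2
  exact h2

/-- no rotation lies in the image of a conjugate of the subgroup of the class -/
theorem COL_norot (hA : St_CA) (A' : ASide M' x') {s : S} (hinf : ¬ IsOfFinOrder (A'.ψ (x s)))
    (hc : Coll M x A' s) {g h : G} (hg : g ∈ cj h (gp x (Cls M s ∪ Bd M s)))
    (hfin : IsOfFinOrder (A'.ψ g)) (hsg : sg A'.N (A'.ψ g) = 1) : A'.ψ g = 1 := by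
  have ca := hA _ A'.N A'.ns
  have h1 : gp x (Cls M s ∪ Bd M s) ≤ (Subgroup.centralizer {A'.ψ (x s)}).comap A'.ψ :=
    gp_le.2 fun t ht => by
      rw [Subgroup.mem_comap, Subgroup.mem_centralizer_singleton_iff]
      exact (hc t ht).eq
  have h2 := h1 (mem_cj.1 hg)
  rw [Subgroup.mem_comap, Subgroup.mem_centralizer_singleton_iff] at h2
  have h3 : IsOfFinOrder (A'.ψ (h⁻¹ * g * h)) := by
    have e : A'.ψ (h⁻¹ * g * h) = (MulAut.conj (A'.ψ h)⁻¹).toMonoidHom (A'.ψ g) := by simp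
    rw [e]
    exact MonoidHom.isOfFinOrder _ hfin
  have h4 : sg A'.N (A'.ψ (h⁻¹ * g * h)) = 1 := by
    rw [map_mul, map_mul, map_mul, map_mul, hsg, mul_one, ← map_mul, ← map_mul, inv_mul_cancel,
      map_one, map_one]
  rcases ca.t1.torc _ _ h3 h2 hinf with h5 | h5
  · rw [map_mul, map_mul, map_inv, mul_assoc, inv_mul_eq_one] at h5
    exact (mul_eq_right.1 h5.symm)
  · rw [(ca.a0.refl_sq _ h5).2.2] at h4
    exact absurd h4 (by decide)

theorem COL_odd {s t : S} (hs : s ∉ Big M) (h : OddConn M s t) : t = s := by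
  induction h with
  | refl => rfl
  | @tail b c _ h2 ih =>
    subst ih
    have h3 := M.off_diagonal _ _ h2.1
    obtain ⟨k, hk⟩ := h2.2
    have h4 : 3 ≤ M b c := by omega
    exact absurd ⟨c, h4⟩ hs

end Aux

theorem COL_thm (hA : St_CA) (h1 : St_D1) (h2 : St_TT) : St_COL := by
  intro G S S' _ _ _ _ _ M x M' x' A A' s χ hχ hinf hc y hy
  obtain ⟨t, hm⟩ := hy
  have ca := hA _ A'.N A'.ns
  have T := (h2 S G M ∅ x _ _ A.art (COL_cover M s) (COL_sep M s)).1
  have D := h1.2 S' G M' ∅ x' A'.art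
  have hyt : y ≠ t := by
    rintro rfl
    rw [M'.diagonal] at hm
    omega
  have hy : y ∈ Big M' := ⟨t, hm⟩
  have ht : t ∈ Big M' := ⟨y, by rwa [M'.symmetric t y]⟩
  have ey := A'.hom.1 y hy
  have et := A'.hom.1 t ht
  have hord : orderOf (sr A'.N (A'.a y) * sr A'.N (A'.a t)) = M' y t := by
    rw [ca.c0.ord, A'.lab _ _ (by rwa [A'.pa, A'.pa]), A'.pa, A'.pa]
  have hrot : ∀ (g h : G) (k : ℕ), g ∈ cj h (gp x (Cls M s ∪ Bd M s)) →
      A'.ψ g = (sr A'.N (A'.a y) * sr A'.N (A'.a t)) ^ k → M' y t ∣ k := by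
    intro g h k hg e
    have h3 : IsOfFinOrder (sr A'.N (A'.a y) * sr A'.N (A'.a t)) :=
      orderOf_pos_iff.1 (by omega)
    have h4 := COL_norot hA A' hinf hc hg (e ▸ h3.pow) (by
      rw [e, map_pow, map_mul, sg_sr, sg_sr]
      simp)
    rw [← hord, orderOf_dvd_iff_pow_eq_one, ← e, h4]
  obtain ⟨cy, ct⟩ := D.zc y t ⟨hyt, by omega⟩
  by_cases hE : Ell (gp x (Cls M s)ᶜ) (gp x (Cls M s ∪ Bd M s)) (zc M' x' y t)
  · obtain ⟨h, hz⟩ := hE
    by_cases hev : Even (M' y t)
    · have h3 : ∀ k, zc M' x' y t ∉ cj k (gp x (Cls M s ∪ Bd M s)) := by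
        intro k hk
        have h4 := hrot _ k (M' y t / 2) hk (by rw [zc, if_pos hev, map_pow, map_mul, ey, et])
        have h5 := Nat.le_of_dvd (by omega) h4
        omega
      exact COL_chi hχ (T.cent1 _ h _ (fun k hk => h3 k (cj_mono k T.le.2 hk))
        (hz.resolve_right (h3 h)) cy)
    · by_contra hne
      have hodd : Odd (M' y t) := Nat.not_even_iff_odd.1 hev
      have h3 : χ (x' t) = χ (x' y) := by
        have h4 := (D.conj y t).2 (Relation.ReflTransGen.single ⟨hyt, hodd⟩)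
        exact (isConj_iff_eq.1 (χ.map_isConj h4)).symm
      have h4 : ∀ k, zc M' x' y t ∉ cj k (gp x (Cls M s)ᶜ) := by
        intro k hk
        have h5 := COL_chi hχ hk
        rw [zc, if_neg hev, map_pow, map_mul, h3, ← pow_two, ← pow_mul] at h5
        apply hne
        have h6 := congrArg Multiplicative.toAdd h5
        rw [toAdd_pow, toAdd_one, smul_eq_zero] at h6
        rcases h6 with h6 | h6
        · omega
        · exact toAdd_eq_zero.1 h6
      have h5 := T.cent2 _ h (x' y * x' t) (fun k hk => h4 k (cj_mono k T.le.1 hk))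
        (hz.resolve_left (h4 h)) (cy.mul_left ct)
      have h6 := hrot _ h 1 h5 (by rw [map_mul, ey, et, pow_one])
      have h7 := Nat.le_of_dvd (by omega) h6
      omega
  · exfalso
    obtain ⟨h, Tr, h3, -, h4, -⟩ := T.hyp _ hE
    have h5 := cj_mono h T.le.2 (h4 _ (h3 _ cy) _ (h3 _ ct))
    have h6 := hrot _ h 2 h5 (by
      rw [cm, map_mul, map_mul, map_mul, map_inv, map_inv, ey, et,
        A'.N.toCoxeterSystem.inv_simple, A'.N.toCoxeterSystem.inv_simple, pow_two]
      simp only [mul_assoc])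
    have h7 := Nat.le_of_dvd (by omega) h6
    omega

theorem NOCOL_thm (h1 : St_D1) (h3 : St_COL) (h4 : St_FCE) : St_NOCOL := by
  intro G S S' _ _ _ _ _ M x M' x' A A' s hs hinf hc
  classical
  obtain ⟨t, hm⟩ := hs
  have D := h1.2 S G M ∅ x A.art
  have D' := h1.2 S' G M' ∅ x' A'.art
  obtain ⟨χ, hχ⟩ := D.chi s fun _ _ => Set.notMem_empty _
  choose κ hκ using fun f => D'.chi f fun _ _ => Set.notMem_empty _
  have hb := h3 G S S' M x M' x' A A' s χ hχ hinf hc
  have e : χ = ∏ f ∈ Finset.univ.filter fun f => f ∉ Big M', κ f ^ (χ (x' f)).toAdd := by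
    refine D'.ext _ _ _ fun y => ?_
    rw [MonoidHom.finsetProd_apply]
    have h5 : ∀ f ∈ Finset.univ.filter fun f => f ∉ Big M', f ≠ y →
        (κ f ^ (χ (x' f)).toAdd) (x' y) = 1 := by
      intro f hf hfy
      rw [MonoidHom.zpow_apply, (hκ f).2 y fun h => hfy (COL_odd (Finset.mem_filter.1 hf).2 h).symm,
        one_zpow]
    by_cases hy : y ∈ Big M'
    · rw [hb y hy, Finset.prod_eq_one]
      intro f hf
      exact h5 f hf fun h => (Finset.mem_filter.1 hf).2 (h ▸ hy)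
    · rw [Finset.prod_eq_single_of_mem y (Finset.mem_filter.2 ⟨Finset.mem_univ _, hy⟩) h5,
        MonoidHom.zpow_apply, (hκ y).1 y Relation.ReflTransGen.refl, ← ofAdd_zsmul, smul_eq_mul,
        mul_one, ofAdd_toAdd]
  have h6 : χ (zc M x s t) = 1 := by
    rw [e, MonoidHom.finsetProd_apply]
    refine Finset.prod_eq_one fun f hf => ?_
    rw [MonoidHom.zpow_apply,
      h4 G S' S M' x' M x A' A f (κ f) (Finset.mem_filter.1 hf).2 (hκ f) s t hm, one_zpow]
  have h7 := congrArg Multiplicative.toAdd h6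
  rw [zc, map_pow, map_mul, hχ.1 s Relation.ReflTransGen.refl, toAdd_pow, toAdd_one,
    smul_eq_zero, toAdd_mul, toAdd_ofAdd] at h7
  rcases h7 with h7 | h7
  · split_ifs at h7 <;> omega
  · by_cases h8 : OddConn M s t
    · rw [hχ.1 t h8, toAdd_ofAdd] at h7
      omega
    · rw [hχ.2 t h8, toAdd_one] at h7
      omega

end Pool.Agent.Lib.MP_1b8ce0_al.T
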