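import Mathlib
import Pool.Agent.Lib.MP_1b8ce0_al.T.StsC

set_option linter.unusedSectionVars false
set_option linter.dupNamespace false

namespace Pool.Agent.Lib.MP_1b8ce0_al.T

open Pool.Agent.Lib.MP_6d85b4_al

/-- the maps `q ↦ c ± q` of the rational line -/
@[ext] structure COUNT_Aff where
  c : ℚ
  e : ℤˣ

instance COUNT_group : Group COUNT_Aff where
  mul g h := ⟨g.c + ((g.e : ℤ) : ℚ) * h.c, g.e * h.e⟩
  one := ⟨0, 1⟩
  inv g := ⟨-(((g.e⁻¹ : ℤˣ) : ℤ) : ℚ) * g.c, g.e⁻¹⟩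
  mul_assoc g h k := by
    apply COUNT_Aff.ext
    · change g.c + ((g.e : ℤ) : ℚ) * h.c + (((g.e * h.e : ℤˣ) : ℤ) : ℚ) * k.c =
        g.c + ((g.e : ℤ) : ℚ) * (h.c + ((h.e : ℤ) : ℚ) * k.c)
      push_cast
      ring
    · exact mul_assoc g.e h.e k.e
  one_mul g := by
    apply COUNT_Aff.ext
    · change 0 + (((1 : ℤˣ) : ℤ) : ℚ) * g.c = g.c
      simp
    · exact one_mul g.e
  mul_one g := by
    apply COUNT_Aff.ext
    · change g.c + ((g.e : ℤ) : ℚ) * 0 = g.c
      simp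
    · exact mul_one g.e
  inv_mul_cancel g := by
    apply COUNT_Aff.ext
    · change -(((g.e⁻¹ : ℤˣ) : ℤ) : ℚ) * g.c + (((g.e⁻¹ : ℤˣ) : ℤ) : ℚ) * g.c = 0
      ring
    · exact inv_mul_cancel g.e

/-- the sign -/
def COUNT_sgn : COUNT_Aff →* ℤˣ where
  toFun g := g.e
  map_one' := rfl
  map_mul' _ _ := rfl

/-- rational cocycles twisted by a sign character -/
def COUNT_Z {D : Type} [Group D] (χ : D →* ℤˣ) : Submodule ℚ (D → ℚ) where
  carrier := {c | ∀ g h, c (g * h) = c g + ((χ g : ℤ) : ℚ) * c h}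
  add_mem' := fun {a b} ha hb g h => by
    simp only [Pi.add_apply, ha g h, hb g h]
    ring
  zero_mem' := fun g h => by simp
  smul_mem' := fun t a ha g h => by
    simp only [Pi.smul_apply, smul_eq_mul, ha g h]
    ring

theorem COUNT_le {D A B : Type} [Finite A] [Finite B] (Z : Submodule ℚ (D → ℚ)) (α : A → D)
    (β : B → D) (hs : ∀ v : A → ℚ, ∃ c ∈ Z, ∀ a, c (α a) = v a)
    (hi : ∀ c ∈ Z, (∀ b, c (β b) = 0) → c = 0) : Nat.card A ≤ Nat.card B := by
  have := Fintype.ofFinite A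
  have := Fintype.ofFinite B
  have h1 : Function.Injective ((LinearMap.funLeft ℚ ℚ β).comp Z.subtype) := by
    rw [injective_iff_map_eq_zero]
    intro c hc
    exact Subtype.ext (hi c.1 c.2 fun b => congrFun hc b)
  have h2 : Function.Surjective ((LinearMap.funLeft ℚ ℚ α).comp Z.subtype) := by
    intro v
    obtain ⟨c, hc, hv⟩ := hs v
    exact ⟨⟨c, hc⟩, funext hv⟩
  have := Module.Finite.of_injective _ h1
  have h3 := LinearMap.finrank_le_finrank_of_injective h1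
  have h4 := LinearMap.finrank_le_finrank_of_surjective h2
  rw [Module.finrank_fintype_fun_eq_card] at h3 h4
  rw [Nat.card_eq_fintype_card, Nat.card_eq_fintype_card]
  exact h4.trans h3

theorem COUNT_split {S : Type} [Finite S] (Q P : S → Prop) :
    Nat.card {f // Q f ∧ P f} + Nat.card {f // Q f ∧ ¬ P f} = Nat.card {f // Q f} := by
  classical
  rw [← Nat.card_sum]
  exact Nat.card_congr (((Equiv.subtypeSubtypeEquivSubtypeInter Q P).symm.sumCongr
    (Equiv.subtypeSubtypeEquivSubtypeInter Q fun f => ¬ P f).symm).trans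
      (Equiv.sumCompl fun f : {f // Q f} => P f.1))

theorem COUNT_alt_odd {G : Type} [Monoid G] (s t : G) (k : ℕ) :
    alt s t (2 * k + 1) = (s * t) ^ k * s := by
  have h2 : (2 * k) % 2 = 0 := by omega
  rw [← alt_two_mul]
  unfold alt
  rw [List.range_succ, List.map_append, List.prod_append]
  simp only [List.map_cons, List.map_nil, List.prod_cons, List.prod_nil, h2, if_true, mul_one]

theorem COUNT_braid {S H : Type} [Group H] (M : CoxeterMatrix S) (F : S → H)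
    (h : ∀ s t, s ≠ t → M s t ≠ 0 → F s = F t ∨ (Even (M s t) ∧ F s * F t = F t * F s)) :
    Braid M Set.univ F := by
  intro s _ t _ hst h0
  rcases h s t hst h0 with h1 | ⟨⟨k, hk⟩, h1⟩
  · rw [h1]
  · rw [hk, ← two_mul, alt_two_mul, alt_two_mul, h1]

theorem COUNT_flex {S : Type} {M : CoxeterMatrix S} {R : Set S} (hF : Flex M R) {s t : S}
    (hst : s ≠ t) (h0 : M s t ≠ 0) (h : s ∉ R ∨ t ∉ R) : M s t = 2 := by
  rcases h with h | h
  · exact (hF s h t hst.symm).resolve_left h0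
  · rw [M.symmetric] at h0 ⊢
    exact (hF t h s hst).resolve_left h0

section Cocycle

variable {D S : Type} [Group D] {χ : D →* ℤˣ} {c : D → ℚ} {M : CoxeterMatrix S} {R : Set S}
  {x : S → D}

theorem COUNT_one (hc : c ∈ COUNT_Z χ) : c 1 = 0 := by
  have h := hc 1 1
  simp only [mul_one, map_one, Units.val_one, Int.cast_one, one_mul] at h
  linarith

theorem COUNT_zero (hx : IsDyer M R x) (hc : c ∈ COUNT_Z χ) (h : ∀ s, c (x s) = 0) : c = 0 := by
  funext g
  have hg : g ∈ gp x Set.univ := by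
    rw [hx.top]
    exact Subgroup.mem_top g
  induction hg using Subgroup.closure_induction with
  | mem g hg =>
    obtain ⟨s, _, rfl⟩ := hg
    exact h s
  | one => exact COUNT_one hc
  | mul a b _ _ ha hb =>
    have ha' : c a = 0 := ha
    have hb' : c b = 0 := hb
    show c (a * b) = 0
    rw [hc a b, ha', hb', mul_zero, add_zero]
  | inv a _ ha =>
    have ha' : c a = 0 := ha
    have h1 := hc a⁻¹ a
    rw [inv_mul_cancel, COUNT_one hc, ha', mul_zero, add_zero] at h1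
    exact h1.symm

theorem COUNT_sq (hc : c ∈ COUNT_Z χ) {g : D} (hg : g * g = 1) (h1 : χ g = 1) : c g = 0 := by
  have h := hc g g
  rw [hg, COUNT_one hc, h1] at h
  simp only [Units.val_one, Int.cast_one, one_mul] at h
  linarith

theorem COUNT_pow (hc : c ∈ COUNT_Z χ) {g : D} (h1 : χ g = 1) (k : ℕ) :
    c (g ^ k) = k * c g := by
  induction k with
  | zero => simpa using COUNT_one hc
  | succ k ih =>
    rw [pow_succ', hc, h1, ih]
    push_cast
    ring

theorem COUNT_odd (hc : c ∈ COUNT_Z χ) {a b : D} (ha : χ a = -1) (hb : χ b = -1) {m : ℕ}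
    (hm : Odd m) (h : alt a b m = alt b a m) : c a = c b := by
  obtain ⟨k, rfl⟩ := hm
  have hab : χ (a * b) = 1 := by rw [map_mul, ha, hb, neg_mul_neg, one_mul]
  have hba : χ (b * a) = 1 := by rw [map_mul, ha, hb, neg_mul_neg, one_mul]
  have h1 := congrArg c h
  rw [COUNT_alt_odd, COUNT_alt_odd, hc, hc ((b * a) ^ k), COUNT_pow hc hab, COUNT_pow hc hba,
    hc a b, hc b a, map_pow, map_pow, hab, hba, ha, hb, one_pow] at h1
  push_cast at h1
  have h2 : (2 * (k : ℚ) + 1) * (c a - c b) = 0 := by linarith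
  have h3 : (2 * (k : ℚ) + 1) ≠ 0 := by positivity
  exact sub_eq_zero.1 ((mul_eq_zero.1 h2).resolve_left h3)

theorem COUNT_lift (hx : IsDyer M R x) (hG : D1 M R x) (χ : D →* ℤˣ) (v : S → ℚ)
    (hb : ∀ s t, s ≠ t → M s t ≠ 0 → (v s = v t ∧ χ (x s) = χ (x t)) ∨ (Even (M s t) ∧
      v s + ((χ (x s) : ℤ) : ℚ) * v t = v t + ((χ (x t) : ℤ) : ℚ) * v s))
    (hq : ∀ s ∈ R, v s + ((χ (x s) : ℤ) : ℚ) * v s = 0) :
    ∃ c ∈ COUNT_Z χ, ∀ s, c (x s) = v s := by
  obtain ⟨φ, hφ⟩ := hx.lift COUNT_Aff (fun s => ⟨v s, χ (x s)⟩)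
    (COUNT_braid M _ fun s t hst h0 => by
      rcases hb s t hst h0 with ⟨h1, h2⟩ | ⟨h1, h2⟩
      · exact Or.inl (COUNT_Aff.ext h1 h2)
      · exact Or.inr ⟨h1, COUNT_Aff.ext h2 (mul_comm (χ (x s)) (χ (x t)))⟩)
    (fun s hs => COUNT_Aff.ext (hq s hs) (Int.units_mul_self (χ (x s))))
  have he : COUNT_sgn.comp φ = χ := hG.ext ℤˣ _ _ fun s => by
    show (φ (x s)).e = χ (x s)
    rw [hφ]
  refine ⟨fun g => (φ g).c, fun g h => ?_, fun s => ?_⟩
  · have h1 : (φ g).e = χ g := DFunLike.congr_fun he g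
    show (φ (g * h)).c = (φ g).c + ((χ g : ℤ) : ℚ) * (φ h).c
    rw [map_mul, ← h1]
    rfl
  · show (φ (x s)).c = v s
    rw [hφ]

theorem COUNT_add (hc : c ∈ COUNT_Z (1 : D →* ℤˣ)) (g h : D) : c (g * h) = c g + c h := by
  simpa using hc g h

theorem COUNT_hom (hx : DP M R x) (hG : D1 M R x) (v : S → ℚ) (hv : ∀ s ∈ R, v s = 0) :
    ∃ c ∈ COUNT_Z (1 : D →* ℤˣ), ∀ s, c (x s) = v s := by
  refine COUNT_lift hx.dy hG 1 v (fun s t hst h0 => ?_) fun s hs => by simp [hv s hs]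
  by_cases h : s ∈ R ∧ t ∈ R
  · exact Or.inl ⟨by rw [hv s h.1, hv t h.2], rfl⟩
  · refine Or.inr ⟨?_, by simp [add_comm]⟩
    rw [COUNT_flex hx.fl hst h0 (not_and_or.1 h)]
    exact even_two

theorem COUNT_homR (hx : DP M R x) (hc : c ∈ COUNT_Z (1 : D →* ℤˣ)) (s : S) (hs : s ∈ R) :
    c (x s) = 0 := COUNT_sq hc (hx.dy.sqr s hs) rfl

end Cocycle

section Two

variable {D S S' : Type} [Group D] [Finite S] [Finite S'] {M : CoxeterMatrix S} {R : Set S}
  {x : S → D} {M' : CoxeterMatrix S'} {R' : Set S'} {x' : S' → D}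

theorem COUNT_first (hx : DP M R x) (hG : D1 M R x) (hx' : DP M' R' x') :
    Nat.card {f // f ∉ R} ≤ Nat.card {f // f ∉ R'} := by
  classical
  refine COUNT_le (COUNT_Z (1 : D →* ℤˣ)) (fun f => x f.1) (fun f => x' f.1) (fun v => ?_)
    fun c hc h => ?_
  · obtain ⟨c, hc, h⟩ := COUNT_hom hx hG (fun s => if h : s ∉ R then v ⟨s, h⟩ else 0)
      fun s hs => dif_neg (not_not.2 hs)
    exact ⟨c, hc, fun f => by rw [h, dif_pos f.2]⟩
  · refine COUNT_zero hx'.dy hc fun s => ?_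
    by_cases hs : s ∈ R'
    · exact COUNT_homR hx' hc s hs
    · exact h ⟨s, hs⟩

theorem COUNT_rad (hx : DP M R x) (hx' : DP M' R' x') (hG' : D1 M' R' x') {c : D → ℚ}
    (hc : c ∈ COUNT_Z (1 : D →* ℤˣ)) (h : ∀ f g, f ∉ R → g ∉ R → M f g = 2 → c (x f) = 0)
    (f g : S') (hg : g ∉ R') (hfg : M' f g = 2) : c (x' f) = 0 := by
  classical
  have hne : f ≠ g := by
    rintro rfl
    rw [M'.diagonal] at hfg
    omega
  obtain ⟨c2, hc2, h2⟩ := COUNT_hom hx' hG' (fun s => if s = g then 1 else 0)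
    fun s hs => if_neg fun e : s = g => hg (e ▸ hs)
  have hR : ∀ s ∈ R, (⟨c (x s), c2 (x s), 0⟩ : Heis ℚ) = 1 := fun s hs =>
    Heis.ext (COUNT_homR hx hc s hs) (COUNT_homR hx hc2 s hs) rfl
  obtain ⟨Φ, hΦ⟩ := hx.dy.lift (Heis ℚ) (fun s => ⟨c (x s), c2 (x s), 0⟩)
    (COUNT_braid M _ fun s t hst h0 => by
      by_cases h3 : s ∈ R ∧ t ∈ R
      · exact Or.inl ((hR s h3.1).trans (hR t h3.2).symm)
      · have h4 := COUNT_flex hx.fl hst h0 (not_and_or.1 h3)
        refine Or.inr ⟨by rw [h4]; exact even_two, ?_⟩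
        by_cases hs : s ∈ R
        · rw [hR s hs, one_mul, mul_one]
        · by_cases ht : t ∈ R
          · rw [hR t ht, one_mul, mul_one]
          · have a1 := h s t hs ht h4
            have a2 := h t s ht hs (by rw [M.symmetric]; exact h4)
            apply Heis.ext <;> simp [a1, a2, add_comm])
    (fun s hs => by rw [hR s hs, mul_one])
  have ha : (fun g => (Φ g).a) - c = 0 := by
    refine COUNT_zero hx.dy ((COUNT_Z (1 : D →* ℤˣ)).sub_mem (fun g h => by simp) hc) fun s => ?_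
    simp [hΦ]
  have hb : (fun g => (Φ g).b) - c2 = 0 := by
    refine COUNT_zero hx.dy ((COUNT_Z (1 : D →* ℤˣ)).sub_mem (fun g h => by simp) hc2) fun s => ?_
    simp [hΦ]
  have ha' : ∀ g, (Φ g).a = c g := fun g => congrFun (sub_eq_zero.1 ha) g
  have hb' : ∀ g, (Φ g).b = c2 g := fun g => congrFun (sub_eq_zero.1 hb) g
  have h5 := congrArg (fun g => (Φ g).c) (hG'.two f g hfg).eq
  simp only [map_mul, Heis.mul_c, ha', hb', h2, if_neg hne, if_true] at h5
  linarith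

theorem COUNT_second (hx : DP M R x) (hG : D1 M R x) (hx' : DP M' R' x') (hG' : D1 M' R' x') :
    Nat.card {f // f ∉ R ∧ ¬ ∃ g, g ∉ R ∧ M f g = 2} ≤
      Nat.card {f // f ∉ R' ∧ ¬ ∃ g, g ∉ R' ∧ M' f g = 2} := by
  classical
  refine COUNT_le (COUNT_Z (1 : D →* ℤˣ) ⊓
    ⨅ f : {f // ∃ g, g ∉ R' ∧ M' f g = 2}, LinearMap.ker (LinearMap.proj (x' f.1)))
    (fun f => x f.1) (fun f => x' f.1) (fun v => ?_) fun c hc h => ?_
  · obtain ⟨c, hc, h⟩ := COUNT_hom hx hG
      (fun s => if h : s ∉ R ∧ ¬ ∃ g, g ∉ R ∧ M s g = 2 then v ⟨s, h⟩ else 0)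
      fun s hs => dif_neg fun h => h.1 hs
    refine ⟨c, ⟨hc, (Submodule.mem_iInf _).2 ?_⟩, fun f => by rw [h, dif_pos f.2]⟩
    rintro ⟨f, g, hg, hfg⟩
    refine COUNT_rad hx hx' hG' hc (fun f g _ hg hfg => ?_) f g hg hfg
    rw [h, dif_neg fun h' => h'.2 ⟨g, hg, hfg⟩]
  · refine COUNT_zero hx'.dy hc.1 fun s => ?_
    by_cases hs : s ∈ R'
    · exact COUNT_homR hx' hc.1 s hs
    · by_cases h2 : ∃ g, g ∉ R' ∧ M' s g = 2
      · exact (Submodule.mem_iInf _).1 hc.2 ⟨s, h2⟩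
      · exact h ⟨s, hs, h2⟩

theorem COUNT_cls (hF : Flex M R) {l s : S} (hl : l ∈ R) (h : OddConn M l s) : s ∈ R := by
  induction h with
  | refl => exact hl
  | @tail u v _ huv _ =>
    by_contra hv
    have h0 : M u v ≠ 0 := by
      intro h
      have h1 := huv.2
      rw [h] at h1
      exact absurd h1 (by decide)
    have h1 := huv.2
    rw [COUNT_flex hF huv.1 h0 (Or.inr hv)] at h1
    exact absurd h1 (by decide)

theorem COUNT_third (hx : DP M R x) (hG : D1 M R x) (hx' : DP M' R' x') (hG' : D1 M' R' x')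
    (hm : Matched R x R' x') (l : S) (hl : l ∈ R) (l' : S') (hc : IsConj (x l) (x' l')) :
    Nat.card {f // f ∉ R ∧ ¬ ∃ g ∈ R, M f g = 2 ∧ IsConj (x g) (x l)} ≤
      Nat.card {f // f ∉ R' ∧ ¬ ∃ g ∈ R', M' f g = 2 ∧ IsConj (x' g) (x' l')} := by
  classical
  obtain ⟨χ, hχ1, hχ2⟩ := hG.chc l
  have hcj : ∀ a b, IsConj a b → χ a = χ b := fun a b h => isConj_iff_eq.1 (χ.map_isConj h)
  have hl' : χ (x' l') = -1 := by rw [← hcj _ _ hc, hχ1 l Relation.ReflTransGen.refl]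
  have key := COUNT_le (COUNT_Z χ)
    (fun a : Option {f // f ∉ R ∧ ¬ ∃ g ∈ R, M f g = 2 ∧ IsConj (x g) (x l)} =>
      a.elim (x l) fun f => x f.1)
    (fun a : Option {f // f ∉ R' ∧ ¬ ∃ g ∈ R', M' f g = 2 ∧ IsConj (x' g) (x' l')} =>
      a.elim (x' l') fun f => x' f.1) (fun v => ?_) fun c hc' h => ?_
  · rw [Finite.card_option, Finite.card_option] at key
    omega
  · obtain ⟨w, hw1, hw2, hw3⟩ : ∃ w : S → ℚ, (∀ s, OddConn M l s → w s = v none) ∧
        (∀ s (h : s ∉ R ∧ ¬ ∃ g ∈ R, M s g = 2 ∧ IsConj (x g) (x l)), w s = v (some ⟨s, h⟩)) ∧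
        ∀ s, ¬ OddConn M l s → ¬ (s ∉ R ∧ ¬ ∃ g ∈ R, M s g = 2 ∧ IsConj (x g) (x l)) →
          w s = 0 := by
      refine ⟨fun s => if OddConn M l s then v none else
        if h : s ∉ R ∧ ¬ ∃ g ∈ R, M s g = 2 ∧ IsConj (x g) (x l) then v (some ⟨s, h⟩) else 0,
        fun s hs => if_pos hs, fun s h => ?_, fun s hs h => ?_⟩
      · exact (if_neg fun hs => h.1 (COUNT_cls hx.fl hl hs)).trans (dif_pos h)
      · exact (if_neg hs).trans (dif_neg h)
    have hmix : ∀ s t, s ≠ t → M s t ≠ 0 → OddConn M l s → ¬ OddConn M l t →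
        Even (M s t) ∧ w t = 0 := by
      intro s t hst h0 hs ht
      refine ⟨?_, hw3 t ht fun h => h.2 ⟨s, COUNT_cls hx.fl hl hs, ?_, ?_⟩⟩
      · by_contra h
        exact ht (Relation.ReflTransGen.tail hs ⟨hst, Nat.not_even_iff_odd.1 h⟩)
      · rw [M.symmetric]
        exact COUNT_flex hx.fl hst h0 (Or.inr h.1)
      · exact ((hG.conj l s).2 hs).symm
    obtain ⟨c, hc1, hc2⟩ := COUNT_lift hx.dy hG χ w (fun s t hst h0 => by
      by_cases hs : OddConn M l s <;> by_cases ht : OddConn M l t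
      · exact Or.inl ⟨by rw [hw1 s hs, hw1 t ht], by rw [hχ1 s hs, hχ1 t ht]⟩
      · obtain ⟨a1, a2⟩ := hmix s t hst h0 hs ht
        exact Or.inr ⟨a1, by simp [a2, hχ2 t ht]⟩
      · obtain ⟨a1, a2⟩ := hmix t s hst.symm (by rw [M.symmetric]; exact h0) ht hs
        exact Or.inr ⟨by rw [M.symmetric]; exact a1, by simp [a2, hχ2 s hs]⟩
      · by_cases h3 : s ∈ R ∧ t ∈ R
        · exact Or.inl ⟨by rw [hw3 s hs fun h => h.1 h3.1, hw3 t ht fun h => h.1 h3.2],
            by rw [hχ2 s hs, hχ2 t ht]⟩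
        · refine Or.inr ⟨?_, by simp [hχ2 s hs, hχ2 t ht, add_comm]⟩
          rw [COUNT_flex hx.fl hst h0 (not_and_or.1 h3)]
          exact even_two)
      (fun s hs => by
        by_cases h : OddConn M l s
        · simp [hχ1 s h]
        · simp [hw3 s h fun h' => h'.1 hs])
    refine ⟨c, hc1, ?_⟩
    rintro (_ | f)
    · exact (hc2 l).trans (hw1 l Relation.ReflTransGen.refl)
    · exact (hc2 f.1).trans (hw2 f.1 f.2)
  · have hcl : ∀ s, OddConn M' l' s → c (x' s) = 0 := by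
      intro s hs
      induction hs with
      | refl => exact h none
      | @tail u v hu huv ih =>
        have h0 : M' u v ≠ 0 := by
          intro h
          have h1 := huv.2
          rw [h] at h1
          exact absurd h1 (by decide)
        have a1 : χ (x' u) = -1 := by rw [← hcj _ _ ((hG'.conj l' u).2 hu), hl']
        have a2 : χ (x' v) = -1 := by
          rw [← hcj _ _ ((hG'.conj l' v).2 (Relation.ReflTransGen.tail hu huv)), hl']
        rw [← COUNT_odd hc' a1 a2 huv.2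
          (hx'.dy.braid u (Set.mem_univ _) v (Set.mem_univ _) huv.1 h0), ih]
    refine COUNT_zero hx'.dy hc' fun s => ?_
    by_cases hs : s ∈ R'
    · obtain ⟨t, _, ht⟩ := hm.2 s hs
      by_cases h1 : OddConn M l t
      · exact hcl s ((hG'.conj l' s).1 (hc.symm.trans (((hG.conj l t).2 h1).trans ht)))
      · exact COUNT_sq hc' (hx'.dy.sqr s hs) (by rw [← hcj _ _ ht, hχ2 t h1])
    · by_cases h2 : ∃ g ∈ R', M' s g = 2 ∧ IsConj (x' g) (x' l')
      · obtain ⟨g, _, hsg, hg⟩ := h2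
        have a1 : c (x' g) = 0 := hcl g ((hG'.conj l' g).1 hg.symm)
        have a2 : χ (x' g) = -1 := by rw [hcj _ _ hg, hl']
        have a3 := congrArg c (hG'.two s g hsg).eq
        rw [hc', hc', a1, a2] at a3
        push_cast at a3
        linarith
      · exact h (some ⟨s, hs, h2⟩)

end Two

theorem COUNT_thm (h1 : St_D1) : St_COUNT := by
  intro D S S' _ _ _ _ _ M R x M' R' x' hx hx' hm _ _
  have hG := h1.2 S D M R x hx.dy
  have hG' := h1.2 S' D M' R' x' hx'.dy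
  have a1 : Nat.card {f // f ∉ R} = Nat.card {f // f ∉ R'} :=
    le_antisymm (COUNT_first hx hG hx') (COUNT_first hx' hG' hx)
  refine ⟨a1, ?_, fun l hl l' _ hc => ?_⟩
  · have a2 := COUNT_second hx hG hx' hG'
    have a3 := COUNT_second hx' hG' hx hG
    have a4 := COUNT_split (fun f => f ∉ R) fun f => ∃ g, g ∉ R ∧ M f g = 2
    have a5 := COUNT_split (fun f => f ∉ R') fun f => ∃ g, g ∉ R' ∧ M' f g = 2
    omega
  · have a2 := COUNT_third hx hG hx' hG' hm l hl l' hc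
    have a4 := COUNT_split (fun f => f ∉ R) fun f => ∃ g ∈ R, M f g = 2 ∧ IsConj (x g) (x l)
    have a5 := COUNT_split (fun f => f ∉ R') fun f =>
      ∃ g ∈ R', M' f g = 2 ∧ IsConj (x' g) (x' l')
    omega

end Pool.Agent.Lib.MP_1b8ce0_al.T
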