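import Mathlib
import Pool.Agent.Lib.MP_1b8ce0_al.T.StsA

/-! Formal properties of presentations by braid relations and squares. -/

set_option linter.dupNamespace false

namespace Pool.Agent.Lib.MP_1b8ce0_al.T

open Pool.Agent.Lib.MP_6d85b4_al

theorem D1_alt_odd {G : Type} [Monoid G] (s t : G) (k : ℕ) :
    alt s t (2 * k + 1) = (s * t) ^ k * s := by
  rw [← alt_two_mul]
  have h2 : (2 * k) % 2 = 0 := by omega
  unfold alt
  rw [List.range_succ, List.map_append, List.prod_append]
  simp only [List.map_cons, List.map_nil, List.prod_cons, List.prod_nil, h2, if_true, mul_one]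

variable {S G : Type} [Group G] {M : CoxeterMatrix S} {R : Set S} {x : S → G}

theorem D1_braid_map {H : Type} [Group H] (φ : G →* H) {T : Set S} (h : Braid M T x) :
    Braid M T fun s => φ (x s) := fun s hs t ht hst h0 => by
  rw [← map_alt, ← map_alt, h s hs t ht hst h0]

theorem D1_braid_comm {H : Type} [CommGroup H] (f : S → H)
    (h : ∀ s t, s ≠ t → Odd (M s t) → f s = f t) : Braid M Set.univ f := by
  intro s _ t _ hst _
  rcases Nat.even_or_odd (M s t) with ⟨k, hk⟩ | ho
  · rw [hk, ← two_mul, alt_two_mul, alt_two_mul, mul_comm]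
  · rw [h s t hst ho]

theorem D1_ext (h : IsDyer M R x) {H : Type} [Group H] (φ φ' : G →* H)
    (e : ∀ s, φ (x s) = φ' (x s)) : φ = φ' :=
  MonoidHom.eq_of_eqOn_dense h.top (by rintro _ ⟨s, -, rfl⟩; exact e s)

theorem D1_quot (h : IsDyer M R x) {H : Type} [Group H] (π : G →* H) (R1 : Set S)
    (hs : Function.Surjective π) (hR : R ⊆ R1) (h1 : ∀ s ∈ R1, π (x s * x s) = 1)
    (hk : ∀ g, π g = 1 → g ∈ Subgroup.normalClosure {y | ∃ s ∈ R1, y = x s * x s}) :
    IsDyer M R1 fun s => π (x s) := by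
  refine ⟨?_, D1_braid_map π h.braid, fun s hs => by rw [← map_mul, h1 s hs], ?_⟩
  · have : gp (fun s => π (x s)) Set.univ = (gp x Set.univ).map π := by
      rw [gp, gp, MonoidHom.map_closure, Set.image_image]
    rw [this, h.top]
    exact Subgroup.map_top_of_surjective π hs
  · intro K _ f hf hsq
    obtain ⟨φ, hφ⟩ := h.lift K f hf fun s hs => hsq s (hR hs)
    have hker : π.ker ≤ φ.ker := fun g hg => by
      refine Subgroup.normalClosure_le_normal ?_ (hk g hg)
      rintro _ ⟨s, hs, rfl⟩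
      change φ (x s * x s) = 1
      rw [map_mul, hφ, hsq s hs]
    refine ⟨π.liftOfRightInverse _ (Function.rightInverse_surjInv hs) ⟨φ, hker⟩, fun s => ?_⟩
    rw [MonoidHom.liftOfRightInverse_comp_apply]
    exact hφ s

theorem D1_iso (h : IsDyer M R x) {H : Type} [Group H] (e : G ≃* H) :
    IsDyer M R fun s => e (x s) :=
  D1_quot h e.toMonoidHom R e.surjective subset_rfl (fun s hs => by rw [h.sqr s hs, map_one])
    fun g hg => by
      have : g = 1 := e.injective (by rw [map_one]; exact hg)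
      rw [this]
      exact Subgroup.one_mem _

theorem D1_odd_iff {s t u : S} (htu : t ≠ u) (ho : Odd (M t u)) :
    OddConn M s t ↔ OddConn M s u :=
  ⟨fun h => h.tail ⟨htu, ho⟩, fun h => h.tail ⟨htu.symm, by rwa [M.symmetric]⟩⟩

theorem D1_cls (h : IsDyer M R x) {H : Type} [CommGroup H] (c : H) (s : S)
    (hc : ∀ t ∈ R, OddConn M s t → c * c = 1) :
    ∃ χ : G →* H, (∀ t, OddConn M s t → χ (x t) = c) ∧ ∀ t, ¬ OddConn M s t → χ (x t) = 1 := by
  classical
  obtain ⟨χ, hχ⟩ := h.lift H (fun t => if OddConn M s t then c else 1)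
    (D1_braid_comm _ fun t u htu ho => by simp only [D1_odd_iff htu ho]) fun t ht => by
      split_ifs with h1
      · exact hc t ht h1
      · exact one_mul 1
  exact ⟨χ, fun t ht => by rw [hχ, if_pos ht], fun t ht => by rw [hχ, if_neg ht]⟩

theorem D1_odd (h : IsDyer M R x) {s t : S} {k : ℕ} (hst : s ≠ t) (hk : M s t = 2 * k + 1) :
    (x s * x t) ^ k * x s = (x t * x s) ^ k * x t := by
  have := h.braid s trivial t trivial hst (by omega)
  rwa [hk, D1_alt_odd, D1_alt_odd] at this

theorem D1_even (h : IsDyer M R x) {s t : S} {k : ℕ} (hst : s ≠ t) (h0 : 0 < k)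
    (hk : M s t = 2 * k) : (x s * x t) ^ k = (x t * x s) ^ k := by
  have := h.braid s trivial t trivial hst (by omega)
  rwa [hk, alt_two_mul, alt_two_mul] at this

theorem D1_swap {a b : G} {k : ℕ} (h : (a * b) ^ k * a = (b * a) ^ k * b) :
    (a * b) ^ k * a * b = a * ((a * b) ^ k * a) := by
  conv_rhs => rw [h, ← mul_assoc, ← mul_pow_mul]

theorem D1_zc_odd {a b : G} {k : ℕ} (h : (a * b) ^ k * a = (b * a) ^ k * b) :
    Commute a ((a * b) ^ (2 * k + 1)) ∧ Commute b ((a * b) ^ (2 * k + 1)) := by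
  have h1 := D1_swap h
  have h2 := D1_swap h.symm
  rw [← h] at h2
  have h3 : (a * b) ^ (2 * k + 1) = ((a * b) ^ k * a) * ((a * b) ^ k * a) := by
    conv_rhs => rw [mul_assoc, h, mul_pow_mul, ← mul_assoc a, ← pow_succ', ← pow_add]
    congr 1
    ring
  rw [h3]
  generalize (a * b) ^ k * a = D at h1 h2
  constructor
  · change a * (D * D) = D * D * a
    rw [← mul_assoc, ← h1, mul_assoc, ← h2, mul_assoc]
  · change b * (D * D) = D * D * b
    rw [← mul_assoc, ← h2, mul_assoc, ← h1, mul_assoc]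

theorem D1_two (h : IsDyer M R x) {s t : S} (h2 : M s t = 2) : Commute (x s) (x t) := by
  have hst : s ≠ t := by
    rintro rfl
    rw [M.diagonal] at h2
    omega
  have := D1_even h (k := 1) hst one_pos h2
  rwa [pow_one, pow_one] at this

theorem D1_perp {P L : Set S} (h : ∀ p ∈ P, ∀ l ∈ L, Commute (x p) (x l)) :
    ∀ u ∈ gp x P, ∀ v ∈ gp x L, Commute u v := by
  have h1 : ∀ p ∈ P, gp x L ≤ Subgroup.centralizer {x p} := fun p hp =>
    gp_le.2 fun l hl => Subgroup.mem_centralizer_singleton_iff.2 (h p hp l hl).symm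
  intro u hu v hv
  have h2 : gp x P ≤ Subgroup.centralizer {v} := gp_le.2 fun p hp =>
    Subgroup.mem_centralizer_singleton_iff.2
      (Subgroup.mem_centralizer_singleton_iff.1 (h1 p hp hv)).symm
  exact Subgroup.mem_centralizer_singleton_iff.1 (h2 hu)

theorem D1_star (h : IsDyer M R x) (s : S) (g : G) (hg : g ∈ gp x (insert s (lk M s))) :
    ∃ (n : ℤ), ∃ l ∈ gp x (lk M s), g = x s ^ n * l := by
  have hc : ∀ l ∈ gp x (lk M s), ∀ n : ℤ, Commute (x s ^ n) l := fun l hl n =>
    (D1_perp (P := {s}) (by rintro _ rfl t ht; exact D1_two h ht) _ (gp_mem x rfl) l hl).zpow_left n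
  induction hg using Subgroup.closure_induction with
  | mem y hy =>
    obtain ⟨t, rfl | ht, rfl⟩ := hy
    · exact ⟨1, 1, Subgroup.one_mem _, by simp⟩
    · exact ⟨0, _, gp_mem x ht, by simp⟩
  | one => exact ⟨0, 1, Subgroup.one_mem _, by simp⟩
  | mul a b _ _ ha hb =>
    obtain ⟨n, l, hl, rfl⟩ := ha
    obtain ⟨n', l', hl', rfl⟩ := hb
    refine ⟨n + n', l * l', Subgroup.mul_mem _ hl hl', ?_⟩
    rw [zpow_add, mul_assoc, ← mul_assoc l, ← (hc l hl n').eq, mul_assoc, mul_assoc]
  | inv a _ ha =>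
    obtain ⟨n, l, hl, rfl⟩ := ha
    refine ⟨-n, l⁻¹, Subgroup.inv_mem _ hl, ?_⟩
    rw [(hc l hl n).eq, mul_inv_rev, zpow_neg]

theorem D1_thm : St_D1 := by
  refine ⟨fun S M => ⟨?_, fun s _ t _ hst h0 => gen_alt M hst h0, fun s hs => hs.elim,
    fun H _ f hf _ => exists_lift_alt M f fun s t => hf s trivial t trivial⟩,
    fun S G _ M R x h => ?_⟩
  · rw [gp, Set.image_univ]
    exact PresentedGroup.closure_range_of (artinRels M)
  have chc := fun s => D1_cls h (-1 : ℤˣ) s fun _ _ _ => Int.units_mul_self _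
  refine ⟨fun H _ => D1_ext h, fun H _ => D1_iso h, fun d => D1_iso h (MulAut.conj d),
    fun H _ π R1 hs hR hk => D1_quot h π R1 hs hR
      (fun s hs => (hk _).2 (Subgroup.subset_normalClosure ⟨s, hs, rfl⟩)) fun g => (hk g).1,
    fun θ θ' h1 h2 => ?_, fun f hf => h.lift _ f (D1_braid_comm f hf)
      fun _ _ => Int.units_mul_self _, chc,
    fun s hs => D1_cls h _ s fun t ht h1 => (hs t h1 ht).elim, fun s t => ⟨fun hc => ?_, fun hc => ?_⟩,
    fun s t hst => ?_, fun s t k => D1_even h, fun s t => D1_two h,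
    fun P L hPL => D1_perp fun p hp l hl => D1_two h (hPL p hp l hl), D1_star h⟩
  · exact D1_iso h (MonoidHom.toMulEquiv θ θ' (D1_ext h _ _ h2) (D1_ext h _ _ h1))
  · by_contra hn
    obtain ⟨χ, h1, h2⟩ := chc s
    have := isConj_iff_eq.1 (χ.map_isConj hc)
    rw [h1 s Relation.ReflTransGen.refl, h2 t hn] at this
    exact absurd this (by decide)
  · induction hc with
    | refl => exact IsConj.refl _
    | tail _ hb ih =>
      obtain ⟨hne, k, hk⟩ := hb
      exact ih.trans (IsConj.symm (isConj_iff.2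
        ⟨_, mul_inv_eq_of_eq_mul (D1_swap (D1_odd h hne hk))⟩))
  · rw [zc]
    split_ifs with he
    · obtain ⟨k, hk⟩ := he
      have h0 := hst.2
      have e := D1_even h (k := k) hst.1 (by omega) (by omega)
      rw [show M s t / 2 = k by omega]
      constructor
      · change x s * _ = _ * x s
        rw [mul_pow_mul, e]
      · change x t * _ = _ * x t
        rw [← mul_pow_mul, e]
    · obtain ⟨k, hk⟩ := Nat.not_even_iff_odd.1 he
      rw [hk]
      exact D1_zc_odd (D1_odd h hst.1 hk)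

end Pool.Agent.Lib.MP_1b8ce0_al.T
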