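import Mathlib
import Pool.Agent.Lib.MP_1b8ce0_al.T.StsA

/-! The double of a labelled graph and the map to its Coxeter group. -/

set_option linter.dupNamespace false

namespace Pool.Agent.Lib.MP_1b8ce0_al.T

open Pool.Agent.Lib.MP_6d85b4_al

variable {S : Type} {M : CoxeterMatrix S} {R : Set S}

open Classical in
/-- the matrix of the double -/
noncomputable def DBL_mat (M : CoxeterMatrix S) (R : Set S) :
    CoxeterMatrix {q : S × Bool // q.2 = true → q.1 ∉ R} where
  M := Matrix.of fun i j => if i = j then 1 else if i.1.1 = j.1.1 then 0 else M i.1.1 j.1.1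
  isSymm := by
    ext i j
    simp only [Matrix.transpose_apply, Matrix.of_apply, eq_comm (a := j), eq_comm (a := j.1.1),
      M.symmetric j.1.1]
  diagonal := fun i => by simp
  off_diagonal := fun i j h => by
    simp only [Matrix.of_apply, if_neg h]
    split_ifs with h1
    · exact zero_ne_one
    · exact M.off_diagonal _ _ h1

theorem DBL_ex [Fintype S] (M : CoxeterMatrix S) (R : Set S) : Nonempty (Dbl M R) := by
  classical
  refine ⟨{ B := {q : S × Bool // q.2 = true → q.1 ∉ R}
            N := DBL_mat M R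
            p := fun i => i.1.1
            a := fun s => ⟨(s, false), fun h => by cases h⟩
            b := fun s => if h : s ∈ R then ⟨(s, false), fun h => by cases h⟩
              else ⟨(s, true), fun _ => h⟩
            pa := fun _ => rfl
            pb := fun s => ?_
            ab := fun s => ?_
            all := ?_
            lab := fun i j h => ?_
            inf := fun s hs => ?_ }⟩
  · split_ifs <;> rfl
  · split_ifs with h <;> simp [h]
  · rintro ⟨⟨s, _ | _⟩, h⟩
    · exact Or.inl rfl
    · exact Or.inr (by simp [h rfl])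
  · have : i ≠ j := fun e => h (by rw [e])
    simp [DBL_mat, this, h]
  · simp [DBL_mat, hs]

theorem DBL_same (E : Dbl M R) {i j : E.B} (hij : i ≠ j) (h : E.p i = E.p j) :
    E.p i ∉ R ∧ E.N i j = 0 ∧ ∀ k, E.p k = E.p i → k = i ∨ k = j := by
  have hi := E.all i
  have hj := E.all j
  rw [← h] at hj
  have hR : E.p i ∉ R := fun hR => by
    rw [← (E.ab _).2 hR, or_self] at hi hj
    exact hij (hi.trans hj.symm)
  have h0 := E.inf _ hR
  rcases hi with hi | hi <;> rcases hj with hj | hj
  · exact (hij (hi.trans hj.symm)).elim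
  · refine ⟨hR, by rwa [← hi, ← hj] at h0, fun k hk => ?_⟩
    have := E.all k
    rwa [hk, ← hi, ← hj] at this
  · refine ⟨hR, by rwa [← hi, ← hj, E.N.symmetric] at h0, fun k hk => ?_⟩
    have := E.all k
    rw [hk, ← hi, ← hj] at this
    exact this.symm
  · exact (hij (hi.trans hj.symm)).elim

theorem DBL_tri (E : Dbl M R) (hF : Flex M R) {i j k : E.B} (hij : i ≠ j) (hjk : j ≠ k)
    (hik : i ≠ k) (h : E.p i = E.p j) :
    1 / (E.N i j : ℚ) + 1 / (E.N j k : ℚ) + 1 / (E.N i k : ℚ) ≤ 1 := by
  obtain ⟨hR, h0, hk⟩ := DBL_same E hij h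
  have h1 : E.p k ≠ E.p i := fun e => (hk k e).elim hik.symm hjk.symm
  rw [h0, E.lab i k h1.symm, E.lab j k (h ▸ h1.symm), ← h]
  rcases hF _ hR _ h1 with e | e <;> rw [e] <;> norm_num

theorem DBL_ns (E : Dbl M R) (hF : Flex M R) (hM : NoSph M) : NoSph E.N := by
  intro i j k hij hjk hik
  by_cases h1 : E.p i = E.p j
  · exact DBL_tri E hF hij hjk hik h1
  by_cases h2 : E.p j = E.p k
  · have := DBL_tri E hF hjk hik.symm hij.symm h2
    rw [E.N.symmetric k i, E.N.symmetric j i] at this
    linarith
  by_cases h3 : E.p i = E.p k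
  · have := DBL_tri E hF hik hjk.symm hij h3
    rw [E.N.symmetric k j] at this
    linarith
  rw [E.lab _ _ h1, E.lab _ _ h2, E.lab _ _ h3]
  exact hM _ _ _ h1 h2 h3

theorem DBL_hom (E : Dbl M R) (hW : IsDyer E.N Set.univ (sr E.N)) (hF : Flex M R) {G : Type}
    [Group G] {x : S → G} {R0 : Set S} (h : IsDyer M R0 x) (hR : R0 ⊆ R) :
    ∃ ψ : G →* E.N.Group, E.Hom x ψ := by
  classical
  have com : ∀ i j, E.p i ≠ E.p j → M (E.p i) (E.p j) = 2 → Commute (sr E.N i) (sr E.N j) := by
    intro i j h1 h2
    have h3 : E.N i j = 2 * 1 := (E.lab i j h1).trans h2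
    have := hW.braid i trivial j trivial (fun e => h1 (by rw [e])) (by omega)
    rwa [h3, alt_two_mul, alt_two_mul, pow_one, pow_one] at this
  obtain ⟨ψ, hψ⟩ := h.lift E.N.Group
    (fun s => if s ∈ R then sr E.N (E.a s) else sr E.N (E.a s) * sr E.N (E.b s))
    (fun s _ t _ hst h0 => by
      by_cases hb : s ∈ R ∧ t ∈ R
      · have h1 : E.p (E.a s) ≠ E.p (E.a t) := by rwa [E.pa, E.pa]
        have h2 : E.N (E.a s) (E.a t) = M s t := by rw [E.lab _ _ h1, E.pa, E.pa]
        have := hW.braid (E.a s) trivial (E.a t) trivial (fun e => h1 (by rw [e])) (by rwa [h2])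
        rw [h2] at this
        simpa only [if_pos hb.1, if_pos hb.2] using this
      · have h2 : M s t = 2 * 1 := by
          rcases not_and_or.1 hb with h1 | h1
          · exact (hF s h1 t hst.symm).resolve_left h0
          · rw [M.symmetric] at h0 ⊢
            exact (hF t h1 s hst).resolve_left h0
        have c : ∀ i j, E.p i = s → E.p j = t → Commute (sr E.N i) (sr E.N j) :=
          fun i j hi hj => com i j (by rwa [hi, hj]) (by rwa [hi, hj])
        have c1 := c _ _ (E.pa s) (E.pa t)
        have c2 := c _ _ (E.pa s) (E.pb t)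
        have c3 := c _ _ (E.pb s) (E.pa t)
        have c4 := c _ _ (E.pb s) (E.pb t)
        rw [h2, alt_two_mul, alt_two_mul, pow_one, pow_one]
        refine Commute.eq ?_
        beta_reduce
        split_ifs
        exacts [c1, c1.mul_right c2, c1.mul_left c3,
          (c1.mul_right c2).mul_left (c3.mul_right c4)])
    (fun s hs => by simpa only [if_pos (hR hs)] using hW.sqr (E.a s) trivial)
  exact ⟨ψ, fun s hs => by rw [hψ, if_pos hs], fun s hs => by rw [hψ, if_neg hs]⟩

theorem DBL_thm (h1 : St_C0b) : St_DBL := fun _ _ _ M R =>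
  ⟨DBL_ex M R, fun E hF => ⟨DBL_ns E hF, fun _ _ _ _ h hR => DBL_hom E (h1 E.B E.N).dyer hF h hR⟩⟩

end Pool.Agent.Lib.MP_1b8ce0_al.T
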