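import Mathlib
import Pool.Agent.Lib.MP_1b8ce0_al.T.StsA

set_option linter.unusedSectionVars false
set_option linter.dupNamespace false

namespace Pool.Agent.Lib.MP_1b8ce0_al.T

open Pool.Agent.Lib.MP_6d85b4_al

section Aux

variable {S G : Type} [Group G] {M : CoxeterMatrix S} {R : Set S} {x : S → G} {E : Dbl M R}
  {ι : G →* E.N.Group} {fo : E.N.Group → G} {th : E.N.Group →* MulAut G}
  {ke : E.N.Group →* (S → ℤˣ)}

theorem DPAR_cj_inf (u : G) (K L : Subgroup G) : cj u (K ⊓ L) = cj u K ⊓ cj u L := rfl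

theorem DPAR_gp_empty (x : S → G) : gp x ∅ = ⊥ := by simp [gp]

/-! ### the double -/

theorem DPAR_eq (E : Dbl M R) {i j : E.B} (h : E.p i = E.p j) (hr : E.p i ∈ R) : i = j := by
  have hi : i = E.a (E.p i) := by
    rcases E.all i with e | e
    · exact e
    · exact e.trans ((E.ab _).2 hr).symm
  have hj : j = E.a (E.p j) := by
    rcases E.all j with e | e
    · exact e
    · exact e.trans ((E.ab _).2 (h ▸ hr)).symm
  rw [hi, hj, h]

theorem DPAR_zero (E : Dbl M R) {i j : E.B} (h : E.p i = E.p j) (hne : i ≠ j) : E.N i j = 0 := by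
  have hr : E.p i ∉ R := fun hr => hne (DPAR_eq E h hr)
  have h0 := E.inf _ hr
  rcases E.all i with e | e <;> rcases E.all j with e' | e'
  · exact (hne (e.trans (h ▸ e'.symm))).elim
  · rw [← h] at e'
    rw [← e, ← e'] at h0
    exact h0
  · rw [← h] at e'
    rw [← e, ← e'] at h0
    rw [E.N.symmetric]
    exact h0
  · exact (hne (e.trans (h ▸ e'.symm))).elim

theorem DPAR_lab (E : Dbl M R) (s t : S) : E.N (E.a s) (E.a t) = M s t := by
  by_cases h : s = t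
  · subst h
    rw [E.N.diagonal, M.diagonal]
  · rw [E.lab _ _ (by rwa [E.pa, E.pa]), E.pa, E.pa]

theorem DPAR_ne (E : Dbl M R) {i j : E.B} (h : E.N i j = 2) : E.p i ≠ E.p j := by
  intro e
  by_cases c : i = j
  · subst c
    rw [E.N.diagonal] at h
    omega
  · rw [DPAR_zero E e c] at h
    omega

/-! ### folding -/

theorem DPAR_fo_one (F : Fold E x ι fo th ke) : fo 1 = 1 := by
  simpa using (F.fi 1).1

theorem DPAR_inj (F : Fold E x ι fo th ke) : Function.Injective ι := fun g g' h => by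
  rw [← (F.fi g).1, h, (F.fi g').1]

theorem DPAR_th (F : Fold E x ι fo th ke) (c : E.N.Group) {T : Set S} {g : G} (hg : g ∈ gp x T) :
    th c g ∈ gp x T := by
  have : gp x T ≤ (gp x T).comap (th c).toMonoidHom := gp_le.2 fun s hs => by
    change th c (x s) ∈ gp x T
    rw [F.thx]
    exact Subgroup.zpow_mem _ (gp_mem x hs) _
  exact this hg

theorem DPAR_fo (F : Fold E x ι fo th ke) {T : Set S} {w : E.N.Group}
    (hw : w ∈ par E.N (E.p ⁻¹' T)) : fo w ∈ gp x T := by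
  induction hw using Subgroup.closure_induction with
  | mem w h =>
    obtain ⟨i, hi, rfl⟩ := h
    by_cases hr : E.p i ∈ R
    · rw [DPAR_eq E (E.pa (E.p i)).symm hr, F.fa]
      exact gp_mem x hi
    · rcases E.all i with e | e
      · rw [e, F.fa]
        exact gp_mem x hi
      · rw [e, F.fb _ hr]
        exact one_mem _
  | one =>
    rw [DPAR_fo_one F]
    exact one_mem _
  | mul a b _ _ ha hb =>
    rw [F.mul]
    exact mul_mem ha (DPAR_th F a hb)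
  | inv a _ ha =>
    have h := F.mul a⁻¹ a
    rw [inv_mul_cancel, DPAR_fo_one F] at h
    rw [eq_inv_of_mul_eq_one_left h.symm]
    exact inv_mem (DPAR_th F _ ha)

theorem DPAR_io (H : E.Hom x ι) {T : Set S} {g : G} (hg : g ∈ gp x T) :
    ι g ∈ par E.N (E.p ⁻¹' T) := by
  have : gp x T ≤ (par E.N (E.p ⁻¹' T)).comap ι := gp_le.2 fun s hs => by
    change ι (x s) ∈ par E.N (E.p ⁻¹' T)
    have ha : E.a s ∈ E.p ⁻¹' T := by rwa [Set.mem_preimage, E.pa]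
    have hb : E.b s ∈ E.p ⁻¹' T := by rwa [Set.mem_preimage, E.pb]
    by_cases hr : s ∈ R
    · rw [H.1 s hr]
      exact gp_mem _ ha
    · rw [H.2 s hr]
      exact mul_mem (gp_mem _ ha) (gp_mem _ hb)
  exact this hg

theorem DPAR_iff (F : Fold E x ι fo th ke) (H : E.Hom x ι) {T : Set S} {g : G} :
    g ∈ gp x T ↔ ι g ∈ par E.N (E.p ⁻¹' T) :=
  ⟨DPAR_io H, fun h => (F.fi g).1 ▸ DPAR_fo F h⟩

theorem DPAR_cj_io (H : E.Hom x ι) {T : Set S} {g h : G} (hg : g ∈ cj h (gp x T)) :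
    ι g ∈ cj (ι h) (par E.N (E.p ⁻¹' T)) := by
  have := DPAR_io H (mem_cj.1 hg)
  rwa [map_mul, map_mul, map_inv] at this

theorem DPAR_conj (F : Fold E x ι fo th ke) {w : E.N.Group} (hw : ke w = 1) (c : E.N.Group) :
    (fo c)⁻¹ * fo w * fo c = th c (fo (c⁻¹ * w * c)) := by
  have h1 := F.mul w c
  have h2 := F.mul c (c⁻¹ * w * c)
  rw [F.thk w hw, MulAut.one_apply] at h1
  rw [← mul_assoc, ← mul_assoc, mul_inv_cancel, one_mul, h1] at h2
  rw [mul_assoc, h2, inv_mul_cancel_left]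

theorem DPAR_cj_fo (F : Fold E x ι fo th ke) {T : Set S} {w c : E.N.Group} (hw : ke w = 1)
    (h : w ∈ cj c (par E.N (E.p ⁻¹' T))) : fo w ∈ cj (fo c) (gp x T) := by
  rw [mem_cj, DPAR_conj F hw]
  exact DPAR_th F c (DPAR_fo F h)

/-! ### intersections of parabolic subgroups of the double -/

theorem DPAR_sat (C : CA E.N) (fl : Flex M R) {i i' j : E.B} {d : E.N.Group}
    (h : rho E.N d (al j) = al i) (hp : E.p i' = E.p i) (hne : i' ≠ i) :
    j = i ∧ rho E.N d (al i') = al i' := by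
  have hr : E.p i ∉ R := fun hr => hne (DPAR_eq E hp.symm hr).symm
  have h1 : rho E.N d⁻¹ (al i) = al j := by rw [← h, rho_inv]
  have h2 : d⁻¹ ∈ par E.N (lk E.N i) := by
    refine C.d1.how1 i j _ (fun t ht => ?_) h1
    by_cases c : E.p i = E.p t
    · exact .inl (DPAR_zero E c ht.symm)
    · rw [E.lab _ _ c]
      exact fl _ hr _ (Ne.symm c)
  have h3 : ∀ k ∈ lk E.N i, ∀ l ∈ ({i, i'} : Set E.B), E.N k l = 2 := by
    intro k hk l hl
    have hk' : E.N i k = 2 := hk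
    rw [E.N.symmetric]
    rcases hl with rfl | rfl
    · exact hk'
    · have := DPAR_ne E hk'
      rw [E.lab _ _ (hp ▸ this), hp, ← E.lab _ _ this, hk']
  have h4 := C.b0.perp_fix _ _ h3
  refine ⟨al_inj (h1.symm.trans ((h4 _ h2).1 _ fun k hk => al_ne fun e => hk (.inl e))),
    (h4 _ ((inv_mem_iff).1 h2)).1 _ fun k hk => al_ne fun e => hk (.inr e)⟩

theorem DPAR_kilW (C : CA E.N) (fl : Flex M R) (c : E.N.Group) (T U : Set S) :
    ∃ u ∈ par E.N (E.p ⁻¹' T), ∃ T0, T0 ⊆ T ∧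
      par E.N (E.p ⁻¹' T) ⊓ cj c (par E.N (E.p ⁻¹' U)) = cj u (par E.N (E.p ⁻¹' T0)) := by
  obtain ⟨u, hu, d, v, hv, rfl, e⟩ := C.b0.kil c (E.p ⁻¹' T) (E.p ⁻¹' U)
  refine ⟨u, hu, E.p '' {i | i ∈ E.p ⁻¹' T ∧ ∃ j ∈ E.p ⁻¹' U, rho E.N d (al j) = al i}, ?_, ?_⟩
  · rintro _ ⟨i, hi, rfl⟩
    exact hi.1
  · rw [← cj_cj, cj_self hv, ← cj_cj, ← cj_self hu, ← DPAR_cj_inf, e]
    congr 2
    refine (Set.subset_preimage_image _ _).antisymm ?_
    rintro i' ⟨i, ⟨hi, j, hj, h⟩, hp⟩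
    by_cases c : i' = i
    · exact c ▸ ⟨hi, j, hj, h⟩
    · obtain ⟨rfl, h'⟩ := DPAR_sat C fl h hp.symm c
      exact ⟨Set.mem_preimage.2 (hp ▸ hi), i', Set.mem_preimage.2 (hp ▸ hj), h'⟩

theorem DPAR_kil (F : Fold E x ι fo th ke) (H : E.Hom x ι) (C : CA E.N) (fl : Flex M R) (h : G)
    (T U : Set S) : ∃ u ∈ gp x T, ∃ T0, T0 ⊆ T ∧ gp x T ⊓ cj h (gp x U) = cj u (gp x T0) := by
  obtain ⟨u, hu, T0, h0, e⟩ := DPAR_kilW C fl (ι h) T U
  refine ⟨fo u, DPAR_fo F hu, T0, h0, le_antisymm (fun g hg => ?_) fun g hg => ⟨?_, ?_⟩⟩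
  · have : ι g ∈ cj u (par E.N (E.p ⁻¹' T0)) := e ▸ ⟨DPAR_io H hg.1, DPAR_cj_io H hg.2⟩
    exact (F.fi g).1 ▸ DPAR_cj_fo F (F.fi g).2 this
  · exact cj_self (DPAR_fo F hu) ▸ cj_mono _ (gp_mono x h0) hg
  · have h1 : u * ι (th u⁻¹ ((fo u)⁻¹ * g * fo u)) * u⁻¹ ∈ cj u (par E.N (E.p ⁻¹' T0)) :=
      conj_mem_cj.2 (DPAR_io H (DPAR_th F _ hg))
    have hk : ke (u * ι (th u⁻¹ ((fo u)⁻¹ * g * fo u)) * u⁻¹) = 1 := by
      rw [map_mul, map_mul, (F.fi _).2, mul_one, map_inv, mul_inv_cancel]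
    have h2 := DPAR_cj_fo F hk (e ▸ h1).2
    have h3 := DPAR_conj F hk u
    rw [← mul_assoc, ← mul_assoc, inv_mul_cancel, one_mul, inv_mul_cancel_right, (F.fi _).1,
      map_inv, MulAut.apply_inv_self, mul_left_inj, mul_right_inj] at h3
    rwa [map_inv th, h3, (F.fi _).1] at h2

theorem DPAR_inter (F : Fold E x ι fo th ke) (H : E.Hom x ι) (C : CA E.N) (T U : Set S) :
    gp x T ⊓ gp x U = gp x (T ∩ U) := by
  ext g
  rw [Subgroup.mem_inf, DPAR_iff F H, DPAR_iff F H, DPAR_iff F H, Set.preimage_inter,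
    ← C.b0.inter, Subgroup.mem_inf]

theorem DPAR_ord (F : Fold E x ι fo th ke) (H : E.Hom x ι) (C : CA E.N) {s t : S} (hs : s ∈ R)
    (ht : t ∈ R) : orderOf (x s * x t) = M s t := by
  rw [← orderOf_injective ι (DPAR_inj F), map_mul, H.1 s hs, H.1 t ht, C.c0.ord, DPAR_lab]

theorem DPAR_inf (H : E.Hom x ι) (C : CA E.N) {s : S} (hs : s ∉ R) : ¬ IsOfFinOrder (x s) := by
  intro h
  have := ι.isOfFinOrder h
  rw [H.2 s hs, ← orderOf_pos_iff, C.c0.ord, E.inf s hs] at this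
  omega

theorem DPAR_fin (F : Fold E x ι fo th ke) (H : E.Hom x ι) (C : CA E.N) (T : Set S) :
    Finite (gp x T) ↔ Simplex M T ∧ T ⊆ R := by
  have hp : ∀ s ∈ T, E.a s ∈ E.p ⁻¹' T := fun s hs => by rwa [Set.mem_preimage, E.pa]
  constructor
  · intro hf
    have hR : T ⊆ R := fun s hs => by
      by_contra hr
      exact DPAR_inf H C hr
        ((gp x T).subtype.isOfFinOrder (isOfFinOrder_of_finite ⟨x s, gp_mem x hs⟩))
    have hle : par E.N (E.p ⁻¹' T) ≤ (gp x T).map ι := gp_le.2 fun i hi =>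
      ⟨x (E.p i), gp_mem x hi, by rw [H.1 _ (hR hi), ← DPAR_eq E (E.pa _).symm (hR hi)]⟩
    have : Finite ((gp x T).map ι) := Finite.of_surjective _ (ι.subgroupMap_surjective _)
    have hs := (C.b1.fin_par _).1 (Finite.of_injective _ (Subgroup.inclusion_injective hle))
    refine ⟨⟨fun s h1 t h2 => DPAR_lab E s t ▸ hs.1 _ (hp s h1) _ (hp t h2),
      fun s h1 t h2 u h3 => ?_⟩, hR⟩
    have ha : ∀ {s t}, E.a s = E.a t → s = t := fun {s t} e => by rw [← E.pa s, e, E.pa]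
    exact (hs.2 _ (hp s h1) _ (hp t h2) _ (hp u h3)).imp ha (Or.imp ha ha)
  · rintro ⟨hs, hR⟩
    have : Finite (par E.N (E.p ⁻¹' T)) := by
      refine (C.b1.fin_par _).2 ⟨fun i hi j hj => ?_, fun i hi j hj k hk => ?_⟩
      · by_cases c : E.p i = E.p j
        · rw [DPAR_eq E c (hR hi), E.N.diagonal]
          omega
        · rw [E.lab _ _ c]
          exact hs.1 _ hi _ hj
      · exact (hs.2 _ hi _ hj _ hk).imp (DPAR_eq E · (hR hi))
          (Or.imp (DPAR_eq E · (hR hj)) (DPAR_eq E · (hR hi)))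
    exact Finite.of_injective (fun g : gp x T => (⟨ι g, DPAR_io H g.2⟩ : par E.N (E.p ⁻¹' T)))
      fun g g' e => Subtype.ext (DPAR_inj F (congrArg Subtype.val e))

/-- the extension property of the standard subgroups -/
def DPAR_Re (M : CoxeterMatrix S) (R : Set S) (x : S → G) : Prop :=
  ∀ (T : Set S) (H : Type) [Group H] (f : S → H), Braid M T f →
    (∀ s ∈ T, s ∈ R → f s * f s = 1) →
      ∃ φ : gp x T →* H, ∀ s (h : x s ∈ gp x T), s ∈ T → φ ⟨x s, h⟩ = f s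

theorem DPAR_free (Re : DPAR_Re M R x) {s t : S} (hne : s ≠ t) (h0 : M s t = 0) :
    ¬ Commute (x s) (x t) := by
  classical
  intro hc
  have hs : x s ∈ gp x {s, t} := gp_mem x (.inl rfl)
  have ht : x t ∈ gp x {s, t} := gp_mem x (.inr rfl)
  obtain ⟨φ, hφ⟩ := Re {s, t} (Equiv.Perm (Fin 3))
    (fun u => if u = s then Equiv.swap 0 1 else Equiv.swap 1 2)
    (by
      rintro u (rfl | rfl) v (rfl | rfl) h1 h2
      · exact (h1 rfl).elim
      · exact (h2 h0).elim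
      · exact (h2 (M.symmetric _ _ ▸ h0)).elim
      · exact (h1 rfl).elim)
    (fun u _ _ => by split_ifs <;> exact Equiv.swap_mul_self _ _)
  have h1 : Commute (⟨x s, hs⟩ : gp x {s, t}) ⟨x t, ht⟩ := Subtype.ext hc
  have h2 := (h1.map φ).eq
  rw [hφ s hs (.inl rfl), hφ t ht (.inr rfl), if_pos rfl, if_neg hne.symm] at h2
  revert h2
  decide

theorem DPAR_ncj (Re : DPAR_Re M R x) {T A : Set S} (hT : Indep M T) (hA : A ⊆ T) {t : S}
    (ht : t ∈ T) {u : G} (hu : u ∈ gp x T) (h : x t ∈ cj u (gp x A)) : t ∈ A := by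
  classical
  by_contra hn
  obtain ⟨φ, hφ⟩ := Re T ℤˣ (fun s => if s = t then -1 else 1)
    (fun a ha b hb h1 h2 => (h2 (hT a ha b hb h1)).elim) (fun s _ _ => Int.units_mul_self _)
  have hle : gp x A ≤ φ.ker.map (gp x T).subtype := gp_le.2 fun s hs =>
    ⟨⟨x s, gp_mem x (hA hs)⟩, by
      rw [SetLike.mem_coe, MonoidHom.mem_ker, hφ s _ (hA hs), if_neg fun e : s = t => hn (e ▸ hs)],
      rfl⟩
  obtain ⟨y, hy, e⟩ := hle h
  have e' : y = (⟨u, hu⟩ : gp x T)⁻¹ * ⟨x t, gp_mem x ht⟩ * ⟨u, hu⟩ := Subtype.ext e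
  rw [SetLike.mem_coe, MonoidHom.mem_ker, e', map_mul, map_mul, map_inv, hφ t _ ht, if_pos rfl,
    inv_mul_cancel_comm] at hy
  revert hy
  decide

theorem DPAR_tl (F : Fold E x ι fo th ke) (H : E.Hom x ι) (C : CA E.N) (fl : Flex M R)
    (Re : DPAR_Re M R x) {T U : Set S} {h : G} (hT : Indep M T) (h2 : Two T)
    (hle : cj h (gp x T) ≤ gp x U) :
    T ⊆ U ∧ ∃ v ∈ gp x U, ∃ n ∈ gp x (perp M T), h = v * n := by
  have hp : ∀ s ∈ T, E.a s ∈ E.p ⁻¹' T := fun s hs => by rwa [Set.mem_preimage, E.pa]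
  obtain ⟨u, hu, T0, h0, e⟩ := DPAR_kilW C fl (ι h⁻¹) T U
  have hT0 : T ⊆ T0 := fun t ht => by
    have h1 : x t ∈ cj h⁻¹ (gp x U) := by
      rw [mem_cj, inv_inv]
      exact hle (conj_mem_cj.2 (gp_mem x ht))
    have h3 : ι (x t) ∈ cj u (par E.N (E.p ⁻¹' T0)) :=
      e ▸ ⟨DPAR_io H (gp_mem x ht), DPAR_cj_io H h1⟩
    exact DPAR_ncj Re hT h0 ht (DPAR_fo F hu)
      ((F.fi (x t)).1 ▸ DPAR_cj_fo F (F.fi (x t)).2 h3)
  rw [h0.antisymm hT0, cj_self hu, inf_eq_left] at e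
  have h4 := cj_mono (ι h) e
  rw [cj_cj, ← map_mul, mul_inv_cancel, map_one, cj_one] at h4
  obtain ⟨h5, v, hv, n, hn, e'⟩ := C.d1.parn _ _ _ (fun i hi j hj hne => by
    by_cases c : E.p i = E.p j
    · exact DPAR_zero E c hne
    · rw [E.lab _ _ c]
      exact hT _ hi _ hj c) (by
    obtain ⟨s, hs, t, ht, hne⟩ := h2
    exact ⟨_, hp s hs, _, hp t ht, fun e => hne (by rw [← E.pa s, e, E.pa])⟩) h4
  refine ⟨fun t ht => E.pa t ▸ h5 (hp t ht), fo v, DPAR_fo F hv, th v (fo n),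
    DPAR_th F v (DPAR_fo F (gp_mono _ (fun i hi t ht => ?_) hn)), by rw [← F.mul, ← e', (F.fi h).1]⟩
  have h6 := hi _ (hp t ht)
  rwa [E.lab _ _ (DPAR_ne E h6), E.pa] at h6

theorem DPAR_pcl [Finite S]
    (kil : ∀ h T U, ∃ u ∈ gp x T, ∃ T0, T0 ⊆ T ∧ gp x T ⊓ cj h (gp x U) = cj u (gp x T0))
    (Z : Subgroup G) (h : G) (T : Set S) (hZ : Z ≤ cj h (gp x T)) :
    ∃ d T0, T0 ⊆ T ∧ Z ≤ cj d (gp x T0) ∧
      ∀ h' U, Z ≤ cj h' (gp x U) → cj d (gp x T0) ≤ cj h' (gp x U) := by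
  obtain ⟨T0, ⟨h0, d, hd⟩, hm⟩ := Set.exists_min_image
    {A : Set S | A ⊆ T ∧ ∃ d, Z ≤ cj d (gp x A)} Set.ncard (Set.toFinite _)
    ⟨T, subset_rfl, h, hZ⟩
  refine ⟨d, T0, h0, hd, fun h' U hU => ?_⟩
  obtain ⟨u, hu, T1, h1, e⟩ := kil (d⁻¹ * h') T0 U
  have e1 : cj d (cj (d⁻¹ * h') (gp x U)) = cj h' (gp x U) := by
    rw [cj_cj, mul_inv_cancel_left]
  have h2 : Z ≤ cj (d * u) (gp x T1) := by
    rw [← cj_cj, ← e, DPAR_cj_inf, e1]
    exact le_inf hd hU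
  have h3 : T1 = T0 := Set.eq_of_subset_of_ncard_le h1 (hm T1 ⟨h1.trans h0, _, h2⟩)
  rw [h3, cj_self hu, inf_eq_left] at e
  exact e1 ▸ cj_mono d e

end Aux

theorem DPAR_thm (h0 : St_CA) (h1 : St_D1) (h2 : St_DBL) (h3 : St_FOLD) (h4 : St_RESTR) :
    St_DPAR := by
  intro S G _ _ _ M R x ⟨dy, fl, ns⟩
  obtain ⟨⟨E⟩, hE⟩ := h2 S M R
  obtain ⟨nsE, hι⟩ := hE E fl
  obtain ⟨ι, H⟩ := hι G x R dy subset_rfl
  obtain ⟨fo, th, ke, F⟩ := h3 S G M R x E ι dy fl H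
  have C := h0 _ E.N (nsE ns)
  have Re : DPAR_Re M R x := fun T => (h4 S G M R x dy fl T).1
  refine ⟨DPAR_inter F H C, fun s T => ⟨fun h => ?_, gp_mem x⟩, fun s t hne hm hc => ?_,
    fun s hs t ht => DPAR_ord F H C hs ht, fun s => DPAR_inf H C, DPAR_fin F H C,
    DPAR_kil F H C fl, DPAR_pcl (DPAR_kil F H C fl), fun T U h => DPAR_tl F H C fl Re⟩
  · by_contra hn
    have e : x s ∈ gp x T ⊓ gp x {s} := ⟨h, gp_mem x rfl⟩
    rw [DPAR_inter F H C, Set.inter_singleton_eq_empty.2 hn, DPAR_gp_empty, Subgroup.mem_bot] at e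
    obtain ⟨χ, hχ, -⟩ := (h1.2 S G M R x dy).chc s
    have := hχ s .refl
    rw [e, map_one] at this
    revert this
    decide
  · by_cases c : M s t = 0
    · exact DPAR_free Re hne c hc
    · have hs : s ∈ R := by
        by_contra hr
        exact (fl s hr t hne.symm).elim c hm
      have ht : t ∈ R := by
        by_contra hr
        rw [M.symmetric] at c hm
        exact (fl t hr s hne).elim c hm
      have hd : M s t ∣ 2 := by
        rw [← DPAR_ord F H C hs ht, orderOf_dvd_iff_pow_eq_one, hc.mul_pow, pow_two, pow_two,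
          dy.sqr s hs, dy.sqr t ht, one_mul]
      rcases (Nat.dvd_prime Nat.prime_two).1 hd with e | e
      · exact M.off_diagonal s t hne e
      · exact hm e

end Pool.Agent.Lib.MP_1b8ce0_al.T
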