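import Mathlib

namespace Pool.Agent.Lib.MP_1b8ce0_al

/-- `N` arises from `M` by the elementary twist along the odd edge `p, q` of the part `X`:
`X` is joined to the rest only through `p` and `q`, and these two attachments are exchanged. -/
def TwistAt {S : Type} (M N : CoxeterMatrix S) (p q : S) (X : Set S) : Prop :=
  p ≠ q ∧ Odd (M p q) ∧ p ∉ X ∧ q ∉ X ∧
    (∀ x ∈ X, ∀ y, y ∉ X → y ≠ p → y ≠ q → M x y = 0) ∧
    (∀ x ∈ X, N x p = M x q ∧ N x q = M x p) ∧
    ∀ a b, ¬ (a ∈ X ∧ (b = p ∨ b = q)) → ¬ (b ∈ X ∧ (a = p ∨ a = q)) → N a b = M a b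

/-- One elementary twist. -/
def Twist {S : Type} (M N : CoxeterMatrix S) : Prop := ∃ p q X, TwistAt M N p q X

/-- A finite sequence of elementary twists followed by a relabelling. -/
def TwistEquiv {S S' : Type} (M : CoxeterMatrix S) (M' : CoxeterMatrix S') : Prop :=
  ∃ N : CoxeterMatrix S, Relation.ReflTransGen Twist M N ∧
    ∃ e : S ≃ S', ∀ s t, M' (e s) (e t) = N s t

end Pool.Agent.Lib.MP_1b8ce0_al
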