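import Mathlib
import Pool.Agent.Lib.MP_6d85b4_al.Roots
import Pool.Agent.Lib.MP_1b8ce0_al.Group
import Pool.Agent.Lib.MP_1b8ce0_al.T.Tw
import Pool.Agent.Shared.GroupTree

set_option linter.unusedSectionVars false
set_option linter.dupNamespace false

namespace Pool.Agent.Lib.MP_1b8ce0_al.T

open Pool.Agent.Lib.MP_6d85b4_al Pool.Agent.Shared.GroupTree Filter

/-! ### labelled graphs -/
section Graph

variable {S S' : Type}

def NoSph (M : CoxeterMatrix S) : Prop :=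
  ∀ s t u, s ≠ t → t ≠ u → s ≠ u → 1 / (M s t : ℚ) + 1 / (M t u : ℚ) + 1 / (M s u : ℚ) ≤ 1

def Adj (M : CoxeterMatrix S) (s t : S) : Prop := s ≠ t ∧ M s t ≠ 0

def OddConn (M : CoxeterMatrix S) (s t : S) : Prop :=
  Relation.ReflTransGen (fun u v => u ≠ v ∧ Odd (M u v)) s t

def Conn (M : CoxeterMatrix S) (A : Set S) (s t : S) : Prop :=
  Relation.ReflTransGen (fun u v => u ∈ A ∧ v ∈ A ∧ Adj M u v) s t

def PreConn (M : CoxeterMatrix S) (A : Set S) : Prop := ∀ s ∈ A, ∀ t ∈ A, Conn M A s t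

/-- empty set, vertex or edge -/
def Simplex (M : CoxeterMatrix S) (J : Set S) : Prop :=
  (∀ s ∈ J, ∀ t ∈ J, M s t ≠ 0) ∧ ∀ s ∈ J, ∀ t ∈ J, ∀ u ∈ J, s = t ∨ t = u ∨ s = u

def Rigid (M : CoxeterMatrix S) (T : Set S) : Prop :=
  (∃ s ∈ T, ∃ t ∈ T, ∃ u ∈ T, s ≠ t ∧ t ≠ u ∧ s ≠ u) ∧
    ∀ J, Simplex M J → PreConn M (T \ J)

def Indep (M : CoxeterMatrix S) (T : Set S) : Prop := ∀ s ∈ T, ∀ t ∈ T, s ≠ t → M s t = 0

def Two (T : Set S) : Prop := ∃ s ∈ T, ∃ t ∈ T, s ≠ t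

def perp (M : CoxeterMatrix S) (T : Set S) : Set S := {s | ∀ t ∈ T, M s t = 2}

def lk (M : CoxeterMatrix S) (s : S) : Set S := {t | M s t = 2}

def Big (M : CoxeterMatrix S) : Set S := {s | ∃ t, 3 ≤ M s t}

def Flex (M : CoxeterMatrix S) (R : Set S) : Prop :=
  ∀ s, s ∉ R → ∀ t, t ≠ s → M s t = 0 ∨ M s t = 2

def Low (M : CoxeterMatrix S) (R : Set S) : Prop :=
  ∀ s, s ∉ R → ∀ t u, M s t = 2 → M s u = 2 → t = u

def Cls (M : CoxeterMatrix S) (s : S) : Set S := {t | OddConn M s t}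

def Bd (M : CoxeterMatrix S) (s : S) : Set S :=
  {t | ¬ OddConn M s t ∧ ∃ u, OddConn M s u ∧ M u t ≠ 0}

/-- the vertices of `A` adjacent to the component of `y` in the complement of `A` -/
def Att (M : CoxeterMatrix S) (A : Set S) (y : S) : Set S :=
  {p | p ∈ A ∧ ∃ u, Conn M Aᶜ y u ∧ Adj M u p}

def Closed (M : CoxeterMatrix S) (A : Set S) : Prop := ∀ y, y ∉ A → Simplex M (Att M A y)

/-- restriction to a subset -/
def res (M : CoxeterMatrix S) (T : Set S) : CoxeterMatrix T where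
  M := Matrix.of fun s t => M s t
  isSymm := by
    ext s t
    exact M.symmetric _ _
  diagonal := fun s => M.diagonal s
  off_diagonal := fun s t h => M.off_diagonal s t fun e => h (Subtype.ext e)

theorem res_apply (M : CoxeterMatrix S) (T : Set S) (s t : T) : res M T s t = M s t := rfl

/-- label preserving and edge compatible map on `T` -/
def Good (M : CoxeterMatrix S) (M' : CoxeterMatrix S') (E : S → S → S' → S' → Prop)
    (T : Set S) (σ : S → S') : Prop :=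
  (∀ s ∈ T, ∀ t ∈ T, M' (σ s) (σ t) = M s t) ∧
    ∀ s ∈ T, ∀ t ∈ T, Adj M s t → E s t (σ s) (σ t)

/-- one half of a matching -/
structure Half (M : CoxeterMatrix S) (M' : CoxeterMatrix S') (V : S → S' → Prop)
    (E : S → S → S' → S' → Prop) : Prop where
  vtot : ∀ s, ∃ s', V s s'
  vcls : ∀ s t s', V s s' → (V t s' ↔ OddConn M s t)
  symm : ∀ s t s' t', E s t s' t' → E t s t' s'
  edge : ∀ s t s' t', E s t s' t' → Adj M s t ∧ M' s' t' = M s t ∧ V s s'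
  etot : ∀ s t, Adj M s t → ∃ s' t', E s t s' t'
  uniq : ∀ s t s' t' a b, E s t s' t' → E s t a b →
    (a = s' ∧ b = t') ∨ (Odd (M s t) ∧ a = t' ∧ b = s')
  odd : ∀ s t s' t', E s t s' t' → Odd (M s t) → E s t t' s'
  rig : ∀ T, Rigid M T → ∃ σ, Good M M' E T σ

def Match (M : CoxeterMatrix S) (M' : CoxeterMatrix S') (V : S → S' → Prop)
    (E : S → S → S' → S' → Prop) : Prop :=
  Half M M' V E ∧ Half M' M (fun s' s => V s s') (fun s' t' s t => E s t s' t')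

/-- the part `A` is already identified with `τ '' A` -/
structure Part (M : CoxeterMatrix S) (M' : CoxeterMatrix S') (V : S → S' → Prop)
    (E : S → S → S' → S' → Prop) (A : Set S) (τ : S → S') : Prop where
  mat : Match M M' V E
  good : Good M M' E A τ
  vert : ∀ s ∈ A, V s (τ s)
  cl : Closed M A
  cl' : Closed M' (τ '' A)

end Graph

/-! ### groups generated by a family -/
section Dyer

variable {S S' G : Type} [Group G]

def gp (x : S → G) (T : Set S) : Subgroup G := Subgroup.closure (x '' T)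

/-- the conjugate `h K h⁻¹` -/
def cj (h : G) (K : Subgroup G) : Subgroup G where
  carrier := {g | h⁻¹ * g * h ∈ K}
  mul_mem' := fun {a b} ha hb => by
    have := K.mul_mem ha hb
    simpa [mul_assoc] using this
  one_mem' := by simp
  inv_mem' := fun {a} ha => by
    have := K.inv_mem ha
    simpa [mul_assoc] using this

theorem mem_cj {h g : G} {K : Subgroup G} : g ∈ cj h K ↔ h⁻¹ * g * h ∈ K := Iff.rfl

theorem cj_one (K : Subgroup G) : cj 1 K = K := by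
  ext g
  simp [mem_cj]

theorem cj_cj (h k : G) (K : Subgroup G) : cj h (cj k K) = cj (h * k) K := by
  ext g
  simp [mem_cj, mul_assoc]

theorem conj_mem_cj {h g : G} {K : Subgroup G} : h * g * h⁻¹ ∈ cj h K ↔ g ∈ K := by
  simp [mem_cj, mul_assoc]

theorem cj_mono (h : G) {K L : Subgroup G} (H : K ≤ L) : cj h K ≤ cj h L := fun _ hg => H hg

theorem cj_self {h : G} {K : Subgroup G} (hh : h ∈ K) : cj h K = K := by
  ext g
  rw [mem_cj, K.mul_mem_cancel_right hh, K.mul_mem_cancel_left (K.inv_mem hh)]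

theorem gp_mem (x : S → G) {T : Set S} {s : S} (h : s ∈ T) : x s ∈ gp x T :=
  Subgroup.subset_closure ⟨s, h, rfl⟩

theorem gp_mono (x : S → G) {T U : Set S} (h : T ⊆ U) : gp x T ≤ gp x U :=
  Subgroup.closure_mono (Set.image_mono h)

theorem gp_le {x : S → G} {T : Set S} {K : Subgroup G} : gp x T ≤ K ↔ ∀ s ∈ T, x s ∈ K := by
  simp [gp, Subgroup.closure_le, Set.subset_def]

/-- the commutator -/
def cm (g h : G) : G := g * h * g⁻¹ * h⁻¹

def Braid (M : CoxeterMatrix S) (T : Set S) (x : S → G) : Prop :=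
  ∀ s ∈ T, ∀ t ∈ T, s ≠ t → M s t ≠ 0 → alt (x s) (x t) (M s t) = alt (x t) (x s) (M s t)

/-- `G` is presented by the family `x`, the braid relations of `M` and the squares on `R` -/
structure IsDyer (M : CoxeterMatrix S) (R : Set S) (x : S → G) : Prop where
  top : gp x Set.univ = ⊤
  braid : Braid M Set.univ x
  sqr : ∀ s ∈ R, x s * x s = 1
  lift : ∀ (H : Type) [Group H] (f : S → H), Braid M Set.univ f → (∀ s ∈ R, f s * f s = 1) →
    ∃ φ : G →* H, ∀ s, φ (x s) = f s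

structure DP (M : CoxeterMatrix S) (R : Set S) (x : S → G) : Prop where
  dy : IsDyer M R x
  fl : Flex M R
  ns : NoSph M

def Matched (R : Set S) (x : S → G) (R' : Set S') (x' : S' → G) : Prop :=
  (∀ s ∈ R, ∃ s' ∈ R', IsConj (x s) (x' s')) ∧ ∀ s' ∈ R', ∃ s ∈ R, IsConj (x s) (x' s')

/-- exponent sum of the class of `s` -/
def IsChi (M : CoxeterMatrix S) (x : S → G) (s : S) (χ : G →* Multiplicative ℤ) : Prop :=
  (∀ t, OddConn M s t → χ (x t) = Multiplicative.ofAdd 1) ∧ ∀ t, ¬ OddConn M s t → χ (x t) = 1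

/-- the central element of an edge -/
def zc (M : CoxeterMatrix S) (x : S → G) (s t : S) : G :=
  (x s * x t) ^ (if Even (M s t) then M s t / 2 else M s t)

def Ind2 (g h : G) : Prop := ∀ i j : ℤ, g ^ i * h ^ j = 1 → i = 0 ∧ j = 0

def IsComm (K : Subgroup G) : Prop := ∀ g ∈ K, ∀ h ∈ K, Commute g h

def Nrm (g : G) (K : Subgroup G) : Prop := ∀ h, h ∈ K ↔ g * h * g⁻¹ ∈ K

/-- the edge relation between two generating families -/
def EE (M : CoxeterMatrix S) (R : Set S) (x : S → G) (M' : CoxeterMatrix S') (R' : Set S')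
    (x' : S' → G) (s t : S) (s' t' : S') : Prop :=
  s ∈ R ∧ t ∈ R ∧ s' ∈ R' ∧ t' ∈ R' ∧ Adj M s t ∧ Adj M' s' t' ∧
    ∃ d, gp x {s, t} = cj d (gp x' {s', t'}) ∧
      (∃ u ∈ gp x' {s', t'}, x s = d * u * x' s' * u⁻¹ * d⁻¹) ∧
      ∃ u ∈ gp x' {s', t'}, x t = d * u * x' t' * u⁻¹ * d⁻¹

/-- Bass-Serre tree of a one edge splitting -/
structure VTree (A1 A2 C : Subgroup G) where
  V : Type
  [act : MulAction G V]
  T : SimpleGraph V
  gt : GTree G T
  v1 : V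
  v2 : V
  adj : T.Adj v1 v2
  st1 : ∀ g : G, g • v1 = v1 ↔ g ∈ A1
  st2 : ∀ g : G, g • v2 = v2 ↔ g ∈ A2
  stC : ∀ g : G, g ∈ C ↔ g ∈ A1 ∧ g ∈ A2
  edge : ∀ u w, T.Adj u w → ∃ g : G, (u = g • v1 ∧ w = g • v2) ∨ (u = g • v2 ∧ w = g • v1)
  ne : ∀ g : G, g • v1 ≠ v2

def Split (A1 A2 C : Subgroup G) : Prop := Nonempty (VTree A1 A2 C)

def Ell (A1 A2 : Subgroup G) (g : G) : Prop := ∃ h, g ∈ cj h A1 ∨ g ∈ cj h A2

def JE (A1 A2 : Subgroup G) (g g' : G) : Prop :=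
  ∃ h, (g ∈ cj h A1 ∧ g' ∈ cj h A1) ∨ (g ∈ cj h A2 ∧ g' ∈ cj h A2)

end Dyer

/-! ### roots, points, walls -/
section Cox

variable {B : Type} [Fintype B] [DecidableEq B] (N : CoxeterMatrix B)

abbrev sr (i : B) : N.Group := N.toCoxeterSystem.simple i

abbrev par (T : Set B) : Subgroup N.Group := gp (sr N) T

def IsRoot (a : B → ℝ) : Prop := ∃ w i, a = rho N w (al i)

noncomputable def Bf (a b : B → ℝ) : ℝ := -bf N a b / 2

def ReflOf (r : N.Group) (a : B → ℝ) : Prop :=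
  ∃ w i, a = rho N w (al i) ∧ r = w * sr N i * w⁻¹

def IsRefl (r : N.Group) : Prop := ∃ a, ReflOf N r a

def IsRot (g : N.Group) : Prop :=
  ∃ (c : N.Group) (i j : B) (k : ℕ), i ≠ j ∧ N i j ≠ 0 ∧ g = c * (sr N i * sr N j) ^ k * c⁻¹ ∧ g ≠ 1

/-- the sign character -/
noncomputable def sg : N.Group →* ℤˣ :=
  N.toCoxeterSystem.lift ⟨fun _ => -1, fun i j => by simp⟩

theorem sg_sr (i : B) : sg N (sr N i) = -1 := N.toCoxeterSystem.lift_apply_simple _ i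

def Supp (T : Set B) (a : B → ℝ) : Prop := ∀ j, j ∉ T → a j = 0

def Inv (w : N.Group) : Set (B → ℝ) := {a | IsRoot N a ∧ Pos a ∧ Pos (-rho N w⁻¹ a)}

abbrev Pt (B : Type) : Type := (B → ℝ) →ₗ[ℝ] ℝ

/-- interior of the Tits cone -/
def InI (x : Pt B) : Prop := {a | IsRoot N a ∧ Pos a ∧ x a ≤ 0}.Finite

noncomputable def act (w : N.Group) (x : Pt B) : Pt B := x ∘ₗ rho N w⁻¹

theorem act_apply (w : N.Group) (x : Pt B) (a : B → ℝ) : act N w x a = x (rho N w⁻¹ a) := rfl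

theorem act_rho (w : N.Group) (x : Pt B) (a : B → ℝ) : act N w x (rho N w a) = x a := by
  rw [act_apply, rho_inv]

theorem act_mul (w w' : N.Group) (x : Pt B) : act N (w * w') x = act N w (act N w' x) := by
  refine LinearMap.ext fun a => ?_
  simp only [act_apply, mul_inv_rev, rho_mul]

theorem act_one (x : Pt B) : act N 1 x = x := by
  refine LinearMap.ext fun a => ?_
  simp [act_apply]

theorem rho_one (a : B → ℝ) : rho N 1 a = a := by simp

theorem rho_inv' (w : N.Group) (a : B → ℝ) : rho N w (rho N w⁻¹ a) = a := by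
  rw [← rho_mul, mul_inv_cancel, rho_one]

noncomputable def pt0 (B : Type) [Fintype B] : Pt B := ∑ j, LinearMap.proj j

def Cham (x : Pt B) : Prop := ∀ i, 0 ≤ x (al i)

def Zs (x : Pt B) : Set B := {i | x (al i) = 0}

def Cross (a b : B → ℝ) : Prop :=
  IsRoot N a ∧ IsRoot N b ∧ b ≠ a ∧ b ≠ -a ∧ ∃ x, InI N x ∧ x a = 0 ∧ x b = 0

def Sep (x y : Pt B) : Set (B → ℝ) := {a | IsRoot N a ∧ 0 < x a ∧ y a < 0}

def Per (w : N.Group) (a : B → ℝ) : Prop := ∃ k : ℕ, 0 < k ∧ rho N (w ^ k) a = a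

def Ess (w : N.Group) (a : B → ℝ) : Prop :=
  IsRoot N a ∧ ∀ x, InI N x →
    ∀ᶠ n : ℕ in atTop, 0 < x (rho N (w ^ n)⁻¹ a) ∧ x (rho N (w ^ n) a) < 0

def Evn (w : N.Group) (a : B → ℝ) : Prop :=
  IsRoot N a ∧ ∀ x, InI N x →
    ∀ᶠ n : ℕ in atTop, 0 < x (rho N (w ^ n)⁻¹ a) ∧ 0 < x (rho N (w ^ n) a)

def CaseA (w : N.Group) : Prop := ∀ a b, Ess N w a → Ess N w b → ¬ Cross N a b

structure Chain (w : N.Group) (β : ℤ → B → ℝ) (lam : N.Group → ℤ) : Prop where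
  ess : ∀ i, Ess N w (β i)
  all : ∀ a, Ess N w a → ∃ i, a = β i
  mono : ∀ i j, i < j → ∀ x, InI N x → 0 ≤ x (β j) → 0 < x (β i)
  shift : ∀ g, Commute g w → ∀ i, rho N g (β i) = β (i + lam g)

/-- product structure of the centraliser -/
structure ProdA (w c : N.Group) (P L : Set B) : Prop where
  nP : P.Nonempty
  nL : L.Nonempty
  two : ∀ p ∈ P, ∀ l ∈ L, N p l = 2
  ess : ∀ a, Ess N w a → Supp P (rho N c⁻¹ a)
  per : ∀ a, IsRoot N a → Per N w a → Supp L (rho N c⁻¹ a)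
  cen : ∀ g, Commute g w → ∃ u ∈ par N P, ∃ v ∈ par N L, g = c * (u * v) * c⁻¹

def EK (K : Subgroup N.Group) (a : B → ℝ) : Prop := ∃ g ∈ K, Ess N g a

def Tri (K : Subgroup N.Group) (a b e : B → ℝ) : Prop :=
  EK N K a ∧ EK N K b ∧ EK N K e ∧ Cross N a b ∧ Cross N b e ∧ Cross N a e ∧
    ¬ ∃ y, InI N y ∧ y a = 0 ∧ y b = 0 ∧ y e = 0

def Tri0 (i j k : B) : Prop := i ≠ j ∧ j ≠ k ∧ i ≠ k ∧ N i j ≠ 0 ∧ N j k ≠ 0 ∧ N i k ≠ 0

def Tri4 (i j k : B) : Prop := N i j = 4 ∧ N j k = 4 ∧ N i k = 2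

def Tri6 (i j k : B) : Prop := N i j = 6 ∧ N j k = 3 ∧ N i k = 2

def Diag (f : Equiv.Perm (ℤ × ℤ)) (e1 e2 p q : ℤ) : Prop :=
  ∀ X Y, f (X, Y) = (e1 * X + 2 * p, e2 * Y + 2 * q)

def Swp (f : Equiv.Perm (ℤ × ℤ)) (e1 e2 p q : ℤ) : Prop :=
  ∀ X Y, f (X, Y) = (e1 * Y + 2 * p, e2 * X + 2 * q)

/-- the plane model of the triangle group `(4,4,2)` -/
structure Model (i j k : B) (μ : par N {i, j, k} →* Equiv.Perm (ℤ × ℤ)) : Prop where
  inj : Function.Injective μ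
  mi : ∀ h, Diag (μ ⟨sr N i, h⟩) (-1) 1 0 0
  mj : ∀ h, Swp (μ ⟨sr N j, h⟩) 1 1 0 0
  ml : ∀ h, Diag (μ ⟨sr N k, h⟩) 1 (-1) 0 1

/-- `g` is an odd translation and `h` exchanges the axes -/
def ExoAt (c : N.Group) (i j k : B) (g h : N.Group) : Prop :=
  Tri4 N i j k ∧ ∃ μ, Model N i j k μ ∧
    ∃ (hg : c⁻¹ * g * c ∈ par N {i, j, k}) (hh : c⁻¹ * h * c ∈ par N {i, j, k}),
      (∃ p q, Odd (p + q) ∧ Diag (μ ⟨_, hg⟩) 1 1 p q) ∧
        ∃ e p q, (e = 1 ∨ e = -1) ∧ Even (p + q) ∧ Swp (μ ⟨_, hh⟩) e e p q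

def Exo (g h : N.Group) : Prop := ∃ c i j k, ExoAt N c i j k g h

/-- the wall counting cocycle -/
structure NData {G : Type} [Group G] (ψ : G →* N.Group) where
  n : G → N.Group → ℤ
  fin : ∀ g, (Function.support (n g)).Finite
  refl : ∀ g r, n g r ≠ 0 → IsRefl N r
  mul : ∀ g h r, n (g * h) r = n g r + n h ((ψ g)⁻¹ * r * ψ g)
  odd : ∀ g r a, ReflOf N r a → Pos a → (Odd (n g r) ↔ Pos (-rho N (ψ g)⁻¹ a))
  sum : ∀ g, Odd (∑ᶠ r, n g r) ↔ sg N (ψ g) = -1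

theorem Bf_symm (a b : B → ℝ) : Bf N a b = Bf N b a := by rw [Bf, Bf, bf_symm]

theorem Bf_rho (w : N.Group) (a b : B → ℝ) : Bf N (rho N w a) (rho N w b) = Bf N a b := by
  rw [Bf, Bf, bf_rho]

theorem Bf_al (i j : B) : Bf N (al i) (al j) = -Real.cos (Real.pi / N i j) := by
  rw [Bf, bf_al, ip_al, cc]
  ring

theorem Bf_add_right (a b e : B → ℝ) : Bf N a (b + e) = Bf N a b + Bf N a e := by
  simp only [Bf, bf, map_add, mul_add, Finset.sum_add_distrib]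
  ring

theorem Bf_smul_right (a b : B → ℝ) (t : ℝ) : Bf N a (t • b) = t * Bf N a b := by
  rw [Bf_symm, Bf, bf_smul, Bf, bf_symm]
  ring

theorem Bf_add_left (a b e : B → ℝ) : Bf N (a + b) e = Bf N a e + Bf N b e := by
  rw [Bf_symm, Bf_add_right, Bf_symm N e, Bf_symm N e]

theorem Bf_smul_left (a b : B → ℝ) (t : ℝ) : Bf N (t • a) b = t * Bf N a b := by
  rw [Bf_symm, Bf_smul_right, Bf_symm]

theorem Bf_neg_right (a b : B → ℝ) : Bf N a (-b) = -Bf N a b := by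
  rw [← neg_one_smul ℝ b, Bf_smul_right]
  ring

theorem Bf_neg_left (a b : B → ℝ) : Bf N (-a) b = -Bf N a b := by
  rw [Bf_symm, Bf_neg_right, Bf_symm]

end Cox

/-! ### geometric families -/
section Geo

variable {T B : Type} [Fintype T] [DecidableEq T] [Fintype B] [DecidableEq B]

/-- a reflection embedding of the Coxeter group of `M` with full edge groups -/
structure Geo (M : CoxeterMatrix T) (N : CoxeterMatrix B) (j : M.Group →* N.Group)
    (β : T → B → ℝ) : Prop where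
  nsM : NoSph M
  nsN : NoSph N
  rig : Rigid M Set.univ
  inj : Function.Injective j
  refl : ∀ t, ReflOf N (j (sr M t)) (β t)

def OnV (N : CoxeterMatrix B) (β : T → B → ℝ) (s t : T) (y : Pt B) : Prop :=
  InI N y ∧ y (β s) = 0 ∧ y (β t) = 0

/-- every vertex lies on the positive side of every other wall -/
def Oriented (M : CoxeterMatrix T) (N : CoxeterMatrix B) (β : T → B → ℝ) : Prop :=
  ∀ s t u, Adj M s t → u ≠ s → u ≠ t → ∀ y, OnV N β s t y → 0 < y (β u)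

/-- `a` has one sign on all vertices except the vertex of `s, t` -/
def OneSign (M : CoxeterMatrix T) (N : CoxeterMatrix B) (β : T → B → ℝ) (s t : T)
    (a : B → ℝ) : Prop :=
  ∃ ε : ℝ, (ε = 1 ∨ ε = -1) ∧ ∀ u v, Adj M u v → u ≠ s → u ≠ t → ∀ y, OnV N β u v y → 0 < ε * y a

/-- an automorphism that is inner on every edge -/
def EdgeInner (M : CoxeterMatrix T) (θ : M.Group ≃* M.Group) : Prop :=
  ∀ s t, Adj M s t → ∃ g, θ (sr M s) = g * sr M s * g⁻¹ ∧ θ (sr M t) = g * sr M t * g⁻¹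

end Geo

/-! ### doubles -/
section Double

variable {S G : Type} [Group G]

structure Dbl (M : CoxeterMatrix S) (R : Set S) where
  B : Type
  [fin : Fintype B]
  [dec : DecidableEq B]
  N : CoxeterMatrix B
  p : B → S
  a : S → B
  b : S → B
  pa : ∀ s, p (a s) = s
  pb : ∀ s, p (b s) = s
  ab : ∀ s, a s = b s ↔ s ∈ R
  all : ∀ i, i = a (p i) ∨ i = b (p i)
  lab : ∀ i j, p i ≠ p j → N i j = M (p i) (p j)
  inf : ∀ s, s ∉ R → N (a s) (b s) = 0

attribute [instance] Dbl.fin Dbl.dec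

/-- `ψ` sends the generators to the standard elements of the double -/
def Dbl.Hom {M : CoxeterMatrix S} {R : Set S} (E : Dbl M R) (x : S → G)
    (ψ : G →* E.N.Group) : Prop :=
  (∀ s ∈ R, ψ (x s) = sr E.N (E.a s)) ∧
    ∀ s, s ∉ R → ψ (x s) = sr E.N (E.a s) * sr E.N (E.b s)

structure Side (M : CoxeterMatrix S) (R : Set S) (x : S → G) extends Dbl M R where
  ψ : G →* N.Group
  hom : toDbl.Hom x ψ
  ker : ∀ g, ψ g = 1 ↔ g ∈ Subgroup.normalClosure {y | ∃ s ∈ R, y = x s * x s}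
  ns : NoSph N
  mem : ∀ T g, g ∈ gp x T → ψ g ∈ par N (p ⁻¹' T)
  elm : ∀ s U, ψ (x s) ∈ par N U → a s ∈ U
  chr : ∀ χ : G →* ℤˣ, ∃ χ' : N.Group →* ℤˣ, (∀ g, χ' (ψ g) = χ g) ∧
    ∀ s, χ' (sr N (a s)) = χ (x s)
  refl : ∀ g, IsRefl N (ψ g) → ∃ s ∈ R, ∃ d, ψ g = ψ (d * x s * d⁻¹)
  rot : ∀ g (c : N.Group) i j (k : ℕ), i ≠ j → N i j ≠ 0 →
    ψ g = c * (sr N i * sr N j) ^ k * c⁻¹ → ψ g ≠ 1 → ∃ s ∈ R, ∃ t ∈ R, i = a s ∧ j = a t
  big : ∀ i j, 3 ≤ N i j → ∃ s ∈ R, i = a s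
  fold : ∀ c : N.Group, ∃ d : G,
    (∀ U g, ψ g ∈ cj c (par N U) → ∃ g' ∈ gp x (p '' U), ψ g = ψ (d * g' * d⁻¹)) ∧
    ∀ s ∈ R, ∀ g, ψ g = c * sr N (a s) * c⁻¹ → ψ g = ψ (d * x s * d⁻¹)

/-- an Artin generating family with its double and its cocycle -/
structure ASide (M : CoxeterMatrix S) (x : S → G) extends Side M (Big M) x where
  art : IsDyer M ∅ x
  nsM : NoSph M
  ν : NData N ψ
  n1 : ∀ s ∈ Big M, ν.n (x s) (sr N (a s)) = 1
  n0 : ∀ s ∈ Big M, ∀ r, r ≠ sr N (a s) → ν.n (x s) r = 0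
  ex : ∀ χ : G →* Multiplicative ℤ, ∃ κ : N.Group → ℤ, (∀ c r, κ (c * r * c⁻¹) = κ r) ∧
    ∀ g, (χ g).toAdd = ∑ᶠ r, ν.n g r * κ r

end Double

end Pool.Agent.Lib.MP_1b8ce0_al.T
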