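import Mathlib
import Pool.Agent.Lib.MP_1b8ce0_al.T.StsC

set_option linter.unusedSectionVars false
set_option linter.dupNamespace false

namespace Pool.Agent.Lib.MP_1b8ce0_al.T

open Pool.Agent.Lib.MP_6d85b4_al

section One

variable {S D : Type} [Group D] {M : CoxeterMatrix S} {R : Set S} {x : S → D}

theorem EDGE_card_cj (d : D) (K : Subgroup D) : Nat.card (cj d K) = Nat.card K :=
  Nat.card_congr ⟨fun g => ⟨d⁻¹ * g * d, g.2⟩, fun g => ⟨d * g * d⁻¹, conj_mem_cj.2 g.2⟩,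
    fun g => Subtype.ext (by simp [mul_assoc]), fun g => Subtype.ext (by simp [mul_assoc])⟩

theorem EDGE_adj {s t : S} (h : Adj M s t) : Adj M t s :=
  ⟨h.1.symm, by rw [M.symmetric]; exact h.2⟩

theorem EDGE_alt_odd (s t : D) (k : ℕ) : alt s t (2 * k + 1) = (s * t) ^ k * s := by
  have h := alt_two_mul s t k
  have h2 : (2 * k) % 2 = 0 := by omega
  unfold alt at h ⊢
  rw [List.range_succ, List.map_append, List.prod_append, h]
  simp only [List.map_cons, List.map_nil, List.prod_cons, List.prod_nil, h2, if_true, mul_one]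

/-- the two generators of an odd edge are conjugate in the edge group -/
theorem EDGE_odd (hd : IsDyer M R x) {s t : S} (hst : s ≠ t) (ho : Odd (M s t)) :
    ∃ w ∈ gp x {s, t}, x t = w * x s * w⁻¹ := by
  obtain ⟨k, hk⟩ := ho
  have h := hd.braid s trivial t trivial hst (by omega)
  rw [hk, EDGE_alt_odd, EDGE_alt_odd] at h
  refine ⟨(x s * x t) ^ k, Subgroup.pow_mem _ (Subgroup.mul_mem _ (gp_mem x (by simp))
    (gp_mem x (by simp))) k, ?_⟩
  rw [h, eq_mul_inv_iff_mul_eq, mul_pow_mul]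

theorem EDGE_inj (hd : IsDyer M R x) (E : Side M R x) : Function.Injective E.ψ := by
  rw [injective_iff_map_eq_one]
  intro g hg
  have h : Subgroup.normalClosure {y | ∃ s ∈ R, y = x s * x s} ≤ ⊥ := by
    refine Subgroup.normalClosure_le_normal ?_
    rintro y ⟨s, hs, rfl⟩
    simp [hd.sqr s hs]
  exact Subgroup.mem_bot.1 (h ((E.ker g).1 hg))

theorem EDGE_map (E : Side M R x) {s t : S} (hs : s ∈ R) (ht : t ∈ R) :
    (gp x {s, t}).map E.ψ = par E.N {E.a s, E.a t} := by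
  unfold par gp
  rw [MonoidHom.map_closure, Set.image_pair, Set.image_pair, Set.image_pair, E.hom.1 s hs,
    E.hom.1 t ht]

theorem EDGE_mem (hd : IsDyer M R x) (E : Side M R x) {s t : S} (hs : s ∈ R) (ht : t ∈ R)
    (g : D) : E.ψ g ∈ par E.N {E.a s, E.a t} ↔ g ∈ gp x {s, t} := by
  rw [← EDGE_map E hs ht]
  exact Subgroup.mem_map_iff_mem (EDGE_inj hd E)

theorem EDGE_lab (E : Side M R x) {s t : S} (hst : s ≠ t) :
    E.a s ≠ E.a t ∧ E.N (E.a s) (E.a t) = M s t := by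
  refine ⟨fun e => hst ?_, ?_⟩
  · rw [← E.pa s, e, E.pa]
  · rw [E.lab _ _ (by rw [E.pa, E.pa]; exact hst), E.pa, E.pa]

theorem EDGE_card (hd : IsDyer M R x) (E : Side M R x) (hA : CA E.N) {s t : S} (hs : s ∈ R)
    (ht : t ∈ R) (hst : s ≠ t) : Nat.card (gp x {s, t}) = 2 * M s t := by
  obtain ⟨h1, h2⟩ := EDGE_lab E hst
  rw [← h2, ← hA.c0.card _ _ h1, ← EDGE_map E hs ht]
  exact Nat.card_congr (Subgroup.equivMapOfInjective _ _ (EDGE_inj hd E)).toEquiv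

theorem EDGE_fin (hd : IsDyer M R x) (E : Side M R x) (hA : CA E.N) {s t : S} (hs : s ∈ R)
    (ht : t ∈ R) (hst : Adj M s t) : Finite (gp x {s, t}) := by
  refine Nat.finite_of_card_ne_zero ?_
  rw [EDGE_card hd E hA hs ht hst.1]
  have := hst.2
  omega

theorem EDGE_ne_one (E : Side M R x) (hA : CA E.N) {i j : E.B} (h : i ≠ j) :
    sr E.N i * sr E.N j ≠ 1 := by
  intro e
  have h1 := hA.c0.ord i j
  rw [e, orderOf_one] at h1
  exact E.N.off_diagonal i j h h1.symm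

theorem EDGE_xne (E : Side M R x) (hA : CA E.N) {s t : S} (hs : s ∈ R) (ht : t ∈ R)
    (hst : s ≠ t) : x s * x t ≠ 1 := by
  intro e
  refine EDGE_ne_one E hA (EDGE_lab E hst).1 ?_
  rw [← E.hom.1 s hs, ← E.hom.1 t ht, ← map_mul, e, map_one]

theorem EDGE_sg (E : Side M R x) {s : S} (hs : s ∈ R) {r : D} (h : IsConj r (x s)) :
    sg E.N (E.ψ r) = -1 := by
  obtain ⟨c, hc⟩ := isConj_iff.1 h.symm
  rw [← hc, map_mul, map_mul, map_mul, map_mul, E.hom.1 s hs, sg_sr, map_inv, map_inv,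
    mul_inv_cancel_comm]

/-- the elements of sign minus one of an edge group -/
theorem EDGE_elts (hd : IsDyer M R x) (E : Side M R x) (hA : CA E.N) {s t : S} (hs : s ∈ R)
    (ht : t ∈ R) (hst : Adj M s t) {g : D} (hg : g ∈ gp x {s, t}) (h : sg E.N (E.ψ g) = -1) :
    ∃ u ∈ gp x {s, t}, g = u * x s * u⁻¹ ∨ g = u * x t * u⁻¹ := by
  obtain ⟨h1, h2⟩ := EDGE_lab E hst.1
  rcases hA.c0.elts _ _ _ h1 (by rw [h2]; exact hst.2) ((EDGE_mem hd E hs ht g).2 hg) with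
    ⟨k, hk⟩ | ⟨u, hu, hk⟩
  · rw [hk, map_pow, map_mul, sg_sr, sg_sr] at h
    simp at h
  · rw [← EDGE_map E hs ht] at hu
    obtain ⟨u, hu, rfl⟩ := hu
    refine ⟨u, hu, hk.imp (fun e => EDGE_inj hd E ?_) fun e => EDGE_inj hd E ?_⟩
    · rw [e, map_mul, map_mul, map_inv, E.hom.1 s hs]
    · rw [e, map_mul, map_mul, map_inv, E.hom.1 t ht]

theorem EDGE_simplex {B : Type} {N : CoxeterMatrix B} {i j : B} (h : N i j ≠ 0) :
    Simplex N {i, j} := by
  constructor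
  · rintro s (rfl | rfl) t (rfl | rfl)
    · rw [N.diagonal]
      exact one_ne_zero
    · exact h
    · rw [N.symmetric]
      exact h
    · rw [N.diagonal]
      exact one_ne_zero
  · rintro s (rfl | rfl) t (rfl | rfl) u (rfl | rfl) <;> simp

/-- an edge group is determined by its rotation -/
theorem EDGE_type (hd : IsDyer M R x) (E : Side M R x) (hA : CA E.N) {s t a b : S} (hs : s ∈ R)
    (ht : t ∈ R) (hst : Adj M s t) (ha : a ∈ R) (hb : b ∈ R) (hab : Adj M a b) {h : D}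
    (hm : x s * x t ∈ cj h (gp x {a, b})) : ({a, b} : Set S) = {s, t} ∧ h ∈ gp x {s, t} := by
  obtain ⟨h1, h2⟩ := EDGE_lab E hst.1
  obtain ⟨-, h4⟩ := EDGE_lab E hab.1
  have := hA.t1.rot_type 1 (E.ψ h) _ _ 1 {E.a a, E.a b} h1 (by rw [h2]; exact hst.2)
    (by rw [pow_one]; exact EDGE_ne_one E hA h1) (EDGE_simplex (by rw [h4]; exact hab.2)) ?_
  · obtain ⟨e1, e2⟩ := this
    constructor
    · have := congrArg (fun U => E.p '' U) e1
      simpa only [Set.image_pair, E.pa] using this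
    · rw [mul_one, ← map_inv, EDGE_mem hd E hs ht] at e2
      exact (Subgroup.inv_mem_iff _).1 e2
  · rw [pow_one, one_mul, inv_one, mul_one, mem_cj, ← E.hom.1 s hs, ← E.hom.1 t ht, ← map_inv,
      ← map_mul, ← map_mul, ← map_mul, EDGE_mem hd E ha hb]
    exact hm

/-- a finite subgroup with two different reflections lies in an edge group -/
theorem EDGE_sub (hd : IsDyer M R x) (E : Side M R x) (hA : CA E.N) (K : Subgroup D)
    [Finite K] {r1 r2 : D} (h1 : r1 ∈ K) (h2 : r2 ∈ K) (hne : r1 * r2 ≠ 1)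
    (c1 : ∃ s ∈ R, IsConj r1 (x s)) (c2 : ∃ s ∈ R, IsConj r2 (x s)) :
    ∃ s ∈ R, ∃ t ∈ R, Adj M s t ∧ ∃ d, K ≤ cj d (gp x {s, t}) := by
  have inj := EDGE_inj hd E
  have hfin : Finite (K.map E.ψ) :=
    Finite.of_equiv _ (Subgroup.equivMapOfInjective K _ inj).toEquiv
  obtain ⟨c, T, hT, hle⟩ := hA.t1.finsub _ hfin
  have hm : E.ψ (r1 * r2) ∈ K.map E.ψ := ⟨_, K.mul_mem h1 h2, rfl⟩
  have ho : IsOfFinOrder (E.ψ (r1 * r2)) := by
    have : IsOfFinOrder (⟨r1 * r2, K.mul_mem h1 h2⟩ : K) := isOfFinOrder_of_finite _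
    exact E.ψ.isOfFinOrder (K.subtype.isOfFinOrder this)
  have hsg : sg E.N (E.ψ (r1 * r2)) = 1 := by
    obtain ⟨s, hs, c1⟩ := c1
    obtain ⟨t, ht, c2⟩ := c2
    rw [map_mul, map_mul, EDGE_sg E hs c1, EDGE_sg E ht c2]
    simp
  rcases hA.t1.tors _ ho with h | h | ⟨c0, i, j, k, hij, h0, he, hn⟩
  · exact absurd (inj (h.trans (map_one _).symm)) hne
  · rw [(hA.a0.refl_sq _ h).2.2] at hsg
    simp at hsg
  · obtain ⟨s, hs, t, ht, rfl, rfl⟩ := E.rot _ c0 i j k hij h0 he hn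
    have hst : s ≠ t := fun e => hij (by rw [e])
    obtain ⟨rfl, -⟩ := hA.t1.rot_type c0 c _ _ k T hij h0
      (fun e => hn (by rw [he, e]; simp)) hT (he ▸ hle hm)
    obtain ⟨d, hd1, -⟩ := E.fold c
    refine ⟨s, hs, t, ht, ⟨hst, by rw [← (EDGE_lab E hst).2]; exact h0⟩, d, fun g hg => ?_⟩
    obtain ⟨g', hg', e⟩ := hd1 _ g (hle ⟨g, hg, rfl⟩)
    rw [Set.image_pair, E.pa, E.pa] at hg'
    rw [inj e]
    exact conj_mem_cj.2 hg'

/-- on an even edge the two generators are separated by a character -/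
theorem EDGE_even [Fintype S] [DecidableEq S] (h3 : St_RESTR) (hd : DP M R x) {s t : S}
    (hst : s ≠ t) (he : Even (M s t)) :
    ∃ L : Subgroup D, (∀ u ∈ gp x {s, t}, u * x s * u⁻¹ ∈ L) ∧ x t ∉ L := by
  obtain ⟨k, hk⟩ := he
  have hb : Braid M {s, t} fun u => if u = t then (-1 : ℤˣ) else 1 := by
    intro u hu v hv huv _
    have : M u v = 2 * k := by
      rcases hu with rfl | rfl <;> rcases hv with rfl | rfl
      · exact absurd rfl huv
      · omega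
      · rw [M.symmetric]
        omega
      · exact absurd rfl huv
    rw [this, alt_two_mul, alt_two_mul, mul_comm]
  obtain ⟨φ, hφ⟩ := (h3 S D M R x hd.dy hd.fl {s, t}).1 ℤˣ _ hb
    (fun u _ _ => Int.units_mul_self _)
  have ms : x s ∈ gp x {s, t} := gp_mem x (by simp)
  have mt : x t ∈ gp x {s, t} := gp_mem x (by simp)
  refine ⟨φ.ker.map (gp x {s, t}).subtype, fun u hu => ?_, ?_⟩
  · refine ⟨⟨u, hu⟩ * ⟨x s, ms⟩ * ⟨u, hu⟩⁻¹, ?_, rfl⟩
    change φ _ = 1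
    rw [map_mul, map_mul, hφ s ms (by simp), if_neg hst, map_inv, mul_one, mul_inv_cancel]
  · rintro ⟨g, hg, e⟩
    have e' : g = ⟨x t, mt⟩ := Subtype.ext e
    have hg' : φ g = 1 := hg
    rw [e', hφ t mt (by simp), if_pos rfl] at hg'
    simp at hg'

end One

section Two

variable {S S' D : Type} [Group D] {M : CoxeterMatrix S} {R : Set S} {x : S → D}
  {M' : CoxeterMatrix S'} {R' : Set S'} {x' : S' → D}

theorem EDGE_flip {s t : S} {s' t' : S'} (h : EE M R x M' R' x' s t s' t') :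
    EE M' R' x' M R x s' t' s t := by
  obtain ⟨hs, ht, hs', ht', ha, ha', d, hd, ⟨u, hu, e1⟩, ⟨v, hv, e2⟩⟩ := h
  refine ⟨hs', ht', hs, ht, ha', ha, d⁻¹, ?_, ⟨d * u⁻¹ * d⁻¹, ?_, ?_⟩, ⟨d * v⁻¹ * d⁻¹, ?_, ?_⟩⟩
  · rw [hd, cj_cj, inv_mul_cancel, cj_one]
  · rw [hd]
    exact conj_mem_cj.2 (Subgroup.inv_mem _ hu)
  · rw [e1]
    group
  · rw [hd]
    exact conj_mem_cj.2 (Subgroup.inv_mem _ hv)
  · rw [e2]
    group

theorem EDGE_symm {s t : S} {s' t' : S'} (h : EE M R x M' R' x' s t s' t') :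
    EE M R x M' R' x' t s t' s' := by
  obtain ⟨hs, ht, hs', ht', ha, ha', d, hd, h1, h2⟩ := h
  rw [EE, Set.pair_comm t s, Set.pair_comm t' s']
  exact ⟨ht, hs, ht', hs', EDGE_adj ha, EDGE_adj ha', d, hd, h2, h1⟩

/-- the last step of the construction of the matching edge -/
theorem EDGE_mk [Fintype S'] [DecidableEq S'] (h3 : St_RESTR) (hd' : DP M' R' x') {s t : S}
    {s' t' : S'} (hs : s ∈ R) (ht : t ∈ R) (hs' : s' ∈ R') (ht' : t' ∈ R') (ha : Adj M s t)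
    (ha' : Adj M' s' t') {d u v : D} (hd : gp x {s, t} = cj d (gp x' {s', t'}))
    (hu : u ∈ gp x' {s', t'}) (hv : v ∈ gp x' {s', t'}) (e1 : d⁻¹ * x s * d = u * x' s' * u⁻¹)
    (e2 : d⁻¹ * x t * d = v * x' s' * v⁻¹ ∨ d⁻¹ * x t * d = v * x' t' * v⁻¹) :
    EE M R x M' R' x' s t s' t' := by
  have f : ∀ g w y : D, d⁻¹ * g * d = w * y * w⁻¹ → g = d * w * y * w⁻¹ * d⁻¹ := by
    intro g w y e
    calc g = d * (d⁻¹ * g * d) * d⁻¹ := by group
      _ = _ := by rw [e]; group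
  refine ⟨hs, ht, hs', ht', ha, ha', d, hd, ⟨u, hu, f _ _ _ e1⟩, ?_⟩
  rcases e2 with e2 | e2
  · rcases Nat.even_or_odd (M' s' t') with he | ho
    · exfalso
      obtain ⟨L, hL1, hL2⟩ := EDGE_even h3 hd' ha'.1 he
      have hle : gp x {s, t} ≤ cj d L := by
        rw [gp_le]
        rintro y (rfl | rfl)
        · rw [mem_cj, e1]
          exact hL1 u hu
        · rw [mem_cj, e2]
          exact hL1 v hv
      rw [hd] at hle
      exact hL2 (conj_mem_cj.1 (hle (conj_mem_cj.2 (gp_mem x' (by simp)))))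
    · obtain ⟨w, hw, e⟩ := EDGE_odd hd'.dy ha'.1 ho
      refine ⟨v * w⁻¹, Subgroup.mul_mem _ hv (Subgroup.inv_mem _ hw), f _ _ _ ?_⟩
      rw [e2, e]
      group
  · exact ⟨v, hv, f _ _ _ e2⟩

end Two

theorem EDGE_thm (hA : St_CA) (_h1 : St_D1) (h2 : St_SIDE) (h3 : St_RESTR) (_h4 : St_DPAR) :
    St_EDGE := by
  intro D S S' _ _ _ _ _ M R x M' R' x' hd hd' hm
  obtain ⟨E⟩ := h2 S D M R R x hd.dy subset_rfl hd.fl hd.ns
  obtain ⟨E'⟩ := h2 S' D M' R' R' x' hd'.dy subset_rfl hd'.fl hd'.ns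
  have A := hA _ E.N E.ns
  have A' := hA _ E'.N E'.ns
  have lab : ∀ s t s' t', EE M R x M' R' x' s t s' t' → M' s' t' = M s t := by
    rintro s t s' t' ⟨hs, ht, hs', ht', ha, ha', d, e, -, -⟩
    have c1 := EDGE_card hd.dy E A hs ht ha.1
    have c2 := EDGE_card hd'.dy E' A' hs' ht' ha'.1
    rw [e, EDGE_card_cj, c2] at c1
    omega
  refine ⟨fun _ _ _ _ => EDGE_flip, fun _ _ _ _ => EDGE_symm, fun s t s' t' h => ⟨lab _ _ _ _ h, ?_⟩,
    fun s hs t ht ha => ?_, fun s t s' t' a b h h' => ?_, fun s t s' t' h ho => ?_⟩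
  · obtain ⟨-, -, -, -, -, -, d, -, ⟨u, -, e⟩, -⟩ := h
    refine IsConj.symm (isConj_iff.2 ⟨d * u, ?_⟩)
    rw [e]
    group
  · have ms : x s ∈ gp x {s, t} := gp_mem x (by simp)
    have mt : x t ∈ gp x {s, t} := gp_mem x (by simp)
    have := EDGE_fin hd.dy E A hs ht ha
    obtain ⟨s', hs', t', ht', ha', d, h1⟩ := EDGE_sub hd'.dy E' A' (gp x {s, t}) ms mt
      (EDGE_xne E A hs ht ha.1) (hm.1 s hs) (hm.1 t ht)
    have := EDGE_fin hd'.dy E' A' hs' ht' ha'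
    have cv : ∀ y ∈ R', ∃ z ∈ R, IsConj (x' y) (x z) := fun y hy => by
      obtain ⟨z, hz, c⟩ := hm.2 y hy
      exact ⟨z, hz, c.symm⟩
    obtain ⟨a, har, b, hbr, hab, d2, h2⟩ := EDGE_sub hd.dy E A (gp x' {s', t'})
      (gp_mem x' (by simp)) (gp_mem x' (by simp)) (EDGE_xne E' A' hs' ht' ha'.1) (cv s' hs')
      (cv t' ht')
    have h4 : cj d (gp x' {s', t'}) ≤ cj (d * d2) (gp x {a, b}) := by
      rw [← cj_cj]
      exact cj_mono d h2
    obtain ⟨e1, e2⟩ := EDGE_type hd.dy E A hs ht ha har hbr hab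
      (h4 (h1 (Subgroup.mul_mem _ ms mt)))
    rw [e1, cj_self e2] at h4
    have hE := le_antisymm h1 h4
    have sgn : ∀ y ∈ R, sg E'.N (E'.ψ (d⁻¹ * x y * d)) = -1 := fun y hy => by
      obtain ⟨z, hz, c⟩ := hm.1 y hy
      refine EDGE_sg E' hz (IsConj.trans (isConj_iff.2 ⟨d, ?_⟩) c)
      group
    obtain ⟨u, hu, eu⟩ := EDGE_elts hd'.dy E' A' hs' ht' ha' (h1 ms) (sgn s hs)
    obtain ⟨v, hv, ev⟩ := EDGE_elts hd'.dy E' A' hs' ht' ha' (h1 mt) (sgn t ht)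
    rcases eu with eu | eu
    · exact ⟨s', t', EDGE_mk h3 hd' hs ht hs' ht' ha ha' hE hu hv eu ev⟩
    · rw [Set.pair_comm s' t'] at hE hu hv
      exact ⟨t', s', EDGE_mk h3 hd' hs ht ht' hs' ha (EDGE_adj ha') hE hu hv eu ev.symm⟩
  · have l := lab _ _ _ _ h
    obtain ⟨-, -, hs', ht', -, ha', d, e, ⟨u, hu, e1⟩, -⟩ := h
    obtain ⟨-, -, har, hbr, -, hab, d2, e', ⟨u2, hu2, e2⟩, -⟩ := h'
    have hm' : x' s' * x' t' ∈ cj (d⁻¹ * d2) (gp x' {a, b}) := by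
      rw [← cj_cj, ← e', e, cj_cj, inv_mul_cancel, cj_one]
      exact Subgroup.mul_mem _ (gp_mem x' (by simp)) (gp_mem x' (by simp))
    obtain ⟨f1, f2⟩ := EDGE_type hd'.dy E' A' hs' ht' ha' har hbr hab hm'
    rw [f1] at hu2
    rcases Set.pair_eq_pair_iff.1 f1 with f | ⟨rfl, rfl⟩
    · exact Or.inl f
    · refine Or.inr ⟨?_, rfl, rfl⟩
      rw [← l]
      rcases Nat.even_or_odd (M' b a) with he | ho
      · exfalso
        obtain ⟨L, hL1, hL2⟩ := EDGE_even h3 hd' ha'.1 he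
        have := hL1 (u2⁻¹ * (d⁻¹ * d2)⁻¹ * u) (Subgroup.mul_mem _ (Subgroup.mul_mem _
          (Subgroup.inv_mem _ hu2) (Subgroup.inv_mem _ f2)) hu)
        refine hL2 ?_
        convert this using 1
        calc x' a = u2⁻¹ * d2⁻¹ * (d2 * u2 * x' a * u2⁻¹ * d2⁻¹) * d2 * u2 := by group
          _ = _ := by rw [← e2, e1]; group
      · exact ho
  · have l := lab _ _ _ _ h
    obtain ⟨hs, ht, hs', ht', ha, ha', d, e, ⟨u, hu, e1⟩, ⟨v, hv, e2⟩⟩ := h
    obtain ⟨w, hw, ew⟩ := EDGE_odd hd'.dy ha'.1 (l ▸ ho)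
    rw [EE, Set.pair_comm t' s']
    refine ⟨hs, ht, ht', hs', ha, EDGE_adj ha', d, e,
      ⟨u * w⁻¹, Subgroup.mul_mem _ hu (Subgroup.inv_mem _ hw), ?_⟩,
      ⟨v * w, Subgroup.mul_mem _ hv hw, ?_⟩⟩
    · rw [e1, ew]
      group
    · rw [e2, ew]
      group

end Pool.Agent.Lib.MP_1b8ce0_al.T
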