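import Mathlib
import Pool.Agent.Lib.MP_1b8ce0_al.T.StsB

set_option linter.unusedSectionVars false
set_option linter.dupNamespace false

namespace Pool.Agent.Lib.MP_1b8ce0_al.T

open Pool.Agent.Lib.MP_6d85b4_al

section Aux

variable {G S : Type} [Group G] {M : CoxeterMatrix S} {x : S → G}

theorem EE_conj (χ : G →* ℤˣ) (d g : G) : χ (d * g * d⁻¹) = χ g := by
  rw [map_mul, map_mul, map_inv, mul_comm (χ d), mul_assoc, mul_inv_cancel, mul_one]

theorem EE_odd (hD : D1 M ∅ x) {s t : S} (h : OddConn M s t) (χ : G →* ℤˣ) :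
    χ (x s) = χ (x t) := by
  obtain ⟨d, hd⟩ := isConj_iff.1 ((hD.conj s t).2 h)
  rw [← hd, EE_conj]

theorem EE_ne : (1 : ℤˣ) ≠ -1 := by decide

theorem EE_tri0 {B : Type} [Fintype B] [DecidableEq B] {N : CoxeterMatrix B} {i j k : B}
    (h : Tri4 N i j k) : Tri0 N i j k := by
  obtain ⟨h1, h2, h3⟩ := h
  refine ⟨?_, ?_, ?_, by omega, by omega, by omega⟩
  · rintro rfl
    have := N.diagonal i
    omega
  · rintro rfl
    have := N.diagonal j
    omega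
  · rintro rfl
    have := N.diagonal i
    omega

/-- the triangle of an exotic pair, read in the generators -/
theorem EE_tri (h2 : St_EXF) (A : ASide M x) {g h : G} {c : A.N.Group} {i j k : A.B}
    (hE : ExoAt A.N c i j k (A.ψ g) (A.ψ h)) :
    ∃ a b e : S, i = A.a a ∧ j = A.a b ∧ k = A.a e ∧ a ∈ Big M ∧ e ∈ Big M ∧ M a b = 4 ∧
      M b e = 4 ∧ M a e = 2 ∧ ∀ χ : G →* ℤˣ, χ g = χ (x a) * χ (x e) ∧ χ h = χ (x b) := by
  have hF := h2 A.B A.N A.ns c i j k _ _ hE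
  obtain ⟨t1, t2, t3⟩ := hE.1
  obtain ⟨n1, n2, n3, -⟩ := EE_tri0 hE.1
  obtain ⟨a, ha, rfl⟩ := A.big i j (by omega)
  obtain ⟨b, -, rfl⟩ := A.big j k (by omega)
  obtain ⟨e, he, rfl⟩ := A.big k (A.a b) (by rw [A.N.symmetric]; omega)
  have lab : ∀ u v : S, A.a u ≠ A.a v → A.N (A.a u) (A.a v) = M u v := by
    intro u v huv
    have := A.lab (A.a u) (A.a v) (by
      rw [A.pa, A.pa]
      rintro rfl
      exact huv rfl)
    rwa [A.pa, A.pa] at this
  refine ⟨a, b, e, rfl, rfl, rfl, ha, he, by rw [← lab a b n1, t1], by rw [← lab b e n2, t2],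
    by rw [← lab a e n3, t3], fun χ => ?_⟩
  obtain ⟨χ', q1, q2⟩ := A.chr χ
  rw [← q1 g, ← q1 h, hF.cg, hF.chh, q2, q2, q2]
  exact ⟨rfl, rfl⟩

/-- the same, ordered by a character that is odd on the first element -/
theorem EE_tri' (h2 : St_EXF) (A : ASide M x) {g h : G} {c : A.N.Group} {i j k : A.B}
    (hE : ExoAt A.N c i j k (A.ψ g) (A.ψ h)) (χ0 : G →* ℤˣ) (h0 : χ0 g = -1) :
    ∃ a b e : S, ({i, j, k} : Set A.B) = {A.a a, A.a b, A.a e} ∧ a ∈ Big M ∧ e ∈ Big M ∧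
      M a b = 4 ∧ M b e = 4 ∧ M a e = 2 ∧ χ0 (x a) = -1 ∧ χ0 (x e) = 1 ∧
      ∀ χ : G →* ℤˣ, χ g = χ (x a) * χ (x e) ∧ χ h = χ (x b) := by
  obtain ⟨a, b, e, rfl, rfl, rfl, ha, he, m1, m2, m3, hχ⟩ := EE_tri h2 A hE
  have h1 := (hχ χ0).1
  rw [h0] at h1
  rcases Int.units_eq_one_or (χ0 (x a)) with q | q
  · refine ⟨e, b, a, ?_, he, ha, by rw [M.symmetric, m2], by rw [M.symmetric, m1],
      by rw [M.symmetric, m3], ?_, q, fun χ => ⟨by rw [(hχ χ).1, mul_comm], (hχ χ).2⟩⟩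
    · ext y
      simp only [Set.mem_insert_iff, Set.mem_singleton_iff]
      tauto
    · rw [q, one_mul] at h1
      exact h1.symm
  · refine ⟨a, b, e, rfl, ha, he, m1, m2, m3, q, ?_, hχ⟩
    rw [q] at h1
    rcases Int.units_eq_one_or (χ0 (x e)) with q' | q'
    · exact q'
    · rw [q'] at h1
      exact absurd h1 (by decide)

/-- two characters that agree on generators agree on the conjugates of the subgroup -/
theorem EE_agree {H T : Type} [Group H] (y : T → H) (U : Set T) (χ χ' : H →* ℤˣ)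
    (hU : ∀ u ∈ U, χ (y u) = χ' (y u)) {c g : H} (hg : g ∈ cj c (gp y U)) : χ g = χ' g := by
  have h1 : gp y U ≤ χ.eqLocus χ' := gp_le.2 hU
  have h2 : χ (c⁻¹ * g * c) = χ' (c⁻¹ * g * c) := h1 hg
  have h3 := EE_conj χ c⁻¹ g
  have h4 := EE_conj χ' c⁻¹ g
  rw [inv_inv] at h3 h4
  rw [← h3, ← h4, h2]

end Aux

theorem EE_thm (hA : St_CA) (h1 : St_D1) (h2 : St_EXF) (h3 : St_CLS) (h4 : St_TYP) : St_EE := by
  intro G S S' _ _ _ _ _ M x M' x' A A' s t hE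
  have hD : D1 M ∅ x := h1.2 S G M ∅ x A.art
  have hD' : D1 M' ∅ x' := h1.2 S' G M' ∅ x' A'.art
  obtain ⟨hadj, hst, c0, i, j, k, hX⟩ := hE
  obtain ⟨χs, s1, s0⟩ := hD.chc s
  have ss : χs (x s) = -1 := s1 s Relation.ReflTransGen.refl
  have sodd : ∀ u, χs (x u) = -1 → OddConn M s u := fun u hu => by
    by_contra hn
    exact EE_ne ((s0 u hn).symm.trans hu)
  obtain ⟨a', b', c', hset, ha', hc', -, -, -, qa, qc, hχ⟩ := EE_tri' h2 A' hX χs ss
  have qb : χs (x' b') = 1 := by rw [← (hχ χs).2, s0 t hst]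
  have nac : ¬ OddConn M' a' c' := fun h => EE_ne (by rw [← qa, ← qc, EE_odd hD' h])
  have nab : ¬ OddConn M' a' b' := fun h => EE_ne (by rw [← qa, ← qb, EE_odd hD' h])
  -- the generator `x' a'` is not equivalent to a single generator
  have single : ∀ u, ¬ ∀ χ : G →* ℤˣ, χ (x' a') = χ (x u) := by
    intro u hu
    have o1 : OddConn M s u := sodd u (by rw [← hu, qa])
    obtain ⟨χ, e1, -⟩ := hD'.chc c'
    have e2 : χ (x' c') = -1 := e1 c' Relation.ReflTransGen.refl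
    have e3 := (hχ χ).1
    rw [EE_odd hD o1, ← hu, e2] at e3
    exact EE_ne (mul_left_cancel (a := χ (x' a')) (by rw [mul_one]; exact e3))
  have nr : ¬ IsRefl A.N (A.ψ (x' a')) := by
    intro hr
    obtain ⟨u, -, d, hd⟩ := A.refl _ hr
    refine single u fun χ => ?_
    obtain ⟨χ', q1, -⟩ := A.chr χ
    rw [← q1, hd, q1, EE_conj]
  obtain ⟨u', t', ou, hE'⟩ := (h4 G S' S M' x' M x A' A a' ha').resolve_left nr
  have hE2 : ExoE M' x' A u' t' := by
    refine hE'.resolve_right ?_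
    rintro ⟨-, -, d, i2, j2, k2, hY⟩
    obtain ⟨a, b, e, -, -, -, -, -, -, -, -, hb⟩ := EE_tri h2 A hY
    exact single b fun χ => by rw [EE_odd hD' ou, (hb χ).2]
  obtain ⟨-, nut, d, i2, j2, k2, hY⟩ := hE2
  obtain ⟨a, b, c, hset2, -, -, m1, m2, m3, pa, pc, hξ⟩ :=
    EE_tri' h2 A hY χs (by rw [← EE_odd hD' ou, qa])
  have ca : OddConn M s a := sodd a pa
  have hF := h2 A'.B A'.N A'.ns c0 i j k _ _ hX
  refine ⟨a, b, c, a', ⟨hadj, hst, c0, i, j, k, hX⟩, ⟨m1, m2, m3⟩, ca, ?_, ?_, ⟨nr, ha'⟩, ?_, ?_,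
    ?_, ?_⟩
  · intro hb
    obtain ⟨χ, e1, e0⟩ := hD'.chc u'
    have e2 : χ (x' a') = -1 := by
      rw [EE_odd hD' ou]
      exact e1 u' Relation.ReflTransGen.refl
    have e3 : χ (x' c') = 1 := e0 c' fun h => nac (ou.trans h)
    have e4 := (hξ χ).2
    rw [e0 t' nut, ← EE_odd hD hb, (hχ χ).1, e2, e3, mul_one] at e4
    exact EE_ne e4
  · intro hc
    exact EE_ne (pc.symm.trans (s1 c hc))
  · have e1 : ∀ χ : G →* ℤˣ, χ (x c) = χ (x' c') := by
      intro χ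
      have e2 := (hξ χ).1
      rw [← EE_odd hD' ou, ← EE_odd hD ca, (hχ χ).1, mul_assoc] at e2
      have e3 : 1 = χ (x' c') * χ (x c) :=
        mul_left_cancel (a := χ (x' a')) (by rw [mul_one]; exact e2)
      rw [← Int.units_mul_self (χ (x' c'))] at e3
      exact (mul_left_cancel e3).symm
    have e4 := e1 ((sg A'.N).comp A'.ψ)
    simp only [MonoidHom.comp_apply] at e4
    rw [e4, A'.hom.1 c' hc', sg_sr]
  · obtain ⟨-, -, k3, -, -, k6⟩ := h3 G S' S M' x' M x A' A a'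
    rw [k3 nr u' ou] at hY
    refine ⟨d, fun u hu => ?_⟩
    rw [← hset2]
    exact k6 d i2 j2 k2 _ hY u hu
  · intro χ e1 e0
    refine ⟨by rw [(hχ χ).1, e1, e0 c' nac, mul_one], fun u hu => ?_⟩
    obtain ⟨-, -, -, -, -, k6⟩ := h3 G S S' M x M' x' A A' s
    have k7 := k6 c0 i j k _ hX u (Or.inr hu)
    obtain ⟨χ1, q1, q2⟩ := A'.chr χ
    obtain ⟨χ2, r1, r2⟩ := A'.chr χs
    rw [← q1, EE_agree (sr A'.N) {i, j, k} χ1 χ2 ?_ k7, r1, s0 u hu.1]
    rw [hset]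
    rintro v (rfl | rfl | rfl)
    · rw [q2, r2, e1, qa]
    · rw [q2, r2, e0 b' nab, qb]
    · rw [q2, r2, e0 c' nac, qc]
  · intro h hh
    have e1 : A'.ψ (cm (x s) (x t)) = cm (A'.ψ (x s)) (A'.ψ (x t)) := by simp [cm]
    have e2 : cm (A'.ψ (x s)) (A'.ψ (x t)) ∈ cj c0 (par A'.N {i, j, k}) :=
      mul_mem (mul_mem (mul_mem hF.mem.1 hF.mem.2) (inv_mem hF.mem.1)) (inv_mem hF.mem.2)
    have e3 : cm (A'.ψ (x s)) (A'.ψ (x t)) ∈ cj (A'.ψ h) (par A'.N (A'.p ⁻¹' Bd M' a')) := by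
      have := A'.mem _ _ hh
      rw [map_mul, map_mul, map_inv, e1] at this
      exact this
    obtain ⟨-, f1, f2, f3⟩ :=
      (hA A'.B A'.N A'.ns).t1.pinf c0 _ i j k _ _ (EE_tri0 hX.1) e2 hF.cmi e3
    have f4 : A'.a a' ∈ A'.p ⁻¹' Bd M' a' := by
      have : A'.a a' ∈ ({i, j, k} : Set A'.B) := by
        rw [hset]
        exact Or.inl rfl
      rcases this with q | q | q
      · rw [q]; exact f1
      · rw [q]; exact f2
      · rw [q]; exact f3
    rw [Set.mem_preimage, A'.pa] at f4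
    exact f4.1 Relation.ReflTransGen.refl

end Pool.Agent.Lib.MP_1b8ce0_al.T
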