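import Mathlib
import Pool.Agent.Lib.MP_1b8ce0_al.T.StsB

set_option linter.unusedSectionVars false
set_option linter.dupNamespace false

namespace Pool.Agent.Lib.MP_1b8ce0_al.T

open Pool.Agent.Lib.MP_6d85b4_al

section Plane

/-- a translation by a nonzero vector has infinite order -/
theorem EXF_transl (f : Equiv.Perm (ℤ × ℤ)) (p q : ℤ) (hf : Diag f 1 1 p q) (n : ℕ) :
    (f ^ n) (0, 0) = (2 * n * p, 2 * n * q) := by
  induction n with
  | zero => simp
  | succ n ih =>
    rw [pow_succ', Equiv.Perm.mul_apply, ih, hf]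
    push_cast
    ext <;> simp <;> ring

theorem EXF_inf (f : Equiv.Perm (ℤ × ℤ)) (p q : ℤ) (hf : Diag f 1 1 p q) (hpq : p ≠ 0 ∨ q ≠ 0) :
    ¬ IsOfFinOrder f := by
  intro h
  obtain ⟨n, hn, h1⟩ := isOfFinOrder_iff_pow_eq_one.1 h
  have := EXF_transl f p q hf n
  rw [h1] at this
  simp only [Equiv.Perm.coe_one, id_eq, Prod.mk.injEq] at this
  have hn' : (n : ℤ) ≠ 0 := by exact_mod_cast hn.ne'
  rcases hpq with h | h
  · have := this.1
    have h2 : (2 * (n : ℤ)) * p ≠ 0 := mul_ne_zero (mul_ne_zero two_ne_zero hn') h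
    exact h2 this.symm
  · have := this.2
    have h2 : (2 * (n : ℤ)) * q ≠ 0 := mul_ne_zero (mul_ne_zero two_ne_zero hn') h
    exact h2 this.symm

theorem EXF_diag_inv (f : Equiv.Perm (ℤ × ℤ)) (p q : ℤ) (hf : Diag f 1 1 p q) :
    Diag f⁻¹ 1 1 (-p) (-q) := by
  intro X Y
  rw [Equiv.Perm.inv_eq_iff_eq, hf]
  ext <;> simp

theorem EXF_diag_mul (f f' : Equiv.Perm (ℤ × ℤ)) (p q p' q' : ℤ) (hf : Diag f 1 1 p q)
    (hf' : Diag f' 1 1 p' q') : Diag (f * f') 1 1 (p + p') (q + q') := by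
  intro X Y
  rw [Equiv.Perm.mul_apply, hf', hf]
  ext <;> simp <;> ring

theorem EXF_diag_zpow (f : Equiv.Perm (ℤ × ℤ)) (p q : ℤ) (hf : Diag f 1 1 p q) (n : ℤ) :
    Diag (f ^ n) 1 1 (n * p) (n * q) := by
  induction n using Int.induction_on with
  | zero => intro X Y; simp
  | succ n ih =>
    rw [zpow_add_one]
    have := EXF_diag_mul _ _ _ _ _ _ ih hf
    intro X Y
    rw [this]
    ext <;> simp <;> ring
  | pred n ih =>
    rw [zpow_sub_one]
    have := EXF_diag_mul _ _ _ _ _ _ ih (EXF_diag_inv f p q hf)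
    intro X Y
    rw [this]
    ext <;> simp <;> ring

theorem EXF_conj (f s : Equiv.Perm (ℤ × ℤ)) (p q e a b : ℤ) (hf : Diag f 1 1 p q)
    (hs : Swp s e e a b) : Diag (s * f * s⁻¹) 1 1 (e * q) (e * p) := by
  intro X Y
  obtain ⟨⟨X', Y'⟩, h⟩ := s.surjective (X, Y)
  have h' := h
  rw [hs] at h'
  simp only [Prod.mk.injEq] at h'
  have h0 : s⁻¹ (X, Y) = (X', Y') := by rw [Equiv.Perm.inv_eq_iff_eq, h]
  rw [Equiv.Perm.mul_apply, Equiv.Perm.mul_apply, h0, hf, hs, ← h'.1, ← h'.2]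
  ext <;> simp <;> ring

theorem EXF_unit_odd (u : ℤˣ) (n : ℤ) (hn : Odd n) : u ^ n = u := by
  rcases Int.units_eq_one_or u with h | h
  · simp [h]
  · rw [h]; exact hn.neg_one_zpow

theorem EXF_unit_even (u : ℤˣ) (n : ℤ) (hn : Even n) : u ^ n = 1 := by
  rcases Int.units_eq_one_or u with h | h
  · simp [h]
  · rw [h]; exact hn.neg_one_zpow

end Plane

section Cox

variable {B : Type} [Fintype B] [DecidableEq B] {N : CoxeterMatrix B}

theorem EXF_tri0 {i j k : B} (h : Tri4 N i j k) : Tri0 N i j k := by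
  obtain ⟨h1, h2, h3⟩ := h
  refine ⟨?_, ?_, ?_, by omega, by omega, by omega⟩
  · rintro rfl
    have := N.diagonal i
    omega
  · rintro rfl
    have := N.diagonal j
    omega
  · rintro rfl
    have := N.diagonal i
    omega

theorem EXF_cross_rho (A : CA N) (w : N.Group) {a b : B → ℝ} (h : Cross N a b) :
    Cross N (rho N w a) (rho N w b) := by
  obtain ⟨ha, hb, h1, h2, x, hx, hxa, hxb⟩ := h
  refine ⟨A.a0.root_rho w a ha, A.a0.root_rho w b hb, fun e => h1 ?_, fun e => h2 ?_,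
    act N w x, A.a1.act_mem w x hx, by rw [act_rho, hxa], by rw [act_rho, hxb]⟩
  · have := congrArg (rho N w⁻¹) e
    rwa [rho_inv, rho_inv] at this
  · have := congrArg (rho N w⁻¹) e
    rwa [map_neg, rho_inv, rho_inv] at this

theorem EXF_cross_neg (A : CA N) {a b : B → ℝ} (h : Cross N a b) : Cross N a (-b) := by
  obtain ⟨ha, hb, h1, h2, x, hx, hxa, hxb⟩ := h
  refine ⟨ha, A.a0.root_neg b hb, fun e => h2 ?_, fun e => h1 ?_, x, hx, hxa, by
    rw [map_neg, hxb, neg_zero]⟩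
  · rw [← e, neg_neg]
  · exact neg_injective e

/-- two essential walls of an element of a flat triangle group cross -/
theorem EXF_notA (A : CA N) (hN : NoSph N) (h1 : St_SA) (h2 : St_SAC) {c g g' : N.Group}
    {i j k : B} (hT : Tri0 N i j k) (hg : g ∈ cj c (par N {i, j, k})) (hinf : ¬ IsOfFinOrder g)
    (hc : Commute g g') (hI : Ind2 g g') : ¬ CaseA N g := by
  intro hA
  set K : Subgroup N.Group := Subgroup.closure {g, g'} with hK
  have hgK : g ∈ K := Subgroup.subset_closure (by simp)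
  have hgK' : g' ∈ K := Subgroup.subset_closure (by simp)
  have hcomm : IsComm K := by
    have key : ∀ x ∈ ({g, g'} : Set N.Group), ∀ y ∈ K, Commute x y := by
      intro x hx y hy
      induction hy using Subgroup.closure_induction with
      | mem y hy =>
        simp only [Set.mem_insert_iff, Set.mem_singleton_iff] at hx hy
        rcases hx with rfl | rfl <;> rcases hy with rfl | rfl
        · exact Commute.refl _
        · exact hc
        · exact hc.symm
        · exact Commute.refl _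
      | one => exact Commute.one_right _
      | mul y z _ _ a b => exact a.mul_right b
      | inv y _ a => exact a.inv_right
    intro x hx y hy
    induction hx using Subgroup.closure_induction with
    | mem x hx => exact key x hx y hy
    | one => exact Commute.one_left _
    | mul x z _ _ a b => exact a.mul_left b
    | inv x _ a => exact a.inv_left
  obtain ⟨b, hb⟩ := A.a2.ex g hinf
  obtain ⟨f, hfK, hfinf, hfb⟩ := A.a2.hfix K b g g' hcomm hgK hgK' hI ⟨g, hgK, hb⟩
  obtain ⟨e, he⟩ := A.a2.ex f hfinf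
  have hcr : Cross N b e := A.a2.per_ess f b e hb.1 ⟨1, one_pos, by rw [pow_one, hfb]⟩ he
  obtain ⟨m, hm⟩ := A.a2.mu K e hcomm ⟨f, hfK, he⟩
  have hper : Per N g e := by
    obtain ⟨m1, m2, m3⟩ := hm ⟨g, hgK⟩
    rcases lt_trichotomy 0 (m ⟨g, hgK⟩).toAdd with h | h | h
    · exact absurd hcr (hA b e hb (m1.1 h))
    · exact m3.1 h.symm
    · exact absurd (EXF_cross_neg A hcr) (hA b (-e) hb (m2.1 h))
  obtain ⟨c', P, L, hP⟩ := h1 B N hN g hinf hA ⟨e, he.1, hper⟩
  obtain ⟨iP, iL, -⟩ := h2 B N hN g c' P L hinf hA hP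
  obtain ⟨u, hu, v, hv, huv⟩ := hP.cen g (Commute.refl g)
  have hmem : g ∈ cj c' (par N (P ∪ L)) := by
    rw [huv, conj_mem_cj]
    exact Subgroup.mul_mem _ (gp_mono _ Set.subset_union_left hu)
      (gp_mono _ Set.subset_union_right hv)
  obtain ⟨-, hi, hj, hk⟩ := A.t1.pinf c c' i j k (P ∪ L) g hT hg hinf hmem
  obtain ⟨n1, n2, n3, z1, z2, z3⟩ := hT
  rcases hi with hi | hi <;> rcases hj with hj | hj <;> rcases hk with hk | hk
  · exact z1 (iP _ hi _ hj n1)
  · exact z1 (iP _ hi _ hj n1)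
  · exact z3 (iP _ hi _ hk n3)
  · exact z2 (iL _ hj _ hk n2)
  · exact z2 (iP _ hj _ hk n2)
  · exact z3 (iL _ hi _ hk n3)
  · exact z1 (iL _ hi _ hj n1)
  · exact z1 (iL _ hi _ hj n1)

theorem EXF_cen (A : CA N) {c g u : N.Group} {T : Set B} (hg : g ∈ cj c (par N T))
    (hA : ¬ CaseA N g) (hu : Commute u g) : u ∈ cj c (par N T) := by
  unfold CaseA at hA
  push Not at hA
  obtain ⟨a, b, ha, hb, hab⟩ := hA
  have hug : u * g * u⁻¹ = g := by rw [hu.eq]; simp
  have ha' : Ess N g (rho N u a) := by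
    have := A.a2.conj u g a ha
    rwa [hug] at this
  have hb' : Ess N g (rho N u b) := by
    have := A.a2.conj u g b hb
    rwa [hug] at this
  rw [mem_cj]
  refine A.b1.vx T (rho N c⁻¹ a) (rho N c⁻¹ b) _ (EXF_cross_rho A _ hab)
    (A.a2.esspar g c T a hg ha) (A.a2.esspar g c T b hg hb) ?_ ?_
  · rw [rho_mul, rho_mul, rho_inv']
    exact A.a2.esspar g c T _ hg ha'
  · rw [rho_mul, rho_mul, rho_inv']
    exact A.a2.esspar g c T _ hg hb'

theorem EXF_fin_conj {G : Type} [Group G] (c g : G) (h : IsOfFinOrder g) :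
    IsOfFinOrder (c⁻¹ * g * c) := by
  obtain ⟨n, hn, h1⟩ := isOfFinOrder_iff_pow_eq_one.1 h
  refine isOfFinOrder_iff_pow_eq_one.2 ⟨n, hn, ?_⟩
  have := conj_pow (a := c⁻¹) (b := g) (i := n)
  rw [inv_inv] at this
  rw [this, h1]
  simp

theorem EXF_inf_of {T : Set B} (μ : par N T →* Equiv.Perm (ℤ × ℤ)) (c g : N.Group)
    (hg : c⁻¹ * g * c ∈ par N T) (p q : ℤ) (hd : Diag (μ ⟨_, hg⟩) 1 1 p q)
    (hpq : p ≠ 0 ∨ q ≠ 0) : ¬ IsOfFinOrder g := by
  intro h
  have h1 := EXF_fin_conj c g h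
  have h2 : IsOfFinOrder (⟨_, hg⟩ : par N T) := by
    obtain ⟨n, hn, h3⟩ := isOfFinOrder_iff_pow_eq_one.1 h1
    exact isOfFinOrder_iff_pow_eq_one.2 ⟨n, hn, Subtype.ext h3⟩
  exact EXF_inf _ p q hd hpq (μ.isOfFinOrder h2)

theorem EXF_chi (χ : N.Group →* ℤˣ) (c g : N.Group) : χ (c⁻¹ * g * c) = χ g := by
  rw [map_mul, map_mul, mul_comm (χ c⁻¹), mul_assoc, ← map_mul]
  simp

end Cox

theorem EXF_thm (hA : St_CA) (h1 : St_SA) (h2 : St_SAC) (h3 : St_MODEL) : St_EXF := by
  intro B _ _ N hN c i j k g h hE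
  have A := hA B N hN
  obtain ⟨hT, μ, hμ, hg, hh, ⟨p, q, hpq, hd⟩, e, a, b, he, hab, hs⟩ := hE
  have F := (h3 B N i j k hT).2 μ hμ
  have hT0 := EXF_tri0 hT
  have hne : p ≠ e * q := by
    rintro rfl
    rcases he with rfl | rfl
    · rw [Int.odd_iff] at hpq; omega
    · rw [Int.odd_iff] at hpq; omega
  have hpq0 : p ≠ 0 ∨ q ≠ 0 := by
    rw [Int.odd_iff] at hpq; omega
  have hinf : ¬ IsOfFinOrder g := EXF_inf_of μ c g hg p q hd hpq0
  set G0 : par N {i, j, k} := ⟨_, hg⟩ with hG0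
  set H0 : par N {i, j, k} := ⟨_, hh⟩ with hH0
  have hd' : Diag (μ (H0 * G0 * H0⁻¹)) 1 1 (e * q) (e * p) := by
    rw [map_mul, map_mul, map_inv]
    exact EXF_conj _ _ p q e a b hd hs
  have hcomm : Commute g (h * g * h⁻¹) := by
    have : G0 * (H0 * G0 * H0⁻¹) = (H0 * G0 * H0⁻¹) * G0 := by
      apply hμ.inj
      rw [map_mul μ G0, map_mul μ _ G0]
      refine Equiv.ext fun ⟨X, Y⟩ => ?_
      rw [EXF_diag_mul _ _ _ _ _ _ hd hd', EXF_diag_mul _ _ _ _ _ _ hd' hd]
      ext <;> simp <;> ring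
    have h4 := congrArg (fun z : par N {i, j, k} => c * (z : N.Group) * c⁻¹) this
    simp only [hG0, hH0, Subgroup.coe_mul, Subgroup.coe_inv] at h4
    show g * (h * g * h⁻¹) = (h * g * h⁻¹) * g
    simpa [mul_assoc] using h4
  have hind : Ind2 g (h * g * h⁻¹) := by
    intro m n hmn
    have h4 : G0 ^ m * (H0 * G0 * H0⁻¹) ^ n = 1 := by
      apply Subtype.ext
      have e1 : ((H0 * G0 * H0⁻¹ : par N {i, j, k}) : N.Group) = c⁻¹ * (h * g * h⁻¹) * c⁻¹⁻¹ := by
        simp [hG0, hH0, mul_assoc]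
      have e2 : (G0 : N.Group) = c⁻¹ * g * c⁻¹⁻¹ := by simp [hG0]
      rw [Subgroup.coe_mul, Subgroup.coe_zpow, Subgroup.coe_zpow, e1, e2, conj_zpow, conj_zpow]
      have : c⁻¹ * g ^ m * c⁻¹⁻¹ * (c⁻¹ * (h * g * h⁻¹) ^ n * c⁻¹⁻¹) =
          c⁻¹ * (g ^ m * (h * g * h⁻¹) ^ n) * c := by group
      rw [this, hmn]
      simp
    have h5 := EXF_diag_mul _ _ _ _ _ _ (EXF_diag_zpow _ _ _ hd m) (EXF_diag_zpow _ _ _ hd' n) 0 0
    rw [← map_zpow, ← map_zpow, ← map_mul, h4, map_one] at h5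
    simp only [Equiv.Perm.coe_one, id_eq, Prod.mk.injEq] at h5
    obtain ⟨h6, h7⟩ := h5
    have hne2 : p ≠ -(e * q) := by
      intro h8
      rcases he with rfl | rfl
      · rw [Int.odd_iff] at hpq; omega
      · rw [Int.odd_iff] at hpq; omega
    have hee : e * e = 1 := by rcases he with rfl | rfl <;> norm_num
    have h6' : m * p + n * (e * q) = 0 := by omega
    have h7' : m * q + n * (e * p) = 0 := by omega
    have s1 : (m + n) * (p + e * q) = 0 := by
      linear_combination h6' + e * h7' - n * p * hee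
    have s2 : (m - n) * (p - e * q) = 0 := by
      linear_combination h6' - e * h7' + n * p * hee
    have s3 := (mul_eq_zero.1 s1).resolve_right (by omega)
    have s4 := (mul_eq_zero.1 s2).resolve_right (by omega)
    omega
  have hnA := EXF_notA A hN h1 h2 hT0 hg hinf hcomm hind
  refine ⟨hinf, ?_, ?_, ?_, ⟨hg, hh⟩, fun u hu => EXF_cen A hg hnA hu, ?_, ?_⟩
  · intro χ
    rw [← EXF_chi χ c g]
    have := F.cd χ G0 1 1 p q hd
    rw [EXF_unit_odd _ _ hpq, if_pos rfl, mul_one] at this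
    exact this
  · intro χ
    rw [← EXF_chi χ c h]
    have := F.cs χ H0 e e a b hs
    rw [EXF_unit_even _ _ hab, if_pos rfl, mul_one, mul_one] at this
    exact this
  · have hm : c⁻¹ * cm g h * c ∈ par N {i, j, k} := by
      have := (G0 * (H0 * G0 * H0⁻¹)⁻¹).2
      convert this using 1
      simp [hG0, hH0, cm, mul_assoc]
    have e1 : (⟨_, hm⟩ : par N {i, j, k}) = G0 * (H0 * G0 * H0⁻¹)⁻¹ := by
      apply Subtype.ext
      simp [hG0, hH0, cm, mul_assoc]
    refine EXF_inf_of μ c _ hm (p + -(e * q)) (q + -(e * p)) ?_ (Or.inl (by omega))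
    rw [e1, map_mul, map_inv]
    exact EXF_diag_mul _ _ _ _ _ _ hd (EXF_diag_inv _ _ _ hd')
  · rintro u ⟨c', i', j', k', hT', μ', -, hg', hu', -⟩
    exact (A.t1.pinf c' c i' j' k' {i, j, k} g (EXF_tri0 hT') hg' hinf hg).1 hu'
  · intro u hu hsg huh
    have hu0 : c⁻¹ * u * c ∈ par N {i, j, k} := EXF_cen A hg hnA hu
    set U0 : par N {i, j, k} := ⟨_, hu0⟩ with hU0
    have c1 : μ U0 * μ G0 = μ G0 * μ U0 := by
      rw [← map_mul, ← map_mul]
      congr 1
      apply Subtype.ext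
      simp only [hG0, hU0, Subgroup.coe_mul]
      have := hu.eq
      calc c⁻¹ * u * c * (c⁻¹ * g * c) = c⁻¹ * (u * g) * c := by group
        _ = c⁻¹ * (g * u) * c := by rw [this]
        _ = _ := by group
    have c2 : μ H0 * μ U0 * (μ H0 * μ U0) = μ U0 * μ H0 * (μ U0 * μ H0) := by
      simp only [← map_mul]
      congr 1
      apply Subtype.ext
      simp only [hH0, hU0, Subgroup.coe_mul]
      calc c⁻¹ * h * c * (c⁻¹ * u * c) * (c⁻¹ * h * c * (c⁻¹ * u * c)) =
            c⁻¹ * (h * u) ^ 2 * c := by rw [pow_two]; group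
        _ = c⁻¹ * (u * h) ^ 2 * c := by rw [huh]
        _ = _ := by rw [pow_two]; group
    have hs0 : sg N (U0 : N.Group) = -1 := by rw [← hsg, ← EXF_chi (sg N) c u]
    have hfin : IsRefl N ((G0 * H0 * U0 * H0 : par N {i, j, k}) : N.Group) →
        IsRefl N (g * h * u * h)⁻¹ := by
      rintro ⟨r, hr⟩
      have h4 := A.a0.refl_conj c _ r hr
      have e1 : c * ((G0 * H0 * U0 * H0 : par N {i, j, k}) : N.Group) * c⁻¹ = g * h * u * h := by
        simp [hG0, hH0, hU0, mul_assoc]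
      rw [e1] at h4
      have h5 := (A.a0.refl_sq _ ⟨_, h4⟩).1
      rw [← eq_inv_of_mul_eq_one_left h5]
      exact ⟨_, h4⟩
    apply hfin
    obtain ⟨e1, e2, s, t, he1, he2, hf | hf⟩ := F.form U0
    · have h4 := F.cd (sg N) U0 e1 e2 s t hf
      rw [hs0, sg_sr, sg_sr] at h4
      have hne12 : e1 ≠ e2 := by
        intro h5
        simp [h5] at h4
      have k1 := congrArg (fun f : Equiv.Perm (ℤ × ℤ) => f (0, 0)) c1
      have k2 := congrArg (fun f : Equiv.Perm (ℤ × ℤ) => f (0, 0)) c2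
      simp only [Equiv.Perm.mul_apply] at k1 k2
      rw [hd, hf, hf, hd] at k1
      rw [hf, hs, hf, hs, hs, hf, hs, hf] at k2
      simp only [Prod.mk.injEq] at k1 k2
      rcases he1 with rfl | rfl <;> rcases he2 with rfl | rfl
      · exact absurd rfl hne12
      · refine F.r1 _ (p - e * b + e * t + a) ?_
        intro X Y
        rw [map_mul, map_mul, map_mul]
        simp only [Equiv.Perm.mul_apply]
        rw [hs, hf, hs, hd]
        rcases he with rfl | rfl <;> ext <;> simp only <;> omega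
      · refine F.r2 _ (q - e * a + e * s + b) ?_
        intro X Y
        rw [map_mul, map_mul, map_mul]
        simp only [Equiv.Perm.mul_apply]
        rw [hs, hf, hs, hd]
        rcases he with rfl | rfl <;> ext <;> simp only <;> omega
      · exact absurd rfl hne12
    · exfalso
      have h4 := F.cs (sg N) U0 e1 e2 s t hf
      rw [hs0, sg_sr, sg_sr, sg_sr] at h4
      have he12 : e1 = e2 := by
        by_contra h5
        simp [h5] at h4
      have k1 := congrArg (fun f : Equiv.Perm (ℤ × ℤ) => f (0, 0)) c1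
      simp only [Equiv.Perm.mul_apply] at k1
      rw [hd, hf, hf, hd] at k1
      simp only [Prod.mk.injEq] at k1
      rw [Int.odd_iff] at hpq
      rcases he1 with rfl | rfl <;> omega

end Pool.Agent.Lib.MP_1b8ce0_al.T
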