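import Mathlib
import Pool.Agent.Lib.MP_1b8ce0_al.T.StsB

set_option linter.unusedSectionVars false
set_option linter.dupNamespace false

namespace Pool.Agent.Lib.MP_1b8ce0_al.T

open Pool.Agent.Lib.MP_6d85b4_al

section Tree

variable {G : Type} [Group G]

theorem EXT_chi_cj {K : Subgroup G} (χ : G →* Multiplicative ℤ) (hK : ∀ g ∈ K, χ g = 1)
    {y : G} (hy : χ y ≠ 1) (k : G) : y ∉ cj k K := by
  intro h
  have h1 := hK _ (mem_cj.1 h)
  rw [map_mul, map_mul, mul_right_comm, ← map_mul, inv_mul_cancel, map_one, one_mul] at h1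
  exact hy h1

theorem EXT_cj_eq {K : Subgroup G} {h h' : G} (e : h⁻¹ * h' ∈ K) : cj h' K = cj h K := by
  conv_rhs => rw [← cj_self e, cj_cj, mul_inv_cancel_left]

/-- two elements which commute with an elliptic `z` of nonzero character. -/
theorem EXT_ell {A1 A2 C : Subgroup G} (tt : TT1 A1 A2 C) (χ : G →* Multiplicative ℤ)
    (hK : ∀ g ∈ A1, χ g = 1) {z : G} (hz : χ z ≠ 1) (he : Ell A1 A2 z) :
    ∃ h, ∀ u, Commute u z → u ∈ cj h A2 := by
  obtain ⟨h, h1 | h1⟩ := he
  · exact absurd h1 (EXT_chi_cj χ hK hz h)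
  · exact ⟨h, fun u hu =>
      tt.cent2 z h u (EXT_chi_cj χ (fun g hg => hK g (tt.le.1 hg)) hz) h1 hu⟩

theorem EXT_nbr {A1 A2 C : Subgroup G} (tt : TT1 A1 A2 C) (χ : G →* Multiplicative ℤ)
    (hK : ∀ g ∈ A1, χ g = 1) {z u v h : G} (hz : χ z ≠ 1) (hu : χ u ≠ 1) (cu : Commute u z)
    (cv : Commute v z) (hm : u ∈ cj h A2) : v ∈ cj h A2 := by
  have hC := EXT_chi_cj χ (fun g hg => hK g (tt.le.1 hg)) hu
  by_cases he : Ell A1 A2 z
  · obtain ⟨h', h1⟩ := EXT_ell tt χ hK hz he
    rw [← EXT_cj_eq (tt.uniq2 u h h' hC hm (h1 u cu))]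
    exact h1 v cv
  · obtain ⟨h', Tr, h1, -, -, h2⟩ := tt.hyp z he
    exact absurd (h2 u (h1 u cu) ⟨h, Or.inr hm⟩) (hC h')

theorem EXT_zc {S : Type} (M : CoxeterMatrix S) (x : S → G) (χ : G →* Multiplicative ℤ)
    {u v : S} (h0 : M u v ≠ 0) (h : (χ (x u)).toAdd + (χ (x v)).toAdd ≠ 0) :
    χ (zc M x u v) ≠ 1 := by
  intro e
  have e1 := congrArg Multiplicative.toAdd e
  rw [zc, map_pow, map_mul, toAdd_pow, toAdd_mul, toAdd_one, nsmul_eq_mul] at e1
  rcases mul_eq_zero.1 e1 with e2 | e2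
  · have e3 := Nat.cast_eq_zero.1 e2
    split_ifs at e3 with h2
    · obtain ⟨k, hk⟩ := h2
      omega
    · exact h0 e3
  · exact h e2

theorem EXT_split {S : Type} (M : CoxeterMatrix S) (s : S) :
    (Cls M s)ᶜ ∪ (Cls M s ∪ Bd M s) = Set.univ ∧
      (∀ u v, u ∉ Cls M s ∪ Bd M s → v ∉ (Cls M s)ᶜ → M u v = 0) ∧
      (Cls M s)ᶜ ∩ (Cls M s ∪ Bd M s) = Bd M s := by
  refine ⟨?_, fun u v hu hv => ?_, ?_⟩
  · rw [← Set.union_assoc, Set.compl_union_self, Set.univ_union]
  · by_contra h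
    refine hu (Or.inr ⟨fun h1 => hu (Or.inl h1), v, not_not.1 hv, ?_⟩)
    rwa [M.symmetric]
  · ext u
    exact ⟨fun h => h.2.resolve_left h.1, fun h => ⟨h.1, Or.inr h⟩⟩

end Tree

theorem EXT_thm (hA : St_CA) (h1 : St_D1) (h2 : St_TT) (h3 : St_EXF) : St_EXT := by
  intro G S S' _ _ _ _ _ M x M' x' A A' s t a b c a' F
  have d := h1.2 S G M ∅ x A.art
  have d' := h1.2 S' G M' ∅ x' A'.art
  obtain ⟨sp1, sp2, sp3⟩ := EXT_split M' a'
  have tt := (h2 S' G M' ∅ x' _ _ A'.art sp1 sp2).1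
  rw [sp3] at tt
  obtain ⟨χ, hχ1, hχ0⟩ := d'.chi a' fun _ _ h => h
  have hK : ∀ g ∈ gp x' (Cls M' a')ᶜ, χ g = 1 :=
    gp_le (K := χ.ker).2 fun u hu => hχ0 u hu
  obtain ⟨p1, p2⟩ := F.par1 ((zpowersHom ℤˣ (-1)).comp χ)
    (by simp [hχ1 a' Relation.ReflTransGen.refl]) (fun u hu => by simp [hχ0 u hu])
  have q1 : Odd (χ (x s)).toAdd := (Int.negOnePow_eq_neg_one_iff _).1 p1
  have q2 : ∀ u ∈ Bd M s, Even (χ (x u)).toAdd := fun u hu =>
    (Int.negOnePow_eq_one_iff _).1 (p2 u hu)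
  have q3 : ∀ u, OddConn M s u → χ (x u) = χ (x s) := fun u hu =>
    (isConj_iff_eq.1 (χ.map_isConj ((d.conj s u).2 hu))).symm
  have q4 : ∀ u, OddConn M s u → χ (x u) ≠ 1 := fun u hu e => by
    rw [← q3 u hu, e, toAdd_one] at q1
    exact absurd q1 (by decide)
  have q5 : ∀ u v, OddConn M s u → M u v ≠ 0 → χ (zc M x u v) ≠ 1 := fun u v hu h0 => by
    refine EXT_zc M x χ h0 ?_
    rw [q3 u hu]
    by_cases hv : OddConn M s v
    · rw [q3 v hv]
      obtain ⟨k, hk⟩ := q1
      omega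
    · obtain ⟨k, hk⟩ := q1
      obtain ⟨l, hl⟩ := q2 v ⟨hv, u, hu, h0⟩
      omega
  obtain ⟨hst, hnc, hex⟩ := F.ex
  have hss : OddConn M s s := Relation.ReflTransGen.refl
  obtain ⟨h, hs⟩ : ∃ h, x s ∈ cj h (gp x' (Cls M' a' ∪ Bd M' a')) := by
    obtain ⟨c1, c2⟩ := d.zc s t hst
    by_cases he : Ell (gp x' (Cls M' a')ᶜ) (gp x' (Cls M' a' ∪ Bd M' a')) (zc M x s t)
    · obtain ⟨h, h4⟩ := EXT_ell tt χ hK (q5 s t hss hst.2) he
      exact ⟨h, h4 _ c1⟩
    · obtain ⟨h, Tr, h4, -, h5, -⟩ := tt.hyp _ he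
      exact absurd (h5 _ (h4 _ c1) _ (h4 _ c2)) (F.notp h)
  have step : ∀ u v, OddConn M s u → Adj M u v → x u ∈ cj h (gp x' (Cls M' a' ∪ Bd M' a')) →
      x v ∈ cj h (gp x' (Cls M' a' ∪ Bd M' a')) := fun u v hu huv hm =>
    EXT_nbr tt χ hK (q5 u v hu huv.2) (q4 u hu) (d.zc u v huv).1 (d.zc u v huv).2 hm
  have cls : ∀ u, OddConn M s u → x u ∈ cj h (gp x' (Cls M' a' ∪ Bd M' a')) := by
    intro u hu
    induction hu with
    | refl => exact hs
    | tail h4 h5 ih =>
      refine step _ _ h4 ⟨h5.1, fun e => ?_⟩ ih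
      have h6 := h5.2
      rw [e] at h6
      exact absurd h6 (by decide)
  have nb : ∀ u v, OddConn M s u → M u v ≠ 0 → x v ∈ cj h (gp x' (Cls M' a' ∪ Bd M' a')) := by
    intro u v hu h0
    by_cases e : u = v
    · exact e ▸ cls u hu
    · exact step u v hu ⟨e, h0⟩ (cls u hu)
  obtain ⟨e, he⟩ := F.nbr
  have hmap : ∀ g ∈ gp x' (Cls M' a' ∪ Bd M' a'),
      A.ψ g ∈ cj e (par A.N {A.a a, A.a b, A.a c}) :=
    gp_le (K := (cj e (par A.N {A.a a, A.a b, A.a c})).comap A.ψ).2 he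
  have hps : ∀ g ∈ cj h (gp x' (Cls M' a' ∪ Bd M' a')),
      A.ψ g ∈ cj (A.ψ h * e) (par A.N {A.a a, A.a b, A.a c}) := by
    intro g hg
    have h4 := hmap _ (mem_cj.1 hg)
    rw [map_mul, map_mul, map_inv] at h4
    rw [← cj_cj]
    exact h4
  obtain ⟨t1, t2, t3⟩ := F.tri
  have ca := hA A.B A.N A.ns
  have hab : a ≠ b := fun e => by
    rw [e, M.diagonal] at t1
    omega
  have hsup : ∀ v ∈ Big M, M a v ≠ 0 →
      Supp {A.a a, A.a b, A.a c} (rho A.N (A.ψ h * e)⁻¹ (al (A.a v))) := by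
    intro v hv h0
    have h4 := mem_cj.1 (hps _ (nb a v F.ca h0))
    rw [A.hom.1 v hv] at h4
    have h5 := ca.a0.refl_conj (A.ψ h * e)⁻¹ _ _ (ca.a0.root_al (A.a v)).2
    rw [inv_inv] at h5
    exact (ca.b0.refl_mem _ _ _ h5).1 h4
  have hpab : A.p (A.a a) ≠ A.p (A.a b) := by rwa [A.pa, A.pa]
  have hin := (ca.b1.vtype _ _ (A.a a) (A.a b) (fun e => hpab (congrArg _ e))
    (by rw [A.lab _ _ hpab, A.pa, A.pa, t1]; omega)
    (hsup a ⟨b, by omega⟩ (by rw [M.diagonal]; omega))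
    (hsup b ⟨c, by omega⟩ (by omega))).2.2
  have fin : ∀ u v, OddConn M s u → M u v ≠ 0 → v = a ∨ v = b ∨ v = c := by
    intro u v hu h0
    have h4 := hps _ (nb u v hu h0)
    rw [cj_self ((Subgroup.inv_mem_iff _).1 hin)] at h4
    have h5 : ∀ w, A.a v = A.a w → v = w := fun w e => by rw [← A.pa v, e, A.pa]
    rcases A.elm v _ h4 with h6 | h6 | h6
    · exact Or.inl (h5 _ h6)
    · exact Or.inr (Or.inl (h5 _ h6))
    · exact Or.inr (Or.inr (h5 _ h6))
  have hsa : s = a := by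
    rcases fin s s hss (by rw [M.diagonal]; omega) with h4 | h4 | h4
    · exact h4
    · exact absurd (h4 ▸ hss) F.cb
    · exact absurd (h4 ▸ hss) F.cc
  refine ⟨hsa, ?_, fun u u1 u2 u3 => ?_⟩
  · rcases fin s t hss hst.2 with h4 | h4 | h4
    · exact absurd (hsa.trans h4.symm) hst.1
    · exact h4
    · obtain ⟨c0, i, j, k, h5⟩ := hex
      have h6 : Commute (A'.ψ (x s)) (A'.ψ (x t)) :=
        (d.two s t (by rw [hsa, h4, t3])).map A'.ψ
      refine absurd ?_ (h3 A'.B A'.N A'.ns c0 i j k _ _ h5).cmi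
      rw [cm, h6.eq, mul_inv_cancel_right, mul_inv_cancel]
      exact IsOfFinOrder.one
  · by_contra h0
    rcases fin a u F.ca h0 with h4 | h4 | h4
    · exact u1 h4
    · exact u2 h4
    · exact u3 h4

section Aut

variable {S G : Type} [DecidableEq S] [Group G]

theorem EXT_braid {M : CoxeterMatrix S} {x : S → G} {a b c : S} (hx : Braid M Set.univ x)
    (hab : M a b = 4) (hac : M a c = 2) (h0 : ∀ u, u ≠ a → u ≠ b → u ≠ c → M a u = 0) (y : G)
    (hb : (y * x b) ^ 2 = (x b * y) ^ 2) (hc : Commute y (x c)) :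
    Braid M Set.univ (Function.update x a y) := by
  have key : ∀ u, u ≠ a → M a u ≠ 0 → alt y (x u) (M a u) = alt (x u) y (M a u) := by
    intro u hu h1
    by_cases e1 : u = b
    · rw [e1, hab]
      exact (alt_two_mul _ _ 2).trans (hb.trans (alt_two_mul _ _ 2).symm)
    · by_cases e2 : u = c
      · rw [e2, hac]
        refine (alt_two_mul _ _ 1).trans (Eq.trans ?_ (alt_two_mul _ _ 1).symm)
        rw [hc.eq]
      · exact absurd (h0 u hu e1 e2) h1
  intro s _ t _ hst h1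
  by_cases e1 : s = a
  · subst e1
    rw [Function.update_self, Function.update_of_ne hst.symm]
    exact key t hst.symm h1
  · by_cases e2 : t = a
    · subst e2
      rw [Function.update_self, Function.update_of_ne e1, M.symmetric]
      rw [M.symmetric] at h1
      exact (key s e1 h1).symm
    · rw [Function.update_of_ne e1, Function.update_of_ne e2]
      exact hx s trivial t trivial hst h1

theorem EXT_four {p q : G} (h : (p * q) ^ 2 = (q * p) ^ 2) : Commute (p * q * p) q := by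
  simpa only [Commute, SemiconjBy, pow_two, mul_assoc] using h

end Aut

theorem EXA_thm (h1 : St_D1) : St_EXA := by
  intro S G _ _ M x a b c hx hab hbc hac h0
  have d := h1.2 S G M ∅ x hx
  have ne : ∀ u v, M u v ≠ 1 → u ≠ v := fun u v h e => h (by rw [e, M.diagonal])
  have nba : b ≠ a := (ne a b (by omega)).symm
  have nca : c ≠ a := (ne a c (by omega)).symm
  have r1 := d.even a b 2 nba.symm (by omega) hab
  have r2 := d.even b c 2 (ne b c (by omega)) (by omega) hbc
  have r3 := d.two a c hac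
  have c1 : Commute (x a * x b * x a) (x b) := EXT_four r1
  have c2 : Commute (x c * x b * x c) (x b) := EXT_four r2.symm
  have c3 : Commute (x b * x c * x b) (x c) := EXT_four r2
  have c4 : Commute ((x a * x b * x c) ^ 2) (x b) := by
    have e : (x a * x b * x c) ^ 2 = x a * x b * x a * (x c * x b * x c) := by
      calc (x a * x b * x c) ^ 2 = x a * x b * (x c * x a) * x b * x c := by
            simp only [pow_two, mul_assoc]
        _ = _ := by
            rw [← r3.eq]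
            simp only [mul_assoc]
    rw [e]
    exact c1.mul_left c2
  have c5 : Commute ((x c * x b * x a) ^ 2) (x b) := by
    have e : (x c * x b * x a) ^ 2 = x c * x b * x c * (x a * x b * x a) := by
      calc (x c * x b * x a) ^ 2 = x c * x b * (x a * x c) * x b * x a := by
            simp only [pow_two, mul_assoc]
        _ = _ := by
            rw [r3.eq]
            simp only [mul_assoc]
    rw [e]
    exact c2.mul_left c1
  obtain ⟨θ, hθ⟩ := hx.lift G _ (EXT_braid hx.braid hab hac h0 (x a * x b * x c * x b)⁻¹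
    (by
      calc ((x a * x b * x c * x b)⁻¹ * x b) ^ 2
          = (x b)⁻¹ * (((x a * x b * x c) ^ 2)⁻¹ * x b) := by
            simp only [pow_two, mul_inv_rev, mul_assoc, mul_inv_cancel_left]
        _ = _ := by
            rw [c4.inv_left.eq]
            simp only [pow_two, mul_inv_rev, mul_assoc, mul_inv_cancel_left,
              inv_mul_cancel_left])
    (by
      have e := (r3.mul_left c3).inv_left
      simpa only [mul_assoc] using e)) (fun _ h => h.elim)
  obtain ⟨θ', hθ'⟩ := hx.lift G _ (EXT_braid hx.braid hab hac h0 (x b * x c * x b * x a)⁻¹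
    (by
      symm
      calc (x b * (x b * x c * x b * x a)⁻¹) ^ 2
          = x b * ((x c * x b * x a) ^ 2)⁻¹ * (x b)⁻¹ := by
            simp only [pow_two, mul_inv_rev, mul_assoc, inv_mul_cancel_left]
        _ = _ := by
            rw [← c5.inv_left.eq]
            simp only [pow_two, mul_inv_rev, mul_assoc, mul_inv_cancel, inv_mul_cancel, mul_one])
    (c3.mul_left r3).inv_left) (fun _ h => h.elim)
  have h2 := d.aut θ θ' (fun s => ?_) (fun s => ?_)
  · rwa [funext hθ] at h2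
  · by_cases e : s = a
    · rw [e, hθ', Function.update_self]
      simp only [map_inv, map_mul, hθ, Function.update_self, Function.update_of_ne nba,
        Function.update_of_ne nca]
      group
    · rw [hθ', Function.update_of_ne e, hθ, Function.update_of_ne e]
  · by_cases e : s = a
    · rw [e, hθ, Function.update_self]
      simp only [map_inv, map_mul, hθ', Function.update_self, Function.update_of_ne nba,
        Function.update_of_ne nca]
      group
    · rw [hθ, Function.update_of_ne e, hθ', Function.update_of_ne e]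

end Pool.Agent.Lib.MP_1b8ce0_al.T
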