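import Mathlib
import Pool.Agent.Lib.MP_1b8ce0_al.T.StsB

/-! A flat is tiled by a triangle, and the triangle is Euclidean. -/

set_option linter.unusedSectionVars false
set_option linter.dupNamespace false

namespace Pool.Agent.Lib.MP_1b8ce0_al.T

open Pool.Agent.Lib.MP_6d85b4_al

section

variable {B : Type} [Fintype B] [DecidableEq B] {N : CoxeterMatrix B}

/-- the stabiliser of a vector -/
def FA_fix (N : CoxeterMatrix B) (a : B → ℝ) : Subgroup N.Group where
  carrier := {g | rho N g a = a}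
  mul_mem' := fun {g h} hg hh => by
    change rho N (g * h) a = a
    rw [rho_mul, show rho N h a = a from hh, show rho N g a = a from hg]
  one_mem' := rho_one N a
  inv_mem' := fun {g} hg => by
    change rho N g⁻¹ a = a
    conv_lhs => rw [← show rho N g a = a from hg]
    exact rho_inv N g a

theorem FA_zpow {g : N.Group} {a : B → ℝ} (h : rho N g a = a) (n : ℤ) : rho N (g ^ n) a = a :=
  (FA_fix N a).zpow_mem h n

theorem FA_per {g : N.Group} {a : B → ℝ} (h : rho N g a = a) : Per N g a :=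
  ⟨1, one_pos, by rwa [pow_one]⟩

theorem FA_inf {G : Type} [Group G] {g : G} (h : ¬ IsOfFinOrder g) {n : ℤ} (e : g ^ n = 1) :
    n = 0 := by
  by_contra hn
  exact h (isOfFinOrder_iff_zpow_eq_one.2 ⟨n, hn, e⟩)

theorem FA_inf_zpow {G : Type} [Group G] {g : G} (h : ¬ IsOfFinOrder g) {n : ℤ} (hn : n ≠ 0) :
    ¬ IsOfFinOrder (g ^ n) := fun hf => by
  obtain ⟨m, hm, e⟩ := isOfFinOrder_iff_zpow_eq_one.1 hf
  rw [← zpow_mul] at e
  exact mul_ne_zero hn hm (FA_inf h e)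

theorem FA_supp_al {T : Set B} {p : B} (h : p ∈ T) : Supp T (al p) :=
  fun j hj => al_ne fun e => hj (e ▸ h)

theorem FA_supp_neg {T : Set B} {a : B → ℝ} (h : Supp T (-a)) : Supp T a :=
  fun j hj => neg_eq_zero.1 (h j hj)

theorem FA_cneg (C : CA N) {a e : B → ℝ} (h : Cross N a e) : Cross N a (-e) := by
  obtain ⟨h1, h2, h3, h4, x, h5, h6, h7⟩ := h
  refine ⟨h1, C.a0.root_neg e h2, fun h => h4 (by rw [← h, neg_neg]), fun h => h3 (neg_injective h),
    x, h5, h6, by rw [map_neg, h7, neg_zero]⟩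

theorem FA_cneg' (C : CA N) {a e : B → ℝ} (h : Cross N a (-e)) : Cross N a e := by
  simpa using FA_cneg C h

theorem FA_ek_neg (C : CA N) {K : Subgroup N.Group} {a : B → ℝ} (h : EK N K a) : EK N K (-a) := by
  obtain ⟨g, hg, h⟩ := h
  exact ⟨g⁻¹, inv_mem hg, (C.a2.inv g (-a)).2 (by rwa [neg_neg])⟩

theorem FA_ek_root {K : Subgroup N.Group} {a : B → ℝ} (h : EK N K a) : IsRoot N a := by
  obtain ⟨g, -, h⟩ := h
  exact h.1

theorem FA_tri (C : CA N) {K : Subgroup N.Group} (hK : IsComm K) {a : B → ℝ} (h : EK N K a)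
    {f : N.Group} (hf : f ∈ K) : Ess N f a ∨ Ess N f (-a) ∨ Per N f a := by
  obtain ⟨μ, hμ⟩ := C.a2.mu K a hK h
  obtain ⟨h1, h2, h3⟩ := hμ ⟨f, hf⟩
  rcases lt_trichotomy 0 (μ ⟨f, hf⟩).toAdd with e | e | e
  · exact Or.inl (h1.1 e)
  · exact Or.inr (Or.inr (h3.1 e.symm))
  · exact Or.inr (Or.inl (h2.1 e))

/-- all walls through a vertex of two walls of the flat belong to the flat -/
theorem FA_vertex (C : CA N) {K : Subgroup N.Group} (hK : IsComm K) {w g : N.Group} (hw : w ∈ K)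
    (hg : g ∈ K) (hi : Ind2 g w) {a b e : B → ℝ} {y : Pt B} (ha : EK N K a) (hb : EK N K b)
    (h1 : b ≠ a) (h2 : b ≠ -a) (hy : InI N y) (ya : y a = 0) (yb : y b = 0) (he : IsRoot N e)
    (ye : y e = 0) : EK N K e := by
  obtain ⟨f, hf, hinf, hfa⟩ := C.a2.hfix K a g w hK hg hw hi ha
  have hc : Cross N a b := ⟨FA_ek_root ha, FA_ek_root hb, h1, h2, y, hy, ya, yb⟩
  obtain ⟨b', hb', yb'⟩ : ∃ b', Ess N f b' ∧ y b' = 0 := by
    rcases FA_tri C hK hb hf with h | h | h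
    · exact ⟨b, h, yb⟩
    · exact ⟨-b, h, by rw [map_neg, yb, neg_zero]⟩
    · exact absurd (C.b2.per2 f a b hc (FA_per hfa) h) hinf
  by_cases e1 : e = a
  · rwa [e1]
  by_cases e2 : e = -a
  · rw [e2]
    exact FA_ek_neg C ha
  by_cases e3 : Ess N f e
  · exact ⟨f, hf, e3⟩
  by_cases e4 : Ess N f (-e)
  · simpa using FA_ek_neg C ⟨f, hf, e4⟩
  obtain ⟨ε, -, h⟩ := C.b2.line f a e hinf (FA_ek_root ha) (FA_per hfa) he e1 e2 e3 e4
  have := h b' y hb' hy ya yb'
  rw [ye, mul_zero] at this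
  exact absurd this (lt_irrefl _)

theorem FA_al_ne {p q : B} (h : p ≠ q) : al q ≠ al p ∧ al q ≠ -al p := by
  refine ⟨fun e => h (al_inj e).symm, fun e => ?_⟩
  have := congrFun e q
  rw [al_self, Pi.neg_apply, al_ne h.symm, neg_zero] at this
  exact one_ne_zero this

theorem FA_point (C : CA N) {p q : B} (h : N p q ≠ 0) :
    ∃ y, InI N y ∧ y (al p) = 0 ∧ y (al q) = 0 := by
  obtain ⟨y, h1, -, h2⟩ := C.a1.face {p, q} (C.c0.fin p q h)
  refine ⟨y, h1, ?_, ?_⟩
  · change p ∈ Zs y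
    simp [h2]
  · change q ∈ Zs y
    simp [h2]

theorem FA_cross_al (C : CA N) {p q : B} (h0 : p ≠ q) (h : N p q ≠ 0) : Cross N (al p) (al q) := by
  obtain ⟨y, h1, h2, h3⟩ := FA_point C h
  exact ⟨(C.a0.root_al p).1, (C.a0.root_al q).1, (FA_al_ne h0).1, (FA_al_ne h0).2, y, h1, h2, h3⟩

theorem FA_lab {i j k : B} (h : Tri0 N i j k) {p q : B} (hp : p ∈ ({i, j, k} : Set B))
    (hq : q ∈ ({i, j, k} : Set B)) : N p q ≠ 0 := by
  obtain ⟨-, -, -, h1, h2, h3⟩ := h
  have h1' : N j i ≠ 0 := by rwa [N.symmetric]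
  have h2' : N k j ≠ 0 := by rwa [N.symmetric]
  have h3' : N k i ≠ 0 := by rwa [N.symmetric]
  rcases hp with rfl | rfl | rfl <;> rcases hq with rfl | rfl | rfl <;>
    first | assumption | simp

theorem FA_all (C : CA N) {K : Subgroup N.Group} (hK : IsComm K) {w g : N.Group} (hw : w ∈ K)
    (hg : g ∈ K) (hi : Ind2 g w) {T : Set B} (hT : ∀ p ∈ T, ∀ q ∈ T, N p q ≠ 0)
    (h0 : ∀ p ∈ T, EK N K (al p)) (e : B → ℝ) (he : IsRoot N e) (hs : Supp T e) : EK N K e := by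
  have step : ∀ u, (∀ p ∈ T, EK N K (rho N u (al p))) → ∀ p ∈ T, ∀ q ∈ T,
      EK N K (rho N (u * sr N p) (al q)) := by
    intro u hu p hp q hq
    by_cases hpq : p = q
    · rw [hpq, rho_mul, rho_simple, rf_self, map_neg]
      exact FA_ek_neg C (hu q hq)
    obtain ⟨y, h1, h2, h3⟩ := FA_point C (hT p hp q hq)
    refine FA_vertex C hK hw hg hi (hu p hp) (hu q hq) (fun h => (FA_al_ne hpq).1 ?_)
      (fun h => (FA_al_ne hpq).2 ?_) (C.a1.act_mem u y h1) (by rw [act_rho, h2])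
      (by rw [act_rho, h3]) (C.a0.root_rho _ _ (C.a0.root_al q).1) ?_
    · rw [← rho_inv N u (al q), h, rho_inv]
    · rw [← rho_inv N u (al q), h, map_neg, rho_inv]
    · rw [rho_mul, act_rho, rho_simple, rf_al, map_add, map_smul, h2, h3]
      simp
  have key : ∀ u ∈ par N T, ∀ p ∈ T, EK N K (rho N u (al p)) := by
    intro u hu
    induction hu using Subgroup.closure_induction_right with
    | one => simpa only [rho_one] using h0
    | mul_right x _ y hy ih =>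
      obtain ⟨p, hp, rfl⟩ := hy
      exact step x ih p hp
    | mul_inv_cancel x _ y hy ih =>
      obtain ⟨p, hp, rfl⟩ := hy
      rw [CoxeterSystem.inv_simple]
      exact step x ih p hp
  obtain ⟨u, hu, p, hp, rfl⟩ := C.b0.supp_root T e he hs
  exact key u hu p hp

theorem FA_roots_inf (C : CA N) {T : Set B} (hT : ¬ Finite (par N T)) :
    {e | IsRoot N e ∧ Supp T e}.Infinite := by
  intro hf
  have key : ∀ u ∈ par N T, Inv N u ⊆ {e | IsRoot N e ∧ Supp T e} := by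
    intro u hu a ha
    refine ⟨ha.1, ?_⟩
    by_contra hs
    exact C.a0.root_not _ (C.a0.root_rho u⁻¹ a ha.1)
      (C.b0.pos_par T u⁻¹ a (inv_mem hu) ha.1 ha.2.1 hs) ha.2.2
  have : (par N T : Set N.Group).Finite :=
    (C.a0.inv_bdd {e | IsRoot N e ∧ Supp T e}.ncard).subset
      fun u hu => Set.ncard_le_ncard (key u hu) hf
  exact hT this.to_subtype

theorem FA_ind (C : CA N) {a b : B → ℝ} (hc : Cross N a b) {f f' : N.Group}
    (h1 : ¬ IsOfFinOrder f) (h2 : ¬ IsOfFinOrder f') (ha : rho N f a = a) (hb : rho N f' b = b) :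
    Ind2 f f' := by
  intro m n e
  have e' : f ^ m = f' ^ (-n) := by rw [zpow_neg, eq_inv_iff_mul_eq_one, e]
  have h := C.b1.fix2 a b (f ^ m) hc (FA_zpow ha m) (by rw [e']; exact FA_zpow hb _)
  refine ⟨FA_inf h1 h, ?_⟩
  rw [h, one_mul] at e
  exact FA_inf h2 e

/-- if infinitely many walls of the triangle group cross a wall, a translation along it lies in
the triangle group -/
theorem FA_many (C : CA N) {K : Subgroup N.Group} (hK : IsComm K) {T : Set B}
    (hall : ∀ e, IsRoot N e → Supp T e → EK N K e) {p : B} (hp : p ∈ T) {f : N.Group} (hf : f ∈ K)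
    (hinf : ¬ IsOfFinOrder f) (hfa : rho N f (al p) = al p)
    (hX : {e | Supp T e ∧ Cross N (al p) e}.Infinite) :
    ∃ h ∈ K, h ∈ par N T ∧ ¬ IsOfFinOrder h ∧ rho N h (al p) = al p := by
  have hY : {e | Supp T e ∧ Cross N (al p) e ∧ Ess N f e}.Infinite := by
    intro hY
    refine hX ((hY.union (hY.image fun e => -e)).subset fun e he => ?_)
    rcases FA_tri C hK (hall e he.2.2.1 he.1) hf with h | h | h
    · exact Or.inl ⟨he.1, he.2, h⟩
    · exact Or.inr ⟨-e, ⟨FA_supp_neg (by simpa using he.1), FA_cneg C he.2, h⟩, neg_neg e⟩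
    · exact absurd (C.b2.per2 f _ e he.2 (FA_per hfa) h) hinf
  obtain ⟨F, hF, hk⟩ := C.a2.fin f
  choose! kf hkf using hk
  obtain ⟨e, he, e', he', hne, eq⟩ := hY.exists_ne_map_eq_of_mapsTo
    (f := fun e => rho N (f ^ kf e) e) (fun e he => hkf e he.2.2) hF
  have e1 : rho N (f ^ (-kf e' + kf e)) e = e' := by
    rw [zpow_add, rho_mul, show rho N (f ^ kf e) e = rho N (f ^ kf e') e' from eq, zpow_neg,
      rho_inv]
  have hn : -kf e' + kf e ≠ 0 := fun h => hne (by rwa [h, zpow_zero, rho_one] at e1)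
  refine ⟨_, zpow_mem hf _, ?_, FA_inf_zpow hinf hn, FA_zpow hfa _⟩
  refine C.b1.vx T (al p) e _ he.2.1 (FA_supp_al hp) he.1 ?_ ?_
  · rw [FA_zpow hfa]
    exact FA_supp_al hp
  · rw [e1]
    exact he'.1

theorem FA_core (C : CA N) {K : Subgroup N.Group} (hK : IsComm K) {w g : N.Group} (hw : w ∈ K)
    (hg : g ∈ K) (hi : Ind2 g w) {i j k : B} (ht : Tri0 N i j k)
    (h0 : ∀ p ∈ ({i, j, k} : Set B), EK N K (al p)) :
    (∀ b, Nrm b K → b ∈ par N {i, j, k}) ∧
      ∃ h ∈ par N {i, j, k}, ¬ IsOfFinOrder h ∧ ∃ a e, IsRoot N a ∧ IsRoot N e ∧ e ≠ a ∧ e ≠ -a ∧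
        Supp {i, j, k} a ∧ Supp {i, j, k} e ∧ rho N h a = a ∧ rho N h e = e := by
  set T : Set B := {i, j, k} with hT
  have hlab : ∀ p ∈ T, ∀ q ∈ T, N p q ≠ 0 := fun p hp q hq => FA_lab ht hp hq
  have hall := FA_all C hK hw hg hi hlab h0
  have hinf := FA_roots_inf C (C.b1.sph i j k ht.1 ht.2.1 ht.2.2.1)
  have hfx := fun p hp => C.a2.hfix K (al p) g w hK hg hw hi (h0 p hp)
  have good : ∀ p ∈ T, ∀ q ∈ T, p ≠ q →
      (∃ h ∈ K, h ∈ par N T ∧ ¬ IsOfFinOrder h ∧ rho N h (al p) = al p) ∨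
        ∃ h ∈ K, h ∈ par N T ∧ ¬ IsOfFinOrder h ∧ rho N h (al q) = al q := by
    intro p hp q hq hpq
    obtain ⟨f, f1, f2, f3⟩ := hfx p hp
    obtain ⟨f', g1, g2, g3⟩ := hfx q hq
    have hI := FA_ind C (FA_cross_al C hpq (hlab p hp q hq)) f2 g2 f3 g3
    have : ({e | Supp T e ∧ Cross N (al p) e} ∪ {e | Supp T e ∧ Cross N (al q) e}).Infinite := by
      refine hinf.mono fun e he => ?_
      have hE := hall e he.1 he.2
      have rp := (C.a0.root_al p).1
      have rq := (C.a0.root_al q).1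
      rcases FA_tri C hK hE f1 with h | h | h
      · exact Or.inl ⟨he.2, C.a2.per_ess f _ _ rp (FA_per f3) h⟩
      · exact Or.inl ⟨he.2, FA_cneg' C (C.a2.per_ess f _ _ rp (FA_per f3) h)⟩
      rcases FA_tri C hK hE g1 with h' | h' | h'
      · exact Or.inr ⟨he.2, C.a2.per_ess f' _ _ rq (FA_per g3) h'⟩
      · exact Or.inr ⟨he.2, FA_cneg' C (C.a2.per_ess f' _ _ rq (FA_per g3) h')⟩
      · exact absurd hI (C.b2.noz2 f f' e (hK f f1 f' g1) he.1 h h')
    exact (Set.infinite_union.1 this).imp (FA_many C hK hall hp f1 f2 f3)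
      (FA_many C hK hall hq g1 g2 g3)
  have mi : i ∈ T := by simp [hT]
  have mj : j ∈ T := by simp [hT]
  have mk : k ∈ T := by simp [hT]
  obtain ⟨q, hq, r, hr, hqr, ⟨h, a1, a2, a3, a4⟩, ⟨h', b1, b2, b3, b4⟩⟩ : ∃ q ∈ T, ∃ r ∈ T, q ≠ r ∧
      (∃ h ∈ K, h ∈ par N T ∧ ¬ IsOfFinOrder h ∧ rho N h (al q) = al q) ∧
        ∃ h ∈ K, h ∈ par N T ∧ ¬ IsOfFinOrder h ∧ rho N h (al r) = al r := by
    rcases good i mi j mj ht.1 with x | x
    · rcases good j mj k mk ht.2.1 with y | y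
      · exact ⟨i, mi, j, mj, ht.1, x, y⟩
      · exact ⟨i, mi, k, mk, ht.2.2.1, x, y⟩
    · rcases good i mi k mk ht.2.2.1 with y | y
      · exact ⟨i, mi, j, mj, ht.1, y, x⟩
      · exact ⟨j, mj, k, mk, ht.2.1, x, y⟩
  have hc := FA_cross_al C hqr (hlab q hq r hr)
  have hI := FA_ind C hc a3 b3 a4 b4
  have ess : ∀ f ∈ par N T, ∀ e, Ess N f e → Supp T e := fun f hf e he => by
    simpa only [inv_one, rho_one] using C.a2.esspar f 1 T e (by rwa [cj_one]) he
  have supp : ∀ e, EK N K e → Supp T e := by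
    intro e hE
    rcases FA_tri C hK hE a1 with x | x | x
    · exact ess h a2 e x
    · exact FA_supp_neg (ess h a2 _ x)
    rcases FA_tri C hK hE b1 with y | y | y
    · exact ess h' b2 e y
    · exact FA_supp_neg (ess h' b2 _ y)
    · exact absurd hI (C.b2.noz2 h h' e (hK h a1 h' b1) (FA_ek_root hE) x y)
  refine ⟨fun b hb => ?_, h, a2, a3, al q, rho N h' (al q), (C.a0.root_al q).1,
    C.a0.root_rho _ _ (C.a0.root_al q).1, fun e => b3 ?_, fun e => b3 ?_, FA_supp_al hq,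
    C.b0.supp_par T h' _ b2 (FA_supp_al hq), a4, ?_⟩
  · have mv : ∀ p ∈ T, Supp T (rho N b (al p)) := fun p hp => by
      obtain ⟨f, hf, he⟩ := h0 p hp
      exact supp _ ⟨_, (hb f).1 hf, C.a2.conj b f _ he⟩
    exact C.b1.vx T _ _ b hc (FA_supp_al hq) (FA_supp_al hr) (mv q hq) (mv r hr)
  · rw [C.b1.fix2 _ _ h' hc e b4]
    exact IsOfFinOrder.one
  · refine isOfFinOrder_iff_pow_eq_one.2 ⟨2, two_pos, C.b1.fix2 _ _ _ hc ?_ ?_⟩
    · rw [pow_two, rho_mul, e, map_neg, e, neg_neg]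
    · rw [pow_two, rho_mul, b4, b4]
  · rw [← rho_mul, (hK h a1 h' b1).eq, rho_mul, a4]

end

theorem FA_thm (hA : St_CA) : St_FA := by
  intro B _ _ N hN K w g c i j k hK hw hg hi ht h1 h2 h3
  have C := hA B N hN
  have m : ∀ f, f ∈ K → c⁻¹ * f * c ∈ cj c⁻¹ K := fun f hf => by
    simpa [mem_cj, mul_assoc] using hf
  have ek : ∀ p, EK N K (rho N c (al p)) → EK N (cj c⁻¹ K) (al p) := by
    rintro p ⟨f, hf, he⟩
    have := C.a2.conj c⁻¹ f _ he
    rw [inv_inv, rho_inv] at this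
    exact ⟨_, m f hf, this⟩
  obtain ⟨r1, r2⟩ := FA_core C (K := cj c⁻¹ K) (w := c⁻¹ * w * c) (g := c⁻¹ * g * c)
    (fun a ha b hb => by
      have := hK _ ha _ hb
      rw [inv_inv, commute_iff_eq] at this
      have e : c * (a * b) * c⁻¹ = c * (b * a) * c⁻¹ := by
        calc c * (a * b) * c⁻¹ = c * a * c⁻¹ * (c * b * c⁻¹) := by group
          _ = c * b * c⁻¹ * (c * a * c⁻¹) := this
          _ = c * (b * a) * c⁻¹ := by group
      exact mul_left_cancel (mul_right_cancel e))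
    (m w hw) (m g hg)
    (fun p q e => hi p q (by
      have e1 : ∀ (f : N.Group) (n : ℤ), (c⁻¹ * f * c) ^ n = c⁻¹ * f ^ n * c := fun f n => by
        simpa using conj_zpow (a := c⁻¹) (b := f) (i := n)
      rw [e1, e1] at e
      calc g ^ p * w ^ q = c * (c⁻¹ * g ^ p * c * (c⁻¹ * w ^ q * c)) * c⁻¹ := by group
        _ = 1 := by rw [e]; group))
    ht (by
      rintro p (rfl | rfl | rfl)
      · exact ek _ h1
      · exact ek _ h2
      · exact ek _ h3)
  refine ⟨fun b hb => r1 (c⁻¹ * b * c) fun h => ?_, r2⟩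
  rw [mem_cj, mem_cj, hb]
  simp [mul_assoc]

section

theorem FA_sign {α β γ x y z : ℝ} (a0 : 0 ≤ α) (a1 : α < 1) (b0 : 0 ≤ β) (b1 : β < 1) (c0 : 0 ≤ γ)
    (c1 : γ < 1) (hx : x = α * y + γ * z) (hy : y = α * x + β * z) (hz : z = γ * x + β * y)
    (hne : ¬ (x = 0 ∧ y = 0 ∧ z = 0)) : (0 < x ∧ 0 < y ∧ 0 < z) ∨ (x < 0 ∧ y < 0 ∧ z < 0) := by
  have two : ∀ t p q : ℝ, 0 ≤ t → t < 1 → p = t * q → q = t * p → p = 0 ∧ q = 0 := by
    intro t p q t0 t1 e1 e2
    have h : (1 - t * t) * p = 0 := by linear_combination e1 + t * e2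
    have h' : 0 < 1 - t * t := by nlinarith
    have hp := (mul_eq_zero.1 h).resolve_left h'.ne'
    exact ⟨hp, by rw [e2, hp, mul_zero]⟩
  have nz : z ≠ 0 := fun h => by
    obtain ⟨p, q⟩ := two α x y a0 a1 (by rw [hx, h]; ring) (by rw [hy, h]; ring)
    exact hne ⟨p, q, h⟩
  have ny : y ≠ 0 := fun h => by
    obtain ⟨p, q⟩ := two γ x z c0 c1 (by rw [hx, h]; ring) (by rw [hz, h]; ring)
    exact hne ⟨p, h, q⟩
  have nx : x ≠ 0 := fun h => by
    obtain ⟨p, q⟩ := two β y z b0 b1 (by rw [hy, h]; ring) (by rw [hz, h]; ring)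
    exact hne ⟨h, p, q⟩
  rcases nx.lt_or_gt with p | p <;> rcases ny.lt_or_gt with q | q <;>
    rcases nz.lt_or_gt with r | r
  · exact Or.inr ⟨p, q, r⟩
  · nlinarith [mul_nonneg c0 (neg_pos.2 p).le, mul_nonneg b0 (neg_pos.2 q).le]
  · nlinarith [mul_nonneg a0 (neg_pos.2 p).le, mul_nonneg b0 (neg_pos.2 r).le]
  · nlinarith [mul_nonneg a0 q.le, mul_nonneg c0 r.le]
  · nlinarith [mul_nonneg a0 (neg_pos.2 q).le, mul_nonneg c0 (neg_pos.2 r).le]
  · nlinarith [mul_nonneg a0 p.le, mul_nonneg b0 r.le]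
  · nlinarith [mul_nonneg c0 p.le, mul_nonneg b0 q.le]
  · exact Or.inl ⟨p, q, r⟩

theorem FA_cos {m : ℕ} (h : 2 ≤ m) : 0 ≤ Real.cos (Real.pi / m) ∧ Real.cos (Real.pi / m) < 1 := by
  have h2 : (2 : ℝ) ≤ m := by exact_mod_cast h
  have p0 : 0 < Real.pi / m := div_pos Real.pi_pos (by linarith)
  have p1 : Real.pi / m ≤ Real.pi / 2 := div_le_div_of_nonneg_left Real.pi_pos.le two_pos h2
  refine ⟨Real.cos_nonneg_of_neg_pi_div_two_le_of_le (by linarith [Real.pi_pos]) p1, ?_⟩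
  rw [← Real.cos_zero]
  exact Real.cos_lt_cos_of_nonneg_of_le_pi le_rfl (by linarith [Real.pi_pos]) p0

theorem FA_six {a b c : ℕ} (ha : 2 ≤ a) (hb : 2 ≤ b) (hc : 2 ≤ c)
    (h : b * c + a * c + a * b = a * b * c) : a ≤ 6 := by
  by_contra hn
  obtain ⟨a, rfl⟩ : ∃ t, a = t + 7 := ⟨a - 7, by omega⟩
  obtain ⟨b, rfl⟩ : ∃ t, b = t + 2 := ⟨b - 2, by omega⟩
  obtain ⟨c, rfl⟩ : ∃ t, c = t + 2 := ⟨c - 2, by omega⟩
  have e : a * b * c + a * b + a * c + 6 * (b * c) + 5 * b + 5 * c = 4 := by nlinarith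
  have hb0 : b = 0 := by omega
  have hc0 : c = 0 := by omega
  subst hb0 hc0
  omega

theorem FA_solve {a b c : ℕ} (ha : 2 ≤ a) (hb : 2 ≤ b) (hc : 2 ≤ c)
    (h : 1 / (a : ℚ) + 1 / (b : ℚ) + 1 / (c : ℚ) = 1) :
    (a = 3 ∧ b = 3 ∧ c = 3) ∨ (a = 4 ∧ b = 4 ∧ c = 2) ∨ (a = 4 ∧ b = 2 ∧ c = 4) ∨
      (a = 2 ∧ b = 4 ∧ c = 4) ∨ (a = 6 ∧ b = 3 ∧ c = 2) ∨ (a = 3 ∧ b = 6 ∧ c = 2) ∨
      (a = 6 ∧ b = 2 ∧ c = 3) ∨ (a = 3 ∧ b = 2 ∧ c = 6) ∨ (a = 2 ∧ b = 3 ∧ c = 6) ∨
      (a = 2 ∧ b = 6 ∧ c = 3) := by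
  have a0 : (a : ℚ) ≠ 0 := by exact_mod_cast (by omega : a ≠ 0)
  have b0 : (b : ℚ) ≠ 0 := by exact_mod_cast (by omega : b ≠ 0)
  have c0 : (c : ℚ) ≠ 0 := by exact_mod_cast (by omega : c ≠ 0)
  have e : b * c + a * c + a * b = a * b * c := by
    have : (b : ℚ) * c + a * c + a * b = a * b * c := by
      field_simp at h
      linear_combination h
    exact_mod_cast this
  have a6 := FA_six ha hb hc e
  have b6 := FA_six hb ha hc (by linarith)
  have c6 := FA_six hc ha hb (by linarith)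
  interval_cases a <;> interval_cases b <;> interval_cases c <;> simp_all

variable {B : Type} [Fintype B] [DecidableEq B] {N : CoxeterMatrix B}

theorem FA_exp {i j k : B} (h1 : i ≠ j) (h2 : j ≠ k) (h3 : i ≠ k) {v : B → ℝ}
    (hv : Supp {i, j, k} v) : v = v i • al i + v j • al j + v k • al k := by
  funext l
  simp only [Pi.add_apply, Pi.smul_apply, smul_eq_mul]
  by_cases e1 : l = i
  · rw [e1, al_self, al_ne h1, al_ne h3]
    ring
  by_cases e2 : l = j
  · rw [e2, al_self, al_ne h1.symm, al_ne h2]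
    ring
  by_cases e3 : l = k
  · rw [e3, al_self, al_ne h3.symm, al_ne h2.symm]
    ring
  rw [hv l (by simp [e1, e2, e3]), al_ne e1, al_ne e2, al_ne e3]
  ring

theorem FA_dep {i j k : B} {a e x v : B → ℝ} (ha : Supp {i, j, k} a) (he : Supp {i, j, k} e)
    (hx : Supp {i, j, k} x) (hv : Supp {i, j, k} v) : ∃ c : Fin 4 → ℝ, c ≠ 0 ∧
      c 0 • a + c 1 • e + c 2 • x + c 3 • v = 0 := by
  have h := LinearMap.ker_ne_bot_of_finrank_lt (f := Matrix.mulVecLin
    (!![a i, e i, x i, v i; a j, e j, x j, v j; a k, e k, x k, v k] : Matrix (Fin 3) (Fin 4) ℝ))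
    (by simp)
  obtain ⟨c, hc, h0⟩ := (Submodule.ne_bot_iff _).1 h
  rw [LinearMap.mem_ker, Matrix.mulVecLin_apply] at hc
  have e0 := congrFun hc 0
  have e1 := congrFun hc 1
  have e2 := congrFun hc 2
  simp [Matrix.mulVec, dotProduct, Fin.sum_univ_four] at e0 e1 e2
  refine ⟨c, h0, funext fun l => ?_⟩
  simp only [Pi.add_apply, Pi.smul_apply, smul_eq_mul, Pi.zero_apply]
  by_cases hl : l ∈ ({i, j, k} : Set B)
  · rcases hl with rfl | rfl | rfl
    · linear_combination e0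
    · linear_combination e1
    · linear_combination e2
  · rw [ha l hl, he l hl, hx l hl, hv l hl]
    ring

/-- a vector in the radical of the form -/
theorem FA_rad (C : CA N) {i j k : B} {h : N.Group} {a e : B → ℝ} (hh : h ∈ par N {i, j, k})
    (hinf : ¬ IsOfFinOrder h) (ra : IsRoot N a) (re : IsRoot N e) (n1 : e ≠ a) (n2 : e ≠ -a)
    (sa : Supp {i, j, k} a) (se : Supp {i, j, k} e) (fa : rho N h a = a) (fe : rho N h e = e) :
    ∃ n, n ≠ 0 ∧ Supp {i, j, k} n ∧ ∀ v, Supp {i, j, k} v → Bf N n v = 0 := by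
  obtain ⟨p, hp, hx⟩ : ∃ p ∈ ({i, j, k} : Set B), rho N h (al p) ≠ al p := by
    by_contra hc
    push Not at hc
    refine hinf ?_
    rw [C.b0.faithT _ h hh fun p hp => by rw [hc p hp]; exact pos_al p]
    exact IsOfFinOrder.one
  have sx := FA_supp_al hp
  generalize al p = x at hx sx
  obtain ⟨n, hn⟩ : ∃ n, rho N h x = x + n := ⟨rho N h x - x, by abel⟩
  have n0 : n ≠ 0 := fun e0 => hx (by rw [hn, e0, add_zero])
  have sn : Supp {i, j, k} n := fun l hl => by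
    have := C.b0.supp_par _ h x hh sx l hl
    rwa [hn, Pi.add_apply, sx l hl, zero_add] at this
  have span : ∀ v, Supp {i, j, k} v → ∃ s t u : ℝ, v = s • a + t • e + u • x := by
    intro v hv
    obtain ⟨c, c0, hc⟩ := FA_dep sa se sx hv
    have c3 : c 3 ≠ 0 := fun c3 => by
      rw [c3, zero_smul, add_zero] at hc
      have h1 := congrArg (rho N h) hc
      rw [map_add, map_add, map_smul, map_smul, map_smul, fa, fe, hn, map_zero, smul_add,
        ← add_assoc, hc, zero_add] at h1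
      have c2 := (smul_eq_zero.1 h1).resolve_right n0
      rw [c2, zero_smul, add_zero] at hc
      obtain ⟨p0, p1⟩ := C.a0.root_indep a e _ _ ra re n1 n2 hc
      refine c0 (funext fun l => ?_)
      fin_cases l
      · exact p0
      · exact p1
      · exact c2
      · exact c3
    refine ⟨-(c 0 / c 3), -(c 1 / c 3), -(c 2 / c 3), funext fun l => ?_⟩
    have := congrFun hc l
    simp only [Pi.add_apply, Pi.smul_apply, smul_eq_mul, Pi.zero_apply] at this ⊢
    field_simp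
    linear_combination this
  have pa : Bf N n a = 0 := by
    have := Bf_rho N h x a
    rw [hn, fa, Bf_add_left] at this
    linear_combination this
  have pe : Bf N n e = 0 := by
    have := Bf_rho N h x e
    rw [hn, fe, Bf_add_left] at this
    linear_combination this
  have ex : ∀ s t u : ℝ, Bf N n (s • a + t • e + u • x) = u * Bf N n x := fun s t u => by
    rw [Bf_add_right, Bf_add_right, Bf_smul_right, Bf_smul_right, Bf_smul_right, pa, pe]
    ring
  have px : Bf N n x = 0 := by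
    by_contra px
    obtain ⟨s, t, u, en⟩ := span n sn
    have e1 := Bf_rho N h x x
    rw [hn, Bf_add_left, Bf_add_right, Bf_add_right, Bf_symm N x n] at e1
    have e2 : Bf N n n = u * Bf N n x := by rw [← ex s t u, ← en]
    have hu : u = -2 := by
      have : (u + 2) * Bf N n x = 0 := by linear_combination e1 - e2
      linear_combination (mul_eq_zero.1 this).resolve_right px
    have fx : rho N (h ^ 2) x = x := by
      rw [pow_two, rho_mul, hn, map_add, hn]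
      conv_lhs => rw [en, map_add, map_add, map_smul, map_smul, map_smul, fa, fe, hn, en, hu]
      module
    refine hinf (isOfFinOrder_iff_pow_eq_one.2 ⟨2, two_pos,
      C.b0.faithT _ _ (pow_mem hh 2) fun q hq => ?_⟩)
    obtain ⟨s', t', u', eq⟩ := span _ (FA_supp_al hq)
    have : rho N (h ^ 2) (al q) = al q := by
      rw [eq, map_add, map_add, map_smul, map_smul, map_smul, fx, pow_two, rho_mul, rho_mul, fa, fa,
        fe, fe]
    rw [this]
    exact pos_al q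
  refine ⟨n, n0, sn, fun v hv => ?_⟩
  obtain ⟨s, t, u, rfl⟩ := span v hv
  rw [ex, px, mul_zero]

theorem FA_two {i j : B} (h : i ≠ j) (h0 : N i j ≠ 0) : 2 ≤ N i j := by
  have := N.off_diagonal i j h
  omega

end

theorem EUC_thm (hA : St_CA) : St_EUC := by
  intro B _ _ N hN i j k h a e ht hh hinf ra re n1 n2 sa se fa fe
  have C := hA B N hN
  obtain ⟨n, n0, sn, hn⟩ := FA_rad C hh hinf ra re n1 n2 sa se fa fe
  obtain ⟨v, sv, -, -, -, v1, v2, v3, hv⟩ := C.b1.nullv i j k ht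
  obtain ⟨d1, d2, d3, l1, l2, l3⟩ := ht
  have en := FA_exp d1 d2 d3 sn
  have ex : ∀ y, Bf N n y = n i * Bf N (al i) y + n j * Bf N (al j) y + n k * Bf N (al k) y :=
    fun y => by
      conv_lhs => rw [en]
      rw [Bf_add_left, Bf_add_left, Bf_smul_left, Bf_smul_left, Bf_smul_left]
  have one : ∀ p, Bf N (al p) (al p) = 1 := fun p => C.a0.root_norm _ (C.a0.root_al p).1
  have e1 := hn (al i) (FA_supp_al (by simp))
  have e2 := hn (al j) (FA_supp_al (by simp))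
  have e3 := hn (al k) (FA_supp_al (by simp))
  have e4 := hn v sv
  rw [ex, one, Bf_symm N (al j), Bf_symm N (al k), Bf_al, Bf_al] at e1
  rw [ex, one, Bf_symm N (al k), Bf_al, Bf_al] at e2
  rw [ex, one, Bf_al, Bf_al] at e3
  rw [ex, Bf_symm N (al i), Bf_symm N (al j), Bf_symm N (al k)] at e4
  have t1 := FA_two d1 l1
  have t2 := FA_two d2 l2
  have t3 := FA_two d3 l3
  have hs := FA_sign (x := n i) (y := n j) (z := n k) (FA_cos t1).1 (FA_cos t1).2 (FA_cos t2).1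
    (FA_cos t2).2 (FA_cos t3).1 (FA_cos t3).2 (by linear_combination e1) (by linear_combination e2)
    (by linear_combination e3) (fun ⟨p, q, r⟩ => n0 (by rw [en, p, q, r]; simp))
  have z : Bf N v (al i) = 0 ∧ Bf N v (al j) = 0 ∧ Bf N v (al k) = 0 := by
    rcases hs with ⟨p, q, r⟩ | ⟨p, q, r⟩
    · have a1 := mul_nonpos_of_nonneg_of_nonpos p.le v1
      have a2 := mul_nonpos_of_nonneg_of_nonpos q.le v2
      have a3 := mul_nonpos_of_nonneg_of_nonpos r.le v3
      exact ⟨(mul_eq_zero.1 (by linarith)).resolve_left p.ne',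
        (mul_eq_zero.1 (by linarith)).resolve_left q.ne',
        (mul_eq_zero.1 (by linarith)).resolve_left r.ne'⟩
    · have a1 := mul_nonneg_of_nonpos_of_nonpos p.le v1
      have a2 := mul_nonneg_of_nonpos_of_nonpos q.le v2
      have a3 := mul_nonneg_of_nonpos_of_nonpos r.le v3
      exact ⟨(mul_eq_zero.1 (by linarith)).resolve_left p.ne,
        (mul_eq_zero.1 (by linarith)).resolve_left q.ne,
        (mul_eq_zero.1 (by linarith)).resolve_left r.ne⟩
  have s1 := N.symmetric j i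
  have s2 := N.symmetric k j
  have s3 := N.symmetric k i
  rcases FA_solve t1 t2 t3 (hv z.1 z.2.1 z.2.2) with x | x | x | x | x | x | x | x | x | x
  · exact Or.inl x
  · exact Or.inr ⟨i, j, k, rfl, Or.inl x⟩
  · exact Or.inr ⟨j, i, k, by ext; simp; tauto, Or.inl ⟨s1.trans x.1, x.2.2, x.2.1⟩⟩
  · exact Or.inr ⟨i, k, j, by ext; simp; tauto, Or.inl ⟨x.2.2, s2.trans x.2.1, x.1⟩⟩
  · exact Or.inr ⟨i, j, k, rfl, Or.inr x⟩
  · exact Or.inr ⟨k, j, i, by ext; simp; tauto,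
      Or.inr ⟨s2.trans x.2.1, s1.trans x.1, s3.trans x.2.2⟩⟩
  · exact Or.inr ⟨j, i, k, by ext; simp; tauto, Or.inr ⟨s1.trans x.1, x.2.2, x.2.1⟩⟩
  · exact Or.inr ⟨k, i, j, by ext; simp; tauto, Or.inr ⟨s3.trans x.2.2, x.1, s2.trans x.2.1⟩⟩
  · exact Or.inr ⟨i, k, j, by ext; simp; tauto, Or.inr ⟨x.2.2, s2.trans x.2.1, x.1⟩⟩
  · exact Or.inr ⟨j, k, i, by ext; simp; tauto, Or.inr ⟨x.2.1, s3.trans x.2.2, s1.trans x.1⟩⟩

end Pool.Agent.Lib.MP_1b8ce0_al.T
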