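import Mathlib
import Pool.Agent.Lib.MP_1b8ce0_al.T.StsB

set_option linter.unusedSectionVars false
set_option linter.dupNamespace false

namespace Pool.Agent.Lib.MP_1b8ce0_al.T

open Pool.Agent.Lib.MP_6d85b4_al

/-- an invariant function summed over free orbits of prime size -/
theorem FCE_sum {X : Type} (σ : X → X) (l : ℕ) (hl : l.Prime) (hσ : ∀ r, σ^[l] r = r)
    (F : X → ℤ) (hF : (Function.support F).Finite) (hinv : ∀ r, F (σ r) = F r)
    (hfix : ∀ r, F r ≠ 0 → σ r ≠ r) : (l : ℤ) ∣ ∑ᶠ r, F r := by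
  classical
  have : Fact l.Prime := ⟨hl⟩
  rw [finsum_eq_sum_of_support_subset (s := hF.toFinset) F (by simp)]
  rw [← Finset.sum_fiberwise_of_maps_to (s := hF.toFinset) (t := hF.toFinset.image F) (g := F)
    (fun r hr => Finset.mem_image_of_mem F hr)]
  refine Finset.dvd_sum fun c _ => ?_
  set U := hF.toFinset.filter (fun r => F r = c) with hU
  have hmem : ∀ r, r ∈ U ↔ F r ≠ 0 ∧ F r = c := by
    intro r
    simp [hU]
  have h1 : ∑ r ∈ U, F r = U.card * c := by
    rw [Finset.sum_congr rfl (fun r hr => ((hmem r).1 hr).2)]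
    simp
  rw [h1]
  refine Dvd.dvd.mul_right ?_ c
  let f : Function.End U := fun r => ⟨σ r, by
    have := (hmem r).1 r.2
    rw [hmem, hinv]
    exact this⟩
  have hit : ∀ (n : ℕ) (r : U), ((f ^ n) r : X) = σ^[n] r := by
    intro n
    induction n with
    | zero => intro r; rfl
    | succ n ih =>
      intro r
      rw [pow_succ, Function.iterate_succ_apply]
      exact ih (f r)
  have hf : f ^ l ^ 1 = 1 := by
    rw [pow_one]
    funext r
    apply Subtype.ext
    rw [hit, hσ]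
    rfl
  have h2 := Equiv.Perm.card_fixedPoints_modEq hf
  have h3 : Fintype.card (Function.fixedPoints f) = 0 := by
    rw [Fintype.card_eq_zero_iff]
    refine ⟨fun r => ?_⟩
    exact hfix r.1 ((hmem _).1 r.1.2).1 (congrArg Subtype.val r.2)
  rw [h3, Fintype.card_coe] at h2
  exact Int.natCast_dvd_natCast.2 ((Nat.modEq_zero_iff_dvd).1 h2)

section Cocycle

variable {B : Type} [Fintype B] [DecidableEq B] {N : CoxeterMatrix B} {G : Type} [Group G]
  {ψ : G →* N.Group} (ν : NData N ψ)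

theorem FCE_n_one (r : N.Group) : ν.n 1 r = 0 := by
  have := ν.mul 1 1 r
  simp only [mul_one, map_one, inv_one, one_mul] at this
  omega

theorem FCE_n_inv (g : G) (r : N.Group) : ν.n g⁻¹ r = -ν.n g (ψ g * r * (ψ g)⁻¹) := by
  have := ν.mul g⁻¹ g r
  rw [inv_mul_cancel, FCE_n_one, map_inv, inv_inv] at this
  omega

theorem FCE_n_conj (g h : G) (hg : ψ g = 1) (r : N.Group) :
    ν.n (h * g * h⁻¹) r = ν.n g ((ψ h)⁻¹ * r * ψ h) := by
  have h1 := ν.mul (h * g * h⁻¹) h r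
  have h2 := ν.mul h g r
  have h3 : ψ (h * g * h⁻¹) = 1 := by simp [hg]
  rw [inv_mul_cancel_right, h3, inv_one, one_mul, mul_one] at h1
  omega

/-- the elements whose cocycle is invariant under `w` -/
def FCE_K (w : N.Group) : Subgroup G where
  carrier := {q | Commute w (ψ q) ∧ ∀ r, ν.n q (w⁻¹ * r * w) = ν.n q r}
  one_mem' := ⟨by simp, fun r => by rw [FCE_n_one, FCE_n_one]⟩
  mul_mem' := by
    rintro a b ⟨ha, ha'⟩ ⟨hb, hb'⟩
    refine ⟨by rw [map_mul]; exact ha.mul_right hb, fun r => ?_⟩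
    rw [ν.mul, ν.mul, ha', ← hb' ((ψ a)⁻¹ * r * ψ a)]
    congr 2
    have h1 : (ψ a)⁻¹ * w⁻¹ = w⁻¹ * (ψ a)⁻¹ := ha.inv_inv.eq.symm
    calc (ψ a)⁻¹ * (w⁻¹ * r * w) * ψ a = ((ψ a)⁻¹ * w⁻¹) * r * (w * ψ a) := by group
      _ = (w⁻¹ * (ψ a)⁻¹) * r * (ψ a * w) := by rw [h1, ha.eq]
      _ = _ := by group
  inv_mem' := by
    rintro a ⟨ha, ha'⟩
    refine ⟨by rw [map_inv]; exact ha.inv_right, fun r => ?_⟩
    rw [FCE_n_inv, FCE_n_inv, ← ha' (ψ a * r * (ψ a)⁻¹)]
    congr 2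
    have h1 : ψ a * w⁻¹ = w⁻¹ * ψ a := ha.inv_left.eq.symm
    have h2 : w * (ψ a)⁻¹ = (ψ a)⁻¹ * w := ha.inv_right.eq
    calc ψ a * (w⁻¹ * r * w) * (ψ a)⁻¹ = (ψ a * w⁻¹) * r * (w * (ψ a)⁻¹) := by group
      _ = (w⁻¹ * ψ a) * r * ((ψ a)⁻¹ * w) := by rw [h1, h2]
      _ = _ := by group

theorem FCE_gen_mem {u : G} {w : N.Group} (h0 : ∀ r, r ≠ ψ u → ν.n u r = 0)
    (hc : Commute w (ψ u)) : u ∈ FCE_K ν w := by
  refine ⟨hc, fun r => ?_⟩
  by_cases h : r = ψ u
  · rw [h, mul_assoc, ← hc.eq, inv_mul_cancel_left]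
  · rw [h0 r h, h0]
    intro e
    apply h
    calc r = w * (w⁻¹ * r * w) * w⁻¹ := by group
      _ = w * ψ u * w⁻¹ := by rw [e]
      _ = ψ u := by rw [hc.eq, mul_inv_cancel_right]

theorem FCE_comm {u v y : G} (h1 : ν.n u (ψ u) = 1) (h0 : ∀ r, r ≠ ψ u → ν.n u r = 0)
    (hu : ψ u * ψ u = 1) (hn : ¬ Commute (ψ u) (ψ v)) (hc : Commute (cm (u * u) v) y) :
    Commute (ψ y) (ψ u) := by
  classical
  have huu : ψ (u * u) = 1 := by rw [map_mul, hu]
  have h2 : ∀ r, ν.n (u * u) r = if r = ψ u then 2 else 0 := by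
    intro r
    rw [ν.mul]
    split_ifs with h
    · rw [h, inv_mul_cancel, one_mul, h1]
      rfl
    · rw [h0 r h, h0]
      · rfl
      · intro e
        apply h
        calc r = ψ u * ((ψ u)⁻¹ * r * ψ u) * (ψ u)⁻¹ := by group
          _ = ψ u * ψ u * (ψ u)⁻¹ := by rw [e]
          _ = ψ u := by group
  have hp : ψ (cm (u * u) v) = 1 := by
    simp only [cm, map_mul, map_inv, hu]
    group
  have h3 : ∀ r, ν.n (cm (u * u) v) r =
      ν.n (u * u) r - ν.n (u * u) ((ψ v)⁻¹ * r * ψ v) := by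
    intro r
    have e : cm (u * u) v = (u * u) * (v * (u * u)⁻¹ * v⁻¹) := by
      unfold cm
      group
    rw [e, ν.mul, huu, inv_one, one_mul, mul_one, FCE_n_conj ν _ _ (by rw [map_inv, huu, inv_one]),
      FCE_n_inv, huu, inv_one, one_mul, mul_one]
    ring
  have h4 := FCE_n_conj ν (cm (u * u) v) y hp (ψ u)
  rw [← hc.eq, mul_inv_cancel_right, h3, h3, h2, h2, h2, h2, if_pos rfl, if_neg] at h4
  · have h5 : (ψ y)⁻¹ * ψ u * ψ y = ψ u := by
      by_contra h
      rw [if_neg h] at h4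
      split_ifs at h4 <;> omega
    have : ψ y * ψ u = ψ u * ψ y := by
      calc ψ y * ψ u = ψ y * ((ψ y)⁻¹ * ψ u * ψ y) := by rw [h5]
        _ = _ := by group
    exact this
  · intro e
    apply hn
    have : ψ u * ψ v = ψ v * ψ u := by
      calc ψ u * ψ v = ψ v * ((ψ v)⁻¹ * ψ u * ψ v) := by group
        _ = _ := by rw [e]
    exact this

theorem FCE_inv {p y : G} (hc : Commute p y) (hp : p ∈ FCE_K ν (ψ y)) (r : N.Group) :
    ν.n y ((ψ p)⁻¹ * r * ψ p) = ν.n y r := by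
  have h1 := ν.mul p y r
  have h2 := ν.mul y p r
  rw [← hc.eq, hp.2] at h2
  omega

end Cocycle

/-- the parity of an integer character -/
def FCE_par {G : Type} [Group G] (χ : G →* Multiplicative ℤ) : G →* ℤˣ :=
  (zpowersHom ℤˣ (-1)).comp χ

theorem FCE_par_apply {G : Type} [Group G] (χ : G →* Multiplicative ℤ) (g : G) :
    FCE_par χ g = (-1) ^ (χ g).toAdd := rfl

theorem FCE_side {G S' : Type} [Group G] {M' : CoxeterMatrix S'} {x' : S' → G} (hA : St_CA)
    (A' : ASide M' x') (χ : G →* Multiplicative ℤ) (s' t' : S') (hm : 3 ≤ M' s' t') (y : G)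
    (hy : χ y = Multiplicative.ofAdd 1)
    (hc : ∀ g1 ∈ gp x' {s', t'}, ∀ g2 ∈ gp x' {s', t'}, Commute (cm g1 g2) y) : False := by
  have C := hA A'.B A'.N A'.ns
  have hst : s' ≠ t' := by
    rintro rfl
    rw [M'.diagonal] at hm
    omega
  have hs : s' ∈ Big M' := ⟨t', hm⟩
  have ht : t' ∈ Big M' := ⟨s', by rw [M'.symmetric]; exact hm⟩
  set i := A'.a s' with hi
  set j := A'.a t' with hj
  have hN : A'.N i j = M' s' t' := by
    have := A'.lab i j (by rw [hi, hj, A'.pa, A'.pa]; exact hst)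
    rwa [hi, hj, A'.pa, A'.pa] at this
  have hij : i ≠ j := fun e => hst (by rw [← A'.pa s', ← A'.pa t', ← hi, ← hj, e])
  have hu : A'.ψ (x' s') = sr A'.N i := A'.hom.1 s' hs
  have hv : A'.ψ (x' t') = sr A'.N j := A'.hom.1 t' ht
  set s := sr A'.N i with hsd
  set t := sr A'.N j with htd
  have hss : s * s = 1 := A'.N.toCoxeterSystem.simple_mul_simple_self i
  have htt : t * t = 1 := A'.N.toCoxeterSystem.simple_mul_simple_self j
  have hsi : s⁻¹ = s := inv_eq_of_mul_eq_one_right hss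
  have hti : t⁻¹ = t := inv_eq_of_mul_eq_one_right htt
  have hord : orderOf (s * t) = M' s' t' := by rw [← hN]; exact C.c0.ord i j
  have hnc : ¬ Commute s t := by
    intro h
    have h2 : (s * t) ^ 2 = 1 := by rw [h.mul_pow, pow_two, pow_two, hss, htt, one_mul]
    have h3 := Nat.le_of_dvd (by norm_num) (orderOf_dvd_of_pow_eq_one h2)
    omega
  have mu : x' s' ∈ gp x' {s', t'} := gp_mem x' (by simp)
  have mv : x' t' ∈ gp x' {s', t'} := gp_mem x' (by simp)
  have u1 : A'.ν.n (x' s') (A'.ψ (x' s')) = 1 := by rw [hu]; exact A'.n1 s' hs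
  have v1 : A'.ν.n (x' t') (A'.ψ (x' t')) = 1 := by rw [hv]; exact A'.n1 t' ht
  have u0 : ∀ r, r ≠ A'.ψ (x' s') → A'.ν.n (x' s') r = 0 := by rw [hu]; exact A'.n0 s' hs
  have v0 : ∀ r, r ≠ A'.ψ (x' t') → A'.ν.n (x' t') r = 0 := by rw [hv]; exact A'.n0 t' ht
  have cu : Commute (A'.ψ y) (A'.ψ (x' s')) :=
    FCE_comm A'.ν u1 u0 (by rw [hu, hss]) (by rw [hu, hv]; exact hnc)
      (hc _ (mul_mem mu mu) _ mv)
  have cv : Commute (A'.ψ y) (A'.ψ (x' t')) :=
    FCE_comm A'.ν v1 v0 (by rw [hv, htt]) (by rw [hu, hv]; exact fun h => hnc h.symm)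
      (hc _ (mul_mem mv mv) _ mu)
  have ku := FCE_gen_mem A'.ν u0 cu
  have kv := FCE_gen_mem A'.ν v0 cv
  have kp : cm (x' s') (x' t') ∈ FCE_K A'.ν (A'.ψ y) :=
    mul_mem (mul_mem (mul_mem ku kv) (inv_mem ku)) (inv_mem kv)
  have hinv := FCE_inv A'.ν (hc _ mu _ mv) kp
  have hp : A'.ψ (cm (x' s') (x' t')) = (s * t) ^ 2 := by
    simp only [cm, map_mul, map_inv, hu, hv, hsi, hti, pow_two, mul_assoc]
  rw [hp] at hinv
  rw [hu] at cu
  rw [hv] at cv
  have hN0 : A'.N i j ≠ 0 := by omega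
  have hne : (s * t) ^ 1 ≠ 1 := by
    intro e
    have h3 := Nat.le_of_dvd (by norm_num) (orderOf_dvd_of_pow_eq_one e)
    omega
  have hw : A'.ψ y ∈ par A'.N {i, j} := by
    have := C.t1.rot_cent 1 (A'.ψ y) i j 1 hij hN0 hne (by simpa using cu.mul_right cv)
    rwa [cj_one] at this
  obtain ⟨χ', hχ', -⟩ := A'.chr (FCE_par χ)
  have hχy : χ' (A'.ψ y) = -1 := by
    rw [hχ', FCE_par_apply, hy]
    simp
  rcases C.c0.center i j _ (by omega) hw cu cv with h | ⟨k, hk, h⟩
  · rw [h, map_one] at hχy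
    exact absurd hχy (by decide)
  have hodd : Odd k := by
    by_contra he
    obtain ⟨c, hc⟩ := Nat.not_odd_iff_even.1 he
    rw [h, map_pow, hc, pow_add, ← mul_pow, Int.units_mul_self, one_pow] at hχy
    exact absurd hχy (by decide)
  have hk1 : k ≠ 1 := by omega
  obtain ⟨l, hl, c, hc2⟩ := Nat.exists_prime_and_dvd hk1
  have hc0 : 0 < c := Nat.pos_of_ne_zero (by rintro rfl; omega)
  have hl2 : l ≠ 2 := by
    rintro rfl
    rw [hc2] at hodd
    exact (Nat.not_odd_iff_even.2 (even_two_mul c)) hodd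
  have hl3 : 3 ≤ l := by have := hl.two_le; omega
  set g := (s * t) ^ (2 * c) with hg
  have hgl : g ^ l = 1 := by
    rw [hg, ← pow_mul]
    apply orderOf_dvd_iff_pow_eq_one.1
    rw [hord, ← hN, hk, hc2]
    exact ⟨1, by ring⟩
  have hg2 : g * g ≠ 1 := by
    intro e
    rw [hg, ← pow_add] at e
    have h3 := Nat.le_of_dvd (by omega) (orderOf_dvd_of_pow_eq_one e)
    rw [hord, ← hN, hk, hc2] at h3
    nlinarith
  have hrot : IsRot A'.N g :=
    ⟨1, i, j, 2 * c, hij, hN0, by simp [hg, hsd, htd], fun e => hg2 (by rw [e, one_mul])⟩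
  have hinvg : ∀ r, A'.ν.n y (g⁻¹ * r * g) = A'.ν.n y r := by
    have : ∀ (e : ℕ) r, A'.ν.n y ((((s * t) ^ 2) ^ e)⁻¹ * r * ((s * t) ^ 2) ^ e) = A'.ν.n y r := by
      intro e
      induction e with
      | zero => intro r; simp
      | succ e ih =>
        intro r
        rw [← ih r, ← hinv ((((s * t) ^ 2) ^ e)⁻¹ * r * ((s * t) ^ 2) ^ e), pow_succ _ e]
        congr 1
        group
    intro r
    rw [hg, pow_mul]
    exact this c r
  obtain ⟨κ, hκ, hsum⟩ := A'.ex χ
  have hit : ∀ (e : ℕ) (r : A'.N.Group), (fun r => g⁻¹ * r * g)^[e] r = (g ^ e)⁻¹ * r * g ^ e := by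
    intro e
    induction e with
    | zero => intro r; simp
    | succ e ih =>
      intro r
      rw [Function.iterate_succ_apply', ih, pow_succ]
      group
  have hdvd := FCE_sum (fun r => g⁻¹ * r * g) l hl (fun r => by rw [hit, hgl]; simp)
    (fun r => A'.ν.n y r * κ r)
    ((A'.ν.fin y).subset fun r hr => left_ne_zero_of_mul hr)
    (fun r => by
      have := hκ g⁻¹ r
      rw [inv_inv] at this
      simp only [hinvg, this])
    (fun r hr e => by
      have hr' := A'.ν.refl y r (left_ne_zero_of_mul hr)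
      apply hg2
      refine C.t1.rot_refl g r hrot hr' ?_
      have : g * r = r * g := by
        calc g * r = g * (g⁻¹ * r * g) := by rw [e]
          _ = _ := by group
      exact this)
  rw [← hsum, hy] at hdvd
  have h9 : (l : ℤ) ∣ 1 := hdvd
  have := Int.le_of_dvd one_pos h9
  omega

theorem FCE_thm (hA : St_CA) (h1 : St_D1) (h2 : St_TT) : St_FCE := by
  intro G S S' _ _ _ _ _ M x M' x' A A' f χ hf hχ s' t' hm
  by_contra hz
  have D := h1.2 S G M ∅ x A.art
  have D' := h1.2 S' G M' ∅ x' A'.art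
  have hlab : ∀ t, M f t < 3 := fun t => by
    by_contra h
    exact hf ⟨t, by omega⟩
  have hcls : ∀ t, OddConn M f t → t = f := by
    intro t h
    induction h with
    | refl => rfl
    | @tail b c _ h ih =>
      subst ih
      exfalso
      have h3 := hlab c
      have h4 := M.off_diagonal b c h.1
      obtain ⟨k, hk⟩ := h.2
      omega
  have hf1 : χ (x f) = Multiplicative.ofAdd 1 := hχ.1 f Relation.ReflTransGen.refl
  have hA1 : ∀ g ∈ gp x {f}ᶜ, χ g = 1 := by
    have : gp x {f}ᶜ ≤ χ.ker := gp_le.2 fun s hs => hχ.2 s fun h => hs (hcls s h)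
    exact fun g hg => this hg
  have hA2 : ∀ g ∈ gp x (insert f (lk M f)), Commute g (x f) := by
    have : gp x (insert f (lk M f)) ≤ Subgroup.centralizer {x f} := gp_le.2 fun s hs => by
      rw [Subgroup.mem_centralizer_singleton_iff]
      rcases hs with rfl | hs
      · rfl
      · exact (D.two f s hs).symm.eq
    exact fun g hg => Subgroup.mem_centralizer_singleton_iff.1 (this hg)
  have T := (h2 S G M ∅ x {f}ᶜ (insert f (lk M f)) A.art
    (by
      ext s
      by_cases h : s = f <;> simp [h])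
    (by
      intro s t hs ht
      have e : t = f := by simpa using ht
      subst e
      have h3 := hlab s
      have h4 : s ≠ t := fun e => hs (Or.inl e)
      have h5 := M.off_diagonal t s h4.symm
      have h6 : M t s ≠ 2 := fun e => hs (Or.inr e)
      rw [M.symmetric]
      omega)).1
  have hcj : ∀ h g, g ∈ cj h (gp x {f}ᶜ) → χ g = 1 := by
    intro h g hg
    have := hA1 _ hg
    rwa [map_mul, map_mul, map_inv, mul_right_comm, inv_mul_cancel, one_mul] at this
  have hadj : Adj M' s' t' := ⟨by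
    rintro rfl
    rw [M'.diagonal] at hm
    omega, by omega⟩
  have hz1 := D'.zc s' t' hadj
  have key : ∃ h, ∀ g1 ∈ gp x' {s', t'}, ∀ g2 ∈ gp x' {s', t'},
      cm g1 g2 ∈ cj h (gp x (insert f (lk M f))) := by
    by_cases hE : Ell (gp x {f}ᶜ) (gp x (insert f (lk M f))) (zc M' x' s' t')
    · obtain ⟨h, hE | hE⟩ := hE
      · exact absurd (hcj _ _ hE) hz
      · have hno : ∀ k, zc M' x' s' t' ∉ cj k (gp x ({f}ᶜ ∩ insert f (lk M f))) :=
          fun k hk => hz (hcj k _ (cj_mono k T.le.1 hk))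
        have hle : gp x' {s', t'} ≤ cj h (gp x (insert f (lk M f))) := gp_le.2 (by
          rintro u (rfl | rfl)
          · exact T.cent2 _ h _ hno hE hz1.1
          · exact T.cent2 _ h _ hno hE hz1.2)
        exact ⟨h, fun g1 m1 g2 m2 =>
          hle (mul_mem (mul_mem (mul_mem m1 m2) (inv_mem m1)) (inv_mem m2))⟩
    · obtain ⟨h, Tr, p1, -, p3, -⟩ := T.hyp _ hE
      have hle : gp x' {s', t'} ≤ Tr := gp_le.2 (by
        rintro u (rfl | rfl)
        · exact p1 _ hz1.1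
        · exact p1 _ hz1.2)
      exact ⟨h, fun g1 m1 g2 m2 => cj_mono h T.le.2 (p3 g1 (hle m1) g2 (hle m2))⟩
  obtain ⟨h, hh⟩ := key
  refine FCE_side hA A' χ s' t' hm (h * x f * h⁻¹) ?_ fun g1 m1 g2 m2 => ?_
  · rw [map_mul, map_mul, map_inv, mul_right_comm, mul_inv_cancel, one_mul, hf1]
  · have e := (hA2 _ (hh g1 m1 g2 m2)).eq
    have : cm g1 g2 * (h * x f * h⁻¹) = (h * x f * h⁻¹) * cm g1 g2 := by
      calc cm g1 g2 * (h * x f * h⁻¹) = h * (h⁻¹ * cm g1 g2 * h * x f) * h⁻¹ := by group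
        _ = h * (x f * (h⁻¹ * cm g1 g2 * h)) * h⁻¹ := by rw [e]
        _ = _ := by group
    exact this

end Pool.Agent.Lib.MP_1b8ce0_al.T
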