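import Mathlib
import Pool.Agent.Lib.MP_1b8ce0_al.T.StsB

/-! Commuting elements: three directions of walls. -/

set_option linter.unusedSectionVars false
set_option linter.dupNamespace false

namespace Pool.Agent.Lib.MP_1b8ce0_al.T

open Pool.Agent.Lib.MP_6d85b4_al Filter

theorem FJ_rat {K : Type} [Group K] (μ1 μ2 ν1 ν2 : K →* Multiplicative ℚ)
    (ht : ∀ k, (μ1 k).toAdd = 0 → (μ2 k).toAdd = 0 → IsOfFinOrder k) (h w : K)
    (h1 : (μ1 h).toAdd = 0) (h2 : (μ2 h).toAdd ≠ 0) (h3 : (μ1 w).toAdd ≠ 0) (h4 : ν1 h = ν2 h)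
    (h5 : ν1 w = ν2 w) (k : K) : ν1 k = ν2 k := by
  obtain ⟨p, hp⟩ : ∃ p, (μ1 k).toAdd = p * (μ1 w).toAdd := ⟨_, (div_mul_cancel₀ _ h3).symm⟩
  obtain ⟨q, hq⟩ : ∃ q, (μ2 k).toAdd = q * (μ2 h).toAdd + p * (μ2 w).toAdd :=
    ⟨((μ2 k).toAdd - p * (μ2 w).toAdd) / (μ2 h).toAdd, by rw [div_mul_cancel₀ _ h2]; ring⟩
  have e : ∀ μ : K →* Multiplicative ℚ,
      (μ (k ^ (p.den * q.den) * h ^ (-(q.num * p.den)) * w ^ (-(p.num * q.den)))).toAdd =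
        p.den * q.den * ((μ k).toAdd - q * (μ h).toAdd - p * (μ w).toAdd) := by
    intro μ
    simp only [map_mul, map_pow, map_zpow, toAdd_mul, toAdd_pow, toAdd_zpow, nsmul_eq_mul,
      zsmul_eq_mul]
    push_cast
    rw [← Rat.den_mul_eq_num p, ← Rat.den_mul_eq_num q]
    ring
  have hf := ht _ (by rw [e, hp, h1]; ring) (by rw [e, hq]; ring)
  have z : ∀ μ : K →* Multiplicative ℚ,
      (μ k).toAdd - q * (μ h).toAdd - p * (μ w).toAdd = 0 := by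
    intro μ
    obtain ⟨n, hn, e1⟩ := isOfFinOrder_iff_pow_eq_one.1 (μ.isOfFinOrder hf)
    have e2 := congrArg Multiplicative.toAdd e1
    rw [toAdd_pow, e, toAdd_one, nsmul_eq_mul] at e2
    simpa [hn.ne', p.den_ne_zero, q.den_ne_zero] using e2
  have z1 := z ν1
  have z2 := z ν2
  rw [h4, h5] at z1
  exact Multiplicative.toAdd.injective (by linarith)

theorem FJ_div {K : Type} [Group K] (μ : K →* Multiplicative ℚ) {x y : K} (h : μ x = μ y) :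
    (μ (x * y⁻¹)).toAdd = 0 := by
  rw [map_mul, map_inv, h, mul_inv_cancel, toAdd_one]

variable {B : Type} [Fintype B] [DecidableEq B] {N : CoxeterMatrix B} {K : Subgroup N.Group}
  {a d e : B → ℝ} {g h w b : N.Group}

theorem FJ_symm (H : Cross N a e) : Cross N e a := by
  obtain ⟨h1, h2, h3, h4, x, h5, h6, h7⟩ := H
  exact ⟨h2, h1, h3.symm, fun k => h4 (by rw [k, neg_neg]), x, h5, h7, h6⟩

theorem FJ_neg (A : CA N) (H : Cross N a (-e)) : Cross N a e := by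
  obtain ⟨h1, h2, h3, h4, x, h5, h6, h7⟩ := H
  exact ⟨h1, by simpa using A.a0.root_neg _ h2, fun k => h4 (by rw [k]),
    fun k => h3 (by rw [k, neg_neg]), x, h5, h6, by simpa using h7⟩

theorem FJ_inj (g : N.Group) (H : rho N g a = rho N g e) : a = e := by
  rw [← rho_inv N g a, H, rho_inv]

theorem FJ_cross (A : CA N) (g : N.Group) (H : Cross N a e) :
    Cross N (rho N g a) (rho N g e) := by
  obtain ⟨h1, h2, h3, h4, x, h5, h6, h7⟩ := H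
  exact ⟨A.a0.root_rho _ _ h1, A.a0.root_rho _ _ h2, fun k => h3 (FJ_inj g k),
    fun k => h4 (FJ_inj g (by rw [k, map_neg])), act N g x, A.a1.act_mem _ _ h5,
    by rw [act_rho, h6], by rw [act_rho, h7]⟩

theorem FJ_per1 (H : rho N h a = a) : Per N h a := ⟨1, one_pos, by rwa [pow_one]⟩

theorem FJ_per_conj (g : N.Group) (H : Per N h a) : Per N (g * h * g⁻¹) (rho N g a) := by
  obtain ⟨k, h1, h2⟩ := H
  exact ⟨k, h1, by rw [conj_pow, rho_mul, rho_inv, rho_mul, h2]⟩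

theorem FJ_per_comm (hc : Commute h g) (H : Per N h (rho N g a)) : Per N h a := by
  obtain ⟨k, h1, h2⟩ := H
  exact ⟨k, h1, FJ_inj g (by rw [← rho_mul, ← (hc.pow_left k).eq, rho_mul, h2])⟩

theorem FJ_ess_comm (A : CA N) (hc : Commute g w) (H : Ess N w a) : Ess N w (rho N g a) := by
  have k := A.a2.conj g w a H
  rwa [hc.eq, mul_inv_cancel_right] at k

theorem FJ_tri (A : CA N) (hK : IsComm K) (he : EK N K e) (hh : h ∈ K) (H : ¬ Per N h e) :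
    Ess N h e ∨ Ess N h (-e) := by
  obtain ⟨μ, hμ⟩ := A.a2.mu K e hK he
  obtain ⟨h1, h2, h3⟩ := hμ ⟨h, hh⟩
  rcases lt_trichotomy (μ ⟨h, hh⟩).toAdd 0 with k | k | k
  · exact Or.inr (h2.1 k)
  · exact (H (h3.1 k)).elim
  · exact Or.inl (h1.1 k)

theorem FJ_cr (A : CA N) (hK : IsComm K) (he : EK N K e) (hh : h ∈ K) (H : ¬ Per N h e)
    (hd : IsRoot N d) (hp : Per N h d) : Cross N d e :=
  (FJ_tri A hK he hh H).elim (A.a2.per_ess h d e hd hp)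
    fun k => FJ_neg A (A.a2.per_ess h d _ hd hp k)

/-- a third direction gives a triangle -/
theorem FJ_third (A : CA N) (hK : IsComm K) (hw : w ∈ K) (hg : g ∈ K) (hi : Ind2 g w)
    {a1 a2 : B → ℝ} {h1 h2 : N.Group} (e1 : EK N K a1) (e2 : EK N K a2) (hc : Cross N a1 a2)
    (k1 : h1 ∈ K) (k2 : h2 ∈ K) (p1 : Per N h1 a1) (p2 : Per N h2 a2) (he : EK N K e)
    (n1 : ¬ Per N h1 e) (n2 : ¬ Per N h2 e) : ∃ a e f, Tri N K a e f := by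
  by_cases H : ∃ y, InI N y ∧ y a1 = 0 ∧ y a2 = 0 ∧ y e = 0
  swap
  · exact ⟨a1, a2, e, e1, e2, he, hc, FJ_cr A hK he k2 n2 hc.2.1 p2, FJ_cr A hK he k1 n1 hc.1 p1, H⟩
  obtain ⟨y, hy, y1, y2, y3⟩ := H
  obtain ⟨g₀, hg₀, hE⟩ := id he
  have he' : EK N K (rho N h1 e) := ⟨g₀, hg₀, FJ_ess_comm A (hK _ k1 _ hg₀) hE⟩
  refine ⟨a1, a2, rho N h1 e, e1, e2, he', hc,
    FJ_cr A hK he' k2 (fun k => n2 (FJ_per_comm (hK _ k2 _ k1) k)) hc.2.1 p2,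
    FJ_cr A hK he' k1 (fun k => n1 (FJ_per_comm (Commute.refl _) k)) hc.1 p1, ?_⟩
  rintro ⟨z, hz, z1, z2, z3⟩
  obtain ⟨s, t, hst⟩ := A.b1.rank2 y a1 a2 e hy hc.1 hc.2.1 hE.1 hc.2.2.1 hc.2.2.2.1 y1 y2 y3
  obtain ⟨f, hf, f1, f2⟩ := A.a2.hfix K e g w hK hg hw hi he
  refine f1 (A.b2.per2 f e (rho N h1 e) ⟨hE.1, A.a0.root_rho _ _ hE.1, fun k => n1 (FJ_per1 k),
    fun k => n1 ⟨2, two_pos, ?_⟩, z, hz, ?_, z3⟩ (FJ_per1 f2) (FJ_per1 ?_))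
  · rw [pow_two, rho_mul, k, map_neg, k, neg_neg]
  · rw [hst, map_add, map_smul, map_smul, z1, z2, smul_zero, smul_zero, add_zero]
  · rw [← rho_mul, (hK _ hf _ k1).eq, rho_mul, f2]

/-- the two directions cannot be exchanged -/
theorem FJ_swap (A : CA N)
    (SA : ∀ w, ¬ IsOfFinOrder w → CaseA N w → (∃ d, IsRoot N d ∧ Per N w d) →
      ∃ c P L, ProdA N w c P L) (hK : IsComm K) {a1 a2 : B → ℝ} {h1 h2 : N.Group}
    (e2 : EK N K a2) (e3 : EK N K (rho N b a1)) (hc : Cross N a1 a2) (k1 : h1 ∈ K)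
    (f1 : ¬ IsOfFinOrder h1) (f2 : ¬ IsOfFinOrder h2) (p1 : Per N h1 a1)
    (p2 : Per N h1 (rho N b a2)) (H : ∀ e, EK N K e → Per N h1 e ∨ Per N h2 e) : False := by
  have hA : CaseA N h1 := fun a e ha he k => f2 (A.b2.per2 h2 a e k
    ((H a ⟨h1, k1, ha⟩).resolve_left (A.a2.nper _ _ ha))
    ((H e ⟨h1, k1, he⟩).resolve_left (A.a2.nper _ _ he)))
  obtain ⟨c, P, L, hP⟩ := SA h1 f1 hA ⟨a1, hc.1, p1⟩
  have hs : ∀ e, EK N K e → ¬ Per N h1 e → Supp P (rho N c⁻¹ e) := fun e he hn =>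
    (FJ_tri A hK he k1 hn).elim (hP.ess e) fun k j hj => by simpa using hP.ess _ k j hj
  have hr : ∀ e, rho N (c⁻¹ * b * c) (rho N c⁻¹ e) = rho N c⁻¹ (rho N b e) := fun e => by
    rw [rho_mul, rho_inv', rho_mul]
  refine A.b1.swap P L (c⁻¹ * b * c) (rho N c⁻¹ a2) (rho N c⁻¹ a1) hP.two
    (A.a0.root_rho _ _ hc.2.1) (A.a0.root_rho _ _ hc.1)
    (hs a2 e2 fun k => f1 (A.b2.per2 h1 a1 a2 hc p1 k)) (hP.per a1 hc.1 p1) ?_ ?_
  · rw [hr]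
    exact hP.per _ (A.a0.root_rho _ _ hc.2.1) p2
  · rw [hr]
    exact hs _ e3 fun k => f1 (A.b2.per2 h1 _ _ (FJ_cross A b hc) k p2)

/-- conjugation by a normalising element -/
def FJ_cj (hb : Nrm b K) : K →* K :=
  MonoidHom.mk' (fun k => ⟨b * k * b⁻¹, (hb k).1 k.2⟩) fun k l => Subtype.ext (by simp [mul_assoc])

theorem FJ_cj_coe (hb : Nrm b K) (k : K) : (FJ_cj hb k : N.Group) = b * k * b⁻¹ := rfl

theorem FJ_keep (A : CA N) (hK : IsComm K) (hw : w ∈ K) (hb : Nrm b K) (hbw : Commute b w)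
    {a1 a2 : B → ℝ} (e1 : Ess N w a1) (hc : Cross N a1 a2) (hh : h ∈ K) (hf : ¬ IsOfFinOrder h)
    (p1 : Per N h a1) (p2 : Per N h (rho N b a1)) (μ1 μ2 : K →* Multiplicative ℚ)
    (m1 : ∀ k : K, (μ1 k).toAdd = 0 ↔ Per N k a1) (m2 : ∀ k : K, (μ2 k).toAdd = 0 ↔ Per N k a2)
    (k : K) : μ1 (FJ_cj hb k) = μ1 k := by
  have z := (m1 ⟨h, hh⟩).2 p1
  refine FJ_rat μ1 μ2 (μ1.comp (FJ_cj hb)) μ1 (fun k k1 k2 => ?_) ⟨h, hh⟩ ⟨w, hw⟩ z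
    (fun k2 => hf (A.b2.per2 h a1 a2 hc p1 ((m2 _).1 k2)))
    (fun k1 => A.a2.nper _ _ e1 ((m1 _).1 k1)) ?_ ?_ k
  · exact K.subtype_injective.isOfFinOrder_iff.1
      (A.b2.per2 k a1 a2 hc ((m1 k).1 k1) ((m2 k).1 k2))
  · have k1 := A.b2.noz2 h (b * h * b⁻¹) _ (hK _ hh _ ((hb h).1 hh)) (A.a0.root_rho b _ hc.1) p2
      (FJ_per_conj b p1)
    simp only [Ind2, not_forall] at k1
    obtain ⟨i, j, k2, k3⟩ := k1
    have hj : j ≠ 0 := by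
      rintro rfl
      rw [zpow_zero, mul_one] at k2
      exact hf (isOfFinOrder_iff_zpow_eq_one.2 ⟨i, fun k4 => k3 ⟨k4, rfl⟩, k2⟩)
    have k4 : (⟨h, hh⟩ : K) ^ i * FJ_cj hb ⟨h, hh⟩ ^ j = 1 := Subtype.ext k2
    have k5 := congrArg (fun k => (μ1 k).toAdd) k4
    simp only [map_mul, map_zpow, toAdd_mul, toAdd_zpow, z, smul_zero, zero_add, map_one,
      toAdd_one, smul_eq_zero, hj, false_or] at k5
    exact Multiplicative.toAdd.injective (k5.trans z.symm)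
  · exact congrArg μ1 (Subtype.ext (show b * w * b⁻¹ = w by rw [hbw.eq, mul_inv_cancel_right]))

theorem FJ_thm (hA : St_CA) (h1 : St_SA) : St_FJ := by
  intro B _ _ N hN K w g b a1 a2 hK hw hg hi e1 e2 hc hb hbw hn
  have A := hA B N hN
  obtain ⟨f1, k1, n1, p1⟩ := A.a2.hfix K a1 g w hK hg hw hi ⟨w, hw, e1⟩
  obtain ⟨f2, k2, n2, p2⟩ := A.a2.hfix K a2 g w hK hg hw hi ⟨w, hw, e2⟩
  replace p1 := FJ_per1 p1
  replace p2 := FJ_per1 p2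
  by_cases H : ∀ e, EK N K e → Per N f1 e ∨ Per N f2 e
  swap
  · simp only [not_forall, not_or] at H
    obtain ⟨e, he, q1, q2⟩ := H
    exact FJ_third A hK hw hg hi ⟨w, hw, e1⟩ ⟨w, hw, e2⟩ hc k1 k2 p1 p2 he q1 q2
  exfalso
  have e3 : EK N K (rho N b a1) := ⟨w, hw, FJ_ess_comm A hbw e1⟩
  have e4 : EK N K (rho N b a2) := ⟨w, hw, FJ_ess_comm A hbw e2⟩
  have hc' := FJ_cross A b hc
  rcases H _ e4 with q2 | q2
  · exact FJ_swap A (h1 B N hN) hK ⟨w, hw, e2⟩ e3 hc k1 n1 n2 p1 q2 H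
  have q1 := (H _ e3).resolve_right fun k => n2 (A.b2.per2 f2 _ _ hc' k q2)
  obtain ⟨μ1, m1⟩ := A.a2.mu K a1 hK ⟨w, hw, e1⟩
  obtain ⟨μ2, m2⟩ := A.a2.mu K a2 hK ⟨w, hw, e2⟩
  have r1 := FJ_keep A hK hw hb hbw e1 hc k1 n1 p1 q1 μ1 μ2 (fun k => (m1 k).2.2)
    (fun k => (m2 k).2.2) ⟨g, hg⟩
  have r2 := FJ_keep A hK hw hb hbw e2 (FJ_symm hc) k2 n2 p2 q2 μ2 μ1 (fun k => (m2 k).2.2)
    (fun k => (m1 k).2.2) ⟨g, hg⟩
  have t := A.b2.per2 _ a1 a2 hc ((m1 _).2.2.1 (FJ_div μ1 r1)) ((m2 _).2.2.1 (FJ_div μ2 r2))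
  rw [Subgroup.coe_mul, Subgroup.coe_inv, FJ_cj_coe] at t
  obtain ⟨n, hn0, e⟩ := isOfFinOrder_iff_pow_eq_one.1 t
  rw [(hK _ ((hb g).1 hg) _ hg).inv_right.mul_pow, conj_pow, inv_pow, mul_inv_eq_one,
    mul_inv_eq_iff_eq_mul] at e
  exact hn n hn0 e

end Pool.Agent.Lib.MP_1b8ce0_al.T
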