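import Mathlib
import Pool.Agent.Lib.MP_1b8ce0_al.T.StsA

set_option linter.unusedSectionVars false
set_option linter.dupNamespace false

namespace Pool.Agent.Lib.MP_1b8ce0_al.T

open Pool.Agent.Lib.MP_6d85b4_al

theorem FOLD_alt_succ {K : Type} [Monoid K] (s t : K) (k : ℕ) :
    alt s t (k + 1) = s * alt t s k := by
  unfold alt
  rw [List.range_succ_eq_map, List.map_cons, List.prod_cons, List.map_map, if_pos rfl]
  congr 2
  refine List.map_congr_left fun i _ => ?_
  simp only [Function.comp, Nat.succ_eq_add_one]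
  split_ifs <;> first | rfl | omega

theorem FOLD_alt_two {K : Type} [Monoid K] (s t : K) : alt s t 2 = s * t := by
  simpa using alt_two_mul s t 1

theorem FOLD_pow {K : Type} [Group K] (k : ℕ) : ∀ s t : K, s * s = 1 → t * t = 1 →
    (s * t) ^ k = alt s t k * (alt t s k)⁻¹ := by
  induction k with
  | zero => simp [alt]
  | succ k ih =>
    intro s t hs ht
    rw [FOLD_alt_succ, FOLD_alt_succ, mul_inv_rev, mul_assoc, ← mul_assoc (alt t s k),
      ← ih t s ht hs, inv_eq_of_mul_eq_one_right ht, ← mul_assoc, ← mul_pow_mul, pow_succ,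
      mul_assoc]

/-- signed generators satisfy the braid relations -/
theorem FOLD_sq {K : Type} [Group K] {g : K} (h : g * g = 1) (e : ℤˣ) : g ^ (e : ℤ) = g := by
  rcases Int.units_eq_one_or e with rfl | rfl
  · simp
  · simpa using inv_eq_of_mul_eq_one_right h

variable {S : Type} {M : CoxeterMatrix S} {R : Set S}

theorem FOLD_two (hF : Flex M R) {s t : S} (h : s ≠ t) (h0 : M s t ≠ 0)
    (hR : ¬ (s ∈ R ∧ t ∈ R)) : M s t = 2 := by
  by_cases hs : s ∈ R
  · rw [M.symmetric] at h0 ⊢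
    exact (hF t (fun ht => hR ⟨hs, ht⟩) s h).resolve_left h0
  · exact (hF s hs t h.symm).resolve_left h0

theorem FOLD_ne {s t : S} (h : M s t = 2) : s ≠ t := by
  rintro rfl
  rw [M.diagonal] at h
  omega

theorem FOLD_braid (E : Dbl M R) (hF : Flex M R) (T : Set S) {K : Type} [Group K] (y : E.B → K)
    (h1 : ∀ s ∈ T, ∀ t ∈ T, s ∈ R → t ∈ R → s ≠ t → M s t ≠ 0 →
      alt (y (E.a s)) (y (E.a t)) (M s t) = alt (y (E.a t)) (y (E.a s)) (M s t))
    (h2 : ∀ i j, E.p i ∈ T → E.p j ∈ T → M (E.p i) (E.p j) = 2 → y i * y j = y j * y i) :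
    Braid E.N (E.p ⁻¹' T) y := by
  intro i hi j hj hij h0
  have k : ∀ i, E.p i ∈ R → i = E.a (E.p i) := fun i h =>
    (E.all i).elim id fun e => e.trans ((E.ab _).2 h).symm
  have hp : E.p i ≠ E.p j := fun e => by
    have hr : E.p i ∉ R := fun h => hij ((k i h).trans ((congrArg E.a e).trans (k j (e ▸ h)).symm))
    have := E.inf _ hr
    rcases E.all i with a | a <;> rcases E.all j with b | b <;> rw [← e] at b
    · exact hij (a.trans b.symm)
    · exact h0 (by rwa [← a, ← b] at this)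
    · exact h0 (by rwa [E.N.symmetric, ← a, ← b] at this)
    · exact hij (a.trans b.symm)
  rw [E.lab i j hp] at h0 ⊢
  by_cases hR : E.p i ∈ R ∧ E.p j ∈ R
  · have := h1 _ hi _ hj hR.1 hR.2 hp h0
    rwa [← k i hR.1, ← k j hR.2] at this
  · have := FOLD_two hF hp h0 hR
    rw [this, FOLD_alt_two, FOLD_alt_two, h2 i j hi hj this]

open Classical in
/-- the sign vector of a generator of the double -/
noncomputable def FOLD_e (R : Set S) (s : S) : S → ℤˣ := fun t => if s ∉ R ∧ t = s then -1 else 1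

theorem FOLD_e_sq (s : S) : FOLD_e R s * FOLD_e R s = 1 := funext fun _ => Int.units_mul_self _

theorem FOLD_e_self {s : S} (h : s ∉ R) : FOLD_e R s s = -1 := if_pos ⟨h, rfl⟩

theorem FOLD_e_ne {s t : S} (h : t ≠ s) : FOLD_e R s t = 1 := if_neg fun e => h e.2

theorem FOLD_e_mem {s : S} (h : s ∈ R) : FOLD_e R s = 1 := funext fun _ => if_neg fun e => e.1 h

theorem FOLD_ext {G K : Type} [Group G] [Monoid K] {x : S → G} (h : gp x Set.univ = ⊤)
    {φ ψ : G →* K} (e : ∀ s, φ (x s) = ψ (x s)) : φ = ψ :=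
  MonoidHom.eq_of_eqOn_dense h (by rintro _ ⟨s, -, rfl⟩; exact e s)

theorem FOLD_theta {G : Type} [Group G] {x : S → G} (h : IsDyer M R x) (hF : Flex M R) :
    ∃ θ : (S → ℤˣ) →* MulAut G, ∀ ε s, θ ε (x s) = x s ^ ((ε s : ℤˣ) : ℤ) := by
  have k : ∀ ε : S → ℤˣ, ∃ φ : G →* G, ∀ s, φ (x s) = x s ^ ((ε s : ℤˣ) : ℤ) := fun ε => by
    refine h.lift G _ (fun s hs t ht hst h0 => ?_) fun s hs => ?_
    · have hb := h.braid s hs t ht hst h0
      by_cases hR : s ∈ R ∧ t ∈ R
      · simpa only [FOLD_sq (h.sqr s hR.1), FOLD_sq (h.sqr t hR.2)] using hb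
      · rw [FOLD_two hF hst h0 hR, FOLD_alt_two, FOLD_alt_two] at hb ⊢
        exact (Commute.zpow_zpow hb _ _).eq
    · rw [FOLD_sq (h.sqr s hs), h.sqr s hs]
  choose φ hφ using k
  have m : ∀ ε δ, (φ ε).comp (φ δ) = φ (ε * δ) := fun ε δ => FOLD_ext h.top fun s => by
    rw [MonoidHom.comp_apply, hφ, map_zpow, hφ, hφ, ← zpow_mul, Pi.mul_apply, Units.val_mul]
  have o : φ 1 = MonoidHom.id G := FOLD_ext h.top fun s => by simp [hφ]
  exact ⟨MonoidHom.mk' (fun ε => (φ ε).toMulEquiv (φ ε⁻¹) (by rw [m, inv_mul_cancel, o])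
    (by rw [m, mul_inv_cancel, o])) fun ε δ =>
      MulEquiv.ext fun g => (DFunLike.congr_fun (m ε δ) g).symm, hφ⟩

theorem FOLD_thm (_h1 : St_D1) : St_FOLD := by
  intro S G _ M R x E ι h hF hι
  classical
  obtain ⟨θ, hθ⟩ := FOLD_theta h hF
  let g : E.B → G := fun i => if i = E.a (E.p i) then x (E.p i) else 1
  let y : E.B → SemidirectProduct G (S → ℤˣ) θ := fun i => ⟨g i, FOLD_e R (E.p i)⟩
  have g1 : ∀ ε i, θ ε (g i) = g i ^ ((ε (E.p i) : ℤˣ) : ℤ) := fun ε i => by
    simp only [g]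
    split_ifs
    · exact hθ _ _
    · simp
  have ga : ∀ s, g (E.a s) = x s := fun s => by simp only [g, E.pa, if_true]
  have gb : ∀ s, s ∉ R → g (E.b s) = 1 := fun s hs => by
    simp only [g, E.pb]
    exact if_neg fun e => hs ((E.ab s).1 e.symm)
  have y1 : ∀ i, y i * y i = 1 := fun i => by
    refine SemidirectProduct.ext ?_ (FOLD_e_sq _)
    change g i * θ (FOLD_e R (E.p i)) (g i) = 1
    rw [g1]
    by_cases hr : E.p i ∈ R
    · rw [FOLD_e_mem hr]
      simp only [g]
      split_ifs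
      · simpa using h.sqr _ hr
      · simp
    · simp [FOLD_e_self hr]
  have ya : ∀ s ∈ R, y (E.a s) = SemidirectProduct.inl (x s) := fun s hs =>
    SemidirectProduct.ext (ga s) (by simp only [y, E.pa, FOLD_e_mem hs]; rfl)
  have y2 := FOLD_braid E hF Set.univ y (fun s hs t ht h1 h2 h3 h4 => by
    rw [ya s h1, ya t h2, ← map_alt, ← map_alt, h.braid s hs t ht h3 h4]) fun i j _ _ h2 => by
      have hne := FOLD_ne h2
      have hb := h.braid _ trivial _ trivial hne (by omega)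
      rw [h2, FOLD_alt_two, FOLD_alt_two] at hb
      refine SemidirectProduct.ext ?_ (mul_comm _ _)
      change g i * θ (FOLD_e R (E.p i)) (g j) = g j * θ (FOLD_e R (E.p j)) (g i)
      rw [g1, g1, FOLD_e_ne hne, FOLD_e_ne hne.symm]
      simp only [g]
      split_ifs <;> simp [hb]
  let Φ := E.N.toCoxeterSystem.lift ⟨y, fun i j => by
    by_cases hij : i = j
    · simp [hij, y1]
    by_cases h0 : E.N i j = 0
    · simp [h0]
    rw [FOLD_pow _ _ _ (y1 i) (y1 j), y2 i trivial j trivial hij h0, mul_inv_cancel]⟩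
  have Φ1 : ∀ i, Φ (sr E.N i) = y i := fun i => E.N.toCoxeterSystem.lift_apply_simple _ i
  have Φ2 : Φ.comp ι = SemidirectProduct.inl := FOLD_ext h.top fun s => by
    rw [MonoidHom.comp_apply]
    by_cases hs : s ∈ R
    · rw [hι.1 s hs, Φ1, ya s hs]
    · rw [hι.2 s hs, map_mul, Φ1, Φ1]
      refine SemidirectProduct.ext ?_ ?_
      · change g _ * θ _ (g _) = x s
        rw [ga, gb s hs, map_one, mul_one]
      · change FOLD_e R _ * FOLD_e R _ = 1
        rw [E.pa, E.pb, FOLD_e_sq]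
  have Φ3 : ∀ g, Φ (ι g) = SemidirectProduct.inl g := DFunLike.congr_fun Φ2
  refine ⟨fun c => (Φ c).left, θ.comp (SemidirectProduct.rightHom.comp Φ),
    SemidirectProduct.rightHom.comp Φ, fun c c' => by rw [map_mul]; rfl,
    fun g => by simp [Φ3], fun c hc => by rw [MonoidHom.comp_apply, hc, map_one],
    fun c s => hθ _ s, fun s => by rw [Φ1]; exact ga s, fun s hs => by rw [Φ1]; exact gb s hs,
    fun i hi => ?_, fun i s hs => ?_⟩
  · rw [MonoidHom.comp_apply, Φ1]
    exact FOLD_e_self hi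
  · rw [MonoidHom.comp_apply, Φ1]
    exact if_neg fun e => hs.elim (fun h => e.1 (e.2 ▸ h)) fun h => h e.2

end Pool.Agent.Lib.MP_1b8ce0_al.T
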