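import Mathlib
import Pool.Agent.Lib.MP_1b8ce0_al.T.StsA

/-! Free products of cyclic groups through trees. -/

set_option linter.unusedSectionVars false
set_option linter.dupNamespace false

namespace Pool.Agent.Lib.MP_1b8ce0_al.T

open Pool.Agent.Lib.MP_6d85b4_al

section

variable {S G : Type} [Group G] {M : CoxeterMatrix S} {R : Set S} {x : S → G}

theorem FREE_empty (x : S → G) : gp x ∅ = ⊥ := by simp [gp]

theorem FREE_single {s : S} {g : G} (h : g ∈ gp x {s}) : ∃ n : ℤ, x s ^ n = g := by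
  rw [gp, Set.image_singleton] at h
  exact Subgroup.mem_closure_singleton.1 h

theorem FREE_sq {a : G} (h : a * a = 1) (n : ℤ) : a ^ n = 1 ∨ a ^ n = a := by
  have h2 : a ^ (2 : ℤ) = 1 := by rw [zpow_two, h]
  rcases Int.even_or_odd' n with ⟨k, rfl | rfl⟩
  · left
    rw [zpow_mul, h2, one_zpow]
  · right
    rw [zpow_add, zpow_mul, h2, one_zpow, one_mul, zpow_one]

/-- membership in a standard subgroup of a standard subgroup -/
theorem FREE_sub {T B : Set S} (hB : B ⊆ T) (g : gp x T) :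
    g ∈ gp (fun s : T => (⟨x s, gp_mem x s.2⟩ : gp x T)) {s | s.1 ∈ B} ↔ (g : G) ∈ gp x B := by
  have e : (gp (fun s : T => (⟨x s, gp_mem x s.2⟩ : gp x T)) {s | s.1 ∈ B}).map
      (gp x T).subtype = gp x B := by
    refine (MonoidHom.map_closure _ _).trans (congrArg Subgroup.closure ?_)
    ext y
    constructor
    · rintro ⟨_, ⟨s, hs, rfl⟩, rfl⟩
      exact ⟨s, hs, rfl⟩
    · rintro ⟨s, hs, rfl⟩
      exact ⟨_, ⟨⟨s, hB hs⟩, hs, rfl⟩, rfl⟩
  rw [← e]
  exact (Subgroup.mem_map_iff_mem (gp x T).subtype_injective).symm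

/-- the tree lemmas for a free splitting of a standard subgroup -/
structure FREE_Pack (x : S → G) (T A : Set S) : Prop where
  mal : ∀ y, y ≠ 1 → ∀ h ∈ gp x T, ∀ h' ∈ gp x T, y ∈ cj h (gp x A) → y ∈ cj h' (gp x A) →
    h⁻¹ * h' ∈ gp x A
  tors : ∀ g ∈ gp x T, IsOfFinOrder g →
    ∃ h ∈ gp x T, g ∈ cj h (gp x A) ∨ g ∈ cj h (gp x (T \ A))
  hyp : ∀ z ∈ gp x T, (∃ h ∈ gp x T, z ∈ cj h (gp x A) ∨ z ∈ cj h (gp x (T \ A))) ∨
    ∀ g1 ∈ gp x T, ∀ g2 ∈ gp x T, Commute g1 z → Commute g2 z → Commute g1 g2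

theorem FREE_Pack.cent {T A : Set S} (P : FREE_Pack x T A) {y h u : G} (hy : y ≠ 1)
    (hh : h ∈ gp x T) (hu : u ∈ gp x T) (hyA : y ∈ cj h (gp x A)) (hc : Commute u y) :
    u ∈ cj h (gp x A) := by
  have := P.mal y hy h hh (u * h) (mul_mem hu hh) hyA (by
    rw [mem_cj] at hyA ⊢
    have e : (u * h)⁻¹ * y * (u * h) = h⁻¹ * y * h := by
      rw [mul_inv_rev, mul_assoc h⁻¹, hc.inv_left.eq]
      group
    rwa [e])
  rwa [mem_cj, mul_assoc]

theorem FREE_pack (h2 : St_TT) {T A : Set S} (hT : Indep M T) (hA : A ⊆ T)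
    (hd : IsDyer (res M T) {s | s.1 ∈ R} (fun s : T => (⟨x s, gp_mem x s.2⟩ : gp x T))) :
    FREE_Pack x T A := by
  obtain ⟨t1, -⟩ := h2 T (gp x T) (res M T) _ _ {s | s.1 ∈ A} {s | s.1 ∈ T \ A} hd
    (by
      ext s
      by_cases h : s.1 ∈ A <;> simp [h])
    (by
      intro s t hs ht
      refine hT s s.2 t t.2 fun e => ?_
      have hs' : s.1 ∈ A := by
        by_contra h
        exact hs ⟨s.2, h⟩
      rw [e] at hs'
      exact ht hs')
  have e0 : ({s | s.1 ∈ A} ∩ {s | s.1 ∈ T \ A} : Set T) = ∅ := by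
    ext s
    by_cases h : s.1 ∈ A <;> simp [h]
  rw [e0, FREE_empty] at t1
  have c1 : ∀ g h : gp x T, g ∈ cj h (gp (fun s : T => (⟨x s, gp_mem x s.2⟩ : gp x T))
      {s | s.1 ∈ A}) ↔ (g : G) ∈ cj (h : G) (gp x A) := fun g h => by
    rw [mem_cj, mem_cj, FREE_sub hA]
    rfl
  have c2 : ∀ g h : gp x T, g ∈ cj h (gp (fun s : T => (⟨x s, gp_mem x s.2⟩ : gp x T))
      {s | s.1 ∈ T \ A}) ↔ (g : G) ∈ cj (h : G) (gp x (T \ A)) := fun g h => by
    rw [mem_cj, mem_cj, FREE_sub Set.diff_subset]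
    rfl
  have c0 : ∀ g k : gp x T, g ∈ cj k ⊥ → g = 1 := fun g k hg => by
    rw [mem_cj, Subgroup.mem_bot] at hg
    calc g = k * (k⁻¹ * g * k) * k⁻¹ := by group
      _ = 1 := by rw [hg]; group
  refine ⟨fun y hy h hh h' hh' a b => ?_, fun g hg hf => ?_, fun z hz => ?_⟩
  · have hyT : y ∈ gp x T := by
      have := mul_mem (mul_mem hh (gp_mono x hA a)) (inv_mem hh)
      simpa [mul_assoc] using this
    have := t1.uniq1 ⟨y, hyT⟩ ⟨h, hh⟩ ⟨h', hh'⟩
      (fun k hk => hy (congrArg Subtype.val (c0 _ k hk))) ((c1 _ _).2 a) ((c1 _ _).2 b)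
    exact (FREE_sub hA _).1 this
  · have hf' : IsOfFinOrder ((gp x T).subtype ⟨g, hg⟩) := hf
    obtain ⟨h, H⟩ := t1.tors ⟨g, hg⟩ ((gp x T).subtype_injective.isOfFinOrder_iff.1 hf')
    exact ⟨h, h.2, H.imp (c1 _ _).1 (c2 _ _).1⟩
  · by_cases he : Ell (gp (fun s : T => (⟨x s, gp_mem x s.2⟩ : gp x T)) {s | s.1 ∈ A})
        (gp (fun s : T => (⟨x s, gp_mem x s.2⟩ : gp x T)) {s | s.1 ∈ T \ A}) ⟨z, hz⟩
    · obtain ⟨h, H⟩ := he
      exact Or.inl ⟨h, h.2, H.imp (c1 _ _).1 (c2 _ _).1⟩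
    · obtain ⟨h, Tr, a, -, b, -⟩ := t1.hyp _ he
      refine Or.inr fun g1 k1 g2 k2 e1 e2 => ?_
      have := c0 _ _ (b ⟨g1, k1⟩ (a _ (Subtype.ext e1.eq)) ⟨g2, k2⟩ (a _ (Subtype.ext e2.eq)))
      have e : g1 * g2 * g1⁻¹ * g2⁻¹ = 1 := congrArg Subtype.val this
      rw [mul_inv_eq_one, mul_inv_eq_iff_eq_mul] at e
      exact e

theorem FREE_conj {a b : G} (h : G) (c : Commute a b) : Commute (h⁻¹ * a * h) (h⁻¹ * b * h) := by
  have e : ∀ p q : G, h⁻¹ * p * h * (h⁻¹ * q * h) = h⁻¹ * (p * q) * h := fun p q => by group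
  rw [commute_iff_eq, e, e, c.eq]

theorem FREE_conj' {a b : G} (h : G) (c : Commute (h⁻¹ * a * h) (h⁻¹ * b * h)) : Commute a b := by
  have := FREE_conj h⁻¹ c
  simpa [mul_assoc] using this

theorem FREE_ne {g : G} (h : G) (hg : g ≠ 1) : h⁻¹ * g * h ≠ 1 := fun e =>
  hg (calc g = h * (h⁻¹ * g * h) * h⁻¹ := by group
    _ = 1 := by rw [e]; group)

theorem FREE_indep {T U : Set S} (hT : Indep M T) (h : U ⊆ T) : Indep M U :=
  fun s hs t ht => hT s (h hs) t (h ht)

theorem FREE_cen (P : ∀ T A, Indep M T → A ⊆ T → FREE_Pack x T A) {T : Set S} (hf : T.Finite) :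
    Indep M T → ∀ g ∈ gp x T, g ≠ 1 → ∀ g1 ∈ gp x T, ∀ g2 ∈ gp x T, Commute g1 g →
      Commute g2 g → Commute g1 g2 := by
  induction T, hf using Set.Finite.induction_on with
  | empty =>
    intro _ g hg hne
    rw [FREE_empty, Subgroup.mem_bot] at hg
    exact absurd hg hne
  | @insert t T ht _ ih =>
    intro hT g hg hne g1 k1 g2 k2 e1 e2
    have P1 := P _ {t} hT (by simp)
    have P2 := P _ T hT (Set.subset_insert _ _)
    have e : insert t T \ {t} = T := by simp [ht]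
    rcases P1.hyp g hg with ⟨h, hh, H | H⟩ | H
    · obtain ⟨n1, a1⟩ := FREE_single (P1.cent hne hh k1 H e1)
      obtain ⟨n2, a2⟩ := FREE_single (P1.cent hne hh k2 H e2)
      refine FREE_conj' h ?_
      rw [← a1, ← a2]
      exact Commute.zpow_zpow_self _ _ _
    · rw [e] at H
      exact FREE_conj' h (ih (FREE_indep hT (Set.subset_insert _ _)) _ H (FREE_ne h hne) _
        (P2.cent hne hh k1 H e1) _ (P2.cent hne hh k2 H e2) (FREE_conj h e1) (FREE_conj h e2))
    · exact H g1 k1 g2 k2 e1 e2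

theorem FREE_tor (P : ∀ T A, Indep M T → A ⊆ T → FREE_Pack x T A) (hs : ∀ s ∈ R, x s * x s = 1)
    (hi : ∀ s, s ∉ R → ¬ IsOfFinOrder (x s)) {T : Set S} (hf : T.Finite) :
    Indep M T → ∀ g ∈ gp x T, IsOfFinOrder g →
      g = 1 ∨ ∃ t ∈ T, t ∈ R ∧ ∃ u ∈ gp x T, g = u * x t * u⁻¹ := by
  induction T, hf using Set.Finite.induction_on with
  | empty =>
    intro _ g hg _
    rw [FREE_empty, Subgroup.mem_bot] at hg
    exact Or.inl hg
  | @insert t T ht _ ih =>
    intro hT g hg ho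
    have e : insert t T \ {t} = T := by simp [ht]
    obtain ⟨h, hh, H⟩ := (P _ {t} hT (by simp)).tors g hg ho
    have eg : g = h * (h⁻¹ * g * h) * h⁻¹ := by group
    have ho' : IsOfFinOrder (h⁻¹ * g * h) := by
      have := (MulAut.conj h⁻¹).toMonoidHom.isOfFinOrder ho
      simpa using this
    rcases H with H | H
    · obtain ⟨n, a⟩ := FREE_single H
      by_cases hR : t ∈ R
      · rcases FREE_sq (hs t hR) n with b | b
        · left
          rw [eg, ← a, b]
          group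
        · exact Or.inr ⟨t, Set.mem_insert _ _, hR, h, hh, by rw [← b, a, ← eg]⟩
      · left
        rw [← a] at ho'
        obtain ⟨m, hm, b⟩ := isOfFinOrder_iff_zpow_eq_one.1 ho'
        have hn : n = 0 := by
          by_contra hn
          exact hi t hR (isOfFinOrder_iff_zpow_eq_one.2
            ⟨n * m, mul_ne_zero hn hm, by rw [zpow_mul, b]⟩)
        rw [eg, ← a, hn]
        group
    · rw [e] at H
      rcases ih (FREE_indep hT (Set.subset_insert _ _)) _ H ho' with b | ⟨s, s1, s2, u, hu, b⟩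
      · left
        rw [eg, b]
        group
      · refine Or.inr ⟨s, Set.mem_insert_of_mem _ s1, s2, h * u,
          mul_mem hh (gp_mono x (Set.subset_insert _ _) hu), ?_⟩
        rw [eg, b]
        group

theorem FREE_img {T A : Set S} (hA : A ⊆ T) {H : Type} [Group H] (φ : gp x T →* H) (f : S → H)
    (hφ : ∀ s (h : x s ∈ gp x T), s ∈ T → φ ⟨x s, h⟩ = f s) (K : Subgroup H)
    (hK : ∀ s ∈ A, f s ∈ K) (g : gp x T) (hg : (g : G) ∈ gp x A) : φ g ∈ K := by
  have : gp x A ≤ (K.comap φ).map (gp x T).subtype := by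
    refine gp_le.2 fun s hs => ⟨⟨x s, gp_mem x (hA hs)⟩, ?_, rfl⟩
    change φ _ ∈ K
    rw [hφ s _ (hA hs)]
    exact hK s hs
  exact (Subgroup.mem_map_iff_mem (gp x T).subtype_injective).1 (this hg)

end

theorem FREE_thm (h1 : St_D1) (h2 : St_TT) (h3 : St_RESTR) (h4 : St_DPAR) : St_FREE := by
  intro S G _ _ _ M R x hD T hT
  have dp := h4 S G M R x hD
  have d1 := h1.2 S G M R x hD.dy
  have P : ∀ T A, Indep M T → A ⊆ T → FREE_Pack x T A := fun T A a b =>
    FREE_pack h2 a b (h3 S G M R x hD.dy hD.fl T).2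
  have lift : ∀ (H : Type) [Group H] (f : S → H), (∀ s, f s * f s = 1) →
      ∃ φ : gp x T →* H, ∀ s (h : x s ∈ gp x T), s ∈ T → φ ⟨x s, h⟩ = f s := fun H _ f hf =>
    (h3 S G M R x hD.dy hD.fl T).1 H f (fun s hs t ht e e' => absurd (hT s hs t ht e) e')
      fun s _ _ => hf s
  have cen := FREE_cen P T.toFinite hT
  have tor := FREE_tor P hD.dy.sqr dp.inf T.toFinite hT
  refine ⟨cen, tor, ?_, ?_, ?_, ?_, ?_⟩
  · intro g hg ho hne h hh hc
    rcases tor g hg ho with a | ⟨t, ht, hR, u, hu, a⟩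
    · exact absurd a hne
    have hg' : g ∈ cj u (gp x {t}) := by
      rw [a, conj_mem_cj]
      exact gp_mem x rfl
    obtain ⟨n, b⟩ := FREE_single ((P T {t} hT (by simpa using ht)).cent hne hu hh hg' hc)
    have eh : h = u * (u⁻¹ * h * u) * u⁻¹ := by group
    rcases FREE_sq (hD.dy.sqr t hR) n with c | c
    · left
      rw [eh, ← b, c]
      group
    · right
      rw [eh, ← b, c, a]
  · intro A hA g hg y hy hne hy'
    have := (P T A hT hA).mal y hne 1 (one_mem _) g hg (by rwa [cj_one]) hy'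
    simpa using this
  · intro A hA t ht u hu h
    by_contra hn
    obtain ⟨φ, hφ⟩ := lift ℤˣ (fun s => if s = t then -1 else 1) fun s => by
      split_ifs <;> simp
    have := FREE_img hA φ _ hφ ⊥ (fun s hs => by
      rw [if_neg fun e => hn (by rwa [← e])]
      exact one_mem _) ((⟨u, hu⟩ : gp x T)⁻¹ * (⟨x t, gp_mem x ht⟩ : gp x T) * (⟨u, hu⟩ : gp x T))
      (mem_cj.1 h)
    rw [Subgroup.mem_bot, map_mul, map_mul, map_inv, hφ t _ ht, if_pos rfl, mul_right_comm,
      inv_mul_cancel, one_mul] at this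
    exact absurd this (by decide)
  · intro h U h2T hc
    obtain ⟨u, hu, T0, hT0, e⟩ := dp.kil h T U
    have hsub : T ⊆ T0 := by
      intro t ht
      by_contra hn
      obtain ⟨t', ht', hne⟩ : ∃ t' ∈ T, t' ≠ t := by
        obtain ⟨a, ha, b, hb, hab⟩ := h2T
        by_cases ea : a = t
        · exact ⟨b, hb, fun eb => hab (ea.trans eb.symm)⟩
        · exact ⟨a, ha, ea⟩
      obtain ⟨φ, hφ⟩ := lift (Equiv.Perm (Fin 3))
        (fun s => if s = t then Equiv.swap 0 1 else Equiv.swap 1 2) fun s => by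
          split_ifs <;> simp
      have hm : cm (x t) (x t') ∈ gp x T ⊓ cj h (gp x U) :=
        Subgroup.mem_inf.2 ⟨mul_mem (mul_mem (mul_mem (gp_mem x ht) (gp_mem x ht'))
          (inv_mem (gp_mem x ht))) (inv_mem (gp_mem x ht')), hc _ (gp_mem x ht) _ (gp_mem x ht')⟩
      rw [e] at hm
      have := FREE_img hT0 φ _ hφ (MulAction.stabilizer (Equiv.Perm (Fin 3)) (0 : Fin 3))
        (fun s hs => by
          rw [if_neg fun e => hn (by rwa [← e]), MulAction.mem_stabilizer_iff]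
          decide)
        ((⟨u, hu⟩ : gp x T)⁻¹ * cm (⟨x t, gp_mem x ht⟩ : gp x T) (⟨x t', gp_mem x ht'⟩ : gp x T) *
          (⟨u, hu⟩ : gp x T)) (mem_cj.1 hm)
      simp only [cm, map_mul, map_inv, hφ t _ ht, hφ t' _ ht', if_pos, if_neg hne,
        MulAction.mem_stabilizer_iff] at this
      revert this
      generalize φ ⟨u, hu⟩ = σ
      revert σ
      decide
    have hle : gp x T ≤ cj h (gp x U) := by
      rw [Set.Subset.antisymm hT0 hsub, cj_self hu] at e
      exact inf_eq_left.1 e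
    refine ⟨hle, (dp.tl T U h⁻¹ hT h2T fun g hg => ?_).1⟩
    rw [mem_cj, inv_inv] at hg
    exact conj_mem_cj.1 (hle hg)
  · intro h2T g
    have hp : ∀ n ∈ gp x (perp M T), ∀ v ∈ gp x T, Commute n v :=
      d1.perp (perp M T) T fun p hp l hl => hp l hl
    refine ⟨fun hg => ?_, fun hg t ht => hp g hg _ (gp_mem x ht)⟩
    have hall : gp x T ≤ Subgroup.centralizer {g} :=
      gp_le.2 fun s hs => Subgroup.mem_centralizer_singleton_iff.2 (hg s hs).symm.eq
    obtain ⟨-, v, hv, n, hn, e⟩ := dp.tl T T g hT h2T fun y hy => by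
      have c := Subgroup.mem_centralizer_singleton_iff.1 (hall hy)
      have e : y = g⁻¹ * y * g := by
        calc y = g * (g⁻¹ * y * g) * g⁻¹ := by group
          _ = g⁻¹ * y * g := by rw [← c]; group
      rw [e]
      exact hy
    have hv1 : v = 1 := by
      by_contra hne
      obtain ⟨a, ha, b, hb, hab⟩ := h2T
      have ev : v = g * n⁻¹ := by rw [e]; group
      have cv : ∀ t ∈ T, Commute (x t) v := fun t ht => by
        rw [ev]
        exact (hg t ht).symm.mul_right (hp n hn _ (gp_mem x ht)).symm.inv_right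
      refine dp.ncomm a b hab ?_ (cen v hv hne _ (gp_mem x ha) _ (gp_mem x hb) (cv a ha) (cv b hb))
      rw [hT a ha b hb hab]
      decide
    rw [e, hv1, one_mul]
    exact hn

end Pool.Agent.Lib.MP_1b8ce0_al.T
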