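import Mathlib
import Pool.Agent.Lib.MP_1b8ce0_al.T.StsB

set_option linter.unusedSectionVars false
set_option linter.dupNamespace false

namespace Pool.Agent.Lib.MP_1b8ce0_al.T

open Pool.Agent.Lib.MP_6d85b4_al Filter

variable {B : Type} [Fintype B] [DecidableEq B] {N : CoxeterMatrix B}

/-- a triangle of walls with its three vertices -/
structure FT_T (N : CoxeterMatrix B) (K : Subgroup N.Group) (a e f : B → ℝ) (p q r : Pt B) :
    Prop where
  ka : EK N K a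
  ke : EK N K e
  kf : EK N K f
  ip : InI N p
  iq : InI N q
  ir : InI N r
  pa : p a = 0
  pe : p e = 0
  pf : p f ≠ 0
  qe : q e = 0
  qf : q f = 0
  qa : q a ≠ 0
  ra : r a = 0
  rf : r f = 0
  re : r e ≠ 0

/-- the roots that separate two of the vertices -/
def FT_D (N : CoxeterMatrix B) (p q r : Pt B) : Set (B → ℝ) :=
  {x | IsRoot N x ∧ (0 < p x ∨ 0 < q x ∨ 0 < r x) ∧ (p x < 0 ∨ q x < 0 ∨ r x < 0)}

/-- there is a smaller triangle -/
def FT_small (N : CoxeterMatrix B) (K : Subgroup N.Group) (D : Set (B → ℝ)) : Prop :=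
  ∃ a e f p q r, FT_T N K a e f p q r ∧ FT_D N p q r ⊂ D

variable {K : Subgroup N.Group} {a e f : B → ℝ} {p q r : Pt B}

theorem FT_swap (T : FT_T N K a e f p q r) : FT_T N K e a f p r q :=
  ⟨T.ke, T.ka, T.kf, T.ip, T.ir, T.iq, T.pe, T.pa, T.pf, T.ra, T.rf, T.re, T.qe, T.qf, T.qa⟩

theorem FT_rot (T : FT_T N K a e f p q r) : FT_T N K e f a q r p :=
  ⟨T.ke, T.kf, T.ka, T.iq, T.ir, T.ip, T.qe, T.qf, T.qa, T.rf, T.ra, T.re, T.pe, T.pa, T.pf⟩

theorem FT_D_swap (p q r : Pt B) : FT_D N p r q = FT_D N p q r := by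
  ext x
  simp only [FT_D, Set.mem_ofPred_eq]
  tauto

theorem FT_D_rot (p q r : Pt B) : FT_D N q r p = FT_D N p q r := by
  ext x
  simp only [FT_D, Set.mem_ofPred_eq]
  tauto

theorem FT_root (h : EK N K a) : IsRoot N a := by
  obtain ⟨g, _, hg⟩ := h
  exact hg.1

theorem FT_neg (a2 : C2a N) (h : EK N K (-a)) : EK N K a := by
  obtain ⟨g, hg, h⟩ := h
  exact ⟨g⁻¹, K.inv_mem hg, (a2.inv g a).mpr h⟩

theorem FT_fin (a1 : C1a N) (hp : InI N p) (hq : InI N q) (hr : InI N r) :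
    (FT_D N p q r).Finite := by
  have key : ∀ u : Pt B, InI N u →
      {x | IsRoot N x ∧ 0 < u x ∧ (p x < 0 ∨ q x < 0 ∨ r x < 0)}.Finite := by
    intro u hu
    refine ((a1.sep_fin u p hu hp).union ((a1.sep_fin u q hu hq).union
      (a1.sep_fin u r hu hr))).subset ?_
    rintro x ⟨h1, h2, h3 | h3 | h3⟩
    · exact Or.inl ⟨h1, h2.le, h3.le⟩
    · exact Or.inr (Or.inl ⟨h1, h2.le, h3.le⟩)
    · exact Or.inr (Or.inr ⟨h1, h2.le, h3.le⟩)
  refine ((key p hp).union ((key q hq).union (key r hr))).subset ?_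
  rintro x ⟨h1, h2 | h2 | h2, h3⟩
  · exact Or.inl ⟨h1, h2, h3⟩
  · exact Or.inr (Or.inl ⟨h1, h2, h3⟩)
  · exact Or.inr (Or.inr ⟨h1, h2, h3⟩)

theorem FT_ne {y : Pt B} {u v : B → ℝ} (hu : y u ≠ 0) (hv : y v = 0) : v ≠ u ∧ v ≠ -u :=
  ⟨fun h => hu (h ▸ hv), fun h => hu (by rw [h, map_neg, neg_eq_zero] at hv; exact hv)⟩

/-- a wall crossing a wall fixed by `h` is essential for `h` up to sign -/
theorem FT_ess (A : CA N) (hK : IsComm K) {h : N.Group} (hh : h ∈ K) (hinf : ¬ IsOfFinOrder h)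
    (hp : Per N h a) (he : EK N K e) (hc : Cross N a e) {y : Pt B} (hy : y e = 0) :
    ∃ e', Ess N h e' ∧ y e' = 0 := by
  obtain ⟨μ, hμ⟩ := A.a2.mu K e hK he
  obtain ⟨h1, h2, h3⟩ := hμ ⟨h, hh⟩
  rcases lt_trichotomy 0 (μ ⟨h, hh⟩).toAdd with h4 | h4 | h4
  · exact ⟨e, h1.mp h4, hy⟩
  · exact absurd (A.b2.per2 h a e hc hp (h3.mp h4.symm)) hinf
  · exact ⟨-e, h2.mp h4, by rw [map_neg, hy, neg_zero]⟩

/-- a wall cutting a side of the triangle is essential -/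
theorem FT_cut (A : CA N) {w g : N.Group} (hK : IsComm K) (hw : w ∈ K) (hg : g ∈ K)
    (hi : Ind2 g w) (T : FT_T N K a e f p q r) {x : B → ℝ} (hx : IsRoot N x) (h1 : p x < 0)
    (h2 : 0 < r x) : EK N K x := by
  obtain ⟨h, hh, hinf, hfix⟩ := A.a2.hfix K a g w hK hg hw hi T.ka
  have hp : Per N h a := ⟨1, one_pos, by rw [pow_one, hfix]⟩
  have hae := FT_ne T.qa T.qe
  have haf := FT_ne T.qa T.qf
  obtain ⟨e', he1, he2⟩ := FT_ess A hK hh hinf hp T.ke
    ⟨FT_root T.ka, FT_root T.ke, hae.1, hae.2, p, T.ip, T.pa, T.pe⟩ T.pe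
  obtain ⟨f', hf1, hf2⟩ := FT_ess A hK hh hinf hp T.kf
    ⟨FT_root T.ka, FT_root T.kf, haf.1, haf.2, r, T.ir, T.ra, T.rf⟩ T.rf
  by_cases c1 : Ess N h x
  · exact ⟨h, hh, c1⟩
  by_cases c2 : Ess N h (-x)
  · exact FT_neg A.a2 ⟨h, hh, c2⟩
  exfalso
  obtain ⟨ε, hε, hs⟩ := A.b2.line h a x hinf (FT_root T.ka) hp hx
    (fun E => by rw [E, T.pa] at h1; exact lt_irrefl _ h1)
    (fun E => by rw [E, map_neg, T.pa, neg_zero] at h1; exact lt_irrefl _ h1) c1 c2
  have h3 := hs e' p he1 T.ip T.pa he2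
  have h4 := hs f' r hf1 T.ir T.ra hf2
  rcases hε with rfl | rfl <;> linarith

/-- a zero of `x` between `u` and `p` -/
theorem FT_zero (a1 : C1a N) {u : Pt B} {x : B → ℝ} (hu : InI N u) (hp : InI N p) (h1 : 0 ≤ u x)
    (h2 : p x < 0) : ∃ z : Pt B, InI N z ∧ z x = 0 ∧ (∀ v, u v = 0 → p v = 0 → z v = 0) ∧
      (∀ v, u v ≠ 0 → p v = 0 → z v ≠ 0) ∧ (∀ v, 0 < z v → 0 < u v ∨ 0 < p v) ∧
      ∀ v, z v < 0 → u v < 0 ∨ p v < 0 := by
  obtain ⟨s, t, hs, ht, hst, hz, hz0⟩ := a1.zero u p x hu hp h1 h2.le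
  have hs0 : s ≠ 0 := by
    intro h0
    have ht1 : t = 1 := by linarith
    rw [h0, ht1] at hz0
    linarith
  have ev : ∀ v, (s • u + t • p) v = s * u v + t * p v := fun v => rfl
  refine ⟨s • u + t • p, hz, by rw [ev, hz0], fun v h3 h4 => ?_, fun v h3 h4 => ?_,
    fun v h3 => ?_, fun v h3 => ?_⟩
  · rw [ev, h3, h4, mul_zero, mul_zero, add_zero]
  · rw [ev, h4, mul_zero, add_zero]
    exact mul_ne_zero hs0 h3
  · by_contra hn
    rw [not_or, not_lt, not_lt] at hn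
    rw [ev] at h3
    nlinarith [mul_nonneg hs (neg_nonneg.mpr hn.1), mul_nonneg ht (neg_nonneg.mpr hn.2)]
  · by_contra hn
    rw [not_or, not_lt, not_lt] at hn
    rw [ev] at h3
    nlinarith [mul_nonneg hs hn.1, mul_nonneg ht hn.2]

theorem FT_step (A : CA N) {w g : N.Group} (hK : IsComm K) (hw : w ∈ K) (hg : g ∈ K)
    (hi : Ind2 g w) (T : FT_T N K a e f p q r) {x : B → ℝ} (hx : IsRoot N x) (h1 : p x < 0)
    (h2 : 0 < r x) (h3 : 0 ≤ q x) : FT_small N K (FT_D N p q r) := by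
  obtain ⟨z, iz, zx, z0, z1, zp, zn⟩ := FT_zero A.a1 T.ir T.ip h2.le h1
  obtain ⟨y, iy, yx, y0, y1, yp, yn⟩ := FT_zero A.a1 T.iq T.ip h3 h1
  refine ⟨a, e, x, p, y, z, ⟨T.ka, T.ke, FT_cut A hK hw hg hi T hx h1 h2, T.ip, iy, iz, T.pa, T.pe,
    h1.ne, y0 e T.qe T.pe, yx, y1 a T.qa T.pa, z0 a T.ra T.pa, zx, z1 e T.re T.pe⟩, ?_, ?_⟩
  · rintro v ⟨hv, hpos, hneg⟩
    refine ⟨hv, ?_, ?_⟩
    · rcases hpos with h | h | h
      · exact Or.inl h
      · exact (yp v h).elim (fun h => Or.inr (Or.inl h)) Or.inl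
      · exact (zp v h).elim (fun h => Or.inr (Or.inr h)) Or.inl
    · rcases hneg with h | h | h
      · exact Or.inl h
      · exact (yn v h).elim (fun h => Or.inr (Or.inl h)) Or.inl
      · exact (zn v h).elim (fun h => Or.inr (Or.inr h)) Or.inl
  · intro hsub
    obtain ⟨_, hpos, _⟩ := hsub ⟨hx, Or.inr (Or.inr h2), Or.inl h1⟩
    rcases hpos with h | h | h <;> linarith

theorem FT_stepA (A : CA N) {w g : N.Group} (hK : IsComm K) (hw : w ∈ K) (hg : g ∈ K)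
    (hi : Ind2 g w) (T : FT_T N K a e f p q r) {x : B → ℝ} (hx : IsRoot N x) (h1 : p x < 0)
    (h2 : 0 ≤ q x) (h3 : 0 ≤ r x) (h4 : 0 < q x ∨ 0 < r x) : FT_small N K (FT_D N p q r) := by
  rcases h4 with h4 | h4
  · rw [← FT_D_swap]
    exact FT_step A hK hw hg hi (FT_swap T) hx h1 h4 h3
  · exact FT_step A hK hw hg hi T hx h1 h4 h2

theorem FT_stepB (A : CA N) {w g : N.Group} (hK : IsComm K) (hw : w ∈ K) (hg : g ∈ K)
    (hi : Ind2 g w) (T : FT_T N K a e f p q r) {x : B → ℝ} (hx : x ∈ FT_D N p q r) :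
    FT_small N K (FT_D N p q r) := by
  obtain ⟨hx, hpos, hneg⟩ := hx
  have hx' := A.a0.root_neg x hx
  have s1 := fun {x : B → ℝ} => FT_stepA A hK hw hg hi T (x := x)
  have s2 := fun {x : B → ℝ} => FT_stepA A hK hw hg hi (FT_rot T) (x := x)
  have s3 := fun {x : B → ℝ} => FT_stepA A hK hw hg hi (FT_rot (FT_rot T)) (x := x)
  rw [FT_D_rot] at s2
  rw [FT_D_rot, FT_D_rot] at s3
  have t1 := s1 hx'
  have t2 := s2 hx'
  have t3 := s3 hx'
  simp only [map_neg, neg_lt_zero, neg_nonneg, neg_pos] at t1 t2 t3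
  rcases lt_or_ge (p x) 0 with hp | hp <;> rcases lt_or_ge (q x) 0 with hq | hq <;>
    rcases lt_or_ge (r x) 0 with hr | hr
  · rcases hpos with h | h | h <;> linarith
  · refine t3 ?_ hp.le hq.le (Or.inl hp)
    rcases hpos with h | h | h <;> linarith
  · refine t2 ?_ hr.le hp.le (Or.inl hr)
    rcases hpos with h | h | h <;> linarith
  · refine s1 hx hp hq hr ?_
    rcases hpos with h | h | h
    · linarith
    · exact Or.inl h
    · exact Or.inr h
  · refine t1 ?_ hq.le hr.le (Or.inl hq)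
    rcases hpos with h | h | h <;> linarith
  · refine s2 hx hq hr hp ?_
    rcases hpos with h | h | h
    · exact Or.inr h
    · linarith
    · exact Or.inl h
  · refine s3 hx hr hp hq ?_
    rcases hpos with h | h | h
    · exact Or.inl h
    · exact Or.inr h
    · linarith
  · rcases hneg with h | h | h <;> linarith

theorem FT_supp {u : Pt B} {v : B → ℝ} (h : Supp (Zs u) v) : u v = 0 := by
  have e : v = ∑ i, v i • al i := by
    funext j
    simp [al, Finset.sum_apply, Pi.single_apply]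
  rw [e, map_sum]
  refine Finset.sum_eq_zero fun i _ => ?_
  rw [map_smul, smul_eq_mul]
  by_cases hi : i ∈ Zs u
  · rw [show u (al i) = 0 from hi, mul_zero]
  · rw [h i hi, zero_mul]

/-- a wall through two different vertices of the chamber is a wall of the chamber -/
theorem FT_simple (A : CA N) {u v : Pt B} (iu : InI N u) (cu : Cham u) (cv : Cham v)
    (ha : IsRoot N a) (he : IsRoot N e) (ua : u a = 0) (va : v a = 0) (ue : u e = 0)
    (ve : v e ≠ 0) : ∃ i, i ∈ Zs u ∧ i ∈ Zs v ∧ (a = al i ∨ a = -al i) := by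
  have s1 := A.a1.vanish u a cu ha ua
  have s2 := A.a1.vanish v a cv ha va
  have s3 := A.a1.vanish u e cu he ue
  have hs := (A.b1.fin_par _).mp (A.a1.zfin u iu cu)
  obtain ⟨j, hj1, hj2⟩ : ∃ j, j ∉ Zs v ∧ e j ≠ 0 := by
    by_contra hn
    refine ve (FT_supp fun j hj => ?_)
    by_contra h
    exact hn ⟨j, hj, h⟩
  have hj3 : j ∈ Zs u := by
    by_contra h
    exact hj2 (s3 j h)
  have hm : ∀ l, a l ≠ 0 → l ∈ Zs u ∧ l ∈ Zs v := fun l hl =>
    ⟨by_contra fun h => hl (s1 l h), by_contra fun h => hl (s2 l h)⟩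
  obtain ⟨i, hi⟩ : ∃ i, a i ≠ 0 := by
    by_contra hn
    have h0 : ∀ i, a i = 0 := fun i => by_contra fun h => hn ⟨i, h⟩
    exact A.a0.root_not a ha (fun i => (h0 i).ge) fun i => by simp [h0 i]
  have e1 : a = a i • al i := by
    funext l
    by_cases hl : l = i
    · subst hl
      simp
    · have h0 : a l = 0 := by
        by_contra h
        rcases hs.2 i (hm i hi).1 l (hm l h).1 j hj3 with h1 | h1 | h1
        · exact hl h1.symm
        · exact hj1 (h1 ▸ (hm l h).2)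
        · exact hj1 (h1 ▸ (hm i hi).2)
      simp [h0, al, hl]
  refine ⟨i, (hm i hi).1, (hm i hi).2, ?_⟩
  rcases A.a0.root_smul (al i) (a i) (A.a0.root_al i).1 (e1 ▸ ha) with h | h
  · left
    rw [e1, h, one_smul]
  · right
    rw [e1, h, neg_one_smul]

theorem FT_back (a2 : C2a N) {c : N.Group} {i : B} (ha : EK N K a)
    (h : rho N c⁻¹ a = al i ∨ rho N c⁻¹ a = -al i) : EK N K (rho N c (al i)) := by
  rcases h with h | h
  · rw [← h, rho_inv']
    exact ha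
  · refine FT_neg a2 ?_
    rw [← map_neg, ← h, rho_inv']
    exact ha

theorem FT_idx {y : Pt B} {v : B → ℝ} {i j : B} (hv : y v ≠ 0) (h : v = al i ∨ v = -al i)
    (hj : j ∈ Zs y) : i ≠ j := by
  rintro rfl
  have h0 : y (al i) = 0 := hj
  rcases h with h | h
  · exact hv (by rw [h, h0])
  · exact hv (by rw [h, map_neg, h0, neg_zero])

theorem FT_base (A : CA N) (T : FT_T N K a e f p q r) (hD : FT_D N p q r = ∅) :
    ∃ c i j k, Tri0 N i j k ∧ EK N K (rho N c (al i)) ∧ EK N K (rho N c (al j)) ∧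
      EK N K (rho N c (al k)) := by
  obtain ⟨c, hc⟩ := A.a1.common {p, q, r} (Set.toFinite _)
    (by rintro x (rfl | rfl | rfl); exacts [T.ip, T.iq, T.ir]) (by
      intro x hx y hy
      rw [Set.eq_empty_iff_forall_notMem] at hD ⊢
      rintro v ⟨h1, h2, h3⟩
      refine hD v ⟨h1, ?_, ?_⟩
      · rcases hx with rfl | rfl | rfl
        exacts [Or.inl h2, Or.inr (Or.inl h2), Or.inr (Or.inr h2)]
      · rcases hy with rfl | rfl | rfl
        exacts [Or.inl h3, Or.inr (Or.inl h3), Or.inr (Or.inr h3)])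
  have cp := hc p (by simp)
  have cq := hc q (by simp)
  have cr := hc r (by simp)
  have ip := A.a1.act_mem c⁻¹ p T.ip
  have iq := A.a1.act_mem c⁻¹ q T.iq
  have ir := A.a1.act_mem c⁻¹ r T.ir
  have ra := A.a0.root_rho c⁻¹ a (FT_root T.ka)
  have re := A.a0.root_rho c⁻¹ e (FT_root T.ke)
  have rf := A.a0.root_rho c⁻¹ f (FT_root T.kf)
  obtain ⟨i, i1, i2, i3⟩ := FT_simple A ip cp cr ra re (by rw [act_rho, T.pa])
    (by rw [act_rho, T.ra]) (by rw [act_rho, T.pe]) (by rw [act_rho]; exact T.re)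
  obtain ⟨j, j1, j2, j3⟩ := FT_simple A ip cp cq re ra (by rw [act_rho, T.pe])
    (by rw [act_rho, T.qe]) (by rw [act_rho, T.pa]) (by rw [act_rho]; exact T.qa)
  obtain ⟨k, k1, k2, k3⟩ := FT_simple A iq cq cr rf re (by rw [act_rho, T.qf])
    (by rw [act_rho, T.rf]) (by rw [act_rho, T.qe]) (by rw [act_rho]; exact T.re)
  have sp := ((A.b1.fin_par _).mp (A.a1.zfin _ ip cp)).1
  have sq := ((A.b1.fin_par _).mp (A.a1.zfin _ iq cq)).1
  have sr := ((A.b1.fin_par _).mp (A.a1.zfin _ ir cr)).1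
  exact ⟨c, i, j, k, ⟨FT_idx (by rw [act_rho]; exact T.qa) i3 j2,
    FT_idx (by rw [act_rho]; exact T.re) j3 k2, FT_idx (by rw [act_rho]; exact T.qa) i3 k1,
    sp i i1 j j1, sq j j2 k k1, sr i i2 k k2⟩, FT_back A.a2 T.ka i3, FT_back A.a2 T.ke j3,
    FT_back A.a2 T.kf k3⟩

theorem FT_thm (hA : St_CA) : St_FT := by
  intro B _ _ N hN K w g a e f hK hw hg hi hT
  have A := hA B N hN
  have key : ∀ n : ℕ, ∀ (a e f : B → ℝ) (p q r : Pt B), FT_T N K a e f p q r →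
      (FT_D N p q r).ncard = n → ∃ c i j k, Tri0 N i j k ∧ EK N K (rho N c (al i)) ∧
        EK N K (rho N c (al j)) ∧ EK N K (rho N c (al k)) := by
    intro n
    induction n using Nat.strong_induction_on with
    | _ n ih =>
      intro a e f p q r T hn
      rcases (FT_D N p q r).eq_empty_or_nonempty with hD | ⟨x, hx⟩
      · exact FT_base A T hD
      · obtain ⟨a', e', f', p', q', r', T', hlt⟩ := FT_stepB A hK hw hg hi T hx
        exact ih _ (hn ▸ Set.ncard_lt_ncard hlt (FT_fin A.a1 T.ip T.iq T.ir)) a' e' f' p' q' r' T' rfl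
  obtain ⟨ka, ke, kf, ⟨_, _, _, _, p, ip, pa, pe⟩, ⟨_, _, _, _, q, iq, qe, qf⟩,
    ⟨_, _, _, _, r, ir, ra, rf⟩, hn⟩ := hT
  exact key _ a e f p q r ⟨ka, ke, kf, ip, iq, ir, pa, pe, fun h => hn ⟨p, ip, pa, pe, h⟩, qe, qf,
    fun h => hn ⟨q, iq, h, qe, qf⟩, ra, rf, fun h => hn ⟨r, ir, ra, h, rf⟩⟩ rfl

end Pool.Agent.Lib.MP_1b8ce0_al.T
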