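import Mathlib
import Pool.Agent.Lib.MP_1b8ce0_al.T.StsC

set_option linter.unusedSectionVars false
set_option linter.dupNamespace false

namespace Pool.Agent.Lib.MP_1b8ce0_al.T

open Pool.Agent.Lib.MP_6d85b4_al

section

variable {T B : Type} [Fintype T] [DecidableEq T] [Fintype B] [DecidableEq B]
  {M : CoxeterMatrix T} {N : CoxeterMatrix B} {j : M.Group →* N.Group} {β : T → B → ℝ}

theorem G0_reflM (w : M.Group) (s : T) : ReflOf M (w * sr M s * w⁻¹) (rho M w (al s)) :=
  ⟨w, s, rfl, rfl⟩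

theorem G0_reflN (G : Geo M N j β) (C : C0a N) (w : M.Group) (s : T) :
    ReflOf N (j (w * sr M s * w⁻¹)) (rho N (j w) (β s)) := by
  rw [map_mul, map_mul, map_inv]
  exact C.refl_conj _ _ _ (G.refl s)

theorem G0_eq_iff {N : CoxeterMatrix B} (C : C0a N) {r r' : N.Group} {a b : B → ℝ}
    (hr : ReflOf N r a) (hr' : ReflOf N r' b) : (b = a ∨ b = -a) ↔ r' = r := by
  constructor
  · rintro (h | h)
    · exact C.refl_uniq _ _ _ hr' (h ▸ hr)
    · exact C.refl_uniq _ _ _ hr' (h ▸ C.refl_neg _ _ hr)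
  · intro h
    exact C.refl_root _ _ _ hr (h ▸ hr')

theorem G0_same (G : Geo M N j β) (A : C0a M) (C : C0a N) (w w' : M.Group) (s t : T) :
    (rho N (j w') (β t) = rho N (j w) (β s) ∨ rho N (j w') (β t) = -rho N (j w) (β s)) ↔
      (rho M w' (al t) = rho M w (al s) ∨ rho M w' (al t) = -rho M w (al s)) := by
  rw [G0_eq_iff C (G0_reflN G C w s) (G0_reflN G C w' t),
    G0_eq_iff A (G0_reflM w s) (G0_reflM w' t)]
  exact G.inj.eq_iff

theorem G0_cross (G : Geo M N j β) (A : CA M) (C : CA N) (w w' : M.Group) (s t : T) :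
    Cross N (rho N (j w) (β s)) (rho N (j w') (β t)) ↔
      Cross M (rho M w (al s)) (rho M w' (al t)) := by
  have hs := G0_same G A.a0 C.a0 w w' s t
  have hf : IsOfFinOrder (j (w * sr M s * w⁻¹) * j (w' * sr M t * w'⁻¹)) ↔
      IsOfFinOrder ((w * sr M s * w⁻¹) * (w' * sr M t * w'⁻¹)) := by
    rw [← map_mul]
    exact G.inj.isOfFinOrder_iff
  constructor
  · intro h
    have h1 : ¬ (rho M w' (al t) = rho M w (al s) ∨ rho M w' (al t) = -rho M w (al s)) :=
      fun e => (hs.2 e).elim h.2.2.1 h.2.2.2.1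
    rw [not_or] at h1
    rw [A.t1.cross_iff _ _ _ _ (G0_reflM w s) (G0_reflM w' t) h1.1 h1.2, ← hf,
      ← C.t1.cross_iff _ _ _ _ (G0_reflN G C.a0 w s) (G0_reflN G C.a0 w' t) h.2.2.1 h.2.2.2.1]
    exact h
  · intro h
    have h1 : ¬ (rho N (j w') (β t) = rho N (j w) (β s) ∨
        rho N (j w') (β t) = -rho N (j w) (β s)) :=
      fun e => (hs.1 e).elim h.2.2.1 h.2.2.2.1
    rw [not_or] at h1
    rw [C.t1.cross_iff _ _ _ _ (G0_reflN G C.a0 w s) (G0_reflN G C.a0 w' t) h1.1 h1.2, hf,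
      ← A.t1.cross_iff _ _ _ _ (G0_reflM w s) (G0_reflM w' t) h.2.2.1 h.2.2.2.1]
    exact h

theorem G0_cross1 (G : Geo M N j β) (A : CA M) (C : CA N) (s t : T) :
    Cross N (β s) (β t) ↔ Cross M (al s) (al t) := by
  have h := G0_cross G A C 1 1 s t
  simpa only [map_one, Module.End.one_apply] using h

theorem G0_al_ne {s t : T} (h : s ≠ t) : (al t : T → ℝ) ≠ al s ∧ (al t : T → ℝ) ≠ -al s := by
  refine ⟨fun e => h (al_inj e).symm, fun e => ?_⟩
  have := congrFun e t
  rw [Pi.neg_apply, al_self, al_ne h.symm] at this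
  norm_num at this

theorem G0_beta_ne (G : Geo M N j β) (A : C0a M) (C : C0a N) {s t : T} (h : s ≠ t) :
    β t ≠ β s ∧ β t ≠ -β s := by
  have hs := G0_same G A C 1 1 s t
  simp only [map_one, Module.End.one_apply] at hs
  have h1 := G0_al_ne h
  exact not_or.1 fun e => (hs.1 e).elim h1.1 h1.2

theorem G0_crossM (A : CA M) {s t : T} (h : s ≠ t) : Cross M (al s) (al t) ↔ M s t ≠ 0 := by
  have h1 := G0_al_ne h
  rw [A.t1.cross_iff _ _ _ _ (A.a0.root_al s).2 (A.a0.root_al t).2 h1.1 h1.2,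
    ← orderOf_pos_iff, A.c0.ord, Nat.pos_iff_ne_zero]

theorem G0_vert (G : Geo M N j β) (A : CA M) (C : CA N) (s t : T) (h : Adj M s t) :
    ∃ y, OnV N β s t y := by
  have h1 := (G0_cross1 G A C s t).2 ((G0_crossM A h.1).2 h.2)
  exact h1.2.2.2.2

theorem G0_fix {N : CoxeterMatrix B} (C : C0a N) {r : N.Group} {a : B → ℝ} (hr : ReflOf N r a)
    {y : Pt B} (hy : y a = 0) : act N r y = y := by
  have h2 := (C.refl_sq r ⟨a, hr⟩).1
  have hi : r⁻¹ = r := inv_eq_of_mul_eq_one_right h2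
  refine LinearMap.ext fun v => ?_
  rw [act_apply, hi, C.refl_eq r a hr, map_sub, map_smul, hy]
  simp

theorem G0_nz (G : Geo M N j β) (A : CA M) (C : CA N) (s t u : T) (y : Pt B) (h : Adj M s t)
    (hs : u ≠ s) (ht : u ≠ t) (hy : OnV N β s t y) : y (β u) ≠ 0 := by
  intro h0
  apply A.b1.sph s t u h.1 ht.symm hs.symm
  have key : ∀ g ∈ par M {s, t, u}, act N (j g) y = y := by
    intro g hg
    induction hg using Subgroup.closure_induction with
    | mem g hg =>
      obtain ⟨i, hi, rfl⟩ := hg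
      rcases hi with rfl | rfl | rfl
      · exact G0_fix C.a0 (G.refl _) hy.2.1
      · exact G0_fix C.a0 (G.refl _) hy.2.2
      · exact G0_fix C.a0 (G.refl _) h0
    | one => rw [map_one, act_one]
    | mul g g' _ _ h1 h2 => rw [map_mul, act_mul, h2, h1]
    | inv g _ h1 =>
      have h2 : act N (j g⁻¹) (act N (j g) y) = y := by
        rw [← act_mul, ← map_mul, inv_mul_cancel, map_one, act_one]
      rwa [h1] at h2
  have hfin := C.a1.stab y hy.1
  have : Finite {w | act N w y = y} := hfin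
  refine Finite.of_injective
    (fun g : par M {s, t, u} => (⟨j g, key g g.2⟩ : {w | act N w y = y})) ?_
  intro g g' e
  exact Subtype.ext (G.inj (congrArg Subtype.val e))

theorem G0_two (G : Geo M N j β) (A : CA M) (C : CA N) (s t : T) (h : M s t = 2) :
    Bf N (β s) (β t) = 0 := by
  have hst : s ≠ t := by
    rintro rfl
    rw [M.diagonal] at h
    norm_num at h
  have hne := G0_beta_ne G A.a0 C.a0 hst
  have hs := (A.a0.refl_sq _ ⟨_, (A.a0.root_al s).2⟩).1
  have ht := (A.a0.refl_sq _ ⟨_, (A.a0.root_al t).2⟩).1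
  have h2 : (sr M s * sr M t) ^ 2 = 1 := by
    rw [← h, ← A.c0.ord s t]
    exact pow_orderOf_eq_one _
  have hc : Commute (sr M s) (sr M t) := by
    have e : sr M s * sr M t = (sr M s * sr M t)⁻¹ :=
      (inv_eq_of_mul_eq_one_right (by rw [← pow_two]; exact h2)).symm
    rw [mul_inv_rev, inv_eq_of_mul_eq_one_right hs, inv_eq_of_mul_eq_one_right ht] at e
    exact e
  have hc' : Commute (j (sr M s)) (j (sr M t)) := hc.map j
  have rs := C.a0.refl_isRoot _ _ (G.refl s)
  have rt := C.a0.refl_isRoot _ _ (G.refl t)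
  rcases (C.a0.refl_comm _ _ _ (G.refl t)).1 hc' with e | e
  · rw [C.a0.refl_eq _ _ (G.refl s)] at e
    have := (C.a0.root_indep (β s) (β t) (2 * Bf N (β s) (β t)) 0 rs rt hne.1 hne.2
      (by rw [zero_smul, add_zero]; exact sub_eq_self.1 e)).1
    linarith
  · rw [C.a0.refl_eq _ _ (G.refl s)] at e
    have := (C.a0.root_indep (β s) (β t) (-(2 * Bf N (β s) (β t))) 2 rs rt hne.1 hne.2
      (by
        rw [neg_smul, two_smul]
        rw [sub_eq_iff_eq_add] at e
        have e2 : (2 * Bf N (β s) (β t)) • β s = β t + β t := by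
          rw [neg_add_eq_sub, eq_sub_iff_add_eq] at e
          exact e.symm
        rw [e2, neg_add_cancel])).2
    norm_num at this

theorem G0_far (G : Geo M N j β) (A : CA M) (C : CA N) (s t : T) (h : M s t = 0) :
    ¬ Cross N (β s) (β t) := by
  intro hc
  have hst : s ≠ t := by
    rintro rfl
    exact hc.2.2.1 rfl
  exact (G0_crossM A hst).1 ((G0_cross1 G A C s t).1 hc) h

theorem G0_third (G : Geo M N j β) (s t : T) : ∃ c, c ≠ s ∧ c ≠ t := by
  obtain ⟨a, -, b, -, c, -, hab, hbc, hac⟩ := G.rig.1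
  by_contra hn
  push Not at hn
  have key : ∀ x, x = s ∨ x = t := fun x => by
    by_cases hx : x = s
    · exact Or.inl hx
    · exact Or.inr (hn x hx)
  rcases key a with rfl | rfl <;> rcases key b with hb | hb <;> rcases key c with hc | hc <;>
    simp_all

theorem G0_nb (G : Geo M N j β) (s t : T) (h : Adj M s t) : ∃ u, u ≠ t ∧ Adj M s u := by
  obtain ⟨c, hcs, hct⟩ := G0_third G s t
  have hJ : Simplex M {t} := by
    refine ⟨?_, ?_⟩
    · rintro a rfl b rfl
      rw [M.diagonal]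
      norm_num
    · rintro a rfl b rfl c rfl
      exact Or.inl rfl
  have hc := G.rig.2 _ hJ s ⟨trivial, h.1⟩ c ⟨trivial, hct⟩
  rcases Relation.ReflTransGen.cases_head hc with e | ⟨u, ⟨_, hu, ha⟩, _⟩
  · exact absurd e.symm hcs
  · exact ⟨u, hu.2, ha⟩

theorem G0_prop (G : Geo M N j β) (A : CA M) (C : CA N) (U : Set T) (a : B → ℝ)
    (ha : IsRoot N a) (hU : ∀ u ∈ U, β u ≠ a ∧ β u ≠ -a ∧ ¬ Cross N (β u) a) (u v : T)
    (hc : Conn M U u v) (hu : u ∈ U) (y y' : Pt B) (hy : InI N y) (hy' : InI N y')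
    (h0 : y (β u) = 0) (h0' : y' (β v) = 0) (hp : 0 < y a) : 0 < y' a := by
  have step : ∀ x ∈ U, ∀ z, InI N z → z (β x) = 0 → 0 < z a →
      ∀ z', InI N z' → z' (β x) = 0 → 0 < z' a := by
    intro x hx z hz hz0 hzp
    obtain ⟨h1, h2, h3⟩ := hU x hx
    rcases C.b1.side (β x) a (C.a0.refl_isRoot _ _ (G.refl x)) ha h1.symm
      (fun e => h2 (by rw [e, neg_neg])) h3 with h | h
    · exact h
    · exact absurd (h z hz hz0) (not_lt.2 hzp.le)
  have key : ∀ z', InI N z' → z' (β v) = 0 → 0 < z' a := by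
    clear h0'
    induction hc with
    | refl => exact step u hu y hy h0 hp
    | tail _ hbc ih =>
      obtain ⟨_, hx, hadj⟩ := hbc
      obtain ⟨z, hz, hz1, hz2⟩ := G0_vert G A C _ _ hadj
      exact step _ hx z hz hz2 (ih z hz hz1)
  exact key y' hy' h0'

theorem G0_tri (G : Geo M N j β) (s t u c : T) (h1 : Adj M s t) (h2 : Adj M t u)
    (h3 : Adj M s u) (hs : c ≠ s) (ht : c ≠ t) (hu : c ≠ u) :
    ∃ c', Conn M {s, t, u}ᶜ c c' ∧ Adj M c' s := by
  have hJ : Simplex M {t, u} := by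
    refine ⟨?_, ?_⟩
    · rintro a (rfl | rfl) b (rfl | rfl)
      · rw [M.diagonal]
        norm_num
      · exact h2.2
      · rw [M.symmetric]
        exact h2.2
      · rw [M.diagonal]
        norm_num
    · rintro a (rfl | rfl) b (rfl | rfl) c (rfl | rfl) <;> simp
  have hc := G.rig.2 _ hJ c ⟨trivial, by simp [ht, hu]⟩ s ⟨trivial, by simp [h1.1, h3.1]⟩
  have key : ∀ d, Conn M (Set.univ \ {t, u}) d s → d ≠ s →
      ∃ c', Conn M {s, t, u}ᶜ d c' ∧ Adj M c' s := by
    intro d hd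
    induction hd using Relation.ReflTransGen.head_induction_on with
    | refl => exact fun e => absurd rfl e
    | @head x z hxz _ ih =>
      intro hx
      obtain ⟨hx1, hz1, hadj⟩ := hxz
      by_cases hz : z = s
      · exact ⟨x, Relation.ReflTransGen.refl, hz ▸ hadj⟩
      · obtain ⟨c', hc1, hc2⟩ := ih hz
        refine ⟨c', Relation.ReflTransGen.head ⟨?_, ?_, hadj⟩ hc1, hc2⟩
        · rintro (e | e)
          · exact hx e
          · exact hx1.2 e
        · rintro (e | e)
          · exact hz e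
          · exact hz1.2 e
  exact key c hc hs

end

theorem G0_thm (hA : St_CA) : St_G0 := by
  intro T B _ _ _ _ M N j β G
  have A := hA T M G.nsM
  have C := hA B N G.nsN
  exact
    { cross := G0_cross G A C
      same := G0_same G A.a0 C.a0
      vert := G0_vert G A C
      nz := G0_nz G A C
      two := G0_two G A C
      far := G0_far G A C
      nb := G0_nb G
      prop := G0_prop G A C
      tri := G0_tri G }

end Pool.Agent.Lib.MP_1b8ce0_al.T
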