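import Mathlib
import Pool.Agent.Lib.MP_1b8ce0_al.T.StsB

set_option linter.unusedSectionVars false
set_option linter.dupNamespace false

namespace Pool.Agent.Lib.MP_1b8ce0_al.T

open Pool.Agent.Lib.MP_6d85b4_al

/-- product of two by two integer matrices -/
def G2_mul (m n : ℤ × ℤ × ℤ × ℤ) : ℤ × ℤ × ℤ × ℤ :=
  (m.1 * n.1 + m.2.1 * n.2.2.1, m.1 * n.2.1 + m.2.1 * n.2.2.2,
    m.2.2.1 * n.1 + m.2.2.2 * n.2.2.1, m.2.2.1 * n.2.1 + m.2.2.2 * n.2.2.2)

/-- the twelve linear parts with their two parities -/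
def G2_S : List ((ℤ × ℤ × ℤ × ℤ) × Bool × Bool) :=
  [((-2, 1, -3, 1), false, false), ((-2, 1, -3, 2), false, true), ((-1, 0, -3, 1), true, false),
    ((-1, 0, 0, -1), true, true), ((-1, 1, -3, 2), true, true), ((-1, 1, 0, 1), true, false),
    ((1, -1, 0, -1), false, true), ((1, -1, 3, -2), false, false), ((1, 0, 0, 1), false, false),
    ((1, 0, 3, -1), false, true), ((2, -1, 3, -2), true, false), ((2, -1, 3, -1), true, true)]

theorem G2_step : ∀ m ∈ G2_S, (G2_mul (-1, 1, 0, 1) m.1, !m.2.1, m.2.2) ∈ G2_S ∧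
    (G2_mul (1, 0, 3, -1) m.1, m.2.1, !m.2.2) ∈ G2_S ∧
    (G2_mul (1, -1, 0, -1) m.1, m.2.1, !m.2.2) ∈ G2_S := by decide

theorem G2_six : ∀ m ∈ G2_S, G2_mul (G2_mul m.1 (G2_mul m.1 m.1)) (G2_mul m.1 (G2_mul m.1 m.1)) =
    (1, 0, 0, 1) := by decide

theorem G2_id : ∀ m ∈ G2_S, m.1 = (1, 0, 0, 1) → m.2.1 = false ∧ m.2.2 = false := by decide

section

variable {B : Type} [Fintype B] [DecidableEq B] (N : CoxeterMatrix B) (i j k : B)

/-- integral coordinates on the span of the three simple roots -/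
noncomputable def G2_E (x y z : ℝ) : B → ℝ :=
  (√3 * (x + z)) • al i + (y + 2 * z) • al j + z • al k

/-- `u` acts by the matrix `m` and the translation part `p, q` -/
def G2_Aff (u : N.Group) (m : ℤ × ℤ × ℤ × ℤ) (p q : ℤ) : Prop :=
  ∀ x y z : ℝ, rho N u (G2_E i j k x y z) =
    G2_E i j k (m.1 * x + m.2.1 * y) (m.2.2.1 * x + m.2.2.2 * y) (z + p * x + q * y)

variable {N i j k}

theorem G2_Aff_mul {u v : N.Group} {m n : ℤ × ℤ × ℤ × ℤ} {p q p' q' : ℤ}
    (h : G2_Aff N i j k u m p q) (h' : G2_Aff N i j k v n p' q') :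
    G2_Aff N i j k (u * v) (G2_mul m n) (p' + p * n.1 + q * n.2.2.1)
      (q' + p * n.2.1 + q * n.2.2.2) := by
  intro x y z
  rw [rho_mul, h', h]
  simp only [G2_mul]
  push_cast
  congr 1 <;> ring

theorem G2_ne (h : Tri6 N i j k) : i ≠ j ∧ j ≠ k ∧ i ≠ k := by
  obtain ⟨h1, h2, h3⟩ := h
  refine ⟨?_, ?_, ?_⟩ <;> rintro rfl <;> simp only [N.diagonal] at * <;> omega

theorem G2_gen (h : Tri6 N i j k) : G2_Aff N i j k (sr N i) (-1, 1, 0, 1) 0 0 ∧
    G2_Aff N i j k (sr N j) (1, 0, 3, -1) 0 0 ∧ G2_Aff N i j k (sr N k) (1, -1, 0, -1) 0 1 := by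
  obtain ⟨h1, h2, h3⟩ := h
  have c1 : cc N i j = √3 := by
    rw [cc, h1, Nat.cast_ofNat, Real.cos_pi_div_six]
    ring
  have c2 : cc N j k = 1 := by
    rw [cc, h2, Nat.cast_ofNat, Real.cos_pi_div_three]
    ring
  have c3 : cc N i k = 0 := by
    rw [cc, h3, Nat.cast_ofNat, Real.cos_pi_div_two]
    ring
  have hs : (√3 : ℝ) * √3 = 3 := Real.mul_self_sqrt (by norm_num)
  refine ⟨fun x y z => ?_, fun x y z => ?_, fun x y z => ?_⟩
  · simp only [rho_simple, G2_E, map_add, map_smul, rf_al, cc_self, c1, c3]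
    push_cast
    match_scalars <;> ring
  · simp only [rho_simple, G2_E, map_add, map_smul, rf_al, cc_self, cc_symm N j i, c1, c2]
    push_cast
    match_scalars
    · ring
    · linear_combination (x + z) * hs
    · ring
  · simp only [rho_simple, G2_E, map_add, map_smul, rf_al, cc_self, cc_symm N k i,
      cc_symm N k j, c2, c3]
    push_cast
    match_scalars <;> ring

theorem G2_inj (h : Tri6 N i j k) {x y z x' y' z' : ℝ}
    (e : G2_E i j k x y z = G2_E i j k x' y' z') : z = z' := by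
  obtain ⟨-, h2, h3⟩ := G2_ne h
  have := congrFun e k
  simpa [G2_E, al_ne h2.symm, al_ne h3.symm] using this

theorem G2_form (h : Tri6 N i j k) (χ : N.Group →* ℤˣ) {u : N.Group} (hu : u ∈ par N {i, j, k}) :
    ∃ m ∈ G2_S, (∃ p q, G2_Aff N i j k u m.1 p q) ∧
      χ u = (if m.2.1 then χ (sr N i) else 1) * (if m.2.2 then χ (sr N j) else 1) := by
  obtain ⟨g1, g2, g3⟩ := G2_gen h
  have hk : χ (sr N k) = χ (sr N j) := by
    have e := congrArg χ (N.toCoxeterSystem.simple_mul_simple_pow j k)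
    rw [h.2.1, map_pow, map_one, map_mul] at e
    rcases Int.units_eq_one_or (χ (sr N j)) with a | a <;>
      rcases Int.units_eq_one_or (χ (sr N k)) with b | b <;> rw [a, b] at e ⊢
    · exact absurd e (by decide)
    · exact absurd e (by decide)
  have step : ∀ s ∈ sr N '' ({i, j, k} : Set B), ∀ y : N.Group,
      (∃ m ∈ G2_S, (∃ p q, G2_Aff N i j k y m.1 p q) ∧
        χ y = (if m.2.1 then χ (sr N i) else 1) * (if m.2.2 then χ (sr N j) else 1)) →
      ∃ m ∈ G2_S, (∃ p q, G2_Aff N i j k (s * y) m.1 p q) ∧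
        χ (s * y) = (if m.2.1 then χ (sr N i) else 1) * (if m.2.2 then χ (sr N j) else 1) := by
    rintro _ ⟨t, ht, rfl⟩ y ⟨⟨m, e1, e2⟩, hm, ⟨p, q, ha⟩, hc⟩
    obtain ⟨s1, s2, s3⟩ := G2_step _ hm
    have a1 := Int.units_mul_self (χ (sr N i))
    have a2 := Int.units_mul_self (χ (sr N j))
    rcases ht with rfl | rfl | rfl
    · refine ⟨_, s1, ⟨_, _, G2_Aff_mul g1 ha⟩, ?_⟩
      rw [map_mul, hc]
      cases e1 <;> simp [← mul_assoc, a1]
    · refine ⟨_, s2, ⟨_, _, G2_Aff_mul g2 ha⟩, ?_⟩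
      rw [map_mul, hc, mul_left_comm]
      cases e2 <;> simp [a2]
    · refine ⟨_, s3, ⟨_, _, G2_Aff_mul g3 ha⟩, ?_⟩
      rw [map_mul, hc, hk, mul_left_comm]
      cases e2 <;> simp [a2]
  induction hu using Subgroup.closure_induction_left with
  | one =>
    refine ⟨((1, 0, 0, 1), false, false), by decide, ⟨0, 0, fun x y z => ?_⟩, by simp⟩
    simp
  | mul_left s hs y _ ih => exact step s hs y ih
  | inv_mul_cancel s hs y _ ih =>
    obtain ⟨t, ht, rfl⟩ := hs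
    rw [N.toCoxeterSystem.inv_simple]
    exact step _ ⟨t, ht, rfl⟩ y ih

theorem G2_tr_mul {u v : N.Group} {p q p' q' : ℤ} (h : G2_Aff N i j k u (1, 0, 0, 1) p q)
    (h' : G2_Aff N i j k v (1, 0, 0, 1) p' q') :
    G2_Aff N i j k (u * v) (1, 0, 0, 1) (p + p') (q + q') := by
  have := G2_Aff_mul h h'
  simpa [G2_mul, add_comm] using this

theorem G2_tr_inv {u : N.Group} {p q : ℤ} (h : G2_Aff N i j k u (1, 0, 0, 1) p q) :
    G2_Aff N i j k u⁻¹ (1, 0, 0, 1) (-p) (-q) := by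
  intro x y z
  have e := congrArg (rho N u⁻¹) (h x y (z - p * x - q * y))
  rw [rho_inv] at e
  simp only [Int.cast_one, Int.cast_zero, one_mul, zero_mul, add_zero, zero_add] at e ⊢
  rw [show z - p * x - q * y + p * x + q * y = z by ring] at e
  rw [← e]
  push_cast
  congr 1
  ring

theorem G2_tr_zpow {u : N.Group} {p q : ℤ} (h : G2_Aff N i j k u (1, 0, 0, 1) p q) (n : ℤ) :
    G2_Aff N i j k (u ^ n) (1, 0, 0, 1) (n * p) (n * q) := by
  induction n using Int.induction_on with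
  | zero =>
    intro x y z
    simp
  | succ n ih =>
    rw [zpow_add_one, add_mul, add_mul, one_mul, one_mul]
    exact G2_tr_mul ih h
  | pred n ih =>
    rw [zpow_sub_one, sub_mul, sub_mul, one_mul, one_mul, sub_eq_add_neg, sub_eq_add_neg]
    exact G2_tr_mul ih (G2_tr_inv h)

theorem G2_tr_one (P : C0b N) {u : N.Group} (hu : u ∈ par N {i, j, k})
    (h : G2_Aff N i j k u (1, 0, 0, 1) 0 0) : u = 1 := by
  have key : ∀ x y z, rho N u (G2_E i j k x y z) = G2_E i j k x y z := fun x y z => by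
    simpa using h x y z
  have e1 : al i = G2_E i j k (√3)⁻¹ 0 0 := by simp [G2_E]
  have e2 : al j = G2_E i j k 0 1 0 := by simp [G2_E]
  have e3 : al k = G2_E i j k (-1) (-2) 1 := by simp [G2_E]
  refine P.faithT _ u hu ?_
  rintro t (rfl | rfl | rfl)
  · rw [e1, key, ← e1]
    exact pos_al _
  · rw [e2, key, ← e2]
    exact pos_al _
  · rw [e3, key, ← e3]
    exact pos_al _

theorem G2_tr_six {u : N.Group} {m : (ℤ × ℤ × ℤ × ℤ) × Bool × Bool} (hm : m ∈ G2_S) {p q : ℤ}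
    (h : G2_Aff N i j k u m.1 p q) : ∃ p' q', G2_Aff N i j k (u ^ (6 : ℤ)) (1, 0, 0, 1) p' q' := by
  have h3 := G2_Aff_mul h (G2_Aff_mul h h)
  have h6 := G2_Aff_mul h3 h3
  have e : u * (u * u) * (u * (u * u)) = u ^ (6 : ℤ) := by
    rw [zpow_ofNat]
    simp only [pow_succ, pow_zero, one_mul, mul_assoc]
  rw [G2_six m hm, e] at h6
  exact ⟨_, _, h6⟩

theorem G2_comm (h : Tri6 N i j k) {g t : N.Group} {m : ℤ × ℤ × ℤ × ℤ} {p q p' q' : ℤ}
    (hg : G2_Aff N i j k g m p q) (ht : G2_Aff N i j k t (1, 0, 0, 1) p' q') (hc : Commute g t) :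
    p' * m.1 + q' * m.2.2.1 = p' ∧ p' * m.2.1 + q' * m.2.2.2 = q' := by
  have h1 := G2_Aff_mul hg ht
  have h2 := G2_Aff_mul ht hg
  rw [← hc.eq] at h2
  have e1 := G2_inj h ((h1 1 0 0).symm.trans (h2 1 0 0))
  have e2 := G2_inj h ((h1 0 1 0).symm.trans (h2 0 1 0))
  simp only [mul_one, mul_zero, add_zero, zero_add, Int.cast_inj] at e1 e2
  constructor <;> linarith

end

theorem G2_thm (_h1 : St_C0a) (h2 : St_C0b) (_h3 : St_C0c) : St_G2 := by
  intro B _ _ N i j k h g hg w hw hc hind χ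
  have P := h2 B N
  obtain ⟨m, hm, ⟨p, q, ha⟩, hχ⟩ := G2_form h χ hg
  obtain ⟨n, hn, ⟨p', q', hb⟩, -⟩ := G2_form h χ hw
  obtain ⟨p1, q1, t1⟩ := G2_tr_six hm ha
  obtain ⟨p2, q2, t2⟩ := G2_tr_six hn hb
  have rel : ∀ a b : ℤ, a * p1 + b * p2 = 0 → a * q1 + b * q2 = 0 → a = 0 ∧ b = 0 := by
    intro a b r1 r2
    have t3 := G2_tr_mul (G2_tr_zpow t1 a) (G2_tr_zpow t2 b)
    rw [r1, r2] at t3
    have e := G2_tr_one P ((par N _).mul_mem ((par N _).zpow_mem ((par N _).zpow_mem hg _) _)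
      ((par N _).zpow_mem ((par N _).zpow_mem hw _) _)) t3
    rw [← zpow_mul, ← zpow_mul] at e
    have := hind _ _ e
    omega
  have hd : p1 * q2 - p2 * q1 ≠ 0 := by
    intro hd
    have r1 := rel q2 (-q1) (by linarith) (by ring)
    have r2 := rel p2 (-p1) (by ring) (by linarith)
    have r3 := rel 1 0 (by omega) (by omega)
    omega
  obtain ⟨a1, a2⟩ := G2_comm h ha t1 ((Commute.refl g).zpow_right 6)
  obtain ⟨b1, b2⟩ := G2_comm h ha t2 (hc.zpow_right 6)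
  have hm1 : m.1 = (1, 0, 0, 1) := by
    obtain ⟨⟨a, b, c, d⟩, e⟩ := m
    simp only [Prod.mk.injEq] at a1 a2 b1 b2 ⊢
    refine ⟨mul_left_cancel₀ hd ?_, mul_left_cancel₀ hd ?_, mul_left_cancel₀ hd ?_,
      mul_left_cancel₀ hd ?_⟩
    · linear_combination q2 * a1 - q1 * b1
    · linear_combination q2 * a2 - q1 * b2
    · linear_combination p1 * b1 - p2 * a1
    · linear_combination p1 * b2 - p2 * a2
  obtain ⟨c1, c2⟩ := G2_id m hm hm1
  rw [hχ, c1, c2]
  simp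

end Pool.Agent.Lib.MP_1b8ce0_al.T
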