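import Mathlib
import Pool.Agent.Lib.MP_1b8ce0_al.T.StsC

set_option linter.unusedSectionVars false
set_option linter.dupNamespace false

namespace Pool.Agent.Lib.MP_1b8ce0_al.T

open Pool.Agent.Lib.MP_6d85b4_al

section

variable {T B : Type} [Fintype T] [DecidableEq T] [Fintype B] [DecidableEq B]
  {M : CoxeterMatrix T} {N : CoxeterMatrix B} {j : M.Group →* N.Group} {β : T → B → ℝ}

theorem GA0_nm {u : T} {a b : B → ℝ} (h : NM M N β u a) (e : b = a ∨ b = -a) : NM M N β u b := by
  obtain ⟨ε, hε, h⟩ := h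
  rcases e with rfl | rfl
  · exact ⟨ε, hε, h⟩
  · refine ⟨-ε, by rcases hε with rfl | rfl <;> simp, fun v y hv hy => ?_⟩
    rw [map_neg, neg_mul_neg]
    exact h v y hv hy

theorem GA0_sr (C : C0a M) (s : T) (v : T → ℝ) :
    rho M (sr M s) v = v - (2 * Bf M (al s) v) • al s :=
  C.refl_eq _ _ (C.root_al s).2 v

theorem GA0_one (C : C0a M) (s t : T) :
    rho M (sr M s) (al t) = (2 * Real.cos (Real.pi / M s t)) • al s + al t := by
  rw [GA0_sr C, Bf_al]
  module

theorem GA0_self (C : C0a M) (s : T) : rho M (sr M s) (al s) = -al s := by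
  rw [GA0_sr C, C.root_norm _ (C.root_al s).1]
  module

theorem GA0_two (C : C0a M) (s t : T) :
    rho M (sr M s * sr M t) (al s) =
      ((2 * Real.cos (Real.pi / M s t)) ^ 2 - 1) • al s +
        (2 * Real.cos (Real.pi / M s t)) • al t := by
  rw [rho_mul, GA0_one C t s, M.symmetric t s, map_add, map_smul, GA0_one C s t, GA0_self C s]
  module

/-- twice the cosine of a label different from one and two -/
theorem GA0_cos (h0 : St_CH) (n : ℕ) (h1 : n ≠ 1) (h2 : n ≠ 2) :
    1 ≤ 2 * Real.cos (Real.pi / n) := by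
  rcases Nat.eq_zero_or_pos n with rfl | hn
  · simp
  · obtain ⟨-, -, e, -, -, -, -, -, h3, -⟩ := h0 n 0 (by omega)
    rw [← e]
    exact h3 (by omega)

/-- the crossing case with a right angle at `s` -/
theorem GA0_right (h0 : St_CH) (C : C0a M) (ns : NoSph M) (g0 : G0 M N j β)
    (gt : ∀ s t u, 3 ≤ M s t → M s u = 2 →
      (4 ≤ M t u → NM M N β u (rho N (j (sr M s)) (β t))) ∧
      (M t u = 3 → NM M N β u (rho N (j (sr M s * sr M t)) (β s))))
    {s t u v : T} {w : M.Group} {k : ℕ} (hm : 3 ≤ M s t) (k1 : 1 ≤ k) (k2 : k + 2 ≤ M s t)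
    (e : rho M w (al u) = ch (M s t) k • al s + ch (M s t) (k + 1) • al t)
    (H : (2 ≤ k ∧ k + 3 ≤ M s t) ∨ M t v ≠ 3) (vt : v ≠ t) (hv : M s v = 2)
    (lt : ch (M s t) (k + 1) * Real.cos (Real.pi / M t v) < 1) :
    NM M N β v (rho N (j w) (β u)) := by
  have st : s ≠ t := by
    rintro rfl
    rw [M.diagonal] at hm
    omega
  have sv : s ≠ v := by
    rintro rfl
    rw [M.diagonal] at hv
    omega
  have n1 : M t v ≠ 1 := M.off_diagonal t v vt.symm
  have b1 : 1 ≤ ch (M s t) (k + 1) := (h0 (M s t) (k + 1) (by omega)).2.2.2.2.2.1 (by omega)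
    (by omega)
  have n0 : M t v ≠ 0 := by
    intro h
    rw [h] at lt
    simp at lt
    linarith
  have n2 : M t v ≠ 2 := by
    intro h
    have := ns s t v st vt.symm sv
    rw [h, hv] at this
    have p : (0 : ℚ) < 1 / (M s t : ℚ) := by
      have : (0 : ℚ) < (M s t : ℚ) := by exact_mod_cast (by omega : 0 < M s t)
      positivity
    push_cast at this
    linarith
  obtain ⟨-, c1, c2, c3, -, -, -, -, -, c4, -⟩ := h0 (M s t) 1 (by omega)
  have sym : ∀ i, i ≤ M s t → ch (M s t) (M s t - i) = ch (M s t) i := fun i hi =>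
    (h0 (M s t) i (by omega)).2.2.2.2.1 hi
  by_cases hk : k + 2 = M s t
  · have n4 : 4 ≤ M t v := by omega
    refine GA0_nm ((gt s t v hm hv).1 n4) ((g0.same (sr M s) w t u).2 (Or.inl ?_))
    have a1 : ch (M s t) k = ch (M s t) 2 := by
      rw [← sym 2 (by omega)]
      congr 1
      omega
    have a2 : ch (M s t) (k + 1) = ch (M s t) 1 := by
      rw [← sym 1 (by omega)]
      congr 1
      omega
    rw [e, GA0_one C, a1, a2, c1, c2, one_smul]
  · have b2 : ch (M s t) 2 ≤ ch (M s t) (k + 1) :=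
      (h0 (M s t) (k + 1) (by omega)).2.2.2.2.2.2.1 (by omega) (by omega)
    obtain ⟨-, -, d2, -, -, -, -, -, d3, d4, -⟩ := h0 (M t v) 0 (by omega)
    have c5 : 1 ≤ ch (M s t) 2 := (h0 (M s t) 0 (by omega)).2.2.2.2.2.2.2.2.1 hm
    have d5 := d3 (by omega)
    have lt' : ch (M s t) (k + 1) * ch (M t v) 2 < 2 := by
      rw [d2]
      linarith
    have n3 : M t v = 3 := by
      by_contra h
      have x1 := c4 (by omega)
      have x2 := d4 (by omega)
      have x3 : ch (M s t) 2 * ch (M t v) 2 < 2 :=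
        lt_of_le_of_lt (mul_le_mul_of_nonneg_right b2 (by linarith)) lt'
      have x4 : 0 ≤ ch (M s t) 2 * ch (M t v) 2 := by positivity
      have x5 : 2 * 2 ≤ ch (M s t) 2 ^ 2 * ch (M t v) 2 ^ 2 :=
        mul_le_mul x1 x2 (by norm_num) (by positivity)
      nlinarith
    have k3 : k + 3 = M s t := by
      by_contra h
      have k4 : 2 ≤ k ∧ k + 3 ≤ M s t := H.resolve_right fun h => h n3
      have x1 : 2 ≤ ch (M s t) (k + 1) :=
        (h0 (M s t) (k + 1) (by omega)).2.2.2.2.2.2.2.1 (by omega) (by omega)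
      nlinarith
    refine GA0_nm ((gt s t v hm hv).2 n3) ((g0.same (sr M s * sr M t) w s u).2 (Or.inl ?_))
    have a1 : ch (M s t) k = ch (M s t) 3 := by
      rw [← sym 3 (by omega)]
      congr 1
      omega
    have a2 : ch (M s t) (k + 1) = ch (M s t) 2 := by
      rw [← sym 2 (by omega)]
      congr 1
      omega
    have c6 : ch (M s t) 3 = ch (M s t) 2 ^ 2 - 1 := by
      rw [show ch (M s t) 3 = ch (M s t) (1 + 2) from rfl, c3, c1]
      ring
    rw [e, GA0_two C, a1, a2, c6, c2]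

/-- one sign on the vertices of every outer wall implies one sign everywhere -/
theorem GA0_glue (G : Geo M N j β) (g0 : G0 M N j β) {s t : T} (hst : M s t ≠ 0) {l : B → ℝ}
    (h : ∀ v, v ≠ s → v ≠ t → NM M N β v l) : OneSign M N β s t l := by
  by_cases ex : ∃ v0, v0 ≠ s ∧ v0 ≠ t
  swap
  · exact ⟨1, Or.inl rfl, fun u v _ h1 h2 => absurd ⟨u, h1, h2⟩ ex⟩
  obtain ⟨v0, v1, v2⟩ := ex
  have sx : Simplex M {s, t} := by
    constructor
    · rintro a (rfl | rfl) b (rfl | rfl)
      · rw [M.diagonal]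
        omega
      · exact hst
      · rw [M.symmetric]
        exact hst
      · rw [M.diagonal]
        omega
    · rintro a (rfl | rfl) b (rfl | rfl) c (rfl | rfl) <;> simp
  have pc := G.rig.2 _ sx
  have mem : ∀ v, v ∈ Set.univ \ ({s, t} : Set T) ↔ v ≠ s ∧ v ≠ t := by
    intro v
    simp
  obtain ⟨ε, hε, h0⟩ := h v0 v1 v2
  refine ⟨ε, hε, fun u v huv h1 h2 y hy => ?_⟩
  have key : ∀ u, Conn M (Set.univ \ {s, t}) v0 u →
      ∀ v y, Adj M u v → OnV N β u v y → 0 < ε * y l := by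
    intro u hu
    induction hu with
    | refl => exact h0
    | tail _ hb ih =>
      obtain ⟨-, m2, ad⟩ := hb
      obtain ⟨ε', hε', h1⟩ := h _ ((mem _).1 m2).1 ((mem _).1 m2).2
      obtain ⟨y, hy⟩ := g0.vert _ _ ad
      have p1 := ih _ y ad hy
      have p2 := h1 _ y ⟨ad.1.symm, by rw [M.symmetric]; exact ad.2⟩ ⟨hy.1, hy.2.2, hy.2.1⟩
      have : ε' = ε := by
        rcases hε with rfl | rfl <;> rcases hε' with rfl | rfl
        · rfl
        · linarith
        · linarith
        · rfl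
      rw [← this]
      exact h1
  exact key u (pc v0 ((mem _).2 ⟨v1, v2⟩) u ((mem _).2 ⟨h1, h2⟩)) v y huv hy

end

theorem GA0_thm (h0 : St_CH) (hA : St_CA) (h1 : St_G0) (h2 : St_GT) : St_GA0 := by
  intro T B _ _ _ _ M N j β G s t w u k hm _ k1 k2 e H
  have g0 := h1 T B M N j β G
  have gt := h2 T B M N j β G
  have CM := hA T M G.nsM
  have CN := hA B N G.nsN
  have gt' : ∀ s t u, 3 ≤ M s t → M s u = 2 →
      (4 ≤ M t u → NM M N β u (rho N (j (sr M s)) (β t))) ∧
      (M t u = 3 → NM M N β u (rho N (j (sr M s * sr M t)) (β s))) := fun s t u a b =>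
    ⟨(gt s t u a b).1, (gt s t u a b).2.1⟩
  refine GA0_glue G g0 (by omega) fun v vs vt => ?_
  have rv : IsRoot N (β v) := CN.a0.refl_isRoot _ _ (G.refl v)
  have rl : IsRoot N (rho N (j w) (β u)) := CN.a0.root_rho _ _ (CN.a0.refl_isRoot _ _ (G.refl u))
  have ne : ¬ (rho N (j w) (β u) = β v ∨ rho N (j w) (β u) = -β v) := by
    intro h
    have h' := (g0.same 1 w v u).1 (by rwa [map_one, rho_one])
    rw [rho_one, e] at h'
    rcases h' with h' | h' <;>
    · have := congrFun h' v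
      simp [al, vs, vt] at this
  by_cases cr : Cross N (β v) (rho N (j w) (β u))
  swap
  · rcases CN.b1.side _ _ rv rl (fun h => ne (Or.inl h)) (fun h => ne (Or.inr h)) cr with h | h
    · exact ⟨1, Or.inl rfl, fun x y _ hy => by rw [one_mul]; exact h y hy.1 hy.2.1⟩
    · exact ⟨-1, Or.inr rfl, fun x y _ hy => by have := h y hy.1 hy.2.1; linarith⟩
  have cr' := (g0.cross 1 w v u).1 (by rwa [map_one, rho_one])
  rw [rho_one, e] at cr'
  have lt := (abs_lt.1 (CM.t1.cross_lt _ _ cr')).1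
  rw [Bf_add_right, Bf_smul_right, Bf_smul_right, Bf_al, Bf_al, M.symmetric v s,
    M.symmetric v t] at lt
  have b0 : 1 ≤ ch (M s t) k := (h0 (M s t) k (by omega)).2.2.2.2.2.1 (by omega) (by omega)
  have b1 : 1 ≤ ch (M s t) (k + 1) := (h0 (M s t) (k + 1) (by omega)).2.2.2.2.2.1 (by omega)
    (by omega)
  by_cases hs : M s v = 2
  · refine GA0_right h0 CM.a0 G.nsM g0 gt' hm k1 k2 e ?_ vt hs ?_
    · exact H.imp id fun h h3 => h ⟨v, Or.inl ⟨hs, h3⟩⟩
    · rw [hs] at lt
      simp only [Nat.cast_ofNat, Real.cos_pi_div_two] at lt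
      linarith
  by_cases ht : M t v = 2
  · have sy : M t s = M s t := M.symmetric t s
    have sym : ∀ i, i ≤ M s t → ch (M s t) (M s t - i) = ch (M s t) i := fun i hi =>
      (h0 (M s t) i (by omega)).2.2.2.2.1 hi
    have a1 : ch (M s t) (M s t - (k + 1) + 1) = ch (M s t) k := by
      rw [← sym k (by omega)]
      congr 1
      omega
    refine GA0_right (k := M s t - (k + 1)) h0 CM.a0 G.nsM g0 gt' (by omega) (by omega) (by omega)
      ?_ ?_ vs ht ?_
    · rw [e, sy, a1, sym (k + 1) (by omega), add_comm]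
    · rcases H with H | H
      · left
        omega
      · exact Or.inr fun h3 => H ⟨v, Or.inr ⟨h3, ht⟩⟩
    · rw [ht] at lt
      simp only [Nat.cast_ofNat, Real.cos_pi_div_two] at lt
      rw [sy, a1]
      linarith
  · exfalso
    have x1 := GA0_cos h0 (M s v) (M.off_diagonal s v vs.symm) hs
    have x2 := GA0_cos h0 (M t v) (M.off_diagonal t v vt.symm) ht
    nlinarith

end Pool.Agent.Lib.MP_1b8ce0_al.T
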