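import Mathlib
import Pool.Agent.Lib.MP_1b8ce0_al.T.StsC

set_option linter.unusedSectionVars false
set_option linter.dupNamespace false

namespace Pool.Agent.Lib.MP_1b8ce0_al.T

open Pool.Agent.Lib.MP_6d85b4_al Real

theorem GAB_step (c : ℝ) (k : ℕ) :
    sq c 0 1 (k + 2) = c * sq c 0 1 (k + 1) - sq c 0 1 k := rfl

theorem GAB_neg (c : ℝ) (k : ℕ) : sq (-c) 0 1 k = (-1) ^ (k + 1) * sq c 0 1 k := by
  induction k using Nat.strong_induction_on with
  | _ k ih =>
    match k with
    | 0 => simp [Pool.Agent.Lib.MP_6d85b4_al.sq]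
    | 1 => simp [Pool.Agent.Lib.MP_6d85b4_al.sq]
    | k + 2 =>
      rw [GAB_step, GAB_step, ih (k + 1) (by omega), ih k (by omega)]
      ring

theorem GAB_sgn (c d : ℝ) (hd : d = 1 ∨ d = -1) (k : ℕ) :
    sq (d * c) 0 1 k = d ^ (k + 1) * sq c 0 1 k := by
  rcases hd with rfl | rfl
  · simp
  · rw [neg_one_mul, GAB_neg]

/-- a positive sequence with first zero at `m` -/
theorem GAB_angle (c : ℝ) (m : ℕ) (hm : 2 ≤ m) (hc : |c| < 2)
    (hpos : ∀ k, 1 ≤ k → k + 2 ≤ m → 0 < sq c 0 1 k * sq c 0 1 (k + 1))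
    (hz : sq c 0 1 m = 0) : c = 2 * cos (π / m) := by
  rw [abs_lt] at hc
  set x := arccos (c / 2) with hx
  have hcx : c = 2 * cos x := by
    rw [hx, cos_arccos (by linarith) (by linarith)]
    ring
  have hx0 : 0 < x := arccos_pos.2 (by linarith)
  have hx1 : x < π := by
    rcases (arccos_le_pi (c / 2)).lt_or_eq with h | h
    · exact h
    · exfalso
      rw [← hx] at h
      rw [h, cos_pi] at hcx
      linarith
  have hsx : 0 < sin x := sin_pos_of_pos_of_lt_pi hx0 hx1
  have hp : ∀ i, i + 1 < m → 0 < sq c 0 1 (i + 1) := by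
    intro i
    induction i with
    | zero => intro _; simp [Pool.Agent.Lib.MP_6d85b4_al.sq]
    | succ i ih =>
      intro hi
      exact (mul_pos_iff_of_pos_left (ih (by omega))).1 (hpos (i + 1) (by omega) (by omega))
  have hsin : ∀ k : ℕ, sq c 0 1 k * sin x = sin (k * x) := by
    intro k
    rw [hcx]
    exact sq_sin x k
  have hlt : ∀ i : ℕ, i < m → i * x < π := by
    intro i
    induction i with
    | zero => intro _; simpa using pi_pos
    | succ i ih =>
      intro hi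
      have h1 := ih (by omega)
      have h2 : 0 < sin (((i + 1 : ℕ) : ℝ) * x) := by
        rw [← hsin]
        exact mul_pos (hp i hi) hsx
      by_contra h3
      push Not at h3
      have h4 : ((i + 1 : ℕ) : ℝ) * x - π ≤ π := by
        push_cast
        nlinarith
      have h5 := sin_nonneg_of_nonneg_of_le_pi (sub_nonneg.2 h3) h4
      rw [sin_sub_pi] at h5
      linarith
  have h1 := hlt (m - 1) (by omega)
  rw [Nat.cast_sub (by omega)] at h1
  have hm' : (2 : ℝ) ≤ m := by exact_mod_cast hm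
  have h2 : sin (m * x - π) = 0 := by
    rw [sin_sub_pi, ← hsin, hz]
    simp
  have h3 : m * x - π = 0 := by
    refine (sin_eq_zero_iff_of_lt_of_lt ?_ ?_).1 h2
    · nlinarith
    · push_cast at h1
      nlinarith
  have h4 : x = π / m := by
    field_simp
    linarith
  rw [hcx, h4]

theorem GAB_sign (X : ℝ) (hX : X ≠ 0) : ∃ e : ℝ, (e = 1 ∨ e = -1) ∧ 0 < e * X := by
  rcases lt_or_gt_of_ne hX with h | h
  · exact ⟨-1, Or.inr rfl, by linarith⟩
  · exact ⟨1, Or.inl rfl, by linarith⟩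

theorem GAB_pos {a b : ℝ} (h : 0 < a * b) (ha : 0 ≤ a) : 0 < b := by
  by_contra hb
  exact absurd h (not_lt.2 (mul_nonpos_of_nonneg_of_nonpos ha (not_lt.1 hb)))

section Main

variable {T B : Type} [Fintype T] [DecidableEq T] [Fintype B] [DecidableEq B]
  {M : CoxeterMatrix T} {N : CoxeterMatrix B} {j : M.Group →* N.Group} {β : T → B → ℝ}

/-- the roots of the edge on both sides -/
theorem GAB_roots (h0 : C0a N) (hr : ∀ t, ReflOf N (j (sr M t)) (β t)) (k : ℕ) :
    ∀ s t, ∃ w u, (u = s ∨ u = t) ∧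
      rho M w (al u) = ch (M s t) k • al s + ch (M s t) (k + 1) • al t ∧
      rho N (j w) (β u) = sq (-2 * Bf N (β s) (β t)) 0 1 k • β s +
        sq (-2 * Bf N (β s) (β t)) 0 1 (k + 1) • β t := by
  induction k with
  | zero =>
    intro s t
    refine ⟨1, t, Or.inr rfl, ?_, ?_⟩ <;> simp [ch, Pool.Agent.Lib.MP_6d85b4_al.sq]
  | succ k ih =>
    intro s t
    obtain ⟨w, u, hu, h1, h2⟩ := ih t s
    refine ⟨sr M t * w, u, hu.symm, ?_, ?_⟩
    · rw [rho_mul, h1, rho_simple, rf_plane, M.symmetric t s]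
      have : ch (M s t) (k + 1 + 1) = cc M t s * ch (M s t) (k + 1) - ch (M s t) k := by
        rw [cc, M.symmetric t s]
        rfl
      rw [this]
    · have hn : Bf N (β t) (β t) = 1 := h0.root_norm _ (h0.refl_isRoot _ _ (hr t))
      rw [map_mul, rho_mul, h2, h0.refl_eq _ _ (hr t), Bf_add_right, Bf_smul_right,
        Bf_smul_right, hn, Bf_symm N (β t) (β s), GAB_step]
      module

end Main

theorem GAB_thm (_h0 : St_CH) (hA : St_CA) (h1 : St_G0) (h2 : St_GT) (h3 : St_GA0) : St_GAB := by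
  intro T B _ _ _ _ M N j β hG s t hm
  have hC := hA B N hG.nsN
  have g0 := h1 T B M N j β hG
  have gt := h2 T B M N j β hG
  have ga := h3 T B M N j β hG
  have hst : s ≠ t := by
    rintro rfl
    rw [M.diagonal] at hm
    omega
  have hadj : Adj M s t := ⟨hst, by omega⟩
  have hadj' : Adj M t s := ⟨hst.symm, by rw [M.symmetric]; omega⟩
  have hrs : IsRoot N (β s) := hC.a0.refl_isRoot _ _ (hG.refl s)
  have hrt : IsRoot N (β t) := hC.a0.refl_isRoot _ _ (hG.refl t)
  have hne : ¬ (β t = β s ∨ β t = -β s) := by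
    intro h
    have h4 := (g0.same 1 1 s t).1 (by simpa using h)
    rw [rho_one, rho_one] at h4
    rcases h4 with h4 | h4
    · have := congrFun h4 t
      rw [al_self, al_ne hst.symm] at this
      exact one_ne_zero this
    · have := congrFun h4 t
      rw [al_self, Pi.neg_apply, al_ne hst.symm, neg_zero] at this
      exact one_ne_zero this
  have hne1 : β t ≠ β s := fun h => hne (Or.inl h)
  have hne2 : β t ≠ -β s := fun h => hne (Or.inr h)
  set m := M s t with hmdef
  set c' := -2 * Bf N (β s) (β t) with hc'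
  have hroots := fun k => GAB_roots (M := M) (j := j) hC.a0 hG.refl k s t
  -- the coefficients
  have hnz : ∀ k, 0 < k → k < m → sq c' 0 1 k ≠ 0 := by
    intro k hk0 hk hz
    obtain ⟨w, u, -, e1, e2⟩ := hroots k
    rw [← hc', hz, zero_smul, zero_add] at e2
    have hroot : IsRoot N (sq c' 0 1 (k + 1) • β t) := by
      rw [← e2]
      exact hC.a0.root_rho _ _ (hC.a0.refl_isRoot _ _ (hG.refl u))
    have h4 : rho N (j w) (β u) = rho N (j 1) (β t) ∨ rho N (j w) (β u) = -rho N (j 1) (β t) := by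
      rw [map_one, rho_one, e2]
      rcases hC.a0.root_smul _ _ hrt hroot with h | h
      · left; rw [h, one_smul]
      · right; rw [h, neg_one_smul]
    have h5 := (g0.same 1 w t u).1 h4
    rw [rho_one, e1] at h5
    have h6 := ch_pos (m := m) (by omega) hk0 hk
    rcases h5 with h5 | h5
    · have := congrFun h5 s
      simp [al_ne hst] at this
      exact h6.ne' this
    · have := congrFun h5 s
      simp [al_ne hst] at this
      exact h6.ne' this
  have hzm : sq c' 0 1 m = 0 := by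
    obtain ⟨w, u, -, e1, e2⟩ := hroots (m - 1)
    rw [Nat.sub_add_cancel (by omega)] at e1 e2
    rw [← hmdef, ch_pred_self (by omega), ch_self (by omega), zero_smul, add_zero,
      one_smul] at e1
    have h4 := (g0.same 1 w s u).2 (Or.inl (by rw [rho_one, e1]))
    rw [map_one, rho_one, e2, ← hc'] at h4
    rcases h4 with h4 | h4
    · refine (hC.a0.root_indep (β s) (β t) (sq c' 0 1 (m - 1) - 1) _ hrs hrt hne1 hne2 ?_).2
      rw [sub_smul, one_smul, sub_add_eq_add_sub, h4, sub_self]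
    · refine (hC.a0.root_indep (β s) (β t) (sq c' 0 1 (m - 1) + 1) _ hrs hrt hne1 hne2 ?_).2
      rw [add_smul, one_smul, add_right_comm, h4, neg_add_cancel]
  -- one sign for the valid values of `k`
  have hone : ∀ k, 1 ≤ k → k + 2 ≤ m → ((2 ≤ k ∧ k + 3 ≤ m) ∨
      ¬ ∃ v, (M s v = 2 ∧ M t v = 3) ∨ (M s v = 3 ∧ M t v = 2)) →
      ∃ ε : ℝ, (∀ b y, b ≠ s → Adj M t b → OnV N β t b y → 0 < ε * (sq c' 0 1 k * y (β s))) ∧
        ∀ a y, a ≠ t → Adj M s a → OnV N β s a y → 0 < ε * (sq c' 0 1 (k + 1) * y (β t)) := by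
    intro k hk1 hk2 hv
    obtain ⟨w, u, hu, e1, e2⟩ := hroots k
    obtain ⟨ε, -, hε⟩ := ga s t w u k hm hu hk1 hk2 e1 hv
    rw [e2, ← hc'] at hε
    refine ⟨ε, fun b y hb hadjb hy => ?_, fun a y ha hadja hy => ?_⟩
    · have := hε b t ⟨hadjb.1.symm, by rw [M.symmetric]; exact hadjb.2⟩ hb hadjb.1.symm y
        ⟨hy.1, hy.2.2, hy.2.1⟩
      rw [map_add, map_smul, map_smul, hy.2.1, smul_zero, add_zero, smul_eq_mul] at this
      exact this
    · have := hε a s ⟨hadja.1.symm, by rw [M.symmetric]; exact hadja.2⟩ hadja.1.symm ha y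
        ⟨hy.1, hy.2.2, hy.2.1⟩
      rw [map_add, map_smul, map_smul, hy.2.1, smul_zero, zero_add, smul_eq_mul] at this
      exact this
  have hsix : (∃ v, (M s v = 2 ∧ M t v = 3) ∨ (M s v = 3 ∧ M t v = 2)) → 6 ≤ m := by
    rintro ⟨v, hv⟩
    have hsv : s ≠ v := by
      rintro rfl
      rw [M.diagonal] at hv
      omega
    have htv : t ≠ v := by
      rintro rfl
      rw [M.diagonal] at hv
      omega
    have h4 := hG.nsM s t v hst htv hsv
    rw [← hmdef] at h4
    have h5 : 1 / (m : ℚ) ≤ 1 / 6 := by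
      rcases hv with ⟨a, b⟩ | ⟨a, b⟩
      · rw [a, b] at h4
        push_cast at h4
        linarith
      · rw [a, b] at h4
        push_cast at h4
        linarith
    have h6 : (0 : ℚ) < m := by exact_mod_cast (by omega : 0 < m)
    have h7 := (one_div_le_one_div h6 (by norm_num)).1 h5
    exact_mod_cast h7
  obtain ⟨b0, hb0, hadjb0⟩ := g0.nb t s hadj'
  obtain ⟨a0, ha0, hadja0⟩ := g0.nb s t hadj
  obtain ⟨yb, hyb⟩ := g0.vert t b0 hadjb0
  obtain ⟨ya, hya⟩ := g0.vert s a0 hadja0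
  obtain ⟨k0, ε0, hε1, hε2⟩ : ∃ (k0 : ℕ) (ε : ℝ),
      (∀ b y, b ≠ s → Adj M t b → OnV N β t b y → 0 < ε * (sq c' 0 1 k0 * y (β s))) ∧
        ∀ a y, a ≠ t → Adj M s a → OnV N β s a y → 0 < ε * (sq c' 0 1 (k0 + 1) * y (β t)) := by
    by_cases hv : ∃ v, (M s v = 2 ∧ M t v = 3) ∨ (M s v = 3 ∧ M t v = 2)
    · have := hsix hv
      exact ⟨2, hone 2 (by omega) (by omega) (Or.inl ⟨le_rfl, by omega⟩)⟩
    · exact ⟨1, hone 1 le_rfl (by omega) (Or.inr hv)⟩
  have hX : yb (β s) ≠ 0 := by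
    intro h
    have := hε1 b0 yb hb0 hadjb0 hyb
    rw [h] at this
    simp at this
  have hY : ya (β t) ≠ 0 := by
    intro h
    have := hε2 a0 ya ha0 hadja0 hya
    rw [h] at this
    simp at this
  obtain ⟨e, he, heX⟩ := GAB_sign _ hX
  obtain ⟨f, hf, hfY⟩ := GAB_sign _ hY
  have trans : ∀ p X Z e : ℝ, 0 < p * X → 0 < p * Z → 0 < e * X → 0 < e * Z := by
    intro p X Z e a1 a2 a3
    have a4 : 0 < (p * X) * (e * X) := mul_pos a1 a3
    have a5 : 0 < (p * Z) * ((p * X) * (e * X)) := mul_pos a2 a4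
    have a6 : (p * Z) * ((p * X) * (e * X)) = (p * X) ^ 2 * (e * Z) := by ring
    rw [a6] at a5
    exact (mul_pos_iff_of_pos_left (by positivity)).1 a5
  have r1 : ∀ b y, b ≠ s → Adj M t b → OnV N β t b y → 0 < e * y (β s) := by
    intro b y hb hadjb hy
    refine trans (ε0 * sq c' 0 1 k0) (yb (β s)) _ e ?_ ?_ heX
    · rw [mul_assoc]; exact hε1 b0 yb hb0 hadjb0 hyb
    · rw [mul_assoc]; exact hε1 b y hb hadjb hy
  have r2 : ∀ a y, a ≠ t → Adj M s a → OnV N β s a y → 0 < f * y (β t) := by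
    intro a y ha hadja hy
    refine trans (ε0 * sq c' 0 1 (k0 + 1)) (ya (β t)) _ f ?_ ?_ hfY
    · rw [mul_assoc]; exact hε2 a0 ya ha0 hadja0 hya
    · rw [mul_assoc]; exact hε2 a y ha hadja hy
  refine ⟨e, f, he, hf, r1, r2, ?_⟩
  have hd : e * f = 1 ∨ e * f = -1 := by
    rcases he with rfl | rfl <;> rcases hf with rfl | rfl <;> norm_num
  have hdd : (e * f) ^ 2 = 1 := by rcases hd with h | h <;> rw [h] <;> norm_num
  have hd0 : e * f ≠ 0 := by rcases hd with h | h <;> rw [h] <;> norm_num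
  have hτ := GAB_sgn c' (e * f) hd
  have hprod : ∀ k, sq (e * f * c') 0 1 k * sq (e * f * c') 0 1 (k + 1) =
      e * f * (sq c' 0 1 k * sq c' 0 1 (k + 1)) := by
    intro k
    rw [hτ, hτ]
    calc (e * f) ^ (k + 1) * sq c' 0 1 k * ((e * f) ^ (k + 1 + 1) * sq c' 0 1 (k + 1))
        = ((e * f) ^ 2) ^ (k + 1) * (e * f * (sq c' 0 1 k * sq c' 0 1 (k + 1))) := by ring
      _ = _ := by rw [hdd, one_pow, one_mul]
  have hvalid : ∀ k, 1 ≤ k → k + 2 ≤ m → ((2 ≤ k ∧ k + 3 ≤ m) ∨
      ¬ ∃ v, (M s v = 2 ∧ M t v = 3) ∨ (M s v = 3 ∧ M t v = 2)) →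
      0 < sq (e * f * c') 0 1 k * sq (e * f * c') 0 1 (k + 1) := by
    intro k hk1 hk2 hv
    obtain ⟨ε, q1, q2⟩ := hone k hk1 hk2 hv
    have a1 := q1 b0 yb hb0 hadjb0 hyb
    have a2 := q2 a0 ya ha0 hadja0 hya
    rw [hprod]
    have a3 := mul_pos (mul_pos a1 a2) (mul_pos heX hfY)
    have a4 : ε * (sq c' 0 1 k * yb (β s)) * (ε * (sq c' 0 1 (k + 1) * ya (β t))) *
        (e * yb (β s) * (f * ya (β t))) =
        (ε * yb (β s) * ya (β t)) ^ 2 * (e * f * (sq c' 0 1 k * sq c' 0 1 (k + 1))) := by ring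
    rw [a4] at a3
    exact GAB_pos a3 (sq_nonneg _)
  have hz : sq (e * f * c') 0 1 m = 0 := by rw [hτ, hzm, mul_zero]
  have habs : |e * f * c'| < 2 := by
    obtain ⟨y, hy⟩ := g0.vert s t hadj
    have h4 := hC.t1.cross_lt _ _ ⟨hrs, hrt, hne1, hne2, y, hy⟩
    have h5 : |e * f| = 1 := by rcases hd with h | h <;> rw [h] <;> norm_num
    rw [abs_mul, h5, hc', abs_mul, one_mul]
    norm_num
    linarith
  have hall : ∀ k, 1 ≤ k → k + 2 ≤ m →
      0 < sq (e * f * c') 0 1 k * sq (e * f * c') 0 1 (k + 1) := by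
    intro k hk1 hk2
    by_cases hv : ∃ v, (M s v = 2 ∧ M t v = 3) ∨ (M s v = 3 ∧ M t v = 2)
    swap
    · exact hvalid k hk1 hk2 (Or.inr hv)
    have h6 := hsix hv
    obtain ⟨v, hv⟩ := hv
    have hsv : Adj M s v := by
      refine ⟨?_, by omega⟩
      rintro rfl
      rw [M.diagonal] at hv
      omega
    have htv : Adj M t v := by
      refine ⟨?_, by omega⟩
      rintro rfl
      rw [M.diagonal] at hv
      omega
    obtain ⟨y, hy⟩ := g0.vert t v htv
    obtain ⟨y', hy'⟩ := g0.vert s v hsv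
    have hneg : Bf N (β s) (β t) * (y (β s) * y' (β t)) < 0 := by
      rcases hv with ⟨a, b⟩ | ⟨a, b⟩
      · exact (gt s t v hm a).2.2.2 (by omega) y y' hy hy'
      · have := (gt t s v (by rw [M.symmetric]; exact hm) b).2.2.2 (by omega) y' y hy' hy
        rw [Bf_symm, mul_comm (y' (β t))] at this
        exact this
    have hcpos : 0 < e * f * c' := by
      have a1 := r1 v y hsv.1.symm htv hy
      have a2 := r2 v y' htv.1.symm hsv hy'
      have a3 := mul_pos (mul_pos a1 a2) (neg_pos.2 hneg)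
      have a4 : e * y (β s) * (f * y' (β t)) * -(Bf N (β s) (β t) * (y (β s) * y' (β t))) =
          ((y (β s) * y' (β t)) ^ 2 / 2) * (e * f * c') := by
        rw [hc']
        ring
      rw [a4] at a3
      exact GAB_pos a3 (by positivity)
    by_cases hk : k = 1
    · subst hk
      simpa [Pool.Agent.Lib.MP_6d85b4_al.sq] using hcpos
    by_cases hk' : k + 2 = m
    · have a1 := GAB_step (e * f * c') k
      rw [hk', hz] at a1
      have a2 : sq (e * f * c') 0 1 (k + 1) ≠ 0 := by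
        rw [hτ]
        exact mul_ne_zero (pow_ne_zero _ hd0) (hnz (k + 1) (by omega) (by omega))
      have a3 : sq (e * f * c') 0 1 k = e * f * c' * sq (e * f * c') 0 1 (k + 1) := by linarith
      rw [a3, mul_assoc]
      exact mul_pos hcpos (mul_self_pos.2 a2)
    · exact hvalid k hk1 hk2 (Or.inl ⟨by omega, by omega⟩)
  have hfin := GAB_angle (e * f * c') m (by omega) habs hall hz
  rw [hc'] at hfin
  linarith

end Pool.Agent.Lib.MP_1b8ce0_al.T
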