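import Mathlib
import Pool.Agent.Lib.MP_1b8ce0_al.T.StsC

set_option linter.unusedSectionVars false
set_option linter.dupNamespace false

namespace Pool.Agent.Lib.MP_1b8ce0_al.T

open Pool.Agent.Lib.MP_6d85b4_al

section Basic

variable {B : Type} [Fintype B] [DecidableEq B] {N : CoxeterMatrix B}

theorem GFIN_expand (x : Pt B) (a : B → ℝ) : x a = ∑ i, a i * x (al i) := by
  have : a = ∑ i, a i • al i := by
    ext k
    simp [al, Finset.sum_apply, Pi.single_apply]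
  conv_lhs => rw [this]
  simp [map_sum]

theorem GFIN_cham {x : Pt B} (hx : Cham x) {a : B → ℝ} (ha : Pos a) : 0 ≤ x a := by
  rw [GFIN_expand]
  exact Finset.sum_nonneg fun i _ => mul_nonneg (ha i) (hx i)

theorem GFIN_supp {x : Pt B} {a : B → ℝ} (ha : ∀ i, a i ≠ 0 → i ∈ Zs x) : x a = 0 := by
  rw [GFIN_expand]
  refine Finset.sum_eq_zero fun i _ => ?_
  by_cases h : a i = 0
  · rw [h, zero_mul]
  · have : x (al i) = 0 := ha i h
    rw [this, mul_zero]

theorem GFIN_cross_symm {a b : B → ℝ} (h : Cross N a b) : Cross N b a := by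
  obtain ⟨h1, h2, h3, h4, x, hx, h5, h6⟩ := h
  refine ⟨h2, h1, h3.symm, fun e => h4 ?_, x, hx, h6, h5⟩
  rw [e, neg_neg]

theorem GFIN_cross_neg (C : C0a N) {a b : B → ℝ} (h : Cross N a (-b)) : Cross N a b := by
  obtain ⟨h1, h2, h3, h4, x, hx, h5, h6⟩ := h
  refine ⟨h1, by simpa using C.root_neg _ h2, fun e => h4 (by rw [e]), fun e => h3 ?_, x, hx, h5,
    by simpa using h6⟩
  rw [e, neg_neg]

theorem GFIN_refl_self (C : C0a N) {r : N.Group} {a : B → ℝ} (h : ReflOf N r a) :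
    rho N r a = -a := by
  rw [C.refl_eq r a h, C.root_norm a (C.refl_isRoot r a h)]
  module

end Basic

section Main

variable {T B : Type} [Fintype T] [DecidableEq T] [Fintype B] [DecidableEq B]
  {M : CoxeterMatrix T} {N : CoxeterMatrix B} {j : M.Group →* N.Group} {β : T → B → ℝ}

/-- the standing hypotheses -/
structure GFIN_H (M : CoxeterMatrix T) (N : CoxeterMatrix B) (j : M.Group →* N.Group)
    (β : T → B → ℝ) : Prop where
  cM : CA M
  cN : CA N
  geo : Geo M N j β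
  g0 : G0 M N j β
  ori : Oriented M N β

theorem GFIN_adj_symm {s t : T} (h : Adj M s t) : Adj M t s :=
  ⟨h.1.symm, by rw [M.symmetric]; exact h.2⟩

theorem GFIN_H.root (H : GFIN_H M N j β) (t : T) : IsRoot N (β t) :=
  H.cN.a0.refl_isRoot _ _ (H.geo.refl t)

theorem GFIN_H.nbr (H : GFIN_H M N j β) (t : T) : ∃ u, Adj M t u := by
  obtain ⟨⟨s1, -, s2, -, s3, -, h12, -, -⟩, hc⟩ := H.geo.rig
  have hp := hc ∅ ⟨fun s hs => absurd hs (Set.notMem_empty s),
    fun s hs => absurd hs (Set.notMem_empty s)⟩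
  obtain ⟨s, hs⟩ : ∃ s, s ≠ t := by
    by_cases h : s1 = t
    · exact ⟨s2, fun e => h12 (h.trans e.symm)⟩
    · exact ⟨s1, h⟩
  have := hp t (by simp) s (by simp)
  rcases Relation.ReflTransGen.cases_head this with h | ⟨u, hu, -⟩
  · exact absurd h.symm hs
  · exact ⟨u, hu.2.2⟩

theorem GFIN_H.ne (H : GFIN_H M N j β) {s t : T} (h : s ≠ t) : β t ≠ β s ∧ β t ≠ -β s := by
  obtain ⟨u, hu, hut⟩ : ∃ u, Adj M s u ∧ u ≠ t := by
    obtain ⟨u, hu⟩ := H.nbr s
    by_cases e : u = t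
    · subst e
      obtain ⟨v, hv1, hv2⟩ := H.g0.nb s u hu
      exact ⟨v, hv2, hv1⟩
    · exact ⟨u, hu, e⟩
  obtain ⟨y, hy⟩ := H.g0.vert s u hu
  have h1 := H.ori s u t hu h.symm hut.symm y hy
  constructor
  · intro e
    rw [e, hy.2.1] at h1
    exact lt_irrefl _ h1
  · intro e
    rw [e, map_neg, hy.2.1, neg_zero] at h1
    exact lt_irrefl _ h1

theorem GFIN_H.nonneg (H : GFIN_H M N j β) {s t : T} (h : Adj M s t) {y : Pt B}
    (hy : OnV N β s t y) (u : T) : 0 ≤ y (β u) := by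
  by_cases h1 : u = s
  · rw [h1, hy.2.1]
  by_cases h2 : u = t
  · rw [h2, hy.2.2]
  exact (H.ori s t u h h1 h2 y hy).le

theorem GFIN_H.wall (H : GFIN_H M N j β) {s t : T} (h : M s t = 0) :
    ∀ y, InI N y → y (β s) = 0 → 0 < y (β t) := by
  have hst : s ≠ t := by
    rintro rfl
    rw [M.diagonal] at h
    omega
  obtain ⟨u, hu⟩ := H.nbr s
  have hut : t ≠ u := by
    rintro rfl
    exact hu.2 h
  obtain ⟨y, hy⟩ := H.g0.vert s u hu
  have h1 := H.ori s u t hu hst.symm hut y hy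
  rcases H.cN.b1.side _ _ (H.root s) (H.root t) (H.ne hst).1 (H.ne hst).2 (H.g0.far s t h) with
    h2 | h2
  · exact h2
  · exact absurd (h2 y hy.1 hy.2.1) (not_lt.2 h1.le)

theorem GFIN_H.zero (H : GFIN_H M N j β) {s t : T} (h : M s t = 0) :
    Bf N (β s) (β t) ≤ -1 := by
  refine H.cN.c1.nb _ _ (H.root s) (H.root t) ?_
  rintro ⟨x, hx, h1, h2⟩
  obtain ⟨z, hz, hz0⟩ := H.cN.a1.wall _ (H.root s)
  have hz1 := H.wall h z hz hz0
  obtain ⟨p, q, hp, hq, -, hI, h0⟩ := H.cN.a1.zero z x (β t) hz hx hz1.le h2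
  have h3 := H.wall (s := t) (t := s) (by rw [M.symmetric]; exact h) _ hI (by simpa using h0)
  simp only [LinearMap.add_apply, LinearMap.smul_apply, smul_eq_mul, hz0, mul_zero,
    zero_add] at h3
  nlinarith

theorem GFIN_H.sharp (H : GFIN_H M N j β) (h2 : St_GAB) {s t : T} (hst : s ≠ t)
    (h : M s t ≠ 0) : Bf N (β s) (β t) = -Real.cos (Real.pi / M s t) := by
  by_cases e2 : M s t = 2
  · rw [H.g0.two s t e2, e2]
    simp
  have h1 : M s t ≠ 1 := M.off_diagonal s t hst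
  obtain ⟨e, f, he, hf, ha, hb, hc⟩ := h2 T B M N j β H.geo s t (by omega)
  have hadj : Adj M s t := ⟨hst, h⟩
  have e1 : e = 1 := by
    rcases he with he | he
    · exact he
    · obtain ⟨b, hb1, hb2⟩ := H.g0.nb t s (GFIN_adj_symm hadj)
      obtain ⟨y, hy⟩ := H.g0.vert t b hb2
      have h3 := ha b y hb1 hb2 hy
      have h4 := H.nonneg hb2 hy s
      rw [he] at h3
      linarith
  have f1 : f = 1 := by
    rcases hf with hf | hf
    · exact hf
    · obtain ⟨b, hb1, hb2⟩ := H.g0.nb s t hadj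
      obtain ⟨y, hy⟩ := H.g0.vert s b hb2
      have h3 := hb b y hb1 hb2 hy
      have h4 := H.nonneg hb2 hy t
      rw [hf] at h3
      linarith
  rw [e1, f1] at hc
  simpa using hc

/-- a vertex is moved into the chamber by an element of the parabolic subgroup -/
theorem GFIN_H.fold (H : GFIN_H M N j β) {U : Set B} (hU : ∀ w, j w ∈ par N U) {s t : T}
    (h : Adj M s t) {y : Pt B} (hy : OnV N β s t y) : ∃ u ∈ par N U,
      Cham (act N u⁻¹ y) ∧ ∃ i ∈ U, ∃ k ∈ U, Zs (act N u⁻¹ y) = {i, k} := by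
  have hs : ∀ t, Supp U (β t) := fun t => (H.cN.b0.refl_mem U _ _ (H.geo.refl t)).1 (hU _)
  obtain ⟨u, hu, i, hi, k, hk, -, -, h1, h2⟩ := H.cN.b1.vx0 U y _ _ hy.1 (H.root s) (H.root t)
    (H.ne h.1).1 (H.ne h.1).2 (hs s) (hs t) hy.2.1 hy.2.2
  exact ⟨u, hu, h1, i, hi, k, hk, h2⟩

/-- all vertices are weakly on one side of `a` -/
def GFIN_One (M : CoxeterMatrix T) (N : CoxeterMatrix B) (β : T → B → ℝ) (a : B → ℝ) : Prop :=
  (∀ s t y, Adj M s t → OnV N β s t y → 0 ≤ y a) ∨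
    ∀ s t y, Adj M s t → OnV N β s t y → 0 ≤ y (-a)

theorem GFIN_One.neg {a : B → ℝ} (h : GFIN_One M N β a) : GFIN_One M N β (-a) := by
  rcases h with h | h
  · exact Or.inr (by simpa using h)
  · exact Or.inl h

theorem GFIN_H.case1 (H : GFIN_H M N j β) {U : Set B} (hU : ∀ w, j w ∈ par N U) {a : B → ℝ}
    (ha : IsRoot N a) (hs : ¬ Supp U a) : GFIN_One M N β a := by
  have key : ∀ a, IsRoot N a → ¬ Supp U a → Pos a →
      ∀ s t y, Adj M s t → OnV N β s t y → 0 ≤ y a := by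
    intro a ha hs hp s t y h hy
    obtain ⟨u, hu, h1, -⟩ := H.fold hU h hy
    have := GFIN_cham h1 (H.cN.b0.pos_par U u⁻¹ a (inv_mem hu) ha hp hs)
    rwa [act_rho] at this
  rcases H.cN.a0.root_pos a ha with hp | hp
  · exact Or.inl (key a ha hs hp)
  · refine Or.inr (key _ (H.cN.a0.root_neg a ha) (fun h => hs fun i hi => ?_) hp)
    simpa using h i hi

theorem GFIN_H.case2 (H : GFIN_H M N j β) (h2 : St_GAB) (h3 : St_HEE) {a : B → ℝ} {w : M.Group}
    (ha : ReflOf N (j w) a) : GFIN_One M N β a := by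
  obtain ⟨e1, e2, e3⟩ := H.cN.a0.refl_sq _ ⟨a, ha⟩
  have hw : w * w = 1 := H.geo.inj (by rw [map_mul, e1, map_one])
  have hfin : IsOfFinOrder w := isOfFinOrder_iff_pow_eq_one.2 ⟨2, by norm_num, by rw [pow_two, hw]⟩
  have hsg : ∀ t, sg N (j (sr M t)) = -1 := fun t => (H.cN.a0.refl_sq _ ⟨_, H.geo.refl t⟩).2.2
  rcases H.cM.t1.tors w hfin with h | ⟨b, w', t, -, h⟩ | ⟨c, i, k, n, -, -, h, -⟩
  · exact absurd (by rw [h, map_one]) e2
  · have hr := H.cN.a0.refl_conj (j w') _ _ (H.geo.refl t)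
    rw [← map_inv, ← map_mul, ← map_mul, ← h] at hr
    obtain ⟨c, hc, hsum⟩ := h3 T B M N j β H.geo.refl (fun s t h h' => H.sharp h2 h h')
      (fun s t h => H.zero h) w' t
    have hone : GFIN_One M N β (rho N (j w') (β t)) := by
      rw [hsum]
      rcases hc with hc | hc
      · refine Or.inl fun s t y h hy => ?_
        rw [map_sum]
        refine Finset.sum_nonneg fun i _ => ?_
        rw [map_smul, smul_eq_mul]
        exact mul_nonneg (hc i) (H.nonneg h hy i)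
      · refine Or.inr fun s t y h hy => ?_
        rw [map_neg, map_sum, neg_nonneg]
        refine Finset.sum_nonpos fun i _ => ?_
        rw [map_smul, smul_eq_mul]
        exact mul_nonpos_of_nonpos_of_nonneg (hc i) (H.nonneg h hy i)
    rcases H.cN.a0.refl_root _ _ _ hr ha with e | e
    · rwa [e]
    · rw [e]
      exact hone.neg
  · exfalso
    rw [h] at e3
    simp only [map_mul, map_pow, map_inv, hsg] at e3
    simp at e3

/-- `a` crosses no wall off `J` -/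
def GFIN_Far (N : CoxeterMatrix B) (β : T → B → ℝ) (J : Set T) (a : B → ℝ) : Prop :=
  IsRoot N a ∧ ∀ u ∈ Set.univ \ J, β u ≠ a ∧ β u ≠ -a ∧ ¬ Cross N (β u) a

theorem GFIN_H.far_neg (H : GFIN_H M N j β) {J : Set T} {a : B → ℝ} (h : GFIN_Far N β J a) :
    GFIN_Far N β J (-a) :=
  ⟨H.cN.a0.root_neg a h.1, fun u hu => ⟨(h.2 u hu).2.1, by simpa using (h.2 u hu).1,
    fun hc => (h.2 u hu).2.2 (GFIN_cross_neg H.cN.a0 hc)⟩⟩

theorem GFIN_H.far_prop (H : GFIN_H M N j β) {J : Set T} (hJ : Simplex M J) {a : B → ℝ}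
    (h : GFIN_Far N β J a) {u v : T} (hu : u ∉ J) (hv : v ∉ J) {y y' : Pt B} (hy : InI N y)
    (hy' : InI N y') (h1 : y (β u) = 0) (h2 : y' (β v) = 0) (h3 : 0 < y a) : 0 < y' a :=
  H.g0.prop (Set.univ \ J) a h.1 h.2 u v
    (H.geo.rig.2 J hJ u ⟨Set.mem_univ _, hu⟩ v ⟨Set.mem_univ _, hv⟩) ⟨Set.mem_univ _, hu⟩
    y y' hy hy' h1 h2 h3

theorem GFIN_H.case3a (H : GFIN_H M N j β) {J : Set T} (hfin : Finite (par M J)) {a : B → ℝ}
    (h : ∀ g ∈ par M J, GFIN_Far N β J (rho N (j g) a)) {u0 : T} (hu0 : u0 ∉ J) {y0 : Pt B}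
    (hy0 : InI N y0) (h0 : y0 (β u0) = 0) (hpos : 0 < y0 a) :
    ∀ s t y, Adj M s t → OnV N β s t y → 0 ≤ y a := by
  have hJ : Simplex M J := (H.cM.b1.fin_par J).1 hfin
  have h1 : GFIN_Far N β J a := by simpa using h 1 (one_mem _)
  intro s t y hst hy
  by_cases hs : s ∈ J
  swap
  · exact (H.far_prop hJ h1 hu0 hs hy0 hy.1 h0 hy.2.1 hpos).le
  by_cases ht : t ∈ J
  swap
  · exact (H.far_prop hJ h1 hu0 ht hy0 hy.1 h0 hy.2.2 hpos).le
  have hnb : ∀ p ∈ J, ∃ q, q ∉ J ∧ Adj M p q := by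
    have aux : ∀ p p', p ∈ J → p' ∈ J → Adj M p p' → ∃ q, q ∉ J ∧ Adj M p q := by
      intro p p' hp hp' hpp
      obtain ⟨q, hq1, hq2⟩ := H.g0.nb p p' hpp
      refine ⟨q, fun hq => ?_, hq2⟩
      rcases hJ.2 p hp p' hp' q hq with e | e | e
      · exact hpp.1 e
      · exact hq1 e.symm
      · exact hq2.1 e
    intro p hp
    rcases hJ.2 s hs t ht p hp with e | e | e
    · exact absurd e hst.1
    · exact e ▸ aux t s ht hs (GFIN_adj_symm hst)
    · exact e ▸ aux s t hs ht hst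
  have step : ∀ p ∈ J, ∀ g ∈ par M J, 0 < y0 (rho N (j g) a) →
      0 < y0 (rho N (j (sr M p * g)) a) := by
    intro p hp g hg hga
    obtain ⟨q, hq, hpq⟩ := hnb p hp
    obtain ⟨v, hv⟩ := H.g0.vert p q hpq
    have e1 := H.far_prop hJ (h g hg) hu0 hq hy0 hv.1 h0 hv.2.2 hga
    refine H.far_prop hJ (h _ (mul_mem (gp_mem _ hp) hg)) hq hu0 hv.1 hy0 hv.2.2 h0 ?_
    rw [map_mul, rho_mul, H.cN.a0.refl_eq _ _ (H.geo.refl p), map_sub, map_smul, hv.2.1]
    simpa using e1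
  have hall : ∀ g ∈ par M J, 0 < y0 (rho N (j g) a) := by
    intro g hg
    induction hg using Subgroup.closure_induction_left with
    | one => simpa using hpos
    | mul_left x hx g hg ih =>
      obtain ⟨p, hp, rfl⟩ := hx
      exact step p hp g hg ih
    | inv_mul_cancel x hx g hg ih =>
      obtain ⟨p, hp, rfl⟩ := hx
      rw [M.toCoxeterSystem.inv_simple]
      exact step p hp g hg ih
  have := Fintype.ofFinite (par M J)
  let z : Pt B := ∑ g : par M J, act N (j g)⁻¹ y0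
  have hz : ∀ b, z b = ∑ g : par M J, y0 (rho N (j g) b) := by
    intro b
    simp only [z, LinearMap.sum_apply, act_apply, inv_inv]
  have hzI : InI N z :=
    Finset.sum_induction_nonempty _ (InI N) (fun x y hx hy => H.cN.a1.add x y hx hy)
      Finset.univ_nonempty (fun g _ => H.cN.a1.act_mem _ _ hy0)
  have hz0 : ∀ p ∈ J, z (β p) = 0 := by
    intro p hp
    have e1 : z (β p) = -z (β p) := by
      conv_lhs => rw [hz, ← Equiv.sum_comp (Equiv.mulRight (⟨sr M p, gp_mem _ hp⟩ : par M J))]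
      rw [hz, ← Finset.sum_neg_distrib]
      refine Finset.sum_congr rfl fun g _ => ?_
      simp only [Equiv.coe_mulRight, Subgroup.coe_mul]
      rw [map_mul, rho_mul, GFIN_refl_self H.cN.a0 (H.geo.refl p), map_neg, map_neg]
    linarith
  have hza : 0 < z a := by
    rw [hz]
    exact Finset.sum_pos (fun g _ => hall g g.2) Finset.univ_nonempty
  exact (H.cN.b1.face_eq z y _ _ a hzI hy.1 (H.root s) (H.root t) h1.1 (H.ne hst.1).1
    (H.ne hst.1).2 (hz0 s hs) (hz0 t ht) hy.2.1 hy.2.2 hza).le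

theorem GFIN_H.case3 (H : GFIN_H M N j β) {a : B → ℝ} {r : N.Group} (ha : ReflOf N r a)
    (hr : r ∉ j.range) {K : Subgroup N.Group} (hK : Finite K)
    (hw : ∀ w, IsRefl N (j w) → IsOfFinOrder (r * j w) → j w ∈ K) : GFIN_One M N β a := by
  let J : Set T := {t | j (sr M t) ∈ K}
  have hle : ∀ g ∈ par M J, j g ∈ K := fun g hg =>
    (gp_le (x := sr M) (T := J) (K := K.comap j)).2 (fun s hs => hs) hg
  have hfin : Finite (par M J) :=
    Finite.of_injective (fun g : par M J => (⟨j g, hle g g.2⟩ : K))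
      (fun g g' e => Subtype.ext (H.geo.inj (congrArg Subtype.val e)))
  have hJ : Simplex M J := (H.cM.b1.fin_par J).1 hfin
  have hfar : ∀ g ∈ par M J, GFIN_Far N β J (rho N (j g) a) := by
    intro g hg
    have hr' := H.cN.a0.refl_conj (j g) _ _ ha
    refine ⟨H.cN.a0.refl_isRoot _ _ hr', fun u hu => ?_⟩
    have hne : j g * r * (j g)⁻¹ ≠ j (sr M u) := by
      intro e
      refine hr ⟨g⁻¹ * sr M u * g, ?_⟩
      rw [map_mul, map_mul, map_inv, ← e]
      group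
    have n1 : β u ≠ rho N (j g) a := fun e =>
      hne (H.cN.a0.refl_uniq _ _ _ hr' (e ▸ H.geo.refl u))
    have n2 : β u ≠ -rho N (j g) a := fun e =>
      hne (H.cN.a0.refl_uniq _ _ _ (H.cN.a0.refl_neg _ _ hr') (e ▸ H.geo.refl u))
    refine ⟨n1, n2, fun hc => hu.2 ?_⟩
    have h1 := (H.cN.t1.cross_iff _ _ _ _ hr' (H.geo.refl u) n1 n2).1 (GFIN_cross_symm hc)
    have h2 : IsOfFinOrder (r * j (g⁻¹ * sr M u * g)) := by
      have h3 := (MulAut.conj (j g)⁻¹).toMonoidHom.isOfFinOrder h1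
      rw [MulEquiv.coe_toMonoidHom, MulAut.conj_apply] at h3
      convert h3 using 1
      rw [map_mul, map_mul, map_inv]
      group
    have h4 : IsRefl N (j (g⁻¹ * sr M u * g)) := by
      have := H.cN.a0.refl_conj (j g)⁻¹ _ _ (H.geo.refl u)
      rw [inv_inv] at this
      rw [map_mul, map_mul, map_inv]
      exact ⟨_, this⟩
    have h5 := hw _ h4 h2
    rw [map_mul, map_mul, map_inv, K.mul_mem_cancel_right (hle g hg),
      K.mul_mem_cancel_left (inv_mem (hle g hg))] at h5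
    exact h5
  obtain ⟨u0, hu0⟩ : ∃ u, u ∉ J := by
    obtain ⟨⟨s1, -, s2, -, s3, -, h12, h23, h13⟩, -⟩ := H.geo.rig
    by_contra hn
    push Not at hn
    rcases hJ.2 s1 (hn _) s2 (hn _) s3 (hn _) with e | e | e
    · exact h12 e
    · exact h23 e
    · exact h13 e
  obtain ⟨y0, hy0, h0⟩ := H.cN.a1.wall _ (H.root u0)
  have h1 : GFIN_Far N β J a := by simpa using hfar 1 (one_mem _)
  obtain ⟨n1, n2, n3⟩ := h1.2 u0 ⟨Set.mem_univ _, hu0⟩
  rcases lt_trichotomy 0 (y0 a) with h | h | h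
  · exact Or.inl (H.case3a hfin hfar hu0 hy0 h0 h)
  · refine absurd ⟨H.root u0, h1.1, n1.symm, fun e => n2 ?_, y0, hy0, h0, h.symm⟩ n3
    rw [e, neg_neg]
  · refine Or.inr (H.case3a hfin (fun g hg => ?_) hu0 hy0 h0 (by simpa using h))
    rw [map_neg]
    exact H.far_neg (hfar g hg)

theorem GFIN_H.one (H : GFIN_H M N j β) (h2 : St_GAB) (h3 : St_HEE) {U : Set B}
    (hU : ∀ w, j w ∈ par N U)
    (hK : ∀ r, IsRefl N r → r ∈ par N U → r ∉ j.range → ∃ K : Subgroup N.Group, Finite K ∧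
      ∀ w, IsRefl N (j w) → IsOfFinOrder (r * j w) → j w ∈ K)
    {a : B → ℝ} (ha : IsRoot N a) : GFIN_One M N β a := by
  by_cases hs : Supp U a
  swap
  · exact H.case1 hU ha hs
  obtain ⟨r, hr⟩ := H.cN.a0.refl_ex a ha
  by_cases hj : r ∈ j.range
  · obtain ⟨w, rfl⟩ := hj
    exact H.case2 h2 h3 hr
  · obtain ⟨K, h4, h5⟩ := hK r ⟨a, hr⟩ ((H.cN.b0.refl_mem U r a hr).2 hs) hj
    exact H.case3 hr hj h4 h5

theorem GFIN_H.final (H : GFIN_H M N j β) {U : Set B} (hU : ∀ w, j w ∈ par N U)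
    (hone : ∀ a, IsRoot N a → GFIN_One M N β a) :
    ∃ (c : N.Group) (σ : T → B), ∀ t, σ t ∈ U ∧ j (sr M t) = c * sr N (σ t) * c⁻¹ := by
  choose v hv using H.g0.vert
  obtain ⟨c, hc⟩ := H.cN.a1.common
    (Set.range fun e : {e : T × T // Adj M e.1 e.2} => v e.1.1 e.1.2 e.2) (Set.finite_range _)
    (by
      rintro _ ⟨e, rfl⟩
      exact (hv _ _ e.2).1)
    (by
      rintro _ ⟨e, rfl⟩ _ ⟨e', rfl⟩
      refine Set.eq_empty_of_forall_notMem fun a ha => ?_
      obtain ⟨h1, h2, h3⟩ := ha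
      rcases hone a h1 with h | h
      · exact absurd h3 (not_lt.2 (h _ _ _ e'.2 (hv _ _ e'.2)))
      · have := h _ _ _ e.2 (hv _ _ e.2)
        rw [map_neg] at this
        linarith)
  have hc' : ∀ s t (h : Adj M s t), Cham (act N c⁻¹ (v s t h)) := fun s t h =>
    hc _ ⟨⟨(s, t), h⟩, rfl⟩
  have hex : ∀ t, ∃ k, k ∈ U ∧ j (sr M t) = c * sr N k * c⁻¹ := by
    intro t
    obtain ⟨u, hu⟩ := H.nbr t
    obtain ⟨u', hne, hu'⟩ := H.g0.nb t u hu
    have hx := hc' t u hu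
    have hx' := hc' t u' hu'
    have hZ : ∃ i ∈ U, ∃ k ∈ U, Zs (act N c⁻¹ (v t u hu)) = {i, k} := by
      obtain ⟨u0, -, h1, h2⟩ := H.fold hU hu (hv t u hu)
      have e : act N (u0⁻¹ * c) (act N c⁻¹ (v t u hu)) = act N u0⁻¹ (v t u hu) := by
        rw [← act_mul, mul_inv_cancel_right]
      have := (H.cN.a1.uniq (u0⁻¹ * c) _ hx (e ▸ h1)).1
      rw [e] at this
      rwa [this] at h2
    obtain ⟨i, hi, k, hk, hZ⟩ := hZ
    have rt : ∀ s, IsRoot N (rho N c⁻¹ (β s)) := fun s => H.cN.a0.root_rho _ _ (H.root s)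
    have s1 := H.cN.a1.vanish _ _ hx (rt t) (by rw [act_rho]; exact (hv t u hu).2.1)
    have s2 := H.cN.a1.vanish _ _ hx' (rt t) (by rw [act_rho]; exact (hv t u' hu').2.1)
    have s3 := H.cN.a1.vanish _ _ hx (rt u) (by rw [act_rho]; exact (hv t u hu).2.2)
    have s4 : act N c⁻¹ (v t u' hu') (rho N c⁻¹ (β u)) ≠ 0 := by
      rw [act_rho]
      exact (H.ori t u' u hu' hu.1.symm hne.symm _ (hv t u' hu')).ne'
    obtain ⟨l, hl1, hl2⟩ : ∃ l, l ∈ Zs (act N c⁻¹ (v t u hu)) ∧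
        l ∉ Zs (act N c⁻¹ (v t u' hu')) := by
      by_contra hn
      push Not at hn
      refine s4 (GFIN_supp fun l hl => hn l ?_)
      by_contra h
      exact hl (s3 l h)
    obtain ⟨m, hm, hsup⟩ : ∃ m ∈ U, ∀ l', l' ≠ m → rho N c⁻¹ (β t) l' = 0 := by
      rw [hZ] at hl1 s1
      rcases hl1 with rfl | hl1
      · refine ⟨k, hk, fun l' h => ?_⟩
        by_cases e : l' = l
        · exact s2 l' (e ▸ hl2)
        · exact s1 l' (by simp [e, h])
      · rw [Set.mem_singleton_iff] at hl1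
        subst hl1
        refine ⟨i, hi, fun l' h => ?_⟩
        by_cases e : l' = l
        · exact s2 l' (e ▸ hl2)
        · exact s1 l' (by simp [e, h])
    have hb : rho N c⁻¹ (β t) = rho N c⁻¹ (β t) m • al m := by
      ext l'
      by_cases e : l' = m
      · simp [e]
      · simp [hsup l' e, al_ne e]
    have hr := H.cN.a0.refl_conj c _ _ (H.cN.a0.root_al m).2
    refine ⟨m, hm, ?_⟩
    have hb2 : β t = rho N c⁻¹ (β t) m • rho N c (al m) := by
      rw [← map_smul, ← hb, rho_inv']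
    rcases H.cN.a0.root_smul _ _ (H.cN.a0.root_al m).1 (hb ▸ rt t) with e | e
    · rw [e, one_smul] at hb2
      exact H.cN.a0.refl_uniq _ _ _ (H.geo.refl t) (hb2 ▸ hr)
    · rw [e, neg_one_smul] at hb2
      exact H.cN.a0.refl_uniq _ _ _ (H.geo.refl t) (hb2 ▸ H.cN.a0.refl_neg _ _ hr)
  choose σ hσ using hex
  exact ⟨c, σ, hσ⟩

end Main

theorem GFIN_thm (hA : St_CA) (h1 : St_G0) (h2 : St_GAB) (h3 : St_HEE) : St_GFIN := by
  intro T B _ _ _ _ M N j β hG U hO hU hK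
  have H : GFIN_H M N j β := ⟨hA T M hG.nsM, hA B N hG.nsN, hG, h1 T B M N j β hG, hO⟩
  exact H.final hU fun a ha => H.one h2 h3 hU hK ha

end Pool.Agent.Lib.MP_1b8ce0_al.T
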