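import Pool.Agent.Lib.MP_1b8ce0_al.T.StsC
import Pool.Agent.Lib.MP_1b8ce0_al.T.D1

set_option linter.unusedSectionVars false
set_option linter.dupNamespace false

namespace Pool.Agent.Lib.MP_1b8ce0_al.T

open Pool.Agent.Lib.MP_6d85b4_al

section Fold

variable {B : Type} [Fintype B] [DecidableEq B] {N : CoxeterMatrix B}

theorem GOR_sep_act (w : N.Group) (h0 : C0a N) (x y : Pt B) :
    (Sep N (act N w x) (act N w y)).ncard = (Sep N x y).ncard := by
  have hinj : Function.Injective (rho N w) := fun a b h => by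
    have := congrArg (rho N w⁻¹) h
    simpa only [rho_inv] using this
  rw [← Set.ncard_image_of_injective (Sep N x y) hinj]
  congr 1
  ext a
  constructor
  · rintro ⟨ha, h1, h2⟩
    exact ⟨rho N w⁻¹ a, ⟨h0.root_rho _ _ ha, h1, h2⟩, rho_inv' N w a⟩
  · rintro ⟨a, ⟨ha, h1, h2⟩, rfl⟩
    exact ⟨h0.root_rho _ _ ha, by rwa [act_rho], by rwa [act_rho]⟩

theorem GOR_act_eq (h0 : C0a N) {r : N.Group} {b : B → ℝ} (hr : ReflOf N r b) (y : Pt B)
    (a : B → ℝ) : act N r y a = y a - 2 * Bf N b a * y b := by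
  have hsq := (h0.refl_sq r ⟨b, hr⟩).1
  have hinv : r⁻¹ = r := inv_eq_of_mul_eq_one_right hsq
  rw [act_apply, hinv, h0.refl_eq r b hr, map_sub, map_smul, smul_eq_mul]

theorem GOR_act_fix (h0 : C0a N) {r : N.Group} {b : B → ℝ} (hr : ReflOf N r b) {y : Pt B}
    (hy : y b = 0) : act N r y = y := by
  refine LinearMap.ext fun a => ?_
  rw [GOR_act_eq h0 hr, hy]
  ring

open Classical in
/-- folding along a wall -/
noncomputable def GOR_fold (N : CoxeterMatrix B) (r : N.Group) (b : B → ℝ) (y : Pt B) : Pt B :=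
  if y b < 0 then act N r y else y

theorem GOR_fold_lt (h1 : C1a N) {r : N.Group} {b : B → ℝ} (hr : ReflOf N r b) {x y : Pt B}
    (hx : InI N x) (hy : InI N y) (hp : 0 < x b) (hn : y b < 0) :
    (Sep N (GOR_fold N r b x) (GOR_fold N r b y)).ncard < (Sep N x y).ncard := by
  rw [GOR_fold, GOR_fold, if_neg (not_lt.2 hp.le), if_pos hn]
  exact h1.refl_lt r b x y hx hy hr hp hn

theorem GOR_fold_le (h0 : C0a N) (h1 : C1a N) {r : N.Group} {b : B → ℝ} (hr : ReflOf N r b)
    {x y : Pt B} (hx : InI N x) (hy : InI N y) :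
    (Sep N (GOR_fold N r b x) (GOR_fold N r b y)).ncard ≤ (Sep N x y).ncard := by
  have hsq := (h0.refl_sq r ⟨b, hr⟩).1
  by_cases h2 : x b < 0 <;> by_cases h3 : y b < 0
  · rw [GOR_fold, GOR_fold, if_pos h2, if_pos h3, GOR_sep_act r h0]
  · rw [GOR_fold, GOR_fold, if_pos h2, if_neg h3]
    rcases (not_lt.1 h3).eq_or_lt with h4 | h4
    · have := GOR_sep_act r h0 x y
      rw [GOR_act_fix h0 hr h4.symm] at this
      exact this.le
    · have e := GOR_sep_act r h0 (act N r x) y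
      rw [← act_mul, hsq, act_one] at e
      rw [← e]
      refine (h1.refl_lt r (-b) x y hx hy (h0.refl_neg r b hr) ?_ ?_).le
      · rw [map_neg]; linarith
      · rw [map_neg]; linarith
  · rcases (not_lt.1 h2).eq_or_lt with h4 | h4
    · rw [GOR_fold, GOR_fold, if_neg h2, if_pos h3]
      have := GOR_sep_act r h0 x y
      rw [GOR_act_fix h0 hr h4.symm] at this
      exact this.le
    · exact (GOR_fold_lt h1 hr hx hy h4 h3).le
  · rw [GOR_fold, GOR_fold, if_neg h2, if_neg h3]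

end Fold

variable {T B : Type} [Fintype T] [DecidableEq T] [Fintype B] [DecidableEq B]
  {M : CoxeterMatrix T} {N : CoxeterMatrix B}

theorem GOR_alt_conj {G : Type} [Group G] (g s t : G) (k : ℕ) :
    alt (g * s * g⁻¹) (g * t * g⁻¹) k = g * alt s t k * g⁻¹ := by
  have := map_alt (MulAut.conj g).toMonoidHom s t k
  simpa using this.symm

theorem GOR_adj_symm {s t : T} (h : Adj M s t) : Adj M t s :=
  ⟨h.1.symm, by rw [M.symmetric]; exact h.2⟩

theorem GOR_ne {j : M.Group →* N.Group} {β : T → B → ℝ} (g : G0 M N j β) {s t : T}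
    (hst : s ≠ t) : β t ≠ β s ∧ β t ≠ -β s := by
  have h := g.same 1 1 s t
  simp only [map_one, Module.End.one_apply] at h
  have hn : ¬ (al t = al s ∨ al t = -al s) := by
    rintro (e | e)
    · exact hst (al_inj e).symm
    · have := congrFun e t
      rw [Pi.neg_apply, al_self, al_ne hst.symm] at this
      norm_num at this
  exact ⟨fun e => hn (h.1 (Or.inl e)), fun e => hn (h.1 (Or.inr e))⟩

/-- the vertices on the negative side -/
def GOR_Neg (M : CoxeterMatrix T) (N : CoxeterMatrix B) (β : T → B → ℝ) (t0 u : T) : Prop :=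
  u ≠ t0 ∧ M t0 u ≠ 2 ∧ ∀ w y, Adj M u w → w ≠ t0 → OnV N β u w y → y (β t0) < 0

theorem GOR_pos (hA : St_CA) (h1 : St_G0) (h2 : St_GAB) {j : M.Group →* N.Group}
    {β : T → B → ℝ} (hg : Geo M N j β) {t0 u : T} (hu : u ≠ t0) (hm : M t0 u ≠ 2)
    (hn : ¬ GOR_Neg M N β t0 u) (w : T) (y : Pt B) (hw : Adj M u w) (hw0 : w ≠ t0)
    (hy : OnV N β u w y) : 0 < y (β t0) := by
  have cN := hA B N hg.nsN
  have g0 := h1 T B M N j β hg
  have key : ∃ e : ℝ, (e = 1 ∨ e = -1) ∧
      ∀ w y, Adj M u w → w ≠ t0 → OnV N β u w y → 0 < e * y (β t0) := by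
    by_cases h0 : M t0 u = 0
    · have hne := GOR_ne g0 hu
      have hnc : ¬ Cross N (β u) (β t0) := g0.far u t0 (by rw [M.symmetric]; exact h0)
      rcases cN.b1.side (β u) (β t0) (cN.a0.refl_isRoot _ _ (hg.refl u))
        (cN.a0.refl_isRoot _ _ (hg.refl t0)) hne.1 hne.2 hnc with h | h
      · exact ⟨1, Or.inl rfl, fun w y _ _ hy => by simpa using h y hy.1 hy.2.1⟩
      · exact ⟨-1, Or.inr rfl, fun w y _ _ hy => by simpa using h y hy.1 hy.2.1⟩
    · have h3 : 3 ≤ M t0 u := by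
        have := M.off_diagonal t0 u hu.symm
        omega
      obtain ⟨e, f, he, -, h4, -⟩ := h2 T B M N j β hg t0 u h3
      exact ⟨e, he, fun w y hw hw0 hy => h4 w y hw0 hw hy⟩
  obtain ⟨e, he | he, hk⟩ := key
  · simpa [he] using hk w y hw hw0 hy
  · exact absurd ⟨hu, hm, fun w y hw hw0 hy => by simpa [he] using hk w y hw hw0 hy⟩ hn

open Classical in
theorem GOR_step (hA : St_CA) (h1 : St_G0) (h2 : St_GAB) {j : M.Group →* N.Group}
    {β : T → B → ℝ} (hg : Geo M N j β) (t0 : T) :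
    ∃ (θ : M.Group ≃* M.Group) (β' : T → B → ℝ), EdgeInner M θ ∧
      Geo M N (j.comp θ.toMonoidHom) β' ∧ ∀ u w y, Adj M u w → OnV N β u w y →
        OnV N β' u w (GOR_fold N (j (sr M t0)) (β t0) y) := by
  have cN := hA B N hg.nsN
  have cM := hA T M hg.nsM
  have g0 := h1 T B M N j β hg
  have dy := cM.b0.dyer
  set s0 := sr M t0 with hs0
  have hsq : s0 * s0 = 1 := dy.sqr t0 trivial
  have hinv : s0⁻¹ = s0 := inv_eq_of_mul_eq_one_right hsq
  let f : T → M.Group := fun u => if GOR_Neg M N β t0 u then s0 * sr M u * s0⁻¹ else sr M u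
  have hfix : ∀ u w, Adj M u w → GOR_Neg M N β t0 u → f w = s0 * sr M w * s0⁻¹ := by
    intro u w huw hu
    by_cases hw : GOR_Neg M N β t0 w
    · simp only [f, if_pos hw]
    · simp only [f, if_neg hw]
      by_cases e : w = t0
      · rw [e, ← hs0]; simp
      by_cases e2 : M t0 w = 2
      · have := D1_two dy e2
        rw [← hs0] at this
        rw [this.eq]; simp
      · obtain ⟨y, hy⟩ := g0.vert u w huw
        have p := GOR_pos hA h1 h2 hg e e2 hw u y (GOR_adj_symm huw) hu.1 ⟨hy.1, hy.2.2, hy.2.1⟩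
        have q := hu.2.2 w y huw e hy
        linarith
  have hin : ∀ u w, Adj M u w →
      ∃ g, f u = g * sr M u * g⁻¹ ∧ f w = g * sr M w * g⁻¹ := by
    intro u w huw
    by_cases hu : GOR_Neg M N β t0 u
    · exact ⟨s0, by simp only [f, if_pos hu], hfix u w huw hu⟩
    by_cases hw : GOR_Neg M N β t0 w
    · exact ⟨s0, hfix w u (GOR_adj_symm huw) hw, by simp only [f, if_pos hw]⟩
    · exact ⟨1, by simp [f, hu], by simp [f, hw]⟩
  obtain ⟨φ, hφ⟩ := dy.lift M.Group f (by
      intro u _ w _ huw h0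
      obtain ⟨g, e1, e2⟩ := hin u w ⟨huw, h0⟩
      rw [e1, e2, GOR_alt_conj, GOR_alt_conj, dy.braid u trivial w trivial huw h0]) (by
      intro u _
      have := dy.sqr u trivial
      by_cases hu : GOR_Neg M N β t0 u
      · simp only [f, if_pos hu]
        calc s0 * sr M u * s0⁻¹ * (s0 * sr M u * s0⁻¹) = s0 * (sr M u * sr M u) * s0⁻¹ := by group
          _ = 1 := by rw [this]; simp
      · simpa only [f, if_neg hu] using this)
  have hφ0 : φ s0 = s0 := by
    rw [hs0, hφ]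
    have : ¬ GOR_Neg M N β t0 t0 := fun h => h.1 rfl
    simp only [f, if_neg this]
  have hφφ : φ.comp φ = MonoidHom.id _ := by
    refine D1_ext dy _ _ fun u => ?_
    rw [MonoidHom.comp_apply, MonoidHom.id_apply, hφ]
    by_cases hu : GOR_Neg M N β t0 u
    · simp only [f, if_pos hu, map_mul, map_inv, hφ0, hφ]
      rw [hinv]
      calc s0 * (s0 * sr M u * s0) * s0 = (s0 * s0) * sr M u * (s0 * s0) := by group
        _ = sr M u := by rw [hsq]; simp
    · simp only [f, if_neg hu, hφ]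
  let θ : M.Group ≃* M.Group := MonoidHom.toMulEquiv φ φ hφφ hφφ
  have hθ : ∀ u, θ (sr M u) = f u := hφ
  let r := j s0
  have hr : ReflOf N r (β t0) := hg.refl t0
  let β' : T → B → ℝ := fun u => if GOR_Neg M N β t0 u then rho N r (β u) else β u
  have hone : ∀ u w y, Adj M u w → OnV N β u w y →
      GOR_fold N r (β t0) y (β' u) = 0 := by
    intro u w y huw hy
    by_cases hn : y (β t0) < 0
    · rw [GOR_fold, if_pos hn]
      by_cases hu : GOR_Neg M N β t0 u
      · simp only [β', if_pos hu]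
        rw [act_rho]; exact hy.2.1
      · simp only [β', if_neg hu]
        have e : u ≠ t0 := fun e => by rw [← e, hy.2.1] at hn; exact lt_irrefl _ hn
        have e' : w ≠ t0 := fun e => by rw [← e, hy.2.2] at hn; exact lt_irrefl _ hn
        by_cases e2 : M t0 u = 2
        · rw [GOR_act_eq cN.a0 hr, g0.two t0 u e2, hy.2.1]; ring
        · have := GOR_pos hA h1 h2 hg e e2 hu w y huw e' hy
          linarith
    · rw [GOR_fold, if_neg hn]
      by_cases hu : GOR_Neg M N β t0 u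
      · simp only [β', if_pos hu]
        have e : w = t0 := by
          by_contra e
          exact hn (hu.2.2 w y huw e hy)
        have z : y (β t0) = 0 := e ▸ hy.2.2
        rw [cN.a0.refl_eq r _ hr, map_sub, map_smul, z, hy.2.1]; simp
      · simp only [β', if_neg hu]; exact hy.2.1
  refine ⟨θ, β', fun u w huw => ?_, ⟨hg.nsM, hg.nsN, hg.rig, hg.inj.comp θ.injective, fun u => ?_⟩,
    fun u w y huw hy => ⟨?_, hone u w y huw hy,
      hone w u y (GOR_adj_symm huw) ⟨hy.1, hy.2.2, hy.2.1⟩⟩⟩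
  · rw [hθ, hθ]; exact hin u w huw
  · change ReflOf N (j (θ (sr M u))) (β' u)
    rw [hθ]
    by_cases hu : GOR_Neg M N β t0 u
    · simp only [f, β', if_pos hu, map_mul, map_inv]
      exact cN.a0.refl_conj _ _ _ (hg.refl u)
    · simp only [f, β', if_neg hu]
      exact hg.refl u
  · by_cases hn : y (β t0) < 0
    · rw [GOR_fold, if_pos hn]; exact cN.a1.act_mem _ _ hy.1
    · rw [GOR_fold, if_neg hn]; exact hy.1

open Classical in
theorem GOR_base (hA : St_CA) (h1 : St_G0) {j : M.Group →* N.Group}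
    {β : T → B → ℝ} (hg : Geo M N j β) (v : {p : T × T // Adj M p.1 p.2} → Pt B)
    (hv : ∀ e, OnV N β e.1.1 e.1.2 (v e))
    (hs : ∀ t e e', 0 < v e (β t) → ¬ v e' (β t) < 0) :
    ∃ β' : T → B → ℝ, Geo M N j β' ∧ Oriented M N β' := by
  have cN := hA B N hg.nsN
  have g0 := h1 T B M N j β hg
  let β' : T → B → ℝ := fun t => if ∃ e, v e (β t) < 0 then -β t else β t
  have hr : ∀ t, ReflOf N (j (sr M t)) (β' t) := by
    intro t
    by_cases h : ∃ e, v e (β t) < 0
    · simp only [β', if_pos h]; exact cN.a0.refl_neg _ _ (hg.refl t)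
    · simp only [β', if_neg h]; exact hg.refl t
  have hz : ∀ t (y : Pt B), y (β' t) = 0 → y (β t) = 0 := by
    intro t y
    by_cases h : ∃ e, v e (β t) < 0
    · simp only [β', if_pos h, map_neg, neg_eq_zero, imp_self]
    · simp only [β', if_neg h, imp_self]
  refine ⟨β', ⟨hg.nsM, hg.nsN, hg.rig, hg.inj, hr⟩, fun s t u hst hus hut y hy => ?_⟩
  have hy0 := hv ⟨(s, t), hst⟩
  have hne := GOR_ne g0 hst.1
  refine cN.b1.face_eq (v ⟨(s, t), hst⟩) y (β s) (β t) (β' u) hy0.1 hy.1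
    (cN.a0.refl_isRoot _ _ (hg.refl s)) (cN.a0.refl_isRoot _ _ (hg.refl t))
    (cN.a0.refl_isRoot _ _ (hr u)) hne.1 hne.2 hy0.2.1 hy0.2.2 (hz _ _ hy.2.1) (hz _ _ hy.2.2) ?_
  have nz := g0.nz s t u _ hst hus hut hy0
  by_cases h : ∃ e, v e (β u) < 0
  · simp only [β', if_pos h, map_neg]
    obtain ⟨e, he⟩ := h
    have : ¬ 0 < v ⟨(s, t), hst⟩ (β u) := fun p => hs u _ e p he
    rcases lt_trichotomy (v ⟨(s, t), hst⟩ (β u)) 0 with q | q | q
    · linarith
    · exact absurd q nz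
    · exact absurd q this
  · simp only [β', if_neg h]
    rcases lt_trichotomy (v ⟨(s, t), hst⟩ (β u)) 0 with q | q | q
    · exact absurd ⟨_, q⟩ h
    · exact absurd q nz
    · exact q

open Classical in
theorem GOR_ind (hA : St_CA) (h1 : St_G0) (h2 : St_GAB) (n : ℕ) :
    ∀ (j : M.Group →* N.Group) (β : T → B → ℝ) (v : {p : T × T // Adj M p.1 p.2} → Pt B),
      Geo M N j β → (∀ e, OnV N β e.1.1 e.1.2 (v e)) →
      ∑ p : {p : T × T // Adj M p.1 p.2} × {p : T × T // Adj M p.1 p.2},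
        (Sep N (v p.1) (v p.2)).ncard = n →
      ∃ (θ : M.Group ≃* M.Group) (β' : T → B → ℝ), EdgeInner M θ ∧
        Geo M N (j.comp θ.toMonoidHom) β' ∧ Oriented M N β' := by
  induction n using Nat.strong_induction_on with
  | _ n ih =>
  intro j β v hg hv hn
  have cN := hA B N hg.nsN
  by_cases hs : ∀ t e e', 0 < v e (β t) → ¬ v e' (β t) < 0
  · obtain ⟨β', g', o'⟩ := GOR_base hA h1 hg v hv hs
    exact ⟨MulEquiv.refl _, β', fun s t _ => ⟨1, by simp, by simp⟩, g', o'⟩
  · push Not at hs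
    obtain ⟨t0, e, e', hp, hq⟩ := hs
    obtain ⟨θ, β1, hi, g1, ho⟩ := GOR_step hA h1 h2 hg t0
    have hlt : ∑ p : {p : T × T // Adj M p.1 p.2} × {p : T × T // Adj M p.1 p.2},
        (Sep N (GOR_fold N (j (sr M t0)) (β t0) (v p.1))
          (GOR_fold N (j (sr M t0)) (β t0) (v p.2))).ncard < n := by
      rw [← hn]
      refine Finset.sum_lt_sum (fun p _ => GOR_fold_le cN.a0 cN.a1 (hg.refl t0) (hv _).1 (hv _).1)
        ⟨(e, e'), Finset.mem_univ _, GOR_fold_lt cN.a1 (hg.refl t0) (hv _).1 (hv _).1 hp hq⟩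
    obtain ⟨θ2, β2, hi2, g2, o2⟩ := ih _ hlt _ β1
      (fun e => GOR_fold N (j (sr M t0)) (β t0) (v e)) g1 (fun e => ho _ _ _ e.2 (hv e)) rfl
    refine ⟨θ2.trans θ, β2, fun s t hst => ?_, g2, o2⟩
    obtain ⟨g, a1, a2⟩ := hi s t hst
    obtain ⟨k, b1, b2⟩ := hi2 s t hst
    refine ⟨θ k * g, ?_, ?_⟩
    · rw [MulEquiv.trans_apply, b1, map_mul, map_mul, map_inv, a1]; group
    · rw [MulEquiv.trans_apply, b2, map_mul, map_mul, map_inv, a2]; group

theorem GOR_thm (hA : St_CA) (h1 : St_G0) (h2 : St_GAB) : St_GOR := by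
  intro T B _ _ _ _ M N j β hg
  have g0 := h1 T B M N j β hg
  choose v hv using fun e : {p : T × T // Adj M p.1 p.2} => g0.vert e.1.1 e.1.2 e.2
  exact GOR_ind hA h1 h2 _ j β v hg hv rfl

end Pool.Agent.Lib.MP_1b8ce0_al.T
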