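import Mathlib
import Pool.Agent.Lib.MP_1b8ce0_al.T.StsC

set_option linter.unusedSectionVars false
set_option linter.dupNamespace false

namespace Pool.Agent.Lib.MP_1b8ce0_al.T

open Pool.Agent.Lib.MP_6d85b4_al

section

variable {S S' : Type} {M : CoxeterMatrix S} {M' : CoxeterMatrix S'}

theorem GR1_adj_symm {s t : S} (h : Adj M s t) : Adj M t s :=
  ⟨h.1.symm, by rw [M.symmetric]; exact h.2⟩

theorem GR1_conn_mem {A : Set S} {s t : S} (h : Conn M A s t) (hs : s ∈ A) : t ∈ A := by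
  induction h with
  | refl => exact hs
  | tail _ h _ => exact h.2.1

theorem GR1_conn_symm {A : Set S} {s t : S} (h : Conn M A s t) : Conn M A t s := by
  induction h with
  | refl => exact Relation.ReflTransGen.refl
  | tail _ h ih => exact Relation.ReflTransGen.head ⟨h.2.1, h.1, GR1_adj_symm h.2.2⟩ ih

theorem GR1_conn_mono {A A1 : Set S} (hA : A ⊆ A1) {s t : S} (h : Conn M A s t) :
    Conn M A1 s t := by
  induction h with
  | refl => exact Relation.ReflTransGen.refl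
  | tail _ h ih => exact Relation.ReflTransGen.tail ih ⟨hA h.1, hA h.2.1, h.2.2⟩

theorem GR1_simplex_mono {J K : Set S} (h : J ⊆ K) (hK : Simplex M K) : Simplex M J :=
  ⟨fun s hs t ht => hK.1 s (h hs) t (h ht), fun s hs t ht u hu => hK.2 s (h hs) t (h ht) u (h hu)⟩

theorem GR1_pair {J : Set S} (hJ : Simplex M J) {p q r : S} (hp : p ∈ J) (hq : q ∈ J)
    (hpq : p ≠ q) (hr : r ∈ J) : r = p ∨ r = q := by
  rcases hJ.2 p hp q hq r hr with h | h | h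
  · exact absurd h hpq
  · exact Or.inr h.symm
  · exact Or.inl h.symm

theorem GR1_inj {T : Set S} {σ : S → S'} (h : ∀ s ∈ T, ∀ t ∈ T, M' (σ s) (σ t) = M s t) :
    Set.InjOn σ T := by
  intro s hs t ht e
  by_contra hne
  refine M.off_diagonal s t hne ?_
  rw [← h s hs t ht, e, M'.diagonal]

theorem GR1_adj_map {T : Set S} {σ : S → S'} (h : ∀ s ∈ T, ∀ t ∈ T, M' (σ s) (σ t) = M s t)
    {s t : S} (hs : s ∈ T) (ht : t ∈ T) : Adj M' (σ s) (σ t) ↔ Adj M s t := by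
  unfold Adj
  rw [h s hs t ht]
  exact and_congr_left' ⟨fun a e => a (e ▸ rfl), fun a e => a (GR1_inj h hs ht e)⟩

/-- the points of a rigid set inside a closed set are attachments -/
theorem GR1_att (R : RG M) {A T : Set S} (hA : Closed M A) (hT : Rigid M T) {z : S} (hz : z ∈ T)
    (hzA : z ∉ A) {u : S} (hu : u ∈ T) (huA : u ∈ A) : u ∈ Att M A z :=
  (R.inside A T z hA hT hz hzA u hu).resolve_right fun h => GR1_conn_mem h hzA huA

theorem GR1_closed {A T : Set S} (hA : Closed M A) (hT : Closed M T) {z : S}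
    (h1 : Att M A z ⊆ T) (h2 : ∀ t ∈ T, t ∈ A ∨ Conn M Aᶜ z t) : Closed M (A ∪ T) := by
  intro u hu
  have huA : u ∉ A := fun h => hu (Or.inl h)
  have huT : u ∉ T := fun h => hu (Or.inr h)
  have sA : (A ∪ T)ᶜ ⊆ Aᶜ := Set.compl_subset_compl.2 Set.subset_union_left
  have sT : (A ∪ T)ᶜ ⊆ Tᶜ := Set.compl_subset_compl.2 Set.subset_union_right
  by_cases h : Conn M Aᶜ z u
  · refine GR1_simplex_mono ?_ (hT u huT)
    rintro r ⟨hr, v, hv, ha⟩
    refine ⟨?_, v, GR1_conn_mono sT hv, ha⟩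
    rcases hr with hr | hr
    · exact h1 ⟨hr, v, h.trans (GR1_conn_mono sA hv), ha⟩
    · exact hr
  · refine GR1_simplex_mono ?_ (hA u huA)
    rintro r ⟨hr, v, hv, ha⟩
    have hv' := GR1_conn_mono sA hv
    refine ⟨?_, v, hv', ha⟩
    by_contra hrA
    have h3 := (h2 r (hr.resolve_left hrA)).resolve_left hrA
    exact h (h3.trans (GR1_conn_symm (hv'.tail ⟨GR1_conn_mem hv' huA, hrA, ha⟩)))

variable {V : S → S' → Prop} {E : S → S → S' → S' → Prop} {A : Set S} {τ : S → S'}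

theorem GR1_item (hP : Part M M' V E A τ) {s t : S} {s' t' : S'} (h : E s t s' t') :
    (s ∈ A ∧ t ∈ A) ↔ (s' ∈ τ '' A ∧ t' ∈ τ '' A) := by
  constructor
  · rintro ⟨hs, ht⟩
    rcases hP.mat.1.uniq _ _ _ _ _ _ h (hP.good.2 s hs t ht (hP.mat.1.edge _ _ _ _ h).1) with
      ⟨h1, h2⟩ | ⟨-, h1, h2⟩
    · exact ⟨⟨s, hs, h1⟩, ⟨t, ht, h2⟩⟩
    · exact ⟨⟨t, ht, h2⟩, ⟨s, hs, h1⟩⟩
  · rintro ⟨⟨a, ha, rfl⟩, ⟨b, hb, rfl⟩⟩
    have h1 := hP.good.2 a ha b hb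
      ((GR1_adj_map hP.good.1 ha hb).1 (hP.mat.2.edge _ _ _ _ h).1)
    rcases hP.mat.2.uniq _ _ _ _ _ _ h h1 with ⟨rfl, rfl⟩ | ⟨-, rfl, rfl⟩
    · exact ⟨ha, hb⟩
    · exact ⟨hb, ha⟩

/-- the image of a maximal rigid set is maximal rigid -/
theorem GR1_max [Finite S] [Finite S'] (R : RG M) (R' : RG M') (hm : Match M M' V E) {T : Set S}
    (hT : MaxRigid M T) {σ : S → S'} (hσ : Good M M' E T σ) : MaxRigid M' (σ '' T) := by
  refine ⟨R.image S' M' T σ hT.1 hσ.1, fun T1 hT1 hsub => ?_⟩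
  obtain ⟨σ', hσ'⟩ := hm.2.rig T1 hT1
  have h1 : T ⊆ σ' '' T1 := by
    intro t ht
    obtain ⟨u, hu, -, -, -, ha, -⟩ := R.deg T t hT.1 ht
    have m1 := hsub ⟨t, ht, rfl⟩
    have m2 := hsub ⟨u, hu, rfl⟩
    rcases hm.2.uniq _ _ _ _ _ _ (hσ.2 t ht u hu ha)
      (hσ'.2 _ m1 _ m2 ((GR1_adj_map hσ.1 ht hu).2 ha)) with ⟨e, -⟩ | ⟨-, -, e⟩
    · exact ⟨_, m1, e⟩
    · exact ⟨_, m2, e⟩
  have h2 := hT.2 _ (R'.image S M T1 σ' hT1 hσ'.1) h1
  refine (Set.eq_of_subset_of_ncard_le hsub ?_ (Set.toFinite _)).symm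
  rw [(GR1_inj hσ.1).ncard_image, ← (GR1_inj hσ'.1).ncard_image, h2]

/-- gluing a maximal rigid set along an edge -/
theorem GR1_core [Finite S] [Finite S'] (R : RG M) (R' : RG M') (hN : NoSph M) (hN' : NoSph M')
    (hP : Part M M' V E A τ) {T : Set S} (hT : MaxRigid M T) {σ : S → S'}
    (hσ : Good M M' E T σ) {p q z : S} (hpq : p ≠ q) (hp : p ∈ T) (hq : q ∈ T) (hpA : p ∈ A)
    (hqA : q ∈ A) (hz : z ∈ T) (hzA : z ∉ A) (ep : σ p = τ p) (eq : σ q = τ q) :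
    ∃ τ1, Part M M' V E (A ∪ T) τ1 := by
  classical
  have hatt : ∀ r ∈ Att M A z, r = p ∨ r = q := fun r hr =>
    GR1_pair (hP.cl z hzA) (GR1_att R hP.cl hT.1 hz hzA hp hpA)
      (GR1_att R hP.cl hT.1 hz hzA hq hqA) hpq hr
  have hattT : Att M A z ⊆ T := fun r hr => by
    rcases hatt r hr with rfl | rfl <;> assumption
  have hin : ∀ t ∈ T, t ∈ A ∨ Conn M Aᶜ z t := fun t ht =>
    (R.inside A T z hP.cl hT.1 hz hzA t ht).imp_left fun h => h.1
  have hT' := GR1_max R R' hP.mat hT hσ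
  obtain ⟨w, hw, hwA⟩ : ∃ w ∈ σ '' T, w ∉ τ '' A := by
    obtain ⟨u, hu, -, -, -, ha, -⟩ := R.deg T z hT.1 hz
    by_contra h
    push Not at h
    exact hzA ((GR1_item hP (hσ.2 z hz u hu ha)).2 ⟨h _ ⟨z, hz, rfl⟩, h _ ⟨u, hu, rfl⟩⟩).1
  have hatt' : ∀ r ∈ Att M' (τ '' A) w, r = τ p ∨ r = τ q := fun r hr =>
    GR1_pair (hP.cl' w hwA) (GR1_att R' hP.cl' hT'.1 hw hwA ⟨p, hp, ep⟩ ⟨p, hpA, rfl⟩)
      (GR1_att R' hP.cl' hT'.1 hw hwA ⟨q, hq, eq⟩ ⟨q, hqA, rfl⟩)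
      (fun e => hpq (GR1_inj hP.good.1 hpA hqA e)) hr
  have hattT' : Att M' (τ '' A) w ⊆ σ '' T := fun r hr => by
    rcases hatt' r hr with rfl | rfl
    · exact ⟨p, hp, ep⟩
    · exact ⟨q, hq, eq⟩
  have hin' : ∀ t ∈ σ '' T, t ∈ τ '' A ∨ Conn M' (τ '' A)ᶜ w t := fun t ht =>
    (R'.inside _ _ w hP.cl' hT'.1 hw hwA t ht).imp_left fun h => h.1
  have hout : ∀ t ∈ T, t ∉ A → Conn M' (τ '' A)ᶜ w (σ t) := by
    intro t ht htA
    refine (R'.inside _ _ w hP.cl' hT'.1 hw hwA _ ⟨t, ht, rfl⟩).resolve_left fun h => htA ?_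
    rcases hatt' _ h with e | e
    · rw [GR1_inj hσ.1 ht hp (e.trans ep.symm)]
      exact hpA
    · rw [GR1_inj hσ.1 ht hq (e.trans eq.symm)]
      exact hqA
  have z1 : ∀ s ∈ A, s ∉ T → ∀ t ∈ T, t ∉ A → M t s = 0 := by
    intro s hs hsT t ht htA
    by_contra h
    exact hsT (hattT ⟨hs, t, (hin t ht).resolve_left htA, fun e => htA (e ▸ hs), h⟩)
  have z2 : ∀ s ∈ A, s ∉ T → ∀ t ∈ T, t ∉ A → M' (σ t) (τ s) = 0 := by
    intro s hs hsT t ht htA
    by_contra h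
    have h1 := hout t ht htA
    have h2 : τ s ∈ Att M' (τ '' A) w :=
      ⟨⟨s, hs, rfl⟩, _, h1, fun e => GR1_conn_mem h1 hwA ⟨s, hs, e.symm⟩, h⟩
    apply hsT
    rcases hatt' _ h2 with e | e
    · rw [GR1_inj hP.good.1 hs hpA e]
      exact hp
    · rw [GR1_inj hP.good.1 hs hqA e]
      exact hq
  let τ1 : S → S' := fun s => if s ∈ A then τ s else σ s
  have t1 : ∀ s ∈ A, τ1 s = τ s := fun s hs => if_pos hs
  have t2 : ∀ s ∈ T, τ1 s = σ s := by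
    intro s hs
    by_cases hsA : s ∈ A
    · rw [t1 s hsA]
      rcases hatt s (GR1_att R hP.cl hT.1 hz hzA hs hsA) with rfl | rfl
      · exact ep.symm
      · exact eq.symm
    · exact if_neg hsA
  have cases4 : ∀ s ∈ A ∪ T, ∀ t ∈ A ∪ T, (s ∈ A ∧ t ∈ A) ∨ (s ∈ T ∧ t ∈ T) ∨
      (s ∈ A ∧ s ∉ T ∧ t ∈ T ∧ t ∉ A) ∨ (t ∈ A ∧ t ∉ T ∧ s ∈ T ∧ s ∉ A) := by
    intro s hs t ht
    simp only [Set.mem_union] at hs ht
    tauto
  refine ⟨τ1, hP.mat, ⟨fun s hs t ht => ?_, fun s hs t ht ha => ?_⟩, fun s hs => ?_,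
    GR1_closed hP.cl (R.closed hN T hT) hattT hin, ?_⟩
  · rcases cases4 s hs t ht with ⟨a, b⟩ | ⟨a, b⟩ | ⟨a, b, c, d⟩ | ⟨a, b, c, d⟩
    · rw [t1 s a, t1 t b, hP.good.1 s a t b]
    · rw [t2 s a, t2 t b, hσ.1 s a t b]
    · rw [t1 s a, t2 t c, M'.symmetric, M.symmetric, z1 s a b t c d, z2 s a b t c d]
    · rw [t1 t a, t2 s c, z1 t a b s c d, z2 t a b s c d]
  · rcases cases4 s hs t ht with ⟨a, b⟩ | ⟨a, b⟩ | ⟨a, b, c, d⟩ | ⟨a, b, c, d⟩
    · rw [t1 s a, t1 t b]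
      exact hP.good.2 s a t b ha
    · rw [t2 s a, t2 t b]
      exact hσ.2 s a t b ha
    · exact absurd (z1 s a b t c d) (GR1_adj_symm ha).2
    · exact absurd (z1 t a b s c d) ha.2
  · rcases hs with hs | hs
    · rw [t1 s hs]
      exact hP.vert s hs
    · obtain ⟨u, hu, -, -, -, ha, -⟩ := R.deg T s hT.1 hs
      rw [t2 s hs]
      exact (hP.mat.1.edge _ _ _ _ (hσ.2 s hs u hu ha)).2.2
  · rw [Set.image_union, Set.image_congr t1, Set.image_congr t2]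
    exact GR1_closed hP.cl' (R'.closed hN' _ hT') hattT' hin'

/-- labels after a twist, inside the twisted part -/
theorem GR1_swap [DecidableEq S] {N : CoxeterMatrix S} {p q : S} {X : Set S}
    (h : TwistAt M N p q X) {s t : S} (hs : s ∈ X ∨ s = p ∨ s = q) (ht : t ∈ X ∨ t = p ∨ t = q) :
    N s t = M (Equiv.swap p q s) (Equiv.swap p q t) := by
  obtain ⟨-, -, hp, hq, -, h2, h3⟩ := h
  have fx : ∀ x ∈ X, Equiv.swap p q x = x := fun x hx =>
    Equiv.swap_apply_of_ne_of_ne (fun e => hp (e ▸ hx)) (fun e => hq (e ▸ hx))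
  have nx : ∀ x ∈ X, ¬ (x = p ∨ x = q) := by
    rintro x hx (rfl | rfl)
    · exact hp hx
    · exact hq hx
  have key : ∀ s ∈ X, ∀ t, (t = p ∨ t = q) → N s t = M s (Equiv.swap p q t) := by
    intro a ha b hb
    rcases hb with hb | hb
    · rw [hb, Equiv.swap_apply_left, (h2 a ha).1]
    · rw [hb, Equiv.swap_apply_right, (h2 a ha).2]
  rcases hs with hs | hs <;> rcases ht with ht | ht
  · rw [fx s hs, fx t ht]
    exact h3 s t (fun a => nx t ht a.2) (fun a => nx s hs a.2)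
  · rw [fx s hs, key s hs t ht]
  · rw [fx t ht, N.symmetric, key t ht s hs, M.symmetric]
  · rw [h3 s t (fun a => nx s a.1 hs) (fun a => nx t a.1 ht)]
    rcases hs with rfl | rfl <;> rcases ht with rfl | rfl <;>
      simp only [Equiv.swap_apply_left, Equiv.swap_apply_right, M.diagonal]
    · exact M.symmetric _ _
    · exact M.symmetric _ _

end

theorem GR0_thm (h1 : St_RG) : St_GR0 := by
  intro S S' _ _ M M' V E A τ hP
  refine ⟨fun s t s' t' h => GR1_item hP h, fun y p q hy hp hq hpq => ?_⟩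
  have R := h1 S M
  have R' := h1 S' M'
  have hadj : Adj M' p q := ⟨hpq, (hP.cl' y hy).1 p hp q hq⟩
  obtain ⟨T, hT, pT, qT, z, zT, hz⟩ := R'.edge _ y p q hy hp hq hadj
  have hzA : z ∉ τ '' A := GR1_conn_mem hz hy
  obtain ⟨σ, hσ⟩ := hP.mat.2.rig T hT
  have hT1 := R'.image S M T σ hT hσ.1
  have h2 := (GR1_item hP (hσ.2 p pT q qT hadj)).2 ⟨hp.1, hq.1⟩
  obtain ⟨w, hw, hwA⟩ : ∃ w ∈ σ '' T, w ∉ A := by
    obtain ⟨u, hu, -, -, -, ha, -⟩ := R'.deg T z hT zT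
    by_contra h
    push Not at h
    exact hzA ((GR1_item hP (hσ.2 z zT u hu ha)).1 ⟨h _ ⟨z, zT, rfl⟩, h _ ⟨u, hu, rfl⟩⟩).1
  exact ⟨w, σ p, σ q, hwA, GR1_att R hP.cl hT1 hw hwA ⟨p, pT, rfl⟩ h2.1,
    GR1_att R hP.cl hT1 hw hwA ⟨q, qT, rfl⟩ h2.2, fun e => hpq (GR1_inj hσ.1 pT qT e)⟩

theorem GR1_thm (h1 : St_RG) (h2 : St_TWM) (_h3 : St_GR0) : St_GR1 := by
  classical
  rintro S S' _ _ M M' V E A τ hN hN' hP ⟨y, p, q, hy, hp, hq, hpq⟩
  have R := h1 S M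
  have R' := h1 S' M'
  have hadj : Adj M p q := ⟨hpq, (hP.cl y hy).1 p hp q hq⟩
  obtain ⟨T0, hT0, pT0, qT0, z, zT0, hz⟩ := R.edge _ y p q hy hp hq hadj
  have hzA : z ∉ A := GR1_conn_mem hz hy
  obtain ⟨T, hsub, hT⟩ := R.max T0 hT0
  have pT := hsub pT0
  have qT := hsub qT0
  have zT := hsub zT0
  have hss : A ⊂ A ∪ T := ⟨Set.subset_union_left, fun h => hzA (h (Or.inr zT))⟩
  obtain ⟨σ, hσ⟩ := hP.mat.1.rig T hT.1
  rcases hP.mat.1.uniq _ _ _ _ _ _ (hP.good.2 p hp.1 q hq.1 hadj) (hσ.2 p pT q qT hadj) with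
    ⟨e1, e2⟩ | ⟨hodd, e1, e2⟩
  · obtain ⟨τ1, h⟩ := GR1_core R R' hN hN' hP hT hσ hpq pT qT hp.1 hq.1 zT hzA e1 e2
    exact ⟨M, V, E, _, τ1, Relation.ReflTransGen.refl, hN, hss, h⟩
  set X : Set S := {u | Conn M Aᶜ z u} with hX
  have XA : ∀ x ∈ X, x ∉ A := fun x hx => GR1_conn_mem hx hzA
  have hatt : ∀ r ∈ Att M A z, r = p ∨ r = q := fun r hr =>
    GR1_pair (hP.cl z hzA) (GR1_att R hP.cl hT.1 zT hzA pT hp.1)
      (GR1_att R hP.cl hT.1 zT hzA qT hq.1) hpq hr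
  obtain ⟨N, hTw⟩ := (h2 S S' M M' p q X).1 hpq hodd (fun h => XA p h hp.1) (fun h => XA q h hq.1)
    (by
      intro x hx u hu hup huq
      by_contra h
      have ha : Adj M x u := ⟨fun e => hu (e ▸ hx), h⟩
      by_cases huA : u ∈ A
      · rcases hatt u ⟨huA, x, hx, ha⟩ with e | e
        · exact hup e
        · exact huq e
      · exact hu (Relation.ReflTransGen.tail hx ⟨XA x hx, huA, ha⟩))
  obtain ⟨hNN, -, hmat⟩ := (h2 S S' M M' p q X).2 N hTw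
  have RN := h1 S N
  have pqA : ∀ u, u = p ∨ u = q → u ∈ A := by
    rintro u (rfl | rfl)
    · exact hp.1
    · exact hq.1
  have n1 : ∀ a b, a ∉ X → b ∉ X → N a b = M a b := fun a b ha hb =>
    hTw.2.2.2.2.2.2 a b (fun h => ha h.1) (fun h => hb h.1)
  have n2 : ∀ a b, a ∉ A → b ∉ A → N a b = M a b := fun a b ha hb =>
    hTw.2.2.2.2.2.2 a b (fun h => hb (pqA b h.2)) (fun h => ha (pqA a h.2))
  have nA : ∀ a ∈ A, a ∉ X := fun a ha h => XA a h ha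
  have hconn : ∀ u v, Conn N Aᶜ u v → Conn M Aᶜ u v := by
    intro u v h
    induction h with
    | refl => exact Relation.ReflTransGen.refl
    | tail _ h ih =>
      exact Relation.ReflTransGen.tail ih ⟨h.1, h.2.1, h.2.2.1, n2 _ _ h.1 h.2.1 ▸ h.2.2.2⟩
  have hattN : ∀ u ∈ X, ∀ r ∈ Att N A u, r = p ∨ r = q := by
    rintro u hu r ⟨hr, v, hv, ha⟩
    have hv' : v ∈ X := Relation.ReflTransGen.trans hu (hconn u v hv)
    by_contra h
    have h' := not_or.1 h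
    refine ha.2 ?_
    rw [hTw.2.2.2.2.2.2 v r (fun a => h a.2) (fun a => nA r hr a.1)]
    exact hTw.2.2.2.2.1 v hv' r (nA r hr) h'.1 h'.2
  have hcl : Closed N A := by
    intro u hu
    have key : ∀ J ⊆ A, Simplex M J → Simplex N J := fun J hJ h =>
      ⟨fun s hs t ht => by
        rw [n1 s t (nA s (hJ hs)) (nA t (hJ ht))]
        exact h.1 s hs t ht, h.2⟩
    by_cases huX : u ∈ X
    · refine GR1_simplex_mono ?_ (key _ (fun _ h => h.1) (hP.cl y hy))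
      intro r hr
      rcases hattN u huX r hr with rfl | rfl <;> assumption
    · refine GR1_simplex_mono ?_ (key _ (fun _ h => h.1) (hP.cl u hu))
      rintro r ⟨hr, v, hv, ha⟩
      have hv' := hconn u v hv
      have hvX : v ∉ X := fun h => huX (Relation.ReflTransGen.trans h (GR1_conn_symm hv'))
      exact ⟨hr, v, hv', ha.1, n1 v r hvX (nA r hr) ▸ ha.2⟩
  have hPN : Part N M' V (twE E p q X) A τ := by
    refine ⟨hmat V E hP.mat, ⟨fun s hs t ht => ?_, fun s hs t ht ha => ?_⟩, hP.vert, hcl, hP.cl'⟩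
    · rw [n1 s t (nA s hs) (nA t ht), hP.good.1 s hs t ht]
    · rw [twE, if_neg (not_or.2 ⟨nA s hs, nA t ht⟩)]
      exact hP.good.2 s hs t ht ⟨ha.1, n1 s t (nA s hs) (nA t ht) ▸ ha.2⟩
  have hTX : ∀ t ∈ T, t ∈ X ∨ t = p ∨ t = q := fun t ht =>
    ((R.inside A T z hP.cl hT.1 zT hzA t ht).imp_left (hatt t)).symm
  have swT : ∀ U : Set S, p ∈ U → q ∈ U → ∀ t ∈ U, Equiv.swap p q t ∈ U := by
    intro U hp' hq' t ht
    rw [Equiv.swap_apply_def]
    split_ifs <;> assumption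
  have imT : ∀ U : Set S, p ∈ U → q ∈ U → Equiv.swap p q '' U = U := by
    intro U hp' hq'
    refine Set.Subset.antisymm ?_ fun t ht => ⟨_, swT U hp' hq' t ht, Equiv.swap_apply_self _ _ _⟩
    rintro _ ⟨t, ht, rfl⟩
    exact swT U hp' hq' t ht
  have hTN : MaxRigid N T := by
    constructor
    · rw [← imT T pT qT]
      refine R.image S N T _ hT.1 fun s hs t ht => ?_
      rw [GR1_swap hTw (hTX _ (swT T pT qT s hs)) (hTX _ (swT T pT qT t ht)),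
        Equiv.swap_apply_self, Equiv.swap_apply_self]
    · intro T1 hT1 hs1
      have hX1 : ∀ t ∈ T1, t ∈ X ∨ t = p ∨ t = q := fun t ht =>
        ((RN.inside A T1 z hcl hT1 (hs1 zT) hzA t ht).imp
          (hattN z Relation.ReflTransGen.refl t) (hconn z t)).symm
      have h4 := RN.image S M T1 (Equiv.swap p q) hT1 fun s hs t ht =>
        (GR1_swap hTw (hX1 s hs) (hX1 t ht)).symm
      rw [imT T1 (hs1 pT) (hs1 qT)] at h4
      exact hT.2 T1 h4 hs1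
  have hσN : Good N M' (twE E p q X) T (σ ∘ Equiv.swap p q) := by
    have lab : ∀ s ∈ T, ∀ t ∈ T, M (Equiv.swap p q s) (Equiv.swap p q t) = N s t :=
      fun s hs t ht => (GR1_swap hTw (hTX s hs) (hTX t ht)).symm
    refine ⟨fun s hs t ht => ?_, fun s hs t ht ha => ?_⟩
    · exact (hσ.1 _ (swT T pT qT s hs) _ (swT T pT qT t ht)).trans (lab s hs t ht)
    · by_cases h : s ∈ X ∨ t ∈ X
      · rw [twE, if_pos h]
        exact hσ.2 _ (swT T pT qT s hs) _ (swT T pT qT t ht) ((GR1_adj_map lab hs ht).2 ha)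
      · have key : ∀ u, u = p ∨ u = q → (σ ∘ Equiv.swap p q) u = τ u := by
          rintro u (rfl | rfl)
          · simpa using e2
          · simpa using e1
        have a1 := (hTX s hs).resolve_left (not_or.1 h).1
        have a2 := (hTX t ht).resolve_left (not_or.1 h).2
        rw [key s a1, key t a2]
        exact hPN.good.2 s (pqA s a1) t (pqA t a2) ha
  obtain ⟨τ1, h⟩ := GR1_core RN R' (hNN hN) hN' hPN hTN hσN hpq pT qT hp.1 hq.1 zT hzA
    (by simpa using e2) (by simpa using e1)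
  exact ⟨N, V, _, _, τ1, Relation.ReflTransGen.single ⟨p, q, X, hTw⟩, hNN hN, hss, h⟩

end Pool.Agent.Lib.MP_1b8ce0_al.T
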