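import Pool.Agent.Lib.MP_1b8ce0_al.T.StsC

set_option linter.unusedSectionVars false
set_option linter.dupNamespace false

namespace Pool.Agent.Lib.MP_1b8ce0_al.T

variable {S S' : Type}

theorem GR2_symm {M : CoxeterMatrix S} {s t : S} (h : Adj M s t) : Adj M t s :=
  ⟨h.1.symm, by rw [M.symmetric]; exact h.2⟩

theorem GR2_pair {M : CoxeterMatrix S} {J : Set S} {a b : S} (h : ∀ s ∈ J, s = a ∨ s = b)
    (hab : M a b ≠ 0) : Simplex M J := by
  have hba : M b a ≠ 0 := by rw [M.symmetric]; exact hab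
  refine ⟨fun s hs t ht => ?_, fun s hs t ht u hu => ?_⟩
  · rcases h s hs with rfl | rfl <;> rcases h t ht with rfl | rfl <;> simp_all
  · rcases h s hs with rfl | rfl <;> rcases h t ht with rfl | rfl <;>
      rcases h u hu with rfl | rfl <;> simp

theorem GR2_sub {M : CoxeterMatrix S} {J : Set S} (h : ∀ s ∈ J, ∀ t ∈ J, s = t) :
    Simplex M J :=
  ⟨fun s hs t ht => by rw [h s hs t ht, M.diagonal]; simp, fun s hs t ht _ _ => Or.inl (h s hs t ht)⟩

theorem GR2_mem {M : CoxeterMatrix S} {A : Set S} {u w : S} (h : Conn M A u w) (hu : u ∈ A) :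
    w ∈ A := by
  induction h with
  | refl => exact hu
  | tail _ h _ => exact h.2.1

theorem GR2_csymm {M : CoxeterMatrix S} {A : Set S} {u w : S} (h : Conn M A u w) :
    Conn M A w u := by
  induction h with
  | refl => exact Relation.ReflTransGen.refl
  | tail _ h ih => exact Relation.ReflTransGen.head ⟨h.2.1, h.1, GR2_symm h.2.2⟩ ih

theorem GR2_mono {M : CoxeterMatrix S} {A A1 : Set S} (hA : A ⊆ A1) {u w : S}
    (h : Conn M A u w) : Conn M A1 u w := by
  induction h with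
  | refl => exact Relation.ReflTransGen.refl
  | tail _ h ih => exact ih.tail ⟨hA h.1, hA h.2.1, h.2.2⟩

theorem GR2_omono {M : CoxeterMatrix S} {A A1 : Set S} (hA : A ⊆ A1) {u w : S}
    (h : OC M A u w) : OC M A1 u w := by
  induction h with
  | refl => exact Relation.ReflTransGen.refl
  | tail _ h ih => exact ih.tail ⟨hA h.1, hA h.2.1, h.2.2⟩

theorem GR2_att {M : CoxeterMatrix S} {A : Set S} {u w q : S} (h : Conn M Aᶜ u w)
    (hq : q ∈ Att M A w) : q ∈ Att M A u := by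
  obtain ⟨h1, z, h2, h3⟩ := hq
  exact ⟨h1, z, h.trans h2, h3⟩

theorem GR2_odd {M : CoxeterMatrix S} {u w : S} (h : u ≠ w ∧ Odd (M u w)) : Adj M u w :=
  ⟨h.1, fun e => by have := h.2; rw [e] at this; simp at this⟩

theorem GR2_path {M : CoxeterMatrix S} {A : Set S}
    (ha : ∀ y p q, y ∉ A → p ∈ Att M A y → q ∈ Att M A y → p = q) {p u : S} (hp : p ∈ A)
    (h : OddConn M p u) : (u ∈ A ∧ OC M A p u) ∨
      (u ∉ A ∧ ∃ q ∈ Att M A u, OC M A p q ∧ OC M (insert q {z | Conn M Aᶜ u z}) q u) := by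
  induction h with
  | refl => exact Or.inl ⟨hp, Relation.ReflTransGen.refl⟩
  | @tail u w _ h ih =>
    have adj := GR2_odd h
    rcases ih with ⟨hu, ih⟩ | ⟨hu, q, hq, i1, i2⟩ <;> by_cases hw : w ∈ A
    · exact Or.inl ⟨hw, ih.tail ⟨hu, hw, h⟩⟩
    · exact Or.inr ⟨hw, u, ⟨hu, w, Relation.ReflTransGen.refl, GR2_symm adj⟩, ih,
        Relation.ReflTransGen.single ⟨Or.inl rfl, Or.inr Relation.ReflTransGen.refl, h⟩⟩
    · have : q = w := ha u q w hu hq ⟨hw, u, Relation.ReflTransGen.refl, adj⟩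
      exact Or.inl ⟨hw, this ▸ i1⟩
    · have c : Conn M Aᶜ w u := Relation.ReflTransGen.single ⟨hw, hu, GR2_symm adj⟩
      refine Or.inr ⟨hw, q, GR2_att c hq, i1, ?_⟩
      have hs : insert q {z | Conn M Aᶜ u z} ⊆ insert q {z | Conn M Aᶜ w z} :=
        Set.insert_subset_insert fun z hz => c.trans hz
      refine Relation.ReflTransGen.tail (GR2_omono hs i2) ?_
      exact ⟨Or.inr c, Or.inr Relation.ReflTransGen.refl, h⟩

theorem GR2_hang {M : CoxeterMatrix S} {A : Set S}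
    (ha : ∀ y p q, y ∉ A → p ∈ Att M A y → q ∈ Att M A y → p = q) {z q : S} (hz : z ∉ A)
    (hq : q ∈ Att M A z) : Hang M A {u | Conn M Aᶜ z u} q := by
  refine ⟨hq.1, fun u hu => GR2_mem hu hz, fun u hu w hw hwq => ?_⟩
  by_contra h0
  have adj : Adj M u w := ⟨fun e => hw (e ▸ hu), h0⟩
  by_cases hA : w ∈ A
  · exact hwq (ha z w q hz ⟨hA, u, hu, adj⟩ hq)
  · exact hw (Relation.ReflTransGen.tail hu ⟨GR2_mem hu hz, hA, adj⟩)

theorem GR2_inj {M : CoxeterMatrix S} {M' : CoxeterMatrix S'} {E : S → S → S' → S' → Prop}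
    {A : Set S} {τ : S → S'} (h : Good M M' E A τ) {s t : S} (hs : s ∈ A) (ht : t ∈ A)
    (e : τ s = τ t) : s = t := by
  by_contra hn
  have := h.1 s hs t ht
  rw [e, M'.diagonal] at this
  exact M.off_diagonal s t hn this.symm

open Classical in
theorem GR2_image {A : Set S} (τ : S → S') {y : S} (b : S') (hy : y ∉ A) :
    Function.update τ y b '' insert y A = insert b (τ '' A) := by
  rw [Set.image_insert_eq, Function.update_self]
  congr 1
  exact Set.image_congr fun s hs => Function.update_of_ne (fun e : s = y => hy (e ▸ hs)) _ _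

theorem GR2_thm (h2 : St_SL) (h3 : St_GR0) : St_GR2 := by
  classical
  rintro S S' _ _ M M' V E A τ ns ns' P ⟨ha, hb, p, hp, b', hb', adj'⟩
  obtain ⟨g1, -⟩ := h3 S S' M M' V E A τ P
  obtain ⟨c, y, hE⟩ := P.mat.2.etot _ _ adj'
  obtain ⟨adj, -, hv⟩ := P.mat.1.edge _ _ _ _ hE
  have oc : OddConn M p c := (P.mat.1.vcls p c _ (P.vert p hp)).1 hv
  have key : ∃ Z p0, Hang M A Z p0 ∧ OC M A p p0 ∧ OC M (insert p0 Z) p0 c ∧ y ∈ insert p0 Z := by
    rcases GR2_path ha hp oc with ⟨hc, o⟩ | ⟨hc, q, hq, o1, o2⟩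
    · have hy : y ∉ A := fun hy => hb' ((g1 _ _ _ _ hE).1 ⟨hc, hy⟩).2
      exact ⟨_, c, GR2_hang ha hy ⟨hc, y, Relation.ReflTransGen.refl, GR2_symm adj⟩, o,
        Relation.ReflTransGen.refl, Or.inr Relation.ReflTransGen.refl⟩
    · have hg := GR2_hang ha hc hq
      refine ⟨_, q, hg, o1, o2, ?_⟩
      by_contra hn
      rw [Set.mem_insert_iff, not_or] at hn
      exact adj.2 (hg.2.2 c Relation.ReflTransGen.refl y hn.2 hn.1)
  obtain ⟨Z, p0, hg, o1, o2, hy⟩ := key
  obtain ⟨N, E1, y1, tw, nsN, mat, hN, hy1, e1, same⟩ :=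
    h2 S S' M M' V E A Z p0 p c y (τ p) b' ns P.mat hg o1 o2 hy hE
  have hyA : y1 ∉ A := hN.2.1 y1 hy1
  have nZ : ∀ s ∈ A, s ∉ Z := fun s hs hz => hN.2.1 s hz hs
  obtain ⟨adjN, lab, -⟩ := mat.1.edge _ _ _ _ e1
  have up : ∀ s ∈ A, Function.update τ y1 b' s = τ s := fun s hs =>
    Function.update_of_ne (fun e : s = y1 => hyA (e ▸ hs)) _ _
  have attp : τ p ∈ Att M' (τ '' A) b' :=
    ⟨⟨p, hp, rfl⟩, b', Relation.ReflTransGen.refl, GR2_symm adj'⟩
  have lab1 : ∀ s ∈ A, M' (τ s) b' = N s y1 := by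
    intro s hs
    by_cases e : s = p
    · rw [e, lab]
    · rw [N.symmetric, hN.2.2 y1 hy1 s (nZ s hs) e]
      by_contra h0
      have a : Adj M' b' (τ s) := GR2_symm ⟨fun e => hb' ⟨s, hs, e⟩, h0⟩
      exact e (GR2_inj P.good hs hp
        (hb b' _ _ hb' ⟨⟨s, hs, rfl⟩, b', Relation.ReflTransGen.refl, a⟩ attp))
  have ed1 : ∀ s ∈ A, Adj N s y1 → E1 s y1 (τ s) b' := by
    intro s hs a
    have e : s = p := by
      by_contra e
      exact (GR2_symm a).2 (hN.2.2 y1 hy1 s (nZ s hs) e)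
    rw [e]; exact e1
  refine ⟨N, V, E1, insert y1 A, Function.update τ y1 b', tw, nsN, Set.ssubset_insert hyA,
    mat, ⟨?_, ?_⟩, ?_, ?_, ?_⟩
  · rintro s (rfl | hs) t (rfl | ht)
    · rw [M'.diagonal, N.diagonal]
    · rw [Function.update_self, up t ht, M'.symmetric, lab1 t ht, N.symmetric]
    · rw [Function.update_self, up s hs, lab1 s hs]
    · rw [up s hs, up t ht, (same s t (nZ s hs) (nZ t ht)).1, P.good.1 s hs t ht]
  · rintro s (rfl | hs) t (rfl | ht) a
    · exact absurd rfl a.1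
    · rw [Function.update_self, up t ht]
      exact mat.1.symm _ _ _ _ (ed1 t ht (GR2_symm a))
    · rw [Function.update_self, up s hs]
      exact ed1 s hs a
    · rw [up s hs, up t ht, ((same s t (nZ s hs) (nZ t ht)).2 _ _)]
      exact P.good.2 s hs t ht ⟨a.1, by rw [← (same s t (nZ s hs) (nZ t ht)).1]; exact a.2⟩
  · rintro s (rfl | hs)
    · rw [Function.update_self]
      exact (mat.1.edge _ _ _ _ (mat.1.symm _ _ _ _ e1)).2.2
    · rw [up s hs]; exact P.vert s hs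
  · intro u hu
    by_cases hz : u ∈ Z
    · refine GR2_pair (a := p) (b := y1) ?_ adjN.2
      rintro a ⟨ha1 | ha1, w, cw, aw⟩
      · exact Or.inr ha1
      · have hw : w ∈ Z := by
          clear aw
          induction cw with
          | refl => exact hz
          | @tail w1 w2 _ h ih =>
            by_contra hn
            exact h.2.2.2 (hN.2.2 w1 ih w2 hn fun e => h.2.1 (Or.inr (e ▸ hp)))
        left
        by_contra e
        exact aw.2 (hN.2.2 w hw a (nZ a ha1) e)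
    · have hin : ∀ a ∈ Att N (insert y1 A) u, a ∈ Att M A u := by
        rintro a ⟨ha1, w, cw, aw⟩
        have hw : w ∉ Z ∧ Conn M Aᶜ u w := by
          clear aw
          induction cw with
          | refl => exact ⟨hz, Relation.ReflTransGen.refl⟩
          | @tail w1 w2 _ h ih =>
            have h2 : w2 ∉ Z := fun hn => (GR2_symm h.2.2).2
              (hN.2.2 w2 hn w1 ih.1 fun e => h.1 (Or.inr (e ▸ hp)))
            exact ⟨h2, ih.2.tail ⟨fun e => h.1 (Or.inr e), fun e => h.2.1 (Or.inr e), h.2.2.1,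
              by rw [← (same w1 w2 ih.1 h2).1]; exact h.2.2.2⟩⟩
        have hwA : w ∉ insert y1 A := GR2_mem cw hu
        rcases ha1 with rfl | ha1
        · exact absurd (hN.2.2 a hy1 w hw.1 fun e => hwA (Or.inr (e ▸ hp))) (GR2_symm aw).2
        · exact ⟨ha1, w, hw.2, aw.1, by rw [← (same w a hw.1 (nZ a ha1)).1]; exact aw.2⟩
      exact GR2_sub fun s hs t ht =>
        ha u s t (fun e => hu (Or.inr e)) (hin s hs) (hin t ht)
  · rw [GR2_image τ b' hyA]
    intro u hu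
    have hu1 : u ∉ τ '' A := fun e => hu (Or.inr e)
    have sub : (insert b' (τ '' A))ᶜ ⊆ (τ '' A)ᶜ := fun z hz e => hz (Or.inr e)
    have hin : ∀ a ∈ Att M' (insert b' (τ '' A)) u, a = b' ∨ a ∈ Att M' (τ '' A) u := by
      rintro a ⟨ha1 | ha1, w, cw, aw⟩
      · exact Or.inl ha1
      · exact Or.inr ⟨ha1, w, GR2_mono sub cw, aw⟩
    by_cases hq : b' ∈ Att M' (insert b' (τ '' A)) u
    · obtain ⟨-, w, cw, aw⟩ := hq
      have c1 : Conn M' (τ '' A)ᶜ u b' :=
        (GR2_mono sub cw).tail ⟨sub (GR2_mem cw hu), hb', aw⟩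
      refine GR2_pair (a := τ p) (b := b') (fun a h => ?_) adj'.2
      rcases hin a h with e | e
      · exact Or.inr e
      · exact Or.inl (hb u _ _ hu1 e (GR2_att c1 attp))
    · refine GR2_sub fun s hs t ht => ?_
      exact hb u s t hu1 ((hin s hs).resolve_left fun e => hq (e ▸ hs))
        ((hin t ht).resolve_left fun e => hq (e ▸ ht))

theorem GR2_stay {M : CoxeterMatrix S} {A : Set S} (h : ∀ a ∈ A, ∀ b, Adj M a b → b ∈ A)
    {u w : S} (hu : u ∈ A) (o : OddConn M u w) : w ∈ A := by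
  induction o with
  | refl => exact hu
  | tail _ e ih => exact h _ ih _ (GR2_odd e)

theorem GR2_free {M : CoxeterMatrix S} {A : Set S} (h : ∀ a ∈ A, ∀ b, Adj M a b → b ∈ A) (s : S) :
    Closed M (insert s A) := by
  intro u hu
  have : ∀ a ∈ Att M (insert s A) u, a = s := by
    rintro a ⟨ha | ha, w, cw, aw⟩
    · exact ha
    · exact absurd (Or.inr (h a ha w (GR2_symm aw))) (GR2_mem cw hu)
  exact GR2_sub fun a ha b hb => (this a ha).trans (this b hb).symm

theorem GL_step (h1 : St_GR0) (h2 : St_GR1) (h3 : St_GR2) [Finite S] [Finite S']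
    {M : CoxeterMatrix S} {M' : CoxeterMatrix S'} {V : S → S' → Prop}
    {E : S → S → S' → S' → Prop} {A : Set S} {τ : S → S'} (ns : NoSph M) (ns' : NoSph M')
    (P : Part M M' V E A τ) : Grow M M' A ∨ TwistEquiv M M' := by
  classical
  obtain ⟨g1, g2⟩ := h1 S S' M M' V E A τ P
  by_cases c1 : ∃ y p q, y ∉ A ∧ p ∈ Att M A y ∧ q ∈ Att M A y ∧ p ≠ q
  · exact Or.inl (h2 S S' M M' V E A τ ns ns' P c1)
  by_cases c2 : ∃ p ∈ A, ∃ b', b' ∉ τ '' A ∧ Adj M' (τ p) b'
  · refine Or.inl (h3 S S' M M' V E A τ ns ns' P ⟨fun y p q hy hp hq => ?_,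
      fun y p q hy hp hq => ?_, c2⟩)
    · by_contra e
      exact c1 ⟨y, p, q, hy, hp, hq, e⟩
    · by_contra e
      exact c1 (g2 y p q hy hp hq e)
  have st' : ∀ a ∈ τ '' A, ∀ b, Adj M' a b → b ∈ τ '' A := by
    rintro _ ⟨a, ha, rfl⟩ b adj
    by_contra hb
    exact c2 ⟨a, ha, b, hb, adj⟩
  have st : ∀ a ∈ A, ∀ b, Adj M a b → b ∈ A := by
    intro a ha b adj
    obtain ⟨a', b', hE⟩ := P.mat.1.etot a b adj
    have hv := (P.mat.1.edge _ _ _ _ hE).2.2
    have ha' : a' ∈ τ '' A :=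
      GR2_stay st' ⟨a, ha, rfl⟩ ((P.mat.2.vcls (τ a) a' a (P.vert a ha)).1 hv)
    exact ((g1 _ _ _ _ hE).2 ⟨ha', st' _ ha' _ (P.mat.2.edge _ _ _ _ hE).1⟩).2
  by_cases hA : ∀ s, s ∈ A
  · right
    have bij : Function.Bijective τ := by
      refine ⟨fun s t e => GR2_inj P.good (hA s) (hA t) e, fun s' => ?_⟩
      obtain ⟨s, hv⟩ := P.mat.2.vtot s'
      obtain ⟨t, -, e⟩ :=
        GR2_stay st' ⟨s, hA s, rfl⟩ ((P.mat.2.vcls (τ s) s' s (P.vert s (hA s))).1 hv)
      exact ⟨t, e⟩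
    exact ⟨M, Relation.ReflTransGen.refl, Equiv.ofBijective τ bij,
      fun s t => P.good.1 s (hA s) t (hA t)⟩
  · left
    push Not at hA
    obtain ⟨s, hs⟩ := hA
    obtain ⟨s', hv⟩ := P.mat.1.vtot s
    have hs' : s' ∉ τ '' A := by
      rintro ⟨a, ha, rfl⟩
      exact hs (GR2_stay st ha ((P.mat.1.vcls a s _ (P.vert a ha)).1 hv))
    have up : ∀ a ∈ A, Function.update τ s s' a = τ a := fun a ha =>
      Function.update_of_ne (fun e : a = s => hs (e ▸ ha)) _ _
    have z1 : ∀ a ∈ A, M' (τ a) s' = M a s := by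
      intro a ha
      have e1 : M a s = 0 := by
        by_contra h0
        exact hs (st a ha s ⟨fun e => hs (e ▸ ha), h0⟩)
      have e2 : M' (τ a) s' = 0 := by
        by_contra h0
        exact hs' (st' _ ⟨a, ha, rfl⟩ s' ⟨fun e => hs' ⟨a, ha, e⟩, h0⟩)
      rw [e1, e2]
    refine ⟨M, V, E, insert s A, Function.update τ s s', Relation.ReflTransGen.refl, ns,
      Set.ssubset_insert hs, P.mat, ⟨?_, ?_⟩, ?_, GR2_free st s, ?_⟩
    · rintro a (rfl | ha) b (rfl | hb)
      · rw [M'.diagonal, M.diagonal]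
      · rw [Function.update_self, up b hb, M'.symmetric, z1 b hb, M.symmetric]
      · rw [Function.update_self, up a ha, z1 a ha]
      · rw [up a ha, up b hb, P.good.1 a ha b hb]
    · rintro a (rfl | ha) b (rfl | hb) adj
      · exact absurd rfl adj.1
      · exact absurd (st b hb a (GR2_symm adj)) hs
      · exact absurd (st a ha b adj) hs
      · rw [up a ha, up b hb]; exact P.good.2 a ha b hb adj
    · rintro a (rfl | ha)
      · rw [Function.update_self]; exact hv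
      · rw [up a ha]; exact P.vert a ha
    · rw [GR2_image τ s' hs]
      exact GR2_free st' s'

theorem GL_thm (h1 : St_GR0) (h2 : St_GR1) (h3 : St_GR2) : St_GL := by
  intro S S' _ _ M M' V E ns ns' mat
  have key : ∀ n : ℕ, ∀ (M : CoxeterMatrix S) V E (A : Set S) (τ : S → S'), NoSph M →
      Part M M' V E A τ → Aᶜ.ncard = n → TwistEquiv M M' := by
    intro n
    induction n using Nat.strong_induction_on with
    | _ n ih =>
    intro M V E A τ ns P hn
    rcases GL_step h1 h2 h3 ns ns' P with ⟨N, V1, E1, A1, τ1, tw, nsN, hs, P1⟩ | h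
    · have lt : A1ᶜ.ncard < n := by
        rw [← hn]
        exact Set.ncard_lt_ncard (compl_lt_compl_iff_lt.2 hs) (Set.toFinite _)
      obtain ⟨K, tw1, e⟩ := ih _ lt N V1 E1 A1 τ1 nsN P1 rfl
      exact ⟨K, tw.trans tw1, e⟩
    · exact h
  choose τ _ using mat.1.vtot
  refine key _ M V E ∅ τ ns ⟨mat, ⟨fun s hs => hs.elim, fun s hs => hs.elim⟩,
    fun s hs => hs.elim, fun y _ => GR2_sub fun s hs => hs.1.elim,
    fun y _ => GR2_sub fun s hs => ?_⟩ rfl
  obtain ⟨⟨a, ha, -⟩, -⟩ := hs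
  exact ha.elim

end Pool.Agent.Lib.MP_1b8ce0_al.T
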