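import Mathlib
import Pool.Agent.Lib.MP_1b8ce0_al.T.StsC

set_option linter.unusedSectionVars false
set_option linter.dupNamespace false

namespace Pool.Agent.Lib.MP_1b8ce0_al.T

open Pool.Agent.Lib.MP_6d85b4_al Filter

variable {T B : Type} [Fintype T] [DecidableEq T] [Fintype B] [DecidableEq B]
  {M : CoxeterMatrix T} {N : CoxeterMatrix B} {j : M.Group →* N.Group} {β : T → B → ℝ}

/-! ### cosines -/

theorem GT_cc2 {s t : T} (h : M s t = 2) : cc M s t = 0 := by
  rw [cc, h]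
  simp

theorem GT_cc3 {s t : T} (h : M s t = 3) : cc M s t = 1 := by
  rw [cc, h, Nat.cast_ofNat, Real.cos_pi_div_three]
  norm_num

theorem GT_cc0 {s t : T} (h : M s t = 0) : cc M s t = 2 := by
  rw [cc, h]
  simp

theorem GT_ccge (h0 : St_CH) {s t : T} (h : 3 ≤ M s t) : 1 ≤ cc M s t ∧
    (4 ≤ M s t → 2 ≤ cc M s t ^ 2) ∧ (6 ≤ M s t → 3 ≤ cc M s t ^ 2) := by
  obtain ⟨_, _, e, _, _, _, _, _, h1, h2, h3, _⟩ := h0 (M s t) 0 (by omega)
  rw [e] at h1 h2 h3
  exact ⟨h1 h, h2, h3⟩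

theorem GT_cc1 (h0 : St_CH) {s t : T} (h : s ≠ t) (h2 : M s t ≠ 2) : 1 ≤ cc M s t := by
  have h1 := M.off_diagonal s t h
  rcases Nat.eq_zero_or_pos (M s t) with h3 | h3
  · rw [GT_cc0 h3]
    norm_num
  · exact (GT_ccge h0 (by omega)).1

theorem GT_ccnn (h0 : St_CH) {s t : T} (h : s ≠ t) : 0 ≤ cc M s t := by
  by_cases h2 : M s t = 2
  · rw [GT_cc2 h2]
  · linarith [GT_cc1 h0 h h2]

theorem GT_Bal (s t : T) : Bf M (al s) (al t) = -cc M s t / 2 := by
  rw [Bf_al, cc]
  ring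

theorem GT_refl (a0 : C0a M) (s t : T) : rho M (sr M s) (al t) = al t + cc M s t • al s := by
  rw [a0.refl_eq _ _ (a0.root_al s).2, GT_Bal]
  module

theorem GT_self (a0 : C0a M) (s : T) : rho M (sr M s) (al s) = -al s := by
  rw [GT_refl a0, cc_self]
  module

/-- the roots used below are far from the other simple roots -/
theorem GT_far (h0 : St_CH) (hM : NoSph M) {s t u v : T} (hsu : M s u = 2) (hs : v ≠ s)
    (ht : v ≠ t) (hu : v ≠ u) {a b c : ℝ} (ha : 2 ≤ a) (hb : 0 ≤ b) (hc : 1 ≤ c) :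
    1 ≤ |Bf M (al v) (a • al s + b • al t + c • al u)| := by
  rw [Bf_add_right, Bf_add_right, Bf_smul_right, Bf_smul_right, Bf_smul_right, GT_Bal, GT_Bal,
    GT_Bal]
  have h1 := GT_ccnn (M := M) h0 hs
  have h2 := GT_ccnn (M := M) h0 ht
  have h3 := GT_ccnn (M := M) h0 hu
  refine le_trans ?_ (neg_le_abs _)
  by_cases h : M v s = 2
  · have hne : s ≠ u := by
      rintro rfl
      rw [M.diagonal] at hsu
      omega
    have h4 := hM v s u hs hne hu
    rw [h, hsu] at h4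
    have h5 : M v u = 0 := by
      by_contra h5
      have : (0 : ℚ) < 1 / (M v u : ℚ) := by positivity
      push_cast at h4
      linarith
    rw [GT_cc0 h5]
    nlinarith [mul_nonneg hb h2, mul_nonneg (by linarith : 0 ≤ a) h1]
  · have h4 := GT_cc1 (M := M) h0 hs h
    nlinarith [mul_nonneg hb h2, mul_nonneg (by linarith : 0 ≤ c) h3]

/-! ### points -/

theorem GT_ne {y : Pt B} {u v : B → ℝ} (hu : y u ≠ 0) (hv : y v = 0) : v ≠ u ∧ v ≠ -u :=
  ⟨fun h => hu (h ▸ hv), fun h => hu (by rw [h, map_neg, neg_eq_zero] at hv; exact hv)⟩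

theorem GT_cross_neg (a0 : C0a N) {a b : B → ℝ} (h : Cross N a (-b)) : Cross N a b := by
  obtain ⟨ha, hb, h1, h2, x, hx, h3, h4⟩ := h
  refine ⟨ha, by simpa using a0.root_neg _ hb, fun e => h2 (by rw [e]),
    fun e => h1 (by rw [e, neg_neg]), x, hx, h3, by rwa [map_neg, neg_eq_zero] at h4⟩

theorem GT_both {x y : ℝ} (h0 : x ≠ 0) (h1 : 0 < x → 0 < y) (h2 : 0 < -x → 0 < -y) :
    0 < x * y := by
  rcases lt_or_gt_of_ne h0 with h | h
  · exact mul_pos_of_neg_of_neg h (by linarith [h2 (by linarith)])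
  · exact mul_pos h (h1 h)

theorem GT_root (G : Geo M N j β) (A : CA N) (t : T) : IsRoot N (β t) :=
  A.a0.refl_isRoot _ _ (G.refl t)

theorem GT_rho (G : Geo M N j β) (A : CA N) (s : T) (v : B → ℝ) :
    rho N (j (sr M s)) v = v - (2 * Bf N (β s) v) • β s := A.a0.refl_eq _ _ (G.refl s) v

theorem GT_four (G : Geo M N j β) (A : CA N) (g : G0 M N j β) {s t u : T} (hst : s ≠ t)
    (htu : t ≠ u) (hsu : M s u = 2) (h : M t u ≠ 0) {y y' : Pt B} (hy : OnV N β t u y)
    (hy' : OnV N β s u y') : Bf N (β s) (β t) * (y (β s) * y' (β t)) < 0 := by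
  have hne : s ≠ u := by
    rintro rfl
    rw [M.diagonal] at hsu
    omega
  have h1 : y (β s) ≠ 0 := g.nz t u s y ⟨htu, h⟩ hst hne hy
  have h2 : y' (β t) ≠ 0 := g.nz s u t y' ⟨hne, by omega⟩ hst.symm htu hy'
  have hus := GT_ne h1 hy.2.2
  have ev : ∀ v, (y + act N (j (sr M s))⁻¹ y) v = 2 * y v - 2 * Bf N (β s) v * y (β s) := by
    intro v
    rw [LinearMap.add_apply, act_apply, inv_inv, GT_rho G A, map_sub, map_smul, smul_eq_mul]
    ring
  have hz := A.a1.add _ _ hy.1 (A.a1.act_mem (j (sr M s))⁻¹ y hy.1)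
  have z1 : (y + act N (j (sr M s))⁻¹ y) (β s) = 0 := by
    rw [ev, A.a0.root_norm _ (GT_root G A s)]
    ring
  have z2 : (y + act N (j (sr M s))⁻¹ y) (β u) = 0 := by
    rw [ev, g.two s u hsu, hy.2.2]
    ring
  have key := fun e he => A.b1.face_eq y' _ (β s) (β u) e hy'.1 hz (GT_root G A s)
    (GT_root G A u) he hus.1 hus.2 hy'.2.1 hy'.2.2 z1 z2
  have h3 := GT_both h2 (key _ (GT_root G A t)) (by
    have := key _ (A.a0.root_neg _ (GT_root G A t))
    rwa [map_neg, map_neg] at this)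
  rw [ev, hy.2.1] at h3
  nlinarith

theorem GT_three (G : Geo M N j β) (A : CA N) (A' : CA M) (g : G0 M N j β) {s t u : T}
    (hst : s ≠ t) (htu : t ≠ u) (hsu : M s u = 2) (h : M t u = 3) :
    3 ≤ 4 * Bf N (β s) (β t) ^ 2 := by
  have hne : s ≠ u := by
    rintro rfl
    rw [M.diagonal] at hsu
    omega
  obtain ⟨y, hy⟩ := g.vert s u ⟨hne, by omega⟩
  have h2 := GT_ne (g.nz s u t y ⟨hne, by omega⟩ hst.symm htu hy) hy.2.2
  have e : rho M (sr M u) (al t) = rho M (sr M t) (al u) := by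
    rw [GT_refl A'.a0, GT_refl A'.a0, cc_symm, GT_cc3 h, one_smul, one_smul, add_comm]
  have h3 : Bf N (β t) (β u) ^ 2 = 1 / 4 := by
    have h4 := (g.same _ _ u t).mpr (Or.inl e)
    rw [GT_rho G A, GT_rho G A, Bf_symm N (β u)] at h4
    rcases h4 with h4 | h4
    · have := (A.a0.root_indep (β t) (β u) (1 + 2 * Bf N (β t) (β u))
        (-(1 + 2 * Bf N (β t) (β u))) (GT_root G A t) (GT_root G A u) h2.1 h2.2
        (by linear_combination (norm := module) h4)).1
      have h5 : Bf N (β t) (β u) = -1 / 2 := by linarith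
      rw [h5]
      norm_num
    · have := (A.a0.root_indep (β t) (β u) (1 - 2 * Bf N (β t) (β u))
        (1 - 2 * Bf N (β t) (β u)) (GT_root G A t) (GT_root G A u) h2.1 h2.2
        (by linear_combination (norm := module) h4)).1
      have h5 : Bf N (β t) (β u) = 1 / 2 := by linarith
      rw [h5]
      norm_num
  by_contra hlt
  have hfin := A.c1.gram _ _ _ _ _ _ (G.refl s) (G.refl t) (G.refl u) (g.two s u hsu)
    (by rw [h3]; linarith [not_le.mp hlt])
  refine A'.b1.sph s t u hst htu hne ?_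
  have e2 : (par M {s, t, u}).map j = Subgroup.closure {j (sr M s), j (sr M t), j (sr M u)} := by
    rw [par, gp, MonoidHom.map_closure]
    simp only [Set.image_insert_eq, Set.image_singleton]
  rw [← e2] at hfin
  exact Finite.of_equiv _ (Subgroup.equivMapOfInjective _ j G.inj).symm.toEquiv

/-- the common part of the first two items -/
theorem GT_main (G : Geo M N j β) (A : CA N) (A' : CA M) (g : G0 M N j β) {s t u : T}
    (hst : Adj M s t) (htu : Adj M t u) (hsu : Adj M s u) {l : B → ℝ} (hl : IsRoot N l)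
    (w : M.Group) (x : T) {y0 p : Pt B} (i0 : InI N y0) (y1 : y0 l = 0)
    (y2 : y0 (rho N (j w) (β x)) = 0) (y3 : y0 (β u) = 0) (ht : rho M w (al x) t ≠ 0)
    (hB : ∀ v, v ≠ t → v ≠ u → 1 ≤ |Bf M (al v) (rho M w (al x))|) (hp : OnV N β s u p)
    (hpl : p l ≠ 0) (hy : ∀ y, OnV N β u t y → 0 < y l * p l) : NM M N β u l := by
  have r := A.a0.root_rho (j w) _ (GT_root G A x)
  have hne : ∀ v, v ≠ t → β v ≠ rho N (j w) (β x) ∧ β v ≠ -rho N (j w) (β x) := by
    intro v hv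
    rw [← not_or]
    intro h
    have h1 := (g.same w 1 x v).mp (by rwa [map_one, rho_one])
    rw [rho_one] at h1
    have h2 : (al v : T → ℝ) t = 0 := by simp [al, hv.symm]
    rcases h1 with h1 | h1
    · exact ht (by rw [← h1, h2])
    · rw [h1, Pi.neg_apply, neg_eq_zero] at h2
      exact ht h2
  have hnc : ∀ v, v ≠ t → v ≠ u → ¬ Cross N (β v) (rho N (j w) (β x)) := by
    intro v h1 h2 h
    have h3 := (g.cross 1 w v x).mp (by rwa [map_one, rho_one])
    rw [rho_one] at h3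
    linarith [A'.t1.cross_lt _ _ h3, hB v h1 h2]
  obtain ⟨k, k', hk⟩ := A.b1.rank2 y0 _ (β u) l i0 r (GT_root G A u) hl (hne u htu.1.symm).1
    (hne u htu.1.symm).2 y2 y3 y1
  have ev : ∀ y : Pt B, y (β u) = 0 → y l = k * y (rho N (j w) (β x)) := by
    intro y h
    rw [hk, map_add, map_smul, map_smul, h, smul_zero, add_zero, smul_eq_mul]
  have hk0 : k ≠ 0 := by
    rintro rfl
    exact hpl (by rw [ev p hp.2.2, zero_mul])
  have key : ∀ v y, Adj M u v → OnV N β u v y → 0 < y l * p l := by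
    intro v y hv hvy
    by_cases hvt : v = t
    · exact hy y (hvt ▸ hvy)
    have hvu : v ≠ u := hv.1.symm
    have hc : Conn M {v | v ≠ t ∧ v ≠ u} v s := by
      by_cases hvs : v = s
      · rw [hvs]
        exact Relation.ReflTransGen.refl
      · obtain ⟨c, hc1, hc2⟩ := g.tri s t u v hst htu hsu hvs hvt hvu
        have hsub : ∀ a, a ∈ ({s, t, u}ᶜ : Set T) → a ≠ t ∧ a ≠ u := fun a ha =>
          ⟨fun e => ha (by simp [e]), fun e => ha (by simp [e])⟩
        have hc3 : c ≠ t ∧ c ≠ u := by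
          rcases hc1.cases_tail with h | ⟨d, _, h⟩
          · rw [h]
            exact ⟨hvt, hvu⟩
          · exact hsub c h.2.1
        have hc4 : Conn M {v | v ≠ t ∧ v ≠ u} v c := by
          clear hc2 hc3
          induction hc1 with
          | refl => exact Relation.ReflTransGen.refl
          | tail _ h ih => exact ih.tail ⟨hsub _ h.1, hsub _ h.2.1, h.2.2⟩
        exact hc4.tail ⟨hc3, ⟨hst.1, hsu.1⟩, hc2⟩
    have h1 := g.prop {v | v ≠ t ∧ v ≠ u} _ r
      (fun a ha => ⟨(hne a ha.1).1, (hne a ha.1).2, hnc a ha.1 ha.2⟩) v s hc ⟨hvt, hvu⟩ y p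
      hvy.1 hp.1 hvy.2.2 hp.2.1
    have h2 := g.prop {v | v ≠ t ∧ v ≠ u} _ (A.a0.root_neg _ r)
      (fun a ha => ⟨(hne a ha.1).2, by rw [neg_neg]; exact (hne a ha.1).1,
        fun h => hnc a ha.1 ha.2 (GT_cross_neg A.a0 h)⟩) v s hc ⟨hvt, hvu⟩ y p
      hvy.1 hp.1 hvy.2.2 hp.2.1
    rw [map_neg, map_neg] at h2
    have h3 : y (rho N (j w) (β x)) ≠ 0 := fun h => hnc v hvt hvu
      ⟨GT_root G A v, r, (hne v hvt).1.symm, fun e => (hne v hvt).2 (by rw [e, neg_neg]), y,
        hvy.1, hvy.2.2, h⟩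
    have h4 := GT_both h3 h1 h2
    rw [ev y hvy.2.1, ev p hp.2.2]
    nlinarith [mul_pos (mul_self_pos.mpr hk0) h4]
  rcases lt_or_gt_of_ne hpl with h | h
  · refine ⟨-1, Or.inr rfl, fun v y hv hvy => ?_⟩
    nlinarith [key v y hv hvy]
  · refine ⟨1, Or.inl rfl, fun v y hv hvy => ?_⟩
    nlinarith [key v y hv hvy]

theorem GT_one (h0 : St_CH) (G : Geo M N j β) (A : CA N) (A' : CA M) (g : G0 M N j β) {s t u : T}
    (hm : 3 ≤ M s t) (hst : s ≠ t) (htu : t ≠ u) (hsu : M s u = 2) (hn : 4 ≤ M t u) :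
    NM M N β u (rho N (j (sr M s)) (β t)) := by
  have hne : s ≠ u := by
    rintro rfl
    rw [M.diagonal] at hsu
    omega
  obtain ⟨q, hq⟩ := g.vert t u ⟨htu, by omega⟩
  obtain ⟨p, hp⟩ := g.vert s u ⟨hne, by omega⟩
  have c1 := GT_ccge (M := M) h0 hm
  have c2 := GT_ccge (M := M) h0 (by omega : 3 ≤ M t u)
  obtain ⟨w, x, a, b, hw, ha, hb, hq0⟩ : ∃ (w : M.Group) (x : T) (a b : ℝ),
      rho M w (al x) = a • al t + b • al u ∧ 2 ≤ a * cc M s t ∧ 1 ≤ b ∧
        q (rho N (j w) (β x)) = 0 := by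
    by_cases h4 : 4 ≤ M s t
    · refine ⟨sr M t, u, cc M t u, 1, by rw [GT_refl A'.a0, one_smul, add_comm], ?_, le_rfl, ?_⟩
      · have e1 := c1.2.1 h4
        have e2 := c2.2.1 hn
        refine (abs_le_of_sq_le_sq' (a := 2) ?_ (mul_nonneg (by linarith [c2.1])
          (by linarith [c1.1]))).2
        rw [mul_pow]
        nlinarith
      · rw [GT_rho G A, map_sub, map_smul, hq.2.1, hq.2.2, smul_zero, sub_zero]
    · have h6 : 6 ≤ M t u := by
        have h5 := G.nsM s t u hst htu hne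
        have h3 : M s t = 3 := by omega
        rw [h3, hsu] at h5
        by_contra h7
        have h8 : M t u = 4 ∨ M t u = 5 := by omega
        rcases h8 with h8 | h8 <;> rw [h8] at h5 <;> norm_num at h5
      have e2 := c2.2.2 h6
      refine ⟨sr M t * sr M u, t, cc M t u ^ 2 - 1, cc M t u, ?_, by nlinarith [c1.1], c2.1, ?_⟩
      · rw [rho_mul, GT_refl A'.a0 u, map_add, map_smul, GT_self A'.a0, GT_refl A'.a0,
          cc_symm M u t]
        module
      · rw [map_mul, rho_mul]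
        simp only [GT_rho G A, map_sub, map_smul, hq.2.1, hq.2.2, smul_zero, sub_zero]
  have ha0 : 0 < a := by
    by_contra h
    nlinarith [mul_nonneg (neg_nonneg.mpr (not_lt.mp h)) (by linarith [c1.1] : 0 ≤ cc M s t)]
  have hρ : rho M (sr M s * w) (al x) = (a * cc M s t) • al s + a • al t + b • al u := by
    rw [rho_mul, hw, map_add, map_smul, map_smul, GT_refl A'.a0, GT_refl A'.a0, GT_cc2 hsu]
    module
  have hfix : rho N (j (sr M s)) (β u) = β u := by
    rw [GT_rho G A, g.two s u hsu, mul_zero, zero_smul, sub_zero]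
  have hpl : p (rho N (j (sr M s)) (β t)) = p (β t) := by
    rw [GT_rho G A, map_sub, map_smul, hp.2.1, smul_zero, sub_zero]
  refine GT_main G A A' g ⟨hst, by omega⟩ ⟨htu, by omega⟩ ⟨hne, by omega⟩
    (A.a0.root_rho _ _ (GT_root G A t)) (sr M s * w) x (A.a1.act_mem (j (sr M s)) q hq.1)
    (by rw [act_rho, hq.2.1]) (by rw [map_mul, rho_mul, act_rho, hq0])
    (by rw [← hfix, act_rho, hq.2.2]) ?_ ?_ hp ?_ ?_
  · rw [hρ]
    simp [al, hst.symm, htu, ha0.ne']
  · intro v h1 h2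
    rw [hρ]
    by_cases hv : v = s
    · rw [hv, Bf_add_right, Bf_add_right, Bf_smul_right, Bf_smul_right, Bf_smul_right, GT_Bal,
        GT_Bal, GT_Bal, cc_self, GT_cc2 hsu]
      refine le_trans ?_ (le_abs_self _)
      linarith
    · exact GT_far h0 G.nsM hsu hv h1 h2 ha ha0.le hb
  · rw [hpl]
    exact g.nz s u t p ⟨hne, by omega⟩ hst.symm htu hp
  · intro y hy
    have h4 := GT_four G A g hst htu hsu (by omega) ⟨hy.1, hy.2.2, hy.2.1⟩ hp
    rw [hpl, GT_rho G A, map_sub, map_smul, hy.2.2, smul_eq_mul]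
    linarith

theorem GT_two (h0 : St_CH) (G : Geo M N j β) (A : CA N) (A' : CA M) (g : G0 M N j β) {s t u : T}
    (hm : 3 ≤ M s t) (hst : s ≠ t) (htu : t ≠ u) (hsu : M s u = 2) (hn : M t u = 3) :
    NM M N β u (rho N (j (sr M s * sr M t)) (β s)) := by
  have hne : s ≠ u := by
    rintro rfl
    rw [M.diagonal] at hsu
    omega
  obtain ⟨q, hq⟩ := g.vert s t ⟨hst, by omega⟩
  obtain ⟨p, hp⟩ := g.vert s u ⟨hne, by omega⟩
  have h6 : 6 ≤ M s t := by
    have h5 := G.nsM s t u hst htu hne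
    rw [hn, hsu] at h5
    by_contra h7
    have h8 : M s t = 3 ∨ M s t = 4 ∨ M s t = 5 := by omega
    rcases h8 with h8 | h8 | h8 <;> rw [h8] at h5 <;> norm_num at h5
  have c1 := (GT_ccge (M := M) h0 hm).1
  have c2 := (GT_ccge (M := M) h0 hm).2.2 h6
  have h3 := GT_three G A A' g hst htu hsu hn
  have hl : rho N (j (sr M s * sr M t)) (β s) =
      (4 * Bf N (β s) (β t) ^ 2 - 1) • β s - (2 * Bf N (β s) (β t)) • β t := by
    rw [map_mul, rho_mul, GT_rho G A t, map_sub, map_smul, GT_rho G A, GT_rho G A,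
      A.a0.root_norm _ (GT_root G A s), Bf_symm N (β t)]
    module
  have e1 : rho M (sr M s * sr M t) (al s) = (cc M s t ^ 2 - 1) • al s + cc M s t • al t := by
    rw [rho_mul, GT_refl A'.a0 t, map_add, map_smul, GT_self A'.a0, GT_refl A'.a0, cc_symm M t s]
    module
  have e2 : rho M (sr M s * sr M t * sr M u) (al s) = rho M (sr M s * sr M t) (al s) := by
    rw [rho_mul, GT_refl A'.a0 u, cc_symm, GT_cc2 hsu, zero_smul, add_zero]
  have e3 : rho M (sr M s * sr M t * sr M u) (al t) = al u := by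
    rw [rho_mul, rho_mul, GT_refl A'.a0 u, cc_symm, GT_cc3 hn, one_smul, map_add, GT_self A'.a0,
      GT_refl A'.a0 t, GT_cc3 hn, one_smul, neg_add_cancel_comm_assoc, GT_refl A'.a0, GT_cc2 hsu,
      zero_smul, add_zero]
  have hρ : rho M (sr M s * sr M t * sr M u * (sr M s * sr M t)) (al s) =
      ((cc M s t ^ 2 - 1) ^ 2) • al s + ((cc M s t ^ 2 - 1) * cc M s t) • al t +
        cc M s t • al u := by
    rw [rho_mul, e1, map_add, map_smul, map_smul, e2, e3, e1]
    module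
  have hfix : rho N (j (sr M u)) (β s) = β s := by
    rw [GT_rho G A, Bf_symm, g.two s u hsu, mul_zero, zero_smul, sub_zero]
  have hpt := g.nz s u t p ⟨hne, by omega⟩ hst.symm htu hp
  have hpl : p (rho N (j (sr M s * sr M t)) (β s)) = -(2 * Bf N (β s) (β t) * p (β t)) := by
    rw [hl, map_sub, map_smul, map_smul, hp.2.1, smul_zero, zero_sub, smul_eq_mul]
  have ha : 2 ≤ cc M s t ^ 2 - 1 := by linarith
  refine GT_main G A A' g ⟨hst, by omega⟩ ⟨htu, by omega⟩ ⟨hne, by omega⟩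
    (A.a0.root_rho _ _ (GT_root G A s)) (sr M s * sr M t * sr M u * (sr M s * sr M t)) s
    (A.a1.act_mem (j (sr M s * sr M t * sr M u)) q hq.1) ?_ ?_ ?_ ?_ ?_ hp ?_ ?_
  · rw [← hfix, ← rho_mul, ← map_mul, act_rho, hq.2.1]
  · rw [map_mul j (sr M s * sr M t * sr M u), rho_mul, act_rho, hl, map_sub, map_smul, map_smul,
      hq.2.1, hq.2.2, smul_zero, smul_zero, sub_zero]
  · have h4 := (g.same (sr M s * sr M t * sr M u) 1 t u).mpr (Or.inl (by rw [rho_one, e3]))
    rw [map_one, rho_one] at h4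
    rcases h4 with h4 | h4
    · rw [h4, act_rho, hq.2.2]
    · rw [h4, map_neg, act_rho, hq.2.2, neg_zero]
  · rw [hρ]
    have : 0 < (cc M s t ^ 2 - 1) * cc M s t := mul_pos (by linarith) (by linarith)
    simpa [al, hst.symm, htu] using this.ne'
  · intro v h1 h2
    rw [hρ]
    by_cases hv : v = s
    · rw [hv, Bf_add_right, Bf_add_right, Bf_smul_right, Bf_smul_right, Bf_smul_right, GT_Bal,
        GT_Bal, GT_Bal, cc_self, GT_cc2 hsu]
      refine le_trans ?_ (le_abs_self _)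
      nlinarith
    · exact GT_far h0 G.nsM hsu hv h1 h2 (by nlinarith)
        (mul_nonneg (by linarith) (by linarith)) c1
  · rw [hpl]
    refine neg_ne_zero.mpr (mul_ne_zero (fun h => ?_) hpt)
    nlinarith
  · intro y hy
    have h4 := GT_four G A g hst htu hsu (by omega) ⟨hy.1, hy.2.2, hy.2.1⟩ hp
    rw [hpl, hl, map_sub, map_smul, map_smul, hy.2.2, smul_zero, sub_zero, smul_eq_mul]
    nlinarith [mul_pos (by linarith : 0 < 4 * Bf N (β s) (β t) ^ 2 - 1) (neg_pos.mpr h4)]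

theorem GT_thm (h0 : St_CH) (hA : St_CA) (h1 : St_G0) : St_GT := by
  intro T B _ _ _ _ M N j β G s t u hm hsu
  have A := hA B N G.nsN
  have A' := hA T M G.nsM
  have g := h1 T B M N j β G
  have hst : s ≠ t := by
    rintro rfl
    rw [M.diagonal] at hm
    omega
  have htu : t ≠ u := by
    rintro rfl
    omega
  exact ⟨GT_one h0 G A A' g hm hst htu hsu, GT_two h0 G A A' g hm hst htu hsu,
    GT_three G A A' g hst htu hsu, fun h y y' hy hy' => GT_four G A g hst htu hsu h hy hy'⟩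

end Pool.Agent.Lib.MP_1b8ce0_al.T
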