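import Mathlib
import Pool.Agent.Lib.MP_1b8ce0_al.T.StsC

set_option linter.unusedSectionVars false
set_option linter.unusedVariables false
set_option linter.dupNamespace false

namespace Pool.Agent.Lib.MP_1b8ce0_al.T

open Pool.Agent.Lib.MP_6d85b4_al

theorem H1_alt_odd {G : Type} [Monoid G] (s t : G) (k : ℕ) :
    alt s t (2 * k + 1) = (s * t) ^ k * s := by
  have h := alt_two_mul s t k
  have h2 : (2 * k) % 2 = 0 := by omega
  unfold alt at h ⊢
  rw [List.range_succ, List.map_append, List.prod_append, h]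
  simp only [List.map_cons, List.map_nil, List.prod_cons, List.prod_nil, h2, if_true, mul_one]

theorem H1_shift {G : Type} [Monoid G] (s t : G) (k : ℕ) :
    (s * t) ^ k * s = s * (t * s) ^ k := by
  induction k with
  | zero => simp
  | succ k ih => rw [pow_succ, pow_succ, ← mul_assoc s, ← ih]; simp only [mul_assoc]

/-- the Garside element of an odd edge exchanges the two generators -/
theorem H1_delta {G : Type} [Group G] (s t : G) (m : ℕ) (hm : Odd m) (h : alt s t m = alt t s m) :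
    alt s t m * t * (alt s t m)⁻¹ = s := by
  obtain ⟨k, rfl⟩ := hm
  rw [mul_inv_eq_iff_eq_mul]
  nth_rewrite 2 [h]
  rw [H1_alt_odd, H1_alt_odd, ← mul_assoc, ← H1_shift]

theorem H1_conj {G : Type} [Group G] (d a b : G) (m : ℕ) (h : alt a b m = alt b a m) :
    alt (d * a * d⁻¹) (d * b * d⁻¹) m = alt (d * b * d⁻¹) (d * a * d⁻¹) m := by
  have h1 := map_alt (MulAut.conj d).toMonoidHom a b m
  have h2 := map_alt (MulAut.conj d).toMonoidHom b a m
  simp only [MulEquiv.toMonoidHom_eq_coe, MonoidHom.coe_coe, MulAut.conj_apply] at h1 h2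
  rw [← h1, ← h2, h]

variable {S S' : Type}

theorem H1_symm {M N : CoxeterMatrix S} {p q : S} {X : Set S} (h : TwistAt M N p q X) :
    TwistAt N M p q X := by
  obtain ⟨h1, h2, h3, h4, h5, h6, h7⟩ := h
  have e : N p q = M p q := h7 p q (fun c => h3 c.1) (fun c => h4 c.1)
  refine ⟨h1, by rw [e]; exact h2, h3, h4, ?_, ?_, ?_⟩
  · intro x hx y hy hp hq
    rw [h7 x y (fun c => c.2.elim hp hq) (fun c => hy c.1)]
    exact h5 x hx y hy hp hq
  · intro x hx
    exact ⟨(h6 x hx).2.symm, (h6 x hx).1.symm⟩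
  · intro a b ha hb
    exact (h7 a b ha hb).symm

theorem H1_hom {M N : CoxeterMatrix S} {p q : S} {X : Set S} (h : TwistAt M N p q X)
    (d : ArtinGroup N) (hp : d * gen N p * d⁻¹ = gen N q) (hq : d * gen N q * d⁻¹ = gen N p) :
    ∃ φ : ArtinGroup M →* ArtinGroup N, (∀ s ∈ X, φ (gen M s) = d * gen N s * d⁻¹) ∧
      ∀ s, s ∉ X → φ (gen M s) = gen N s := by
  classical
  obtain ⟨h1, h2, h3, h4, h5, h6, h7⟩ := h
  have key : ∀ s t, s ∈ X → t ∉ X → M s t ≠ 0 →
      alt (d * gen N s * d⁻¹) (gen N t) (M s t) = alt (gen N t) (d * gen N s * d⁻¹) (M s t) := by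
    intro s t hs ht h0
    by_cases e1 : t = p
    · subst e1
      have hne : s ≠ q := fun e => h4 (e ▸ hs)
      rw [← (h6 s hs).2] at h0 ⊢
      rw [← hq]
      exact H1_conj d _ _ _ (gen_alt N hne h0)
    · by_cases e2 : t = q
      · subst e2
        have hne : s ≠ p := fun e => h3 (e ▸ hs)
        rw [← (h6 s hs).1] at h0 ⊢
        rw [← hp]
        exact H1_conj d _ _ _ (gen_alt N hne h0)
      · exact absurd (h5 s hs t ht e1 e2) h0
  obtain ⟨φ, hφ⟩ := exists_lift_alt M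
    (fun s => if s ∈ X then d * gen N s * d⁻¹ else gen N s) (by
      intro s t hst h0
      by_cases hs : s ∈ X <;> by_cases ht : t ∈ X
      · simp only [hs, ht, if_true]
        have e : N s t = M s t := h7 s t
          (fun c => c.2.elim (fun e => h3 (e ▸ ht)) (fun e => h4 (e ▸ ht)))
          (fun c => c.2.elim (fun e => h3 (e ▸ hs)) (fun e => h4 (e ▸ hs)))
        rw [← e] at h0 ⊢
        exact H1_conj d _ _ _ (gen_alt N hst h0)
      · simp only [hs, ht, if_true, if_false]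
        exact key s t hs ht h0
      · simp only [hs, ht, if_true, if_false]
        rw [M.symmetric s t] at h0 ⊢
        exact (key t s ht hs h0).symm
      · simp only [hs, ht, if_false]
        have e : N s t = M s t := h7 s t (fun c => hs c.1) (fun c => ht c.1)
        rw [← e] at h0 ⊢
        exact gen_alt N hst h0)
  refine ⟨φ, fun s hs => ?_, fun s hs => ?_⟩
  · rw [hφ, if_pos hs]
  · rw [hφ, if_neg hs]

theorem H1_del (M : CoxeterMatrix S) {p q : S} (h1 : p ≠ q) (h2 : Odd (M p q)) :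
    alt (gen M p) (gen M q) (M p q) * gen M p * (alt (gen M p) (gen M q) (M p q))⁻¹ = gen M q ∧
    alt (gen M p) (gen M q) (M p q) * gen M q * (alt (gen M p) (gen M q) (M p q))⁻¹ = gen M p := by
  have h0 : M p q ≠ 0 := fun e => by
    rw [e] at h2
    exact absurd h2 (by decide)
  have hb := gen_alt M h1 h0
  refine ⟨?_, H1_delta _ _ _ h2 hb⟩
  rw [hb]
  exact H1_delta _ _ _ h2 hb.symm

theorem H1_inv {G : Type} [Group G] {d a b : G} (h : d * a * d⁻¹ = b) :
    d⁻¹ * b * d⁻¹⁻¹ = a := by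
  rw [← h]
  group

theorem H1_step {M N : CoxeterMatrix S} (h : Twist M N) :
    Nonempty (ArtinGroup M ≃* ArtinGroup N) := by
  obtain ⟨p, q, X, h⟩ := h
  have h' := H1_symm h
  have e : N p q = M p q := h.2.2.2.2.2.2 p q (fun c => h.2.2.1 c.1) (fun c => h.2.2.2.1 c.1)
  obtain ⟨a1, a2⟩ := H1_del N h'.1 h'.2.1
  obtain ⟨b1, b2⟩ := H1_del M h.1 h.2.1
  obtain ⟨φ, hφ1, hφ2⟩ := H1_hom h _ a1 a2
  obtain ⟨ψ, hψ1, hψ2⟩ := H1_hom h' (alt (gen M p) (gen M q) (M p q))⁻¹
    (H1_inv b2) (H1_inv b1)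
  have c1 : ψ (alt (gen N p) (gen N q) (N p q)) = alt (gen M p) (gen M q) (M p q) := by
    rw [map_alt, hψ2 p h.2.2.1, hψ2 q h.2.2.2.1, e]
  have c2 : φ (alt (gen M p) (gen M q) (M p q)) = alt (gen N p) (gen N q) (N p q) := by
    rw [map_alt, hφ2 p h.2.2.1, hφ2 q h.2.2.2.1, e]
  refine ⟨MonoidHom.toMulEquiv φ ψ ?_ ?_⟩
  · apply hom_ext
    intro s
    rw [MonoidHom.comp_apply, MonoidHom.id_apply]
    by_cases hs : s ∈ X
    · rw [hφ1 s hs, map_mul, map_mul, map_inv, c1, hψ1 s hs]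
      group
    · rw [hφ2 s hs, hψ2 s hs]
  · apply hom_ext
    intro s
    rw [MonoidHom.comp_apply, MonoidHom.id_apply]
    by_cases hs : s ∈ X
    · rw [hψ1 s hs, inv_inv, map_mul, map_mul, map_inv, c2, hφ1 s hs]
      group
    · rw [hψ2 s hs, hφ2 s hs]

theorem H1_ren_hom {M : CoxeterMatrix S} {M' : CoxeterMatrix S'} (σ : S ≃ S')
    (h : ∀ s t, M' (σ s) (σ t) = M s t) :
    ∃ φ : ArtinGroup M →* ArtinGroup M', ∀ s, φ (gen M s) = gen M' (σ s) := by
  apply exists_lift_alt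
  intro s t hst h0
  rw [← h] at h0 ⊢
  exact gen_alt M' (σ.injective.ne hst) h0

theorem H1_ren {M : CoxeterMatrix S} {M' : CoxeterMatrix S'} (σ : S ≃ S')
    (h : ∀ s t, M' (σ s) (σ t) = M s t) : Nonempty (ArtinGroup M ≃* ArtinGroup M') := by
  obtain ⟨φ, hφ⟩ := H1_ren_hom σ h
  obtain ⟨ψ, hψ⟩ := H1_ren_hom (M := M') (M' := M) σ.symm (fun s t => by
    rw [← h]; simp)
  refine ⟨MonoidHom.toMulEquiv φ ψ ?_ ?_⟩
  · apply hom_ext; intro s; simp [hφ, hψ]
  · apply hom_ext; intro s; simp [hφ, hψ]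

theorem H1_thm : St_H1 := by
  intro S S' M M' h
  obtain ⟨N, hN, e, he⟩ := h
  have h1 : Nonempty (ArtinGroup M ≃* ArtinGroup N) := by
    clear he
    induction hN with
    | refl => exact ⟨MulEquiv.refl _⟩
    | tail _ hs ih =>
      obtain ⟨a⟩ := ih
      obtain ⟨b⟩ := H1_step hs
      exact ⟨a.trans b⟩
  obtain ⟨a⟩ := h1
  obtain ⟨b⟩ := H1_ren e he
  exact ⟨a.trans b⟩

end Pool.Agent.Lib.MP_1b8ce0_al.T
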