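import Pool.Agent.Lib.MP_1b8ce0_al.Defs

set_option linter.dupNamespace false

namespace Pool.Agent.Lib.MP_1b8ce0_al.T

open Finset

/-- table lookup -/
def look (L : List (List ℕ)) (i j : ℕ) : ℕ := (L.getD i []).getD j 0

/-- digit -/
def dig (n c i : ℕ) : ℕ := c / n ^ i % n

/-- the finite check -/
def Chk (p : List (List ℕ) × List (List ℕ)) : Prop :=
  p.1.length = p.2.length ∧ ∃ c ∈ List.range (p.1.length ^ p.1.length),
    ∀ i ∈ List.range p.1.length, ∀ j ∈ List.range p.1.length,
      (¬ dig p.1.length c i = dig p.1.length c j ∨ i = j) ∧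
        look p.2 (dig p.1.length c i) (dig p.1.length c j) = look p.1 i j

theorem look_prim {α : Type} [Primcodable α] {f : α → List (List ℕ)} {g h : α → ℕ}
    (hf : Primrec f) (hg : Primrec g) (hh : Primrec h) : Primrec fun a => look (f a) (g a) (h a) :=
  (Primrec.list_getD 0).comp ((Primrec.list_getD []).comp hf hg) hh

theorem pow_prim : Primrec₂ ((· ^ ·) : ℕ → ℕ → ℕ) := Primrec₂.unpaired'.1 Nat.Primrec.pow

theorem dig_prim {α : Type} [Primcodable α] {f g h : α → ℕ}
    (hf : Primrec f) (hg : Primrec g) (hh : Primrec h) : Primrec fun a => dig (f a) (g a) (h a) :=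
  Primrec.nat_mod.comp (Primrec.nat_div.comp hg (pow_prim.comp hf hh)) hf

theorem ball_prim {α : Type} [Primcodable α] {f : α → ℕ} {R : ℕ → α → Prop} (hf : Primrec f)
    (hR : PrimrecRel R) : PrimrecPred fun a => ∀ i ∈ List.range (f a), R i a :=
  hR.forall_mem_list.comp (Primrec.list_range.comp hf) Primrec.id

theorem bex_prim {α : Type} [Primcodable α] {f : α → ℕ} {R : ℕ → α → Prop} (hf : Primrec f)
    (hR : PrimrecRel R) : PrimrecPred fun a => ∃ i ∈ List.range (f a), R i a :=
  hR.exists_mem_list.comp (Primrec.list_range.comp hf) Primrec.id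

theorem chk_aux {α : Type} [Primcodable α] {P Q : α → List (List ℕ)} {k : α → ℕ}
    (hP : Primrec P) (hQ : Primrec Q) (hk : Primrec k) :
    PrimrecPred fun a => ∃ c ∈ List.range (k a ^ k a),
      ∀ i ∈ List.range (k a), ∀ j ∈ List.range (k a),
        (¬ dig (k a) c i = dig (k a) c j ∨ i = j) ∧
          look (Q a) (dig (k a) c i) (dig (k a) c j) = look (P a) i j := by
  apply bex_prim (pow_prim.comp hk hk)
  apply ball_prim (α := ℕ × α) (hk.comp Primrec.snd)
  apply ball_prim (α := ℕ × ℕ × α) (hk.comp (Primrec.snd.comp Primrec.snd))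
  have ha : Primrec fun q : ℕ × ℕ × ℕ × α => q.2.2.2 :=
    Primrec.snd.comp (Primrec.snd.comp Primrec.snd)
  have hc : Primrec fun q : ℕ × ℕ × ℕ × α => q.2.2.1 :=
    Primrec.fst.comp (Primrec.snd.comp Primrec.snd)
  have hi : Primrec fun q : ℕ × ℕ × ℕ × α => q.2.1 := Primrec.fst.comp Primrec.snd
  have hj : Primrec fun q : ℕ × ℕ × ℕ × α => q.1 := Primrec.fst
  have d1 := dig_prim (hk.comp ha) hc hi
  have d2 := dig_prim (hk.comp ha) hc hj
  exact ((Primrec.eq.comp d1 d2).not.or (Primrec.eq.comp hi hj)).and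
    (Primrec.eq.comp (look_prim (hQ.comp ha) d1 d2) (look_prim (hP.comp ha) hi hj))

theorem chk_prim : PrimrecPred Chk :=
  (Primrec.eq.comp (Primrec.list_length.comp Primrec.fst)
    (Primrec.list_length.comp Primrec.snd)).and
    (chk_aux Primrec.fst Primrec.snd (Primrec.list_length.comp Primrec.fst))

theorem look_table {k : ℕ} (M : CoxeterMatrix (Fin k)) (i j : Fin k) :
    look (table M) i j = M i j := by
  simp [look, table, List.getD_eq_getElem?_getD]

theorem chk_iff {k k' : ℕ} (M : CoxeterMatrix (Fin k)) (M' : CoxeterMatrix (Fin k')) :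
    Chk (table M, table M') ↔ ∃ σ : Fin k ≃ Fin k', ∀ s t, M' (σ s) (σ t) = M s t := by
  have l1 : (table M).length = k := by simp [table]
  have l2 : (table M').length = k' := by simp [table]
  simp only [Chk, l1, l2, List.mem_range]
  constructor
  · rintro ⟨rfl, c, _, h⟩
    let f : Fin k → Fin k := fun i => ⟨dig k c i, Nat.mod_lt _ i.pos⟩
    have hf : Function.Injective f := by
      intro i j hij
      have := (h i i.2 j j.2).1
      exact Fin.ext (this.resolve_left (not_not.2 (congrArg Fin.val hij)))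
    refine ⟨Equiv.ofBijective f (Finite.injective_iff_bijective.1 hf), fun s t => ?_⟩
    rw [← look_table, ← look_table]
    exact (h s s.2 t t.2).2
  · rintro ⟨σ, h⟩
    have hk : k = k' := by simpa using Fintype.card_congr σ
    subst hk
    refine ⟨rfl, finFunctionFinEquiv σ, (finFunctionFinEquiv σ).2, ?_⟩
    have hd : ∀ i : Fin k, dig k (finFunctionFinEquiv (σ : Fin k → Fin k)) i = σ i := by
      intro i
      have := congrArg (fun g => (g i : ℕ)) (finFunctionFinEquiv.symm_apply_apply (σ : Fin k → Fin k))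
      rw [← this, finFunctionFinEquiv_symm_apply_val]
      rfl
    intro i hi j hj
    have e1 := hd ⟨i, hi⟩
    have e2 := hd ⟨j, hj⟩
    simp only at e1 e2
    rw [e1, e2]
    refine ⟨?_, ?_⟩
    · by_cases hij : i = j
      · exact Or.inr hij
      · left
        intro hh
        exact hij (congrArg Fin.val (σ.injective (Fin.ext hh)))
    · rw [look_table, h]
      exact (look_table M ⟨i, hi⟩ ⟨j, hj⟩).symm

end Pool.Agent.Lib.MP_1b8ce0_al.T
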