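import Mathlib
import Pool.Agent.Lib.MP_1b8ce0_al.T.StsC
import Pool.Agent.Lib.MP_1b8ce0_al.T.Prim

set_option linter.unusedSectionVars false
set_option linter.dupNamespace false

namespace Pool.Agent.Lib.MP_1b8ce0_al.T

open Pool.Agent.Lib.MP_6d85b4_al

/-- the twist along `p, q` of the part with code `X`, read on tables; the second table is a
Coxeter matrix -/
def H2_Tw (n : ℕ) (L L' : List (List ℕ)) (p q X : ℕ) : Prop :=
  ¬ p = q ∧ look L p q % 2 = 1 ∧ ¬ dig 2 X p = 1 ∧ ¬ dig 2 X q = 1 ∧ ∀ x < n, ∀ y < n,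
    (dig 2 X x = 1 → ¬ dig 2 X y = 1 → ¬ y = p → ¬ y = q → look L x y = 0) ∧
    (dig 2 X x = 1 → look L' x p = look L x q ∧ look L' x q = look L x p) ∧
    (¬ (dig 2 X x = 1 ∧ (y = p ∨ y = q)) → ¬ (dig 2 X y = 1 ∧ (x = p ∨ x = q)) →
      look L' x y = look L x y) ∧
    look L' x y = look L' y x ∧ (x = y → look L' x y = 1) ∧ (look L' x y = 1 → x = y)

def H2_Step (n : ℕ) (L L' : List (List ℕ)) : Prop :=
  ∃ p < n, ∃ q < n, ∃ X < 2 ^ n, H2_Tw n L L' p q X

/-- the table with code `c` -/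
def H2_tab (n B c : ℕ) : List (List ℕ) :=
  (List.range n).map fun i => (List.range n).map fun j => dig B c (i * n + j)

/-- a bound for the entries -/
def H2_bd (L : List (List ℕ)) : ℕ := L.flatten.foldr (fun b s => b + s) 0 + 1

/-- every set of codes which contains the first table and is closed under twists contains a
relabelling of the second table -/
def H2_Dec (n B : ℕ) (L L' : List (List ℕ)) : Prop :=
  ∀ Z < 2 ^ B ^ (n * n), (∀ c < B ^ (n * n), H2_tab n B c = L → dig 2 Z c = 1) →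
    (∀ c < B ^ (n * n), ∀ c' < B ^ (n * n), dig 2 Z c = 1 →
      H2_Step n (H2_tab n B c) (H2_tab n B c') → dig 2 Z c' = 1) →
    ∃ c < B ^ (n * n), dig 2 Z c = 1 ∧ Chk (H2_tab n B c, L')

section Prim

variable {α : Type} [Primcodable α]

theorem H2_ball {f : α → ℕ} {R : ℕ → α → Prop} (hf : Primrec f) (hR : PrimrecRel R) :
    PrimrecPred fun a => ∀ i < f a, R i a :=
  (ball_prim hf hR).of_eq fun _ => by simp only [List.mem_range]

theorem H2_bex {f : α → ℕ} {R : ℕ → α → Prop} (hf : Primrec f) (hR : PrimrecRel R) :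
    PrimrecPred fun a => ∃ i < f a, R i a :=
  (bex_prim hf hR).of_eq fun _ => by simp only [List.mem_range]

theorem H2_imp {p q : α → Prop} (hp : PrimrecPred p) (hq : PrimrecPred q) :
    PrimrecPred fun a => p a → q a := (hp.not.or hq).of_eq fun _ => imp_iff_not_or.symm

theorem H2_eq {f g : α → ℕ} (hf : Primrec f) (hg : Primrec g) : PrimrecPred fun a => f a = g a :=
  Primrec.eq.comp hf hg

theorem H2_bit {f g : α → ℕ} (hf : Primrec f) (hg : Primrec g) :
    PrimrecPred fun a => dig 2 (f a) (g a) = 1 :=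
  H2_eq (dig_prim (Primrec.const 2) hf hg) (Primrec.const 1)

theorem H2_tw_prim {k p q X : α → ℕ} {P Q : α → List (List ℕ)} (hk : Primrec k) (hP : Primrec P)
    (hQ : Primrec Q) (hp : Primrec p) (hq : Primrec q) (hX : Primrec X) :
    PrimrecPred fun a => H2_Tw (k a) (P a) (Q a) (p a) (q a) (X a) := by
  refine (H2_eq hp hq).not.and ((H2_eq (Primrec.nat_mod.comp (look_prim hP hp hq)
    (Primrec.const 2)) (Primrec.const 1)).and ((H2_bit hX hp).not.and ((H2_bit hX hq).not.and ?_)))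
  apply H2_ball hk
  apply H2_ball (α := ℕ × α) (hk.comp Primrec.snd)
  have ha : Primrec fun z : ℕ × ℕ × α => z.2.2 := Primrec.snd.comp Primrec.snd
  have hx : Primrec fun z : ℕ × ℕ × α => z.2.1 := Primrec.fst.comp Primrec.snd
  have hy : Primrec fun z : ℕ × ℕ × α => z.1 := Primrec.fst
  have bx := H2_bit (hX.comp ha) hx
  have bY := H2_bit (hX.comp ha) hy
  have yp := H2_eq hy (hp.comp ha)
  have yq := H2_eq hy (hq.comp ha)
  have xp := H2_eq hx (hp.comp ha)
  have xq := H2_eq hx (hq.comp ha)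
  have l1 := look_prim (hP.comp ha) hx hy
  have l2 := look_prim (hQ.comp ha) hx hy
  exact (H2_imp bx (H2_imp bY.not (H2_imp yp.not (H2_imp yq.not
      (H2_eq l1 (Primrec.const 0)))))).and
    ((H2_imp bx ((H2_eq (look_prim (hQ.comp ha) hx (hp.comp ha))
      (look_prim (hP.comp ha) hx (hq.comp ha))).and (H2_eq (look_prim (hQ.comp ha) hx (hq.comp ha))
      (look_prim (hP.comp ha) hx (hp.comp ha))))).and
    ((H2_imp (bx.and (yp.or yq)).not (H2_imp (bY.and (xp.or xq)).not (H2_eq l2 l1))).and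
    ((H2_eq l2 (look_prim (hQ.comp ha) hy hx)).and
    ((H2_imp (H2_eq hx hy) (H2_eq l2 (Primrec.const 1))).and
      (H2_imp (H2_eq l2 (Primrec.const 1)) (H2_eq hx hy))))))

theorem H2_step_prim {k : α → ℕ} {P Q : α → List (List ℕ)} (hk : Primrec k) (hP : Primrec P)
    (hQ : Primrec Q) : PrimrecPred fun a => H2_Step (k a) (P a) (Q a) := by
  apply H2_bex hk
  apply H2_bex (α := ℕ × α) (hk.comp Primrec.snd)
  apply H2_bex (α := ℕ × ℕ × α)
    (pow_prim.comp (Primrec.const 2) (hk.comp (Primrec.snd.comp Primrec.snd)))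
  have ha : Primrec fun z : ℕ × ℕ × ℕ × α => z.2.2.2 :=
    Primrec.snd.comp (Primrec.snd.comp Primrec.snd)
  exact H2_tw_prim (hk.comp ha) (hP.comp ha) (hQ.comp ha)
    (Primrec.fst.comp (Primrec.snd.comp Primrec.snd)) (Primrec.fst.comp Primrec.snd) Primrec.fst

theorem H2_tab_prim {k b c : α → ℕ} (hk : Primrec k) (hb : Primrec b) (hc : Primrec c) :
    Primrec fun a => H2_tab (k a) (b a) (c a) := by
  refine Primrec.list_map (Primrec.list_range.comp hk) ?_
  refine Primrec.list_map (α := α × ℕ) (Primrec.list_range.comp (hk.comp Primrec.fst)) ?_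
  have ha : Primrec fun z : (α × ℕ) × ℕ => z.1.1 := Primrec.fst.comp Primrec.fst
  exact dig_prim (hb.comp ha) (hc.comp ha) (Primrec.nat_add.comp
    (Primrec.nat_mul.comp (Primrec.snd.comp Primrec.fst) (hk.comp ha)) Primrec.snd)

theorem H2_bd_prim : Primrec H2_bd :=
  Primrec.succ.comp (Primrec.list_foldr (h := fun _ z => z.1 + z.2) Primrec.list_flatten
    (Primrec.const 0) (Primrec.nat_add.comp (Primrec.fst.comp Primrec.snd)
      (Primrec.snd.comp Primrec.snd)))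

theorem H2_dec_prim {k b : α → ℕ} {P Q : α → List (List ℕ)} (hk : Primrec k) (hb : Primrec b)
    (hP : Primrec P) (hQ : Primrec Q) : PrimrecPred fun a => H2_Dec (k a) (b a) (P a) (Q a) := by
  have hK : Primrec fun a => b a ^ (k a * k a) := pow_prim.comp hb (Primrec.nat_mul.comp hk hk)
  apply H2_ball (pow_prim.comp (Primrec.const 2) hK)
  have ha : Primrec fun z : ℕ × ℕ × α => z.2.2 := Primrec.snd.comp Primrec.snd
  have hZ : Primrec fun z : ℕ × ℕ × α => z.2.1 := Primrec.fst.comp Primrec.snd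
  have ht := H2_tab_prim (hk.comp ha) (hb.comp ha) Primrec.fst
  refine H2_imp (α := ℕ × α) ?_ (H2_imp ?_ ?_)
  · apply H2_ball (α := ℕ × α) (hK.comp Primrec.snd)
    exact H2_imp (Primrec.eq.comp ht (hP.comp ha)) (H2_bit hZ Primrec.fst)
  · apply H2_ball (α := ℕ × α) (hK.comp Primrec.snd)
    apply H2_ball (α := ℕ × ℕ × α) (hK.comp ha)
    have hs : Primrec fun z : ℕ × ℕ × ℕ × α => z.2 := Primrec.snd
    exact H2_imp (H2_bit (hZ.comp hs) (Primrec.fst.comp hs)) (H2_imp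
      (H2_step_prim (hk.comp (ha.comp hs)) (ht.comp hs)
        (H2_tab_prim (hk.comp (ha.comp hs)) (hb.comp (ha.comp hs)) Primrec.fst))
      (H2_bit (hZ.comp hs) Primrec.fst))
  · apply H2_bex (α := ℕ × α) (hK.comp Primrec.snd)
    exact (H2_bit hZ Primrec.fst).and (chk_prim.comp (ht.pair (hQ.comp ha)))

end Prim

theorem H2_dig (b k : ℕ) (f : ℕ → ℕ) (hf : ∀ i < k, f i < b) :
    ∃ c < b ^ k, ∀ i < k, dig b c i = f i := by
  let g : Fin k → Fin b := fun i => ⟨f i, hf i i.2⟩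
  refine ⟨finFunctionFinEquiv g, (finFunctionFinEquiv g).2, fun i hi => ?_⟩
  have h := congrArg (fun g => (g ⟨i, hi⟩ : ℕ)) (finFunctionFinEquiv.symm_apply_apply g)
  simp only [finFunctionFinEquiv_symm_apply_val] at h
  exact h

theorem H2_set (k : ℕ) (P : ℕ → Prop) : ∃ Z < 2 ^ k, ∀ i < k, (dig 2 Z i = 1 ↔ P i) := by
  classical
  obtain ⟨Z, h1, h2⟩ := H2_dig 2 k (fun i => if P i then 1 else 0)
    fun i _ => by split_ifs <;> omega
  refine ⟨Z, h1, fun i hi => ?_⟩
  rw [h2 i hi]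
  split_ifs with h <;> simp [h]

theorem H2_look_tab {n i j : ℕ} (B c : ℕ) (hi : i < n) (hj : j < n) :
    look (H2_tab n B c) i j = dig B c (i * n + j) := by
  simp [look, H2_tab, List.getD_eq_getElem?_getD, hi, hj]

theorem H2_tab_eq {n B c : ℕ} {N : CoxeterMatrix (Fin n)}
    (h : ∀ i j : Fin n, dig B c (i * n + j) = N i j) : H2_tab n B c = table N := by
  refine List.ext_getElem (by simp [H2_tab, table]) fun i h1 h2 => ?_
  have hi : i < n := by simpa [H2_tab] using h1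
  refine List.ext_getElem (by simp [H2_tab, table]) fun j h3 h4 => ?_
  have hj : j < n := by simpa [H2_tab] using h3
  simpa [H2_tab, table] using h ⟨i, hi⟩ ⟨j, hj⟩

theorem H2_code {n B : ℕ} (N : CoxeterMatrix (Fin n)) (h : ∀ i j, N i j < B) :
    ∃ c < B ^ (n * n), H2_tab n B c = table N := by
  obtain ⟨c, h1, h2⟩ := H2_dig B (n * n) (fun m => look (table N) (m / n) (m % n)) (by
    intro m hm
    have hn : 0 < n := Nat.pos_of_ne_zero fun e => by simp [e] at hm
    have e := look_table N ⟨m / n, Nat.div_lt_of_lt_mul hm⟩ ⟨m % n, Nat.mod_lt _ hn⟩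
    exact e ▸ h _ _)
  refine ⟨c, h1, H2_tab_eq fun i j => ?_⟩
  have e1 : (i : ℕ) * n + j < n * n := by
    have := i.2
    have := j.2
    nlinarith
  have e2 : ((i : ℕ) * n + j) / n = i := by
    rw [add_comm, Nat.add_mul_div_right _ _ i.pos, Nat.div_eq_of_lt j.2, zero_add]
  have e3 : ((i : ℕ) * n + j) % n = j := by
    rw [add_comm, Nat.add_mul_mod_self_right, Nat.mod_eq_of_lt j.2]
  rw [h2 _ e1, e2, e3, look_table]

theorem H2_lt_bd {n : ℕ} (M : CoxeterMatrix (Fin n)) (i j : Fin n) : M i j < H2_bd (table M) := by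
  have h : M i j ∈ (table M).flatten :=
    List.mem_flatten.2 ⟨_, List.mem_ofFn.2 ⟨i, rfl⟩, List.mem_ofFn.2 ⟨j, rfl⟩⟩
  exact Nat.lt_succ_of_le (List.le_sum_of_mem h)

theorem H2_twist_lt {S : Type} {B : ℕ} {M N : CoxeterMatrix S} (h : Twist M N)
    (hM : ∀ i j, M i j < B) (i j : S) : N i j < B := by
  obtain ⟨p, q, X, -, -, -, -, -, h1, h2⟩ := h
  have key : ∀ a b, a ∈ X ∧ (b = p ∨ b = q) → N a b < B := by
    rintro a b ⟨ha, rfl | rfl⟩
    · rw [(h1 a ha).1]
      exact hM _ _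
    · rw [(h1 a ha).2]
      exact hM _ _
  by_cases e1 : i ∈ X ∧ (j = p ∨ j = q)
  · exact key i j e1
  · by_cases e2 : j ∈ X ∧ (i = p ∨ i = q)
    · rw [N.symmetric]
      exact key j i e2
    · rw [h2 i j e1 e2]
      exact hM i j

theorem H2_step_cox {n B c : ℕ} {L : List (List ℕ)} (h : H2_Step n L (H2_tab n B c)) :
    ∃ N : CoxeterMatrix (Fin n), H2_tab n B c = table N := by
  obtain ⟨p, -, q, -, X, -, -, -, -, -, h⟩ := h
  refine ⟨⟨Matrix.of fun i j => look (H2_tab n B c) i j, ?_, fun i => ?_, fun i j hij e => ?_⟩,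
    H2_tab_eq fun i j => (H2_look_tab B c i.2 j.2).symm⟩
  · ext i j
    exact (h j j.2 i i.2).2.2.2.1
  · exact (h i i.2 i i.2).2.2.2.2.1 rfl
  · exact hij (Fin.ext ((h i i.2 j j.2).2.2.2.2.2 e))

theorem H2_tw_iff {n : ℕ} (M N : CoxeterMatrix (Fin n)) (p q : Fin n) (X : ℕ) :
    H2_Tw n (table M) (table N) p q X ↔ TwistAt M N p q {i | dig 2 X i = 1} := by
  constructor
  · rintro ⟨h1, h2, h3, h4, h⟩
    rw [look_table] at h2
    refine ⟨fun e => h1 (congrArg _ e), Nat.odd_iff.2 h2, h3, h4, fun x hx y hy e1 e2 => ?_,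
      fun x hx => ?_, fun a b e1 e2 => ?_⟩
    · rw [← look_table]
      exact (h x x.2 y y.2).1 hx hy (fun e => e1 (Fin.ext e)) fun e => e2 (Fin.ext e)
    · simpa only [look_table] using (h x x.2 x x.2).2.1 hx
    · rw [← look_table, ← look_table]
      refine (h a a.2 b b.2).2.2.1 ?_ ?_
      · simpa only [Fin.ext_iff, Set.mem_ofPred_eq] using e1
      · simpa only [Fin.ext_iff, Set.mem_ofPred_eq] using e2
  · rintro ⟨h1, h2, h3, h4, h5, h6, h7⟩
    refine ⟨fun e => h1 (Fin.ext e), ?_, h3, h4, fun x hx y hy => ?_⟩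
    · rw [look_table]
      exact Nat.odd_iff.1 h2
    · obtain ⟨x, rfl⟩ : ∃ z : Fin n, z.1 = x := ⟨⟨x, hx⟩, rfl⟩
      obtain ⟨y, rfl⟩ : ∃ z : Fin n, z.1 = y := ⟨⟨y, hy⟩, rfl⟩
      simp only [look_table, ← Fin.ext_iff]
      refine ⟨fun e => h5 x e y, h6 x, h7 x y, N.symmetric x y, fun e => e ▸ N.diagonal x,
        fun e => ?_⟩
      by_contra hne
      exact N.off_diagonal x y hne e

theorem H2_step_iff {n : ℕ} (M N : CoxeterMatrix (Fin n)) :
    H2_Step n (table M) (table N) ↔ Twist M N := by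
  constructor
  · rintro ⟨p, hp, q, hq, X, -, h⟩
    exact ⟨⟨p, hp⟩, ⟨q, hq⟩, _, (H2_tw_iff M N ⟨p, hp⟩ ⟨q, hq⟩ X).1 h⟩
  · rintro ⟨p, q, X, h⟩
    obtain ⟨Z, h1, h2⟩ := H2_set n fun i => ∃ hi : i < n, (⟨i, hi⟩ : Fin n) ∈ X
    refine ⟨p, p.2, q, q.2, Z, h1, (H2_tw_iff M N p q Z).2 ?_⟩
    have e : {i : Fin n | dig 2 Z i = 1} = X := by
      ext i
      rw [Set.mem_ofPred_eq, h2 i i.2]
      exact ⟨fun h => h.2, fun h => ⟨i.2, h⟩⟩
    rwa [e]

theorem H2_dec_iff {n n' B : ℕ} (M : CoxeterMatrix (Fin n)) (M' : CoxeterMatrix (Fin n'))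
    (hB : ∀ i j, M i j < B) : H2_Dec n B (table M) (table M') ↔ TwistEquiv M M' := by
  constructor
  · intro h
    obtain ⟨Z, h1, h2⟩ := H2_set (B ^ (n * n)) fun c =>
      ∃ N, Relation.ReflTransGen Twist M N ∧ H2_tab n B c = table N
    obtain ⟨c, hc, h3, h4⟩ := h Z h1 (fun c hc e => (h2 c hc).2 ⟨M, .refl, e⟩) (by
      intro c hc c' hc' e hs
      obtain ⟨N, h3, h4⟩ := (h2 c hc).1 e
      obtain ⟨N', h5⟩ := H2_step_cox hs
      rw [h4, h5, H2_step_iff] at hs
      exact (h2 c' hc').2 ⟨N', h3.tail hs, h5⟩)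
    obtain ⟨N, h5, h6⟩ := (h2 c hc).1 h3
    rw [h6, chk_iff] at h4
    exact ⟨N, h5, h4⟩
  · rintro ⟨N, h1, h2⟩ Z _ h3 h4
    have key : (∀ i j, N i j < B) ∧ ∃ c < B ^ (n * n), dig 2 Z c = 1 ∧ H2_tab n B c = table N := by
      clear h2
      induction h1 with
      | refl =>
        obtain ⟨c, hc, e⟩ := H2_code M hB
        exact ⟨hB, c, hc, h3 c hc e, e⟩
      | @tail N1 N2 _ hs ih =>
        obtain ⟨h5, c, hc, h6, h7⟩ := ih
        have h8 := H2_twist_lt hs h5
        obtain ⟨c', hc', e⟩ := H2_code N2 h8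
        refine ⟨h8, c', hc', h4 c hc c' hc' h6 ?_, e⟩
        rwa [h7, e, H2_step_iff]
    obtain ⟨-, c, hc, h5, h6⟩ := key
    refine ⟨c, hc, h5, ?_⟩
    rwa [h6, chk_iff]

theorem H2_thm : St_H2 := by
  obtain ⟨inst, hp⟩ := H2_dec_prim (α := List (List ℕ) × List (List ℕ))
    (Primrec.list_length.comp Primrec.fst) (H2_bd_prim.comp Primrec.fst) Primrec.fst Primrec.snd
  refine ⟨_, hp.to_comp, fun n n' M M' => ?_⟩
  have e : (table M).length = n := by simp [table]
  rw [decide_eq_true_iff, ← H2_dec_iff M M' (H2_lt_bd M)]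
  simp only [e]

end Pool.Agent.Lib.MP_1b8ce0_al.T
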