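import Mathlib
import Pool.Agent.Lib.MP_1b8ce0_al.T.StsC

set_option linter.unusedSectionVars false
set_option linter.dupNamespace false

namespace Pool.Agent.Lib.MP_1b8ce0_al.T

open Pool.Agent.Lib.MP_6d85b4_al CoxeterSystem

theorem HEE_sq {c : ℝ} (hc : 2 ≤ c) (k : ℕ) :
    0 ≤ MP_6d85b4_al.sq c 0 1 k ∧ MP_6d85b4_al.sq c 0 1 k ≤ MP_6d85b4_al.sq c 0 1 (k + 1) := by
  induction k with
  | zero => simp [MP_6d85b4_al.sq]
  | succ k ih =>
    have e : MP_6d85b4_al.sq c 0 1 (k + 1 + 1) =
      c * MP_6d85b4_al.sq c 0 1 (k + 1) - MP_6d85b4_al.sq c 0 1 k := rfl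
    obtain ⟨h1, h2⟩ := ih
    refine ⟨h1.trans h2, ?_⟩
    rw [e]
    nlinarith

section

variable {T B : Type} [Fintype T] [DecidableEq T] [Fintype B] [DecidableEq B]
  {M : CoxeterMatrix T} {N : CoxeterMatrix B} {j : M.Group →* N.Group} {β : T → B → ℝ}

/-- nonnegative combinations of the family -/
def HEE_Cone (β : T → B → ℝ) (v : B → ℝ) : Prop :=
  ∃ c : T → ℝ, (∀ i, 0 ≤ c i) ∧ v = ∑ i, c i • β i

theorem HEE_base (t : T) : HEE_Cone β (β t) := by
  refine ⟨al t, pos_al t, ?_⟩
  rw [Finset.sum_eq_single t]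
  · simp
  · intro b _ hb
    rw [al_ne hb, zero_smul]
  · simp

theorem HEE_comb {u v : B → ℝ} (hu : HEE_Cone β u) (hv : HEE_Cone β v) {p q : ℝ} (hp : 0 ≤ p)
    (hq : 0 ≤ q) : HEE_Cone β (p • u + q • v) := by
  obtain ⟨c, hc, rfl⟩ := hu
  obtain ⟨d, hd, rfl⟩ := hv
  refine ⟨fun i => p * c i + q * d i,
    fun i => add_nonneg (mul_nonneg hp (hc i)) (mul_nonneg hq (hd i)), ?_⟩
  simp only [Finset.smul_sum, smul_smul, add_smul, Finset.sum_add_distrib]

theorem HEE_plane (A : C0a N) (h : ∀ t, ReflOf N (j (sr M t)) (β t)) (u v : T) (p q : ℝ) :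
    rho N (j (sr M u)) (p • β u + q • β v) =
      q • β v + (-2 * Bf N (β u) (β v) * q - p) • β u := by
  rw [A.refl_eq _ _ (h u), Bf_add_right, Bf_smul_right, Bf_smul_right,
    A.root_norm _ (A.refl_isRoot _ _ (h u))]
  module

theorem HEE_alt (A : C0a N) (h : ∀ t, ReflOf N (j (sr M t)) (β t)) (u v : T) (p q : ℝ) (k : ℕ) :
    rho N (j (M.toCoxeterSystem.wordProd (alternatingWord u v k))) (p • β v + q • β u) =
      MP_6d85b4_al.sq (-2 * Bf N (β u) (β v)) p q k • β (if Even k then v else u) +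
        MP_6d85b4_al.sq (-2 * Bf N (β u) (β v)) p q (k + 1) • β (if Even k then u else v) := by
  induction k with
  | zero => simp [alternatingWord, MP_6d85b4_al.sq]
  | succ k ih =>
    rw [alternatingWord_succ', wordProd_cons, map_mul, rho_mul, ih, HEE_plane A h]
    have e : MP_6d85b4_al.sq (-2 * Bf N (β u) (β v)) p q (k + 1 + 1) =
      -2 * Bf N (β u) (β v) * MP_6d85b4_al.sq (-2 * Bf N (β u) (β v)) p q (k + 1) -
        MP_6d85b4_al.sq (-2 * Bf N (β u) (β v)) p q k := rfl
    rw [e]
    by_cases h : Even k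
    · have h' : ¬ Even (k + 1) := by simpa [Nat.even_add_one] using h
      simp only [if_pos h, if_neg h', Bf_symm N (β v) (β u)]
    · have h' : Even (k + 1) := by simpa [Nat.even_add_one] using h
      simp only [if_neg h, if_pos h']

theorem HEE_pos (A : C0a N) (hr : ∀ t, ReflOf N (j (sr M t)) (β t))
    (h1 : ∀ s t, s ≠ t → M s t ≠ 0 → Bf N (β s) (β t) = -Real.cos (Real.pi / M s t))
    (h0 : ∀ s t, M s t = 0 → Bf N (β s) (β t) ≤ -1) (w : M.Group) (i : T)
    (h : ¬ M.toCoxeterSystem.IsRightDescent w i) : HEE_Cone β (rho N (j w) (β i)) := by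
  classical
  set cs := M.toCoxeterSystem with hcs
  induction hn : cs.length w using Nat.strong_induction_on generalizing w i with
  | _ n ih =>
  by_cases hw : w = 1
  · subst hw
    simpa using HEE_base i
  obtain ⟨l, hl⟩ := cs.exists_rightDescent_of_ne_one hw
  have hij : i ≠ l := fun e => h (e ▸ hl)
  let P : ℕ → Prop := fun k => ∃ v, w = v * cs.wordProd (alternatingWord i l k) ∧
    cs.length v + k = cs.length w
  have hP1 : P 1 := ⟨w * cs.simple l, by simp [alternatingWord],
    (cs.isRightDescent_iff).1 hl⟩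
  have hn1 : 1 ≤ cs.length w := by
    obtain ⟨v, -, h2⟩ := hP1
    omega
  set k := Nat.findGreatest P (cs.length w) with hk
  have hk1 : 1 ≤ k := Nat.le_findGreatest hn1 hP1
  have hPk : P k := Nat.findGreatest_spec hn1 hP1
  obtain ⟨v, hv1, hv2⟩ := hPk
  have hnx : ¬ cs.IsRightDescent v (if Even k then l else i) := by
    intro hd
    have hd' := (cs.isRightDescent_iff).1 hd
    refine Nat.findGreatest_is_greatest (P := P) (n := cs.length w) (k := k + 1)
      (by omega) (by omega) ⟨v * cs.simple (if Even k then l else i), ?_, by omega⟩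
    rw [alternatingWord_succ', wordProd_cons, mul_assoc, cs.simple_mul_simple_cancel_left]
    exact hv1
  have hls : ¬ cs.IsRightDescent v (if Even k then i else l) := by
    intro hd
    have hd' := (cs.isRightDescent_iff).1 hd
    obtain ⟨k', hk'⟩ : ∃ k', k = k' + 1 := ⟨k - 1, by omega⟩
    have e : (if Even k' then l else i) = (if Even k then i else l) := by
      rw [hk']
      by_cases h : Even k' <;> simp [h, Nat.even_add_one]
    rw [hk', alternatingWord_succ', wordProd_cons, e, ← mul_assoc] at hv1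
    have h1 := cs.length_mul_le (v * cs.simple (if Even k then i else l))
      (cs.wordProd (alternatingWord i l k'))
    have h2 := cs.length_wordProd_le (alternatingWord i l k')
    rw [length_alternatingWord] at h2
    rw [← hv1] at h1
    omega
  have p1 := ih (cs.length v) (by omega) v _ hnx rfl
  have p2 := ih (cs.length v) (by omega) v _ hls rfl
  have hm : M i l = 0 ∨ k + 1 ≤ M i l := by
    by_contra hc
    push Not at hc
    have h1 := cs.not_isReduced_alternatingWord l i (m := k + 1)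
      (by rw [M.symmetric]; exact hc.1) (by rw [M.symmetric]; exact hc.2)
    have h2 := (cs.not_isRightDescent_iff).1 h
    have h3 : w * cs.simple i = v * cs.wordProd (alternatingWord l i (k + 1)) := by
      rw [alternatingWord_succ, wordProd_concat, ← mul_assoc, ← hv1]
    have h4 := cs.length_mul_le v (cs.wordProd (alternatingWord l i (k + 1)))
    have h5 := cs.length_wordProd_le (alternatingWord l i (k + 1))
    unfold CoxeterSystem.IsReduced at h1
    rw [length_alternatingWord] at h1 h5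
    rw [← h3] at h4
    omega
  have c : 0 ≤ MP_6d85b4_al.sq (-2 * Bf N (β i) (β l)) 0 1 k ∧
      0 ≤ MP_6d85b4_al.sq (-2 * Bf N (β i) (β l)) 0 1 (k + 1) := by
    by_cases hz : M i l = 0
    · have h2 : 2 ≤ -2 * Bf N (β i) (β l) := by linarith [h0 i l hz]
      exact ⟨(HEE_sq h2 _).1, (HEE_sq h2 _).1⟩
    · have e : -2 * Bf N (β i) (β l) = 2 * Real.cos (Real.pi / M i l) := by
        rw [h1 i l hij hz]
        ring
      rw [e]
      exact ⟨ch_nonneg (M.off_diagonal i l hij) (by omega), ch_nonneg (M.off_diagonal i l hij) hm⟩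
  have e := HEE_alt A hr i l 0 1 k
  rw [zero_smul, zero_add, one_smul] at e
  rw [hv1, map_mul, rho_mul, e, map_add, map_smul, map_smul]
  exact HEE_comb p1 p2 c.1 c.2

end

theorem HEE_thm (_h0 : St_CH) (h1 : St_C0a) : St_HEE := by
  intro T B _ _ _ _ M N j β hr h2 h3 w t
  have A := h1 B N
  by_cases h : M.toCoxeterSystem.IsRightDescent w t
  · obtain ⟨c, hc, e⟩ := HEE_pos A hr h2 h3 _ t
      ((M.toCoxeterSystem.isRightDescent_iff_not_isRightDescent_mul).1 h)
    have e1 : rho N (j (sr M t)) (β t) = -β t := by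
      rw [A.refl_eq _ _ (hr t), A.root_norm _ (A.refl_isRoot _ _ (hr t))]
      module
    rw [map_mul, rho_mul, e1, map_neg, neg_eq_iff_eq_neg] at e
    refine ⟨fun i => -c i, Or.inr fun i => neg_nonpos.2 (hc i), ?_⟩
    rw [e]
    simp
  · obtain ⟨c, hc, e⟩ := HEE_pos A hr h2 h3 w t h
    exact ⟨c, Or.inl hc, e⟩

end Pool.Agent.Lib.MP_1b8ce0_al.T
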