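import Mathlib
import Pool.Agent.Lib.MP_1b8ce0_al.T.StsB

set_option linter.unusedSectionVars false
set_option linter.dupNamespace false

namespace Pool.Agent.Lib.MP_1b8ce0_al.T

open Pool.Agent.Lib.MP_6d85b4_al

theorem IA_flex {S : Type} (M : CoxeterMatrix S) : Flex M (Big M) := by
  intro s hs t ht
  have h1 : ¬ 3 ≤ M s t := fun h => hs ⟨t, h⟩
  have h2 : M s t ≠ 1 := M.off_diagonal s t ht.symm
  omega

section Two

variable {G S S' : Type} [Group G] [Fintype S] [DecidableEq S] [Fintype S'] [DecidableEq S']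
  {M : CoxeterMatrix S} {M' : CoxeterMatrix S'} {x' : S' → G}

/-- the generators with a large label whose image is not a reflection -/
def IA_bad (M : CoxeterMatrix S) (A' : ASide M' x') (x : S → G) : Set S :=
  {s | s ∈ Big M ∧ ¬ IsRefl A'.N (A'.ψ (x s))}

theorem IA_step (h0 : St_C0a) (h1 : St_D1) (h2 : St_ASIDE) (h3 : St_EXF) (h4 : St_TYP)
    (h5 : St_EE) (h6 : St_EXT) (h7 : St_EXA) (hM : NoSph M) (A' : ASide M' x') (x : S → G)
    (hx : IsDyer M ∅ x) (hne : (IA_bad M A' x).Nonempty) :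
    ∃ y : S → G, IsDyer M ∅ y ∧ IA_bad M A' y ⊂ IA_bad M A' x := by
  obtain ⟨A⟩ := h2 S G M x hx hM
  obtain ⟨s0, hs0, hn0⟩ := hne
  have hex : ∃ s t, ExoE M x A' s t := by
    rcases h4 G S S' M x M' x' A A' s0 hs0 with h | ⟨u, t, -, h | h⟩
    · exact absurd h hn0
    · exact ⟨u, t, h⟩
    · exact ⟨t, u, h⟩
  obtain ⟨s, t, hst⟩ := hex
  obtain ⟨a, b, c, a', F⟩ := h5 G S S' M x M' x' A A' s t hst
  obtain ⟨rfl, rfl, hoth⟩ := h6 G S S' M x M' x' A A' s t a b c a' F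
  obtain ⟨c0, i, j, k, hE⟩ := hst.2.2
  have X := h3 A'.B A'.N A'.ns c0 i j k _ _ hE
  have D := h1.2 S G M ∅ x hx
  obtain ⟨t1, t2, t3⟩ := F.tri
  have htc : t ≠ c := by
    rintro rfl
    rw [M.diagonal] at t2
    omega
  have hcm : Commute (A'.ψ (x c)) (A'.ψ (x s)) := ((D.two s c t3).map A'.ψ).symm
  have hev : (A'.ψ (x t) * A'.ψ (x c)) ^ 2 = (A'.ψ (x c) * A'.ψ (x t)) ^ 2 := by
    have := congrArg A'.ψ (D.even t c 2 htc (by norm_num) (by omega))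
    simpa only [map_pow, map_mul] using this
  have hr := X.fin _ hcm F.sc hev
  refine ⟨_, h7 S G M x s t c hx t1 t2 t3 hoth, ?_⟩
  have hsbad : s ∈ IA_bad M A' x := by
    refine ⟨⟨t, by omega⟩, fun h => X.inf ?_⟩
    have := ((h0 A'.B A'.N).refl_sq _ h).1
    exact isOfFinOrder_iff_pow_eq_one.2 ⟨2, by norm_num, by rw [pow_two, this]⟩
  have hsgood : s ∉ IA_bad M A' (Function.update x s (x s * x t * x c * x t)⁻¹) := by
    rintro ⟨-, h⟩
    apply h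
    rw [Function.update_self]
    simpa only [map_inv, map_mul] using hr
  refine ⟨fun u hu => ?_, fun h => hsgood (h hsbad)⟩
  have hus : u ≠ s := fun e => hsgood (e ▸ hu)
  refine ⟨hu.1, ?_⟩
  have := hu.2
  rwa [Function.update_of_ne hus] at this

theorem IA_ind (h0 : St_C0a) (h1 : St_D1) (h2 : St_ASIDE) (h3 : St_EXF) (h4 : St_TYP)
    (h5 : St_EE) (h6 : St_EXT) (h7 : St_EXA) (hM : NoSph M) (A' : ASide M' x') :
    ∀ (n : ℕ) (x : S → G), IsDyer M ∅ x → (IA_bad M A' x).ncard ≤ n →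
      ∃ y : S → G, IsDyer M ∅ y ∧ ∀ s ∈ Big M, IsRefl A'.N (A'.ψ (y s)) := by
  intro n
  induction n with
  | zero =>
    intro x hx hn
    refine ⟨x, hx, fun s hs => ?_⟩
    by_contra hr
    have : 0 < (IA_bad M A' x).ncard := (Set.ncard_pos (Set.toFinite _)).2 ⟨s, hs, hr⟩
    omega
  | succ n ih =>
    intro x hx hn
    by_cases hne : (IA_bad M A' x).Nonempty
    · obtain ⟨y, hy, hlt⟩ := IA_step h0 h1 h2 h3 h4 h5 h6 h7 hM A' x hx hne
      have := Set.ncard_lt_ncard hlt (Set.toFinite _)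
      exact ih y hy (by omega)
    · refine ⟨x, hx, fun s hs => ?_⟩
      by_contra hr
      exact hne ⟨s, hs, hr⟩

theorem IA_ker (h0 : St_C0a) {x : S → G} (A : ASide M x) (A' : ASide M' x')
    (h : ∀ s ∈ Big M, IsRefl A'.N (A'.ψ (x s))) (g : G) (hg : A.ψ g = 1) : A'.ψ g = 1 := by
  have h1 : Subgroup.normalClosure {y | ∃ s ∈ Big M, y = x s * x s} ≤ A'.ψ.ker := by
    refine Subgroup.normalClosure_le_normal ?_
    rintro y ⟨s, hs, rfl⟩
    have := ((h0 A'.B A'.N).refl_sq _ (h s hs)).1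
    simpa only [SetLike.mem_coe, MonoidHom.mem_ker, map_mul] using this
  exact h1 ((A.ker g).1 hg)

theorem IA_end (h0 : St_C0a) (h1 : St_D1) (h4 : St_TYP) (h5 : St_EE) {x : S → G}
    (A : ASide M x) (A' : ASide M' x') (h : ∀ s ∈ Big M, IsRefl A'.N (A'.ψ (x s))) :
    ∃ (D : Type) (_ : Group D) (R : Set S) (y : S → D) (R' : Set S') (y' : S' → D),
      DP M R y ∧ DP M' R' y' ∧ Matched R y R' y' := by
  have h' : ∀ s' ∈ Big M', IsRefl A.N (A.ψ (x' s')) := by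
    intro s' hs'
    have hno : ∀ u t, ¬ ExoE M' x' A u t := by
      intro u t hut
      obtain ⟨a, b, c, a1, F⟩ := h5 G S' S M' x' M x A' A u t hut
      exact F.nr.1 (h a1 F.nr.2)
    rcases h4 G S' S M' x' M x A' A s' hs' with h2 | ⟨u, t, -, h2 | h2⟩
    · exact h2
    · exact absurd h2 (hno _ _)
    · exact absurd h2 (hno _ _)
  have hk : ∀ g, A.ψ g = 1 ↔ A'.ψ g = 1 := fun g => ⟨IA_ker h0 A A' h g, IA_ker h0 A' A h' g⟩
  let π : G →* G ⧸ A'.ψ.ker := QuotientGroup.mk' _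
  have hπ : ∀ g, π g = 1 ↔ A'.ψ g = 1 := fun g => QuotientGroup.eq_one_iff g
  have hsur : Function.Surjective π := QuotientGroup.mk'_surjective _
  have hπ2 : ∀ g g', A'.ψ g = A'.ψ g' → π g = π g' := by
    intro g g' e
    rw [← mul_inv_eq_one, ← map_inv, ← map_mul, hπ, map_mul, map_inv, e, mul_inv_cancel]
  have hπ1 : ∀ g g', A.ψ g = A.ψ g' → π g = π g' := by
    intro g g' e
    rw [← mul_inv_eq_one, ← map_inv, ← map_mul, hπ, ← hk, map_mul, map_inv, e, mul_inv_cancel]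
  refine ⟨G ⧸ A'.ψ.ker, inferInstance, Big M, fun s => π (x s), Big M', fun s => π (x' s),
    ⟨(h1.2 S G M ∅ x A.art).quot _ π (Big M) hsur (Set.empty_subset _)
      (fun g => by rw [hπ, ← hk, A.ker]), IA_flex M, A.nsM⟩,
    ⟨(h1.2 S' G M' ∅ x' A'.art).quot _ π (Big M') hsur (Set.empty_subset _)
      (fun g => by rw [hπ, A'.ker]), IA_flex M', A'.nsM⟩, ?_, ?_⟩
  · intro s hs
    obtain ⟨s', hs', d, e⟩ := A'.refl _ (h s hs)
    refine ⟨s', hs', (isConj_iff.2 ⟨π d, ?_⟩).symm⟩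
    beta_reduce
    rw [hπ2 _ _ e, map_mul, map_mul, map_inv]
  · intro s' hs'
    obtain ⟨s, hs, d, e⟩ := A.refl _ (h' s' hs')
    refine ⟨s, hs, isConj_iff.2 ⟨π d, ?_⟩⟩
    beta_reduce
    rw [hπ1 _ _ e, map_mul, map_mul, map_inv]

end Two

theorem IA_thm (h0 : St_C0a) (h1 : St_D1) (h2 : St_ASIDE) (h3 : St_EXF) (h4 : St_TYP)
    (h5 : St_EE) (h6 : St_EXT) (h7 : St_EXA) : St_IA := by
  rintro S S' _ _ _ _ M M' hM hM' ⟨e⟩
  obtain ⟨A'⟩ := h2 S' _ M' (gen M') (h1.1 S' M') hM'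
  have hx := (h1.2 S _ M ∅ (gen M) (h1.1 S M)).iso _ e
  obtain ⟨y, hy, hr⟩ := IA_ind h0 h1 h2 h3 h4 h5 h6 h7 hM A' _ _ hx le_rfl
  obtain ⟨A⟩ := h2 S _ M y hy hM
  exact IA_end h0 h1 h4 h5 A A' hr

end Pool.Agent.Lib.MP_1b8ce0_al.T
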