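import Mathlib
import Pool.Agent.Lib.MP_1b8ce0_al.T.StsC

set_option linter.unusedSectionVars false
set_option linter.dupNamespace false

namespace Pool.Agent.Lib.MP_1b8ce0_al.T

open Pool.Agent.Lib.MP_6d85b4_al

theorem IB_gp_conj {S G : Type} [Group G] (x : S → G) (d : G) (T : Set S) :
    gp (fun s => d * x s * d⁻¹) T = cj d (gp x T) := by
  apply le_antisymm
  · rw [gp_le]
    intro s hs
    exact conj_mem_cj.2 (gp_mem x hs)
  · have h : gp x T ≤ cj d⁻¹ (gp (fun s => d * x s * d⁻¹) T) := by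
      rw [gp_le]
      intro s hs
      rw [mem_cj, inv_inv]
      exact gp_mem (fun s => d * x s * d⁻¹) hs
    have h2 := cj_mono d h
    rwa [cj_cj, mul_inv_cancel, cj_one] at h2

theorem IB_symm {S S' G : Type} [Group G] {R : Set S} {x : S → G} {R' : Set S'} {x' : S' → G}
    (h : Matched R x R' x') : Matched R' x' R x :=
  ⟨fun s' hs' => by
    obtain ⟨s, hs, e⟩ := h.2 s' hs'
    exact ⟨s, hs, e.symm⟩, fun s hs => by
    obtain ⟨s', hs', e⟩ := h.1 s hs
    exact ⟨s', hs', e.symm⟩⟩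

theorem IB_conj {S S' G : Type} [Group G] {R : Set S} {x : S → G} {R' : Set S'} {x' : S' → G}
    (h : Matched R x R' x') (d : G) : Matched R x R' (fun s => d * x' s * d⁻¹) :=
  ⟨fun s hs => by
    obtain ⟨s', hs', e⟩ := h.1 s hs
    exact ⟨s', hs', e.trans (isConj_iff.2 ⟨d, rfl⟩)⟩, fun s' hs' => by
    obtain ⟨s, hs, e⟩ := h.2 s' hs'
    exact ⟨s, hs, e.trans (isConj_iff.2 ⟨d, rfl⟩)⟩⟩

theorem IB_ncl {S G : Type} [Group G] {M : CoxeterMatrix S} {R : Set S} {x : S → G}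
    (h : IsDyer M R x) (f : S) :
    Subgroup.normalClosure {y | ∃ s ∈ insert f R, y = x s * x s} =
      Subgroup.normalClosure {x f * x f} := by
  apply le_antisymm
  · apply Subgroup.normalClosure_le_normal
    rintro y ⟨s, hs, rfl⟩
    rcases hs with rfl | hs
    · exact Subgroup.subset_normalClosure rfl
    · rw [h.sqr s hs]
      exact Subgroup.one_mem _
  · apply Subgroup.normalClosure_mono
    rintro y rfl
    exact ⟨f, Set.mem_insert _ _, rfl⟩

theorem IB_quot (h1 : St_D1) {S G : Type} [Group G] {M : CoxeterMatrix S} {R : Set S} {x : S → G}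
    (h : DP M R x) (f : S) (z : G) (hz : x f = z) :
    DP M (insert f R)
      (fun s => QuotientGroup.mk' (Subgroup.normalClosure ({z * z} : Set G)) (x s)) := by
  refine ⟨?_, fun s hs => h.fl s fun hr => hs (Set.mem_insert_of_mem _ hr), h.ns⟩
  refine (h1.2 S G M R x h.dy).quot _ _ (insert f R) (QuotientGroup.mk'_surjective _)
    (Set.subset_insert _ _) fun g => ?_
  rw [IB_ncl h.dy f, hz, QuotientGroup.mk'_apply, QuotientGroup.eq_one_iff]

theorem IB_step (h1 : St_D1) (h2 : St_KEY) (h3 : St_KEYN) (h4 : St_SYM) (h5 : St_MOD)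
    {D S S' : Type} [Group D] [Fintype S] [DecidableEq S] [Fintype S'] [DecidableEq S']
    {M : CoxeterMatrix S} {R : Set S} {x : S → D} {M' : CoxeterMatrix S'} {R' : Set S'}
    {x' : S' → D} (a : DP M R x) (b : DP M' R' x') (c : Matched R x R' x') (hl : ¬ Low M R) :
    ∃ f u, f ∉ R ∧ u ∉ R' ∧ ∃ (D1 : Type) (_ : Group D1) (x1 : S → D1) (x1' : S' → D1),
      DP M (insert f R) x1 ∧ DP M' (insert u R') x1' ∧
        Matched (insert f R) x1 (insert u R') x1' := by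
  have : ∃ f, f ∉ R ∧ Two (lk M f) := by
    by_contra hc
    apply hl
    intro s hs t u ht hu
    by_contra hne
    exact hc ⟨s, hs, t, ht, u, hu, hne⟩
  obtain ⟨f, hf, htwo⟩ := this
  obtain ⟨d, L', hk⟩ := h2 D S S' M R x M' R' x' a b c f hf htwo
  obtain ⟨y, ay, cy, ey⟩ := h3 D S S' M R x M' R' x' a b c f d L' hf htwo hk
  have b2 : DP M' R' (fun s => d * x' s * d⁻¹) :=
    ⟨(h1.2 S' D M' R' x' b.dy).conjf d, b.fl, b.ns⟩
  have c2 := IB_conj cy d
  rw [← IB_gp_conj] at ey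
  obtain ⟨f', hf', el⟩ := h4 D S S' M R y M' R' _ ay b2 c2 f L' hf htwo hk.ind hk.two ey
  have hs : Sym M R y M' R' (fun s => d * x' s * d⁻¹) f f' :=
    ⟨hf, hf', htwo, el ▸ hk.two, el ▸ ey⟩
  obtain ⟨y2, a2, c3, u, hu, eu⟩ := h5 D S S' M R y M' R' _ ay b2 c2 f f' hs
  refine ⟨f, u, hf, hu, D ⧸ Subgroup.normalClosure ({y2 f * y2 f} : Set D), inferInstance, _, _,
    IB_quot h1 a2 f (y2 f) rfl, IB_quot h1 b2 u (y2 f) eu.symm, ?_, ?_⟩
  · rintro s (rfl | hs)
    · exact ⟨u, Set.mem_insert _ _,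
        (QuotientGroup.mk' _).map_isConj (isConj_iff.2 ⟨1, by simpa using eu⟩)⟩
    · obtain ⟨s', hs', e⟩ := c3.1 s hs
      exact ⟨s', Set.mem_insert_of_mem _ hs', (QuotientGroup.mk' _).map_isConj e⟩
  · rintro s' (rfl | hs')
    · exact ⟨f, Set.mem_insert _ _,
        (QuotientGroup.mk' _).map_isConj (isConj_iff.2 ⟨1, by simpa using eu⟩)⟩
    · obtain ⟨s, hs, e⟩ := c3.2 s' hs'
      exact ⟨s, Set.mem_insert_of_mem _ hs, (QuotientGroup.mk' _).map_isConj e⟩

theorem IB_card {S : Type} [Finite S] {R : Set S} {f : S} (h : f ∉ R) :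
    (insert f R)ᶜ.ncard < Rᶜ.ncard := by
  apply Set.ncard_lt_ncard _ (Set.toFinite _)
  refine ⟨Set.compl_subset_compl.2 (Set.subset_insert _ _), fun hc => ?_⟩
  exact hc h (Set.mem_insert _ _)

theorem IB_thm (h1 : St_D1) (h2 : St_KEY) (h3 : St_KEYN) (h4 : St_SYM) (h5 : St_MOD) :
    St_IB := by
  intro D S S' _ _ _ _ _ M R x M' R' x' a b c
  induction hn : Rᶜ.ncard using Nat.strong_induction_on generalizing D R R' with
  | _ n ih =>
    by_cases hl : Low M R
    · by_cases hl' : Low M' R'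
      · exact ⟨D, inferInstance, R, x, R', x', a, b, c, hl, hl'⟩
      · obtain ⟨u, f, -, hf, D1, _, x1', x1, b1, a1, c1⟩ :=
          IB_step h1 h2 h3 h4 h5 b a (IB_symm c) hl'
        exact ih _ (hn ▸ IB_card hf) D1 _ x1 _ x1' a1 b1 (IB_symm c1) rfl
    · obtain ⟨f, u, hf, -, D1, _, x1, x1', a1, b1, c1⟩ := IB_step h1 h2 h3 h4 h5 a b c hl
      exact ih _ (hn ▸ IB_card hf) D1 _ x1 _ x1' a1 b1 c1 rfl

end Pool.Agent.Lib.MP_1b8ce0_al.T
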