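import Mathlib
import Pool.Agent.Lib.MP_1b8ce0_al.T.StsC

set_option linter.unusedSectionVars false
set_option linter.dupNamespace false
set_option linter.unusedVariables false

namespace Pool.Agent.Lib.MP_1b8ce0_al.T

open Pool.Agent.Lib.MP_6d85b4_al

section Aux

variable {S G : Type} [Group G] {M : CoxeterMatrix S} {R : Set S} {x : S → G}

theorem KEY_ne {s t : S} (h : M s t = 2) : s ≠ t := by
  rintro rfl
  rw [M.diagonal] at h
  omega

theorem KEY_zero (hn : NoSph M) {a s t : S} (hs : M a s = 2) (ht : M a t = 2) (h : s ≠ t) :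
    M s t = 0 := by
  have h1 := hn a s t (KEY_ne hs) h (KEY_ne ht)
  rw [hs, ht] at h1
  by_contra h0
  have h2 : (0 : ℚ) < 1 / (M s t : ℚ) := one_div_pos.2 (Nat.cast_pos.2 (Nat.pos_of_ne_zero h0))
  push_cast at h1
  linarith

theorem KEY_indep_lk (hn : NoSph M) (f : S) : Indep M (lk M f) :=
  fun _ hs _ ht h => KEY_zero hn hs ht h

theorem KEY_indep_perp (hn : NoSph M) {T : Set S} (hT : Two T) : Indep M (perp M T) := by
  obtain ⟨l, hl, -⟩ := hT
  intro p hp q hq h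
  exact KEY_zero hn ((M.symmetric l p).trans (hp l hl)) ((M.symmetric l q).trans (hq l hl)) h

theorem KEY_cls (hF : Flex M R) {f : S} (hf : f ∉ R) {t : S} (h : OddConn M f t) : t = f := by
  induction h with
  | refl => rfl
  | tail _ h2 ih =>
    subst ih
    obtain ⟨h3, h4⟩ := h2
    rcases hF _ hf _ h3.symm with h5 | h5 <;> rw [h5] at h4 <;> exact absurd h4 (by decide)

theorem KEY_chi (hD : D1 M R x) (hF : Flex M R) {f : S} (hf : f ∉ R) : ∃ χ, IsChi M x f χ :=
  hD.chi f fun _ ht => (KEY_cls hF hf ht).symm ▸ hf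

theorem KEY_chi_self {f : S} {χ : G →* Multiplicative ℤ} (h : IsChi M x f χ) :
    χ (x f) = Multiplicative.ofAdd 1 :=
  h.1 f Relation.ReflTransGen.refl

theorem KEY_chi_ne {f : S} {χ : G →* Multiplicative ℤ} (h : IsChi M x f χ) : χ (x f) ≠ 1 := by
  rw [KEY_chi_self h]
  decide

theorem KEY_chi_kill (hF : Flex M R) {f : S} (hf : f ∉ R) {χ : G →* Multiplicative ℤ}
    (h : IsChi M x f χ) {T : Set S} (hT : f ∉ T) {g : G} (hg : g ∈ gp x T) : χ g = 1 := by
  have h1 : gp x T ≤ χ.ker := gp_le.2 fun s hs =>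
    h.2 s fun h2 => hT (KEY_cls hF hf h2 ▸ hs)
  exact h1 hg

theorem KEY_conj {A : Type} [CommGroup A] (χ : G →* A) (h g : G) : χ (h⁻¹ * g * h) = χ g := by
  rw [map_mul, map_mul, map_inv, mul_right_comm, inv_mul_cancel, one_mul]

theorem KEY_cm {A : Type} [CommGroup A] (χ : G →* A) (g h : G) : χ (cm g h) = 1 := by
  rw [cm, map_mul, map_mul, map_mul, map_inv, map_inv, mul_right_comm (χ g), mul_inv_cancel,
    one_mul, mul_inv_cancel]

theorem KEY_cm_one {g h : G} (e : cm g h = 1) : Commute g h := by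
  have e2 : g * h = cm g h * (h * g) := by
    rw [cm]
    group
  rw [e, one_mul] at e2
  exact e2

theorem KEY_cm_conj (c g h : G) : c⁻¹ * cm g h * c = cm (c⁻¹ * g * c) (c⁻¹ * h * c) := by
  simp only [cm]
  group

theorem KEY_comm_conj (c : G) {g h : G} (e : Commute g h) :
    Commute (c⁻¹ * g * c) (c⁻¹ * h * c) := by
  have e1 : g * h = h * g := e
  show c⁻¹ * g * c * (c⁻¹ * h * c) = c⁻¹ * h * c * (c⁻¹ * g * c)
  calc c⁻¹ * g * c * (c⁻¹ * h * c) = c⁻¹ * (g * h) * c := by group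
    _ = c⁻¹ * (h * g) * c := by rw [e1]
    _ = c⁻¹ * h * c * (c⁻¹ * g * c) := by group

theorem KEY_comm_of_conj (c : G) {g h : G} (e : Commute (c⁻¹ * g * c) (c⁻¹ * h * c)) :
    Commute g h := by
  have e1 := KEY_comm_conj c⁻¹ e
  simpa [mul_assoc] using e1

theorem KEY_cm_central {a b l m : G} (h1 : Commute a b) (h2 : Commute a m) (h3 : Commute b l)
    (h4 : Commute a l) (h5 : Commute b m) : cm (a * l) (b * m) = cm l m := by
  have e : a * l * (b * m) = cm l m * (b * m * (a * l)) := by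
    calc a * l * (b * m) = a * (l * b) * m := by group
      _ = a * (b * l) * m := by rw [h3.eq]
      _ = (a * b) * (l * m) := by group
      _ = (l * m) * (a * b) := (((h4.mul_right h2).mul_left (h3.mul_right h5))).eq
      _ = cm l m * (m * l * (a * b)) := by rw [cm]; group
      _ = cm l m * (b * m * (a * l)) := by
        congr 1
        calc m * l * (a * b) = m * (l * (a * b)) := by group
          _ = m * ((a * b) * l) := by rw [(h4.mul_left h3).eq]
          _ = m * (b * a) * l := by rw [h1.eq]; group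
          _ = (m * b) * (a * l) := by group
          _ = b * m * (a * l) := by rw [h5.eq]
  rw [cm, e]
  group

theorem KEY_lk_comm (hD : D1 M R x) (f : S) {l : G} (hl : l ∈ gp x (lk M f)) :
    Commute (x f) l :=
  hD.perp {f} (lk M f) (fun p hp t ht => by rw [Set.mem_singleton_iff.1 hp]; exact ht) _
    (gp_mem x rfl) l hl

/-- components in a direct product of two subgroups -/
theorem KEY_comp {A B : Subgroup G} (hc : ∀ v ∈ A, ∀ n ∈ B, Commute v n) (hi : A ⊓ B = ⊥)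
    {v v' n n' : G} (hv : v ∈ A) (hv' : v' ∈ A) (hn : n ∈ B) (hn' : n' ∈ B)
    (e : Commute (v * n) (v' * n')) : Commute v v' ∧ Commute n n' := by
  have e1 : v * v' * (n * n') = v' * v * (n' * n) := by
    calc v * v' * (n * n') = v * (v' * n) * n' := by group
      _ = v * (n * v') * n' := by rw [(hc v' hv' n hn).eq]
      _ = v * n * (v' * n') := by group
      _ = v' * n' * (v * n) := e.eq
      _ = v' * (n' * v) * n := by group
      _ = v' * (v * n') * n := by rw [(hc v hv n' hn').eq]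
      _ = v' * v * (n' * n) := by group
  have e2 : (v' * v)⁻¹ * (v * v') = n' * n * (n * n')⁻¹ := by
    calc (v' * v)⁻¹ * (v * v') = (v' * v)⁻¹ * (v * v' * (n * n')) * (n * n')⁻¹ := by group
      _ = n' * n * (n * n')⁻¹ := by rw [e1]; group
  have h1 : (v' * v)⁻¹ * (v * v') ∈ A ⊓ B :=
    ⟨A.mul_mem (A.inv_mem (A.mul_mem hv' hv)) (A.mul_mem hv hv'),
      e2 ▸ B.mul_mem (B.mul_mem hn' hn) (B.inv_mem (B.mul_mem hn hn'))⟩
  rw [hi, Subgroup.mem_bot] at h1
  refine ⟨(inv_mul_eq_one.1 h1).symm, ?_⟩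
  rw [e2] at h1
  exact (mul_inv_eq_one.1 h1).symm

/-- a commutator in a conjugate of a cyclic standard subgroup is trivial -/
theorem KEY_cyc_cm (hP : DP M R x) (hD : D1 M R x) {d g h : G} {l : S}
    (e : cm g h ∈ cj d (gp x {l})) : cm g h = 1 := by
  rw [mem_cj, gp, Set.image_singleton, Subgroup.mem_closure_singleton] at e
  obtain ⟨n, hn⟩ := e
  have key : x l ^ n = 1 := by
    by_cases hl : l ∈ R
    · obtain ⟨χ, h1, -⟩ := hD.chc l
      have h2 := congrArg χ hn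
      rw [KEY_conj, KEY_cm, map_zpow, h1 l Relation.ReflTransGen.refl] at h2
      rcases Int.even_or_odd n with h3 | h3
      · obtain ⟨k, rfl⟩ := h3
        rw [← two_mul, zpow_mul, zpow_two, hP.dy.sqr l hl, one_zpow]
      · rw [h3.neg_one_zpow] at h2
        exact absurd h2 (by decide)
    · obtain ⟨χ, h1⟩ := KEY_chi hD hP.fl hl
      have h2 := congrArg χ hn
      rw [KEY_conj, KEY_cm, map_zpow, KEY_chi_self h1, ← ofAdd_zsmul, ofAdd_eq_one, smul_eq_mul,
        mul_one] at h2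
      rw [h2, zpow_zero]
  rw [key] at hn
  have e2 : cm g h = d * (d⁻¹ * cm g h * d) * d⁻¹ := by group
  rw [e2, ← hn, mul_one, mul_inv_cancel]

/-- an element with a nonzero exponent is seen by a free vertex -/
theorem KEY_seen [Fintype S] (hP : DP M R x) (hD : D1 M R x) (φ : G →* Multiplicative ℤ) {g : G}
    (hg : φ g ≠ 1) : ∃ f χ, f ∉ R ∧ IsChi M x f χ ∧ χ g ≠ 1 := by
  classical
  by_contra hcon
  have h1 : ∀ s, ∃ χ : G →* Multiplicative ℤ, (s ∉ R → IsChi M x s χ) ∧ (s ∈ R → χ = 1) := by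
    intro s
    by_cases hs : s ∈ R
    · exact ⟨1, fun h => absurd hs h, fun _ => rfl⟩
    · obtain ⟨χ, h⟩ := KEY_chi hD hP.fl hs
      exact ⟨χ, fun _ => h, fun h => absurd h hs⟩
  choose χ h2 h3 using h1
  let ψ : G →* Multiplicative ℤ := MonoidHom.mk' (fun y => ∏ s, χ s y ^ (φ (x s)).toAdd)
    fun a b => by simp only [map_mul, mul_zpow, Finset.prod_mul_distrib]
  have e : φ = ψ := by
    refine hD.ext _ φ ψ fun t => ?_
    show φ (x t) = ∏ s, χ s (x t) ^ (φ (x s)).toAdd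
    rw [Finset.prod_eq_single t]
    · by_cases ht : t ∈ R
      · have h4 := congrArg φ (hP.dy.sqr t ht)
        rw [map_mul, map_one] at h4
        have h5 := congrArg Multiplicative.toAdd h4
        rw [toAdd_mul, toAdd_one] at h5
        have h6 : (φ (x t)).toAdd = 0 := by omega
        rw [h6, zpow_zero]
        exact toAdd_eq_zero.1 h6
      · rw [KEY_chi_self (h2 t ht), ← ofAdd_zsmul, smul_eq_mul, mul_one, ofAdd_toAdd]
    · intro s _ hst
      by_cases hs : s ∈ R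
      · rw [h3 s hs, MonoidHom.one_apply, one_zpow]
      · rw [(h2 s hs).2 t fun h => hst (KEY_cls hP.fl hs h).symm, one_zpow]
    · intro h
      exact absurd (Finset.mem_univ t) h
  apply hg
  rw [e]
  show ∏ s, χ s g ^ (φ (x s)).toAdd = 1
  refine Finset.prod_eq_one fun s _ => ?_
  by_cases hs : s ∈ R
  · rw [h3 s hs, MonoidHom.one_apply, one_zpow]
  · have h4 : χ s g = 1 := by
      by_contra h5
      exact hcon ⟨s, χ s, hs, h2 s hs, h5⟩
    rw [h4, one_zpow]

end Aux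

theorem TR0_thm (h1 : St_D1) (h2 : St_TT) : St_TR0 := by
  intro S G _ _ _ M R x hP f χ g hf hχ hg
  have hD := h1.2 S G M R x hP.dy
  have hfl : f ∉ lk M f := fun h => KEY_ne (M := M) h rfl
  have hI : ({f}ᶜ : Set S) ∩ insert f (lk M f) = lk M f := by
    ext s
    constructor
    · rintro ⟨h3, h4 | h4⟩
      · exact absurd h4 h3
      · exact h4
    · intro h3
      exact ⟨fun h4 => hfl (Set.mem_singleton_iff.1 h4 ▸ h3), Or.inr h3⟩
  obtain ⟨T, -⟩ := h2 S G M R x {f}ᶜ (insert f (lk M f)) hP.dy (by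
    refine Set.eq_univ_of_forall fun s => ?_
    by_cases h : s = f
    · exact Or.inr (Or.inl h)
    · exact Or.inl h) (by
    intro s t hs ht
    have e : t = f := by simpa using ht
    subst e
    have h3 : s ≠ t := fun h => hs (Or.inl h)
    rcases hP.fl t hf s h3 with h4 | h4
    · exact (M.symmetric s t).trans h4
    · exact absurd (Or.inr h4) hs)
  rw [hI] at T
  have k1 : ∀ (U : Set S) h, f ∉ U → g ∉ cj h (gp x U) := fun U h hU h3 =>
    hg ((KEY_conj χ h g).symm.trans (KEY_chi_kill hP.fl hf hχ hU h3))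
  have k2 : ∀ k, g ∉ cj k (gp x (lk M f)) := fun k => k1 _ k hfl
  refine ⟨?_, fun h h3 u hu => T.cent2 g h u k2 h3 hu, KEY_indep_lk hP.ns f, ?_,
    KEY_indep_perp hP.ns⟩
  · by_cases hE : Ell (gp x {f}ᶜ) (gp x (insert f (lk M f))) g
    · obtain ⟨h, h3 | h3⟩ := hE
      · exact absurd h3 (k1 _ h fun h4 => h4 rfl)
      refine ⟨h, fun g1 g2 c1 c2 => ?_⟩
      obtain ⟨n1, l1, m1, e1⟩ := hD.star f _ (T.cent2 g h g1 k2 h3 c1)
      obtain ⟨n2, l2, m2, e2⟩ := hD.star f _ (T.cent2 g h g2 k2 h3 c2)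
      have d1 := KEY_lk_comm hD f m1
      have d2 := KEY_lk_comm hD f m2
      rw [mem_cj, KEY_cm_conj, e1, e2, KEY_cm_central ((Commute.refl _).zpow_zpow _ _)
        (d2.zpow_left _) (d1.zpow_left _) (d1.zpow_left _) (d2.zpow_left _), cm]
      exact mul_mem (mul_mem (mul_mem m1 m2) (inv_mem m1)) (inv_mem m2)
    · obtain ⟨h, Tr, t1, -, t3, -⟩ := T.hyp g hE
      exact ⟨h, fun g1 g2 c1 c2 => t3 g1 (t1 g1 c1) g2 (t1 g2 c2)⟩
  · ext s
    constructor
    · intro h3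
      exact (M.symmetric f s).trans (h3 f fun t ht => ht)
    · intro h3 p hp
      exact (M.symmetric s p).trans (hp s h3)

theorem KEY_thm (h1 : St_D1) (h2 : St_TT) (h3 : St_RESTR) (h4 : St_DPAR) (h5 : St_FREE)
    (h6 : St_TR0) : St_KEY := by
  intro D S S' _ _ _ _ _ M R x M' R' x' hP hP' _ f hf htwo
  have hD := h1.2 S D M R x hP.dy
  have hD' := h1.2 S' D M' R' x' hP'.dy
  have pr := h4 S D M R x hP
  have pr' := h4 S' D M' R' x' hP'
  obtain ⟨χ, hχ⟩ := KEY_chi hD hP.fl hf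
  obtain ⟨f', χ', hf', hχ', hne⟩ := KEY_seen hP' hD' χ (KEY_chi_ne hχ)
  obtain ⟨⟨h, hcm⟩, -, hind, -⟩ := h6 S' D M' R' x' hP' f' χ' (x f) hf' hχ' hne
  obtain ⟨-, hst, hindf, -⟩ := h6 S D M R x hP f χ (x f) hf hχ (KEY_chi_ne hχ)
  have star : ∀ g, Commute g (x f) → ∃ n : ℤ, ∃ l ∈ gp x (lk M f), g = x f ^ n * l := by
    intro g hg
    have k := hst 1 (by rw [cj_one]; exact gp_mem x (Set.mem_insert _ _)) g hg
    rw [cj_one] at k
    exact hD.star f g k
  let Z : Subgroup D :=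
    Subgroup.closure {c | ∃ g1 g2, Commute g1 (x f) ∧ Commute g2 (x f) ∧ c = cm g1 g2}
  have hZ : Z ≤ cj h (gp x' (lk M' f')) := by
    refine (Subgroup.closure_le _).2 ?_
    rintro c ⟨g1, g2, c1, c2, rfl⟩
    exact hcm g1 g2 c1 c2
  obtain ⟨d, L, hL, hZL, hmin⟩ := pr'.pcl Z h _ hZ
  have indL : Indep M' L := fun s hs t ht => hind s (hL hs) t (hL ht)
  have hZn : ∀ g, Commute g (x f) → Z ≤ cj g Z := by
    intro g hg
    refine (Subgroup.closure_le _).2 ?_
    rintro c ⟨g1, g2, c1, c2, rfl⟩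
    refine mem_cj.2 (Subgroup.subset_closure ⟨g⁻¹ * g1 * g, g⁻¹ * g2 * g, ?_, ?_, KEY_cm_conj _ _ _⟩)
    · exact (hg.inv_left.mul_left c1).mul_left hg
    · exact (hg.inv_left.mul_left c2).mul_left hg
  have hnorm : ∀ g, Commute g (x f) → cj (d⁻¹ * g * d) (gp x' L) ≤ gp x' L := by
    intro g hg y hy
    have k1 : Z ≤ cj (g⁻¹ * d) (gp x' L) := by
      rw [← cj_cj]
      exact (hZn g⁻¹ hg.inv_left).trans (cj_mono _ hZL)
    have k2 : g⁻¹ * d * y * d⁻¹ * g ∈ cj d (gp x' L) := by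
      rw [mem_cj] at hy ⊢
      convert hy using 1
      group
    have k3 := mem_cj.1 (hmin _ _ k1 k2)
    convert k3 using 1
    group
  obtain ⟨l1, m1, l2, m2, h12⟩ := htwo
  have nc : ¬ Commute (x l1) (x l2) :=
    pr.ncomm l1 l2 h12 (by rw [hindf l1 m1 l2 m2 h12]; decide)
  have c1 : Commute (x l1) (x f) := (hD.two f l1 m1).symm
  have c2 : Commute (x l2) (x f) := (hD.two f l2 m2).symm
  have twoL : Two L := by
    by_contra hn
    have k1 : ∃ l, L ⊆ {l} := by
      by_cases he : ∃ l, l ∈ L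
      · obtain ⟨l, hl⟩ := he
        refine ⟨l, fun s hs => ?_⟩
        by_contra k
        exact hn ⟨s, hs, l, hl, k⟩
      · exact ⟨f', fun s hs => absurd ⟨s, hs⟩ he⟩
    obtain ⟨l, hl⟩ := k1
    have k2 : cm (x l1) (x l2) ∈ Z := Subgroup.subset_closure ⟨_, _, c1, c2, rfl⟩
    exact nc (KEY_cm_one (KEY_cyc_cm hP' hD' (cj_mono d (gp_mono x' hl) (hZL k2))))
  have dec : ∀ g, Commute g (x f) →
      ∃ v ∈ gp x' L, ∃ n ∈ gp x' (perp M' L), d⁻¹ * g * d = v * n :=
    fun g hg => (pr'.tl L L _ indL twoL (hnorm g hg)).2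
  have hc : ∀ v ∈ gp x' L, ∀ n ∈ gp x' (perp M' L), Commute v n :=
    fun v hv n hn => (hD'.perp (perp M' L) L (fun p hp l hl => hp l hl) n hn v hv).symm
  have hi : gp x' L ⊓ gp x' (perp M' L) = ⊥ := by
    have k : L ∩ perp M' L = ∅ :=
      Set.eq_empty_of_forall_notMem fun s hs => KEY_ne (hs.2 s hs.1) rfl
    rw [pr'.inter, k, gp, Set.image_empty, Subgroup.closure_empty]
  obtain ⟨v0, hv0, n0, hn0, e0⟩ := dec (x f) (Commute.refl _)
  have hn1 : n0 ≠ 1 := by
    rintro rfl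
    refine hne ((KEY_conj χ' d _).symm.trans ?_)
    rw [e0, mul_one]
    exact KEY_chi_kill hP'.fl hf' hχ' (fun k => KEY_ne (M := M') (hL k) rfl) hv0
  have hv1 : v0 = 1 := by
    by_contra hv1
    obtain ⟨v1, a1, n1, b1, e1⟩ := dec _ c1
    obtain ⟨v2, a2, n2, b2, e2⟩ := dec _ c2
    have k1 := KEY_comp hc hi a1 hv0 b1 hn0 (by rw [← e1, ← e0]; exact KEY_comm_conj d c1)
    have k2 := KEY_comp hc hi a2 hv0 b2 hn0 (by rw [← e2, ← e0]; exact KEY_comm_conj d c2)
    have k3 := (h5 S' D M' R' x' hP' L indL).cen v0 hv0 hv1 v1 a1 v2 a2 k1.1 k2.1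
    have k4 := (h5 S' D M' R' x' hP' _ (KEY_indep_perp hP'.ns twoL)).cen n0 hn0 hn1 n1 b1 n2 b2
      k1.2 k2.2
    refine nc (KEY_comm_of_conj d ?_)
    rw [e1, e2]
    exact (k3.mul_right (hc v1 a1 n2 b2)).mul_left ((hc v2 a2 n1 b1).symm.mul_right k4)
  rw [hv1, one_mul] at e0
  have hmem : x f ∈ cj d (gp x' (perp M' L)) := by
    rw [mem_cj, e0]
    exact hn0
  have hcc : ∀ y ∈ cj d (gp x' L), ∀ l ∈ cj d (gp x' (perp M' L)), Commute y l :=
    fun y hy l hl => KEY_comm_of_conj d (hc _ hy _ hl)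
  have hcyc : ∀ g ∈ cj d (gp x' (perp M' L)), Commute g (x f) → ∃ n : ℤ, g = x f ^ n := by
    intro g hg cg
    obtain ⟨n, l, hl, e⟩ := star g cg
    by_cases k0 : l = 1
    · exact ⟨n, by rw [e, k0, mul_one]⟩
    exfalso
    have hl' : l ∈ cj d (gp x' (perp M' L)) := by
      have k : l = (x f ^ n)⁻¹ * g := by rw [e]; group
      rw [k]
      exact mul_mem (inv_mem (zpow_mem hmem n)) hg
    have k1 : ∀ y ∈ cj d (gp x' L), ∃ k : ℤ, ∃ m ∈ gp x (lk M f), y = x f ^ k * m ∧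
        Commute m l := by
      intro y hy
      obtain ⟨k, m, hm, e'⟩ := star y (hcc y hy _ hmem)
      refine ⟨k, m, hm, e', ?_⟩
      have k2 : m = (x f ^ k)⁻¹ * y := by rw [e']; group
      rw [k2]
      exact ((KEY_lk_comm hD f hl).zpow_left k).inv_left.mul_left (hcc y hy l hl')
    obtain ⟨s1, t1, s2, t2, t12⟩ := twoL
    obtain ⟨k, m, hm, e1, q1⟩ := k1 _ (conj_mem_cj.2 (gp_mem x' t1))
    obtain ⟨k', m', hm', e2, q2⟩ := k1 _ (conj_mem_cj.2 (gp_mem x' t2))
    have k3 := (h5 S D M R x hP _ hindf).cen l hl k0 m hm m' hm' q1 q2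
    refine pr'.ncomm s1 s2 t12 (by rw [indL s1 t1 s2 t2 t12]; decide) (KEY_comm_of_conj d⁻¹ ?_)
    rw [inv_inv, e1, e2]
    exact (((Commute.refl _).zpow_zpow _ _).mul_right ((KEY_lk_comm hD f hm').zpow_left _)).mul_left
      (((KEY_lk_comm hD f hm).zpow_left _).symm.mul_right k3)
  refine ⟨d, L, indL, twoL, hmem, fun g hg => ?_, hcyc⟩
  obtain ⟨v, hv, n, hn, e⟩ := dec g hg
  have k1 := (KEY_comp hc hi hv (one_mem _) hn hn0
    (by rw [← e, one_mul, ← e0]; exact KEY_comm_conj d hg)).2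
  have k2 : Commute (d * n * d⁻¹) (x f) := by
    refine KEY_comm_of_conj d ?_
    rw [e0]
    convert k1 using 1
    group
  obtain ⟨k, hk⟩ := hcyc _ (conj_mem_cj.2 hn) k2
  refine ⟨k, d * v * d⁻¹, conj_mem_cj.2 hv, ?_⟩
  rw [← hk]
  calc g = d * (d⁻¹ * g * d) * d⁻¹ := by group
    _ = d * (n * v) * d⁻¹ := by rw [e, (hc v hv n hn).eq]
    _ = d * n * d⁻¹ * (d * v * d⁻¹) := by group

end Pool.Agent.Lib.MP_1b8ce0_al.T
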