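import Mathlib
import Pool.Agent.Lib.MP_1b8ce0_al.T.StsC

set_option linter.unusedSectionVars false
set_option linter.dupNamespace false

namespace Pool.Agent.Lib.MP_1b8ce0_al.T

open Pool.Agent.Lib.MP_6d85b4_al

section One

variable {S G : Type} [Group G] {M : CoxeterMatrix S} {R : Set S} {x : S → G}

theorem KEYN_ne {s t : S} (h : M s t = 2) : s ≠ t := by
  rintro rfl
  rw [M.diagonal] at h
  omega

theorem KEYN_zero (ns : NoSph M) {a b c : S} (ha : M a c = 2) (hb : M b c = 2) (h : a ≠ b) :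
    M a b = 0 := by
  have := ns a b c h (KEYN_ne hb) (KEYN_ne ha)
  rw [ha, hb] at this
  by_contra h0
  have h1 : (0 : ℚ) < 1 / (M a b : ℚ) := by positivity
  push_cast at this
  linarith

/-- the exponent sum of a free vertex -/
theorem KEYN_chi (D : D1 M R x) (fl : Flex M R) {f : S} (hf : f ∉ R) :
    ∃ χ, IsChi M x f χ ∧ χ (x f) = Multiplicative.ofAdd 1 ∧ ∀ t, t ≠ f → χ (x t) = 1 := by
  have h : ∀ t, OddConn M f t → t = f := fun t ht => by
    rcases ht.cases_head with e | ⟨u, ⟨h1, h2⟩, -⟩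
    · exact e.symm
    · rcases fl f hf u h1.symm with e | e <;> rw [e] at h2 <;> exact absurd h2 (by decide)
  obtain ⟨χ, hχ⟩ := D.chi f fun t ht => h t ht ▸ hf
  exact ⟨χ, hχ, hχ.1 f Relation.ReflTransGen.refl, fun t ht => hχ.2 t fun e => ht (h t e)⟩

theorem KEYN_tor (χ : G →* Multiplicative ℤ) {g : G} (h : g * g = 1) : χ g = 1 := by
  have := congrArg (fun z => Multiplicative.toAdd (χ z)) h
  simp only [map_mul, toAdd_mul, map_one, toAdd_one] at this
  exact Multiplicative.toAdd.injective (by rw [toAdd_one]; omega)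

theorem KEYN_ker {χ : G →* Multiplicative ℤ} {T : Set S} (h : ∀ t ∈ T, χ (x t) = 1) {d g : G}
    (hg : g ∈ cj d (gp x T)) : χ g = 1 := by
  have : χ (d⁻¹ * g * d) = 1 := (gp_le (K := χ.ker)).2 h hg
  rwa [map_mul, map_mul, mul_right_comm, ← map_mul, inv_mul_cancel, map_one, one_mul] at this

theorem KEYN_pow {χ : G →* Multiplicative ℤ} {g : G} (h : χ g = Multiplicative.ofAdd 1) {n : ℤ}
    (hn : χ (g ^ n) = 1) : n = 0 := by
  have := congrArg Multiplicative.toAdd hn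
  simpa [h] using this

theorem KEYN_comm {T : Set S} {a g : G} (h : ∀ t ∈ T, Commute a (x t)) (hg : g ∈ gp x T) :
    Commute a g :=
  (Subgroup.mem_centralizer_singleton_iff.1 ((gp_le (K := Subgroup.centralizer {a})).2
    (fun t ht => Subgroup.mem_centralizer_singleton_iff.2 (h t ht).symm) hg)).symm

theorem KEYN_star (D : D1 M R x) {f : S} {g : G} (hg : g ∈ gp x (insert f (lk M f))) :
    Commute (x f) g :=
  KEYN_comm (by
    rintro t (rfl | ht)
    exacts [Commute.refl _, D.two f t ht]) hg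

theorem KEYN_cj {a b d : G} (h : Commute (d⁻¹ * a * d) (d⁻¹ * b * d)) : Commute a b := by
  simpa [mul_assoc] using h.map (MulAut.conj d)

/-- transvections at leaves -/
theorem KEYN_trans (dy : IsDyer M R x) (D : D1 M R x) (f : S) (k : S → ℤ)
    (hk : ∀ s, k s ≠ 0 → s ∉ R ∧ M s f = 2 ∧ ∀ u, u ≠ s → u ≠ f → M s u = 0) :
    IsDyer M R fun s => x s * x f ^ k s := by
  have key : ∀ k : S → ℤ, (∀ s, k s ≠ 0 → s ∉ R ∧ M s f = 2 ∧ ∀ u, u ≠ s → u ≠ f → M s u = 0) →
      ∃ θ : G →* G, θ (x f) = x f ∧ ∀ s, θ (x s) = x s * x f ^ k s := fun k hk => by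
    have k0 : k f = 0 := by_contra fun h => KEYN_ne (hk f h).2.1 rfl
    have a2 : ∀ a b : G, alt a b 2 = a * b := fun a b => by simpa using alt_two_mul a b 1
    have br : ∀ s t, k s ≠ 0 → s ≠ t → M s t ≠ 0 →
        M s t = 2 ∧ Commute (x s * x f ^ k s) (x t * x f ^ k t) := fun s t hs hst h0 => by
      obtain rfl : t = f := by_contra fun h => h0 ((hk s hs).2.2 t hst.symm h)
      rw [k0, zpow_zero, mul_one]
      exact ⟨(hk s hs).2.1, (D.two s t (hk s hs).2.1).mul_left ((Commute.refl _).zpow_left _)⟩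
    obtain ⟨θ, hθ⟩ := dy.lift G (fun s => x s * x f ^ k s) (fun s _ t _ hst h0 => by
      by_cases hs : k s = 0
      · by_cases ht : k t = 0
        · simpa [hs, ht] using dy.braid s trivial t trivial hst h0
        · obtain ⟨e1, e2⟩ := br t s ht hst.symm (by rwa [M.symmetric])
          rw [M.symmetric, e1, a2, a2, e2.eq]
      · obtain ⟨e1, e2⟩ := br s t hs hst h0
        rw [e1, a2, a2, e2.eq]) fun s hs => by
      have : k s = 0 := by_contra fun h => (hk s h).1 hs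
      simpa [this] using dy.sqr s hs
    exact ⟨θ, by rw [hθ, k0, zpow_zero, mul_one], hθ⟩
  obtain ⟨θ, h1, h2⟩ := key k hk
  obtain ⟨θ', h3, h4⟩ := key (fun s => -k s) fun s hs => hk s (neg_ne_zero.1 hs)
  have := D.aut θ θ' (fun s => by simp [h4, h1, h2]) fun s => by simp [h2, h3, h4]
  simpa only [h2] using this

end One

theorem SYM_thm (h1 : St_D1) (h2 : St_TT) (h3 : St_RESTR) (h4 : St_DPAR) (h5 : St_FREE)
    (h6 : St_TR0) : St_SYM := by
  intro D S S' _ _ _ _ _ M R x M' R' x' dp dp' _ f L' hf two iL tL eq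
  have E := h1.2 S D M R x dp.dy
  have E' := h1.2 S' D M' R' x' dp'.dy
  obtain ⟨χ, c1, c2, -⟩ := KEYN_chi E dp.fl hf
  have m1 : x f ∈ gp x' (perp M' L') :=
    ((h5 S' D M' R' x' dp' L' iL).cent tL _).1 fun t ht =>
      KEYN_comm (fun t ht => E.two f t ht) (eq ▸ gp_mem x' ht)
  obtain ⟨u, hu, hχ⟩ : ∃ u ∈ perp M' L', χ (x' u) ≠ 1 := by
    by_contra h
    push Not at h
    have := KEYN_ker (d := 1) h (by rwa [cj_one])
    rw [c2] at this
    exact absurd this (by decide)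
  have hu' : u ∉ R' := fun h => hχ (KEYN_tor χ (dp'.dy.sqr u h))
  obtain ⟨h, hh⟩ := (h6 S D M R x dp f χ _ hf c1 hχ).1
  have iT : Indep M' (lk M' u) := fun s hs t ht =>
    KEYN_zero dp'.ns ((M'.symmetric s u).trans hs) ((M'.symmetric t u).trans ht)
  have sub : L' ⊆ lk M' u := fun t ht => hu t ht
  have tT : Two (lk M' u) := by
    obtain ⟨s, hs, t, ht, e⟩ := tL
    exact ⟨s, sub hs, t, sub ht, e⟩
  refine ⟨u, hu', Set.Subset.antisymm ((h5 S' D M' R' x' dp' _ iT).cmm h L' tT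
    fun g1 k1 g2 k2 => eq ▸ hh g1 g2 ?_ ?_).2 sub⟩
  · exact (KEYN_comm (fun t ht => E'.two u t ht) k1).symm
  · exact (KEYN_comm (fun t ht => E'.two u t ht) k2).symm

theorem KEYN_thm (h1 : St_D1) (h2 : St_TT) (h3 : St_RESTR) (h4 : St_DPAR) (h5 : St_FREE)
    (h6 : St_TR0) : St_KEYN := by
  intro D S S' _ _ _ _ _ M R x M' R' x' dp dp' mt f d L' hf _ K
  classical
  have E := h1.2 S D M R x dp.dy
  have E' := h1.2 S' D M' R' x' dp'.dy
  have Q := h4 S D M R x dp
  have Q' := h4 S' D M' R' x' dp'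
  obtain ⟨χ, c1, c2, c3⟩ := KEYN_chi E dp.fl hf
  have pl : ∀ g ∈ cj d (gp x' (perp M' L')), ∀ l ∈ cj d (gp x' L'), Commute g l :=
    fun g hg l hl => KEYN_cj (E'.perp _ _ (fun _ hp => hp) _ hg _ hl)
  have bot : ∀ n : ℤ, x f ^ n ∈ cj d (gp x' L') → n = 0 := fun n hn => by
    have m : d⁻¹ * x f ^ n * d ∈ gp x' (L' ∩ perp M' L') :=
      Q'.inter _ _ ▸ Subgroup.mem_inf.2 ⟨hn, zpow_mem K.mem n⟩
    exact KEYN_pow c2 (KEYN_ker (fun t ht => (KEYN_ne (ht.2 t ht.1) rfl).elim) m)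
  -- a vertex with a nonzero exponent is a free leaf
  have leaf : ∀ t ∈ lk M f, ∀ n : ℤ, ∀ l ∈ cj d (gp x' L'), x t = x f ^ n * l → n ≠ 0 →
      t ∉ R ∧ ∀ u, u ≠ t → u ≠ f → M t u = 0 := by
    intro t ht n l hl e hn
    have cl := pl _ K.mem l hl
    have htR : t ∉ R := fun h => by
      have s1 := dp.dy.sqr t h
      rw [e, (cl.zpow_left n).symm.mul_mul_mul_comm, ← zpow_add, mul_eq_one_iff_eq_inv] at s1
      have := bot _ (s1 ▸ inv_mem (mul_mem hl hl))
      omega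
    refine ⟨htR, fun u hut huf => (dp.fl t htR u hut).resolve_right fun m2 => ?_⟩
    have el : l = x f ^ (-n) * x t := by rw [e, zpow_neg, inv_mul_cancel_left]
    have k1 : χ l ≠ 1 := fun h => by
      rw [el, map_mul, c3 t (KEYN_ne ht).symm, mul_one] at h
      exact hn (neg_eq_zero.1 (KEYN_pow c2 h))
    have k2 : l ∈ cj 1 (gp x (insert f (lk M f))) := by
      rw [cj_one, el]
      exact mul_mem (zpow_mem (gp_mem x (Or.inl rfl)) _) (gp_mem x (Or.inr ht))
    have k3 : ∀ p ∈ perp M' L', ∃ j : ℤ, d * x' p * d⁻¹ = x f ^ j := fun p hp => by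
      have m := (conj_mem_cj (h := d)).2 (gp_mem x' hp)
      have := (h6 S D M R x dp f χ l hf c1 k1).2.1 1 k2 _ (pl _ m l hl)
      rw [cj_one] at this
      exact K.cyc _ m (KEYN_star E this).symm
    obtain ⟨p, hp, k4⟩ : ∃ p ∈ perp M' L', χ (x' p) ≠ 1 := by
      by_contra h
      push Not at h
      have := KEYN_ker h K.mem
      rw [c2] at this
      exact absurd this (by decide)
    have k5 : perp M' L' ⊆ {p} := fun q hq => by_contra fun hqp => by
      obtain ⟨l1, hl1, -⟩ := K.two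
      obtain ⟨i, ei⟩ := k3 p hp
      obtain ⟨j, ej⟩ := k3 q hq
      refine Q'.ncomm q p hqp (by rw [KEYN_zero dp'.ns (hq l1 hl1) (hp l1 hl1) hqp]; decide)
        (KEYN_cj (d := d⁻¹) ?_)
      rw [inv_inv, ei, ej]
      exact Commute.zpow_zpow_self _ _ _
    have hp' : p ∉ R' := fun h => k4 (KEYN_tor χ (dp'.dy.sqr p h))
    obtain ⟨χ', d1, d2, d3⟩ := KEYN_chi E' dp'.fl hp'
    obtain ⟨j, ej⟩ : ∃ j : ℤ, x' p ^ j = d⁻¹ * x f * d := by
      have := gp_mono x' k5 K.mem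
      rwa [gp, Set.image_singleton, Subgroup.mem_closure_singleton] at this
    have ef : x f = d * x' p ^ j * d⁻¹ := by rw [ej]; group
    have k6 : χ' (x t) ≠ 1 := fun h => by
      rw [e, map_mul, KEYN_ker (fun s hs => d3 s (KEYN_ne (hp s hs)).symm) hl, mul_one, ef,
        conj_zpow, map_mul, map_mul, map_inv, mul_inv_cancel_comm, ← zpow_mul] at h
      rw [(mul_eq_zero.1 (KEYN_pow d2 h)).resolve_right hn, zpow_zero, mul_one,
        mul_inv_cancel] at ef
      rw [ef, map_one] at c2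
      exact absurd c2 (by decide)
    have k7 : x t ∈ cj d (gp x' (insert p (lk M' p))) := by
      rw [e]
      exact mul_mem (zpow_mem (cj_mono d (gp_mono x' fun q hq => Or.inl (k5 hq)) K.mem) n)
        (cj_mono d (gp_mono x' fun s hs => Or.inr (hp s hs)) hl)
    have k8 := KEYN_star E' ((h6 S' D M' R' x' dp' p χ' _ hp' d1 k6).2.1 d k7 (x u)
      (E.two t u m2).symm)
    refine Q.ncomm f u huf.symm (by
      rw [KEYN_zero dp.ns ht ((M.symmetric u t).trans m2) huf.symm]; decide) (KEYN_cj (d := d) ?_)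
    rw [← ej]
    exact k8.zpow_left j
  have ex : ∀ t, ∃ n : ℤ, (t ∉ lk M f → n = 0) ∧
      (t ∈ lk M f → ∃ l ∈ cj d (gp x' L'), x t = x f ^ n * l) := fun t => by
    by_cases ht : t ∈ lk M f
    · obtain ⟨n, hn⟩ := K.cen _ (E.two f t ht).symm
      exact ⟨n, fun h => (h ht).elim, fun _ => hn⟩
    · exact ⟨0, fun _ => rfl, fun h => (ht h).elim⟩
  choose n n0 n1 using ex
  have hk : ∀ s, -n s ≠ 0 → s ∉ R ∧ M s f = 2 ∧ ∀ u, u ≠ s → u ≠ f → M s u = 0 := fun s hs => by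
    have h : s ∈ lk M f := by_contra fun h => hs (by rw [n0 s h, neg_zero])
    obtain ⟨l, hl, e⟩ := n1 s h
    obtain ⟨a1, a2⟩ := leaf s h _ l hl e (neg_ne_zero.1 hs)
    exact ⟨a1, (M.symmetric s f).trans h, a2⟩
  have dy : DP M R fun s => x s * x f ^ (-n s) :=
    ⟨KEYN_trans dp.dy E f _ hk, dp.fl, dp.ns⟩
  have yR : ∀ s ∈ R, x s * x f ^ (-n s) = x s := fun s hs => by
    rw [show -n s = 0 from by_contra fun h => (hk s h).1 hs, zpow_zero, mul_one]
  have yf : x f * x f ^ (-n f) = x f := by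
    rw [n0 f fun h => KEYN_ne h rfl, neg_zero, zpow_zero, mul_one]
  have le : gp (fun s => x s * x f ^ (-n s)) (lk M f) ≤ cj d (gp x' L') := gp_le.2 fun t ht => by
    obtain ⟨l, hl, e⟩ := n1 t ht
    rwa [e, ((pl _ K.mem l hl).zpow_left _).eq, zpow_neg, mul_inv_cancel_right]
  refine ⟨_, dy, ⟨fun s hs => by simp only [yR s hs]; exact mt.1 s hs, fun s' hs' => ?_⟩,
    le_antisymm le fun l hl => ?_⟩
  · obtain ⟨s, hs, e⟩ := mt.2 s' hs'
    exact ⟨s, hs, by simp only [yR s hs]; exact e⟩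
  · have Ey := h1.2 S D M R _ dy.dy
    obtain ⟨χy, y1, y2, -⟩ := KEYN_chi Ey dp.fl hf
    have m := (h6 S D M R _ dy f χy _ hf y1 (by rw [y2]; decide)).2.1 1
      (by rw [cj_one]; exact gp_mem _ (Or.inl rfl)) l (by rw [yf]; exact (pl _ K.mem l hl).symm)
    rw [cj_one] at m
    obtain ⟨k, m', hm, e⟩ := Ey.star f l m
    rw [yf] at e
    have : k = 0 := bot k (by
      rw [← mul_inv_eq_iff_eq_mul.2 e]
      exact mul_mem hl (inv_mem (le hm)))
    rwa [e, this, zpow_zero, one_mul]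

end Pool.Agent.Lib.MP_1b8ce0_al.T
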