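import Mathlib
import Pool.Agent.Lib.MP_1b8ce0_al.T.StsB

set_option linter.unusedSectionVars false
set_option linter.dupNamespace false

namespace Pool.Agent.Lib.MP_1b8ce0_al.T

open Pool.Agent.Lib.MP_6d85b4_al

section Grp

variable {G : Type} [Group G]

theorem LEVEN_slide (s t : G) (k : ℕ) : s * (t * s) ^ k = (s * t) ^ k * s := by
  induction k with
  | zero => simp
  | succ n ih => rw [pow_succ, ← mul_assoc, ih, pow_succ]; simp only [mul_assoc]

theorem LEVEN_cen {s t : G} {k : ℕ} (h : (s * t) ^ k = (t * s) ^ k) :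
    Commute s ((s * t) ^ k) ∧ Commute t ((s * t) ^ k) := by
  constructor
  · have := LEVEN_slide s t k
    rw [← h] at this
    exact this
  · have := LEVEN_slide t s k
    rw [← h] at this
    exact this

theorem LEVEN_cancel {a b : G} (h : Commute a (a * b)) : Commute a b := by
  have := (Commute.refl a).inv_right.mul_right h
  simpa using this

theorem LEVEN_unconj {c a b : G} (h : Commute (c * a * c⁻¹) (c * b * c⁻¹)) : Commute a b := by
  have := h.map (MulAut.conj c⁻¹)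
  simpa [mul_assoc] using this

theorem LEVEN_conj (c : G) {a b : G} (h : Commute a b) : Commute (c * a * c⁻¹) (c * b * c⁻¹) := by
  simpa using h.map (MulAut.conj c)

theorem LEVEN_chi (χ : G →* ℤˣ) (c g : G) : χ (c * g * c⁻¹) = χ g := by
  rw [map_mul, map_mul, mul_right_comm, ← map_mul, mul_inv_cancel, map_one, one_mul]

theorem LEVEN_chi' (χ : G →* ℤˣ) (c g : G) : χ (c⁻¹ * g * c) = χ g := by
  simpa using LEVEN_chi χ c⁻¹ g

theorem LEVEN_fin_cj (c : G) {K : Subgroup G} (h : Finite K) : Finite (cj c K) :=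
  Finite.of_injective (fun g : cj c K => (⟨c⁻¹ * g * c, g.2⟩ : K)) fun g g' e => by
    have := congrArg Subtype.val e
    exact Subtype.ext (by simpa using this)

theorem LEVEN_ind_conj (c : G) {g w : G} (h : Ind2 g w) :
    Ind2 (c⁻¹ * g * c) (c⁻¹ * w * c) := by
  intro i j e
  refine h i j ?_
  have e1 : (c⁻¹ * g * c) ^ i = c⁻¹ * g ^ i * c := by simpa using conj_zpow (a := c⁻¹) (b := g) (i := i)
  have e2 : (c⁻¹ * w * c) ^ j = c⁻¹ * w ^ j * c := by simpa using conj_zpow (a := c⁻¹) (b := w) (i := j)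
  rw [e1, e2] at e
  have : c⁻¹ * (g ^ i * w ^ j) * c = 1 := by rw [← e]; group
  have h2 : g ^ i * w ^ j = c * (c⁻¹ * (g ^ i * w ^ j) * c) * c⁻¹ := by group
  rw [h2, this]
  simp

theorem LEVEN_unit {x : ℤˣ} {l : ℕ} (h : x ^ l = -1) : x = -1 ∧ Odd l := by
  rcases Int.units_eq_one_or x with rfl | rfl
  · rw [one_pow] at h
    exact absurd h (by decide)
  · refine ⟨rfl, Nat.not_even_iff_odd.1 fun e => ?_⟩
    rw [e.neg_one_pow] at h
    exact absurd h (by decide)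

end Grp

variable {B : Type} [Fintype B] [DecidableEq B] {N : CoxeterMatrix B}

theorem LEVEN_flip (A : CA N) {r : N.Group} {a : B → ℝ} (h : ReflOf N r a) :
    rho N r a = -a := by
  rw [A.a0.refl_eq r a h, A.a0.root_norm a (A.a0.refl_isRoot r a h), mul_one, two_smul]
  abel

theorem LEVEN_cross (A : CA N) (c : N.Group) {i j : B} (hij : i ≠ j) (h0 : N i j ≠ 0) :
    Cross N (rho N c (al i)) (rho N c (al j)) := by
  have hi := A.a0.refl_conj c _ _ (A.a0.root_al i).2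
  have hj := A.a0.refl_conj c _ _ (A.a0.root_al j).2
  refine (A.t1.cross_iff _ _ _ _ hi hj ?_ ?_).2 ?_
  · intro e
    have := congrArg (rho N c⁻¹) e
    rw [rho_inv, rho_inv] at this
    exact hij (al_inj this).symm
  · intro e
    have := congrArg (rho N c⁻¹) e
    rw [map_neg, rho_inv, rho_inv] at this
    have h2 := congrFun this j
    rw [al_self, Pi.neg_apply, al_ne hij.symm] at h2
    norm_num at h2
  · have e : c * sr N i * c⁻¹ * (c * sr N j * c⁻¹) = c * (sr N i * sr N j) * c⁻¹ := by group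
    rw [e]
    have : IsOfFinOrder (sr N i * sr N j) := by
      rw [← orderOf_ne_zero_iff, A.c0.ord]
      exact h0
    exact (MulAut.conj c).toMonoidHom.isOfFinOrder this

/-- the product maps to an element of finite order -/
theorem LEVEN_tors (A : CA N) {G : Type} [Group G] {ψ : G →* N.Group} {ν : NData N ψ}
    (F : NF ν) {s t : G} {k : ℕ} (χ : N.Group →* ℤˣ) (hk : 0 < k)
    (hz : (s * t) ^ k = (t * s) ^ k) (hχ : χ (ψ (s * t)) = -1) (hf : IsOfFinOrder (ψ (s * t))) :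
    Finite (Subgroup.closure {ψ s, ψ t}) ∨ Commute (ψ s) (ψ t) := by
  obtain ⟨cs, ct⟩ := LEVEN_cen hz
  have hm : ψ (s * t) ∈ Subgroup.closure {ψ s, ψ t} := by
    rw [map_mul]
    exact Subgroup.mul_mem _ (Subgroup.subset_closure (by simp)) (Subgroup.subset_closure (by simp))
  rcases A.t1.tors _ hf with h | ⟨a, h⟩ | ⟨c, i, j, l, hij, h0, e, -⟩
  · rw [h, map_one] at hχ
    exact absurd hχ (by decide)
  · refine (F.fix1 s t (s * t) _ a k hk cs ct hm h (LEVEN_flip A h)).imp_right fun h' => ?_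
    have := h'.1
    rw [map_mul] at this
    exact LEVEN_cancel this
  · left
    rw [e, LEVEN_chi, map_pow] at hχ
    obtain ⟨h1, l', hl⟩ := LEVEN_unit hχ
    have hp : (sr N i * sr N j) ^ N i j = 1 := by rw [← A.c0.ord, pow_orderOf_eq_one]
    have hev : Even (N i j) := by
      refine Nat.not_odd_iff_even.1 fun ho => ?_
      have := congrArg χ hp
      rw [map_pow, h1, ho.neg_one_pow, map_one] at this
      exact absurd this (by decide)
    obtain ⟨m, hm2⟩ := hev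
    have hm3 : N i j = 2 * m := by omega
    have hm0 : 0 < m := by omega
    have hg : ψ ((s * t) ^ m) = c * (sr N i * sr N j) ^ m * c⁻¹ := by
      rw [map_pow, e, conj_pow, ← pow_mul, hl]
      have : (2 * l' + 1) * m = N i j * l' + m := by rw [hm3]; ring
      rw [this, pow_add, pow_mul, hp, one_pow, one_mul]
    have hh := (A.c0.half i j m hij hm0 hm3).1
    have hc : ∀ x : G, Commute x ((s * t) ^ k) → Commute x (((s * t) ^ m) ^ k) := fun x hx => by
      rw [← pow_mul, mul_comm, pow_mul]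
      exact hx.pow_right m
    refine F.fix2 s t ((s * t) ^ m) _ _ k hk (hc s cs) (hc t ct) (LEVEN_cross A c hij h0) ?_ ?_
    · rw [hg, rho_mul, rho_mul, rho_inv, hh, map_neg]
      intro x hx
      exact al_ne fun e' => hx (by simp [e'])
    · rw [hg, rho_mul, rho_mul, rho_inv, hh, map_neg]
      intro x hx
      exact al_ne fun e' => hx (by simp [e'])

/-- case A with a product structure -/
theorem LEVEN_prod (A : CA N) (hN : NoSph N) (h0 : St_FREE) (h1 : St_SAC) {G : Type} [Group G]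
    {ψ : G →* N.Group} {ν : NData N ψ} (F : NF ν) {s t : G} {k : ℕ} (hk : 0 < k)
    (hz : (s * t) ^ k = (t * s) ^ k) (hw : ¬ IsOfFinOrder (ψ ((s * t) ^ k)))
    (hA : CaseA N (ψ ((s * t) ^ k))) {c : N.Group} {P L : Set B}
    (hP : ProdA N (ψ ((s * t) ^ k)) c P L) :
    Finite (Subgroup.closure {ψ s, ψ t}) ∨ Commute (ψ s) (ψ t) := by
  obtain ⟨cs, ct⟩ := LEVEN_cen hz
  have hm : ψ (s * t) ∈ Subgroup.closure {ψ s, ψ t} := by
    rw [map_mul]
    exact Subgroup.mul_mem _ (Subgroup.subset_closure (by simp)) (Subgroup.subset_closure (by simp))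
  obtain ⟨-, iL, -, pc, tw⟩ := h1 B N hN _ c P L hw hA hP
  obtain ⟨aP, haP, aL, haL, ea⟩ := hP.cen _ (cs.map ψ)
  obtain ⟨bP, hbP, bL, hbL, eb⟩ := hP.cen _ (ct.map ψ)
  have pf := A.b0.perp_fix P L hP.two
  have cP : Commute aP bP := pc aP haP aL haL bP hbP bL hbL (ea ▸ cs.map ψ) (eb ▸ ct.map ψ)
  have fin : Commute aL bL → Commute (ψ s) (ψ t) := fun cL => by
    rw [ea, eb]
    exact LEVEN_conj c ((cP.mul_right ((pf aP haP).2 bL hbL)).mul_left
      (((pf bP hbP).2 aL haL).symm.mul_right cL))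
  have hPP : aP * bP ∈ par N P := Subgroup.mul_mem _ haP hbP
  have hLL : aL * bL ∈ par N L := Subgroup.mul_mem _ haL hbL
  have eu : ψ (s * t) = c * (aP * bP * (aL * bL)) * c⁻¹ := by
    rw [map_mul, ea, eb]
    have := ((pf bP hbP).2 aL haL).eq
    calc c * (aP * aL) * c⁻¹ * (c * (bP * bL) * c⁻¹) = c * (aP * (aL * bP) * bL) * c⁻¹ := by group
      _ = _ := by rw [← this]; group
  have ew : ψ ((s * t) ^ k) = c * ((aP * bP) ^ k * (aL * bL) ^ k) * c⁻¹ := by
    rw [map_pow, eu, conj_pow, ((pf _ hPP).2 _ hLL).mul_pow]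
  have hsq := tw _ (Subgroup.pow_mem _ hPP k) _ (Subgroup.pow_mem _ hLL k) ew
  have hfo : IsOfFinOrder (aL * bL) :=
    isOfFinOrder_iff_pow_eq_one.2 ⟨k + k, by omega, by rw [pow_add, hsq]⟩
  have dp : DP N Set.univ (sr N) := ⟨A.b0.dyer, fun x hx => absurd trivial hx, hN⟩
  rcases (h0 B N.Group N Set.univ (sr N) dp L iL).tor _ hLL hfo with e | ⟨l, hl, -, v, hv, e⟩
  · right
    refine fin (LEVEN_cancel ?_)
    rw [e]
    exact Commute.one_right _
  · have hr0 : ReflOf N (aL * bL) (rho N v (al l)) := ⟨v, l, rfl, e⟩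
    have hs : Supp L (rho N v (al l)) :=
      A.b0.supp_par L v _ hv fun x hx => al_ne fun e' => hx (e' ▸ hl)
    have hr := A.a0.refl_conj c _ _ hr0
    have hfl : rho N (ψ (s * t)) (rho N c (rho N v (al l))) = -rho N c (rho N v (al l)) := by
      rw [eu, rho_mul, rho_inv, rho_mul, rho_mul N (aP * bP), LEVEN_flip A hr0, map_neg,
        (pf _ hPP).1 _ hs, map_neg]
    refine (F.fix1 s t (s * t) _ _ k hk cs ct hm hr hfl).imp_right fun h' => fin ?_
    have c1 := h'.1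
    rw [ea] at c1
    have c2 := ((pf aP haP).2 _ hLL).inv_left.mul_left (LEVEN_unconj c1)
    rw [inv_mul_cancel_left] at c2
    exact LEVEN_cancel c2

theorem LEVEN_ker {c : N.Group} {T : Set B} (χ : N.Group →* ℤˣ) (h : ∀ i ∈ T, χ (sr N i) = 1)
    {g : N.Group} (hg : g ∈ cj c (par N T)) : χ g = 1 := by
  have : par N T ≤ χ.ker := gp_le.2 h
  rw [← LEVEN_chi' χ c]
  exact this hg

theorem LEVEN_three (A : CA N) (χ : N.Group →* ℤˣ) {i j : B} (h : N i j = 3) :
    χ (sr N j) = χ (sr N i) := by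
  have hp : (sr N i * sr N j) ^ 3 = 1 := by rw [← h, ← A.c0.ord, pow_orderOf_eq_one]
  have := congrArg χ hp
  rw [map_pow, map_mul, map_one] at this
  rcases Int.units_eq_one_or (χ (sr N i)) with e | e <;>
    rcases Int.units_eq_one_or (χ (sr N j)) with e' | e' <;> rw [e, e'] at this ⊢ <;>
    exact absurd this (by decide)

theorem LEVEN_333 (A : CA N) {c a b : N.Group} {i j l : B} (χ1 χ2 : N.Group →* ℤˣ)
    (hij : N i j = 3) (hil : N i l = 3) (ha : a ∈ cj c (par N {i, j, l}))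
    (hb : b ∈ cj c (par N {i, j, l})) (h1 : χ1 a = -1) (h2 : χ2 a = 1) (h3 : χ2 b = -1) :
    False := by
  have key : ∀ (χ : N.Group →* ℤˣ) g, g ∈ cj c (par N {i, j, l}) → χ g = -1 →
      χ (sr N i) = -1 := fun χ g hg e => by
    refine (Int.units_eq_one_or _).resolve_left fun e1 => ?_
    have : χ g = 1 := LEVEN_ker χ (fun x hx => by
      rcases hx with rfl | rfl | rfl
      · exact e1
      · rw [LEVEN_three A χ hij, e1]
      · rw [LEVEN_three A χ hil, e1]) hg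
    rw [this] at e
    exact absurd e (by decide)
  have := key (χ1 * χ2) a ha (by rw [MonoidHom.mul_apply, h1, h2, mul_one])
  rw [MonoidHom.mul_apply, key χ1 a ha h1, key χ2 b hb h3] at this
  exact absurd this (by decide)

/-- case B with one generator inside the commutative part and the other outside -/
theorem LEVEN_mixed (A : CA N) (hN : NoSph N) (h3 : St_CB) (h5 : St_FJ) (h6 : St_FT) (h7 : St_FA)
    (h8 : St_EUC) (h9 : St_G2) (h10 : St_LFLAT) {G : Type} [Group G] {ψ : G →* N.Group}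
    (ν : NData N ψ) {s t : G} {k : ℕ} (χ1 χ2 : N.Group →* ℤˣ) (hk : 0 < k)
    (hz : (s * t) ^ k = (t * s) ^ k) (e1 : χ1 (ψ s) = -1) (e2 : χ2 (ψ s) = 1)
    (e3 : χ2 (ψ t) = -1) {w : N.Group} (ew : w = ψ ((s * t) ^ k)) (hw : ¬ IsOfFinOrder w)
    {a1 a2 : B → ℝ} (E1 : Ess N w a1) (E2 : Ess N w a2) (hc : Cross N a1 a2)
    {K : Subgroup N.Group} (wK : w ∈ K) (cK : IsComm K)
    (oK : ∀ g h, Commute g w → Commute h w → g ∉ K → h ∉ K → g * h ∈ K)
    (nK : ∀ g, Commute g w → Nrm g K) (ha : ψ s ∈ K) (hb : ψ t ∉ K) :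
    Commute (ψ s) (ψ t) ∨ (Even k ∧ Exo N (ψ s) (ψ t)) := by
  obtain ⟨cs, ct⟩ := LEVEN_cen hz
  have ca : Commute (ψ s) w := ew ▸ cs.map ψ
  have cb : Commute (ψ t) w := ew ▸ ct.map ψ
  refine or_iff_not_imp_left.2 fun nc => ⟨?_, ?_⟩
  · refine Nat.not_odd_iff_even.1 fun ⟨j, hj⟩ => ?_
    have hu : ψ s * ψ t ∉ K := fun h => hb ((K.mul_mem_cancel_left ha).1 h)
    have h2 := K.pow_mem (oK _ _ (ca.mul_left cb) (ca.mul_left cb) hu hu) j
    rw [ew, map_pow, map_mul, hj, pow_succ, pow_mul, pow_two] at wK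
    exact hu ((K.mul_mem_cancel_left h2).1 wK)
  have np : ∀ n : ℕ, 0 < n → ¬ Commute (ψ t) (ψ s ^ n) := fun n hn h => by
    have hK : ψ t * ψ s * (ψ t)⁻¹ ∈ K := (nK _ cb _).1 ha
    have := (h3 B N hN).2 w _ (ψ s) n hw ((cb.mul_left ca).mul_left cb.inv_left) ca
      (cK _ hK _ ha) hn (by rw [conj_pow, h.eq, mul_inv_cancel_right]) (LEVEN_chi _ _ _)
    exact nc (mul_inv_eq_iff_eq_mul.1 this).symm
  have ind : Ind2 (ψ s) w := fun i j e => by
    have hi : i = 0 := by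
      by_contra hi
      have c1 : Commute (ψ t) (ψ s ^ i) := by
        rw [eq_inv_of_mul_eq_one_left e]
        exact (cb.zpow_right j).inv_right
      refine np i.natAbs (Int.natAbs_pos.2 hi) ?_
      rcases Int.natAbs_eq i with h | h
      · rwa [h, zpow_natCast] at c1
      · rw [h, zpow_neg, zpow_natCast] at c1
        simpa using c1.inv_right
    refine ⟨hi, ?_⟩
    rw [hi, zpow_zero, one_mul] at e
    by_contra hj
    exact hw (isOfFinOrder_iff_zpow_eq_one.2 ⟨j, hj, e⟩)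
  obtain ⟨x, y, z, tr⟩ := h5 B N hN K w (ψ s) (ψ t) a1 a2 cK wK ha ind E1 E2 hc (nK _ cb) cb np
  obtain ⟨c, i, j, l, t0, k1, k2, k3⟩ := h6 B N hN K w (ψ s) x y z cK wK ha ind tr
  obtain ⟨hin, h, hh, hf, p, q, r1, r2, n1, n2, s1, s2, f1, f2⟩ :=
    h7 B N hN K w (ψ s) c i j l cK wK ha ind t0 k1 k2 k3
  have ia := hin _ (nK _ ca)
  have ib := hin _ (nK _ cb)
  have iw := hin _ (nK _ (Commute.refl w))
  rcases h8 B N hN i j l h p q t0 hh hf r1 r2 n1 n2 s1 s2 f1 f2 with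
    ⟨u1, -, u3⟩ | ⟨i', j', l', e, u | u⟩
  · exact (LEVEN_333 A χ1 χ2 u1 u3 ia ib e1 e2 e3).elim
  · rw [← e] at ia ib
    exact ⟨c, i', j', l', h10 B N G ψ ν hN s t k c i' j' l' hk hz u ia ib nc (ew ▸ ind) ⟨χ1, e1⟩⟩
  · rw [← e] at ia iw
    have c1 := LEVEN_conj c⁻¹ ca
    rw [inv_inv] at c1
    have := h9 B N i' j' l' u _ ia _ iw c1 (LEVEN_ind_conj c ind) χ1
    rw [LEVEN_chi', e1] at this
    exact absurd this (by decide)

theorem LEVEN_thm (hA : St_CA) (h0 : St_FREE) (h1 : St_SAC) (h2 : St_SA) (h3 : St_CB)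
    (h4 : St_NF) (h5 : St_FJ) (h6 : St_FT) (h7 : St_FA) (h8 : St_EUC) (h9 : St_G2)
    (h10 : St_LFLAT) : St_LEVEN := by
  intro B _ _ N G _ ψ ν hN s t k χ1 χ2 hk hz x1 x2 y1 y2
  have A := hA B N hN
  have F := h4 B N G ψ ν hN
  obtain ⟨cs, ct⟩ := LEVEN_cen hz
  have ca := cs.map ψ
  have cb := ct.map ψ
  by_cases hw : IsOfFinOrder (ψ ((s * t) ^ k))
  · rw [map_pow] at hw
    refine (LEVEN_tors A F χ1 hk hz ?_ (hw.of_pow hk.ne')).imp_right Or.inl
    rw [map_mul, map_mul, x1, x2, mul_one]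
  by_cases hc : CaseA N (ψ ((s * t) ^ k))
  · by_cases hp : ∃ d, IsRoot N d ∧ Per N (ψ ((s * t) ^ k)) d
    · obtain ⟨c, P, L, hP⟩ := h2 B N hN _ hw hc hp
      exact (LEVEN_prod A hN h0 h1 F hk hz hw hc hP).imp_right Or.inl
    · exact Or.inr (Or.inl (A.b2.a0 _ hw hc (fun a ha h => hp ⟨a, ha, h⟩) _ _ ca cb))
  right
  simp only [CaseA, not_forall, not_not] at hc
  obtain ⟨a1, a2, E1, E2, hc⟩ := hc
  obtain ⟨K, wK, cK, oK, nK⟩ := (h3 B N hN).1 _ a1 a2 E1 E2 hc
  by_cases ha : ψ s ∈ K <;> by_cases hb : ψ t ∈ K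
  · exact Or.inl (cK _ ha _ hb)
  · exact (LEVEN_mixed A hN h3 h5 h6 h7 h8 h9 h10 ν χ1 χ2 hk hz x1 y1 y2 rfl hw E1 E2 hc wK cK oK
      nK ha hb).imp_right fun h => ⟨h.1, Or.inl h.2⟩
  · exact (LEVEN_mixed A hN h3 h5 h6 h7 h8 h9 h10 ν χ2 χ1 hk hz.symm y2 x2 x1 (congrArg ψ hz) hw
      E1 E2 hc wK cK oK nK hb ha).imp Commute.symm fun h => ⟨h.1, Or.inr h.2⟩
  · left
    refine (h3 B N hN).2 _ _ _ k hw (ca.mul_left cb) (cb.mul_left ca)
      (cK _ (oK _ _ ca cb ha hb) _ (oK _ _ cb ca hb ha)) hk ?_ ?_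
    · rw [← map_mul, ← map_mul, ← map_pow, ← map_pow, hz]
    · rw [map_mul, map_mul, mul_comm]

end Pool.Agent.Lib.MP_1b8ce0_al.T
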