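import Mathlib
import Pool.Agent.Lib.MP_1b8ce0_al.T.StsB

set_option linter.unusedSectionVars false
set_option linter.dupNamespace false

namespace Pool.Agent.Lib.MP_1b8ce0_al.T

open Pool.Agent.Lib.MP_6d85b4_al

/-! ### affine maps of the lattice -/

theorem LFLAT_dd {f g : Equiv.Perm (ℤ × ℤ)} {e1 e2 p q d1 d2 p' q' : ℤ} (hf : Diag f e1 e2 p q)
    (hg : Diag g d1 d2 p' q') :
    Diag (f * g) (e1 * d1) (e2 * d2) (e1 * p' + p) (e2 * q' + q) := by
  intro X Y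
  rw [Equiv.Perm.mul_apply, hg, hf]
  ext <;> simp only <;> ring

theorem LFLAT_ds {f g : Equiv.Perm (ℤ × ℤ)} {e1 e2 p q d1 d2 p' q' : ℤ} (hf : Diag f e1 e2 p q)
    (hg : Swp g d1 d2 p' q') :
    Swp (f * g) (e1 * d1) (e2 * d2) (e1 * p' + p) (e2 * q' + q) := by
  intro X Y
  rw [Equiv.Perm.mul_apply, hg, hf]
  ext <;> simp only <;> ring

theorem LFLAT_sd {f g : Equiv.Perm (ℤ × ℤ)} {e1 e2 p q d1 d2 p' q' : ℤ} (hf : Swp f e1 e2 p q)
    (hg : Diag g d1 d2 p' q') :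
    Swp (f * g) (e1 * d2) (e2 * d1) (e1 * q' + p) (e2 * p' + q) := by
  intro X Y
  rw [Equiv.Perm.mul_apply, hg, hf]
  ext <;> simp only <;> ring

theorem LFLAT_ss {f g : Equiv.Perm (ℤ × ℤ)} {e1 e2 p q d1 d2 p' q' : ℤ} (hf : Swp f e1 e2 p q)
    (hg : Swp g d1 d2 p' q') :
    Diag (f * g) (e1 * d2) (e2 * d1) (e1 * q' + p) (e2 * p' + q) := by
  intro X Y
  rw [Equiv.Perm.mul_apply, hg, hf]
  ext <;> simp only <;> ring

theorem LFLAT_dext {f g : Equiv.Perm (ℤ × ℤ)} {e1 e2 p q d1 d2 p' q' : ℤ} (hf : Diag f e1 e2 p q)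
    (hg : Diag g d1 d2 p' q') (h1 : e1 = d1) (h2 : e2 = d2) (h3 : p = p') (h4 : q = q') :
    f = g := by
  subst h1 h2 h3 h4
  exact Equiv.ext fun z => (hf z.1 z.2).trans (hg z.1 z.2).symm

theorem LFLAT_sext {f g : Equiv.Perm (ℤ × ℤ)} {e1 e2 p q d1 d2 p' q' : ℤ} (hf : Swp f e1 e2 p q)
    (hg : Swp g d1 d2 p' q') (h1 : e1 = d1) (h2 : e2 = d2) (h3 : p = p') (h4 : q = q') :
    f = g := by
  subst h1 h2 h3 h4
  exact Equiv.ext fun z => (hf z.1 z.2).trans (hg z.1 z.2).symm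

theorem LFLAT_duniq {f : Equiv.Perm (ℤ × ℤ)} {e1 e2 p q d1 d2 p' q' : ℤ} (hf : Diag f e1 e2 p q)
    (hg : Diag f d1 d2 p' q') : e1 = d1 ∧ e2 = d2 ∧ p = p' ∧ q = q' := by
  have h0 := (hf 0 0).symm.trans (hg 0 0)
  have h1 := (hf 1 1).symm.trans (hg 1 1)
  simp only [Prod.mk.injEq] at h0 h1
  omega

theorem LFLAT_suniq {f : Equiv.Perm (ℤ × ℤ)} {e1 e2 p q d1 d2 p' q' : ℤ} (hf : Swp f e1 e2 p q)
    (hg : Swp f d1 d2 p' q') : e1 = d1 ∧ e2 = d2 ∧ p = p' ∧ q = q' := by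
  have h0 := (hf 0 0).symm.trans (hg 0 0)
  have h1 := (hf 1 1).symm.trans (hg 1 1)
  simp only [Prod.mk.injEq] at h0 h1
  omega

/-- a diagonal map that commutes with a translation fixes its vector -/
theorem LFLAT_dcomm {f g : Equiv.Perm (ℤ × ℤ)} {e1 e2 p q x y : ℤ} (hf : Diag f e1 e2 p q)
    (hg : Diag g 1 1 x y) (h : f * g = g * f) : e1 * x = x ∧ e2 * y = y := by
  have h1 := LFLAT_dd hf hg
  have h2 := LFLAT_dd hg hf
  rw [← h] at h2
  obtain ⟨-, -, h3, h4⟩ := LFLAT_duniq h1 h2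
  constructor <;> linarith

theorem LFLAT_scomm {f g : Equiv.Perm (ℤ × ℤ)} {e1 e2 p q x y : ℤ} (hf : Swp f e1 e2 p q)
    (hg : Diag g 1 1 x y) (h : f * g = g * f) : e1 * y = x ∧ e2 * x = y := by
  have h1 := LFLAT_sd hf hg
  have h2 := LFLAT_ds hg hf
  rw [← h] at h2
  obtain ⟨-, -, h3, h4⟩ := LFLAT_suniq h1 h2
  constructor <;> linarith

theorem LFLAT_four {f : Equiv.Perm (ℤ × ℤ)} {e1 e2 p q : ℤ} (h1 : e1 = 1 ∨ e1 = -1)
    (h2 : e2 = 1 ∨ e2 = -1) (hf : Diag f e1 e2 p q ∨ Swp f e1 e2 p q) :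
    ∃ x y, Diag (f ^ 4) 1 1 x y := by
  have e4 : f ^ 4 = (f * f) * (f * f) := by
    rw [show (4 : ℕ) = 2 + 2 from rfl, pow_add, pow_two]
  rw [e4]
  rcases hf with hf | hf
  · have h := LFLAT_dd (LFLAT_dd hf hf) (LFLAT_dd hf hf)
    have a1 : e1 * e1 * (e1 * e1) = 1 := by rcases h1 with rfl | rfl <;> norm_num
    have a2 : e2 * e2 * (e2 * e2) = 1 := by rcases h2 with rfl | rfl <;> norm_num
    rw [a1, a2] at h
    exact ⟨_, _, h⟩
  · have h := LFLAT_dd (LFLAT_ss hf hf) (LFLAT_ss hf hf)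
    have a1 : e1 * e2 * (e1 * e2) = 1 := by
      rcases h1 with rfl | rfl <;> rcases h2 with rfl | rfl <;> norm_num
    have a2 : e2 * e1 * (e2 * e1) = 1 := by
      rcases h1 with rfl | rfl <;> rcases h2 with rfl | rfl <;> norm_num
    rw [a1, a2] at h
    exact ⟨_, _, h⟩

theorem LFLAT_zpow {f : Equiv.Perm (ℤ × ℤ)} {x y : ℤ} (hf : Diag f 1 1 x y) (n : ℤ) :
    Diag (f ^ n) 1 1 (n * x) (n * y) := by
  have hi : Diag f⁻¹ 1 1 (-x) (-y) := by
    intro X Y
    rw [Equiv.Perm.inv_eq_iff_eq, hf]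
    ext <;> simp only <;> ring
  induction n using Int.induction_on with
  | zero =>
    intro X Y
    simp
  | succ n ih =>
    have := LFLAT_dd ih hf
    rw [← zpow_add_one] at this
    convert this using 1 <;> ring
  | pred n ih =>
    have := LFLAT_dd ih hi
    rw [← zpow_sub_one] at this
    convert this using 1 <;> ring

theorem LFLAT_one : Diag (1 : Equiv.Perm (ℤ × ℤ)) 1 1 0 0 := by
  intro X Y
  simp

/-- independent elements give independent translation vectors -/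
theorem LFLAT_det {f g : Equiv.Perm (ℤ × ℤ)} {x1 y1 x2 y2 : ℤ} (hf : Diag (f ^ 4) 1 1 x1 y1)
    (hg : Diag (g ^ 4) 1 1 x2 y2) (h : Ind2 f g) : x1 * y2 - x2 * y1 ≠ 0 := by
  intro hd
  have key : ∀ m n : ℤ, m * x1 + n * x2 = 0 → m * y1 + n * y2 = 0 → m = 0 ∧ n = 0 := by
    intro m n a1 a2
    have h1 := LFLAT_dd (LFLAT_zpow hf m) (LFLAT_zpow hg n)
    have h2 : (f ^ 4) ^ m * (g ^ 4) ^ n = 1 :=
      LFLAT_dext h1 LFLAT_one (by ring) (by ring) (by linarith) (by linarith)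
    rw [← zpow_natCast, ← zpow_natCast, ← zpow_mul, ← zpow_mul] at h2
    obtain ⟨b1, b2⟩ := h _ _ h2
    push_cast at b1 b2
    omega
  obtain ⟨c1, c2⟩ := key x2 (-x1) (by ring) (by linarith)
  obtain ⟨c3, c4⟩ := key y2 (-y1) (by linarith) (by ring)
  have c5 : x1 = 0 := by omega
  have c6 : y1 = 0 := by omega
  have := (key 1 0 (by rw [c5]; ring) (by rw [c6]; ring)).1
  omega

/-! ### glide reflections flip the root of their mirror -/

section Cox

variable {B : Type} [Fintype B] [DecidableEq B] {N : CoxeterMatrix B}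

theorem LFLAT_fix (h : C0a N) {r r1 : N.Group} {a : B → ℝ} (hr : ReflOf N r a)
    (h1 : IsRefl N r1) (hc : Commute r1 r) (hne : r1 ≠ r) : rho N r1 a = a := by
  rcases (h.refl_comm r1 r a hr).1 hc with e | e
  · exact e
  · exfalso
    obtain ⟨b, hb⟩ := h1
    rw [h.refl_eq r1 b hb a] at e
    have e2 : a = Bf N b a • b := by
      have : (2 : ℝ) • a = (2 : ℝ) • (Bf N b a • b) := by
        rw [smul_smul, two_smul]
        linear_combination (exp := 1) e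
      exact smul_right_injective _ (two_ne_zero) this
    have ha := h.refl_isRoot r a hr
    have hb' := h.refl_isRoot r1 b hb
    rcases h.root_smul b (Bf N b a) hb' (e2 ▸ ha) with t | t
    · rw [t, one_smul] at e2
      exact hne (h.refl_uniq r1 r b hb (e2 ▸ hr))
    · rw [t, neg_one_smul] at e2
      exact hne (h.refl_uniq r1 r (-b) (h.refl_neg r1 b hb) (e2 ▸ hr))

theorem LFLAT_flip (h : C0a N) {r r1 r2 : N.Group} {a : B → ℝ} (hr : ReflOf N r a)
    (h1 : IsRefl N r1) (h2 : IsRefl N r2) (c1 : Commute r1 r) (c2 : Commute r2 r) (n1 : r1 ≠ r)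
    (n2 : r2 ≠ r) : rho N (r1 * r2 * r) a = -a := by
  have e : rho N r a = -a := by
    rw [h.refl_eq r a hr a, h.root_norm a (h.refl_isRoot r a hr), mul_one, two_smul]
    abel
  rw [rho_mul, e, map_neg, rho_mul, LFLAT_fix h hr h2 c2 n2, LFLAT_fix h hr h1 c1 n1]

end Cox

theorem LFLAT_thm (hA : St_CA) (h1 : St_MODEL) (h2 : St_NF) : St_LFLAT := by
  intro B _ _ N G _ ψ ν ns s t k c i j l hk hst htri hs ht hnc hind hχ
  have C := (hA B N ns).a0
  have F := h2 B N G ψ ν ns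
  obtain ⟨⟨μ, hμ⟩, hM⟩ := h1 B N i j l htri
  have M := hM μ hμ
  rw [mem_cj] at hs ht
  set a : par N {i, j, l} := ⟨c⁻¹ * ψ s * c, hs⟩ with ha
  set b : par N {i, j, l} := ⟨c⁻¹ * ψ t * c, ht⟩ with hb
  have ea : ψ s = c * (a : N.Group) * c⁻¹ := by simp [ha, mul_assoc]
  have eb : ψ t = c * (b : N.Group) * c⁻¹ := by simp [hb, mul_assoc]
  have cs : Commute s ((s * t) ^ k) := by
    have : s * (t * s) ^ k = (s * t) ^ k * s := (mul_pow_mul s t k).symm
    rw [Commute, SemiconjBy, ← this, hst]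
  have ct : Commute t ((s * t) ^ k) := by
    have : t * (s * t) ^ k = (t * s) ^ k * t := (mul_pow_mul t s k).symm
    rw [Commute, SemiconjBy, this, hst]
  -- transport along conjugation
  let κ : par N {i, j, l} →* N.Group :=
    (MulAut.conj c).toMonoidHom.comp (par N {i, j, l}).subtype
  have κa : ∀ g : par N {i, j, l}, κ g = c * (g : N.Group) * c⁻¹ := fun g => rfl
  have κinj : Function.Injective κ := fun g g' e =>
    Subtype.ext ((MulAut.conj c).injective e)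
  have ka : κ a = ψ s := ea.symm
  have kb : κ b = ψ t := eb.symm
  have kw : κ ((a * b) ^ k) = ψ ((s * t) ^ k) := by rw [map_pow, map_mul, ka, kb, map_pow, map_mul]
  have caw : Commute a ((a * b) ^ k) := by
    apply κinj
    rw [map_mul, map_mul, ka, kw]
    exact (cs.map ψ).eq
  have cbw : Commute b ((a * b) ^ k) := by
    apply κinj
    rw [map_mul, map_mul, kb, kw]
    exact (ct.map ψ).eq
  have ncab : μ a * μ b ≠ μ b * μ a := by
    intro e
    rw [← map_mul, ← map_mul] at e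
    apply hnc
    rw [← ka, ← kb]
    exact Commute.map (hμ.inj e) κ
  have ind : Ind2 (μ a) (μ ((a * b) ^ k)) := by
    intro m n e
    rw [← map_zpow, ← map_zpow, ← map_mul, ← map_one μ] at e
    apply hind
    rw [← ka, ← kw, ← map_zpow, ← map_zpow, ← map_mul, hμ.inj e, map_one]
  -- the glide argument
  have glide : ∀ r r1 r2 : par N {i, j, l}, IsRefl N r → IsRefl N r1 → IsRefl N r2 →
      μ r1 * μ r = μ r * μ r1 → μ r2 * μ r = μ r * μ r2 → μ r1 ≠ μ r → μ r2 ≠ μ r →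
      μ a * μ b = μ r1 * μ r2 * μ r → μ r * μ a = μ a * μ r := by
    intro r r1 r2 hr hr1 hr2 c1 c2 n1 n2 e
    obtain ⟨α, hα⟩ := hr
    rw [← map_mul, ← map_mul] at c1 c2
    rw [← map_mul, ← map_mul, ← map_mul] at e
    have c1' : Commute (r1 : N.Group) r := congrArg Subtype.val (hμ.inj c1)
    have c2' : Commute (r2 : N.Group) r := congrArg Subtype.val (hμ.inj c2)
    have fl := LFLAT_flip C hα hr1 hr2 c1' c2' (fun e => n1 (congrArg μ (Subtype.ext e)))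
      (fun e => n2 (congrArg μ (Subtype.ext e)))
    have e2 : ψ (s * t) = c * ((r1 : N.Group) * r2 * r) * c⁻¹ := by
      rw [map_mul, ← ka, ← kb, ← map_mul, hμ.inj e]
      rfl
    have fl2 : rho N (ψ (s * t)) (rho N c α) = -rho N c α := by
      rw [e2, rho_mul, rho_inv, rho_mul, fl, map_neg]
    have mem : ψ (s * t) ∈ Subgroup.closure {ψ s, ψ t} := by
      rw [map_mul]
      exact Subgroup.mul_mem _ (Subgroup.subset_closure (by simp))
        (Subgroup.subset_closure (by simp))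
    rcases F.fix1 s t (s * t) _ _ k hk cs ct mem (C.refl_conj c r α hα) fl2 with hf | hf
    · exfalso
      have m1 : ψ s ∈ Subgroup.closure {ψ s, ψ t} := Subgroup.subset_closure (by simp)
      obtain ⟨n, hn, en⟩ := (isOfFinOrder_of_finite (⟨ψ s, m1⟩ :
        Subgroup.closure {ψ s, ψ t})).exists_pow_eq_one
      have en' : ψ s ^ n = 1 := congrArg Subtype.val en
      have := (hind n 0 (by rw [zpow_natCast, en', zpow_zero, one_mul])).1
      omega
    · have : Commute a r := by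
        apply κinj
        rw [map_mul, map_mul, ka]
        exact hf.1.eq
      rw [← map_mul, ← map_mul, this.eq]
  -- translations
  obtain ⟨x1, y1, T1⟩ : ∃ x y, Diag (μ a ^ 4) 1 1 x y := by
    obtain ⟨e1, e2, p, q, u1, u2, u3⟩ := M.form a
    exact LFLAT_four u1 u2 u3
  obtain ⟨x2, y2, T2⟩ : ∃ x y, Diag (μ ((a * b) ^ k) ^ 4) 1 1 x y := by
    obtain ⟨e1, e2, p, q, u1, u2, u3⟩ := M.form ((a * b) ^ k)
    exact LFLAT_four u1 u2 u3
  have det := LFLAT_det T1 T2 ind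
  have ca1 : μ a * μ a ^ 4 = μ a ^ 4 * μ a := ((Commute.refl (μ a)).pow_right 4).eq
  have ca2 := ((caw.map μ).pow_right 4).eq
  have cb2 := ((cbw.map μ).pow_right 4).eq
  obtain ⟨p, q, hpq⟩ : ∃ p q, Diag (μ a) 1 1 p q := by
    obtain ⟨e1, e2, p, q, u1, u2, u3 | u3⟩ := M.form a
    · obtain ⟨v1, v2⟩ := LFLAT_dcomm u3 T1 ca1
      obtain ⟨v3, v4⟩ := LFLAT_dcomm u3 T2 ca2
      rcases u1 with rfl | rfl
      · rcases u2 with rfl | rfl
        · exact ⟨p, q, u3⟩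
        · exfalso
          apply det
          rw [show y1 = 0 by omega, show y2 = 0 by omega]
          ring
      · exfalso
        apply det
        rw [show x1 = 0 by omega, show x2 = 0 by omega]
        ring
    · exfalso
      obtain ⟨v1, -⟩ := LFLAT_scomm u3 T1 ca1
      obtain ⟨v3, -⟩ := LFLAT_scomm u3 T2 ca2
      apply det
      rw [← v1, ← v3]
      ring
  have odd : Odd (p + q) := by
    obtain ⟨χ, hχ⟩ := hχ
    have e1 := M.cd χ a 1 1 p q hpq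
    have e2 : χ (a : N.Group) = -1 := by
      have e3 := hχ
      rw [ea, map_mul, map_mul, map_inv, mul_inv_cancel_comm] at e3
      exact e3
    rw [e2, if_pos rfl, mul_one] at e1
    by_contra hne
    obtain ⟨n, hn⟩ := Int.not_odd_iff_even.1 hne
    rw [hn, zpow_add, ← mul_zpow, Int.units_mul_self, one_zpow] at e1
    exact absurd e1 (by decide)
  refine ⟨htri, μ, hμ, hs, ht, ⟨p, q, odd, hpq⟩, ?_⟩
  have one : (1 : ℤ) = 1 ∨ (1 : ℤ) = -1 := Or.inl rfl
  have neg : (-1 : ℤ) = 1 ∨ (-1 : ℤ) = -1 := Or.inr rfl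
  have nz : ¬ (x2 = 0 ∧ y2 = 0) := by
    rintro ⟨rfl, rfl⟩
    exact det (by ring)
  obtain ⟨e1, e2, p', q', u1, u2, u3 | u3⟩ := M.form b
  · exfalso
    obtain ⟨v1, v2⟩ := LFLAT_dcomm u3 T2 cb2
    rcases u1 with rfl | rfl <;> rcases u2 with rfl | rfl
    · exact ncab (LFLAT_dext (LFLAT_dd hpq u3) (LFLAT_dd u3 hpq) rfl rfl (by ring) (by ring))
    · obtain ⟨r, hr⟩ := (M.ex 1 (-1) 0 (q + q') one neg).1
      obtain ⟨r1, hr1⟩ := (M.ex (-1) 1 (p + p') 0 neg one).1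
      obtain ⟨r2, hr2⟩ := (M.ex (-1) 1 0 0 neg one).1
      have g := glide r r1 r2 (M.r2 r _ hr) (M.r1 r1 _ hr1) (M.r1 r2 _ hr2)
        (LFLAT_dext (LFLAT_dd hr1 hr) (LFLAT_dd hr hr1) rfl rfl (by ring) (by ring))
        (LFLAT_dext (LFLAT_dd hr2 hr) (LFLAT_dd hr hr2) rfl rfl (by ring) (by ring))
        (fun e => by have := (LFLAT_duniq (e ▸ hr1) hr).1; omega)
        (fun e => by have := (LFLAT_duniq (e ▸ hr2) hr).1; omega)
        (LFLAT_dext (LFLAT_dd hpq u3) (LFLAT_dd (LFLAT_dd hr1 hr2) hr) (by ring) (by ring)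
          (by ring) (by ring))
      obtain ⟨-, v4⟩ := LFLAT_dcomm hr hpq g
      exact ncab (LFLAT_dext (LFLAT_dd hpq u3) (LFLAT_dd u3 hpq) (by ring) (by ring) (by ring)
        (by omega))
    · obtain ⟨r, hr⟩ := (M.ex (-1) 1 (p + p') 0 neg one).1
      obtain ⟨r1, hr1⟩ := (M.ex 1 (-1) 0 (q + q') one neg).1
      obtain ⟨r2, hr2⟩ := (M.ex 1 (-1) 0 0 one neg).1
      have g := glide r r1 r2 (M.r1 r _ hr) (M.r2 r1 _ hr1) (M.r2 r2 _ hr2)
        (LFLAT_dext (LFLAT_dd hr1 hr) (LFLAT_dd hr hr1) rfl rfl (by ring) (by ring))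
        (LFLAT_dext (LFLAT_dd hr2 hr) (LFLAT_dd hr hr2) rfl rfl (by ring) (by ring))
        (fun e => by have := (LFLAT_duniq (e ▸ hr1) hr).1; omega)
        (fun e => by have := (LFLAT_duniq (e ▸ hr2) hr).1; omega)
        (LFLAT_dext (LFLAT_dd hpq u3) (LFLAT_dd (LFLAT_dd hr1 hr2) hr) (by ring) (by ring)
          (by ring) (by ring))
      obtain ⟨v3, -⟩ := LFLAT_dcomm hr hpq g
      exact ncab (LFLAT_dext (LFLAT_dd hpq u3) (LFLAT_dd u3 hpq) (by ring) (by ring) (by omega)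
        (by ring))
    · exact nz ⟨by omega, by omega⟩
  · obtain ⟨v1, v2⟩ := LFLAT_scomm u3 T2 cb2
    obtain ⟨n0, hn0⟩ := odd
    rcases u1 with rfl | rfl <;> rcases u2 with rfl | rfl
    · refine ⟨1, p', q', one, ?_, u3⟩
      by_contra hne
      obtain ⟨n1, hn1⟩ := Int.not_even_iff_odd.1 hne
      obtain ⟨r, hr⟩ := (M.ex 1 1 (p + p' - (n0 + n1 + 1)) (-(p + p' - (n0 + n1 + 1))) one one).2
      obtain ⟨r1, hr1⟩ := (M.ex (-1) (-1) (n0 + n1 + 1) (n0 + n1 + 1) neg neg).2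
      obtain ⟨r2, hr2⟩ := (M.ex (-1) (-1) 0 0 neg neg).2
      have g := glide r r1 r2 (M.r3 r _ hr) (M.r4 r1 _ hr1) (M.r4 r2 _ hr2)
        (LFLAT_dext (LFLAT_ss hr1 hr) (LFLAT_ss hr hr1) rfl rfl (by ring) (by ring))
        (LFLAT_dext (LFLAT_ss hr2 hr) (LFLAT_ss hr hr2) rfl rfl (by ring) (by ring))
        (fun e => by have := (LFLAT_suniq (e ▸ hr1) hr).1; omega)
        (fun e => by have := (LFLAT_suniq (e ▸ hr2) hr).1; omega)
        (LFLAT_sext (LFLAT_ds hpq u3) (LFLAT_ds (LFLAT_ss hr1 hr2) hr) (by ring) (by ring)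
          (by omega) (by omega))
      obtain ⟨v3, -⟩ := LFLAT_scomm hr hpq g
      omega
    · exact absurd ⟨by omega, by omega⟩ nz
    · exact absurd ⟨by omega, by omega⟩ nz
    · refine ⟨-1, p', q', neg, ?_, u3⟩
      by_contra hne
      obtain ⟨n1, hn1⟩ := Int.not_even_iff_odd.1 hne
      obtain ⟨r, hr⟩ := (M.ex (-1) (-1) (n0 + n1 + 1) (n0 + n1 + 1) neg neg).2
      obtain ⟨r1, hr1⟩ := (M.ex 1 1 (p + p' - (n0 + n1 + 1)) (-(p + p' - (n0 + n1 + 1))) one one).2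
      obtain ⟨r2, hr2⟩ := (M.ex 1 1 0 (-0) one one).2
      have g := glide r r1 r2 (M.r4 r _ hr) (M.r3 r1 _ hr1) (M.r3 r2 _ hr2)
        (LFLAT_dext (LFLAT_ss hr1 hr) (LFLAT_ss hr hr1) rfl rfl (by ring) (by ring))
        (LFLAT_dext (LFLAT_ss hr2 hr) (LFLAT_ss hr hr2) rfl rfl (by ring) (by ring))
        (fun e => by have := (LFLAT_suniq (e ▸ hr1) hr).1; omega)
        (fun e => by have := (LFLAT_suniq (e ▸ hr2) hr).1; omega)
        (LFLAT_sext (LFLAT_ds hpq u3) (LFLAT_ds (LFLAT_ss hr1 hr2) hr) (by ring) (by ring)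
          (by omega) (by omega))
      obtain ⟨v3, -⟩ := LFLAT_scomm hr hpq g
      omega

end Pool.Agent.Lib.MP_1b8ce0_al.T
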