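import Mathlib
import Pool.Agent.Lib.MP_1b8ce0_al.T.StsC

/-! Free factors. -/

set_option linter.unusedSectionVars false
set_option linter.dupNamespace false

namespace Pool.Agent.Lib.MP_1b8ce0_al.T

open Pool.Agent.Lib.MP_6d85b4_al Filter

section Graph

variable {S : Type} {M : CoxeterMatrix S}

theorem LOC_zero (h : NoSph M) {s t l : S} (hst : s ≠ t) (h1 : M s l = 2) (h2 : M t l = 2) :
    M s t = 0 := by
  have k := h s l t (by rintro rfl; simp at h1) (by rintro rfl; simp at h2) hst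
  rw [M.symmetric l t, h1, h2] at k
  by_contra h0
  have : (0 : ℚ) < 1 / M s t := one_div_pos.2 (by exact_mod_cast Nat.pos_of_ne_zero h0)
  push_cast at k
  linarith

theorem LOC_lk (h : NoSph M) (f : S) : Indep M (lk M f) := fun s hs t ht hst =>
  LOC_zero h hst ((M.symmetric s f).trans hs) ((M.symmetric t f).trans ht)

theorem LOC_perp (h : NoSph M) {L : Set S} (hL : Two L) : Indep M (perp M L) :=
  fun _ hs _ ht hst => by
    obtain ⟨l, hl, -⟩ := hL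
    exact LOC_zero h hst (hs l hl) (ht l hl)

theorem LOC_notMem {L : Set S} {p : S} (hp : p ∈ perp M L) : p ∉ L := fun h => by
  simpa [M.diagonal] using hp p h

theorem LOC_symm {A : Set S} {s t : S} (h : Conn M A s t) : Conn M A t s := by
  induction h with
  | refl => exact Relation.ReflTransGen.refl
  | tail _ h ih =>
    exact Relation.ReflTransGen.head ⟨h.2.1, h.1, h.2.2.1.symm, M.symmetric _ _ ▸ h.2.2.2⟩ ih

theorem LOC_in {A : Set S} {s t : S} (h : Conn M A s t) (hs : s ∈ A) : t ∈ A := by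
  induction h with
  | refl => exact hs
  | tail _ h _ => exact h.2.1

theorem LOC_self {f q : S} (hq : q ∈ perp M (lk M f)) : q ∈ QC M f q :=
  ⟨hq, Relation.ReflTransGen.refl⟩

theorem LOC_single {R : Set S} (hR : Flex M R) {f q s : S} (hq : q ∈ Same M R f)
    (h : Conn M (lk M f)ᶜ q s) : s = q := by
  rcases h.cases_head with h | ⟨v, ⟨-, h1, h2, h3⟩, -⟩
  · exact h.symm
  · exact (h1 (hq.2 ▸ (hR q hq.1 v h2.symm).resolve_left h3)).elim

theorem LOC_odd {R : Set S} (hR : Flex M R) {q s : S} (hq : q ∉ R) (h : OddConn M q s) :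
    s ∉ R := by
  rcases h.cases_head with h | ⟨v, ⟨h1, h2⟩, -⟩
  · exact h ▸ hq
  · rcases hR q hq v h1.symm with k | k <;> rw [k] at h2 <;> exact absurd h2 (by decide)

end Graph

section Grp

variable {S S' D : Type} [Group D] {M : CoxeterMatrix S} {R : Set S} {x : S → D}
  {M' : CoxeterMatrix S'} {R' : Set S'} {x' : S' → D}

theorem LOC_ne (h : DPar M R x) (s : S) : x s ≠ 1 := fun e =>
  (h.mem s ∅).1 (e ▸ (gp x ∅).one_mem)

theorem LOC_one {h g : D} (H : h⁻¹ * g * h = 1) : g = 1 := by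
  rwa [mul_assoc, inv_mul_eq_one, eq_comm, mul_eq_right] at H

theorem LOC_inv {h : D} {K L : Subgroup D} (H : K ≤ cj h L) : cj h⁻¹ K ≤ L := by
  have k := cj_mono h⁻¹ H
  rwa [cj_cj, inv_mul_cancel, cj_one] at k

theorem LOC_inf (h : D) (K L : Subgroup D) : cj h K ⊓ cj h L = cj h (K ⊓ L) := rfl

/-- the conjugator can be taken in the centraliser of the link -/
theorem LOC_tl (hp : DPar M R x) {L U : Set S} (hL : Indep M L) (h2 : Two L) {h : D}
    {Z : Subgroup D} (H1 : gp x L ≤ cj h (gp x U)) (H2 : Z ≤ cj h (gp x U))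
    (H3 : Z ≤ gp x (perp M L)) : ∃ n ∈ gp x (perp M L), Z ≤ cj n (gp x (U ∩ perp M L)) := by
  obtain ⟨-, v, hv, n, hn, e⟩ := hp.tl L U h⁻¹ hL h2 (LOC_inv H1)
  refine ⟨n⁻¹, inv_mem hn, ?_⟩
  rw [← hp.inter, ← LOC_inf, cj_self (inv_mem hn)]
  refine le_inf ?_ H3
  rwa [← inv_inv h, e, mul_inv_rev, ← cj_cj, cj_self (inv_mem hv)] at H2

theorem LOC_exch {f : S} {f' : S'} (h : Sym M R x M' R' x' f f') : Sym M' R' x' M R x f' f :=
  ⟨h.nf', h.nf, h.two', h.two, h.eq.symm⟩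

theorem LOC_match (h : Matched R x R' x') : Matched R' x' R x :=
  ⟨fun s hs => (h.2 s hs).imp fun _ k => ⟨k.1, k.2.symm⟩,
    fun s hs => (h.1 s hs).imp fun _ k => ⟨k.1, k.2.symm⟩⟩

end Grp

theorem LOC_thm (h1 : St_D1) (h2 : St_TT) (_h3 : St_RESTR) (h4 : St_DPAR) (h5 : St_FREE)
    (h6 : St_CNT) (h7 : St_LOC1) : St_LOC := by
  intro D S S' _ _ _ _ _ M R x M' R' x' hd hd' hm f f' hs q hq hqs
  obtain ⟨c1, c2, -⟩ := h6 D S S' M R x M' R' x' hd hd' hm f f' hs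
  have dp := h4 S D M R x hd
  have dp' := h4 S' D M' R' x' hd'
  have hZ : gp x (QC M f q) ≤ gp x' (perp M' (lk M' f')) := c1 ▸ gp_mono x fun _ h => h.1
  have hx : x q ∈ gp x (QC M f q) := gp_mem x (LOC_self hq)
  obtain ⟨T, ⟨hT, d, hdP, hdZ⟩, hmin⟩ := exists_minimalFor_of_wellFoundedLT
    (fun T : Set S' => T ⊆ perp M' (lk M' f') ∧ ∃ d ∈ gp x' (perp M' (lk M' f')),
      gp x (QC M f q) ≤ cj d (gp x' T)) Set.ncard
    ⟨_, subset_rfl, 1, one_mem _, by rwa [cj_one]⟩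
  obtain ⟨q', hq'⟩ : T.Nonempty := by
    refine Set.nonempty_iff_ne_empty.2 fun e => LOC_ne dp q ?_
    have k := hdZ hx
    rw [e, mem_cj, gp, Set.image_empty, Subgroup.closure_empty, Subgroup.mem_bot] at k
    exact LOC_one k
  have hqL : q' ∈ (lk M' f')ᶜ := LOC_notMem (hT hq')
  obtain ⟨t1, t2⟩ := h2 S' D M' R' x' {s | Conn M' (lk M' f')ᶜ q' s}ᶜ
    ({s | Conn M' (lk M' f')ᶜ q' s} ∪ lk M' f') hd'.dy
    (by rw [← Set.union_assoc, Set.compl_union_self, Set.univ_union]) (fun s t k1 k2 => by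
      rw [Set.mem_union, not_or] at k1
      rw [Set.notMem_compl_iff] at k2
      by_contra k3
      refine k1.1 (Relation.ReflTransGen.tail k2 ⟨LOC_in k2 hqL, k1.2, ?_, ?_⟩)
      · rintro rfl
        exact k1.1 k2
      · rwa [M'.symmetric])
  have hI : {s | Conn M' (lk M' f')ᶜ q' s}ᶜ ∩ ({s | Conn M' (lk M' f')ᶜ q' s} ∪ lk M' f') =
      lk M' f' := by
    ext s
    exact ⟨fun k => k.2.resolve_left k.1, fun k => ⟨fun k' => LOC_in k' hqL k, Or.inr k⟩⟩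
  rw [hI, ← hs.eq] at t1 t2
  obtain ⟨h, H⟩ := h7 S D M R x hd f q _ _ hs.nf hs.two t1 t2 hq hqs
  have l1 : gp x' (lk M' f') ≤ gp x (QC M f q ∪ lk M f) :=
    hs.eq ▸ gp_mono x Set.subset_union_right
  have l2 : gp x (QC M f q) ≤ gp x (QC M f q ∪ lk M f) := gp_mono x Set.subset_union_left
  rcases H with H | H
  · exfalso
    obtain ⟨n, hn, k⟩ := LOC_tl dp' (LOC_lk hd'.ns f') hs.two' (l1.trans H) (l2.trans H) hZ
    obtain ⟨u, hu, T1, k1, k2⟩ := dp'.kil (d⁻¹ * n) T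
      ({s | Conn M' (lk M' f')ᶜ q' s}ᶜ ∩ perp M' (lk M' f'))
    have k3 : gp x (QC M f q) ≤ cj (d * u) (gp x' T1) := by
      rw [← cj_cj, ← k2, ← LOC_inf, cj_cj, mul_inv_cancel_left]
      exact le_inf hdZ k
    have k4 : T1 = T := Set.eq_of_subset_of_ncard_le k1 (hmin
      ⟨k1.trans hT, _, mul_mem hdP (gp_mono x' hT hu), k3⟩ (Set.ncard_le_ncard k1))
    rw [k4, cj_self hu, inf_eq_left] at k2
    exact ((h5 S' D M' R' x' hd' _ (LOC_perp hd'.ns hs.two')).ncj _ Set.inter_subset_right q'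
      (hT hq') _ (mul_mem (inv_mem hdP) hn) (k2 (gp_mem x' hq'))).1 Relation.ReflTransGen.refl
  · obtain ⟨n, hn, k⟩ := LOC_tl dp' (LOC_lk hd'.ns f') hs.two' (l1.trans H) (l2.trans H) hZ
    have k1 : gp x (QC M f q) ≤ cj n (gp x' (QC M' f' q')) :=
      k.trans (cj_mono n (gp_mono x' fun s k' =>
        ⟨k'.2, k'.1.resolve_right (LOC_notMem k'.2)⟩))
    refine ⟨q', hT hq', fun hS => LOC_ne dp q ?_, n, c1 ▸ hn, k1⟩
    obtain ⟨χ, hχ⟩ := (h1.2 S' D M' R' x' hd'.dy).chi q' fun t => LOC_odd hd'.fl hS.1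
    have k2 := cj_mono n (gp_mono x' (show QC M' f' q' ⊆ {q'} from fun s k' =>
      LOC_single hd'.fl hS k'.2)) (k1 hx)
    rw [mem_cj, gp, Set.image_singleton, Subgroup.mem_closure_singleton] at k2
    obtain ⟨i, hi⟩ := k2
    have k3 := congrArg (fun g => (χ g).toAdd) hi
    simp only [map_zpow, map_mul, map_inv, c2 q hq hqs q' hS χ hχ,
      hχ.1 q' Relation.ReflTransGen.refl, mul_one, inv_mul_cancel, toAdd_zpow, toAdd_ofAdd,
      toAdd_one, smul_eq_mul] at k3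
    rw [k3, zpow_zero] at hi
    exact LOC_one hi.symm

theorem LOC2_thm (h1 : St_D1) (_h2 : St_TT) (_h3 : St_RESTR) (h4 : St_DPAR) (h5 : St_FREE)
    (h8 : St_LOC) : St_LOC2 := by
  intro D S S' _ _ _ _ _ M R x M' R' x' hd hd' hm f f' hs q hq hqs
  obtain ⟨q', a1, a2, h, a3, a4⟩ := h8 D S S' M R x M' R' x' hd hd' hm f f' hs q hq hqs
  obtain ⟨q₂, -, -, k, b3, b4⟩ := h8 D S' S M' R' x' M R x hd' hd (LOC_match hm) f' f (LOC_exch hs)
    q' a1 a2
  have hk : k ∈ gp x (perp M (lk M f)) :=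
    ((h5 S D M R x hd _ (LOC_lk hd.ns f)).cent hs.two k).1 fun t ht =>
      (h1.2 S' D M' R' x' hd'.dy).perp _ _ (fun p hp => hp) k b3 _ (hs.eq ▸ gp_mem x ht)
  have fr := h5 S D M R x hd _ (LOC_perp hd.ns hs.two)
  have hx : x q ∈ gp x (QC M f q) := gp_mem x (LOC_self hq)
  have b5 : cj h (gp x' (QC M' f' q')) ≤ cj (h * k) (gp x (QC M f q₂)) :=
    cj_cj h k _ ▸ cj_mono h b4
  have c1 := fr.ncj (QC M f q₂) (fun _ e => e.1) q hq _ (mul_mem a3 hk) (b5 (a4 hx))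
  have c2 : QC M f q₂ = QC M f q := Set.ext fun s =>
    ⟨fun e => ⟨e.1, (LOC_symm c1.2).trans e.2⟩, fun e => ⟨e.1, c1.2.trans e.2⟩⟩
  rw [c2] at b5
  rw [cj_self (fr.maln (QC M f q) (fun _ e => e.1) _ (mul_mem a3 hk) _ hx
    (LOC_ne (h4 S D M R x hd) q) (b5 (a4 hx)))] at b5
  exact ⟨q', a1, a2, h, a3, le_antisymm a4 b5⟩

end Pool.Agent.Lib.MP_1b8ce0_al.T
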