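import Mathlib
import Pool.Agent.Lib.MP_1b8ce0_al.T.StsC

set_option linter.unusedSectionVars false
set_option linter.dupNamespace false
set_option linter.unusedVariables false

namespace Pool.Agent.Lib.MP_1b8ce0_al.T

open Pool.Agent.Lib.MP_6d85b4_al

section

variable {S G : Type} [Group G] {M : CoxeterMatrix S} {R : Set S} {x : S → G}

theorem LOC1_ne {s t : S} (h : M s t = 2) : s ≠ t := by
  rintro rfl
  rw [M.diagonal] at h
  omega

theorem LOC1_indep (ns : NoSph M) (s : S) : Indep M (lk M s) := by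
  intro a ha b hb hab
  have ha' : M s a = 2 := ha
  have hb' : M s b = 2 := hb
  have h := ns s a b (LOC1_ne ha') hab (LOC1_ne hb')
  rw [ha', hb'] at h
  by_contra h0
  have hp : (0 : ℚ) < (M a b : ℚ) := by exact_mod_cast Nat.pos_of_ne_zero h0
  have h1 : (0 : ℚ) < 1 / (M a b : ℚ) := by positivity
  have e : ((2 : ℕ) : ℚ) = 2 := by norm_num
  rw [e] at h
  linarith

/-- neighbours of a free vertex lie in its link -/
theorem LOC1_nbr (fl : Flex M R) {s u : S} (hs : s ∉ R) (h : Adj M s u) : u ∈ lk M s := by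
  rcases fl s hs u h.1.symm with h0 | h2
  · exact absurd h0 h.2
  · exact h2

theorem LOC1_adj_symm {s u : S} (h : Adj M s u) : Adj M u s :=
  ⟨h.1.symm, by rw [M.symmetric]; exact h.2⟩

theorem LOC1_fin_sq {g : G} (h : g * g = 1) : IsOfFinOrder g :=
  isOfFinOrder_iff_pow_eq_one.2 ⟨2, by norm_num, by rw [pow_two, h]⟩

theorem LOC1_ell_of_mem {A1 A2 : Subgroup G} {g : G} (h : g ∈ A1) : Ell A1 A2 g :=
  ⟨1, Or.inl (by rw [cj_one]; exact h)⟩

theorem LOC1_je_symm {A1 A2 : Subgroup G} {g g' : G} (h : JE A1 A2 g g') : JE A1 A2 g' g := by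
  obtain ⟨k, h | h⟩ := h
  · exact ⟨k, Or.inl ⟨h.2, h.1⟩⟩
  · exact ⟨k, Or.inr ⟨h.2, h.1⟩⟩

/-- adjacent elliptic generators are jointly elliptic -/
theorem LOC1_je (dp : DP M R x) (d1 : D1 M R x) (pa : DPar M R x) {A1 A2 C : Subgroup G}
    (t1 : TT1 A1 A2 C) {s t : S} (h : Adj M s t) (hs : Ell A1 A2 (x s)) (ht : Ell A1 A2 (x t)) :
    JE A1 A2 (x s) (x t) := by
  by_cases h2 : M s t = 2
  · exact t1.comm _ _ hs ht (d1.two s t h2)
  · have hsR : s ∈ R := by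
      by_contra hn
      exact h2 (LOC1_nbr dp.fl hn h)
    have htR : t ∈ R := by
      by_contra hn
      have : M t s = 2 := LOC1_nbr dp.fl hn (LOC1_adj_symm h)
      exact h2 (by rw [M.symmetric]; exact this)
    refine t1.serre _ _ hs ht (t1.tors _ ?_)
    rw [← orderOf_pos_iff, pa.ord s hsR t htR]
    exact Nat.pos_of_ne_zero h.2

/-- a vertex of the component with two right angled neighbours is elliptic -/
theorem LOC1_ell (dp : DP M R x) (d1 : D1 M R x) (fr : ∀ T, Indep M T → Free M R x T)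
    {A1 A2 : Subgroup G} {f q : S} (t1 : TT1 A1 A2 (gp x (lk M f)))
    (hq : q ∈ perp M (lk M f)) (hn : q ∉ Same M R f) {s : S} (hc : Conn M (lk M f)ᶜ q s)
    (hs : s ∈ R ∨ Two (lk M s)) : Ell A1 A2 (x s) := by
  by_cases hR : s ∈ R
  · exact t1.tors _ (LOC1_fin_sq (dp.dy.sqr s hR))
  have h2 : Two (lk M s) := hs.resolve_left hR
  by_contra hE
  obtain ⟨h, Tr, a1, -, a3, -⟩ := t1.hyp _ hE
  have hle : gp x (lk M s) ≤ Tr := gp_le.2 fun t ht => a1 _ (d1.two s t ht).symm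
  have hsub : lk M s ⊆ lk M f :=
    ((fr _ (LOC1_indep dp.ns s)).cmm h (lk M f) h2
      fun g1 m1 g2 m2 => a3 g1 (hle m1) g2 (hle m2)).2
  rcases Relation.ReflTransGen.cases_tail hc with e | ⟨u, -, hu, -, ha⟩
  · subst e
    exact hn ⟨hR, Set.Subset.antisymm hsub fun t ht => hq t ht⟩
  · exact hu (hsub (LOC1_nbr dp.fl hR (LOC1_adj_symm ha)))

/-- a conjugate of the link group containing the link group is equal to it -/
theorem LOC1_norm (d1 : D1 M R x) (pa : DPar M R x) {L : Set S} (hi : Indep M L) (h2 : Two L)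
    {h : G} (hl : gp x L ≤ cj h (gp x L)) : cj h (gp x L) = gp x L := by
  have h1 : cj h⁻¹ (gp x L) ≤ gp x L := by
    have := cj_mono h⁻¹ hl
    rwa [cj_cj, inv_mul_cancel, cj_one] at this
  obtain ⟨-, v, hv, n, hn, e⟩ := pa.tl L L h⁻¹ hi h2 h1
  refine le_antisymm (fun g hg => ?_) hl
  rw [mem_cj, e] at hg
  have eh : h = n⁻¹ * v⁻¹ := by rw [← mul_inv_rev, ← e, inv_inv]
  have hm : v⁻¹ * (v * n * g * h) * v ∈ gp x L :=
    (gp x L).mul_mem ((gp x L).mul_mem ((gp x L).inv_mem hv) hg) hv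
  have e2 : v⁻¹ * (v * n * g * h) * v = n * g * n⁻¹ := by
    rw [eh]
    group
  rw [e2] at hm
  have hc : Commute n (n * g * n⁻¹) :=
    d1.perp (perp M L) L (fun p hp l hl => hp l hl) n hn _ hm
  have e3 : g = n * g * n⁻¹ := by
    have : n * (n * g * n⁻¹) = n * g := by rw [hc.eq]; group
    exact (mul_left_cancel this).symm
  rw [e3]
  exact hm

theorem LOC1_two_perp {L : Set S} (h2 : Two L) {s : S} (hs : s ∈ perp M L) : Two (lk M s) := by
  obtain ⟨a, ha, b, hb, hab⟩ := h2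
  exact ⟨a, hs a ha, b, hs b hb, hab⟩

/-- two vertices of `QC` are jointly elliptic -/
theorem LOC1_pair (dp : DP M R x) (d1 : D1 M R x) (pa : DPar M R x)
    (fr : ∀ T, Indep M T → Free M R x T) {A1 A2 : Subgroup G} {f q : S} (h2 : Two (lk M f))
    (t1 : TT1 A1 A2 (gp x (lk M f))) (t2 : TT2 A1 A2 (gp x (lk M f)))
    (hq : q ∈ perp M (lk M f)) (hn : q ∉ Same M R f) {q1 q2 : S} (m1 : q1 ∈ QC M f q)
    (m2 : q2 ∈ QC M f q) : JE A1 A2 (x q1) (x q2) := by
  have hE : ∀ s ∈ QC M f q, Ell A1 A2 (x s) := fun s hs =>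
    LOC1_ell dp d1 fr t1 hq hn hs.2 (Or.inr (LOC1_two_perp h2 hs.1))
  have hL : ∀ l ∈ lk M f, Ell A1 A2 (x l) := fun l hl => LOC1_ell_of_mem (t1.le.1 (gp_mem x hl))
  by_contra hJ
  obtain ⟨h, sd, n1, n2, s1, s2, hsd⟩ := t2.side _ _ (hE q1 m1) (hE q2 m2) hJ
  have hl : gp x (lk M f) ≤ cj h (gp x (lk M f)) := by
    refine gp_le.2 fun l hl => ?_
    by_contra hn'
    have j1 := t1.comm _ _ (hE q1 m1) (hL l hl) (d1.two q1 l (m1.1 l hl))
    have j2 := t1.comm _ _ (hE q2 m2) (hL l hl) (d1.two q2 l (m2.1 l hl))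
    exact s2 ((hsd _ _ n2 hn' j2).2 ((hsd _ _ n1 hn' j1).1 s1))
  have he := LOC1_norm d1 pa (LOC1_indep dp.ns f) h2 hl
  have hoff : ∀ s, s ∉ lk M f → x s ∉ cj h (gp x (lk M f)) := fun s hs hm => by
    rw [he] at hm
    exact hs ((pa.mem s _).1 hm)
  have key : ∀ s, Conn M (lk M f)ᶜ q s →
      (Ell A1 A2 (x s) → (sd (x s) ↔ sd (x q))) ∧
        (¬ Ell A1 A2 (x s) → ∀ u, Adj M s u → Ell A1 A2 (x u) ∧ (sd (x u) ↔ sd (x q))) := by
    intro s hc
    induction hc with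
    | refl =>
      exact ⟨fun _ => Iff.rfl, fun hne => absurd (hE q ⟨hq, Relation.ReflTransGen.refl⟩) hne⟩
    | @tail s t hc st ih =>
      obtain ⟨hs, ht, ha⟩ := st
      have hct : Conn M (lk M f)ᶜ q t := Relation.ReflTransGen.tail hc ⟨hs, ht, ha⟩
      refine ⟨fun et => ?_, fun ne u hu => ?_⟩
      · by_cases es : Ell A1 A2 (x s)
        · exact (hsd _ _ (hoff s hs) (hoff t ht) (LOC1_je dp d1 pa t1 ha es et)).symm.trans
            (ih.1 es)
        · exact (ih.2 es t ha).2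
      · have hR : t ∉ R := fun hR => ne (LOC1_ell dp d1 fr t1 hq hn hct (Or.inl hR))
        have hT : ¬ Two (lk M t) := fun hT => ne (LOC1_ell dp d1 fr t1 hq hn hct (Or.inr hT))
        have e : u = s := by
          by_contra hne
          exact hT ⟨u, LOC1_nbr dp.fl hR hu, s, LOC1_nbr dp.fl hR (LOC1_adj_symm ha), hne⟩
        subst e
        have es : Ell A1 A2 (x u) := by
          by_contra es
          exact ne (ih.2 es t ha).1
        exact ⟨es, ih.1 es⟩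
  exact s2 (((key q2 m2.2).1 (hE q2 m2)).2 (((key q1 m1.2).1 (hE q1 m1)).1 s1))

end

theorem LOC1_thm (h1 : St_D1) (h2 : St_TT) (h3 : St_RESTR) (h4 : St_DPAR) (h5 : St_FREE) :
    St_LOC1 := by
  intro S G _ _ _ M R x dp f q A1 A2 hf h2' t1 t2 hq hn
  have d1 := h1.2 S G M R x dp.dy
  have pa := h4 S G M R x dp
  have fr := h5 S G M R x dp
  have hE : ∀ s ∈ QC M f q, Ell A1 A2 (x s) := fun s hs =>
    LOC1_ell dp d1 fr t1 hq hn hs.2 (Or.inr (LOC1_two_perp h2' hs.1))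
  have hA : ∀ l ∈ lk M f, x l ∈ A1 := fun l hl => t1.le.1 (gp_mem x hl)
  have hQL : ∀ s ∈ QC M f q, ∀ l ∈ lk M f, JE A1 A2 (x s) (x l) := fun s hs l hl =>
    t1.comm _ _ (hE s hs) (LOC1_ell_of_mem (hA l hl)) (d1.two s l (hs.1 l hl))
  obtain ⟨h, hh⟩ := t2.helly (x '' (QC M f q ∪ lk M f)) ((Set.toFinite _).image x) (by
    rintro _ ⟨s, hs, rfl⟩ _ ⟨t, ht, rfl⟩
    rcases hs with hs | hs <;> rcases ht with ht | ht
    · exact LOC1_pair dp d1 pa fr h2' t1 t2 hq hn hs ht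
    · exact hQL s hs t ht
    · exact LOC1_je_symm (hQL t ht s hs)
    · exact ⟨1, Or.inl ⟨by rw [cj_one]; exact hA s hs, by rw [cj_one]; exact hA t ht⟩⟩)
  refine ⟨h, hh.imp (fun a => gp_le.2 fun s hs => a _ ⟨s, hs, rfl⟩)
    fun a => gp_le.2 fun s hs => a _ ⟨s, hs, rfl⟩⟩

end Pool.Agent.Lib.MP_1b8ce0_al.T
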