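import Mathlib
import Pool.Agent.Lib.MP_1b8ce0_al.T.StsB

set_option linter.unusedSectionVars false
set_option linter.dupNamespace false

namespace Pool.Agent.Lib.MP_1b8ce0_al.T

open Pool.Agent.Lib.MP_6d85b4_al

section Grp

variable {H : Type} [Group H] {a b : H} {j : ℕ}

theorem LODD_alt (a b : H) (j : ℕ) : alt a b (2 * j + 1) = (a * b) ^ j * a := by
  rw [← alt_two_mul]
  unfold alt
  rw [List.range_succ, List.map_append, List.prod_append]
  simp

/-- the odd braid relation -/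
def LODD_Br (j : ℕ) (a b : H) : Prop := (a * b) ^ j * a = (b * a) ^ j * b

theorem LODD_sw (a b : H) (j : ℕ) : (a * b) ^ j * a = a * (b * a) ^ j := by
  induction j with
  | zero => simp
  | succ j ih => rw [pow_succ', mul_assoc, ih, pow_succ']; simp only [mul_assoc]

theorem LODD_da (h : LODD_Br j a b) : (a * b) ^ j * a * a = b * ((a * b) ^ j * a) := by
  rw [← mul_assoc, ← LODD_sw, mul_assoc ((b * a) ^ j), ← mul_assoc ((b * a) ^ j), ← h]

theorem LODD_db (h : LODD_Br j a b) : (a * b) ^ j * a * b = a * ((a * b) ^ j * a) := by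
  conv_rhs => rw [h, ← mul_assoc, ← LODD_sw]

theorem LODD_sq (h : LODD_Br j a b) : ((a * b) ^ j * a) ^ 2 = (a * b) ^ (2 * j + 1) := by
  rw [pow_two]
  conv_lhs => rw [h, ← mul_assoc, ← h, mul_assoc ((a * b) ^ j), ← LODD_sw]
  rw [two_mul, pow_succ, pow_add]
  simp only [mul_assoc]

theorem LODD_ca (h : LODD_Br j a b) : Commute a (((a * b) ^ j * a) ^ 2) := by
  rw [commute_iff_eq, pow_two, ← mul_assoc, ← LODD_db h, mul_assoc _ b, ← LODD_da h]
  simp only [mul_assoc]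

theorem LODD_cb (h : LODD_Br j a b) : Commute b (((a * b) ^ j * a) ^ 2) := by
  rw [commute_iff_eq, pow_two, ← mul_assoc, ← LODD_da h, mul_assoc _ a, ← LODD_db h]
  simp only [mul_assoc]

theorem LODD_conj (h : LODD_Br j a b) : b = (a * b) ^ j * a * a * ((a * b) ^ j * a)⁻¹ := by
  rw [LODD_da h, mul_inv_cancel_right]

theorem LODD_eq (h : LODD_Br j a b) (hc : Commute a b) : a = b := by
  rw [LODD_Br, ← hc.eq] at h
  exact mul_left_cancel h

theorem LODD_eq' (h : LODD_Br j a b) (hc : Commute a ((a * b) ^ j * a)) : a = b := by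
  have := LODD_da h
  rw [← hc.eq] at this
  exact mul_right_cancel this

theorem LODD_map {K : Type} [Group K] (f : H →* K) (h : LODD_Br j a b) :
    LODD_Br j (f a) (f b) := by
  simpa [LODD_Br] using congrArg f h

theorem LODD_sgn (f : H →* ℤˣ) (h : LODD_Br j a b) : f (a * b) = 1 := by
  rw [map_mul, LODD_eq (LODD_map f h) (Commute.all _ _), Int.units_mul_self]

theorem LODD_fin {K L : Subgroup H} {c : H} (hK : Finite K) (h : L ≤ cj c K) : Finite L :=
  Finite.of_injective (fun g : L => (⟨c⁻¹ * g * c, h g.2⟩ : K)) fun _ _ e =>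
    Subtype.ext (by simpa using e)

end Grp

variable {B : Type} [Fintype B] [DecidableEq B] {N : CoxeterMatrix B} {a b : N.Group} {j : ℕ}

/-- case A with a periodic wall -/
theorem LODD_prod (ns : NoSph N) (A : CA N) (h0 : St_FREE) (h1 : St_SAC) (h : LODD_Br j a b)
    (hw : ¬ IsOfFinOrder ((a * b) ^ (2 * j + 1))) (hA : CaseA N ((a * b) ^ (2 * j + 1)))
    {c : N.Group} {P L : Set B} (hP : ProdA N ((a * b) ^ (2 * j + 1)) c P L) : Commute a b := by
  obtain ⟨-, iL, un, cP, sq⟩ := h1 B N ns _ c P L hw hA hP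
  have ca := LODD_sq h ▸ LODD_ca h
  have cb := LODD_sq h ▸ LODD_cb h
  obtain ⟨p, hp, l, hl, ea⟩ := hP.cen a ca
  obtain ⟨p', hp', l', hl', eb⟩ := hP.cen b cb
  have c1 : Commute p p' := cP p hp l hl p' hp' l' hl' (ea ▸ ca) (eb ▸ cb)
  have cm : ∀ u ∈ par N P, ∀ v ∈ par N L, Commute u v := fun u hu =>
    (A.b0.perp_fix P L hP.two u hu).2
  have mu : ∀ u ∈ par N P, ∀ v ∈ par N L, ∀ u' ∈ par N P, ∀ v' ∈ par N L,
      u * v * (u' * v') = u * u' * (v * v') := fun u _ v hv u' hu' v' _ => by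
    rw [mul_assoc, ← mul_assoc v, ← (cm u' hu' v hv).eq]
    simp only [mul_assoc]
  have pw : ∀ u ∈ par N P, ∀ v ∈ par N L, ∀ u' ∈ par N P, ∀ v' ∈ par N L, ∀ n : ℕ,
      (u * v * (u' * v')) ^ n = (u * u') ^ n * (v * v') ^ n := fun u hu v hv u' hu' v' hv' n => by
    rw [mu u hu v hv u' hu' v' hv', (cm _ (mul_mem hu hu') _ (mul_mem hv hv')).mul_pow]
  have b1 : LODD_Br j (p * l) (p' * l') := by
    have := LODD_map (MulAut.conj c⁻¹).toMonoidHom h
    simpa [ea, eb, mul_assoc] using this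
  have b2 : LODD_Br j l l' := by
    rw [LODD_Br, pw p hp l hl p' hp' l' hl', pw p' hp' l' hl' p hp l hl,
      mu _ (pow_mem (mul_mem hp hp') j) _ (pow_mem (mul_mem hl hl') j) p hp l hl,
      mu _ (pow_mem (mul_mem hp' hp) j) _ (pow_mem (mul_mem hl' hl) j) p' hp' l' hl'] at b1
    exact (un _ (mul_mem (pow_mem (mul_mem hp hp') j) hp) _
      (mul_mem (pow_mem (mul_mem hl hl') j) hl) _ (mul_mem (pow_mem (mul_mem hp' hp) j) hp') _
      (mul_mem (pow_mem (mul_mem hl' hl) j) hl') b1).2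
  have s1 := sq _ (pow_mem (mul_mem hp hp') (2 * j + 1)) _ (pow_mem (mul_mem hl hl') (2 * j + 1))
    (by rw [← pw p hp l hl p' hp' l' hl', ← conj_pow, ea, eb]; congr 1; group)
  have f1 : IsOfFinOrder (l * l') :=
    isOfFinOrder_iff_pow_eq_one.2 ⟨2 * j + 1 + (2 * j + 1), by omega, by rw [pow_add, s1]⟩
  have c2 : Commute l l' := by
    rcases (h0 B _ N Set.univ (sr N) ⟨A.b0.dyer, fun s hs => (hs trivial).elim, ns⟩ L iL).tor _
      (mul_mem hl hl') f1 with e | ⟨t, -, -, u, -, e⟩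
    · rw [eq_inv_of_mul_eq_one_left e]
      exact (Commute.refl _).inv_left
    · have := LODD_sgn (sg N) b2
      rw [e, map_mul, map_mul, map_inv, mul_inv_cancel_comm, sg_sr] at this
      exact absurd this (by decide)
  have c3 : Commute (p * l) (p' * l') :=
    (c1.mul_right (cm p hp l' hl')).mul_left ((cm p' hp' l hl).symm.mul_right c2)
  rw [ea, eb]
  exact c3.map (MulAut.conj c)

/-- the central element has infinite order -/
theorem LODD_inf (ns : NoSph N) (A : CA N) (h0 : St_FREE) (h1 : St_SAC) (h2 : St_SA) (h3 : St_CB)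
    (h : LODD_Br j a b) (hw : ¬ IsOfFinOrder ((a * b) ^ (2 * j + 1))) : Commute a b := by
  have ca := LODD_sq h ▸ LODD_ca h
  have cb := LODD_sq h ▸ LODD_cb h
  by_cases hA : CaseA N ((a * b) ^ (2 * j + 1))
  · by_cases hd : ∃ d, IsRoot N d ∧ Per N ((a * b) ^ (2 * j + 1)) d
    · obtain ⟨c, P, L, hP⟩ := h2 B N ns _ hw hA hd
      exact LODD_prod ns A h0 h1 h hw hA hP
    · exact A.b2.a0 _ hw hA (fun d h1 h2 => hd ⟨d, h1, h2⟩) a b ca cb
  · simp only [CaseA, not_forall, not_not] at hA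
    obtain ⟨e1, e2, k1, k2, k3⟩ := hA
    obtain ⟨K, -, hK, hm, hn⟩ := (h3 B N ns).1 _ e1 e2 k1 k2 k3
    have cd : Commute ((a * b) ^ j * a) ((a * b) ^ (2 * j + 1)) :=
      LODD_sq h ▸ Commute.self_pow _ 2
    have hab : a ∈ K ↔ b ∈ K := by
      conv_rhs => rw [LODD_conj h]
      exact hn _ cd a
    by_cases ha : a ∈ K
    · exact hK a ha b (hab.1 ha)
    · have hu := hm a b ca cb ha fun hb => ha (hab.2 hb)
      have e := (h3 B N ns).2 _ (a * b) (a * (a * b) * a⁻¹) (2 * j + 1) hw (Commute.self_pow _ _)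
        ((ca.mul_left (Commute.self_pow _ _)).mul_left ca.inv_left)
        (hK _ hu _ ((hn a ca _).1 hu)) (by omega)
        (by rw [conj_pow, ca.eq, mul_inv_cancel_right])
        (by rw [map_mul _ _ a⁻¹, map_mul _ a (a * b), map_inv, mul_inv_cancel_comm])
      rw [mul_assoc, mul_left_cancel_iff, eq_mul_inv_iff_mul_eq] at e
      exact e.symm

/-- a rotation of order two negates two crossing roots -/
theorem LODD_rot (A : CA N) {g : N.Group} (hr : IsRot N g) (h2 : g ^ 2 = 1) :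
    ∃ e f, Cross N e f ∧ rho N g e = -e ∧ rho N g f = -f := by
  obtain ⟨c, i, k, n, hik, h0, rfl, h1⟩ := hr
  have d2 : N i k ∣ n * 2 := by
    rw [← A.c0.ord, orderOf_dvd_iff_pow_eq_one, pow_mul]
    rwa [conj_pow, conj_eq_one_iff] at h2
  have d1 : ¬ N i k ∣ n := by
    rw [← A.c0.ord, orderOf_dvd_iff_pow_eq_one]
    rwa [Ne, conj_eq_one_iff] at h1
  obtain ⟨q, hq⟩ := d2
  obtain ⟨r, rfl⟩ : Odd q := by
    rcases Nat.even_or_odd q with ⟨r, rfl⟩ | h
    · exact (d1 ⟨r, by rw [mul_add] at hq; omega⟩).elim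
    · exact h
  have e1 : n * 2 = N i k * r * 2 + N i k := by rw [hq]; ring
  obtain ⟨m, hm⟩ : ∃ m, N i k = 2 * m := ⟨n - N i k * r, by omega⟩
  have e2 : (sr N i * sr N k) ^ n = (sr N i * sr N k) ^ m := by
    rw [show n = N i k * r + m by omega, pow_add, pow_mul, ← A.c0.ord, pow_orderOf_eq_one,
      one_pow, one_mul]
  have hf := (A.c0.half i k m hik (by omega) hm).1
  have key : ∀ t ∈ ({i, k} : Set B), rho N (c * (sr N i * sr N k) ^ n * c⁻¹) (rho N c (al t)) =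
      -rho N c (al t) := fun t ht => by
    rw [rho_mul, rho_mul, rho_inv, e2, hf _ fun s hs => al_ne fun e : s = t => hs (e ▸ ht),
      map_neg]
  obtain ⟨y, y1, -, y2⟩ := A.a1.face _ (A.c0.fin i k h0)
  have y3 : ∀ t ∈ ({i, k} : Set B), act N c y (rho N c (al t)) = 0 := fun t ht => by
    rw [act_rho]
    exact (y2 ▸ ht : t ∈ Zs y)
  refine ⟨rho N c (al i), rho N c (al k), ⟨⟨c, i, rfl⟩, ⟨c, k, rfl⟩, fun e => ?_, fun e => ?_,
    act N c y, A.a1.act_mem c y y1, y3 i (by simp), y3 k (by simp)⟩, key i (by simp),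
    key k (by simp)⟩
  · have := congrArg (rho N c⁻¹) e
    rw [rho_inv, rho_inv] at this
    exact hik (al_inj this).symm
  · have := congrFun (congrArg (rho N c⁻¹) e) k
    rw [map_neg, rho_inv, rho_inv, al_self, Pi.neg_apply, al_ne hik.symm, neg_zero] at this
    exact one_ne_zero this

theorem LODD_thm (hA : St_CA) (h0 : St_FREE) (h1 : St_SAC) (h2 : St_SA) (h3 : St_CB)
    (h4 : St_NF) : St_LODD := by
  rintro B _ _ N G _ ψ ν ns s t _ ⟨j, rfl⟩ hb
  rw [LODD_alt, LODD_alt] at hb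
  have A := hA B N ns
  have F := h4 B N G ψ ν ns
  have h : LODD_Br j (ψ s) (ψ t) := LODD_map ψ hb
  have eD : ψ ((s * t) ^ j * s) = (ψ s * ψ t) ^ j * ψ s := by simp
  have cr : ∀ w r, IsRefl N r → IsRefl N (w * r * w⁻¹) := fun w r ⟨e, he⟩ =>
    ⟨_, A.a0.refl_conj w r e he⟩
  suffices k : Commute (ψ s) (ψ t) ∨ Finite (Subgroup.closure {ψ s, ψ t}) by
    by_cases hs : IsRefl N (ψ s)
    · exact Or.inr ⟨hs, by rw [LODD_conj h]; exact cr _ _ hs⟩
    · refine Or.inl (LODD_eq h (k.elim id fun k => A.t1.fin_comm _ _ k hs fun ht => hs ?_))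
      have := cr ((ψ s * ψ t) ^ j * ψ s)⁻¹ _ ht
      rwa [inv_inv, mul_assoc, ← LODD_da h, inv_mul_cancel_left] at this
  by_cases hw : IsOfFinOrder ((ψ s * ψ t) ^ (2 * j + 1))
  swap
  · exact Or.inl (LODD_inf ns A h0 h1 h2 h3 h hw)
  by_cases hw1 : (ψ s * ψ t) ^ (2 * j + 1) = 1
  · rw [← LODD_sq h] at hw1
    have eq : ∀ _ : Commute (ψ s) ((ψ s * ψ t) ^ j * ψ s), Commute (ψ s) (ψ t) := fun c =>
      LODD_eq' h c ▸ Commute.refl _
    rcases A.t1.tors _ (isOfFinOrder_iff_pow_eq_one.2 ⟨2, two_pos, hw1⟩) with e | ⟨e, he⟩ | e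
    · exact Or.inl (eq (e ▸ Commute.one_right _))
    · have m1 : ψ s ∈ Subgroup.closure {ψ s, ψ t} := Subgroup.subset_closure (by simp)
      have m2 : ψ t ∈ Subgroup.closure {ψ s, ψ t} := Subgroup.subset_closure (by simp)
      refine (F.fix1 s t _ _ e 2 two_pos (LODD_ca hb) (LODD_cb hb)
        (eD ▸ mul_mem (pow_mem (mul_mem m1 m2) j) m1) he ?_).symm.imp_left fun c => eq c.1
      rw [eD, A.a0.refl_eq _ e he, A.a0.root_norm e (A.a0.refl_isRoot _ e he)]
      module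
    · obtain ⟨e1, e2, k1, k2, k3⟩ := LODD_rot A e hw1
      exact Or.inr (F.fix2 s t _ e1 e2 2 two_pos (LODD_ca hb) (LODD_cb hb) k1 (eD ▸ k2) (eD ▸ k3))
  · rcases A.t1.tors _ (hw.of_pow (by omega)) with e | e | ⟨c, i, k, n, hik, hN, e, -⟩
    · exact (hw1 (by rw [e, one_pow])).elim
    · exact absurd ((A.a0.refl_sq _ e).2.2.symm.trans (LODD_sgn (sg N) h)) (by decide)
    · have e' : (ψ s * ψ t) ^ (2 * j + 1) = c * (sr N i * sr N k) ^ (n * (2 * j + 1)) * c⁻¹ := by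
        rw [e, conj_pow, pow_mul]
      have n1 : (sr N i * sr N k) ^ (n * (2 * j + 1)) ≠ 1 := fun e1 =>
        hw1 (by rw [e', e1, mul_one, mul_inv_cancel])
      refine Or.inr (LODD_fin (A.c0.fin i k hN) (c := c) ((Subgroup.closure_le _).2 ?_))
      rintro _ (rfl | rfl)
      · exact A.t1.rot_cent c _ i k _ hik hN n1 (e' ▸ LODD_sq h ▸ LODD_ca h)
      · exact A.t1.rot_cent c _ i k _ hik hN n1 (e' ▸ LODD_sq h ▸ LODD_cb h)

end Pool.Agent.Lib.MP_1b8ce0_al.T
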