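import Mathlib
import Pool.Agent.Lib.MP_1b8ce0_al.T.StsC

set_option linter.unusedSectionVars false
set_option linter.dupNamespace false

namespace Pool.Agent.Lib.MP_1b8ce0_al.T

open Pool.Agent.Lib.MP_6d85b4_al

section

variable {S S' D : Type} [Group D] (M : CoxeterMatrix S) (R : Set S) (x : S → D)
  (M' : CoxeterMatrix S') (R' : Set S') (x' : S' → D) (Q : S → S' → Prop)

/-- the vertex relation -/
def MATCH_V (s : S) (s' : S') : Prop := (s ∈ R ∧ s' ∈ R' ∧ IsConj (x s) (x' s')) ∨ Q s s'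

/-- the edge relation -/
def MATCH_E (s t : S) (s' t' : S') : Prop :=
  EE M R x M' R' x' s t s' t' ∨ ((Q s s' ∨ Q t t') ∧ M s t = 2 ∧ M' s' t' = 2)

/-- the bijection of the free vertices as a relation -/
structure MATCH_P : Prop where
  dom : ∀ s s', Q s s' → s ∉ R ∧ s' ∉ R'
  tot : ∀ s, s ∉ R → ∃ s', Q s s'
  fn : ∀ s a b, Q s a → Q s b → a = b
  inj : ∀ s t a, Q s a → Q t a → s = t
  pair : ∀ f f' g g', Q f f' → Q g g' → M f g = 2 → M' f' g' = 2
  leaf : ∀ f f', Q f f' → ∀ l ∈ R, M f l = 2 → ∃ l' ∈ R', M' f' l' = 2 ∧ IsConj (x l) (x' l')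

variable {M R x M' R' x' Q}

theorem MATCH_odd (fl : Flex M R) {s t : S} (hs : s ∉ R) (h : OddConn M s t ∨ OddConn M t s) :
    t = s := by
  have k : ∀ u, u ≠ s → ¬ Odd (M s u) := fun u hu o => by
    rcases fl s hs u hu with e | e <;> rw [e] at o <;> exact absurd o (by decide)
  rcases h with h | h
  · rcases h.cases_head with e | ⟨u, ⟨a, b⟩, -⟩
    · exact e.symm
    · exact absurd b (k u a.symm)
  · rcases h.cases_tail with e | ⟨u, -, a, b⟩
    · exact e.symm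
    · rw [M.symmetric] at b
      exact absurd b (k u a)

theorem MATCH_half (cj : ∀ s t, IsConj (x s) (x t) ↔ OddConn M s t) (fl : Flex M R)
    (hL' : Low M' R') (mt : ∀ s ∈ R, ∃ s' ∈ R', IsConj (x s) (x' s'))
    (hE : EdgeF M R x M' R' x')
    (rg : ∀ T, Rigid M T → ∃ σ, Good M M' (EE M R x M' R' x') T σ)
    (P : MATCH_P M R x M' R' x' Q) :
    Half M M' (MATCH_V R x R' x' Q) (MATCH_E M R x M' R' x' Q) := by
  have nb : ∀ f f' t, Q f f' → M f t = 2 → ∃ t', M' f' t' = 2 ∧ MATCH_V R x R' x' Q t t' := by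
    intro f f' t q e
    by_cases ht : t ∈ R
    · obtain ⟨l, hl, a, b⟩ := P.leaf f f' q t ht e
      exact ⟨l, a, Or.inl ⟨ht, hl, b⟩⟩
    · obtain ⟨l, hl⟩ := P.tot t ht
      exact ⟨l, P.pair _ _ _ _ q hl e, Or.inr hl⟩
  have sy : ∀ s t s' t', MATCH_E M R x M' R' x' Q s t s' t' →
      MATCH_E M R x M' R' x' Q t s t' s' := by
    rintro s t s' t' (h | ⟨h, a, b⟩)
    · exact Or.inl (hE.symm _ _ _ _ h)
    · exact Or.inr ⟨h.symm, (M.symmetric _ _).trans a, (M'.symmetric _ _).trans b⟩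
  have ed : ∀ s t s' t', MATCH_E M R x M' R' x' Q s t s' t' →
      Adj M s t ∧ M' s' t' = M s t ∧ MATCH_V R x R' x' Q s s' := by
    rintro s t s' t' (h | ⟨h, a, b⟩)
    · exact ⟨h.2.2.2.2.1, (hE.edge _ _ _ _ h).1, Or.inl ⟨h.1, h.2.2.1, (hE.edge _ _ _ _ h).2⟩⟩
    · refine ⟨⟨?_, by omega⟩, b.trans a.symm, ?_⟩
      · rintro rfl
        exact absurd ((M.diagonal _).symm.trans a) (by decide)
      · rcases h with h | h
        · exact Or.inr h
        · obtain ⟨u, c, d⟩ := nb t t' s h ((M.symmetric _ _).trans a)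
          rwa [hL' t' (P.dom _ _ h).2 s' u ((M'.symmetric _ _).trans b) c]
  have et : ∀ s t, s ∉ R → Adj M s t → ∃ s' t', MATCH_E M R x M' R' x' Q s t s' t' := by
    intro s t hs h
    have e := (fl s hs t h.1.symm).resolve_left h.2
    obtain ⟨s', q⟩ := P.tot s hs
    obtain ⟨t', a, -⟩ := nb s s' t q e
    exact ⟨s', t', Or.inr ⟨Or.inl q, e, a⟩⟩
  have un : ∀ s t s' t' a b, s ∉ R → MATCH_E M R x M' R' x' Q s t s' t' →
      MATCH_E M R x M' R' x' Q s t a b → a = s' ∧ b = t' := by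
    intro s t s' t' a b hs h k
    obtain ⟨h1, h2, h3⟩ := ed _ _ _ _ h
    obtain ⟨-, k2, k3⟩ := ed _ _ _ _ k
    have q1 := h3.resolve_left fun c => hs c.1
    have q2 := k3.resolve_left fun c => hs c.1
    have e := (fl s hs t h1.1.symm).resolve_left h1.2
    obtain rfl := P.fn _ _ _ q1 q2
    exact ⟨rfl, hL' _ (P.dom _ _ q1).2 _ _ (k2.trans e) (h2.trans e)⟩
  refine ⟨fun s => ?_, fun s t s' h => ?_, sy, ed, fun s t h => ?_, fun s t s' t' a b h k => ?_,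
    ?_, fun T hT => ?_⟩
  · by_cases hs : s ∈ R
    · obtain ⟨s', a, b⟩ := mt s hs
      exact ⟨s', Or.inl ⟨hs, a, b⟩⟩
    · exact (P.tot s hs).imp fun _ => Or.inr
  · rcases h with ⟨a, b, c⟩ | h
    · constructor
      · rintro (⟨-, -, d⟩ | d)
        · exact (cj s t).1 (c.trans d.symm)
        · exact absurd b (P.dom _ _ d).2
      · intro d
        refine Or.inl ⟨?_, b, ((cj s t).2 d).symm.trans c⟩
        by_contra ht
        exact ht (MATCH_odd fl ht (Or.inr d) ▸ a)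
    · constructor
      · rintro (⟨-, b, -⟩ | d)
        · exact absurd b (P.dom _ _ h).2
        · rw [P.inj _ _ _ h d]
          exact Relation.ReflTransGen.refl
      · intro d
        rw [MATCH_odd fl (P.dom _ _ h).1 (Or.inl d)]
        exact Or.inr h
  · by_cases hs : s ∈ R
    · by_cases ht : t ∈ R
      · obtain ⟨s', t', e⟩ := hE.etot s hs t ht h
        exact ⟨s', t', Or.inl e⟩
      · obtain ⟨t', s', e⟩ := et t s ht ⟨h.1.symm, fun c => h.2 ((M.symmetric _ _).trans c)⟩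
        exact ⟨s', t', sy _ _ _ _ e⟩
    · exact et s t hs h
  · by_cases hs : s ∈ R
    · by_cases ht : t ∈ R
      · have z : ∀ a b, MATCH_E M R x M' R' x' Q s t a b → EE M R x M' R' x' s t a b :=
          fun a b c => c.resolve_right fun d =>
            d.1.elim (fun q => (P.dom _ _ q).1 hs) fun q => (P.dom _ _ q).1 ht
        exact hE.uniq _ _ _ _ _ _ (z _ _ h) (z _ _ k)
      · exact Or.inl (un _ _ _ _ _ _ ht (sy _ _ _ _ h) (sy _ _ _ _ k)).symm
    · exact Or.inl (un _ _ _ _ _ _ hs h k)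
  · rintro s t s' t' (h | ⟨-, a, -⟩) o
    · exact Or.inl (hE.odd _ _ _ _ h o)
    · rw [a] at o
      exact absurd o (by decide)
  · obtain ⟨σ, a, b⟩ := rg T hT
    exact ⟨σ, a, fun s hs t ht h => Or.inl (b s hs t ht h)⟩

end

theorem MATCH_thm (h1 : St_D1) (h2 : St_EDGE) (h3 : St_RIG) (h4 : St_PI) : St_MATCH := by
  intro D S S' _ _ _ _ _ M R x M' R' x' dp dp' mt hL hL'
  have mt' : Matched R' x' R x :=
    ⟨fun s hs => (mt.2 s hs).imp fun _ k => ⟨k.1, k.2.symm⟩,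
      fun s hs => (mt.1 s hs).imp fun _ k => ⟨k.1, k.2.symm⟩⟩
  obtain ⟨π, p1, p2, p3⟩ := h4 D S S' M R x M' R' x' dp dp' mt hL hL'
  have e1 := h2 D S S' M R x M' R' x' dp dp' mt
  have e2 := h2 D S' S M' R' x' M R x dp' dp mt'
  let Q : S → S' → Prop := fun s s' => ∃ (h : s ∉ R) (h' : s' ∉ R'), π ⟨s, h⟩ = ⟨s', h'⟩
  have fn : ∀ s a b, Q s a → Q s b → a = b := by
    rintro s a b ⟨h, h1, e⟩ ⟨_, h2, e'⟩
    exact congrArg Subtype.val (e.symm.trans e')
  have inj : ∀ s t a, Q s a → Q t a → s = t := by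
    rintro s t a ⟨h, h1, e⟩ ⟨_, h2, e'⟩
    exact congrArg Subtype.val (π.injective (e.trans e'.symm))
  have pr : ∀ f f' g g', Q f f' → Q g g' → (M f g = 2 ↔ M' f' g' = 2) := by
    rintro f f' g g' ⟨a, a', e⟩ ⟨b, b', e'⟩
    have := p1 ⟨f, a⟩ ⟨g, b⟩
    rwa [e, e'] at this
  have P : MATCH_P M R x M' R' x' Q :=
    ⟨fun _ _ ⟨a, b, _⟩ => ⟨a, b⟩, fun s hs => ⟨_, hs, (π ⟨s, hs⟩).2, rfl⟩, fn, inj,
      fun _ _ _ _ a b => (pr _ _ _ _ a b).1, by
        rintro f f' ⟨a, a', e⟩ l hl k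
        have := p2 ⟨f, a⟩ l hl k
        rwa [e] at this⟩
  have P' : MATCH_P M' R' x' M R x fun s' s => Q s s' :=
    ⟨fun _ _ ⟨a, b, _⟩ => ⟨b, a⟩,
      fun s hs => ⟨_, (π.symm ⟨s, hs⟩).2, hs, π.apply_symm_apply _⟩,
      fun _ _ _ a b => inj _ _ _ a b, fun _ _ _ a b => fn _ _ _ a b,
      fun _ _ _ _ a b => (pr _ _ _ _ a b).2, by
        rintro f' f ⟨a, a', e⟩ l hl k
        obtain ⟨u, hu, b, c⟩ := p3 ⟨f, a⟩ l hl (by rwa [e])
        exact ⟨u, hu, b, c.symm⟩⟩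
  refine ⟨_, _, MATCH_half (h1.2 S D M R x dp.dy).conj dp.fl hL' mt.1 e1
    (h3 D S S' M R x M' R' x' dp dp' mt hL hL') P, ?_⟩
  have H := MATCH_half (h1.2 S' D M' R' x' dp'.dy).conj dp'.fl hL mt'.1 e2
    (h3 D S' S M' R' x' M R x dp' dp mt' hL' hL) P'
  have v : (fun s' s => MATCH_V R x R' x' Q s s') = MATCH_V R' x' R x fun s' s => Q s s' := by
    funext s' s
    exact propext (or_congr_left
      ⟨fun h => ⟨h.2.1, h.1, h.2.2.symm⟩, fun h => ⟨h.2.1, h.1, h.2.2.symm⟩⟩)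
  have w : (fun s' t' s t => MATCH_E M R x M' R' x' Q s t s' t') =
      MATCH_E M' R' x' M R x fun s' s => Q s s' := by
    funext s' t' s t
    exact propext (or_congr ⟨e1.flip _ _ _ _, e2.flip _ _ _ _⟩ (and_congr_right' and_comm))
  rw [v, w]
  exact H

end Pool.Agent.Lib.MP_1b8ce0_al.T
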