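import Mathlib
import Pool.Agent.Lib.MP_1b8ce0_al.T.StsC

set_option linter.unusedSectionVars false
set_option linter.dupNamespace false
set_option linter.unusedVariables false

namespace Pool.Agent.Lib.MP_1b8ce0_al.T

open Pool.Agent.Lib.MP_6d85b4_al

section
variable {S D : Type} [Group D] {M : CoxeterMatrix S} {R : Set S} {x : S → D} {f : S}

/-- the component of `s` in the complement of the link -/
def MOD_comp (M : CoxeterMatrix S) (f s : S) : Set S := {t | Conn M (lk M f)ᶜ s t}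

theorem MOD_symm {A : Set S} {s t : S} (h : Conn M A s t) : Conn M A t s := by
  induction h with
  | refl => exact .refl
  | tail _ h ih =>
    exact .head ⟨h.2.1, h.1, h.2.2.1.symm, by rw [M.symmetric]; exact h.2.2.2⟩ ih

theorem MOD_comp_eq {s t : S} (h : Conn M (lk M f)ᶜ s t) : MOD_comp M f s = MOD_comp M f t :=
  Set.ext fun _ => ⟨fun h' => (MOD_symm h).trans h', fun h' => h.trans h'⟩

theorem MOD_QC {s t : S} (h : MOD_comp M f s = MOD_comp M f t) : QC M f s = QC M f t :=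
  Set.ext fun u => and_congr_right fun _ => Set.ext_iff.mp h u

theorem MOD_indep (h : NoSph M) (h2 : Two (lk M f)) : Indep M (perp M (lk M f)) := by
  obtain ⟨l, hl, -⟩ := h2
  intro s hs t ht hst
  have a1 : M s l = 2 := hs l hl
  have a2 : M t l = 2 := ht l hl
  have := h s t l hst (fun e => by rw [e, M.diagonal] at a2; omega)
    (fun e => by rw [e, M.diagonal] at a1; omega)
  rw [a1, a2] at this
  by_contra h0
  have : (0 : ℚ) < 1 / (M s t : ℚ) := by positivity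
  push_cast at *
  linarith

theorem MOD_same_perp {s : S} (h : s ∈ Same M R f) : s ∈ perp M (lk M f) := fun t ht => by
  rw [← h.2] at ht; exact ht

theorem MOD_same_adj (hF : Flex M R) {s t : S} (h : s ∈ Same M R f) (hst : s ≠ t)
    (h0 : M s t ≠ 0) : t ∈ lk M f ∧ M s t = 2 := by
  have := (hF s h.1 t hst.symm).resolve_left h0
  exact ⟨h.2 ▸ this, this⟩

theorem MOD_conn_same (hF : Flex M R) {s t : S} (h : t ∈ Same M R f)
    (hc : Conn M (lk M f)ᶜ s t) : s = t := by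
  rcases (MOD_symm hc).cases_head with e | ⟨u, ⟨-, h2, h3⟩, -⟩
  · exact e.symm
  · exact absurd (MOD_same_adj hF h h3.1 h3.2).1 h2

theorem MOD_alt_conj (h a b : D) (k : ℕ) :
    alt (h⁻¹ * a * h) (h⁻¹ * b * h) k = h⁻¹ * alt a b k * h := by
  simpa using (map_alt (MulAut.conj h⁻¹).toMonoidHom a b k).symm

theorem MOD_lift (hd : DP M R x) (h1 : D1 M R x) (z : S → D) (c : Set S → D)
    (hz : ∀ s ∈ Same M R f, z s ∈ gp x (perp M (lk M f)))
    (hc : ∀ C, c C ∈ gp x (perp M (lk M f))) : ∃ θ : D →* D, (∀ s ∈ Same M R f, θ (x s) = z s) ∧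
      ∀ s ∉ Same M R f, θ (x s) = (c (MOD_comp M f s))⁻¹ * x s * c (MOD_comp M f s) := by
  classical
  have cm : ∀ g ∈ gp x (perp M (lk M f)), ∀ l ∈ lk M f, Commute g (x l) := fun g hg l hl =>
    h1.perp (perp M (lk M f)) (lk M f) (fun p hp l hl => hp l hl) g hg _ (gp_mem x hl)
  have cl : ∀ C, ∀ l ∈ lk M f, (c C)⁻¹ * x l * c C = x l := fun C l hl => by
    rw [mul_assoc, ← (cm _ (hc C) l hl).eq, inv_mul_cancel_left]
  have ns : ∀ s ∈ Same M R f, s ∉ lk M f := fun s hs hl => by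
    have := MOD_same_perp hs s hl
    rw [M.diagonal] at this; omega
  have one : ∀ s ∈ Same M R f, ∀ t, s ≠ t → M s t ≠ 0 → t ∉ Same M R f ∧ M s t = 2 ∧
      Commute (z s) ((c (MOD_comp M f t))⁻¹ * x t * c (MOD_comp M f t)) := fun s hs t hst h0 => by
    obtain ⟨a, b⟩ := MOD_same_adj hd.fl hs hst h0
    exact ⟨fun h => ns t h a, b, by rw [cl _ t a]; exact cm _ (hz s hs) t a⟩
  have two : ∀ a b : D, Commute a b → alt a b 2 = alt b a 2 := fun a b h => by
    have e := alt_two_mul a b 1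
    have e' := alt_two_mul b a 1
    simp only [mul_one, pow_one] at e e'
    rw [e, e', h.eq]
  obtain ⟨θ, hθ⟩ := hd.dy.lift D (fun s => if s ∈ Same M R f then z s else
      (c (MOD_comp M f s))⁻¹ * x s * c (MOD_comp M f s)) (fun s _ t _ hst h0 => by
    by_cases hs : s ∈ Same M R f
    · obtain ⟨a, b, e⟩ := one s hs t hst h0
      simp only [if_pos hs, if_neg a, b]
      exact two _ _ e
    by_cases ht : t ∈ Same M R f
    · obtain ⟨-, b, e⟩ := one t ht s hst.symm (by rwa [M.symmetric])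
      rw [M.symmetric] at b
      simp only [if_pos ht, if_neg hs, b]
      exact two _ _ e.symm
    simp only [if_neg hs, if_neg ht]
    have br := hd.dy.braid s trivial t trivial hst h0
    by_cases hl : s ∈ lk M f
    · rw [cl _ s hl, ← cl (MOD_comp M f t) s hl, MOD_alt_conj, MOD_alt_conj, br]
    by_cases hl' : t ∈ lk M f
    · rw [cl _ t hl', ← cl (MOD_comp M f s) t hl', MOD_alt_conj, MOD_alt_conj, br]
    rw [ MOD_comp_eq (.single ⟨hl, hl', hst, h0⟩), MOD_alt_conj, MOD_alt_conj, br])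
    (fun s hs => by
      have : s ∉ Same M R f := fun h => h.1 hs
      simp only [if_neg this]
      have e := hd.dy.sqr s hs
      calc _ = (c (MOD_comp M f s))⁻¹ * (x s * x s) * c (MOD_comp M f s) := by group
        _ = 1 := by rw [e]; group)
  exact ⟨θ, fun s hs => by rw [hθ, if_pos hs], fun s hs => by rw [hθ, if_neg hs]⟩

theorem MOD_agree {K : Subgroup D} {A : Set S} (hA : gp x A ≤ K) (η : K →* D) (θ φ : D →* D)
    (hθ : ∀ g ∈ gp x A, θ g ∈ K) (h : ∀ u ∈ A, ∀ hu, η ⟨θ (x u), hu⟩ = φ (x u)) :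
    ∀ g ∈ gp x A, ∀ hg, η ⟨θ g, hg⟩ = φ g := by
  intro g hg
  induction hg using Subgroup.closure_induction with
  | mem g hg => obtain ⟨u, hu, rfl⟩ := hg; exact h u hu
  | one =>
    intro hg
    exact ((congrArg η (Subtype.ext (map_one θ))).trans (map_one η)).trans (map_one φ).symm
  | mul a b ha hb iha ihb =>
    intro hg
    rw [map_mul φ, ← iha (hθ a ha), ← ihb (hθ b hb), ← map_mul η]
    exact congrArg η (Subtype.ext (map_mul θ a b))
  | inv a ha iha =>
    intro hg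
    rw [map_inv φ, ← iha (hθ a ha), ← map_inv η]
    exact congrArg η (Subtype.ext (map_inv θ a))

theorem MOD_eq {A : Set S} (θ φ : D →* D) (h : ∀ u ∈ A, θ (x u) = φ (x u)) :
    ∀ g ∈ gp x A, θ g = φ g := fun g hg =>
  MonoidHom.eqOn_closure (by rintro _ ⟨u, hu, rfl⟩; exact h u hu) hg

theorem MOD_maps {A : Set S} {K : Subgroup D} (θ : D →* D) (h : ∀ u ∈ A, θ (x u) ∈ K) :
    ∀ g ∈ gp x A, θ g ∈ K := fun g hg => (gp_le (K := K.comap θ)).mpr h hg

end

theorem MOD_thm (h1 : St_D1) (h2 : St_TT) (h3 : St_RESTR) (h4 : St_DPAR) (h5 : St_FREE)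
    (h6 : St_CNT) (h7 : St_LOC2) : St_MOD := by
  intro D S S' _ _ _ _ _ M R x M' R' x' hd hd' hm f f' hs
  classical
  have hm' : Matched R' x' R x :=
    ⟨fun s hs => (hm.2 s hs).imp fun _ h => ⟨h.1, h.2.symm⟩,
      fun s hs => (hm.1 s hs).imp fun _ h => ⟨h.1, h.2.symm⟩⟩
  have hs' : Sym M' R' x' M R x f' f := ⟨hs.nf', hs.nf, hs.two', hs.two, hs.eq.symm⟩
  obtain ⟨eP, -, ⟨π⟩⟩ := h6 D S S' M R x M' R' x' hd hd' hm f f' hs
  have l1 := h7 D S S' M R x M' R' x' hd hd' hm f f' hs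
  have l2 := h7 D S' S M' R' x' M R x hd' hd hm' f' f hs'
  have d1 := h1.2 S D M R x hd.dy
  have fr := h5 S D M R x hd _ (MOD_indep hd.ns hs.two)
  have fr' := h5 S' D M' R' x' hd' _ (MOD_indep hd'.ns hs.two')
  have : ∀ C : Set S, ∃ h ∈ gp x (perp M (lk M f)), ∃ q', ∀ q ∈ perp M (lk M f),
      q ∉ Same M R f → MOD_comp M f q = C → q' ∈ perp M' (lk M' f') ∧ q' ∉ Same M' R' f' ∧
        gp x (QC M f q) = cj h (gp x' (QC M' f' q')) := fun C => by
    by_cases e : ∃ q ∈ perp M (lk M f), q ∉ Same M R f ∧ MOD_comp M f q = C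
    · obtain ⟨q, a, b, rfl⟩ := e
      obtain ⟨q', a', b', h, hh, e⟩ := l1 q a b
      exact ⟨h, hh, q', fun q2 _ _ e2 => ⟨a', b', by rw [ MOD_QC e2, e]⟩⟩
    · exact ⟨1, one_mem _, f', fun q a b c => absurd ⟨q, a, b, c⟩ e⟩
  choose c hc q' hq using this
  let z : S → D := fun s => if h : s ∈ Same M R f then x' (π ⟨s, h⟩) else 1
  have hz : ∀ s (h : s ∈ Same M R f), z s = x' (π ⟨s, h⟩) := fun s h => dif_pos h
  have hz' : ∀ s ∈ Same M R f, z s ∈ gp x (perp M (lk M f)) := fun s h => by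
    rw [hz s h, eP]; exact gp_mem x' (MOD_same_perp (π ⟨s, h⟩).2)
  obtain ⟨θ, t1, t2⟩ := MOD_lift hd d1 z c hz' hc
  have tP : ∀ g ∈ gp x (perp M (lk M f)), θ g ∈ gp x (perp M (lk M f)) :=
    MOD_maps θ fun u hu => by
      by_cases e : u ∈ Same M R f
      · rw [t1 u e]; exact hz' u e
      · rw [t2 u e]; exact mul_mem (mul_mem (inv_mem (hc _)) (gp_mem x hu)) (hc _)
  have sub : ∀ q, QC M f q ⊆ perp M (lk M f) := fun q _ h => h.1
  have sub' : ∀ q, QC M' f' q ⊆ perp M' (lk M' f') := fun q _ h => h.1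
  have self : ∀ q ∈ perp M (lk M f), x q ∈ gp x (QC M f q) := fun q h => gp_mem x ⟨h, .refl⟩
  have tC : ∀ q ∉ Same M R f, ∀ g ∈ gp x (QC M f q),
      θ g = (c (MOD_comp M f q))⁻¹ * g * c (MOD_comp M f q) := fun q hq g hg => by
    have := MOD_eq θ (MulAut.conj (c (MOD_comp M f q))⁻¹).toMonoidHom (fun u hu => by
      rw [t2 u fun h => hq (MOD_conn_same hd.fl h hu.2 ▸ h), MOD_comp_eq hu.2]
      simp) g hg
    simpa using this
  have sur : ∀ g ∈ gp x (perp M (lk M f)), ∃ g' ∈ gp x (perp M (lk M f)), θ g' = g := by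
    intro g hg
    rw [eP] at hg
    refine (gp_le (K := (gp x (perp M (lk M f))).map θ)).mpr (fun u hu => ?_) hg
    by_cases e : u ∈ Same M' R' f'
    · refine ⟨x (π.symm ⟨u, e⟩), gp_mem x (MOD_same_perp (π.symm ⟨u, e⟩).2), ?_⟩
      rw [t1 _ (π.symm ⟨u, e⟩).2, hz _ (π.symm ⟨u, e⟩).2]
      simp
    · obtain ⟨q, a, b, k, hk, e'⟩ := l2 u hu e
      obtain ⟨-, -, e2⟩ := hq _ q a b rfl
      have m : u ∈ QC M' f' (q' (MOD_comp M f q)) := fr'.ncj _ (sub' _) u hu _
        (mul_mem hk (eP ▸ hc (MOD_comp M f q))) (by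
          rw [← cj_cj, ← e2, ← e']; exact gp_mem x' ⟨hu, .refl⟩)
      have m2 : c (MOD_comp M f q) * x' u * (c (MOD_comp M f q))⁻¹ ∈ gp x (QC M f q) := by
        rw [e2, conj_mem_cj]; exact gp_mem x' m
      exact ⟨_, gp_mono x (sub q) m2, by rw [tC q b _ m2]; group⟩
  have : ∀ u : S', ∃ H, ∀ q ∈ perp M (lk M f), q ∉ Same M R f →
      u ∈ QC M' f' (q' (MOD_comp M f q)) → H = c (MOD_comp M f q) := fun u => by
    by_cases e : ∃ q ∈ perp M (lk M f), q ∉ Same M R f ∧ u ∈ QC M' f' (q' (MOD_comp M f q))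
    · obtain ⟨q, a, b, m⟩ := e
      refine ⟨_, fun q2 a2 b2 m2 => congrArg c (MOD_comp_eq (fr.ncj _ (sub q) q2 a2
        (c (MOD_comp M f q2) * (c (MOD_comp M f q))⁻¹) (mul_mem (hc _) (inv_mem (hc _))) ?_).2)⟩
      rw [(hq _ q a b rfl).2.2, cj_cj, inv_mul_cancel_right,
        MOD_QC (MOD_comp_eq (m.2.trans (MOD_symm m2.2))), ← (hq _ q2 a2 b2 rfl).2.2]
      exact self q2 a2
    · exact ⟨1, fun q a b m => absurd ⟨q, a, b, m⟩ e⟩
  choose H hH using this
  obtain ⟨η, hη⟩ := (h3 S' D M' R' x' hd'.dy hd'.fl (perp M' (lk M' f'))).1 D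
    (fun u => if h : u ∈ Same M' R' f' then x (π.symm ⟨u, h⟩) else H u * x' u * (H u)⁻¹)
    (fun s a t b hst h0 => absurd (MOD_indep hd'.ns hs.two' s a t b hst) h0) fun s _ hs => by
      have : s ∉ Same M' R' f' := fun h => h.1 hs
      simp only [dif_neg this]
      calc _ = H s * (x' s * x' s) * (H s)⁻¹ := by group
        _ = 1 := by rw [hd'.dy.sqr s hs]; group
  have inv : ∀ g ∈ gp x (perp M (lk M f)), ∀ hg, η ⟨θ g, hg⟩ = g :=
    MOD_agree eP.le η θ (MonoidHom.id D) (fun g hg => eP ▸ tP g hg) fun u hu hu' => by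
      by_cases e : u ∈ Same M R f
      · have e1 := (t1 u e).trans (hz u e)
        rw [show (⟨θ (x u), hu'⟩ : gp x' _) = ⟨_, e1 ▸ hu'⟩ from Subtype.ext e1,
          hη _ _ (MOD_same_perp (π ⟨u, e⟩).2), dif_pos (π ⟨u, e⟩).2]
        simp
      · obtain ⟨a, b, e2⟩ := hq _ u hu e rfl
        have m : θ (x u) ∈ gp x' (QC M' f' (q' (MOD_comp M f u))) := by
          rw [t2 u e, ← mem_cj, ← e2]; exact self u hu
        have := MOD_agree (gp_mono x' (sub' (q' (MOD_comp M f u)))) η (MonoidHom.id D)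
          (MulAut.conj (c (MOD_comp M f u))).toMonoidHom (fun g hg => gp_mono x' (sub' _) hg)
          (fun v hv hv' => by
            have := hη v hv' hv.1
            rw [dif_neg fun h => b (MOD_conn_same hd'.fl h hv.2 ▸ h), hH v u hu e hv] at this
            exact this) _ m hu'
        refine this.trans ?_
        rw [t2 u e]
        simp [mul_assoc]
  have inj : ∀ g ∈ gp x (perp M (lk M f)), ∀ g' ∈ gp x (perp M (lk M f)), θ g = θ g' → g = g' :=
    fun g hg g' hg' e => by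
      rw [← inv g hg (eP ▸ tP g hg), ← inv g' hg' (eP ▸ tP g' hg')]
      exact congrArg η (Subtype.ext e)
  choose k hk hk' using fun C => sur _ (inv_mem (hc C))
  have : ∀ s, ∃ w ∈ gp x (perp M (lk M f)), s ∈ Same M R f → θ w = x s := fun s => by
    by_cases e : s ∈ Same M R f
    · obtain ⟨w, a, b⟩ := sur _ (gp_mem x (MOD_same_perp e))
      exact ⟨w, a, fun _ => b⟩
    · exact ⟨1, one_mem _, fun h => absurd h e⟩
  choose w hw hw' using this
  obtain ⟨θ', s1, s2⟩ := MOD_lift hd d1 w k (fun s _ => hw s) hk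
  have e1 : ∀ s, θ (θ' (x s)) = x s := fun s => by
    by_cases e : s ∈ Same M R f
    · rw [s1 s e, hw' s e]
    · rw [s2 s e, map_mul, map_mul, map_inv, hk', t2 s e]; group
  have e2 : ∀ g, θ (θ' g) = g := fun g =>
    DFunLike.congr_fun (d1.ext D (θ.comp θ') (MonoidHom.id D) e1) g
  have sP : ∀ g ∈ gp x (perp M (lk M f)), θ' g ∈ gp x (perp M (lk M f)) :=
    MOD_maps θ' fun u hu => by
      by_cases e : u ∈ Same M R f
      · rw [s1 u e]; exact hw u
      · rw [s2 u e]; exact mul_mem (mul_mem (inv_mem (hk _)) (gp_mem x hu)) (hk _)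
  have e3 : ∀ s, θ' (θ (x s)) = x s := fun s => by
    by_cases e : s ∈ Same M R f
    · have m := gp_mem x (MOD_same_perp e)
      exact inj _ (sP _ (tP _ m)) _ m (e2 _)
    · have : θ' (c (MOD_comp M f s)) = (k (MOD_comp M f s))⁻¹ :=
        inj _ (sP _ (hc _)) _ (inv_mem (hk _)) (by rw [e2, map_inv, hk', inv_inv])
      rw [t2 s e, map_mul, map_mul, map_inv, this, s2 s e]; group
  have cj : ∀ s ∈ R, IsConj (θ (x s)) (x s) := fun s hs => by
    rw [t2 s fun h => h.1 hs]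
    exact isConj_iff.mpr ⟨c (MOD_comp M f s), by group⟩
  have hf : f ∈ Same M R f := ⟨hs.nf, rfl⟩
  refine ⟨fun s => θ (x s), ⟨d1.aut θ θ' e1 e3, hd.fl, hd.ns⟩, ⟨fun s hs => ?_, fun s hs => ?_⟩,
    π ⟨f, hf⟩, (π ⟨f, hf⟩).2.1, (t1 f hf).trans (hz f hf)⟩
  · obtain ⟨s', a, b⟩ := hm.1 s hs
    exact ⟨s', a, (cj s hs).trans b⟩
  · obtain ⟨s', a, b⟩ := hm.2 s hs
    exact ⟨s', a, (cj s' a).trans b⟩

end Pool.Agent.Lib.MP_1b8ce0_al.T
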