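import Mathlib
import Pool.Agent.Lib.MP_1b8ce0_al.T.StsB

set_option linter.unusedSectionVars false
set_option linter.dupNamespace false

namespace Pool.Agent.Lib.MP_1b8ce0_al.T

open Pool.Agent.Lib.MP_6d85b4_al

/-! ### composition of affine maps -/

theorem MODEL_dd {f g : Equiv.Perm (ℤ × ℤ)} {a b p q a' b' p' q' x y z w : ℤ}
    (hf : Diag f a b p q) (hg : Diag g a' b' p' q') (h1 : x = a * a') (h2 : y = b * b')
    (h3 : z = a * p' + p) (h4 : w = b * q' + q) : Diag (f * g) x y z w := by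
  intro X Y
  rw [Equiv.Perm.mul_apply, hg, hf, h1, h2, h3, h4]
  ext <;> simp only <;> ring

theorem MODEL_ds {f g : Equiv.Perm (ℤ × ℤ)} {a b p q a' b' p' q' x y z w : ℤ}
    (hf : Diag f a b p q) (hg : Swp g a' b' p' q') (h1 : x = a * a') (h2 : y = b * b')
    (h3 : z = a * p' + p) (h4 : w = b * q' + q) : Swp (f * g) x y z w := by
  intro X Y
  rw [Equiv.Perm.mul_apply, hg, hf, h1, h2, h3, h4]
  ext <;> simp only <;> ring

theorem MODEL_sd {f g : Equiv.Perm (ℤ × ℤ)} {a b p q a' b' p' q' x y z w : ℤ}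
    (hf : Swp f a b p q) (hg : Diag g a' b' p' q') (h1 : x = a * b') (h2 : y = b * a')
    (h3 : z = a * q' + p) (h4 : w = b * p' + q) : Swp (f * g) x y z w := by
  intro X Y
  rw [Equiv.Perm.mul_apply, hg, hf, h1, h2, h3, h4]
  ext <;> simp only <;> ring

theorem MODEL_ss {f g : Equiv.Perm (ℤ × ℤ)} {a b p q a' b' p' q' x y z w : ℤ}
    (hf : Swp f a b p q) (hg : Swp g a' b' p' q') (h1 : x = a * b') (h2 : y = b * a')
    (h3 : z = a * q' + p) (h4 : w = b * p' + q) : Diag (f * g) x y z w := by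
  intro X Y
  rw [Equiv.Perm.mul_apply, hg, hf, h1, h2, h3, h4]
  ext <;> simp only <;> ring

theorem MODEL_one : Diag (1 : Equiv.Perm (ℤ × ℤ)) 1 1 0 0 := by
  intro X Y
  simp

theorem MODEL_inv {f : Equiv.Perm (ℤ × ℤ)} {p q : ℤ} (hf : Diag f 1 1 p q) :
    Diag f⁻¹ 1 1 (-p) (-q) := by
  intro X Y
  rw [Equiv.Perm.inv_eq_iff_eq, hf]
  ext <;> simp only <;> ring

theorem MODEL_zpow {f : Equiv.Perm (ℤ × ℤ)} {p q : ℤ} (hf : Diag f 1 1 p q) (n : ℤ) :
    Diag (f ^ n) 1 1 (n * p) (n * q) := by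
  induction n using Int.induction_on with
  | zero => simpa using MODEL_one
  | succ n ih =>
    rw [zpow_add_one]
    exact MODEL_dd ih hf (by ring) (by ring) (by ring) (by ring)
  | pred n ih =>
    rw [zpow_sub_one]
    exact MODEL_dd ih (MODEL_inv hf) (by ring) (by ring) (by ring) (by ring)

theorem MODEL_deq {f g : Equiv.Perm (ℤ × ℤ)} {a b p q : ℤ} (hf : Diag f a b p q)
    (hg : Diag g a b p q) : f = g := by
  refine Equiv.ext fun P => ?_
  obtain ⟨X, Y⟩ := P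
  rw [hf, hg]

theorem MODEL_seq {f g : Equiv.Perm (ℤ × ℤ)} {a b p q : ℤ} (hf : Swp f a b p q)
    (hg : Swp g a b p q) : f = g := by
  refine Equiv.ext fun P => ?_
  obtain ⟨X, Y⟩ := P
  rw [hf, hg]

theorem MODEL_duniq {f : Equiv.Perm (ℤ × ℤ)} {a b p q a' b' p' q' : ℤ} (h : Diag f a b p q)
    (h' : Diag f a' b' p' q') : a = a' ∧ b = b' ∧ p = p' ∧ q = q' := by
  have e0 := (h 0 0).symm.trans (h' 0 0)
  have e1 := (h 1 1).symm.trans (h' 1 1)
  simp only [Prod.mk.injEq] at e0 e1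
  omega

theorem MODEL_suniq {f : Equiv.Perm (ℤ × ℤ)} {a b p q a' b' p' q' : ℤ} (h : Swp f a b p q)
    (h' : Swp f a' b' p' q') : a = a' ∧ b = b' ∧ p = p' ∧ q = q' := by
  have e0 := (h 0 0).symm.trans (h' 0 0)
  have e1 := (h 1 1).symm.trans (h' 1 1)
  simp only [Prod.mk.injEq] at e0 e1
  omega

theorem MODEL_ds_zero {f : Equiv.Perm (ℤ × ℤ)} {a b p q a' b' p' q' : ℤ} (h : Diag f a b p q)
    (h' : Swp f a' b' p' q') : a = 0 ∧ b' = 0 := by
  have e0 := (h 0 0).symm.trans (h' 0 0)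
  have e1 := (h 1 0).symm.trans (h' 1 0)
  simp only [Prod.mk.injEq] at e0 e1
  omega

theorem MODEL_zp (u : ℤˣ) {m n : ℤ} (t : ℤ) (h : m = n + 2 * t) : u ^ m = u ^ n := by
  have h2 : u ^ (2 : ℤ) = 1 := by
    rcases Int.units_eq_one_or u with rfl | rfl
    · simp
    · decide
  rw [h, zpow_add, zpow_mul, h2, one_zpow, mul_one]

/-! ### the three mirrors -/

def MODEL_fi : Equiv.Perm (ℤ × ℤ) :=
  Function.Involutive.toPerm (fun P => (-P.1, P.2)) fun P => by simp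

def MODEL_fj : Equiv.Perm (ℤ × ℤ) :=
  Function.Involutive.toPerm (fun P => (P.2, P.1)) fun P => by simp

def MODEL_fk : Equiv.Perm (ℤ × ℤ) :=
  Function.Involutive.toPerm (fun P => (P.1, 2 - P.2)) fun P => by simp

theorem MODEL_fi_d : Diag MODEL_fi (-1) 1 0 0 := by
  intro X Y
  simp [ MODEL_fi]

theorem MODEL_fj_s : Swp MODEL_fj 1 1 0 0 := by
  intro X Y
  simp [ MODEL_fj]

theorem MODEL_fk_d : Diag MODEL_fk 1 (-1) 0 1 := by
  intro X Y
  simp [ MODEL_fk]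
  ring

theorem MODEL_alt4 {G : Type} [Group G] (s t : G) : alt s t 4 = s * t * (s * t) := by
  rw [show 4 = 2 * 2 from rfl, alt_two_mul, pow_two]

theorem MODEL_alt2 {G : Type} [Group G] (s t : G) : alt s t 2 = s * t := by
  rw [show 2 = 2 * 1 from rfl, alt_two_mul, pow_one]

theorem MODEL_ij : alt MODEL_fi MODEL_fj 4 = alt MODEL_fj MODEL_fi 4 := by
  rw [ MODEL_alt4, MODEL_alt4]
  refine Equiv.ext fun P => ?_
  simp [ MODEL_fi, MODEL_fj]

theorem MODEL_jk : alt MODEL_fj MODEL_fk 4 = alt MODEL_fk MODEL_fj 4 := by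
  rw [ MODEL_alt4, MODEL_alt4]
  refine Equiv.ext fun P => ?_
  simp [ MODEL_fk, MODEL_fj]

theorem MODEL_ik : alt MODEL_fi MODEL_fk 2 = alt MODEL_fk MODEL_fi 2 := by
  rw [ MODEL_alt2, MODEL_alt2]
  refine Equiv.ext fun P => ?_
  simp [ MODEL_fi, MODEL_fk]

section Cox

variable {B : Type} [Fintype B] [DecidableEq B] {N : CoxeterMatrix B} {i j k : B}

theorem MODEL_ne (h : Tri4 N i j k) : i ≠ j ∧ j ≠ k ∧ i ≠ k := by
  obtain ⟨h1, h2, h3⟩ := h
  refine ⟨?_, ?_, ?_⟩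
  · rintro rfl
    rw [N.diagonal] at h1
    omega
  · rintro rfl
    rw [N.diagonal] at h2
    omega
  · rintro rfl
    rw [N.diagonal] at h3
    omega

theorem MODEL_sinv (s : B) : (sr N s)⁻¹ = sr N s := N.toCoxeterSystem.inv_simple s

/-- induction along words in the generators of a standard parabolic subgroup -/
theorem MODEL_ind {T : Set B} (P : par N T → Prop) (h1 : P 1)
    (hs : ∀ s (h : s ∈ T) g, P g → P (⟨sr N s, gp_mem _ h⟩ * g)) (g : par N T) : P g := by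
  obtain ⟨g, hg⟩ := g
  induction hg using Subgroup.closure_induction_left with
  | one => exact h1
  | mul_left x hx y hy ih =>
    obtain ⟨s, h, rfl⟩ := hx
    exact hs s h ⟨y, hy⟩ ih
  | inv_mul_cancel x hx y hy ih =>
    obtain ⟨s, h, rfl⟩ := hx
    have := hs s h ⟨y, hy⟩ ih
    convert this using 1
    refine Subtype.ext ?_
    simp only [Subgroup.coe_mul, MODEL_sinv]

/-- the affine function attached to a vector -/
noncomputable def MODEL_ev (i j k : B) (P : ℤ × ℤ) (v : B → ℝ) : ℝ :=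
  2 * v i * P.1 + √2 * v j * (P.2 - P.1) + 2 * v k * (1 - P.2)

theorem MODEL_ip (h : Tri4 N i j k) (s : B) {v : B → ℝ} (hv : Supp {i, j, k} v) :
    ip N s v = cc N s i * v i + cc N s j * v j + cc N s k * v k := by
  obtain ⟨n1, n2, n3⟩ := MODEL_ne h
  rw [ip_apply, ← Finset.sum_subset (Finset.subset_univ {i, j, k})]
  · rw [Finset.sum_insert (by simp [n1, n3]), Finset.sum_pair n2, add_assoc]
  · intro x _ hx
    rw [hv x (by simpa using hx), mul_zero]

theorem MODEL_cc (h : Tri4 N i j k) : cc N i j = √2 ∧ cc N j k = √2 ∧ cc N i k = 0 := by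
  obtain ⟨h1, h2, h3⟩ := h
  refine ⟨?_, ?_, ?_⟩
  · rw [cc, h1]
    push_cast
    rw [Real.cos_pi_div_four]
    ring
  · rw [cc, h2]
    push_cast
    rw [Real.cos_pi_div_four]
    ring
  · rw [cc, h3]
    push_cast
    rw [Real.cos_pi_div_two]
    ring

theorem MODEL_inj (h2 : C0b N) (h : Tri4 N i j k) (μ : par N {i, j, k} →* Equiv.Perm (ℤ × ℤ))
    (mi : ∀ h, Diag (μ ⟨sr N i, h⟩) (-1) 1 0 0) (mj : ∀ h, Swp (μ ⟨sr N j, h⟩) 1 1 0 0)
    (ml : ∀ h, Diag (μ ⟨sr N k, h⟩) 1 (-1) 0 1) : Function.Injective μ := by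
  obtain ⟨n1, n2, n3⟩ := MODEL_ne h
  obtain ⟨c1, c2, c3⟩ := MODEL_cc h
  have r2 : √2 * √2 = 2 := Real.mul_self_sqrt (by norm_num)
  have key : ∀ g : par N {i, j, k}, ∀ P v, Supp {i, j, k} v →
      MODEL_ev i j k (μ g P) (rho N g v) = MODEL_ev i j k P v := by
    refine MODEL_ind _ ?_ ?_
    · intro P v _
      simp
    · intro s hs g ih P v hv
      have hw := h2.supp_par _ _ _ g.2 hv
      rw [← ih P v hv, map_mul, Equiv.Perm.mul_apply, Subgroup.coe_mul, rho_mul]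
      generalize μ g P = Q
      generalize rho N (g : N.Group) v = w at hw
      obtain ⟨X, Y⟩ := Q
      simp only [rho_simple, rf_apply, MODEL_ip h _ hw]
      rcases hs with rfl | rfl | rfl
      · rw [mi]
        simp only [ MODEL_ev, Pi.add_apply, Pi.smul_apply, smul_eq_mul, al_self, al_ne n1.symm,
          al_ne n3.symm, cc_self, c1, c3]
        push_cast
        ring
      · rw [mj]
        simp only [ MODEL_ev, Pi.add_apply, Pi.smul_apply, smul_eq_mul, al_self, al_ne n1,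
          al_ne n2.symm, cc_self, cc_symm N s i, c1, c2]
        push_cast
        linear_combination ((w i + w k) * (X - Y)) * r2
      · rw [ml]
        simp only [ MODEL_ev, Pi.add_apply, Pi.smul_apply, smul_eq_mul, al_self, al_ne n2,
          al_ne n3, cc_self, cc_symm N s i, cc_symm N s j, c2, c3]
        push_cast
        ring
  rw [injective_iff_map_eq_one]
  intro g hg
  refine Subtype.ext (h2.faithT _ _ g.2 fun l hl => ?_)
  have hs : Supp {i, j, k} (al l) := fun x hx => al_ne fun e => hx (e ▸ hl)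
  have e1 := key g (0, 0) _ hs
  have e2 := key g (0, 1) _ hs
  have e3 := key g (1, 1) _ hs
  have hw := h2.supp_par _ _ _ g.2 hs
  rw [hg] at e1 e2 e3
  simp only [ MODEL_ev, Equiv.Perm.one_apply] at e1 e2 e3
  push_cast at e1 e2 e3
  have hr : (0 : ℝ) < √2 := by positivity
  intro x
  by_cases hx : x ∈ ({i, j, k} : Set B)
  · have hp := pos_al l x
    rcases hx with rfl | rfl | rfl
    · linarith
    · have : √2 * (rho N (g : N.Group) (al l) x - al l x) = 0 := by linarith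
      rcases mul_eq_zero.1 this with h0 | h0
      · exact absurd h0 hr.ne'
      · linarith
    · linarith
  · rw [hw x hx]

theorem MODEL_exists (h2 : C0b N) (h : Tri4 N i j k) : ∃ μ, Model N i j k μ := by
  obtain ⟨n1, n2, n3⟩ := MODEL_ne h
  obtain ⟨l1, l2, l3⟩ := id h
  set f : B → Equiv.Perm (ℤ × ℤ) :=
    fun s => if s = i then MODEL_fi else if s = j then MODEL_fj else MODEL_fk with hf
  have fi : f i = MODEL_fi := by simp [hf]
  have fj : f j = MODEL_fj := by simp [hf, n1.symm]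
  have fk : f k = MODEL_fk := by simp [hf, n2.symm, n3.symm]
  have hb : Braid N {i, j, k} f := by
    intro s hs t ht hst _
    simp only [Set.mem_insert_iff, Set.mem_singleton_iff] at hs ht
    rcases hs with e | e | e <;> rcases ht with e' | e' | e'
    · rw [e, e']
    · rw [e, e', l1, fi, fj, MODEL_ij]
    · rw [e, e', l3, fi, fk, MODEL_ik]
    · rw [e, e', N.symmetric j i, l1, fi, fj, MODEL_ij]
    · rw [e, e']
    · rw [e, e', l2, fk, fj, MODEL_jk]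
    · rw [e, e', N.symmetric k i, l3, fi, fk, MODEL_ik]
    · rw [e, e', N.symmetric k j, l2, fk, fj, MODEL_jk]
    · rw [e, e']
  have hq : ∀ s ∈ ({i, j, k} : Set B), f s * f s = 1 := by
    intro s hs
    simp only [Set.mem_insert_iff, Set.mem_singleton_iff] at hs
    rcases hs with e | e | e <;> rw [e]
    · rw [fi]
      exact MODEL_deq (MODEL_dd MODEL_fi_d MODEL_fi_d rfl rfl rfl rfl) MODEL_one
    · rw [fj]
      exact MODEL_deq (MODEL_ss MODEL_fj_s MODEL_fj_s rfl rfl rfl rfl) MODEL_one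
    · rw [fk]
      exact MODEL_deq (MODEL_dd MODEL_fk_d MODEL_fk_d rfl rfl rfl rfl) MODEL_one
  obtain ⟨μ, hμ⟩ := h2.restr {i, j, k} _ f hb hq
  have mi : ∀ h, Diag (μ ⟨sr N i, h⟩) (-1) 1 0 0 := fun h => by
    rw [hμ i h (by simp), fi]
    exact MODEL_fi_d
  have mj : ∀ h, Swp (μ ⟨sr N j, h⟩) 1 1 0 0 := fun h => by
    rw [hμ j h (by simp), fj]
    exact MODEL_fj_s
  have ml : ∀ h, Diag (μ ⟨sr N k, h⟩) 1 (-1) 0 1 := fun h => by
    rw [hμ k h (by simp), fk]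
    exact MODEL_fk_d
  exact ⟨μ, MODEL_inj h2 h μ mi mj ml, mi, mj, ml⟩

/-- the value of a character -/
def MODEL_val (a c : ℤˣ) (e1 e2 p q : ℤ) : ℤˣ := (a * c) ^ (p + q) * if e1 = e2 then 1 else a

theorem MODEL_val_i (a c : ℤˣ) {e1 e2 : ℤ} (p q : ℤ) (h1 : e1 = 1 ∨ e1 = -1)
    (h2 : e2 = 1 ∨ e2 = -1) : a * MODEL_val a c e1 e2 p q = MODEL_val a c (-e1) e2 (-p) q := by
  unfold MODEL_val
  rw [ MODEL_zp (a * c) (m := p + q) (n := -p + q) p (by ring)]
  generalize (a * c) ^ (-p + q) = u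
  rcases h1 with rfl | rfl <;> rcases h2 with rfl | rfl <;>
    rcases Int.units_eq_one_or a with rfl | rfl <;> simp

theorem MODEL_val_j (a c : ℤˣ) (e1 e2 p q : ℤ) :
    MODEL_val a c e1 e2 p q = MODEL_val a c e2 e1 q p := by
  unfold MODEL_val
  rw [add_comm p q]
  simp only [eq_comm]

theorem MODEL_val_k (a c : ℤˣ) {e1 e2 : ℤ} (p q : ℤ) (h1 : e1 = 1 ∨ e1 = -1)
    (h2 : e2 = 1 ∨ e2 = -1) :
    c * MODEL_val a c e1 e2 p q = MODEL_val a c e1 (-e2) p (1 - q) := by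
  unfold MODEL_val
  rw [ MODEL_zp (a * c) (m := p + (1 - q)) (n := p + q + 1) (-q) (by ring), zpow_add_one]
  generalize (a * c) ^ (p + q) = u
  rcases h1 with rfl | rfl <;> rcases h2 with rfl | rfl <;>
    rcases Int.units_eq_one_or a with rfl | rfl <;> simp [mul_comm]

theorem MODEL_form {μ : par N {i, j, k} →* Equiv.Perm (ℤ × ℤ)} (m : Model N i j k μ)
    (g : par N {i, j, k}) : ∃ e1 e2 p q, (e1 = 1 ∨ e1 = -1) ∧ (e2 = 1 ∨ e2 = -1) ∧
      ((Diag (μ g) e1 e2 p q ∧ ∀ χ : N.Group →* ℤˣ,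
        χ g = MODEL_val (χ (sr N i)) (χ (sr N k)) e1 e2 p q) ∨
      (Swp (μ g) e1 e2 p q ∧ ∀ χ : N.Group →* ℤˣ,
        χ g = χ (sr N j) * MODEL_val (χ (sr N i)) (χ (sr N k)) e1 e2 p q)) := by
  induction g using MODEL_ind with
  | h1 =>
    refine ⟨1, 1, 0, 0, Or.inl rfl, Or.inl rfl, Or.inl ⟨?_, fun χ => ?_⟩⟩
    · rw [map_one]
      exact MODEL_one
    · simp [ MODEL_val]
  | hs s hs g ih =>
    obtain ⟨e1, e2, p, q, h1, h2, h3⟩ := ih
    rw [map_mul]
    simp only [Subgroup.coe_mul, map_mul]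
    rcases hs with rfl | rfl | rfl
    · refine ⟨-e1, e2, -p, q, by omega, h2, ?_⟩
      rcases h3 with ⟨h3, h4⟩ | ⟨h3, h4⟩
      · refine Or.inl ⟨MODEL_dd (m.mi _) h3 (by ring) (by ring) (by ring) (by ring), fun χ => ?_⟩
        rw [h4, MODEL_val_i _ _ _ _ h1 h2]
      · refine Or.inr ⟨MODEL_ds (m.mi _) h3 (by ring) (by ring) (by ring) (by ring), fun χ => ?_⟩
        rw [h4, mul_left_comm, MODEL_val_i _ _ _ _ h1 h2]
    · refine ⟨e2, e1, q, p, h2, h1, ?_⟩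
      rcases h3 with ⟨h3, h4⟩ | ⟨h3, h4⟩
      · refine Or.inr ⟨MODEL_sd (m.mj _) h3 (by ring) (by ring) (by ring) (by ring), fun χ => ?_⟩
        rw [h4, MODEL_val_j]
      · refine Or.inl ⟨MODEL_ss (m.mj _) h3 (by ring) (by ring) (by ring) (by ring), fun χ => ?_⟩
        rw [h4, ← mul_assoc, Int.units_mul_self, one_mul, MODEL_val_j]
    · refine ⟨e1, -e2, p, 1 - q, h1, by omega, ?_⟩
      rcases h3 with ⟨h3, h4⟩ | ⟨h3, h4⟩
      · refine Or.inl ⟨MODEL_dd (m.ml _) h3 (by ring) (by ring) (by ring) (by ring), fun χ => ?_⟩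
        rw [h4, MODEL_val_k _ _ _ _ h1 h2]
      · refine Or.inr ⟨MODEL_ds (m.ml _) h3 (by ring) (by ring) (by ring) (by ring), fun χ => ?_⟩
        rw [h4, mul_left_comm, MODEL_val_k _ _ _ _ h1 h2]

theorem MODEL_refl (w : N.Group) (s : B) : IsRefl N (w * sr N s * w⁻¹) :=
  ⟨rho N w (al s), w, s, rfl, rfl⟩

theorem MODEL_modF {μ : par N {i, j, k} →* Equiv.Perm (ℤ × ℤ)} (m : Model N i j k μ) :
    ModF N i j k μ := by
  obtain ⟨I, hI⟩ : ∃ I : par N {i, j, k}, I = ⟨sr N i, gp_mem _ (by simp)⟩ := ⟨_, rfl⟩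
  obtain ⟨J, hJ⟩ : ∃ J : par N {i, j, k}, J = ⟨sr N j, gp_mem _ (by simp)⟩ := ⟨_, rfl⟩
  obtain ⟨K, hK⟩ : ∃ K : par N {i, j, k}, K = ⟨sr N k, gp_mem _ (by simp)⟩ := ⟨_, rfl⟩
  have dI : Diag (μ I) (-1) 1 0 0 := hI ▸ m.mi _
  have dJ : Swp (μ J) 1 1 0 0 := hJ ▸ m.mj _
  have dK : Diag (μ K) 1 (-1) 0 1 := hK ▸ m.ml _
  have iI : I⁻¹ = I := by
    rw [hI]
    exact Subtype.ext (MODEL_sinv i)
  have iJ : J⁻¹ = J := by
    rw [hJ]
    exact Subtype.ext (MODEL_sinv j)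
  have dJKJ : Diag (μ (J * K * J)) (-1) 1 1 0 := by
    rw [map_mul, map_mul]
    exact MODEL_ss (MODEL_sd dJ dK rfl rfl rfl rfl) dJ rfl rfl rfl rfl
  have dJIJ : Diag (μ (J * I * J)) 1 (-1) 0 0 := by
    rw [map_mul, map_mul]
    exact MODEL_ss (MODEL_sd dJ dI rfl rfl rfl rfl) dJ rfl rfl rfl rfl
  have dIJI : Swp (μ (I * J * I)) (-1) (-1) 0 0 := by
    rw [map_mul, map_mul]
    exact MODEL_sd (MODEL_ds dI dJ rfl rfl rfl rfl) dI rfl rfl rfl rfl
  have t1 : Diag (μ (J * K * J * I)) 1 1 1 0 := by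
    rw [map_mul]
    exact MODEL_dd dJKJ dI rfl rfl rfl rfl
  have t2 : Diag (μ (K * (J * I * J))) 1 1 0 1 := by
    rw [map_mul]
    exact MODEL_dd dK dJIJ rfl rfl rfl rfl
  have tr : ∀ p q, ∃ t, Diag (μ t) 1 1 p q := fun p q => by
    refine ⟨(J * K * J * I) ^ p * (K * (J * I * J)) ^ q, ?_⟩
    rw [map_mul, map_zpow, map_zpow]
    exact MODEL_dd (MODEL_zpow t1 p) (MODEL_zpow t2 q) (by ring) (by ring) (by ring) (by ring)
  have cD : ∀ (s : B) (hs : sr N s ∈ par N {i, j, k}) (w g : par N {i, j, k}) e1 e2 p q a b p' q',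
      Diag (μ (w * ⟨_, hs⟩ * w⁻¹)) e1 e2 p q → Diag (μ g) e1 e2 p' q' → p' = p + a - e1 * a →
      q' = q + b - e2 * b → IsRefl N g := by
    intro s hs w g e1 e2 p q a b p' q' h1 h2 h3 h4
    obtain ⟨t, ht⟩ := tr a b
    have : Diag (μ (t * (w * ⟨_, hs⟩ * w⁻¹) * t⁻¹)) e1 e2 p' q' := by
      rw [map_mul, map_mul μ t, map_inv μ t]
      exact MODEL_dd (MODEL_dd ht h1 rfl rfl rfl rfl) (MODEL_inv ht) (by ring) (by ring)
        (by rw [h3]; ring) (by rw [h4]; ring)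
    rw [m.inj (MODEL_deq h2 this)]
    convert MODEL_refl ((t : N.Group) * (w : N.Group)) s using 1
    simp [mul_assoc]
  have cS : ∀ (s : B) (hs : sr N s ∈ par N {i, j, k}) (w g : par N {i, j, k}) e1 e2 p q a b p' q',
      Swp (μ (w * ⟨_, hs⟩ * w⁻¹)) e1 e2 p q → Swp (μ g) e1 e2 p' q' → p' = p + a - e1 * b →
      q' = q + b - e2 * a → IsRefl N g := by
    intro s hs w g e1 e2 p q a b p' q' h1 h2 h3 h4
    obtain ⟨t, ht⟩ := tr a b
    have : Swp (μ (t * (w * ⟨_, hs⟩ * w⁻¹) * t⁻¹)) e1 e2 p' q' := by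
      rw [map_mul, map_mul μ t, map_inv μ t]
      exact MODEL_sd (MODEL_ds ht h1 rfl rfl rfl rfl) (MODEL_inv ht) (by ring) (by ring)
        (by rw [h3]; ring) (by rw [h4]; ring)
    rw [m.inj (MODEL_seq h2 this)]
    convert MODEL_refl ((t : N.Group) * (w : N.Group)) s using 1
    simp [mul_assoc]
  have exD : ∀ e1 e2 p q, (e1 = 1 ∨ e1 = -1) → (e2 = 1 ∨ e2 = -1) →
      ∃ g, Diag (μ g) e1 e2 p q := by
    intro e1 e2 p q h1 h2
    obtain ⟨t, ht⟩ := tr p q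
    rcases h1 with rfl | rfl <;> rcases h2 with rfl | rfl
    · exact ⟨t, ht⟩
    · refine ⟨t * (J * I * J), ?_⟩
      rw [map_mul]
      exact MODEL_dd ht dJIJ (by ring) (by ring) (by ring) (by ring)
    · refine ⟨t * I, ?_⟩
      rw [map_mul]
      exact MODEL_dd ht dI (by ring) (by ring) (by ring) (by ring)
    · refine ⟨t * I * (J * I * J), ?_⟩
      rw [map_mul, map_mul μ t]
      exact MODEL_dd (MODEL_dd ht dI rfl rfl rfl rfl) dJIJ (by ring) (by ring) (by ring)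
        (by ring)
  refine ⟨fun g => ?_, fun e1 e2 p q h1 h2 => ⟨exD e1 e2 p q h1 h2, ?_⟩, fun g p h => ?_,
    fun g q h => ?_, fun g p h => ?_, fun g p h => ?_, fun χ g e1 e2 p q h => ?_,
    fun χ g e1 e2 p q h => ?_⟩
  · obtain ⟨e1, e2, p, q, h1, h2, h3⟩ := MODEL_form m g
    exact ⟨e1, e2, p, q, h1, h2, h3.imp And.left And.left⟩
  · obtain ⟨g, hg⟩ := exD e1 e2 p q h1 h2
    refine ⟨g * J, ?_⟩
    rw [map_mul]
    exact MODEL_ds hg dJ (by ring) (by ring) (by ring) (by ring)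
  · obtain ⟨a, ha | ha⟩ := Int.even_or_odd' p
    · refine cD i (gp_mem _ (by simp)) 1 g _ _ 0 0 a 0 _ _ ?_ h (by omega) (by omega)
      rw [← hI, one_mul, inv_one, mul_one]
      exact dI
    · refine cD k (gp_mem _ (by simp)) J g _ _ 1 0 a 0 _ _ ?_ h (by omega) (by omega)
      rw [← hK, iJ]
      exact dJKJ
  · obtain ⟨a, ha | ha⟩ := Int.even_or_odd' q
    · refine cD i (gp_mem _ (by simp)) J g _ _ 0 0 0 a _ _ ?_ h (by omega) (by omega)
      rw [← hI, iJ]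
      exact dJIJ
    · refine cD k (gp_mem _ (by simp)) 1 g _ _ 0 1 0 a _ _ ?_ h (by omega) (by omega)
      rw [← hK, one_mul, inv_one, mul_one]
      exact dK
  · refine cS j (gp_mem _ (by simp)) 1 g _ _ 0 0 p 0 _ _ ?_ h (by omega) (by omega)
    rw [← hJ, one_mul, inv_one, mul_one]
    exact dJ
  · refine cS j (gp_mem _ (by simp)) I g _ _ 0 0 p 0 _ _ ?_ h (by omega) (by omega)
    rw [← hJ, iI]
    exact dIJI
  · obtain ⟨a, b, p', q', -, h2, ⟨h3, h4⟩ | ⟨h3, -⟩⟩ := MODEL_form m g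
    · obtain ⟨rfl, rfl, rfl, rfl⟩ := MODEL_duniq h h3
      exact h4 χ
    · have := (MODEL_ds_zero h h3).2
      omega
  · obtain ⟨a, b, p', q', h1, -, ⟨h3, -⟩ | ⟨h3, h4⟩⟩ := MODEL_form m g
    · have := (MODEL_ds_zero h3 h).1
      omega
    · obtain ⟨rfl, rfl, rfl, rfl⟩ := MODEL_suniq h h3
      rw [h4 χ, MODEL_val, mul_assoc]

end Cox

theorem MODEL_thm (_h1 : St_C0a) (h2 : St_C0b) : St_MODEL := fun B _ _ N _ _ _ h =>
  ⟨MODEL_exists (h2 B N) h, fun _ m => MODEL_modF m⟩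

end Pool.Agent.Lib.MP_1b8ce0_al.T
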