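import Mathlib
import Pool.Agent.Lib.MP_1b8ce0_al.T.StsB

set_option linter.unusedSectionVars false
set_option linter.dupNamespace false

namespace Pool.Agent.Lib.MP_1b8ce0_al.T

open Pool.Agent.Lib.MP_6d85b4_al

section Gen

/-- a function invariant under an element of order dividing four without fixed points -/
theorem NF_four {W : Type} [Group W] (F : W → ℤ) (hF : (Function.support F).Finite) (g : W)
    (hg : g * g * (g * g) = 1) (hinv : ∀ r, F (g * r * g⁻¹) = F r)
    (hfix : ∀ r, F r ≠ 0 → ¬ Commute g r) (hev : ∀ r, Even (F r)) : (4 : ℤ) ∣ ∑ᶠ r, F r := by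
  classical
  rw [finsum_eq_sum F hF]
  have key : ∑ r ∈ hF.toFinset, ((F r : ℤ) : ZMod 4) = 0 := by
    let τ : W → W := fun r =>
      if Commute (g * g) r then g * r * g⁻¹ else g * (g * r * g⁻¹) * g⁻¹
    have hτ : ∀ r, F (τ r) = F r := by
      intro r
      simp only [τ]
      split_ifs
      · exact hinv r
      · rw [hinv, hinv]
    have hgg : Commute (g * g) g := (Commute.refl g).mul_left (Commute.refl g)
    refine Finset.sum_involution (fun r _ => τ r) ?_ ?_ ?_ ?_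
    · intro r _
      obtain ⟨e, he⟩ := hev r
      rw [hτ, he]
      have : ((e + e : ℤ) : ZMod 4) + ((e + e : ℤ) : ZMod 4) = (4 : ZMod 4) * (e : ZMod 4) := by
        push_cast
        ring
      rw [this]
      have h4 : (4 : ZMod 4) = 0 := rfl
      rw [h4, zero_mul]
    · intro r hr _ h
      have hr' : F r ≠ 0 := by simpa using hr
      simp only [τ] at h
      split_ifs at h with hc
      · apply hfix r hr'
        have : g * r = r * g := by
          calc g * r = g * r * g⁻¹ * g := by group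
            _ = r * g := by rw [h]
        exact this
      · apply hc
        have : g * g * r = r * (g * g) := by
          calc g * g * r = g * (g * r * g⁻¹) * g⁻¹ * (g * g) := by group
            _ = r * (g * g) := by rw [h]
        exact this
    · intro r hr
      have hr' : F r ≠ 0 := by simpa using hr
      have : F (τ r) ≠ 0 := by rw [hτ]; exact hr'
      simpa using this
    · intro r _
      by_cases hc : Commute (g * g) r
      · have h1 : τ r = g * r * g⁻¹ := by simp only [τ, if_pos hc]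
        have h2 : Commute (g * g) (g * r * g⁻¹) := (hgg.mul_right hc).mul_right hgg.inv_right
        show τ (τ r) = r
        rw [h1]
        simp only [τ, if_pos h2]
        calc g * (g * r * g⁻¹) * g⁻¹ = (g * g * r) * (g * g)⁻¹ := by group
          _ = r := by rw [hc.eq]; group
      · have h1 : τ r = g * (g * r * g⁻¹) * g⁻¹ := by simp only [τ, if_neg hc]
        have h2 : ¬ Commute (g * g) (g * (g * r * g⁻¹) * g⁻¹) := by
          intro h
          apply hc
          have h3 : Commute (g * g) (g⁻¹ * (g⁻¹ * (g * (g * r * g⁻¹) * g⁻¹) * g) * g) :=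
            ((hgg.inv_right.mul_right ((hgg.inv_right.mul_right h).mul_right hgg))).mul_right hgg
          have h4 : g⁻¹ * (g⁻¹ * (g * (g * r * g⁻¹) * g⁻¹) * g) * g = r := by group
          rwa [h4] at h3
        show τ (τ r) = r
        rw [h1]
        simp only [τ, if_neg h2]
        calc g * (g * (g * (g * r * g⁻¹) * g⁻¹) * g⁻¹) * g⁻¹
            = (g * g * (g * g)) * r * (g * g * (g * g))⁻¹ := by group
          _ = r := by rw [hg]; group
  have h2 : ((∑ r ∈ hF.toFinset, F r : ℤ) : ZMod 4) = 0 := by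
    rw [Int.cast_sum]
    exact key
  exact (ZMod.intCast_zmod_eq_zero_iff_dvd _ 4).1 h2

theorem NF_comm_left {G : Type} [Group G] (s t : G) (k : ℕ) (h : (s * t) ^ k = (t * s) ^ k) :
    Commute s ((s * t) ^ k) := by
  have h1 : s * (t * s) ^ k = (s * t) ^ k * s := by
    have : SemiconjBy s (t * s) (s * t) := by
      simp [SemiconjBy, mul_assoc]
    exact (this.pow_right k).eq
  show s * (s * t) ^ k = (s * t) ^ k * s
  rw [← h1, h]

end Gen

section Main

variable {B : Type} [Fintype B] [DecidableEq B] {N : CoxeterMatrix B} {G : Type} [Group G]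
  {ψ : G →* N.Group}

theorem NF_one (ν : NData N ψ) (r : N.Group) : ν.n 1 r = 0 := by
  have := ν.mul 1 1 r
  simp only [mul_one, map_one, inv_one, one_mul] at this
  linarith

theorem NF_inv (ν : NData N ψ) (z g : G) (r : N.Group) (h1 : Commute g z)
    (h2 : Commute r (ψ z)) : ν.n z ((ψ g)⁻¹ * r * ψ g) = ν.n z r := by
  have e1 := ν.mul g z r
  have e2 := ν.mul z g r
  have e3 : (ψ z)⁻¹ * r * ψ z = r := by
    rw [mul_assoc, h2.eq]
    group
  rw [e3, ← h1.eq] at e2
  linarith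

theorem NF_pow (ν : NData N ψ) (g : G) (r : N.Group) (h : Commute r (ψ g)) (q : ℕ) :
    ν.n (g ^ q) r = q * ν.n g r := by
  have e3 : (ψ g)⁻¹ * r * ψ g = r := by
    rw [mul_assoc, h.eq]
    group
  induction q with
  | zero => simp [NF_one]
  | succ q ih =>
    rw [pow_succ', ν.mul, e3, ih]
    push_cast
    ring

theorem NF_odd (h0 : C0a N) (ν : NData N ψ) (g : G) (r : N.Group) (a : B → ℝ)
    (hr : ReflOf N r a) (ha : rho N (ψ g) a = -a) : Odd (ν.n g r) := by
  have main : ∀ a, ReflOf N r a → rho N (ψ g) a = -a → Pos a → Odd (ν.n g r) := by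
    intro a hr ha hp
    rw [ν.odd g r a hr hp]
    have h1 := rho_inv N (ψ g) a
    rw [ha, map_neg] at h1
    rw [h1]
    exact hp
  rcases h0.root_pos a (h0.refl_isRoot r a hr) with hp | hp
  · exact main a hr ha hp
  · refine main (-a) (h0.refl_neg r a hr) ?_ hp
    rw [map_neg, ha]

theorem NF_flip (h0 : C0a N) (ν : NData N ψ) (g : G) (r : N.Group) (a : B → ℝ) (q : ℕ)
    (hr : ReflOf N r a) (ha : rho N (ψ g) a = -a) (hq : 0 < q) : ν.n (g ^ q) r ≠ 0 := by
  have hc : Commute (ψ g) r := (h0.refl_comm _ r a hr).2 (Or.inr ha)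
  rw [NF_pow ν g r hc.symm q]
  have ho := NF_odd h0 ν g r a hr ha
  refine mul_ne_zero (by exact_mod_cast hq.ne') ?_
  intro h
  rw [h] at ho
  exact (Int.not_odd_zero) ho

/-- the finite invariant set of reflections -/
def NF_O (ν : NData N ψ) (z : G) : Set N.Group := {r | Commute r (ψ z) ∧ ν.n z r ≠ 0}

theorem NF_O_fin (ν : NData N ψ) (z : G) : (NF_O ν z).Finite :=
  (ν.fin z).subset fun _ hr => hr.2

theorem NF_O_inv (ν : NData N ψ) (z s t : G) (hs : Commute s z) (ht : Commute t z) :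
    ∀ h ∈ Subgroup.closure ({ψ s, ψ t} : Set N.Group), ∀ r ∈ NF_O ν z,
      h * r * h⁻¹ ∈ NF_O ν z := by
  have lift : ∀ h ∈ Subgroup.closure ({ψ s, ψ t} : Set N.Group), ∃ g, Commute g z ∧ ψ g = h := by
    intro h hh
    induction hh using Subgroup.closure_induction with
    | mem x hx =>
      rcases hx with rfl | rfl
      · exact ⟨s, hs, rfl⟩
      · exact ⟨t, ht, rfl⟩
    | one => exact ⟨1, Commute.one_left z, map_one ψ⟩
    | mul x y _ _ hx hy =>
      obtain ⟨g1, h1, rfl⟩ := hx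
      obtain ⟨g2, h2, rfl⟩ := hy
      exact ⟨g1 * g2, h1.mul_left h2, map_mul ψ _ _⟩
    | inv x _ hx =>
      obtain ⟨g1, h1, rfl⟩ := hx
      exact ⟨g1⁻¹, h1.inv_left, map_inv ψ _⟩
  intro h hh r hr
  obtain ⟨g, hg, rfl⟩ := lift h hh
  have hc : Commute (ψ g) (ψ z) := hg.map ψ
  refine ⟨(hc.mul_left hr.1).mul_left hc.inv_left, ?_⟩
  have := NF_inv ν z g⁻¹ r hg.inv_left hr.1
  rw [map_inv, inv_inv] at this
  rw [this]
  exact hr.2

theorem NF_O_mem (h0 : C0a N) (ν : NData N ψ) (g : G) (r : N.Group) (a : B → ℝ) (q : ℕ)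
    (hr : ReflOf N r a) (ha : rho N (ψ g) a = -a) (hq : 0 < q) : r ∈ NF_O ν (g ^ q) := by
  have hc : Commute (ψ g) r := (h0.refl_comm _ r a hr).2 (Or.inr ha)
  refine ⟨?_, NF_flip h0 ν g r a q hr ha hq⟩
  rw [map_pow]
  exact hc.symm.pow_right q

theorem NF_srsq (i : B) : sr N i * sr N i = 1 := N.toCoxeterSystem.simple_mul_simple_self i

/-- an element of a dihedral parabolic fixes or inverts the rotation -/
theorem NF_dih (i j : B) (g : N.Group) (hg : g ∈ par N {i, j}) :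
    (sg N g = 1 ∧ g * (sr N i * sr N j) * g⁻¹ = sr N i * sr N j) ∨
      (sg N g = -1 ∧ g * (sr N i * sr N j) * g⁻¹ = (sr N i * sr N j)⁻¹) := by
  have hi : (sr N i)⁻¹ = sr N i := inv_eq_of_mul_eq_one_right (NF_srsq i)
  have hj : (sr N j)⁻¹ = sr N j := inv_eq_of_mul_eq_one_right (NF_srsq j)
  induction hg using Subgroup.closure_induction with
  | mem x hx =>
    obtain ⟨u, hu, rfl⟩ := hx
    right
    refine ⟨sg_sr N u, ?_⟩
    rcases hu with rfl | rfl
    · rw [mul_inv_rev, hi, hj, ← mul_assoc, NF_srsq, one_mul]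
    · rw [mul_inv_rev, hi, hj, mul_assoc, mul_assoc, NF_srsq, mul_one]
  | one => left; simp
  | mul x y _ _ hx hy =>
    have e : x * y * (sr N i * sr N j) * (x * y)⁻¹ = x * (y * (sr N i * sr N j) * y⁻¹) * x⁻¹ := by
      group
    have e2 : x * (sr N i * sr N j)⁻¹ * x⁻¹ = (x * (sr N i * sr N j) * x⁻¹)⁻¹ := by group
    rw [e, map_mul]
    rcases hx with ⟨h1, h2⟩ | ⟨h1, h2⟩ <;> rcases hy with ⟨h3, h4⟩ | ⟨h3, h4⟩
    · left; rw [h1, h3, h4, h2]; simp
    · right; rw [h1, h3, h4, e2, h2]; simp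
    · right; rw [h1, h3, h4, h2]; simp
    · left; rw [h1, h3, h4, e2, h2, inv_inv]; simp
  | inv x _ hx =>
    rcases hx with ⟨h1, h2⟩ | ⟨h1, h2⟩
    · left
      refine ⟨by rw [map_inv, h1, inv_one], ?_⟩
      calc x⁻¹ * (sr N i * sr N j) * x⁻¹⁻¹
          = x⁻¹ * (x * (sr N i * sr N j) * x⁻¹) * x⁻¹⁻¹ := by rw [h2]
        _ = sr N i * sr N j := by group
    · right
      refine ⟨by rw [map_inv, h1]; simp, ?_⟩
      calc x⁻¹ * (sr N i * sr N j) * x⁻¹⁻¹
          = x⁻¹ * ((sr N i * sr N j)⁻¹)⁻¹ * x⁻¹⁻¹ := by rw [inv_inv (sr N i * sr N j)]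
        _ = x⁻¹ * (x * (sr N i * sr N j) * x⁻¹)⁻¹ * x⁻¹⁻¹ := by rw [h2]
        _ = (sr N i * sr N j)⁻¹ := by group

theorem NF_sgrot (c : N.Group) (i j : B) (l : ℕ) :
    sg N (c * (sr N i * sr N j) ^ l * c⁻¹) = 1 := by
  simp only [map_mul, map_pow, map_inv, sg_sr]
  simp

theorem NF_rot4 (hC : CA N) (ν : NData N ψ) (s t : G) (c : N.Group) (i j : B) (k l m : ℕ)
    (hk : 0 < k) (hst : (s * t) ^ k = (t * s) ^ k) (hij : i ≠ j) (hm : 0 < m)
    (hN : N i j = 2 * m) (hl : Odd l) (hs : ψ s = c * (sr N i * sr N j) ^ l * c⁻¹)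
    (ht : ψ t ∈ cj c (par N {i, j})) (hsg : sg N (ψ t) = -1) :
    Odd m ∧ (Odd k → Commute (ψ s) (ψ t)) := by
  set ρ := sr N i * sr N j with hρ
  have hN0 : N i j ≠ 0 := by omega
  have hord : orderOf ρ = 2 * m := by rw [hρ, hC.c0.ord, hN]
  rw [mem_cj] at ht
  set t' := c⁻¹ * ψ t * c with ht'
  have hb : ψ t = c * t' * c⁻¹ := by rw [ht']; group
  have hsg' : sg N t' = -1 := by
    rw [ht', map_mul, map_mul, map_inv, hsg, mul_comm (sg N c)⁻¹, mul_assoc, inv_mul_cancel,
      mul_one]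
  have hne : (1 : ℤˣ) ≠ -1 := by decide
  -- `t'` is an involution inverting the rotation
  have hsq : t' * t' = 1 := by
    rcases hC.c0.elts i j t' hij hN0 ht with ⟨k', hk'⟩ | ⟨u, _, hu | hu⟩
    · exfalso
      have := NF_sgrot (N := N) 1 i j k'
      rw [one_mul, inv_one, mul_one, ← hk', hsg'] at this
      exact hne this.symm
    · rw [hu]
      calc u * sr N i * u⁻¹ * (u * sr N i * u⁻¹) = u * (sr N i * sr N i) * u⁻¹ := by group
        _ = 1 := by rw [NF_srsq]; group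
    · rw [hu]
      calc u * sr N j * u⁻¹ * (u * sr N j * u⁻¹) = u * (sr N j * sr N j) * u⁻¹ := by group
        _ = 1 := by rw [NF_srsq]; group
  have hinv : t' * ρ * t'⁻¹ = ρ⁻¹ := by
    rcases NF_dih i j t' ht with ⟨h1, _⟩ | ⟨_, h2⟩
    · rw [hsg'] at h1
      exact absurd h1.symm hne
    · exact h2
  have hinvl : t' * ρ ^ l * t'⁻¹ = (ρ ^ l)⁻¹ := by
    rw [← conj_pow, hinv, inv_pow]
  have hab : ψ t * ψ s * (ψ t)⁻¹ = (ψ s)⁻¹ := by
    rw [hb, hs]
    calc c * t' * c⁻¹ * (c * ρ ^ l * c⁻¹) * (c * t' * c⁻¹)⁻¹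
        = c * (t' * ρ ^ l * t'⁻¹) * c⁻¹ := by group
      _ = (c * ρ ^ l * c⁻¹)⁻¹ := by rw [hinvl]; group
  have hbb : ψ t * ψ t = 1 := by
    rw [hb]
    calc c * t' * c⁻¹ * (c * t' * c⁻¹) = c * (t' * t') * c⁻¹ := by group
      _ = 1 := by rw [hsq]; group
  have hr1 : (ψ s * ψ t) ^ 2 = 1 := by
    calc (ψ s * ψ t) ^ 2 = ψ s * (ψ t * ψ s * (ψ t)⁻¹) * (ψ t * ψ t) := by rw [pow_two]; group
      _ = 1 := by rw [hab, hbb]; group
  have hr2 : (ψ t * ψ s) ^ 2 = 1 := by
    calc (ψ t * ψ s) ^ 2 = (ψ t * ψ s * (ψ t)⁻¹) * (ψ t * ψ t) * ψ s := by rw [pow_two]; group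
      _ = 1 := by rw [hab, hbb]; group
  have hodd : Odd k → Commute (ψ s) (ψ t) := by
    rintro ⟨k', rfl⟩
    have := congrArg ψ hst
    rw [map_pow, map_pow, map_mul, map_mul, pow_succ, pow_succ, pow_mul, pow_mul, hr1, hr2,
      one_pow, one_mul, one_mul] at this
    exact this
  refine ⟨?_, hodd⟩
  rcases Nat.even_or_odd k with ⟨k', hk'⟩ | hko
  swap
  · have hc := hodd hko
    have h1 : ψ s * ψ s = 1 := by
      have h2 : ψ t * ψ s * (ψ t)⁻¹ = ψ s := by rw [← hc.eq]; group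
      rw [h2] at hab
      calc ψ s * ψ s = ψ s * (ψ s)⁻¹ := by rw [← hab]
        _ = 1 := mul_inv_cancel _
    have h3 : ρ ^ (2 * l) = 1 := by
      have : ρ ^ (2 * l) = c⁻¹ * (ψ s * ψ s) * c := by
        rw [hs, two_mul, pow_add]
        group
      rw [this, h1]
      group
    have h4 : 2 * m ∣ 2 * l := by rw [← hord]; exact orderOf_dvd_of_pow_eq_one h3
    exact hl.of_dvd_nat (Nat.dvd_of_mul_dvd_mul_left (by norm_num) h4)
  -- `k` even
  by_contra hme
  rw [Nat.not_odd_iff_even] at hme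
  obtain ⟨p, hp⟩ := hme
  have hk0 : 0 < k' := by omega
  set y := (s * t) ^ 2 with hy
  have hψy : ψ y = 1 := by rw [hy, map_pow, map_mul, hr1]
  have hz : (s * t) ^ k = y ^ k' := by rw [hy, ← pow_mul, hk', two_mul]
  have hcs : Commute s (y ^ k') := by rw [← hz]; exact NF_comm_left s t k hst
  have hnz : ∀ r, ν.n (y ^ k') r = k' * ν.n y r := fun r =>
    NF_pow ν y r (by rw [hψy]; exact Commute.one_right r) k'
  set g := ψ (s ^ p) with hg
  have hgρ : g = c * ρ ^ (l * p) * c⁻¹ := by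
    rw [hg, map_pow, hs, conj_pow, ← pow_mul]
  have hgg : g * g = c * ρ ^ (l * m) * c⁻¹ := by
    rw [hgρ, hp, mul_add, pow_add]
    group
  have hgg1 : g * g ≠ 1 := by
    intro h
    have h3 : ρ ^ (l * m) = 1 := by
      have : ρ ^ (l * m) = c⁻¹ * (g * g) * c := by rw [hgg]; group
      rw [this, h]
      group
    have h4 : 2 * m ∣ l * m := by rw [← hord]; exact orderOf_dvd_of_pow_eq_one h3
    have h5 : 2 ∣ l := Nat.dvd_of_mul_dvd_mul_right hm h4
    exact (Nat.not_even_iff_odd.2 hl) (even_iff_two_dvd.2 h5)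
  have hg4 : g * g * (g * g) = 1 := by
    have h3 : ρ ^ (l * m) * ρ ^ (l * m) = 1 := by
      rw [← pow_add, ← mul_add, ← two_mul, ← hord, mul_comm, pow_mul, pow_orderOf_eq_one, one_pow]
    rw [hgg]
    calc c * ρ ^ (l * m) * c⁻¹ * (c * ρ ^ (l * m) * c⁻¹)
        = c * (ρ ^ (l * m) * ρ ^ (l * m)) * c⁻¹ := by group
      _ = 1 := by rw [h3]; group
  have hrot : IsRot N g := by
    refine ⟨c, i, j, l * p, hij, hN0, hgρ, ?_⟩
    intro h
    apply hgg1
    rw [h, one_mul]
  have h4 : (4 : ℤ) ∣ ∑ᶠ r, ν.n y r := by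
    refine NF_four (ν.n y) (ν.fin y) g hg4 ?_ ?_ ?_
    · intro r
      have h1 := NF_inv ν (y ^ k') (s ^ p)⁻¹ r (hcs.pow_left p).inv_left
        (by rw [map_pow, hψy, one_pow]; exact Commute.one_right r)
      rw [map_inv, inv_inv, hnz, hnz] at h1
      exact mul_left_cancel₀ (by exact_mod_cast hk0.ne') h1
    · intro r hr hc
      exact hgg1 (hC.t1.rot_refl g r hrot (ν.refl y r hr) hc)
    · intro r
      by_cases hr : ν.n y r = 0
      · rw [hr]; exact Even.zero
      obtain ⟨a, ha⟩ := ν.refl y r hr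
      have main : ∀ a, ReflOf N r a → Pos a → Even (ν.n y r) := by
        intro a ha hp
        rw [← Int.not_odd_iff_even, ν.odd y r a ha hp, hψy, inv_one, rho_one]
        exact hC.a0.root_not a (hC.a0.refl_isRoot r a ha) hp
      rcases hC.a0.root_pos a (hC.a0.refl_isRoot r a ha) with hp | hp
      · exact main a ha hp
      · exact main (-a) (hC.a0.refl_neg r a ha) hp
  have hsum : ∑ᶠ r, ν.n y r = 2 * ∑ᶠ r, ν.n (s * t) r := by
    let e : N.Group ≃ N.Group := (MulAut.conj (ψ (s * t))⁻¹).toEquiv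
    have he : ∀ r, e r = (ψ (s * t))⁻¹ * r * ψ (s * t) := by
      intro r
      show (ψ (s * t))⁻¹ * r * (ψ (s * t))⁻¹⁻¹ = _
      rw [inv_inv]
    have h1 : ∀ r, ν.n y r = ν.n (s * t) r + ν.n (s * t) (e r) := by
      intro r
      rw [hy, pow_two, ν.mul, he]
    have h2 : (Function.support fun r => ν.n (s * t) (e r)).Finite := by
      have := (ν.fin (s * t)).preimage (f := e) e.injective.injOn
      exact this
    rw [finsum_congr h1, finsum_add_distrib (ν.fin (s * t)) h2, finsum_comp_equiv e, two_mul]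
  have hodd2 : Odd (∑ᶠ r, ν.n (s * t) r) := by
    rw [ν.sum, map_mul, map_mul, hs, NF_sgrot, hsg, one_mul]
  rw [hsum] at h4
  obtain ⟨q, hq⟩ := hodd2
  omega

end Main

theorem NF_thm (hA : St_CA) : St_NF := by
  intro B _ _ N G _ ψ ν hN
  have hC := hA B N hN
  refine ⟨NF_inv ν, fun g r a q => NF_flip hC.a0 ν g r a q, ?_, ?_, NF_rot4 hC ν⟩
  · intro s t g r a q hq hs ht hg hr ha
    by_cases hf : Finite (Subgroup.closure ({ψ s, ψ t} : Set N.Group))
    · exact Or.inl hf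
    right
    have := hC.c1.fixc2 _ (NF_O ν (g ^ q)) hf (NF_O_fin ν _) (NF_O_inv ν _ s t hs ht) r
      (NF_O_mem hC.a0 ν g r a q hr ha hq) a hr (ψ g) hg ha
    exact ⟨this _ (Subgroup.subset_closure (by simp)), this _ (Subgroup.subset_closure (by simp))⟩
  · intro s t g a b q hq hs ht hab ha hb
    by_contra hf
    obtain ⟨r, hr⟩ := hC.a0.refl_ex a hab.1
    obtain ⟨r', hr'⟩ := hC.a0.refl_ex b hab.2.1
    exact hC.c1.fixc1 _ (NF_O ν (g ^ q)) hf (NF_O_fin ν _) (NF_O_inv ν _ s t hs ht) r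
      (NF_O_mem hC.a0 ν g r a q hr ha hq) r' (NF_O_mem hC.a0 ν g r' b q hr' hb hq) a b hr hr' hab

end Pool.Agent.Lib.MP_1b8ce0_al.T
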