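import Mathlib
import Pool.Agent.Lib.MP_1b8ce0_al.T.StsB

set_option linter.unusedSectionVars false
set_option linter.dupNamespace false

namespace Pool.Agent.Lib.MP_1b8ce0_al.T

open Pool.Agent.Lib.MP_6d85b4_al Filter

variable {B : Type} [Fintype B] [DecidableEq B] {N : CoxeterMatrix B}

theorem PAN_ne (hA : CA N) {a : B → ℝ} (ha : IsRoot N a) : a ≠ 0 := by
  rintro rfl
  have h := hA.a0.root_norm _ ha
  simp [Bf, bf] at h

theorem PAN_inj (c : N.Group) {a b : B → ℝ} (h : rho N c a = rho N c b) : a = b := by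
  rw [← rho_inv N c a, h, rho_inv]

theorem PAN_act (c : N.Group) (y : Pt B) (a : B → ℝ) : act N c⁻¹ y a = y (rho N c a) := by
  rw [act_apply, inv_inv]

theorem PAN_sr (c : N.Group) (i : B) (a : B → ℝ) :
    rho N (c * sr N i) a = rho N c a + ip N i a • rho N c (al i) := by
  rw [rho_mul, rho_simple, rf_apply, map_add, map_smul]

theorem PAN_sr_self (c : N.Group) (i : B) : rho N (c * sr N i) (al i) = -rho N c (al i) := by
  rw [rho_mul, rho_simple, rf_self, map_neg]

theorem PAN_sr_two (c : N.Group) {i j : B} (h : N i j = 2) :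
    rho N (c * sr N i) (al j) = rho N c (al j) := by
  rw [PAN_sr, ip_al, cc, h]
  simp

/-- the second wall of the chamber at one end of the panel -/
theorem PAN_half (hA : CA N) {y1 y2 : Pt B} {d e : B → ℝ} {c : N.Group} {l : B}
    (hd : IsRoot N d) (he : IsRoot N e) (hc : rho N c (al l) = d) (h1 : Cham (act N c⁻¹ y1))
    (h2 : Cham (act N c⁻¹ y2)) (d1 : y1 d = 0) (d2 : y2 d = 0) (e1 : y1 e = 0) (e2 : 0 < y2 e)
    (hv : ∀ a, IsRoot N a → y1 a = 0 → a = d ∨ a = -d ∨ a = e ∨ a = -e) :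
    ∃ p, rho N c (al p) = e ∧ N l p = 2 := by
  have hs := hA.a1.vanish _ _ h1 (hA.a0.root_rho c⁻¹ e he) (by rw [PAN_act, rho_inv', e1])
  obtain ⟨p, hpl, hp⟩ : ∃ p, p ≠ l ∧ rho N c⁻¹ e p ≠ 0 := by
    by_contra hcon
    push Not at hcon
    have h3 : rho N c⁻¹ e = rho N c⁻¹ e l • al l := by
      funext j
      by_cases hj : j = l
      · subst hj
        simp
      · simp [hcon j hj, al_ne hj]
    have h4 : e = rho N c⁻¹ e l • d := by
      rw [← hc, ← map_smul, ← h3, rho_inv']
    rw [h4, map_smul, d2, smul_zero] at e2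
    exact lt_irrefl _ e2
  have hz : y1 (rho N c (al p)) = 0 := by
    by_contra hcon
    exact hp (hs p (by rwa [Zs, Set.mem_ofPred_eq, PAN_act]))
  have hpe : rho N c (al p) = e := by
    rcases hv _ (hA.a0.root_rho c _ (hA.a0.root_al p).1) hz with h | h | h | h
    · exact absurd (al_inj (PAN_inj c (h.trans hc.symm))) hpl
    · rw [← hc, ← map_neg] at h
      have h5 := congrFun (PAN_inj c h) p
      rw [al_self, Pi.neg_apply, al_ne hpl] at h5
      norm_num at h5
    · exact h
    · have h5 := h2 p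
      rw [PAN_act, h, map_neg] at h5
      linarith
  refine ⟨p, hpe, eq_two_of_cc N ?_⟩
  have h6 := PAN_sr c l (al p)
  rw [hpe, hc, ip_al] at h6
  have h7 : y2 (rho N (c * sr N l) (al p)) = y2 e := by
    rw [h6, map_add, map_smul, d2, smul_zero, add_zero]
  rcases hv _ (hA.a0.root_rho (c * sr N l) _ (hA.a0.root_al p).1)
    (by rw [h6, map_add, map_smul, d1, e1, smul_zero, add_zero]) with h | h | h | h
  · rw [h] at h7
    linarith
  · rw [h, map_neg] at h7
    linarith
  · rw [h6, add_eq_left, smul_eq_zero] at h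
    exact h.resolve_right (PAN_ne hA hd)
  · rw [h, map_neg] at h7
    linarith

theorem PAN_thm (hA : St_CA) : St_PAN := by
  intro B _ _ N hN
  have hA := hA B N hN
  refine ⟨fun y1 y2 d e1 e2 hy1 hy2 hd he1 he2 d1 d2 z1 z2 q1 q2 v1 v2 s1 s2 => ?_,
    fun c c' l p l' p' h2 hl hp => ?_⟩
  · have hself : ∀ y : Pt B, Sep N y y = ∅ := fun y =>
      Set.eq_empty_of_forall_notMem fun a ha => lt_asymm ha.2.1 ha.2.2
    obtain ⟨c0, hc0⟩ := hA.a1.common {y1, y2} (Set.toFinite _)
      (by rintro x (rfl | rfl) <;> assumption)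
      (by rintro x (rfl | rfl) y (rfl | rfl) <;> first | exact hself _ | assumption)
    have k1 := hc0 y1 (Or.inl rfl)
    have k2 := hc0 y2 (Or.inr rfl)
    have k3 : Cham (act N c0⁻¹ (y1 + y2)) := fun i => by
      have a1 := k1 i
      have a2 := k2 i
      rw [PAN_act] at a1 a2 ⊢
      exact add_nonneg a1 a2
    have hr := hA.a0.root_rho c0⁻¹ d hd
    have hs := hA.a1.vanish _ _ k3 hr (by rw [PAN_act, rho_inv', LinearMap.add_apply, d1, d2,
      add_zero])
    obtain ⟨l, hl⟩ := Function.ne_iff.1 (PAN_ne hA hr)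
    have hz : y1 (rho N c0 (al l)) = 0 ∧ y2 (rho N c0 (al l)) = 0 := by
      have a1 := k1 l
      have a2 := k2 l
      have a3 : l ∈ Zs (act N c0⁻¹ (y1 + y2)) := by
        by_contra hcon
        exact hl (hs l hcon)
      rw [Zs, Set.mem_ofPred_eq, PAN_act, LinearMap.add_apply] at a3
      rw [PAN_act] at a1 a2
      constructor <;> linarith
    obtain ⟨c, hc, k1, k2⟩ : ∃ c, rho N c (al l) = d ∧ Cham (act N c⁻¹ y1) ∧
        Cham (act N c⁻¹ y2) := by
      rcases v1 _ (hA.a0.root_rho c0 _ (hA.a0.root_al l).1) hz.1 with h | h | h | h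
      · exact ⟨c0, h, k1, k2⟩
      · refine ⟨c0 * sr N l, by rw [PAN_sr_self, h, neg_neg], fun i => ?_, fun i => ?_⟩
        · have a1 := k1 i
          rw [PAN_act] at a1 ⊢
          rwa [PAN_sr, map_add, map_smul, hz.1, smul_zero, add_zero]
        · have a2 := k2 i
          rw [PAN_act] at a2 ⊢
          rwa [PAN_sr, map_add, map_smul, hz.2, smul_zero, add_zero]
      · rw [h] at hz
        linarith [hz.2]
      · rw [h, map_neg, map_neg] at hz
        linarith [hz.2]
    obtain ⟨p1, a1, b1⟩ := PAN_half hA hd he1 hc k1 k2 d1 d2 z1 q1 v1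
    obtain ⟨p2, a2, b2⟩ := PAN_half hA hd he2 hc k2 k1 d2 d1 z2 q2 v2
    exact ⟨c, l, p1, p2, hc, a1, a2, b1, b2⟩
  · have hlp : l ≠ p := by
      rintro rfl
      rw [N.diagonal] at h2
      omega
    have f1 : rho N (c'⁻¹ * c) (al l) = al l' := by rw [rho_mul, hl, rho_inv]
    have f2 : rho N (c'⁻¹ * c) (al p) = al p' := by rw [rho_mul, hp, rho_inv]
    obtain ⟨m1, m2, m3⟩ := hA.b1.vtype {l', p'} (c'⁻¹ * c) l p hlp (by omega)
      (fun j hj => by rw [f1]; exact al_ne fun h => hj (Or.inl h))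
      (fun j hj => by rw [f2]; exact al_ne fun h => hj (Or.inr h))
    have f3 : c'⁻¹ * c = 1 := by
      refine hA.b0.faithT _ _ m3 fun i hi => ?_
      have : i = l ∨ i = p := by
        simp only [Set.mem_insert_iff, Set.mem_singleton_iff] at hi m1 m2
        grind
      rcases this with rfl | rfl
      · rw [f1]
        exact pos_al _
      · rw [f2]
        exact pos_al _
    rw [f3, rho_one] at f1 f2
    exact ⟨(inv_mul_eq_one.1 f3).symm, al_inj f1, al_inj f2⟩

end Pool.Agent.Lib.MP_1b8ce0_al.T
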