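import Mathlib
import Pool.Agent.Lib.MP_1b8ce0_al.T.StsC

set_option linter.unusedSectionVars false
set_option linter.dupNamespace false

namespace Pool.Agent.Lib.MP_1b8ce0_al.T

open Pool.Agent.Lib.MP_6d85b4_al

/-- a perfect matching -/
def PI_pm {A : Type} (r : A → A → Prop) : Prop :=
  (∀ a b, r a b → r b a) ∧ (∀ a, ¬ r a a) ∧ (∀ a, ∃ b, r a b) ∧ ∀ a b c, r a b → r a c → b = c

theorem PI_perm {A : Type} [Fintype A] [DecidableEq A] (r : A → A → Prop) (h : PI_pm r) :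
    ∃ σ : Equiv.Perm A, (∀ a b, r a b ↔ σ a = b) ∧
      ∃ k, σ.cycleType = Multiset.replicate k 2 ∧ k * 2 = Fintype.card A := by
  obtain ⟨sy, ir, ex, un⟩ := h
  choose f hf using ex
  have iv : Function.Involutive f := fun a => un _ _ _ (hf _) (sy _ _ (hf a))
  refine ⟨iv.toPerm, fun a b => ⟨fun x => un _ _ _ (hf a) x, fun x => x ▸ hf a⟩, ?_⟩
  have p : iv.toPerm ^ 2 = 1 := Equiv.ext fun a => iv a
  have c := Multiset.eq_replicate_card.2 (Equiv.Perm.pow_prime_eq_one_iff.1 p)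
  refine ⟨_, c, ?_⟩
  have s := Equiv.Perm.sum_cycleType iv.toPerm
  have u : iv.toPerm.support = Finset.univ :=
    Finset.eq_univ_of_forall fun a => Equiv.Perm.mem_support.2 fun e => by
      have := hf a
      rw [show f a = a from e] at this
      exact ir a this
  rw [c, Multiset.sum_replicate, u, Finset.card_univ, smul_eq_mul] at s
  exact s

theorem PI_inv {A A' : Type} [Finite A] [Finite A'] (r : A → A → Prop) (r' : A' → A' → Prop)
    (h : PI_pm r) (h' : PI_pm r') (hc : Nat.card A = Nat.card A') :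
    ∃ e : A ≃ A', ∀ a b, r a b ↔ r' (e a) (e b) := by
  classical
  have := Fintype.ofFinite A
  obtain ⟨e⟩ := Finite.card_eq.1 hc
  have h2 : PI_pm fun a b => r' (e a) (e b) :=
    ⟨fun _ _ => h'.1 _ _, fun _ => h'.2.1 _, fun a => by
      obtain ⟨b, x⟩ := h'.2.2.1 (e a)
      exact ⟨e.symm b, by simpa using x⟩,
      fun _ _ _ x y => e.injective (h'.2.2.2 _ _ _ x y)⟩
  obtain ⟨σ, a1, k, a2, a3⟩ := PI_perm r h
  obtain ⟨τ, b1, l, b2, b3⟩ := PI_perm _ h2
  have kl : k = l := by omega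
  obtain ⟨π, hπ⟩ := isConj_iff.1
    (Equiv.Perm.isConj_of_cycleType_eq (a2.trans (kl ▸ b2.symm)))
  refine ⟨π.trans e, fun a b => ?_⟩
  rw [a1, Equiv.trans_apply, Equiv.trans_apply, b1, ← hπ]
  simp

theorem PI_last {A A' T : Type} [Finite A] [Finite A'] (τ : A → T) (τ' : A' → T) (c0 : T)
    (hc : Nat.card A = Nat.card A')
    (h : ∀ c, c ≠ c0 → Nat.card {a // τ a = c} = Nat.card {a // τ' a = c}) (c : T) :
    Nat.card {a // τ a = c} = Nat.card {a // τ' a = c} := by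
  classical
  by_cases e : c = c0
  swap
  · exact h c e
  subst e
  have := Fintype.ofFinite A
  have := Fintype.ofFinite A'
  let s : Finset T := insert c (Finset.univ.image τ ∪ Finset.univ.image τ')
  have s1 := Finset.card_eq_sum_card_fiberwise (f := τ) (s := Finset.univ) (t := s)
    fun a _ => by simp [s]
  have s2 := Finset.card_eq_sum_card_fiberwise (f := τ') (s := Finset.univ) (t := s)
    fun a _ => by simp [s]
  have m : c ∈ s := Finset.mem_insert_self _ _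
  rw [← Finset.add_sum_erase _ _ m, Finset.card_univ, ← Nat.card_eq_fintype_card] at s1 s2
  simp only [Nat.card_eq_fintype_card, Fintype.card_subtype] at h hc s1 s2 ⊢
  rw [Finset.sum_congr rfl fun d hd => h d (Finset.ne_of_mem_erase hd)] at s1
  omega

section Ty

variable {S D : Type} [Group D] (M : CoxeterMatrix S) (R : Set S) (x : S → D)

/-- the kind of a free vertex -/
def PI_ty (f : {f // f ∉ R}) : Prop × Set D :=
  (∃ g, g ∉ R ∧ M f.1 g = 2, {d | ∃ g ∈ R, M f.1 g = 2 ∧ IsConj (x g) d})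

variable {M R}

theorem PI_t1 (hL : Low M R) (f : {f // f ∉ R}) :
    PI_ty M R x f = (True, ∅) ↔ ∃ g, g ∉ R ∧ M f.1 g = 2 := by
  constructor
  · intro h
    exact of_eq_true (congrArg Prod.fst h)
  · rintro ⟨g, hg, e⟩
    refine Prod.ext (eq_true ⟨g, hg, e⟩) (Set.eq_empty_of_forall_notMem ?_)
    rintro d ⟨u, hu, e', -⟩
    exact hg (hL f.1 f.2 u g e' e ▸ hu)

theorem PI_t2 (hL : Low M R) (f : {f // f ∉ R}) (d0 : D) :
    PI_ty M R x f = (False, {d | IsConj d0 d}) ↔ ∃ g ∈ R, M f.1 g = 2 ∧ IsConj (x g) d0 := by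
  constructor
  · intro h
    have : d0 ∈ (PI_ty M R x f).2 := by
      rw [h]
      exact IsConj.refl d0
    exact this
  · rintro ⟨g, hg, e, c⟩
    refine Prod.ext (eq_false ?_) (Set.ext fun d => ⟨?_, fun k => ⟨g, hg, e, c.trans k⟩⟩)
    · rintro ⟨u, hu, e'⟩
      exact hu (hL f.1 f.2 g u e e' ▸ hg)
    · rintro ⟨u, -, e', c'⟩
      rw [hL f.1 f.2 u g e' e] at c'
      exact c.symm.trans c'

theorem PI_t3 (hL : Low M R) (f : {f // f ∉ R}) :
    PI_ty M R x f = (True, ∅) ∨ PI_ty M R x f = (False, ∅) ∨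
      ∃ l ∈ R, PI_ty M R x f = (False, {d | IsConj (x l) d}) := by
  by_cases h1 : ∃ g, g ∉ R ∧ M f.1 g = 2
  · exact Or.inl ((PI_t1 x hL f).2 h1)
  by_cases h2 : ∃ g ∈ R, M f.1 g = 2
  · obtain ⟨g, hg, e⟩ := h2
    exact Or.inr (Or.inr ⟨g, hg, (PI_t2 x hL f _).2 ⟨g, hg, e, IsConj.refl _⟩⟩)
  · refine Or.inr (Or.inl (Prod.ext (eq_false h1) (Set.eq_empty_of_forall_notMem ?_)))
    rintro d ⟨u, hu, e, -⟩
    exact h2 ⟨u, hu, e⟩

theorem PI_card (c : Prop × Set D) (q : S → Prop) (h : ∀ f, PI_ty M R x f = c ↔ q f.1) :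
    Nat.card {f // PI_ty M R x f = c} = Nat.card {f // f ∉ R ∧ q f} :=
  Nat.card_congr ((Equiv.subtypeEquivRight h).trans
    (Equiv.subtypeSubtypeEquivSubtypeInter (fun f => f ∉ R) q))

theorem PI_pair (hL : Low M R) :
    PI_pm fun a b : {f // PI_ty M R x f = (True, ∅)} => M a.1.1 b.1.1 = 2 := by
  refine ⟨fun a b h => (M.symmetric _ _).trans h, fun a h => ?_, fun a => ?_,
    fun a b c h h' => ?_⟩
  · exact absurd ((M.diagonal _).symm.trans h) (by decide)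
  · obtain ⟨g, hg, e⟩ := (PI_t1 x hL a.1).1 a.2
    exact ⟨⟨⟨g, hg⟩, (PI_t1 x hL _).2 ⟨a.1.1, a.1.2, by rwa [M.symmetric]⟩⟩, e⟩
  · exact Subtype.ext (Subtype.ext (hL a.1.1 a.1.2 _ _ h h'))

end Ty

theorem PI_swap {S S' D : Type} [Group D] {R : Set S} {x : S → D} {R' : Set S'} {x' : S' → D}
    (h : Matched R x R' x') : Matched R' x' R x :=
  ⟨fun s hs => (h.2 s hs).imp fun _ k => ⟨k.1, k.2.symm⟩,
    fun s hs => (h.1 s hs).imp fun _ k => ⟨k.1, k.2.symm⟩⟩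

theorem PI_thm (_h1 : St_D1) (h2 : St_COUNT) : St_PI := by
  intro D S S' _ _ _ _ _ M R x M' R' x' dp dp' mt hL hL'
  obtain ⟨c1, c2, c3⟩ := h2 D S S' M R x M' R' x' dp dp' mt hL hL'
  obtain ⟨-, -, c4⟩ := h2 D S' S M' R' x' M R x dp' dp (PI_swap mt) hL' hL
  have leaf : ∀ l ∈ R, ∀ l' ∈ R', IsConj (x l) (x' l') →
      Nat.card {f // PI_ty M R x f = (False, {d | IsConj (x l) d})} =
        Nat.card {f // PI_ty M' R' x' f = (False, {d | IsConj (x l) d})} := by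
    intro l hl l' hl' c
    have e : {d | IsConj (x l) d} = {d | IsConj (x' l') d} :=
      Set.ext fun d => ⟨fun k => c.symm.trans k, fun k => c.trans k⟩
    rw [PI_card x _ (fun f => ∃ g ∈ R, M f g = 2 ∧ IsConj (x g) (x l))
        fun f => PI_t2 x hL f (x l), e,
      PI_card x' _ (fun f => ∃ g ∈ R', M' f g = 2 ∧ IsConj (x' g) (x' l'))
        fun f => PI_t2 x' hL' f (x' l')]
    exact le_antisymm (c4 l' hl' l hl c.symm) (c3 l hl l' hl' c)
  have card : ∀ c, Nat.card {f // PI_ty M R x f = c} = Nat.card {f // PI_ty M' R' x' f = c} := by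
    refine PI_last _ _ (False, ∅) c1 fun c hc => ?_
    by_cases a1 : c = (True, ∅)
    · rw [a1, PI_card x _ (fun f => ∃ g, g ∉ R ∧ M f g = 2) (PI_t1 x hL),
        PI_card x' _ (fun f => ∃ g, g ∉ R' ∧ M' f g = 2) (PI_t1 x' hL'), c2]
    by_cases a2 : ∃ l ∈ R, c = (False, {d | IsConj (x l) d})
    · obtain ⟨l, hl, rfl⟩ := a2
      obtain ⟨l', hl', k⟩ := mt.1 l hl
      exact leaf l hl l' hl' k
    have e1 : IsEmpty {f // PI_ty M R x f = c} := ⟨fun f => by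
      rcases PI_t3 x hL f.1 with h | h | ⟨l, hl, h⟩
      · exact a1 (f.2.symm.trans h)
      · exact hc (f.2.symm.trans h)
      · exact a2 ⟨l, hl, f.2.symm.trans h⟩⟩
    have e2 : IsEmpty {f // PI_ty M' R' x' f = c} := ⟨fun f => by
      rcases PI_t3 x' hL' f.1 with h | h | ⟨l', hl', h⟩
      · exact a1 (f.2.symm.trans h)
      · exact hc (f.2.symm.trans h)
      · obtain ⟨l, hl, k⟩ := mt.2 l' hl'
        refine a2 ⟨l, hl, (f.2.symm.trans h).trans (Prod.ext rfl ?_)⟩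
        exact Set.ext fun d => ⟨fun j => k.trans j, fun j => k.symm.trans j⟩⟩
    rw [Nat.card_of_isEmpty, Nat.card_of_isEmpty]
  have ex : ∀ c, ∃ e : {f // PI_ty M R x f = c} ≃ {f // PI_ty M' R' x' f = c},
      ∀ a b, M a.1.1 b.1.1 = 2 ↔ M' (e a).1.1 (e b).1.1 = 2 := by
    intro c
    by_cases a1 : c = (True, ∅)
    · subst a1
      exact PI_inv _ _ (PI_pair x hL) (PI_pair x' hL') (card _)
    · obtain ⟨e⟩ := Finite.card_eq.1 (card c)
      refine ⟨e, fun a b => iff_of_false (fun k => a1 ?_) fun k => a1 ?_⟩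
      · exact a.2.symm.trans ((PI_t1 x hL _).2 ⟨_, b.1.2, k⟩)
      · exact (e a).2.symm.trans ((PI_t1 x' hL' _).2 ⟨_, (e b).1.2, k⟩)
  choose e he using ex
  have ap : ∀ c (a : {f // PI_ty M R x f = c}), Equiv.ofFiberEquiv e a.1 = (e c a).1 := by
    rintro c ⟨a, rfl⟩
    rfl
  have ty := Equiv.ofFiberEquiv_map e
  refine ⟨Equiv.ofFiberEquiv e, fun f g => ?_, fun f l hl k => ?_, fun f l hl k => ?_⟩
  · have key : PI_ty M R x f = (True, ∅) → PI_ty M R x g = (True, ∅) →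
        (M f.1 g.1 = 2 ↔ M' (Equiv.ofFiberEquiv e f).1 (Equiv.ofFiberEquiv e g).1 = 2) := by
      intro a b
      rw [ap _ ⟨f, a⟩, ap _ ⟨g, b⟩]
      exact he _ ⟨f, a⟩ ⟨g, b⟩
    refine ⟨fun k => (key ?_ ?_).1 k, fun k => (key ?_ ?_).2 k⟩
    · exact (PI_t1 x hL _).2 ⟨_, g.2, k⟩
    · exact (PI_t1 x hL _).2 ⟨_, f.2, by rwa [M.symmetric]⟩
    · exact (ty f).symm.trans ((PI_t1 x' hL' _).2 ⟨_, (Equiv.ofFiberEquiv e g).2, k⟩)
    · exact (ty g).symm.trans
        ((PI_t1 x' hL' _).2 ⟨_, (Equiv.ofFiberEquiv e f).2, by rwa [M'.symmetric]⟩)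
  · have m : x l ∈ (PI_ty M R x f).2 := ⟨l, hl, k, IsConj.refl _⟩
    rw [← ty f] at m
    obtain ⟨g, hg, a, b⟩ := m
    exact ⟨g, hg, a, b.symm⟩
  · have m : x' l ∈ (PI_ty M' R' x' (Equiv.ofFiberEquiv e f)).2 := ⟨l, hl, k, IsConj.refl _⟩
    rw [ty f] at m
    exact m

end Pool.Agent.Lib.MP_1b8ce0_al.T
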