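import Mathlib
import Pool.Agent.Lib.MP_1b8ce0_al.T.FOLD

set_option linter.unusedSectionVars false
set_option linter.dupNamespace false

namespace Pool.Agent.Lib.MP_1b8ce0_al.T

open Pool.Agent.Lib.MP_6d85b4_al

theorem RESTR_top {S G : Type} [Group G] (x : S → G) (T : Set S) :
    gp (fun s : T => (⟨x s, gp_mem x s.2⟩ : gp x T)) Set.univ = ⊤ := by
  refine Subgroup.map_injective (gp x T).subtype_injective ?_
  rw [← MonoidHom.range_eq_map, Subgroup.range_subtype]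
  refine (MonoidHom.map_closure _ _).trans (congrArg Subgroup.closure ?_)
  rw [Set.image_image, Set.image_univ, Set.image_eq_range]
  rfl

theorem RESTR_lift (h0 : St_C0b) (h2 : St_DBL) {S G : Type} [Fintype S] [DecidableEq S] [Group G]
    {M : CoxeterMatrix S} {R : Set S} {x : S → G} (h : IsDyer M R x) (hF : Flex M R) (T : Set S)
    (H : Type) [Group H] (f : S → H) (hb : Braid M T f) (hq : ∀ s ∈ T, s ∈ R → f s * f s = 1) :
    ∃ φ : gp x T →* H, ∀ s (h : x s ∈ gp x T), s ∈ T → φ ⟨x s, h⟩ = f s := by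
  classical
  obtain ⟨⟨E⟩, hE⟩ := h2 S M R
  obtain ⟨ι, hι⟩ := (hE E hF).2 G x R h subset_rfl
  let g : E.B → H := fun i => if i = E.a (E.p i) then f (E.p i) else 1
  let y : E.B → RegularWreathProduct H (S → ℤˣ) := fun i =>
    ⟨fun ε => g i ^ ((ε (E.p i) : ℤˣ) : ℤ), FOLD_e R (E.p i)⟩
  have ga : ∀ s, g (E.a s) = f s := fun s => by simp only [g, E.pa, if_true]
  have gb : ∀ s, s ∉ R → g (E.b s) = 1 := fun s hs => by
    simp only [g, E.pb]
    exact if_neg fun e => hs ((E.ab s).1 e.symm)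
  let c : H →* RegularWreathProduct H (S → ℤˣ) :=
    MonoidHom.mk' (fun u => ⟨fun _ => u, 1⟩) fun u v => RegularWreathProduct.ext rfl (mul_one _).symm
  have ya : ∀ s ∈ T, s ∈ R → y (E.a s) = c (f s) := fun s hs hr =>
    RegularWreathProduct.ext (funext fun ε => by
      simp only [y, ga]; exact FOLD_sq (hq s hs hr) _) (by simp only [y, E.pa, FOLD_e_mem hr]; rfl)
  have y1 : ∀ i ∈ E.p ⁻¹' T, y i * y i = 1 := fun i hi => by
    refine RegularWreathProduct.ext (funext fun ε => ?_) (FOLD_e_sq _)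
    change g i ^ ((ε (E.p i) : ℤˣ) : ℤ) *
      g i ^ (((FOLD_e R (E.p i) (E.p i))⁻¹ * ε (E.p i) : ℤˣ) : ℤ) = 1
    by_cases hr : E.p i ∈ R
    · have : g i * g i = 1 := by
        simp only [g]
        split_ifs
        · exact hq _ hi hr
        · simp
      rw [FOLD_sq this, FOLD_sq this, this]
    · simp [FOLD_e_self hr]
  have y2 := FOLD_braid E hF T y (fun s hs t ht h1 h2 h3 h4 => by
    rw [ya s hs h1, ya t ht h2, ← map_alt, ← map_alt, hb s hs t ht h3 h4]) fun i j hi hj h2 => by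
      have hne := FOLD_ne h2
      have hc := hb _ hi _ hj hne (by omega)
      rw [h2, FOLD_alt_two, FOLD_alt_two] at hc
      refine RegularWreathProduct.ext (funext fun ε => ?_) (mul_comm _ _)
      change g i ^ ((ε (E.p i) : ℤˣ) : ℤ) *
          g j ^ (((FOLD_e R (E.p i) (E.p j))⁻¹ * ε (E.p j) : ℤˣ) : ℤ) =
        g j ^ ((ε (E.p j) : ℤˣ) : ℤ) *
          g i ^ (((FOLD_e R (E.p j) (E.p i))⁻¹ * ε (E.p i) : ℤˣ) : ℤ)
      rw [FOLD_e_ne hne, FOLD_e_ne hne.symm, inv_one, one_mul, one_mul]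
      refine (Commute.zpow_zpow ?_ _ _).eq
      simp only [g]
      split_ifs
      · exact hc
      all_goals simp
  obtain ⟨Φ, hΦ⟩ := (h0 E.B E.N).restr _ _ y y2 y1
  have ma : ∀ s ∈ T, sr E.N (E.a s) ∈ par E.N (E.p ⁻¹' T) := fun s hs =>
    gp_mem _ (by simpa [E.pa] using hs)
  have mb : ∀ s ∈ T, sr E.N (E.b s) ∈ par E.N (E.p ⁻¹' T) := fun s hs =>
    gp_mem _ (by simpa [E.pb] using hs)
  have hm : gp x T ≤ (par E.N (E.p ⁻¹' T)).comap ι := gp_le.2 fun s hs => by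
    rw [Subgroup.mem_comap]
    by_cases hr : s ∈ R
    · exact hι.1 s hr ▸ ma s hs
    · exact hι.2 s hr ▸ mul_mem (ma s hs) (mb s hs)
  let Ψ := Φ.comp ((ι.comp (gp x T).subtype).codRestrict _ fun u => hm u.2)
  have k : ∀ s (hx : x s ∈ gp x T), s ∈ T → (Ψ ⟨x s, hx⟩).right = 1 ∧
      (Ψ ⟨x s, hx⟩).left 1 = f s := fun s hx hs => by
    have pa : E.a s ∈ E.p ⁻¹' T := by simpa [E.pa] using hs
    have pb : E.b s ∈ E.p ⁻¹' T := by simpa [E.pb] using hs
    by_cases hr : s ∈ R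
    · have : Ψ ⟨x s, hx⟩ = Φ ⟨_, ma s hs⟩ := congrArg Φ (Subtype.ext (hι.1 s hr))
      rw [this, hΦ _ _ pa, ya s hs hr]
      exact ⟨rfl, rfl⟩
    · have : Ψ ⟨x s, hx⟩ = Φ (⟨_, ma s hs⟩ * ⟨_, mb s hs⟩) :=
        congrArg Φ (Subtype.ext (hι.2 s hr))
      rw [this, map_mul, hΦ _ _ pa, hΦ _ _ pb]
      refine ⟨?_, ?_⟩
      · change FOLD_e R _ * FOLD_e R _ = 1
        rw [E.pa, E.pb, FOLD_e_sq]
      · simp [y, ga, gb s hr]
  have r : RegularWreathProduct.rightHom.comp Ψ = 1 :=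
    FOLD_ext (RESTR_top x T) fun s => (k s _ s.2).1
  refine ⟨MonoidHom.mk' (fun u => (Ψ u).left 1) fun u v => ?_, fun s hx hs => (k s hx hs).2⟩
  have : (Ψ u).right = 1 := DFunLike.congr_fun r u
  simp [this]

theorem RESTR_thm (h0 : St_C0b) (_h1 : St_D1) (h2 : St_DBL) (_h3 : St_FOLD) : St_RESTR := by
  intro S G _ _ _ M R x h hF T
  refine ⟨RESTR_lift h0 h2 h hF T, RESTR_top x T, fun s _ t _ hst hz => ?_,
    fun s hs => Subtype.ext (h.sqr s hs), fun H _ f hb hq => ?_⟩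
  · refine (gp x T).subtype_injective ?_
    rw [map_alt, map_alt]
    exact h.braid s trivial t trivial (fun e => hst (Subtype.ext e)) hz
  · classical
    obtain ⟨φ, hφ⟩ := RESTR_lift h0 h2 h hF T H (fun s => if hs : s ∈ T then f ⟨s, hs⟩ else 1)
      (fun s hs t ht hst hz => by
        simp only [dif_pos hs, dif_pos ht]
        exact hb ⟨s, hs⟩ trivial ⟨t, ht⟩ trivial (fun e => hst (congrArg Subtype.val e)) hz)
      fun s hs hr => by
        simp only [dif_pos hs]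
        exact hq ⟨s, hs⟩ hr
    exact ⟨φ, fun s => (hφ s _ s.2).trans (dif_pos s.2)⟩

end Pool.Agent.Lib.MP_1b8ce0_al.T
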