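import Mathlib
import Pool.Agent.Lib.MP_1b8ce0_al.T.StsC

set_option linter.unusedSectionVars false
set_option linter.dupNamespace false

namespace Pool.Agent.Lib.MP_1b8ce0_al.T

open Pool.Agent.Lib.MP_6d85b4_al

section Aux

variable {S : Type} {M : CoxeterMatrix S}

theorem RG_adj_symm {s t : S} (h : Adj M s t) : Adj M t s := ⟨h.1.symm, M.symmetric _ _ ▸ h.2⟩

theorem RG_symm {A : Set S} {s t : S} (h : Conn M A s t) : Conn M A t s := by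
  induction h with
  | refl => exact .refl
  | tail _ h ih => exact .head ⟨h.2.1, h.1, RG_adj_symm h.2.2⟩ ih

theorem RG_mono {A B : Set S} (hAB : A ⊆ B) {s t : S} (h : Conn M A s t) : Conn M B s t := by
  induction h with
  | refl => exact .refl
  | tail _ h ih => exact ih.tail ⟨hAB h.1, hAB h.2.1, h.2.2⟩

theorem RG_mem {A : Set S} {s t : S} (hs : s ∈ A) (h : Conn M A s t) : t ∈ A := by
  cases h with
  | refl => exact hs
  | tail _ h => exact h.2.1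

theorem RG_comp (A : Set S) (y : S) : PreConn M {u | Conn M A y u} := by
  have h : ∀ u, Conn M A y u → Conn M {u | Conn M A y u} y u := by
    intro u hu
    induction hu with
    | refl => exact .refl
    | tail h1 h2 ih => exact ih.tail ⟨h1, h1.tail h2, h2.2.2⟩
  exact fun s hs t ht => (RG_symm (h s hs)).trans (h t ht)

theorem RG_sub {J K : Set S} (h : Simplex M J) (hK : K ⊆ J) : Simplex M K :=
  ⟨fun s hs t ht => h.1 s (hK hs) t (hK ht),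
    fun s hs t ht u hu => h.2 s (hK hs) t (hK ht) u (hK hu)⟩

theorem RG_single (u : S) : Simplex M {u} := by
  refine ⟨?_, ?_⟩
  · rintro _ rfl _ rfl
    rw [M.diagonal]
    omega
  · rintro _ rfl _ rfl _ rfl
    exact .inl rfl

theorem RG_empty : Simplex M ∅ := ⟨fun _ h => h.elim, fun _ h => h.elim⟩

theorem RG_step {A : Set S} {s t : S} (h : Conn M A s t) (hne : s ≠ t) : ∃ u ∈ A, Adj M s u := by
  rcases h.cases_head with e | ⟨u, h1, -⟩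
  · exact (hne e).elim
  · exact ⟨u, h1.2.1, h1.2.2⟩

/-- a connected piece that is attached to `T` outside every simplex -/
def RG_P (M : CoxeterMatrix S) (T Y : Set S) : Prop :=
  PreConn M Y ∧ ∀ J, Simplex M J → ¬ T ⊆ J → ∃ p ∈ T, p ∉ J ∧ ∃ u ∈ Y, Adj M u p

theorem RG_reach {T Y J : Set S} (hd : Disjoint T Y) (hP : RG_P M T Y)
    (hm : ∀ Y1, Y1 ⊆ Y → RG_P M T Y1 → Y ⊆ Y1) (hJ : Simplex M J) (hT : ¬ T ⊆ J) {z : S}
    (hz : z ∈ Y \ J) : ∃ w, Conn M (Y \ J) z w ∧ ∃ p ∈ T, p ∉ J ∧ Adj M w p := by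
  by_contra hn
  by_cases hj : ∃ j ∈ Y, j ∈ J
  · obtain ⟨j, hjY, hjJ⟩ := hj
    have hZ : ∀ i ∈ Y, i ∈ J → i ∈ Y \ {w | Conn M (Y \ J) z w} := fun i h1 h2 =>
      ⟨h1, fun h => (RG_mem hz h).2 h2⟩
    have h1 : ∀ w, Conn M Y w j → w ∈ Y \ {w | Conn M (Y \ J) z w} →
        Conn M (Y \ {w | Conn M (Y \ J) z w}) w j := by
      intro w hw
      induction hw using Relation.ReflTransGen.head_induction_on with
      | refl => exact fun _ => .refl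
      | @head a b hab _ ih =>
        intro ha
        by_cases c : a ∈ J
        · by_cases e : a = j
          · exact e ▸ .refl
          · exact .single ⟨ha, hZ j hjY hjJ, e, hJ.1 a c j hjJ⟩
        · have hb : b ∈ Y \ {w | Conn M (Y \ J) z w} := ⟨hab.2.1, fun h =>
            ha.2 (Relation.ReflTransGen.tail h ⟨RG_mem hz h, ⟨ha.1, c⟩, RG_adj_symm hab.2.2⟩)⟩
          exact .head ⟨ha, hb, hab.2.2⟩ (ih hb)
    refine (hm _ Set.sdiff_subset ⟨fun s hs t ht => (h1 s (hP.1 s hs.1 j hjY) hs).trans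
      (RG_symm (h1 t (hP.1 t ht.1 j hjY) ht)), fun K hK hTK => ?_⟩ hz.1).2 .refl
    obtain ⟨p, hp, hpK, u, hu, hup⟩ := hP.2 K hK hTK
    by_cases c : Conn M (Y \ J) z u
    · have hpJ : p ∈ J := by
        by_contra h
        exact hn ⟨u, c, p, hp, h, hup⟩
      exact ⟨p, hp, hpK, j, hZ j hjY hjJ, fun e => Set.disjoint_left.1 hd hp (e ▸ hjY),
        hJ.1 j hjJ p hpJ⟩
    · exact ⟨p, hp, hpK, u, ⟨hu, c⟩, hup⟩
  · obtain ⟨p, hp, hpJ, u, hu, hup⟩ := hP.2 J hJ hT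
    have hs : Y ⊆ Y \ J := fun i hi => ⟨hi, fun h => hj ⟨i, hi, h⟩⟩
    exact hn ⟨u, RG_mono hs (hP.1 z hz.1 u hu), p, hp, hpJ, hup⟩

theorem RG_grow [Finite S] {T Y : Set S} (hd : Disjoint T Y) (h2 : Two T)
    (hT : ∀ J, Simplex M J → PreConn M (T \ J)) (hP : RG_P M T Y) :
    ∃ Y0, Y0 ⊆ Y ∧ Y0.Nonempty ∧ Rigid M (T ∪ Y0) := by
  obtain ⟨Y0, ⟨h0, hP0⟩, hm⟩ := Set.exists_min_image {Y1 | Y1 ⊆ Y ∧ RG_P M T Y1} Set.ncard
    (Set.toFinite _) ⟨Y, subset_rfl, hP⟩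
  have hd0 : Disjoint T Y0 := hd.mono_right h0
  have hm0 : ∀ Y1, Y1 ⊆ Y0 → RG_P M T Y1 → Y0 ⊆ Y1 := fun Y1 h1 h =>
    (Set.eq_of_subset_of_ncard_le h1 (hm Y1 ⟨h1.trans h0, h⟩)).superset
  obtain ⟨p, hp, q, hq, hpq⟩ := h2
  obtain ⟨-, -, -, z, hz, -⟩ := hP0.2 ∅ RG_empty fun h => h hp
  refine ⟨Y0, h0, ⟨z, hz⟩, ⟨p, .inl hp, q, .inl hq, z, .inr hz, hpq,
    fun e => Set.disjoint_left.1 hd0 hq (e ▸ hz), fun e => Set.disjoint_left.1 hd0 hp (e ▸ hz)⟩,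
    fun J hJ => ?_⟩
  by_cases c : T ⊆ J
  · have e : (T ∪ Y0) \ J = Y0 := by
      refine Set.ext fun u => ⟨fun h => h.1.resolve_left fun h' => h.2 (c h'),
        fun h => ⟨.inr h, fun h' => ?_⟩⟩
      rcases hJ.2 p (c hp) q (c hq) u h' with e | e | e
      · exact hpq e
      · exact Set.disjoint_left.1 hd0 hq (e ▸ h)
      · exact Set.disjoint_left.1 hd0 hp (e ▸ h)
    rw [e]
    exact hP0.1
  · have h1 : ∀ u ∈ (T ∪ Y0) \ J, ∃ v ∈ T \ J, Conn M ((T ∪ Y0) \ J) u v := by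
      rintro u ⟨hu | hu, huJ⟩
      · exact ⟨u, ⟨hu, huJ⟩, .refl⟩
      · obtain ⟨w, hw, v, hv, hvJ, hwv⟩ := RG_reach hd0 hP0 hm0 hJ c ⟨hu, huJ⟩
        have hw' : w ∈ Y0 \ J := RG_mem (s := u) ⟨hu, huJ⟩ hw
        exact ⟨v, ⟨hv, hvJ⟩, (RG_mono (Set.sdiff_subset_sdiff_left Set.subset_union_right) hw).tail
          ⟨⟨.inr hw'.1, hw'.2⟩, ⟨.inl hv, hvJ⟩, hwv⟩⟩
    intro s hs t ht
    obtain ⟨s', hs', h3⟩ := h1 s hs
    obtain ⟨t', ht', h4⟩ := h1 t ht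
    exact (h3.trans (RG_mono (Set.sdiff_subset_sdiff_left Set.subset_union_left)
      (hT J hJ s' hs' t' ht'))).trans (RG_symm h4)

theorem RG_third {T : Set S} (h : Rigid M T) (a b : S) : ∃ w ∈ T, w ≠ a ∧ w ≠ b := by
  obtain ⟨s, hs, t, ht, u, hu, h1, h2, h3⟩ := h.1
  by_contra hn
  have h4 : ∀ w ∈ T, w = a ∨ w = b := fun w hw => by
    by_contra h
    exact hn ⟨w, hw, fun e => h (.inl e), fun e => h (.inr e)⟩
  rcases h4 s hs with rfl | rfl <;> rcases h4 t ht with rfl | rfl <;>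
    rcases h4 u hu with e | e <;> simp_all

end Aux

theorem RG_thm : St_RG := by
  intro S _ M
  refine ⟨fun T hT => ?_, fun _ T hT y hy => ?_, fun A y p q hy hp hq hpq => ?_,
    fun A T z hA hT hz hzA u hu => ?_, fun T t hT ht => ?_, fun T hT => ⟨?_, fun J hJ => ?_⟩,
    fun S' M' T σ hT hσ => ?_⟩
  · obtain ⟨T1, ⟨h1, h2⟩, hm⟩ := Set.exists_max_image {T1 | T ⊆ T1 ∧ Rigid M T1} Set.ncard
      (Set.toFinite _) ⟨T, subset_rfl, hT⟩
    exact ⟨T1, h1, h2, fun T2 h3 h4 =>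
      (Set.eq_of_subset_of_ncard_le h4 (hm T2 ⟨h1.trans h4, h3⟩)).symm⟩
  · by_contra hn
    have hd : Disjoint T {u | Conn M Tᶜ y u} := Set.disjoint_left.2 fun u hu h => RG_mem hy h hu
    obtain ⟨Y0, h0, ⟨z, hz⟩, h1⟩ := RG_grow hd
      (by
        obtain ⟨s, hs, t, ht, -, -, h, -⟩ := hT.1.1
        exact ⟨s, hs, t, ht, h⟩) hT.1.2 ⟨RG_comp _ y, fun J hJ _ => by
        obtain ⟨p, ⟨hp, u, hu, hup⟩, hpJ⟩ := Set.not_subset.1 fun h => hn (RG_sub hJ h)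
        exact ⟨p, hp, hpJ, u, hu, hup⟩⟩
    exact Set.disjoint_left.1 hd (hT.2 _ h1 Set.subset_union_left ▸ .inr hz) (h0 hz)
  · obtain ⟨Y0, h0, ⟨z, hz⟩, h1⟩ := RG_grow (T := {p, q}) (Y := {u | Conn M Aᶜ y u})
      (Set.disjoint_left.2 (by
        rintro _ (rfl | rfl) h
        · exact RG_mem hy h hp.1
        · exact RG_mem hy h hq.1)) ⟨p, .inl rfl, q, .inr rfl, hpq.1⟩
      (by
        rintro J - s hs t ht
        obtain ⟨rfl | rfl, -⟩ := id hs <;> obtain ⟨rfl | rfl, -⟩ := id ht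
        · exact .refl
        · exact .single ⟨hs, ht, hpq⟩
        · exact .single ⟨hs, ht, RG_adj_symm hpq⟩
        · exact .refl) ⟨RG_comp _ y, fun J _ h => by
        obtain ⟨_, rfl | rfl, h'⟩ := Set.not_subset.1 h
        · exact ⟨_, .inl rfl, h', hp.2⟩
        · exact ⟨_, .inr rfl, h', hq.2⟩⟩
    exact ⟨_, h1, .inl (.inl rfl), .inl (.inr rfl), z, .inr hz, h0 hz⟩
  · refine or_iff_not_imp_left.2 fun hn => ?_
    have h := hT.2 _ (hA z hzA) z ⟨hz, fun h => hzA h.1⟩ u ⟨hu, hn⟩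
    clear hu hn
    induction h with
    | refl => exact .refl
    | tail _ h ih => exact ih.tail ⟨RG_mem hzA ih, fun h' => h.2.1.2 ⟨h', _, ih, h.2.2⟩, h.2.2⟩
  · obtain ⟨w, hw, h1, -⟩ := RG_third hT t t
    obtain ⟨u, hu, h2⟩ := RG_step (hT.2 ∅ RG_empty t ⟨ht, id⟩ w ⟨hw, id⟩) h1.symm
    obtain ⟨w', hw', h3, h4⟩ := RG_third hT t u
    obtain ⟨v, hv, h5⟩ := RG_step (hT.2 {u} (RG_single u) t ⟨ht, h2.1⟩ w' ⟨hw', h4⟩) h3.symm
    exact ⟨u, hu.1, v, hv.1, Ne.symm hv.2, h2, h5⟩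
  · obtain ⟨s, hs, t, ht, u, hu, h1, h2, h3⟩ := hT.1
    exact ⟨⟨s, hs⟩, trivial, ⟨t, ht⟩, trivial, ⟨u, hu⟩, trivial, fun e => h1 (congrArg (·.1) e),
      fun e => h2 (congrArg (·.1) e), fun e => h3 (congrArg (·.1) e)⟩
  · have hJ' : Simplex M (Subtype.val '' J) := by
      refine ⟨?_, ?_⟩
      · rintro _ ⟨s, hs, rfl⟩ _ ⟨t, ht, rfl⟩
        exact hJ.1 s hs t ht
      · rintro _ ⟨s, hs, rfl⟩ _ ⟨t, ht, rfl⟩ _ ⟨u, hu, rfl⟩
        exact (hJ.2 s hs t ht u hu).imp (congrArg _) (Or.imp (congrArg _) (congrArg _))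
    have hm : ∀ s : T, s ∈ Set.univ \ J ↔ s.1 ∈ T \ Subtype.val '' J := fun s => by simp
    have h1 : ∀ (s : T) t, Conn M (T \ Subtype.val '' J) s t → ∀ ht : t ∈ T,
        Conn (res M T) (Set.univ \ J) s ⟨t, ht⟩ := by
      intro s t h
      induction h with
      | refl => exact fun _ => .refl
      | tail _ h ih =>
        exact fun ht => (ih h.1.1).tail ⟨(hm _).2 h.1, (hm _).2 h.2.1,
          fun e => h.2.2.1 (congrArg (·.1) e), h.2.2.2⟩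
    exact fun s hs t ht => h1 s t (hT.2 _ hJ' s ((hm s).1 hs) t ((hm t).1 ht)) t.2
  · have hi : ∀ s ∈ T, ∀ t ∈ T, σ s = σ t → s = t := fun s hs t ht e => by
      by_contra h
      exact M.off_diagonal s t h (by rw [← hσ s hs t ht, e, M'.diagonal])
    refine ⟨?_, fun J hJ => ?_⟩
    · obtain ⟨s, hs, t, ht, u, hu, h1, h2, h3⟩ := hT.1
      exact ⟨_, ⟨s, hs, rfl⟩, _, ⟨t, ht, rfl⟩, _, ⟨u, hu, rfl⟩, fun e => h1 (hi _ hs _ ht e),
        fun e => h2 (hi _ ht _ hu e), fun e => h3 (hi _ hs _ hu e)⟩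
    · have hJ' : Simplex M {s | s ∈ T ∧ σ s ∈ J} :=
        ⟨fun s hs t ht => hσ s hs.1 t ht.1 ▸ hJ.1 _ hs.2 _ ht.2, fun s hs t ht u hu =>
          (hJ.2 _ hs.2 _ ht.2 _ hu.2).imp (hi _ hs.1 _ ht.1)
            (Or.imp (hi _ ht.1 _ hu.1) (hi _ hs.1 _ hu.1))⟩
      rintro _ ⟨⟨s, hs, rfl⟩, h1⟩ _ ⟨⟨t, ht, rfl⟩, h2⟩
      have h := hT.2 _ hJ' s ⟨hs, fun h => h1 h.2⟩ t ⟨ht, fun h => h2 h.2⟩
      clear ht h2
      induction h with
      | refl => exact .refl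
      | @tail u v _ h ih =>
        exact ih.tail ⟨⟨⟨u, h.1.1, rfl⟩, fun e => h.1.2 ⟨h.1.1, e⟩⟩,
          ⟨⟨v, h.2.1.1, rfl⟩, fun e => h.2.1.2 ⟨h.2.1.1, e⟩⟩,
          fun e => h.2.2.1 (hi _ h.1.1 _ h.2.1.1 e), hσ u h.1.1 v h.2.1.1 ▸ h.2.2.2⟩

end Pool.Agent.Lib.MP_1b8ce0_al.T
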