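import Mathlib
import Pool.Agent.Lib.MP_1b8ce0_al.T.StsC

/-! Rigid sets are matched. -/

set_option linter.unusedSectionVars false
set_option linter.dupNamespace false

namespace Pool.Agent.Lib.MP_1b8ce0_al.T

open Pool.Agent.Lib.MP_6d85b4_al Filter

variable {S S' D : Type} [Group D] {M : CoxeterMatrix S} {R : Set S} {x : S → D}
  {M' : CoxeterMatrix S'} {R' : Set S'} {x' : S' → D}

theorem RIG_res (h : NoSph M) (T : Set S) : NoSph (res M T) := fun s t u h1 h2 h3 =>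
  h s t u (fun e => h1 (Subtype.ext e)) (fun e => h2 (Subtype.ext e)) fun e => h3 (Subtype.ext e)

/-- a standard subgroup of involutions is the Coxeter group of the restriction -/
theorem RIG_emb [Fintype S] [DecidableEq S] (hA : St_CA) (h1 : St_D1) (h3 : St_RESTR)
    (hd : DP M R x) {T : Set S} [Fintype T] (hT : T ⊆ R) :
    ∃ i : (res M T).Group →* D, Function.Injective i ∧ i.range = gp x T ∧
      ∀ t : T, i (sr (res M T) t) = x t := by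
  have hW := (hA T (res M T) (RIG_res hd.ns T)).b0.dyer
  have hG := (h3 S D M R x hd.dy hd.fl T).2
  obtain ⟨i, hi⟩ := hW.lift _ _ hG.braid fun s _ => hG.sqr s (hT s.2)
  obtain ⟨φ, hφ⟩ := hG.lift _ _ hW.braid fun s _ => hW.sqr s trivial
  have e : φ.comp i = MonoidHom.id _ :=
    (h1.2 _ _ _ _ _ hW).ext _ _ _ fun s => by rw [MonoidHom.comp_apply, hi, hφ, MonoidHom.id_apply]
  refine ⟨(gp x T).subtype.comp i, (gp x T).subtype_injective.comp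
    (Function.LeftInverse.injective (g := φ) fun w => DFunLike.congr_fun e w), le_antisymm ?_ ?_,
    fun t => by rw [MonoidHom.comp_apply, hi, Subgroup.subtype_apply]⟩
  · rintro _ ⟨w, rfl⟩
    exact (i w).2
  · exact gp_le.2 fun s hs =>
      ⟨sr (res M T) ⟨s, hs⟩, by rw [MonoidHom.comp_apply, hi, Subgroup.subtype_apply]⟩

theorem RIG_inj (hd : IsDyer M R x) (E : Side M R x) : Function.Injective E.ψ := by
  refine (injective_iff_map_eq_one _).2 fun g hg => Subgroup.mem_bot.1 ?_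
  refine Subgroup.normalClosure_le_normal ?_ ((E.ker g).1 hg)
  rintro _ ⟨s, hs, rfl⟩
  exact hd.sqr s hs

theorem RIG_a (E : Side M R x) {i : E.B} (h : E.p i ∈ R) : E.a (E.p i) = i :=
  ((E.all i).elim id fun k => k.trans ((E.ab _).2 h).symm).symm

theorem RIG_par (E : Side M R x) : par E.N (E.p ⁻¹' R) ≤ E.ψ.range :=
  gp_le.2 fun i hi => ⟨x (E.p i), by rw [E.hom.1 _ hi, RIG_a E hi]⟩

theorem RIG_pair {s t : S} {s' t' : S'} {e : D} (h1 : x s = e * x' s' * e⁻¹)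
    (h2 : x t = e * x' t' * e⁻¹) : gp x {s, t} = cj e (gp x' {s', t'}) := by
  refine le_antisymm (gp_le.2 ?_) ?_
  · rintro u (rfl | rfl)
    · exact h1 ▸ conj_mem_cj.2 (gp_mem x' (Or.inl rfl))
    · exact h2 ▸ conj_mem_cj.2 (gp_mem x' (Or.inr rfl))
  · have k : gp x' {s', t'} ≤ cj e⁻¹ (gp x {s, t}) := gp_le.2 (by
      rintro u (rfl | rfl)
      · rw [mem_cj, inv_inv, ← h1]
        exact gp_mem x (Or.inl rfl)
      · rw [mem_cj, inv_inv, ← h2]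
        exact gp_mem x (Or.inr rfl))
    have k2 := cj_mono e k
    rwa [cj_cj, mul_inv_cancel, cj_one] at k2

theorem RIG_thm (hA : St_CA) (h1 : St_D1) (_h2 : St_TT) (h3 : St_RESTR) (h4 : St_DPAR)
    (_h5 : St_FREE) (h6 : St_RG) (h7 : St_SIDE) (h8 : St_THIN) (h9 : St_GOR) (h10 : St_GFIN) :
    St_RIG := by
  classical
  intro D S S' _ _ _ _ _ M R x M' R' x' hd hd' hm lo lo' T₀ hT₀
  obtain ⟨T, hsub, hT⟩ := (h6 S M).max T₀ hT₀
  suffices H : ∃ σ, Good M M' (EE M R x M' R' x') T σ by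
    obtain ⟨σ, k1, k2⟩ := H
    exact ⟨σ, fun s hs t ht => k1 s (hsub hs) t (hsub ht),
      fun s hs t ht => k2 s (hsub hs) t (hsub ht)⟩
  obtain ⟨hR, ⟨d₀, hd₀⟩, hK⟩ := h8 D S S' M R x M' R' x' hd hd' hm lo lo' T hT
  obtain ⟨E⟩ := h7 S' D M' R' R' x' hd'.dy subset_rfl hd'.fl hd'.ns
  let _ : Fintype T := Fintype.ofFinite T
  obtain ⟨i, i1, i2, i3⟩ := RIG_emb hA h1 h3 hd hR
  obtain ⟨ψ, hψ⟩ : ∃ ψ : D →* E.N.Group, ∀ g, ψ g = E.ψ (d₀⁻¹ * g * d₀) :=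
    ⟨E.ψ.comp (MulAut.conj d₀⁻¹).toMonoidHom, fun g => by simp⟩
  have ψ1 : Function.Injective ψ := fun g h e => by
    rw [hψ, hψ] at e
    simpa using RIG_inj hd'.dy E e
  have hr : ∀ t : T, ∃ a, ReflOf E.N (ψ.comp i (sr (res M T) t)) a := fun t => by
    obtain ⟨s', hs', k⟩ := hm.1 t (hR t.2)
    obtain ⟨c, hc⟩ := isConj_iff.1 k.symm
    refine ⟨_, E.ψ (d₀⁻¹ * c), E.a s', rfl, ?_⟩
    rw [MonoidHom.comp_apply, i3, hψ, ← hc, ← E.hom.1 s' hs', ← map_inv, ← map_mul, ← map_mul]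
    simp only [mul_inv_rev, inv_inv, mul_assoc]
  choose β hβ using hr
  obtain ⟨θ, β', e1, e2, e3⟩ := h9 T E.B (res M T) E.N (ψ.comp i) β
    ⟨RIG_res hd.ns T, E.ns, (h6 S M).res T hT.1, ψ1.comp i1, hβ⟩
  have hi : ∀ w, i w ∈ gp x T := fun w => i2 ▸ ⟨w, rfl⟩
  have fo : ∀ r, IsRefl E.N r → IsOfFinOrder r := fun r hr =>
    isOfFinOrder_iff_pow_eq_one.2 ⟨2, two_pos, (pow_two r).trans ((hA _ _ E.ns).a0.refl_sq r hr).1⟩
  obtain ⟨c, σ₀, hσ⟩ := h10 T E.B (res M T) E.N _ β' e2 (E.p ⁻¹' R') e3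
    (fun w => by
      change ψ (i (θ w)) ∈ _
      rw [hψ]
      exact E.mem R' _ (hd₀ (hi _)))
    (fun r k1 k2 k3 => by
      obtain ⟨g, rfl⟩ := RIG_par E k2
      have k4 : E.ψ g = ψ (d₀ * g * d₀⁻¹) := by rw [hψ]; simp [mul_assoc]
      rw [k4] at k1 k3 ⊢
      obtain ⟨K, k5, k6⟩ := hK _ (ψ1.isOfFinOrder_iff.1 (fo _ k1)) fun k => k3 (by
        obtain ⟨w, hw⟩ := i2.symm ▸ k
        exact ⟨θ.symm w, by simp [hw]⟩)
      refine ⟨K.map ψ, Finite.of_surjective _ (ψ.subgroupMap_surjective K), fun w k7 k8 => ?_⟩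
      change IsRefl E.N (ψ (i (θ w))) at k7
      change IsOfFinOrder (_ * ψ (i (θ w))) at k8
      rw [← map_mul] at k8
      exact Subgroup.mem_map_of_mem ψ (k6 _ (hi _) (ψ1.isOfFinOrder_iff.1 (fo _ k7))
        (ψ1.isOfFinOrder_iff.1 k8)))
  obtain ⟨d, -, hf⟩ := E.fold c
  have key : ∀ t : T, i (θ (sr (res M T) t)) = d₀ * d * x' (E.p (σ₀ t)) * (d₀ * d)⁻¹ := fun t => by
    have k := RIG_inj hd'.dy E (hf _ (hσ t).1 (d₀⁻¹ * i (θ (sr (res M T) t)) * d₀) (by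
      rw [RIG_a E (hσ t).1, ← (hσ t).2, ← hψ]
      rfl))
    rw [mul_inv_rev, ← mul_assoc, mul_assoc d₀ d, mul_assoc d₀, ← k]
    simp [mul_assoc]
  have lab : ∀ s t : T, M' (E.p (σ₀ s)) (E.p (σ₀ t)) = M s t := fun s t => by
    rw [← (h4 S' D M' R' x' hd').ord _ (hσ s).1 _ (hσ t).1, ← res_apply,
      ← (hA T (res M T) (RIG_res hd.ns T)).c0.ord, ← θ.orderOf_eq, ← orderOf_injective i i1,
      map_mul, map_mul, key, key, conj_mul, ← MulAut.conj_apply, MulEquiv.orderOf_eq]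
  obtain ⟨t₀, ht₀, -⟩ := hT.1.1
  refine ⟨fun s => if h : s ∈ T then E.p (σ₀ ⟨s, h⟩) else E.p (σ₀ ⟨t₀, ht₀⟩),
    fun s hs t ht => ?_, fun s hs t ht hst => ?_⟩ <;> simp only [dif_pos hs, dif_pos ht]
  · exact lab ⟨s, hs⟩ ⟨t, ht⟩
  have l := lab ⟨s, hs⟩ ⟨t, ht⟩
  obtain ⟨g, g1, g2⟩ := e1 ⟨s, hs⟩ ⟨t, ht⟩ ⟨fun e => hst.1 (congrArg Subtype.val e), hst.2⟩
  have cv : ∀ u : T, θ (sr (res M T) u) = g * sr (res M T) u * g⁻¹ →
      x u = (i g)⁻¹ * (d₀ * d) * x' (E.p (σ₀ u)) * ((i g)⁻¹ * (d₀ * d))⁻¹ := fun u hu => by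
    have k := key u
    rw [hu, map_mul, map_mul, map_inv, i3] at k
    rw [mul_inv_rev (i g)⁻¹, inv_inv, ← mul_assoc, mul_assoc (i g)⁻¹, mul_assoc (i g)⁻¹, ← k]
    simp [mul_assoc]
  refine ⟨hR hs, hR ht, (hσ _).1, (hσ _).1, hst, ⟨fun e => ?_, l ▸ hst.2⟩, _,
    RIG_pair (cv _ g1) (cv _ g2), ⟨1, one_mem _, by simpa using cv _ g1⟩, 1, one_mem _,
    by simpa using cv _ g2⟩
  rw [e, M'.diagonal] at l
  exact M.off_diagonal s t hst.1 l.symm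

end Pool.Agent.Lib.MP_1b8ce0_al.T
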