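import Mathlib
import Pool.Agent.Lib.MP_1b8ce0_al.T.StsB

/-!
A generator with a large label is not sent to a rotation.
-/

namespace Pool.Agent.Lib.MP_1b8ce0_al.T

open Pool.Agent.Lib.MP_6d85b4_al

section

variable {G S S' : Type} [Group G] {M : CoxeterMatrix S} {x : S → G}

theorem ROT_leaf {a b : S} {k : ℕ} (h : M a b = 2 * k) (hl : ∀ t, t ≠ a → t ≠ b → M a t = 0)
    {t : S} (ht : OddConn M a t) : t = a := by
  induction ht with
  | refl => rfl
  | @tail u v _ h2 ih =>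
    subst ih
    by_cases e : v = b
    · subst e
      exact absurd (h ▸ h2.2) (Nat.not_odd_iff_even.2 (even_two_mul k))
    · exact absurd (hl v h2.1.symm e ▸ h2.2) (by decide)

theorem ROT_bd {a b : S} {k : ℕ} (h : M a b = 2 * k) (hl : ∀ t, t ≠ a → t ≠ b → M a t = 0) :
    Bd M a ⊆ {b} := by
  rintro t ⟨h1, u, h2, h3⟩
  obtain rfl := ROT_leaf h hl h2
  by_contra e
  exact h3 (hl t (fun e' => h1 (e' ▸ Relation.ReflTransGen.refl)) e)

theorem ROT_ne {a b : S} {k : ℕ} (h : M a b = 2 * k) : a ≠ b := by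
  rintro rfl
  rw [M.diagonal] at h
  omega

theorem ROT_conj {H : Type} [CommGroup H] (χ : G →* H) {g h : G} (e : IsConj g h) : χ g = χ h :=
  isConj_iff_eq.1 (χ.map_isConj e)

theorem ROT_comm {H : Type} [Group H] (ψ : G →* H) {T : Set S}
    (h : ∀ s ∈ T, ∀ t ∈ T, Commute (ψ (x s)) (ψ (x t))) {g g' : G} (hg : g ∈ gp x T)
    (hg' : g' ∈ gp x T) : Commute (ψ g) (ψ g') := by
  have key : ∀ y : H, (∀ s ∈ T, Commute y (ψ (x s))) → ∀ g ∈ gp x T, Commute y (ψ g) :=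
    fun y hy g hg => by
      have : gp x T ≤ (Subgroup.centralizer {y}).comap ψ := gp_le.2 fun s hs =>
        Subgroup.mem_centralizer_singleton_iff.2 (hy s hs).symm
      exact (Subgroup.mem_centralizer_singleton_iff.1 (this hg) : Commute (ψ g) y).symm
  exact key _ (fun s hs => (key _ (h s hs) g hg).symm) g' hg'

theorem ROT_ncomm (hA : St_CA) (A : ASide M x) {a b : S} (h : 3 ≤ M a b) :
    ¬ Commute (A.ψ (x a)) (A.ψ (x b)) := by
  have hab : a ≠ b := by
    rintro rfl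
    rw [M.diagonal] at h
    omega
  rw [A.hom.1 a ⟨b, h⟩, A.hom.1 b ⟨a, M.symmetric a b ▸ h⟩]
  intro hc
  have h1 := (hA _ _ A.ns).c0.ord (A.a a) (A.a b)
  rw [A.lab _ _ (by rwa [A.pa, A.pa]), A.pa, A.pa] at h1
  have h2 : orderOf (sr A.N (A.a a) * sr A.N (A.a b)) ∣ 2 := orderOf_dvd_of_pow_eq_one (by
    rw [hc.mul_pow, CoxeterSystem.simple_sq, CoxeterSystem.simple_sq, one_mul])
  have := Nat.le_of_dvd two_pos h2
  omega

end

theorem ROT_thm (hA : St_CA) (h1 : St_D1) (h4 : St_CLS) (h5 : St_NOCOL) (h6 : St_ROT1) :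
    St_ROT := by
  intro G S S' _ _ _ _ _ M x M' x' A A' s _ hrot
  obtain ⟨a', b', k, e1, e2, e3, lf, c1, c2, alt, cmm⟩ := h6 G S S' M x M' x' A A' s hrot
  have D := h1.2 S G M ∅ x A.art
  have D' := h1.2 S' G M' ∅ x' A'.art
  have nc := ROT_ncomm hA A' (a := a') (b := b') (by omega)
  have rf : ∀ {T : Type} {L : CoxeterMatrix T} (t : T), OddConn L t t :=
    fun _ => Relation.ReflTransGen.refl
  obtain ⟨χ, p1, p2⟩ := D.chc s
  obtain ⟨χ', q1, q2⟩ := D'.chc a'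
  have r1 : χ (x' a') = -1 := c2 χ (p1 s (rf s)) p2
  have r2 : χ' (x s) = -1 := by
    rw [c1, q1 a' (rf a'), q2 b' fun h => ROT_ne e1 (ROT_leaf e1 lf h).symm, mul_one]
  have r3 : ∀ t, χ (x t) = -1 → OddConn M s t := fun t ht => by
    by_contra h
    exact absurd (ht.symm.trans (p2 t h)) (by decide)
  obtain ⟨k1, -, -, k4, -⟩ := h4 G S' S M' x' M x A' A a'
  by_cases hf : IsOfFinOrder (A.ψ (x' a'))
  swap
  · rcases k4 hf with h | ⟨u, t, u1, u2, u3⟩
    · exact h5 G S' S M' x' M x A' A a' ⟨b', by omega⟩ hf h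
    · obtain rfl := ROT_leaf e1 lf u1
      have : t ≠ u ∧ M' u t ≠ 0 := by
        rcases u3 with h | h
        · exact ⟨h.1.1.symm, h.1.2⟩
        · exact ⟨h.1.1, M'.symmetric u t ▸ h.1.2⟩
      obtain rfl : t = b' := by
        by_contra e
        exact this.2 (lf t this.1 e)
      rw [e1, Nat.mul_div_cancel_left _ two_pos] at u2
      exact Nat.not_even_iff_odd.2 e2 u2
  rcases (hA _ _ A.ns).t1.tors _ hf with h | h | h
  · exact k1 h
  · obtain ⟨u, -, d, hd⟩ := A.refl _ h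
    have t1 : ∀ ξ : G →* ℤˣ, ξ (x' a') = ξ (x u) := fun ξ => by
      obtain ⟨ξ', h, -⟩ := A.chr ξ
      rw [← h, hd, h]
      exact (ROT_conj ξ (isConj_iff.2 ⟨d, rfl⟩)).symm
    obtain ⟨ξ, h, -⟩ := D'.chc b'
    have t2 := c1 ξ
    rw [ROT_conj ξ ((D.conj s u).2 (r3 u (t1 χ ▸ r1))), ← t1, h b' (rf b'), left_eq_mul] at t2
    exact absurd t2 (by decide)
  obtain ⟨p, q, k', f1, f2, -, lf', d1, d2, -⟩ := h6 G S' S M' x' M x A' A a' h
  have s1 : χ' (x p) = -1 := d2 χ' (q1 a' (rf a')) q2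
  have s2 : χ' (x q) = 1 := by
    have := d1 χ'
    rwa [q1 a' (rf a'), s1, left_eq_mul] at this
  have s3 : ¬ OddConn M s q := fun h =>
    absurd (r2.symm.trans ((ROT_conj χ' ((D.conj s q).2 h)).trans s2)) (by decide)
  have s4 : OddConn M s p := r3 p (by rw [← r1, d1 χ, p2 q s3, mul_one])
  obtain rfl : s = p := ROT_leaf f1 lf' ((D.conj p s).1 ((D.conj s p).2 s4).symm)
  have s5 := cmm q k' s3 f1 f2
  rcases alt with ⟨h, hh⟩ | ⟨h, ha, hb⟩
  · have t1 := gp_mono x (ROT_bd f1 lf') (mem_cj.1 hh)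
    rw [gp, Set.image_singleton, Subgroup.mem_closure_singleton] at t1
    obtain ⟨n, hn⟩ := t1
    obtain ⟨ξ, t2, -⟩ := D.chi q fun _ _ h => h
    have t3 := congrArg ξ hn
    simp only [cm, map_zpow, map_mul, map_inv, t2 q (rf q)] at t3
    have t4 : n = 0 := by
      have := congrArg Multiplicative.toAdd t3
      simp only [toAdd_zpow, toAdd_ofAdd, toAdd_mul, toAdd_inv, smul_eq_mul, mul_one] at this
      omega
    rw [t4, zpow_zero, eq_comm, mul_assoc, inv_mul_eq_one, eq_comm, mul_eq_right, cm,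
      mul_inv_eq_one, mul_inv_eq_iff_eq_mul] at hn
    exact nc ((show Commute (x' a') (x' b') from hn).map A'.ψ)
  · have t1 : ∀ t ∈ Cls M s ∪ Bd M s, t = s ∨ t = q := fun t ht =>
      ht.imp (ROT_leaf f1 lf') fun h => ROT_bd f1 lf' h
    have t2 := ROT_comm A'.ψ (x := x) (T := Cls M s ∪ Bd M s) (fun u hu v hv => by
      rcases t1 u hu with rfl | rfl <;> rcases t1 v hv with rfl | rfl
      exacts [Commute.refl _, s5, s5.symm, Commute.refl _]) (mem_cj.1 ha) (mem_cj.1 hb)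
    have t3 := t2.map (MulAut.conj (A'.ψ h))
    exact nc (by simpa [mul_assoc] using t3)

end Pool.Agent.Lib.MP_1b8ce0_al.T
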