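import Mathlib
import Pool.Agent.Lib.MP_1b8ce0_al.T.StsB

set_option linter.unusedSectionVars false
set_option linter.dupNamespace false

namespace Pool.Agent.Lib.MP_1b8ce0_al.T

open Pool.Agent.Lib.MP_6d85b4_al

section Aux

variable {G S S' : Type} [Group G] {M : CoxeterMatrix S} {x : S → G}
  {M' : CoxeterMatrix S'} {x' : S' → G}

theorem ROT1_lab {R : Set S} (E : Dbl M R) (s t : S) : E.N (E.a s) (E.a t) = M s t := by
  by_cases h : s = t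
  · subst h
    rw [E.N.diagonal, M.diagonal]
  · rw [E.lab _ _ (by rwa [E.pa, E.pa]), E.pa, E.pa]

theorem ROT1_ainj {R : Set S} (E : Dbl M R) {s t : S} (h : E.a s = E.a t) : s = t := by
  rw [← E.pa s, h, E.pa]

theorem ROT1_cjc {H : Type} [CommGroup H] (φ : G →* H) (c g : G) : φ (c * g * c⁻¹) = φ g := by
  rw [map_mul, map_mul, map_inv, mul_inv_cancel_comm]

theorem ROT1_kill {H : Type} [CommGroup H] (φ : G →* H) {s : S}
    (hφ : ∀ t, ¬ OddConn M s t → φ (x t) = 1) {h g : G} (hg : g ∈ cj h (gp x (Cls M s)ᶜ)) :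
    φ g = 1 := by
  have h1 : gp x (Cls M s)ᶜ ≤ φ.ker := gp_le.2 fun t ht => hφ t ht
  have h2 : φ (h⁻¹ * g * h) = 1 := h1 hg
  rwa [map_mul, map_mul, map_inv, inv_mul_cancel_comm] at h2

theorem ROT1_tf {g : Multiplicative ℤ} {n : ℕ} (hn : n ≠ 0) (h : g ^ n = 1) : g = 1 := by
  have h1 : (n : ℤ) * g.toAdd = 0 := by simpa using congrArg Multiplicative.toAdd h
  have h2 : g.toAdd = 0 := (mul_eq_zero.1 h1).resolve_left (by exact_mod_cast hn)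
  exact Multiplicative.toAdd.injective h2

theorem ROT1_map {H : Type} [Group H] (ψ : G →* H) {T : Set S} {K : Subgroup H} {c : H}
    (hT : ∀ t ∈ T, ψ (x t) ∈ cj c K) {h g : G} (hg : g ∈ cj h (gp x T)) :
    ψ g ∈ cj (ψ h * c) K := by
  have h1 : gp x T ≤ (cj c K).comap ψ := gp_le.2 hT
  have h2 : ψ (h⁻¹ * g * h) ∈ cj c K := h1 hg
  rw [← cj_cj, mem_cj]
  rwa [map_mul, map_mul, map_inv] at h2

theorem ROT1_chr (A' : ASide M' x') {a' b' : S'} {g : G} {c : A'.N.Group} {l : ℕ}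
    (h : A'.ψ g = c * (sr A'.N (A'.a a') * sr A'.N (A'.a b')) ^ l * c⁻¹) (χ : G →* ℤˣ) :
    χ g = (χ (x' a') * χ (x' b')) ^ l := by
  obtain ⟨χ', e1, e2⟩ := A'.chr χ
  rw [← e1, h, ROT1_cjc, map_pow, map_mul, e2, e2]

theorem ROT1_ne (A' : ASide M' x') (C : CA A'.N) {a' t' : S'} {n : ℕ} (h0 : 0 < n)
    (hn : n < M' a' t') : (sr A'.N (A'.a a') * sr A'.N (A'.a t')) ^ n ≠ 1 :=
  pow_ne_one_of_lt_orderOf h0.ne' (by rwa [C.c0.ord, ROT1_lab A'.toDbl])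

theorem ROT1_rt (A' : ASide M' x') (C : CA A'.N) {a' b' t' : S'} (h0 : M' a' b' ≠ 0) {n : ℕ}
    (h1 : 0 < n) (h2 : n < M' a' t') {e d : A'.N.Group}
    (h : e * (sr A'.N (A'.a a') * sr A'.N (A'.a t')) ^ n * e⁻¹ ∈
      cj d (par A'.N {A'.a a', A'.a b'})) :
    t' = b' ∧ d⁻¹ * e ∈ par A'.N {A'.a a', A'.a b'} := by
  have hne : a' ≠ t' := by
    rintro rfl
    rw [M'.diagonal] at h2
    omega
  have hs : Simplex A'.N {A'.a a', A'.a b'} := by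
    refine ⟨?_, ?_⟩
    · rintro _ (rfl | rfl) _ (rfl | rfl) <;> rw [ROT1_lab A'.toDbl]
      · rw [M'.diagonal]
        omega
      · exact h0
      · rwa [M'.symmetric]
      · rw [M'.diagonal]
        omega
    · rintro _ (rfl | rfl) _ (rfl | rfl) _ (rfl | rfl) <;> simp
  obtain ⟨e1, e2⟩ := C.t1.rot_type e d _ _ n _ (fun e => hne (ROT1_ainj A'.toDbl e))
    (by rw [ROT1_lab A'.toDbl]; omega) (ROT1_ne A' C h1 h2) hs h
  refine ⟨?_, e1 ▸ e2⟩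
  have : A'.a t' ∈ ({A'.a a', A'.a b'} : Set A'.B) := e1 ▸ .inr rfl
  rcases this with e | e
  · exact (hne (ROT1_ainj A'.toDbl e).symm).elim
  · exact ROT1_ainj A'.toDbl e

theorem ROT1_cm (A' : ASide M' x') {a' t' : S'} (ha : a' ∈ Big M') (ht : t' ∈ Big M') :
    A'.ψ (cm (x' a') (x' t')) = (sr A'.N (A'.a a') * sr A'.N (A'.a t')) ^ 2 := by
  rw [cm, map_mul, map_mul, map_mul, map_inv, map_inv, A'.hom.1 _ ha, A'.hom.1 _ ht,
    CoxeterSystem.inv_simple, CoxeterSystem.inv_simple, pow_two, mul_assoc]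

/-- the data of a rotation image -/
structure ROT1_Dat (M : CoxeterMatrix S) (x : S → G) (A' : ASide M' x') (s : S) (a' b' : S')
    (c : A'.N.Group) (χ0 : G →* ℤˣ) : Prop where
  C : CA A'.N
  D : D1 M ∅ x
  D' : D1 M' ∅ x'
  T : TT1 (gp x (Cls M s)ᶜ) (gp x (Cls M s ∪ Bd M s)) (gp x (Bd M s))
  mem : ∀ t ∈ Cls M s ∪ Bd M s, A'.ψ (x t) ∈ cj c (par A'.N {A'.a a', A'.a b'})
  ha : a' ∈ Big M'
  h0 : M' a' b' ≠ 0
  c1 : ∀ t, OddConn M s t → χ0 (x t) = -1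
  c2 : ∀ t, ¬ OddConn M s t → χ0 (x t) = 1
  ca : χ0 (x' a') = -1
  cb : χ0 (x' b') = 1

variable {A' : ASide M' x'} {s : S} {a' b' : S'} {c : A'.N.Group} {χ0 : G →* ℤˣ}

theorem ROT1_n1 (H : ROT1_Dat M x A' s a' b' c χ0) (h : G) : x' a' ∉ cj h (gp x (Cls M s)ᶜ) :=
  fun hy => absurd (H.ca.symm.trans (ROT1_kill χ0 H.c2 hy)) (by decide)

theorem ROT1_nC (H : ROT1_Dat M x A' s a' b' c χ0) (h : G) : x' a' ∉ cj h (gp x (Bd M s)) :=
  fun hy => ROT1_n1 H h (cj_mono h H.T.le.1 hy)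

theorem ROT1_zC (H : ROT1_Dat M x A' s a' b' c χ0) {t' : S'} (h3 : 3 ≤ M' a' t') (h : G) :
    zc M' x' a' t' ∉ cj h (gp x (Bd M s)) := by
  intro hz
  have ht : t' ∈ Big M' := ⟨a', M'.symmetric _ _ ▸ h3⟩
  obtain ⟨χ, k1, k2⟩ := H.D.chi s fun _ _ h => h
  have hπ : ∀ g, χ g = 1 → χ0 g = 1 := by
    have e : χ0 = (zpowersHom ℤˣ (-1)).comp χ := H.D.ext _ _ _ fun t => by
      by_cases c : OddConn M s t
      · rw [H.c1 t c, MonoidHom.comp_apply, k1 t c]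
        simp
      · rw [H.c2 t c, MonoidHom.comp_apply, k2 t c, map_one]
    intro g hg
    rw [e, MonoidHom.comp_apply, hg, map_one]
  have h1 := ROT1_kill χ k2 (cj_mono h H.T.le.1 hz)
  rw [zc, map_pow] at h1
  have h2 := ROT1_tf (by split_ifs <;> omega) h1
  by_cases he : Even (M' a' t')
  · have h4 := ROT1_map A'.ψ H.mem (cj_mono h H.T.le.2 hz)
    rw [zc, if_pos he, map_pow, map_mul, A'.hom.1 _ H.ha, A'.hom.1 _ ht] at h4
    obtain ⟨rfl, -⟩ := ROT1_rt A' H.C H.h0 (t' := t') (n := M' a' t' / 2) (by omega) (by omega)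
      (e := 1) (by rwa [one_mul, inv_one, mul_one])
    have h5 := hπ _ h2
    rw [map_mul, H.ca, H.cb] at h5
    exact absurd h5 (by decide)
  · have hne : a' ≠ t' := by
      rintro rfl
      rw [M'.diagonal] at h3
      omega
    obtain ⟨u, hu⟩ := isConj_iff.1
      ((H.D'.conj a' t').2 (.single ⟨hne, Nat.not_even_iff_odd.1 he⟩))
    rw [map_mul, ← hu, ROT1_cjc, ← pow_two] at h2
    exact absurd (H.ca.symm.trans (hπ _ (ROT1_tf two_ne_zero h2))) (by decide)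

theorem ROT1_edge (H : ROT1_Dat M x A' s a' b' c χ0) {t' : S'} (h3 : 3 ≤ M' a' t') :
    t' = b' ∧ ∃ h, A'.ψ h * c ∈ par A'.N {A'.a a', A'.a b'} ∧
      ((cm (x' a') (x' t') ∈ cj h (gp x (Bd M s)) ∧ ∀ u, Commute u (x' a') →
        u * cm (x' a') (x' t') * u⁻¹ ∈ cj h (gp x (Bd M s))) ∨
      (x' a' ∈ cj h (gp x (Cls M s ∪ Bd M s)) ∧ x' t' ∈ cj h (gp x (Cls M s ∪ Bd M s)))) := by
  have ht : t' ∈ Big M' := ⟨a', M'.symmetric _ _ ▸ h3⟩
  have hne : a' ≠ t' := by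
    rintro rfl
    rw [M'.diagonal] at h3
    omega
  obtain ⟨z1, z2⟩ := H.D'.zc a' t' ⟨hne, by omega⟩
  by_cases he : Ell (gp x (Cls M s)ᶜ) (gp x (Cls M s ∪ Bd M s)) (zc M' x' a' t')
  · obtain ⟨h, he | he⟩ := he
    · exact (ROT1_n1 H h (H.T.cent1 _ h _ (ROT1_zC H h3) he z1)).elim
    · have m1 := H.T.cent2 _ h _ (ROT1_zC H h3) he z1
      have m2 := H.T.cent2 _ h _ (ROT1_zC H h3) he z2
      have h4 := ROT1_map A'.ψ H.mem (mul_mem m1 m2)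
      rw [map_mul, A'.hom.1 _ H.ha, A'.hom.1 _ ht] at h4
      obtain ⟨e1, e2⟩ := ROT1_rt A' H.C H.h0 (t' := t') (n := 1) one_pos (by omega) (e := 1)
        (by rwa [one_mul, inv_one, mul_one, pow_one])
      exact ⟨e1, h, by simpa only [mul_one, inv_mem_iff] using e2, .inr ⟨m1, m2⟩⟩
  · obtain ⟨h, Tr, t1, t2, t3, -⟩ := H.T.hyp _ he
    have m1 := t3 _ (t1 _ z1) _ (t1 _ z2)
    have h4 := ROT1_map A'.ψ H.mem (cj_mono h H.T.le.2 m1)
    rw [ROT1_cm A' H.ha ht] at h4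
    obtain ⟨e1, e2⟩ := ROT1_rt A' H.C H.h0 (t' := t') (n := 2) two_pos (by omega) (e := 1)
      (by rwa [one_mul, inv_one, mul_one])
    refine ⟨e1, h, by simpa only [mul_one, inv_mem_iff] using e2, .inl ⟨m1, fun u hu => ?_⟩⟩
    have hu' := t2 _ (t1 _ z1) (ROT1_nC H) u hu
    have m2 := t3 _ (t1 _ z1) _ (mul_mem (mul_mem hu' (t1 _ z2)) (inv_mem hu'))
    have e : cm (x' a') (u * x' t' * u⁻¹) = u * cm (x' a') (x' t') * u⁻¹ := by
      have e1 : x' a' = u * x' a' * u⁻¹ := by rw [hu.eq, mul_inv_cancel_right]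
      conv_lhs => rw [e1]
      simp only [cm]
      group
    exact e ▸ m2

theorem ROT1_leaf (H : ROT1_Dat M x A' s a' b' c χ0) {u : S'} (h1 : u ≠ a') (h2 : u ≠ b') :
    M' a' u = 0 := by
  obtain ⟨t', h3⟩ := H.ha
  obtain ⟨rfl, h, hc, hh⟩ := ROT1_edge H h3
  have ht : t' ∈ Big M' := ⟨a', M'.symmetric _ _ ▸ h3⟩
  by_contra h0
  have h4 : ¬ 3 ≤ M' a' u := fun h => h2 (ROT1_edge H h).1
  have h5 := M'.off_diagonal a' u h1.symm
  have hu := (H.D'.two a' u (by omega)).symm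
  have h6 : A'.ψ (x' u) ∈ par A'.N {A'.a a', A'.a t'} := by
    rcases hh with ⟨-, hh⟩ | ⟨hh, -⟩
    · have h7 := ROT1_map A'.ψ H.mem (cj_mono h H.T.le.2 (hh _ hu))
      rw [map_mul, map_mul, map_inv, ROT1_cm A' H.ha ht] at h7
      exact ((par A'.N _).mul_mem_cancel_left (inv_mem hc)).1
        (ROT1_rt A' H.C H.h0 two_pos (by omega) h7).2
    · exact cj_self hc ▸ ROT1_map A'.ψ H.mem (H.T.cent2 _ h _ (ROT1_nC H) hh hu)
  rcases A'.elm u _ h6 with e | e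
  · exact h1 (ROT1_ainj A'.toDbl e)
  · exact h2 (ROT1_ainj A'.toDbl e)

theorem ROT1_bd (H : ROT1_Dat M x A' s a' b' c χ0)
    (h1 : ∀ t, OddConn M s t → A'.ψ (x t) = A'.ψ (x s)) : (Bd M s).Nonempty := by
  obtain ⟨t', h3⟩ := H.ha
  obtain ⟨rfl, h, -, hh⟩ := ROT1_edge H h3
  have ht : t' ∈ Big M' := ⟨a', M'.symmetric _ _ ▸ h3⟩
  rw [Set.nonempty_iff_ne_empty]
  intro he
  apply ROT1_ne A' H.C two_pos (show 2 < M' a' t' by omega)
  rw [← ROT1_cm A' H.ha ht]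
  rcases hh with ⟨hh, -⟩ | ⟨m1, m2⟩
  · have e : h⁻¹ * cm (x' a') (x' t') * h = 1 := by simpa [he, gp, mem_cj] using hh
    rw [show cm (x' a') (x' t') = 1 by simpa [mul_assoc] using congrArg (h * · * h⁻¹) e, map_one]
  · have hT : ∀ t ∈ Cls M s ∪ Bd M s, A'.ψ (x t) ∈ cj 1 (Subgroup.zpowers (A'.ψ (x s))) := by
      rw [he, Set.union_empty, cj_one]
      exact fun t ht => h1 t ht ▸ Subgroup.mem_zpowers _
    obtain ⟨i, hi⟩ := Subgroup.mem_zpowers_iff.1 (mem_cj.1 (ROT1_map A'.ψ hT m1))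
    obtain ⟨j, hj⟩ := Subgroup.mem_zpowers_iff.1 (mem_cj.1 (ROT1_map A'.ψ hT m2))
    have h4 := (Commute.zpow_zpow_self (A'.ψ (x s)) i j).conj (A'.ψ h * 1)
    rw [hi, hj] at h4
    simp only [mul_assoc, mul_inv_cancel, mul_one, mul_inv_cancel_left] at h4
    rw [cm, map_mul, map_mul, map_mul, map_inv, map_inv, h4.eq, mul_inv_cancel_right,
      mul_inv_cancel]

theorem ROT1_four (H : ROT1_Dat M x A' s a' b' c χ0) (nf : NF A'.ν) {l k : ℕ} (hl : Odd l)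
    (hk : M' a' b' = 2 * k)
    (hs : A'.ψ (x s) = c * (sr A'.N (A'.a a') * sr A'.N (A'.a b')) ^ l * c⁻¹) {u t : S} {m : ℕ}
    (hu : OddConn M s u) (e : A'.ψ (x u) = A'.ψ (x s)) (ht : ¬ OddConn M s t) (h0 : 0 < m)
    (hm : M u t = 2 * m) : Odd k ∧ (Odd m → Commute (A'.ψ (x s)) (A'.ψ (x t))) := by
  have hne : A'.a a' ≠ A'.a b' := fun e => by
    rw [← ROT1_ainj A'.toDbl e, M'.diagonal] at hk
    omega
  have h1 := H.mem t (.inr ⟨ht, u, hu, by omega⟩)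
  have h2 := H.h0
  have hsg : sg A'.N (A'.ψ (x t)) = -1 := by
    have e1 : A'.ψ (x t) = c * (c⁻¹ * A'.ψ (x t) * c) * c⁻¹ := by group
    rcases H.C.c0.elts _ _ _ hne (by rwa [ROT1_lab A'.toDbl]) (mem_cj.1 h1) with
      ⟨n, hn⟩ | ⟨v, -, hv | hv⟩
    · obtain ⟨χ, k1, k2⟩ := H.D.chc t
      have h3 := ROT1_chr A' hs χ
      have h4 := ROT1_chr A' (hn ▸ e1) χ
      rw [k2 s fun h => ht ((H.D.conj s t).1 ((H.D.conj t s).2 h).symm),
        Int.units_pow_eq_pow_mod_two, Nat.odd_iff.1 hl, pow_one] at h3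
      rw [k1 t .refl, ← h3, one_pow] at h4
      exact absurd h4 (by decide)
    · rw [e1, hv, ROT1_cjc, ROT1_cjc, sg_sr]
    · rw [e1, hv, ROT1_cjc, ROT1_cjc, sg_sr]
  rw [← e]
  exact nf.rot4 (x u) (x t) c _ _ m l k h0 (H.D.even u t m (fun e => ht (e ▸ hu)) h0 hm) hne
    (by omega) (by rwa [ROT1_lab A'.toDbl]) hl (e.trans hs) h1 hsg

end Aux

theorem ROT1_thm (hA : St_CA) (h1 : St_D1) (h2 : St_TT) (h3 : St_NF) (h4 : St_CLS) : St_ROT1 := by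
  intro G S S' _ _ _ _ _ M x M' x' A A' s hrot
  have C := hA _ A'.N A'.ns
  have D := h1.2 S G M ∅ x A.art
  have D' := h1.2 S' G M' ∅ x' A'.art
  obtain ⟨-, -, k3, -, k5, -⟩ := h4 G S S' M x M' x' A A' s
  have k3' := k3 fun hr => absurd ((C.t1.rot_sg _ hrot).1.symm.trans (C.a0.refl_sq _ hr).2.2)
    (by decide)
  obtain ⟨χ0, c1, c2⟩ := D.chc s
  have T : TT1 (gp x (Cls M s)ᶜ) (gp x (Cls M s ∪ Bd M s)) (gp x (Bd M s)) := by
    have e : (Cls M s)ᶜ ∩ (Cls M s ∪ Bd M s) = Bd M s :=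
      Set.ext fun t => ⟨fun h => h.2.resolve_left h.1, fun h => ⟨h.1, .inr h⟩⟩
    have := (h2 S G M ∅ x (Cls M s)ᶜ (Cls M s ∪ Bd M s) A.art
      (by rw [← Set.union_assoc, Set.compl_union_self, Set.univ_union]) fun u t hu ht => by
        by_contra h
        exact hu (.inr ⟨fun h' => hu (.inl h'), t, not_not.1 ht, by rwa [M.symmetric]⟩)).1
    rwa [e] at this
  obtain ⟨a', b', c, l, ha, hne, h0, hs, ca, cb, hl⟩ : ∃ a' b' c l, a' ∈ Big M' ∧ a' ≠ b' ∧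
      M' a' b' ≠ 0 ∧ A'.ψ (x s) = c * (sr A'.N (A'.a a') * sr A'.N (A'.a b')) ^ l * c⁻¹ ∧
      χ0 (x' a') = -1 ∧ χ0 (x' b') = 1 ∧ Odd l := by
    obtain ⟨c, i, j, l, hij, h0, hs, hn⟩ := hrot
    obtain ⟨a', ha, b', hb, rfl, rfl⟩ := A'.rot _ c i j l hij h0 hs hn
    rw [ROT1_lab A'.toDbl] at h0
    have hne : a' ≠ b' := fun e => hij (e ▸ rfl)
    have e := ROT1_chr A' hs χ0
    rw [c1 s .refl] at e
    have hl : Odd l := by
      by_contra h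
      rw [Int.units_pow_eq_pow_mod_two, Nat.even_iff.1 (Nat.not_odd_iff_even.1 h), pow_zero] at e
      exact absurd e (by decide)
    rw [Int.units_pow_eq_pow_mod_two, Nat.odd_iff.1 hl, pow_one] at e
    rcases Int.units_eq_one_or (χ0 (x' a')) with e1 | e1
    · refine ⟨b', a', c * sr A'.N (A'.a a'), l, hb, hne.symm, by rwa [M'.symmetric], ?_,
        by rw [e, e1, one_mul], e1, hl⟩
      rw [hs, ← conj_pow, ← conj_pow, mul_inv_rev, CoxeterSystem.inv_simple]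
      simp only [mul_assoc, CoxeterSystem.simple_mul_simple_cancel_left]
    · refine ⟨a', b', c, l, ha, hne, h0, hs, e1, ?_, hl⟩
      rw [e1] at e
      simpa using e.symm
  have H : ROT1_Dat M x A' s a' b' c χ0 := ⟨C, D, D', T, k5 c _ _ l
    (fun e => hne (ROT1_ainj A'.toDbl e)) (by rwa [ROT1_lab A'.toDbl]) hs, ha, h0, c1, c2, ca, cb⟩
  obtain ⟨k, hk⟩ : Even (M' a' b') := by
    by_contra h
    obtain ⟨u, hu⟩ := isConj_iff.1 ((D'.conj a' b').2 (.single ⟨hne, Nat.not_even_iff_odd.1 h⟩))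
    rw [← hu, ROT1_cjc, ca] at cb
    exact absurd cb (by decide)
  rw [← two_mul] at hk
  obtain ⟨t', ht'⟩ := ha
  obtain ⟨rfl, h, -, hh⟩ := ROT1_edge H ht'
  have hodd : Odd k := by
    obtain ⟨t, ht, u, hu, hut⟩ := ROT1_bd H k3'
    obtain ⟨m, hm⟩ : Even (M u t) := by
      by_contra h
      exact ht (hu.tail ⟨fun e => ht (e ▸ hu), Nat.not_even_iff_odd.1 h⟩)
    exact (ROT1_four H (h3 _ _ G _ A'.ν A'.ns) hl hk hs hu (k3' u hu) ht (m := m) (by omega)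
      (by omega)).1
  refine ⟨a', t', k, hk, hodd, by obtain ⟨n, rfl⟩ := hodd; omega, fun u => ROT1_leaf H,
    fun χ => ?_, fun χ e1 e2 => ?_, hh.imp (fun e => ⟨h, e.1⟩) fun e => ⟨h, e⟩,
    fun t m ht hm ho => (ROT1_four H (h3 _ _ G _ A'.ν A'.ns) hl hk hs .refl rfl ht ho.pos hm).2 ho⟩
  · rw [ROT1_chr A' hs χ, Int.units_pow_eq_pow_mod_two, Nat.odd_iff.1 hl, pow_one]
  · have e : χ = χ0 := D.ext _ _ _ fun t => by
      by_cases c : OddConn M s t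
      · obtain ⟨u, hu⟩ := isConj_iff.1 ((D.conj s t).2 c)
        rw [c1 t c, ← hu, ROT1_cjc, e1]
      · rw [c2 t c, e2 t c]
    rw [e, ca]

end Pool.Agent.Lib.MP_1b8ce0_al.T
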