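import Mathlib
import Pool.Agent.Lib.MP_1b8ce0_al.T.PAN

set_option linter.unusedSectionVars false
set_option linter.dupNamespace false

namespace Pool.Agent.Lib.MP_1b8ce0_al.T

open Pool.Agent.Lib.MP_6d85b4_al Filter

variable {B : Type} [Fintype B] [DecidableEq B] {N : CoxeterMatrix B}

/-- periodic roots -/
def SA_P (N : CoxeterMatrix B) (w : N.Group) (d : B → ℝ) : Prop := IsRoot N d ∧ Per N w d

/-- points on two walls -/
def SA_T (N : CoxeterMatrix B) (d b : B → ℝ) (y : Pt B) : Prop := InI N y ∧ y d = 0 ∧ y b = 0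

/-- the chamber at a right angle -/
def SA_G (N : CoxeterMatrix B) (d b : B → ℝ) (c : N.Group) (l p : B) : Prop :=
  N l p = 2 ∧ rho N c (al l) = d ∧ rho N c (al p) = b

/-- the types of the periodic walls -/
def SA_L (N : CoxeterMatrix B) (w : N.Group) (β : ℤ → B → ℝ) : Set B :=
  {l | ∃ d i c p, SA_P N w d ∧ SA_G N d (β i) c l p}

/-- the types of the essential walls -/
def SA_E (N : CoxeterMatrix B) (w : N.Group) (β : ℤ → B → ℝ) : Set B :=
  {p | ∃ d i c l, SA_P N w d ∧ SA_G N d (β i) c l p}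

/-- the chambers of two periodic walls along the same essential wall -/
def SA_R (N : CoxeterMatrix B) (w : N.Group) (β : ℤ → B → ℝ) (i : ℤ) (d d' : B → ℝ) : Prop :=
  ∀ c l p c' l' p', SA_G N d (β i) c l p → SA_G N d' (β i) c' l' p' →
    p = p' ∧ c⁻¹ * c' ∈ par N (SA_L N w β)

/-- the standing hypotheses -/
structure SA_S (N : CoxeterMatrix B) (w : N.Group) (β : ℤ → B → ℝ) (lam : N.Group → ℤ) :
    Prop where
  hA : CA N
  ex : ∀ (y1 y2 : Pt B) (d e1 e2 : B → ℝ), InI N y1 → InI N y2 → IsRoot N d → IsRoot N e1 →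
    IsRoot N e2 → y1 d = 0 → y2 d = 0 → y1 e1 = 0 → y2 e2 = 0 → 0 < y2 e1 → 0 < y1 e2 →
    (∀ a, IsRoot N a → y1 a = 0 → a = d ∨ a = -d ∨ a = e1 ∨ a = -e1) →
    (∀ a, IsRoot N a → y2 a = 0 → a = d ∨ a = -d ∨ a = e2 ∨ a = -e2) →
    Sep N y1 y2 = ∅ → Sep N y2 y1 = ∅ →
    ∃ c l p1 p2, rho N c (al l) = d ∧ rho N c (al p1) = e1 ∧ rho N c (al p2) = e2 ∧
      N l p1 = 2 ∧ N l p2 = 2
  un : ∀ c c' l p l' p', N l p = 2 → rho N c (al l) = rho N c' (al l') →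
    rho N c (al p) = rho N c' (al p') → c = c' ∧ l = l' ∧ p = p'
  inf : ¬ IsOfFinOrder w
  ch : Chain N w β lam

theorem SA_per_neg {w : N.Group} {d : B → ℝ} (h : Per N w d) : Per N w (-d) := by
  obtain ⟨k, hk, h⟩ := h
  exact ⟨k, hk, by rw [map_neg, h]⟩

theorem SA_pow_fix {g : N.Group} {d : B → ℝ} (h : rho N g d = d) (n : ℕ) :
    rho N (g ^ n) d = d := by
  induction n with
  | zero => rw [pow_zero, rho_one]
  | succ n ih => rw [pow_succ, rho_mul, h, ih]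

namespace SA_S

variable {w : N.Group} {β : ℤ → B → ℝ} {lam : N.Group → ℤ} (H : SA_S N w β lam)
  {d d' e : B → ℝ} {i j : ℤ} {y y' : Pt B} {c c' : N.Group} {l p l' p' : B}

include H

theorem neg (h : SA_P N w d) : SA_P N w (-d) := ⟨H.hA.a0.root_neg d h.1, SA_per_neg h.2⟩

theorem move {g : N.Group} (hg : Commute g w) (h : SA_P N w d) : SA_P N w (rho N g d) := by
  obtain ⟨h1, k, hk, h⟩ := h
  exact ⟨H.hA.a0.root_rho g d h1, k, hk,
    by rw [← rho_mul, ← (hg.pow_right k).eq, rho_mul, h]⟩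

theorem ne1 (h : SA_P N w d) : d ≠ β i := fun e => H.hA.a2.nper w _ (H.ch.ess i) (e ▸ h.2)

theorem ne2 (h : SA_P N w d) : d ≠ -β i := fun e =>
  H.ne1 (H.neg h) (show -d = β i by rw [e, neg_neg])

theorem exT (h : SA_P N w d) (i : ℤ) : ∃ y, SA_T N d (β i) y :=
  (H.hA.a2.per_ess w d _ h.1 h.2 (H.ch.ess i)).2.2.2.2

theorem lt_pos (hy : InI N y) (h : y (β i) = 0) (hj : j < i) : 0 < y (β j) :=
  H.ch.mono j i hj y hy h.ge

theorem gt_neg (hy : InI N y) (h : y (β i) = 0) (hj : i < j) : y (β j) < 0 :=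
  lt_of_not_ge fun h' => (H.ch.mono i j hj y hy h').ne' h

theorem of_pos (hy : InI N y) (h : y (β i) = 0) (hj : 0 < y (β j)) : j < i := by
  rcases lt_trichotomy j i with h1 | rfl | h1
  · exact h1
  · exact absurd h hj.ne'
  · exact absurd (H.gt_neg hy h h1) hj.not_gt

theorem of_neg (hy : InI N y) (h : y (β i) = 0) (hj : y (β j) < 0) : i < j := by
  rcases lt_trichotomy j i with h1 | rfl | h1
  · exact absurd (H.lt_pos hy h h1) hj.not_gt
  · exact absurd h hj.ne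
  · exact h1

theorem of_zero (hy : InI N y) (h : y (β i) = 0) (hj : y (β j) = 0) : j = i := by
  rcases lt_trichotomy j i with h1 | h1 | h1
  · exact absurd hj (H.lt_pos hy h h1).ne'
  · exact h1
  · exact absurd hj (H.gt_neg hy h h1).ne

/-- the walls through a vertex -/
theorem van (hd : SA_P N w d) (hy : SA_T N d (β i) y) (a : B → ℝ) (ha : IsRoot N a)
    (h : y a = 0) : a = d ∨ a = -d ∨ a = β i ∨ a = -β i := by
  by_cases h1 : a = d
  · exact Or.inl h1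
  by_cases h2 : a = -d
  · exact Or.inr (Or.inl h2)
  by_cases h3 : Ess N w a
  · obtain ⟨j, rfl⟩ := H.ch.all a h3
    rw [H.of_zero hy.1 hy.2.2 h]
    exact Or.inr (Or.inr (Or.inl rfl))
  by_cases h4 : Ess N w (-a)
  · obtain ⟨j, hj⟩ := H.ch.all _ h4
    rw [← H.of_zero hy.1 hy.2.2 (show y (β j) = 0 by rw [← hj, map_neg, h, neg_zero]), ← hj,
      neg_neg]
    exact Or.inr (Or.inr (Or.inr rfl))
  obtain ⟨ε, -, hε⟩ := H.hA.b2.line w d a H.inf hd.1 hd.2 ha h1 h2 h3 h4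
  have := hε _ y (H.ch.ess i) hy.1 hy.2.1 hy.2.2
  rw [h, mul_zero] at this
  exact absurd this (lt_irrefl _)

/-- a wall between points on neighbouring essential walls is not essential -/
theorem ness (hy : InI N y) (hy' : InI N y') (h : y (β i) = 0) (h' : y' (β j) = 0)
    (h1 : i ≤ j + 1) (h2 : j ≤ i + 1) (he : e ∈ Sep N y y') : ¬ Ess N w e ∧ ¬ Ess N w (-e) := by
  constructor <;> intro h3
  · obtain ⟨k, rfl⟩ := H.ch.all e h3
    have a1 := H.of_pos hy h he.2.1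
    have a2 := H.of_neg hy' h' he.2.2
    omega
  · obtain ⟨k, hk⟩ := H.ch.all _ h3
    have a1 := H.of_neg hy h (show y (β k) < 0 by rw [← hk, map_neg]; linarith [he.2.1])
    have a2 := H.of_pos hy' h' (show 0 < y' (β k) by rw [← hk, map_neg]; linarith [he.2.2])
    omega

theorem sep (hd : SA_P N w d) (hy : SA_T N d (β i) y) (hy' : SA_T N d (β j) y')
    (h1 : i ≤ j + 1) (h2 : j ≤ i + 1) : Sep N y y' = ∅ := by
  refine Set.eq_empty_of_forall_notMem fun e he => ?_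
  obtain ⟨h3, h4⟩ := H.ness hy.1 hy'.1 hy.2.2 hy'.2.2 h1 h2 he
  obtain ⟨ε, hε1, hε⟩ := H.hA.b2.line w d e H.inf hd.1 hd.2 he.1
    (by rintro rfl; exact he.2.1.ne' hy.2.1)
    (by rintro rfl; exact he.2.1.ne' (by rw [map_neg, hy.2.1, neg_zero])) h3 h4
  have a1 := hε _ y (H.ch.ess i) hy.1 hy.2.1 hy.2.2
  have a2 := hε _ y' (H.ch.ess j) hy'.1 hy'.2.1 hy'.2.2
  rcases hε1 with rfl | rfl <;> linarith [he.2.1, he.2.2]

theorem uniq (h : SA_G N d e c l p) (h' : SA_G N d e c' l' p') : c = c' ∧ l = l' ∧ p = p' :=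
  H.un c c' l p l' p' h.1 (h.2.1.trans h'.2.1.symm) (h.2.2.trans h'.2.2.symm)

/-- two neighbouring chambers along a periodic wall -/
theorem step (hd : SA_P N w d) (i : ℤ) : ∃ c l p p', SA_G N d (β i) c l p ∧
    SA_G N d (β (i + 1)) (c * sr N p') l p' := by
  obtain ⟨y, hy⟩ := H.exT hd i
  obtain ⟨y', hy'⟩ := H.exT hd (i + 1)
  obtain ⟨c, l, p, p', a1, a2, a3, a4, a5⟩ := H.ex y y' d (β i) (-β (i + 1)) hy.1 hy'.1 hd.1
    (H.ch.ess i).1 (H.hA.a0.root_neg _ (H.ch.ess _).1) hy.2.1 hy'.2.1 hy.2.2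
    (by rw [map_neg, hy'.2.2, neg_zero]) (H.lt_pos hy'.1 hy'.2.2 (by omega))
    (by rw [map_neg]; linarith [H.gt_neg hy.1 hy.2.2 (show i < i + 1 by omega)])
    (H.van hd hy) (fun a ha h => by rw [neg_neg]; have := H.van hd hy' a ha h; tauto)
    (H.sep hd hy hy' (by omega) (by omega)) (H.sep hd hy' hy (by omega) (by omega))
  exact ⟨c, l, p, p', ⟨a4, a1, a2⟩, a5, by rw [PAN_sr_two c (N.symmetric p' l ▸ a5), a1],
    by rw [PAN_sr_self, a3, neg_neg]⟩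

theorem exG (hd : SA_P N w d) (i : ℤ) : ∃ c l p, SA_G N d (β i) c l p := by
  obtain ⟨c, l, p, -, h, -⟩ := H.step hd i
  exact ⟨c, l, p, h⟩

/-- the chambers along a periodic wall -/
theorem along (hd : SA_P N w d) (h : SA_G N d (β i) c l p) (j : ℤ) :
    ∀ c' l' p', SA_G N d (β j) c' l' p' → l = l' ∧ c⁻¹ * c' ∈ par N (SA_E N w β) := by
  induction j using Int.inductionOn' (b := i) with
  | zero =>
    intro c' l' p' h'
    obtain ⟨rfl, rfl, -⟩ := H.uniq h h'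
    exact ⟨rfl, by simp⟩
  | succ k _ ih =>
    intro c' l' p' h'
    obtain ⟨c1, l1, p1, p2, a1, a2⟩ := H.step hd k
    obtain ⟨rfl, rfl, rfl⟩ := H.uniq a2 h'
    refine ⟨(ih _ _ _ a1).1, ?_⟩
    rw [← mul_assoc]
    exact mul_mem (ih _ _ _ a1).2 (gp_mem _ ⟨d, _, _, _, hd, a2⟩)
  | pred k _ ih =>
    intro c' l' p' h'
    obtain ⟨c1, l1, p1, p2, a1, a2⟩ := H.step hd (k - 1)
    rw [sub_add_cancel] at a2
    obtain ⟨rfl, rfl, rfl⟩ := H.uniq a1 h'
    refine ⟨(ih _ _ _ a2).1, ?_⟩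
    have h2 := (ih _ _ _ a2).2
    rw [← mul_assoc] at h2
    have h3 : sr N p2 ∈ par N (SA_E N w β) := gp_mem _ ⟨d, _, _, _, hd, a2⟩
    exact (Subgroup.mul_mem_cancel_right _ h3).1 h2

theorem refl : SA_R N w β i d d := by
  intro c l p c' l' p' h h'
  obtain ⟨rfl, -, rfl⟩ := H.uniq h h'
  exact ⟨rfl, by simp⟩

theorem trans (he : SA_P N w e) (h : SA_R N w β i d e) (h' : SA_R N w β i e d') :
    SA_R N w β i d d' := by
  intro c l p c' l' p' a a'
  obtain ⟨c1, l1, p1, a1⟩ := H.exG he i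
  refine ⟨(h _ _ _ _ _ _ a a1).1.trans (h' _ _ _ _ _ _ a1 a').1, ?_⟩
  simpa [mul_assoc] using mul_mem (h _ _ _ _ _ _ a a1).2 (h' _ _ _ _ _ _ a1 a').2

theorem rneg (hd : SA_P N w d) : SA_R N w β i d (-d) := by
  intro c l p c' l' p' a a'
  have a1 : SA_G N (-d) (β i) (c * sr N l) l p :=
    ⟨a.1, by rw [PAN_sr_self, a.2.1], by rw [PAN_sr_two c a.1, a.2.2]⟩
  obtain ⟨rfl, -, rfl⟩ := H.uniq a1 a'
  refine ⟨rfl, ?_⟩
  rw [inv_mul_cancel_left]
  exact gp_mem _ ⟨d, _, _, _, hd, a⟩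

/-- a root which is negative at a vertex of a periodic wall stays negative -/
theorem nevn (hd : SA_P N w d) (hy : SA_T N d (β i) y) (he : IsRoot N e) (h : y e < 0)
    (h3 : ¬ Ess N w e) (h4 : ¬ Ess N w (-e)) : ¬ Evn N w e := by
  intro hE
  obtain ⟨ε, hε1, hε⟩ := H.hA.b2.line w d e H.inf hd.1 hd.2 he
    (by rintro rfl; exact h.ne hy.2.1)
    (by rintro rfl; exact h.ne (by rw [map_neg, hy.2.1, neg_zero])) h3 h4
  have a1 := hε _ y (H.ch.ess i) hy.1 hy.2.1 hy.2.2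
  obtain ⟨k, hk, hkd⟩ := hd.2
  obtain ⟨n, hn⟩ := eventually_atTop.1 (hE.2 y hy.1)
  have a2 := (hn (k * n) (Nat.le_mul_of_pos_left n hk)).2
  have hc : Commute (w ^ (k * n))⁻¹ w := ((Commute.refl w).pow_left _).inv_left
  have a3 := hε (β (i + lam (w ^ (k * n))⁻¹)) (act N (w ^ (k * n))⁻¹ y) (H.ch.ess _)
    (H.hA.a1.act_mem _ _ hy.1) (by rw [PAN_act, pow_mul, SA_pow_fix hkd, hy.2.1])
    (by rw [← H.ch.shift _ hc, act_rho, hy.2.2])
  rw [PAN_act] at a3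
  rcases hε1 with rfl | rfl <;> linarith

/-- a wall between two vertices on an essential wall is periodic -/
theorem per (hd : SA_P N w d) (hd' : SA_P N w d') (hy : SA_T N d (β i) y)
    (hy' : SA_T N d' (β i) y') (he : e ∈ Sep N y y') : SA_P N w e := by
  obtain ⟨h3, h4⟩ := H.ness hy.1 hy'.1 hy.2.2 hy'.2.2 (by omega) (by omega) he
  refine ⟨he.1, ?_⟩
  rcases H.hA.a2.tri w e he.1 with h | h | h | h | h
  · exact h
  · exact absurd h h3
  · exact absurd h h4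
  · exact absurd h (H.nevn hd' hy' he.1 he.2.2 h3 h4)
  · exact absurd h (H.nevn hd hy (H.hA.a0.root_neg _ he.1)
      (by rw [map_neg]; linarith [he.2.1]) h4 (by rwa [neg_neg]))

theorem base0 (hd : SA_P N w d) (hd' : SA_P N w d') (hy : SA_T N d (β i) y)
    (hy' : SA_T N d' (β i) y') (hs : Sep N y y' = ∅) (h1 : 0 < y' d) (h2 : 0 < y d') :
    SA_R N w β i d d' := by
  have hs' : Sep N y' y = ∅ := Set.eq_empty_of_forall_notMem fun a ha =>
    Set.eq_empty_iff_forall_notMem.1 hs (-a) ⟨H.hA.a0.root_neg _ ha.1,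
      by rw [map_neg]; linarith [ha.2.2], by rw [map_neg]; linarith [ha.2.1]⟩
  obtain ⟨c, l, p, p', a1, a2, a3, a4, a5⟩ := H.ex y y' (β i) d d' hy.1 hy'.1 (H.ch.ess i).1
    hd.1 hd'.1 hy.2.2 hy'.2.2 hy.2.1 hy'.2.1 h1 h2
    (fun a ha h => by have := H.van hd hy a ha h; tauto)
    (fun a ha h => by have := H.van hd' hy' a ha h; tauto) hs hs'
  intro c1 l1 p1 c2 l2 p2 b1 b2
  obtain ⟨rfl, -, rfl⟩ := H.uniq b1 ⟨N.symmetric p l ▸ a4, a2, a1⟩
  obtain ⟨rfl, -, rfl⟩ := H.uniq b2 ⟨N.symmetric p' _ ▸ a5, a3, a1⟩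
  exact ⟨rfl, by simp⟩

theorem base1 (hd : SA_P N w d) (hd' : SA_P N w d') (hy : SA_T N d (β i) y)
    (hy' : SA_T N d' (β i) y') (hs : Sep N y y' = ∅) (h1 : y' d ≠ 0) (h2 : 0 < y d') :
    SA_R N w β i d d' := by
  rcases h1.lt_or_gt with h | h
  · exact H.trans (H.neg hd) (H.rneg hd) (H.base0 (H.neg hd) hd'
      ⟨hy.1, by rw [map_neg, hy.2.1, neg_zero], hy.2.2⟩ hy' hs (by rw [map_neg]; linarith) h2)
  · exact H.base0 hd hd' hy hy' hs h h2

theorem base (hd : SA_P N w d) (hd' : SA_P N w d') (hy : SA_T N d (β i) y)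
    (hy' : SA_T N d' (β i) y') (hs : Sep N y y' = ∅) : SA_R N w β i d d' := by
  by_cases h1 : d' = d
  · exact h1 ▸ H.refl
  by_cases h2 : d' = -d
  · exact h2 ▸ H.rneg hd
  have h3 : y' d ≠ 0 := fun h => by
    rcases H.van hd' hy' d hd.1 h with a | a | a | a
    · exact h1 a.symm
    · exact h2 (by rw [a, neg_neg])
    · exact H.ne1 hd a
    · exact H.ne2 hd a
  have h4 : y d' ≠ 0 := fun h => by
    rcases H.van hd hy d' hd'.1 h with a | a | a | a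
    · exact h1 a
    · exact h2 a
    · exact H.ne1 hd' a
    · exact H.ne2 hd' a
  rcases h4.lt_or_gt with h | h
  · have h5 := H.rneg (i := i) (H.neg hd')
    rw [neg_neg] at h5
    exact H.trans (H.neg hd') (H.base1 hd (H.neg hd') hy
      ⟨hy'.1, by rw [map_neg, hy'.2.1, neg_zero], hy'.2.2⟩ hs h3 (by rw [map_neg]; linarith)) h5
  · exact H.base1 hd hd' hy hy' hs h3 h

theorem across_aux (i : ℤ) (n : ℕ) : ∀ d d' y y', SA_P N w d → SA_P N w d' → SA_T N d (β i) y →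
    SA_T N d' (β i) y' → (Sep N y y').ncard = n → SA_R N w β i d d' := by
  induction n using Nat.strong_induction_on with
  | _ n ih =>
    intro d d' y y' hd hd' hy hy' hn
    rcases (Sep N y y').eq_empty_or_nonempty with hs | ⟨e, he⟩
    · exact H.base hd hd' hy hy' hs
    have hf : (Sep N y y').Finite :=
      (H.hA.a1.sep_fin y y' hy.1 hy'.1).subset fun a ha => ⟨ha.1, ha.2.1.le, ha.2.2.le⟩
    have hp := H.per hd hd' hy hy' he
    obtain ⟨s, t, hs, ht, -, hz, hze⟩ := H.hA.a1.zero y y' e hy.1 hy'.1 he.2.1.le he.2.2.le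
    have ev : ∀ a, (s • y + t • y') a = s * y a + t * y' a := fun a => by simp
    have hT : SA_T N e (β i) (s • y + t • y') :=
      ⟨hz, by rw [ev, hze], by rw [ev, hy.2.2, hy'.2.2]; ring⟩
    refine H.trans hp (ih _ ?_ _ _ _ _ hd hp hy hT rfl) (ih _ ?_ _ _ _ _ hp hd' hT hy' rfl)
    · rw [← hn]
      refine Set.ncard_lt_ncard ⟨fun a ha => ⟨ha.1, ha.2.1, ?_⟩,
        fun h => (h he).2.2.ne hT.2.1⟩ hf
      have a1 := ha.2.2
      rw [ev] at a1
      by_contra hcon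
      linarith [mul_nonneg hs ha.2.1.le, mul_nonneg ht (not_lt.1 hcon)]
    · rw [← hn]
      refine Set.ncard_lt_ncard ⟨fun a ha => ⟨ha.1, ?_, ha.2.2⟩,
        fun h => (h he).2.1.ne' hT.2.1⟩ hf
      have a1 := ha.2.1
      rw [ev] at a1
      by_contra hcon
      linarith [mul_nonneg hs (neg_nonneg.2 (not_lt.1 hcon)), mul_nonneg ht
        (neg_nonneg.2 ha.2.2.le)]

/-- the chambers along an essential wall -/
theorem across (hd : SA_P N w d) (hd' : SA_P N w d') (i : ℤ) : SA_R N w β i d d' := by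
  obtain ⟨y, hy⟩ := H.exT hd i
  obtain ⟨y', hy'⟩ := H.exT hd' i
  exact H.across_aux i _ d d' y y' hd hd' hy hy' rfl

theorem prod (hd : SA_P N w d) (h : SA_G N d (β 0) c l p) :
    ProdA N w c (SA_E N w β) (SA_L N w β) := by
  have two : ∀ p ∈ SA_E N w β, ∀ l ∈ SA_L N w β, N p l = 2 := by
    rintro p1 ⟨d1, i1, c1, l1, h1, g1⟩ l2 ⟨d2, i2, c2, p2, h2, g2⟩
    obtain ⟨c3, l3, p3, g3⟩ := H.exG h2 i1
    rw [(H.along h2 g2 _ _ _ _ g3).1, (H.across h1 h2 i1 _ _ _ _ _ _ g1 g3).1, N.symmetric]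
    exact g3.1
  refine ⟨⟨p, d, 0, c, l, hd, h⟩, ⟨l, d, 0, c, p, hd, h⟩, two, fun a ha => ?_,
    fun a ha ha' => ?_, fun g hg => ?_⟩
  · obtain ⟨i, rfl⟩ := H.ch.all a ha
    obtain ⟨c1, l1, p1, g1⟩ := H.exG hd i
    rw [← g1.2.2, ← rho_mul]
    exact H.hA.b0.supp_par _ _ _ (H.along hd h _ _ _ _ g1).2 fun j hj =>
      al_ne fun e => hj (e ▸ ⟨d, i, c1, l1, hd, g1⟩)
  · obtain ⟨c1, l1, p1, g1⟩ := H.exG ⟨ha, ha'⟩ 0
    rw [← g1.2.1, ← rho_mul]
    exact H.hA.b0.supp_par _ _ _ (H.across hd ⟨ha, ha'⟩ 0 _ _ _ _ _ _ h g1).2 fun j hj =>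
      al_ne fun e => hj (e ▸ ⟨a, 0, c1, p1, ⟨ha, ha'⟩, g1⟩)
  · have hd' := H.move hg hd
    have g1 : SA_G N (rho N g d) (β (0 + lam g)) (g * c) l p :=
      ⟨h.1, by rw [rho_mul, h.2.1], by rw [rho_mul, h.2.2, H.ch.shift g hg]⟩
    obtain ⟨c2, l2, p2, g2⟩ := H.exG hd' 0
    have hu := (H.along hd' g2 _ _ _ _ g1).2
    have hv := (H.across hd hd' 0 _ _ _ _ _ _ h g2).2
    refine ⟨_, hu, _, hv, ?_⟩
    rw [((H.hA.b0.perp_fix _ _ two _ hu).2 _ hv).eq]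
    group

end SA_S

theorem SA_thm (hA : St_CA) (h1 : St_PAN) : St_SA := by
  rintro B _ _ N hN w hw hc ⟨d, hd⟩
  obtain ⟨β, lam, hch⟩ := (hA B N hN).b2.chain w hw hc
  have H : SA_S N w β lam := ⟨hA B N hN, (h1 B N hN).1, (h1 B N hN).2, hw, hch⟩
  obtain ⟨c, l, p, h⟩ := H.exG hd 0
  exact ⟨c, _, _, H.prod hd h⟩

end Pool.Agent.Lib.MP_1b8ce0_al.T
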