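import Mathlib
import Pool.Agent.Lib.MP_1b8ce0_al.T.StsB

set_option linter.unusedSectionVars false
set_option linter.dupNamespace false

namespace Pool.Agent.Lib.MP_1b8ce0_al.T

open Pool.Agent.Lib.MP_6d85b4_al Filter

/-! ### consequences of the product structure -/

theorem SAC_indep {B : Type} (N : CoxeterMatrix B) (hN : NoSph N) (P : Set B) (l : B)
    (h : ∀ p ∈ P, N p l = 2) : Indep N P := by
  intro s hs t ht hst
  have h1 := h s hs
  have h2 := h t ht
  have a1 : s ≠ l := by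
    rintro rfl
    rw [N.diagonal] at h1
    omega
  have a2 : t ≠ l := by
    rintro rfl
    rw [N.diagonal] at h2
    omega
  have h3 := hN s t l hst a2 a1
  rw [h1, h2] at h3
  by_contra h0
  have h4 : (0 : ℚ) < 1 / (N s t : ℚ) := by
    have : (0 : ℚ) < N s t := by exact_mod_cast Nat.pos_of_ne_zero h0
    positivity
  push_cast at h3
  linarith

theorem SAC_thm (hA : St_CA) (h1 : St_FREE) : St_SAC := by
  intro B _ _ N hN w c P L hw hc hP
  have C := hA B N hN
  have two' : ∀ l ∈ L, ∀ p ∈ P, N l p = 2 := fun l hl p hp => by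
    rw [N.symmetric]
    exact hP.two p hp l hl
  obtain ⟨p0, hp0⟩ := hP.nP
  obtain ⟨l0, hl0⟩ := hP.nL
  have iP : Indep N P := SAC_indep N hN P l0 fun p hp => hP.two p hp l0 hl0
  have iL : Indep N L := SAC_indep N hN L p0 fun l hl => two' l hl p0 hp0
  have dj : ∀ j, j ∈ P → j ∉ L := fun j a b => by
    have := hP.two j a j b
    rw [N.diagonal] at this
    omega
  have dp : DP N Set.univ (sr N) := ⟨C.b0.dyer, fun s hs => absurd (Set.mem_univ s) hs, hN⟩
  have fP := h1 B N.Group N Set.univ (sr N) dp P iP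
  have fL := h1 B N.Group N Set.univ (sr N) dp L iL
  have cPL : ∀ u ∈ par N P, ∀ v ∈ par N L, Commute u v := fun u hu =>
    (C.b0.perp_fix P L hP.two u hu).2
  refine ⟨iP, iL, ?_, ?_, ?_⟩
  · intro u hu v hv u' hu' v' hv' h
    have e1 : u'⁻¹ * u = v' * v⁻¹ := by
      calc u'⁻¹ * u = u'⁻¹ * (u * v) * v⁻¹ := by group
        _ = u'⁻¹ * (u' * v') * v⁻¹ := by rw [h]
        _ = v' * v⁻¹ := by group
    have m : u'⁻¹ * u ∈ par N P ⊓ par N L :=
      Subgroup.mem_inf.2 ⟨mul_mem (inv_mem hu') hu, e1 ▸ mul_mem hv' (inv_mem hv)⟩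
    have e0 : P ∩ L = ∅ := Set.eq_empty_of_forall_notMem fun j hj => dj j hj.1 hj.2
    rw [C.b0.inter, e0] at m
    have e2 : u'⁻¹ * u = 1 := by simpa [gp] using m
    refine ⟨(inv_mul_eq_one.1 e2).symm, ?_⟩
    rw [e2] at e1
    exact (mul_inv_eq_one.1 e1.symm).symm
  · intro u hu v hv u' hu' v' hv' g1 g2
    obtain ⟨β, lam, ch⟩ := C.b2.chain w hw hc
    have sa := hP.ess _ (ch.ess 0)
    have ra : IsRoot N (rho N c⁻¹ (β 0)) := C.a0.root_rho _ _ (ch.ess 0).1
    have key : ∀ u ∈ par N P, ∀ v ∈ par N L, ∀ u' ∈ par N P, ∀ v' ∈ par N L,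
        Commute (c * (u * v) * c⁻¹) w → Commute (c * (u' * v') * c⁻¹) w →
        rho N (c * (u * u')) (rho N c⁻¹ (β 0)) =
          β (0 + lam (c * (u' * v') * c⁻¹) + lam (c * (u * v) * c⁻¹)) := by
      intro u hu v hv u' hu' v' hv' g1 g2
      rw [← ch.shift _ g1, ← ch.shift _ g2, ← rho_mul, ← rho_mul]
      have e : c * (u * v) * c⁻¹ * (c * (u' * v') * c⁻¹) = c * (u * u') * ((v * v') * c⁻¹) := by
        have := (cPL u' hu' v hv).eq
        calc c * (u * v) * c⁻¹ * (c * (u' * v') * c⁻¹) = c * u * (v * u') * v' * c⁻¹ := by group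
          _ = c * u * (u' * v) * v' * c⁻¹ := by rw [this]
          _ = _ := by group
      rw [e, rho_mul N (c * (u * u')) (v * v' * c⁻¹), rho_mul N (v * v'),
        (C.b0.perp_fix L P two' _ (mul_mem hv hv')).1 _ sa, rho_mul N (c * (u * u'))]
    have k1 := key u hu v hv u' hu' v' hv' g1 g2
    have k2 := key u' hu' v' hv' u hu v hv g2 g1
    rw [add_right_comm, ← k1] at k2
    set a := rho N c⁻¹ (β 0)
    have k3 : rho N ((u * u')⁻¹ * (u' * u)) a = a := by
      have e : (u * u')⁻¹ * (u' * u) = (c * (u * u'))⁻¹ * (c * (u' * u)) := by group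
      rw [e, rho_mul, k2, rho_inv]
    obtain ⟨r, hr⟩ := C.a0.refl_ex a ra
    have q := C.a0.refl_sq r ⟨a, hr⟩
    have fo : IsOfFinOrder r := isOfFinOrder_iff_pow_eq_one.2 ⟨2, two_pos, by rw [pow_two, q.1]⟩
    rcases fP.tcen r ((C.b0.refl_mem P r a hr).2 sa) fo q.2.1 _
      (mul_mem (inv_mem (mul_mem hu hu')) (mul_mem hu' hu))
      ((C.a0.refl_comm _ r a hr).2 (Or.inl k3)) with h | h
    · exact inv_mul_eq_one.1 h
    · have s := congrArg (sg N) h
      rw [q.2.2, map_mul, map_inv, map_mul, map_mul, mul_comm (sg N u'), inv_mul_cancel] at s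
      exact absurd s (by decide)
  · intro u hu v hv h
    by_cases fo : IsOfFinOrder v
    · rcases fL.tor v hv fo with h | ⟨t, -, -, d, -, h⟩
      · rw [h, one_mul]
      · rw [h]
        calc d * sr N t * d⁻¹ * (d * sr N t * d⁻¹) = d * (sr N t * sr N t) * d⁻¹ := by group
          _ = 1 := by rw [N.toCoxeterSystem.simple_mul_simple_self, mul_one, mul_inv_cancel]
    · exfalso
      obtain ⟨e, he⟩ := C.a2.ex v fo
      have s1 : Supp L e := by
        have := C.a2.esspar v 1 L e (by rw [cj_one]; exact hv) he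
        rwa [inv_one, rho_one] at this
      have cu := cPL u hu v hv
      have e1 : Ess N (u * v) e := by
        refine ⟨he.1, fun x hx => (he.2 x hx).mono fun n hn => ?_⟩
        have f1 := (C.b0.perp_fix P L hP.two _ (pow_mem hu n)).1 e s1
        have f2 := (C.b0.perp_fix P L hP.two _ (inv_mem (pow_mem hu n))).1 e s1
        have a1 : rho N ((u * v) ^ n)⁻¹ e = rho N (v ^ n)⁻¹ e := by
          rw [cu.mul_pow, mul_inv_rev, rho_mul, f2]
        have a2 : rho N ((u * v) ^ n) e = rho N (v ^ n) e := by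
          rw [cu.mul_pow, (cu.pow_pow n n).eq, rho_mul, f1]
        rw [a1, a2]
        exact hn
      have e2 := C.a2.conj c _ _ e1
      rw [← h] at e2
      have s2 := hP.ess _ e2
      rw [rho_inv] at s2
      have e0 : e = 0 := funext fun j => by
        by_cases hj : j ∈ P
        · exact s1 j (dj j hj)
        · exact s2 j hj
      have n := C.a0.root_norm e he.1
      rw [e0] at n
      simp [Bf, bf] at n

/-! ### case B -/

theorem CB_gen {G : Type} [Group G] (w : G) (T : G → ℤ → ℤ → Prop) (t1 : T 1 0 0)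
    (tm : ∀ g h a b c d, T g a b → T h c d → T (g * h) (a + c) (b + d))
    (ti : ∀ g a b, T g a b → T g⁻¹ (-a) (-b)) (tw : T w 1 1)
    (tu : ∀ g h a b, T g a b → T h a b → g = h) (H : Subgroup G)
    (hH : ∀ g ∈ H, ∃ a b, T g a b) :
    (∀ g ∈ H, ∀ h ∈ H, Commute g h) ∧ ∃ e ∈ H, ∀ l ∈ H, ∃ i j : ℤ, l = e ^ i * w ^ j := by
  have tn : ∀ g a b (n : ℕ), T g a b → T (g ^ n) (n * a) (n * b) := by
    intro g a b n h
    induction n with
    | zero => simpa using t1
    | succ n ih =>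
      have := tm _ _ _ _ _ _ ih h
      rw [← pow_succ] at this
      push_cast
      rwa [add_one_mul, add_one_mul]
  have tz : ∀ g a b (n : ℤ), T g a b → T (g ^ n) (n * a) (n * b) := by
    intro g a b n h
    obtain ⟨m, rfl | rfl⟩ := Int.eq_nat_or_neg n
    · rw [zpow_natCast]
      exact tn g a b m h
    · rw [zpow_neg, zpow_natCast, neg_mul, neg_mul]
      exact ti _ _ _ (tn g a b m h)
  refine ⟨fun g hg h hh => ?_, ?_⟩
  · obtain ⟨a, b, x⟩ := hH g hg
    obtain ⟨c, d, y⟩ := hH h hh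
    refine tu _ _ _ _ (tm _ _ _ _ _ _ x y) ?_
    rw [add_comm a, add_comm b]
    exact tm _ _ _ _ _ _ y x
  · let S : AddSubgroup ℤ :=
      { carrier := {d | ∃ l ∈ H, ∃ j, T l (j + d) j}
        add_mem' := by
          rintro a b ⟨l, hl, j, x⟩ ⟨l', hl', j', y⟩
          refine ⟨l * l', mul_mem hl hl', j + j', ?_⟩
          have := tm _ _ _ _ _ _ x y
          rwa [add_add_add_comm] at this
        zero_mem' := ⟨1, one_mem _, 0, t1⟩
        neg_mem' := by
          rintro a ⟨l, hl, j, x⟩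
          refine ⟨l⁻¹, inv_mem hl, -j, ?_⟩
          have := ti _ _ _ x
          rwa [neg_add] at this }
    obtain ⟨d, hd⟩ := Int.subgroup_cyclic S
    have m : d ∈ S := hd ▸ AddSubgroup.subset_closure rfl
    obtain ⟨e, he, j, x⟩ := m
    refine ⟨e, he, fun l hl => ?_⟩
    obtain ⟨a, b, y⟩ := hH l hl
    have m : a - b ∈ S := ⟨l, hl, b, by rwa [add_sub_cancel]⟩
    rw [hd, AddSubgroup.mem_closure_singleton] at m
    obtain ⟨i, hi⟩ := m
    refine ⟨i, b - i * j, tu _ _ _ _ y ?_⟩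
    have := tm _ _ _ _ _ _ (tz _ _ _ i x) (tz _ _ _ (b - i * j) tw)
    rw [smul_eq_mul] at hi
    have e1 : i * (j + d) + (b - i * j) * 1 = a := by linear_combination hi
    have e2 : i * j + (b - i * j) * 1 = b := by ring
    rwa [e1, e2] at this

theorem CB_abs {G : Type} [Group G] (w e : G) (hw : ∀ g, Commute g w) (H : Subgroup G)
    [H.Normal] [H.FiniteIndex] (hc : ∀ g ∈ H, ∀ h ∈ H, Commute g h) (he : e ∈ H)
    (hg : ∀ l ∈ H, ∃ i j : ℤ, l = e ^ i * w ^ j)
    (ht : ∀ g h : G, IsOfFinOrder (cm g h) → cm g h = 1) :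
    ∃ K : Subgroup G, K.Normal ∧ w ∈ K ∧ (∀ g ∈ K, ∀ h ∈ K, Commute g h) ∧
      ∀ g h, g ∉ K → h ∉ K → g * h ∈ K := by
  have cj' : ∀ (g : G) (i j : ℤ), g * (e ^ i * w ^ j) * g⁻¹ = (g * e * g⁻¹) ^ i * w ^ j := by
    intro g i j
    rw [conj_zpow, mul_assoc _ g⁻¹, ((hw g⁻¹).zpow_right j).eq]
    group
  have cm1 : ∀ g h : G, cm g h = 1 → Commute g h := fun g h x => by
    rw [cm, mul_inv_eq_one, mul_inv_eq_iff_eq_mul] at x
    exact x
  have mem : ∀ g, Commute g e → g ∈ Subgroup.centralizer (H : Set G) := by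
    intro g x l hl
    obtain ⟨i, j, rfl⟩ := hg l hl
    exact ((x.zpow_right i).mul_right ((hw g).zpow_right j)).eq.symm
  have A : ∀ g (j : ℤ), g * e * g⁻¹ = e * w ^ j → Commute g e := by
    intro g j x
    have p : ∀ n : ℕ, g ^ n * e * (g ^ n)⁻¹ = e * (w ^ j) ^ n := by
      intro n
      induction n with
      | zero => simp
      | succ n ih =>
        calc g ^ (n + 1) * e * (g ^ (n + 1))⁻¹ = g * (g ^ n * e * (g ^ n)⁻¹) * g⁻¹ := by group
          _ = g * (e ^ (1 : ℤ) * w ^ (j * n)) * g⁻¹ := by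
            rw [ih, zpow_one, zpow_mul, zpow_natCast]
          _ = _ := by
            rw [cj', x]
            group
    have q := p H.index
    rw [(hc _ (H.pow_index_mem g) e he).eq, mul_inv_cancel_right, left_eq_mul] at q
    have c : cm g e = w ^ j := by
      rw [cm, x, ((hw e).zpow_right j).eq, mul_inv_cancel_right]
    refine cm1 _ _ (ht _ _ (isOfFinOrder_iff_pow_eq_one.2 ⟨H.index, ?_, by rw [c, q]⟩))
    exact Nat.pos_of_ne_zero Subgroup.FiniteIndex.index_ne_zero
  have D : ∀ g, Commute g e ∨ ∃ j : ℤ, g * e * g⁻¹ = e ^ (-1 : ℤ) * w ^ j := by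
    intro g
    have m1 := (inferInstance : H.Normal).conj_mem e he g
    obtain ⟨i, j, x⟩ := hg _ m1
    obtain ⟨i', j', y⟩ := hg _ ((inferInstance : H.Normal).conj_mem e he g⁻¹)
    have z : e = e ^ (i * i') * w ^ (j * i' + j') := by
      calc e = g * (g⁻¹ * e * g⁻¹⁻¹) * g⁻¹ := by group
        _ = (e ^ i * w ^ j) ^ i' * w ^ j' := by rw [y, cj', x]
        _ = _ := by
          rw [((hw (e ^ i)).zpow_right j).mul_zpow]
          group
    by_cases h : i * i' = 1
    · rcases Int.eq_one_or_neg_one_of_mul_eq_one h with rfl | rfl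
      · rw [zpow_one] at x
        exact Or.inl (A g j x)
      · exact Or.inr ⟨j, x⟩
    · left
      have z1 : e ^ (1 - i * i') = w ^ (j * i' + j') := by
        rw [sub_eq_neg_add, zpow_add, zpow_one, zpow_neg, inv_mul_eq_iff_eq_mul]
        exact z
      refine cm1 _ _ (ht _ _ (isOfFinOrder_iff_zpow_eq_one.2 ⟨1 - i * i', ?_, ?_⟩))
      · exact fun k => h (by linear_combination -k)
      · rw [cm, (hc _ m1 e he).inv_right.mul_zpow, conj_zpow, inv_zpow, z1,
          ((hw g).zpow_right _).eq]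
        group
  refine ⟨Subgroup.centralizer (H : Set G), inferInstance, mem w (hw e).symm, ?_, ?_⟩
  · set K := Subgroup.centralizer (H : Set G) with hK
    have le : H.subgroupOf K ≤ Subgroup.center K := fun l hl =>
      Subgroup.mem_center_iff.2 fun k => Subtype.ext (k.2 l hl).symm
    have : (Subgroup.center K).FiniteIndex := Subgroup.finiteIndex_of_le le
    intro g hg' h hh
    refine cm1 _ _ (ht _ _ (isOfFinOrder_iff_pow_eq_one.2 ⟨(Subgroup.center K).index,
      Nat.pos_of_ne_zero Subgroup.FiniteIndex.index_ne_zero, ?_⟩))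
    have q := MonoidHom.transferCenterPow_apply (G := K)
      (⟨g, hg'⟩ * ⟨h, hh⟩ * ⟨g, hg'⟩⁻¹ * ⟨h, hh⟩⁻¹)
    have z : ∀ a b : Subgroup.center K, a * b * a⁻¹ * b⁻¹ = 1 := fun a b => by
      have : a * b = b * a := Subtype.ext (Subgroup.mem_center_iff.1 b.2 a)
      rw [this, mul_inv_cancel_right, mul_inv_cancel]
    rw [map_mul, map_mul, map_mul, map_inv, map_inv, z] at q
    have q' := congrArg Subtype.val q
    simpa [cm] using q'.symm
  · intro g h x y
    obtain ⟨i, a⟩ := (D g).resolve_left fun k => x (mem g k)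
    obtain ⟨j, b⟩ := (D h).resolve_left fun k => y (mem h k)
    refine mem _ (A _ (j - i) ?_)
    calc g * h * e * (g * h)⁻¹ = g * (h * e * h⁻¹) * g⁻¹ := by group
      _ = (e ^ (-1 : ℤ) * w ^ i) ^ (-1 : ℤ) * w ^ j := by rw [b, cj', a]
      _ = _ := by
        rw [((hw (e ^ (-1 : ℤ))).zpow_right i).mul_zpow]
        group

theorem CB_fin {G X : Type} [Group G] (L : Subgroup G) (F : Set X) (hF : F.Finite)
    (R : G → X → Prop) (ex : ∀ g, ∃ f ∈ F, R g f) (un : ∀ g h f, R g f → R h f → g⁻¹ * h ∈ L) :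
    L.FiniteIndex := by
  choose f hf hR using ex
  have := hF.to_subtype
  have : Finite (G ⧸ L) := by
    refine Finite.of_injective (fun q : G ⧸ L => (⟨f q.out, hf _⟩ : F)) fun q q' h => ?_
    have e : f q.out = f q'.out := congrArg Subtype.val h
    rw [← q.out_eq, ← q'.out_eq]
    exact QuotientGroup.eq.2 (un _ _ _ (hR _) (e ▸ hR _))
  exact L.finiteIndex_of_finite_quotient

theorem CB_thm (hA : St_CA) : St_CB := by
  intro B _ _ N hN
  have C := hA B N hN
  have tor : ∀ w k, ¬ IsOfFinOrder w → Commute k w → IsOfFinOrder k → sg N k = 1 → k = 1 := by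
    intro w k hw c f s
    refine (C.t1.torc k w f c hw).resolve_right fun r => ?_
    rw [(C.a0.refl_sq k r).2.2] at s
    exact absurd s (by decide)
  refine ⟨fun w a b ha hb hab => ?_, fun w g h n hw cg ch c hn e s => ?_⟩
  · have hw : ¬ IsOfFinOrder w := fun f => by
      obtain ⟨n, hn, e⟩ := isOfFinOrder_iff_pow_eq_one.1 f
      exact C.a2.nper w a ha ⟨n, hn, by rw [e, rho_one]⟩
    let G := Subgroup.centralizer ({w} : Set N.Group)
    have mG : ∀ g, g ∈ G ↔ Commute g w := fun g => Subgroup.mem_centralizer_singleton_iff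
    have cw : ∀ g : G, Commute (g : N.Group) w := fun g => (mG g).1 g.2
    let w' : G := ⟨w, (mG w).2 (Commute.refl w)⟩
    let U : (B → ℝ) → G → ℤ → Prop := fun a g j => rho N g a = rho N (w ^ j) a
    have u1 : ∀ a, U a 1 0 := fun a => by simp [U]
    have um : ∀ a g h i j, U a g i → U a h j → U a (g * h) (i + j) := by
      intro a g h i j x y
      simp only [U] at x y ⊢
      rw [Subgroup.coe_mul, rho_mul, y, ← rho_mul, ((cw g).zpow_right j).eq, rho_mul, x,
        ← rho_mul, ← zpow_add, add_comm]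
    have ui : ∀ a g i, U a g i → U a g⁻¹ (-i) := by
      intro a g i x
      simp only [U] at x ⊢
      have e : (g : N.Group)⁻¹ = (g : N.Group)⁻¹ * w ^ (-i) * w ^ i := by group
      rw [Subgroup.coe_inv, e, rho_mul, ← x, ((cw g).inv_left.zpow_right (-i)).eq, rho_mul,
        rho_inv]
    let L : (B → ℝ) → Subgroup G := fun a =>
      { carrier := {g | ∃ j, U a g j}
        mul_mem' := fun ⟨i, x⟩ ⟨j, y⟩ => ⟨_, um a _ _ i j x y⟩
        one_mem' := ⟨0, u1 a⟩
        inv_mem' := fun ⟨i, x⟩ => ⟨_, ui a _ i x⟩ }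
    have fi : ∀ a, Ess N w a → (L a).FiniteIndex := by
      intro a ha
      obtain ⟨F, hF, ex⟩ := C.a2.fin w
      refine CB_fin (L a) F hF (fun g f => ∃ k : ℤ, f = rho N (w ^ k) (rho N g a)) ?_ ?_
      · intro g
        have e := C.a2.conj g w a ha
        rw [(cw g).eq, mul_inv_cancel_right] at e
        obtain ⟨k, hk⟩ := ex _ e
        exact ⟨_, hk, k, rfl⟩
      · rintro g h f ⟨k, x⟩ ⟨k', y⟩
        refine ⟨k - k', ?_⟩
        have e1 : ((g⁻¹ * h : G) : N.Group) = (g : N.Group)⁻¹ * w ^ (-k') * (w ^ k' * h) := by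
          rw [Subgroup.coe_mul, Subgroup.coe_inv]
          group
        have e2 : w ^ (k - k') = (g : N.Group)⁻¹ * w ^ (-k') * (w ^ k * g) := by
          rw [((cw g).inv_left.zpow_right (-k')).eq, ← ((cw g).zpow_right k).eq]
          group
        simp only [U]
        rw [e1, e2, rho_mul, rho_mul N (w ^ k'), ← y, x, ← rho_mul N (w ^ k), ← rho_mul]
    have := fi a ha
    have := fi b hb
    have hw' : ∀ g : G, Commute g w' := fun g => Subtype.ext (cw g).eq
    obtain ⟨hc, e, he, hg⟩ := CB_gen w' (fun g i j => U a g i ∧ U b g j) ⟨u1 a, u1 b⟩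
      (fun g h _ _ _ _ x y => ⟨um a _ _ _ _ x.1 y.1, um b _ _ _ _ x.2 y.2⟩)
      (fun g _ _ x => ⟨ui a _ _ x.1, ui b _ _ x.2⟩) ⟨by simp [U, w'], by simp [U, w']⟩
      (fun g h i j x y => by
        have k := C.b1.fix2 a b ((g : N.Group)⁻¹ * h) hab
          (by rw [rho_mul, y.1, ← x.1, rho_inv]) (by rw [rho_mul, y.2, ← x.2, rho_inv])
        exact Subtype.ext (inv_mul_eq_one.1 k))
      (L a ⊓ L b).normalCore fun g hg => by
        obtain ⟨⟨i, x⟩, ⟨j, y⟩⟩ := (L a ⊓ L b).normalCore_le hg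
        exact ⟨i, j, x, y⟩
    obtain ⟨K, nK, wK, cK, iK⟩ := CB_abs w' e hw' _ hc he hg fun g h f => by
      refine Subtype.ext (tor w _ hw (cw _) (G.subtype.isOfFinOrder f) ?_)
      change sg N ((g : N.Group) * h * (g : N.Group)⁻¹ * (h : N.Group)⁻¹) = 1
      rw [map_mul, map_mul, map_mul, map_inv, map_inv, mul_inv_cancel_comm, mul_inv_cancel]
    refine ⟨K.map G.subtype, ⟨w', wK, rfl⟩, ?_, ?_, ?_⟩
    · rintro _ ⟨g, hg, rfl⟩ _ ⟨h, hh, rfl⟩
      exact (cK g hg h hh).map _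
    · intro g h cg ch x y
      exact ⟨_, iK ⟨g, (mG g).2 cg⟩ ⟨h, (mG h).2 ch⟩ (fun k => x ⟨_, k, rfl⟩)
        (fun k => y ⟨_, k, rfl⟩), rfl⟩
    · intro g cg h
      constructor
      · rintro ⟨k, hk, rfl⟩
        exact ⟨_, nK.conj_mem k hk ⟨g, (mG g).2 cg⟩, rfl⟩
      · rintro ⟨k, hk, e⟩
        refine ⟨_, nK.conj_mem k hk ⟨g, (mG g).2 cg⟩⁻¹, ?_⟩
        have e' : (k : N.Group) = g * h * g⁻¹ := e
        simp [e', mul_assoc]
  · refine mul_inv_eq_one.1 (tor w _ hw (cg.mul_left ch.inv_left)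
      (isOfFinOrder_iff_pow_eq_one.2 ⟨n, hn, ?_⟩) ?_)
    · rw [c.inv_right.mul_pow, inv_pow, e, mul_inv_cancel]
    · rw [map_mul, map_inv, s, mul_inv_cancel]

end Pool.Agent.Lib.MP_1b8ce0_al.T
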