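import Mathlib
import Pool.Agent.Lib.MP_1b8ce0_al.T.StsC

set_option linter.unusedSectionVars false
set_option linter.dupNamespace false

namespace Pool.Agent.Lib.MP_1b8ce0_al.T

open Pool.Agent.Lib.MP_6d85b4_al

section

variable {S S' : Type} {M' : CoxeterMatrix S'} {V : S → S' → Prop}

/-- `N, E1` is reached from `M, E` by twists that change nothing off `Z` -/
def SL_Res (M' : CoxeterMatrix S') (V : S → S' → Prop) (Z : Set S) (M : CoxeterMatrix S)
    (E : S → S → S' → S' → Prop) (N : CoxeterMatrix S) (E1 : S → S → S' → S' → Prop) : Prop :=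
  Relation.ReflTransGen Twist M N ∧ NoSph N ∧ Match N M' V E1 ∧ ∀ u v, u ∉ Z → v ∉ Z →
    N u v = M u v ∧ ∀ u' v', E1 u v u' v' ↔ E u v u' v'

theorem SL_refl {Z : Set S} {M : CoxeterMatrix S} {E : S → S → S' → S' → Prop} (h1 : NoSph M)
    (h2 : Match M M' V E) : SL_Res M' V Z M E M E :=
  ⟨Relation.ReflTransGen.refl, h1, h2, fun _ _ _ _ => ⟨rfl, fun _ _ => Iff.rfl⟩⟩

theorem SL_trans {Z : Set S} {M N L : CoxeterMatrix S} {E E1 E2 : S → S → S' → S' → Prop}
    (h1 : SL_Res M' V Z M E N E1) (h2 : SL_Res M' V Z N E1 L E2) : SL_Res M' V Z M E L E2 :=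
  ⟨h1.1.trans h2.1, h2.2.1, h2.2.2.1, fun u v hu hv =>
    ⟨(h2.2.2.2 u v hu hv).1.trans (h1.2.2.2 u v hu hv).1, fun u' v' =>
      ((h2.2.2.2 u v hu hv).2 u' v').trans ((h1.2.2.2 u v hu hv).2 u' v')⟩⟩

theorem SL_step (h1 : St_TWM) {Z X : Set S} {M N : CoxeterMatrix S}
    {E : S → S → S' → S' → Prop} {p q : S} (hn : NoSph M) (hm : Match M M' V E)
    (ht : TwistAt M N p q X) (hX : X ⊆ Z) : SL_Res M' V Z M E N (twE E p q X) := by
  obtain ⟨a1, -, a3⟩ := (h1 S S' M M' p q X).2 N ht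
  refine ⟨Relation.ReflTransGen.single ⟨p, q, X, ht⟩, a1 hn, a3 V E hm, fun u v hu hv => ?_⟩
  refine ⟨ht.2.2.2.2.2.2 u v (fun h => hu (hX h.1)) (fun h => hv (hX h.1)), fun u' v' => ?_⟩
  unfold twE
  rw [if_neg]
  rintro (h | h)
  · exact hu (hX h)
  · exact hv (hX h)

open Classical in
theorem SL_swap_mem {X : Set S} {p q a : S} (h : a ∈ X ∨ a = p ∨ a = q) (hp : p ∉ X)
    (hq : q ∉ X) : Equiv.swap p q a ∈ X ∨ Equiv.swap p q a = p ∨ Equiv.swap p q a = q := by
  rcases h with h | rfl | rfl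
  · left
    rwa [Equiv.swap_apply_of_ne_of_ne (ne_of_mem_of_not_mem h hp) (ne_of_mem_of_not_mem h hq)]
  · simp
  · simp

open Classical in
/-- on the twisted part the new matrix is the old one with `p, q` exchanged -/
theorem SL_lab {X : Set S} {M N : CoxeterMatrix S} {p q : S} (ht : TwistAt M N p q X) {a b : S}
    (ha : a ∈ X ∨ a = p ∨ a = q) (hb : b ∈ X ∨ b = p ∨ b = q) :
    N (Equiv.swap p q a) (Equiv.swap p q b) = M a b := by
  obtain ⟨-, -, hp, hq, -, h6, h7⟩ := ht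
  have fix : ∀ z ∈ X, Equiv.swap p q z = z := fun z hz =>
    Equiv.swap_apply_of_ne_of_ne (fun e => hp (e ▸ hz)) (fun e => hq (e ▸ hz))
  have hpq : N p q = M p q := h7 p q (fun h => hp h.1) (fun h => hq h.1)
  rcases ha with ha | rfl | rfl <;> rcases hb with hb | rfl | rfl
  · rw [fix a ha, fix b hb]
    refine h7 a b ?_ ?_
    · rintro ⟨-, rfl | rfl⟩
      exacts [hp hb, hq hb]
    · rintro ⟨-, rfl | rfl⟩
      exacts [hp ha, hq ha]
  · rw [fix a ha, Equiv.swap_apply_left]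
    exact (h6 a ha).2
  · rw [fix a ha, Equiv.swap_apply_right]
    exact (h6 a ha).1
  · rw [fix b hb, Equiv.swap_apply_left, N.symmetric, M.symmetric]
    exact (h6 b hb).2
  · rw [N.diagonal, M.diagonal]
  · rw [Equiv.swap_apply_left, Equiv.swap_apply_right, N.symmetric, hpq]
  · rw [fix b hb, Equiv.swap_apply_right, N.symmetric, M.symmetric]
    exact (h6 b hb).1
  · rw [Equiv.swap_apply_left, Equiv.swap_apply_right, hpq, M.symmetric]
  · rw [N.diagonal, M.diagonal]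

open Classical in
theorem SL_edge {X : Set S} {M N : CoxeterMatrix S} {E : S → S → S' → S' → Prop} {p q : S}
    (hm : Match M M' V E) (ht : TwistAt M N p q X) {a b : S} {a' b' : S'}
    (ha : a ∈ X ∨ a = p ∨ a = q) (hb : b ∈ X ∨ b = p ∨ b = q) (he : E a b a' b') :
    twE E p q X (Equiv.swap p q a) (Equiv.swap p q b) a' b' := by
  obtain ⟨-, ho, hp, hq, -, -, -⟩ := ht
  have fix : ∀ z ∈ X, Equiv.swap p q z = z := fun z hz =>
    Equiv.swap_apply_of_ne_of_ne (fun e => hp (e ▸ hz)) (fun e => hq (e ▸ hz))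
  unfold twE
  split_ifs with h
  · rwa [Equiv.swap_apply_self, Equiv.swap_apply_self]
  · have hne : a ≠ b := (hm.1.edge _ _ _ _ he).1.1
    rcases ha with ha | rfl | rfl
    · exact absurd (Or.inl (by rwa [fix a ha])) h
    · rcases hb with hb | rfl | rfl
      · exact absurd (Or.inr (by rwa [fix b hb])) h
      · exact absurd rfl hne
      · rw [Equiv.swap_apply_left, Equiv.swap_apply_right]
        exact hm.1.symm _ _ _ _ (hm.1.odd _ _ _ _ he ho)
    · rcases hb with hb | rfl | rfl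
      · exact absurd (Or.inr (by rwa [fix b hb])) h
      · rw [Equiv.swap_apply_left, Equiv.swap_apply_right]
        exact hm.1.symm _ _ _ _ (hm.1.odd _ _ _ _ he (by rwa [M.symmetric]))
      · exact absurd rfl hne

theorem SL_end {M : CoxeterMatrix S} {W : Set S} {p c : S} (h : OC M W p c) (hp : p ∈ W) :
    c ∈ W := by
  induction h with
  | refl => exact hp
  | tail _ h _ => exact h.2.1

theorem SL_lift {M N : CoxeterMatrix S} {W W1 : Set S} (τ : S → S) (h1 : ∀ u ∈ W, τ u ∈ W1)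
    (h2 : ∀ u ∈ W, ∀ v ∈ W, N (τ u) (τ v) = M u v) {p c : S} (h : OC M W p c) :
    OC N W1 (τ p) (τ c) := by
  induction h with
  | refl => exact Relation.ReflTransGen.refl
  | @tail b c _ h ih =>
    refine ih.tail ⟨h1 b h.1, h1 c h.2.1, fun e => ?_, by rw [h2 b h.1 c h.2.1]; exact h.2.2.2⟩
    have := h2 b h.1 c h.2.1
    rw [e, N.diagonal] at this
    exact M.off_diagonal b c h.2.2.1 this.symm

/-- stage 0: the point of attachment moves along a path in `A` -/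
theorem SL_stage0 (h1 : St_TWM) {A Z : Set S} {M0 : CoxeterMatrix S} {p p0 : S} {a' b' : S'}
    (hp : OC M0 A p p0) : ∀ (M : CoxeterMatrix S) (E : S → S → S' → S' → Prop) (c y : S),
      (∀ u ∈ A, ∀ v ∈ A, M u v = M0 u v) → NoSph M → Match M M' V E → Hang M A Z p0 →
      OC M (insert p0 Z) p0 c → y ∈ insert p0 Z → E c y a' b' →
      ∃ N E1 c1 y1, SL_Res M' V Z M E N E1 ∧ Hang N A Z p ∧ OC N (insert p Z) p c1 ∧
        y1 ∈ insert p Z ∧ E1 c1 y1 a' b' := by
  classical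
  induction hp with
  | refl => exact fun M E c y _ a2 a3 a4 a5 a6 a7 => ⟨M, E, c, y, SL_refl a2 a3, a4, a5, a6, a7⟩
  | @tail q p0 _ h ih =>
    intro M E c y a1 a2 a3 a4 a5 a6 a7
    obtain ⟨hq, hp0, hne, ho⟩ := h
    have np : p0 ∉ Z := fun e => a4.2.1 _ e hp0
    have nq : q ∉ Z := fun e => a4.2.1 _ e hq
    obtain ⟨N, ht⟩ := (h1 S S' M M' p0 q Z).1 hne.symm
      (by rw [M.symmetric, a1 q hq p0 hp0]; exact ho) np nq
      (fun z hz u hu h3 _ => a4.2.2 z hz u hu h3)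
    have hr := SL_step h1 a2 a3 ht (Set.Subset.refl Z)
    have hw : ∀ u ∈ insert p0 Z, u ∈ Z ∨ u = p0 ∨ u = q := by
      rintro u (h | h)
      exacts [Or.inr (Or.inl h), Or.inl h]
    have hmap : ∀ u ∈ insert p0 Z, Equiv.swap p0 q u ∈ insert q Z := by
      rintro u (rfl | h)
      · simp
      · rw [Equiv.swap_apply_of_ne_of_ne (ne_of_mem_of_not_mem h np) (ne_of_mem_of_not_mem h nq)]
        exact Or.inr h
    have hang : Hang N A Z q := by
      refine ⟨hq, a4.2.1, fun z hz u hu h3 => ?_⟩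
      by_cases e : u = p0
      · rw [e, (ht.2.2.2.2.2.1 z hz).1]
        exact a4.2.2 z hz q nq hne
      · rw [ht.2.2.2.2.2.2 z u (fun h => h.2.elim e h3) (fun h => hu h.1)]
        exact a4.2.2 z hz u hu e
    have hoc := SL_lift (Equiv.swap p0 q) hmap (fun u hu v hv => SL_lab ht (hw u hu) (hw v hv)) a5
    rw [Equiv.swap_apply_left] at hoc
    obtain ⟨L, E2, c1, y1, b1, b2⟩ := ih N (twE E p0 q Z) _ _
      (fun u hu v hv => by
        rw [(hr.2.2.2 u v (fun e => a4.2.1 _ e hu) (fun e => a4.2.1 _ e hv)).1, a1 u hu v hv])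
      hr.2.1 hr.2.2.1 hang hoc (hmap y a6)
      (SL_edge a3 ht (hw c (SL_end a5 (Or.inl rfl))) (hw y a6) a7)
    exact ⟨L, E2, c1, y1, SL_trans hr b1, b2⟩

/-- stage 1: the end of the path is pulled back to the point of attachment -/
theorem SL_stage1 (h1 : St_TWM) {A Z : Set S} {M0 : CoxeterMatrix S} {p q c y : S} {a' b' : S'}
    (hc : c ∈ insert p Z) (hy : y ∈ insert p Z) (hp : OC M0 (insert p Z) q c) :
    ∀ (M : CoxeterMatrix S) (E : S → S → S' → S' → Prop) (τ : S → S),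
      (∀ u ∈ insert p Z, τ u ∈ insert p Z) →
      (∀ u ∈ insert p Z, ∀ v ∈ insert p Z, M (τ u) (τ v) = M0 u v) → τ q = p → NoSph M →
      Match M M' V E → Hang M A Z p → E (τ c) (τ y) a' b' →
      ∃ N E1 y1, SL_Res M' V Z M E N E1 ∧ Hang N A Z p ∧ y1 ∈ Z ∧ E1 p y1 a' b' := by
  classical
  induction hp using Relation.ReflTransGen.head_induction_on with
  | refl =>
    intro M E τ a1 _ a3 a4 a5 a6 a7
    rw [a3] at a7
    refine ⟨M, E, τ y, SL_refl a4 a5, a6, ?_, a7⟩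
    rcases a1 y hy with h | h
    · exact absurd h.symm (a5.1.edge _ _ _ _ a7).1.1
    · exact h
  | @head q q1 h _ ih =>
    intro M E τ a1 a2 a3 a4 a5 a6 a7
    obtain ⟨hq, hq1, hne, ho⟩ := h
    have np : p ∉ Z := fun e => a6.2.1 _ e a6.1
    have hl : M p (τ q1) = M0 q q1 := by rw [← a2 q hq q1 hq1, a3]
    have hne1 : p ≠ τ q1 := by
      intro e
      rw [← e, M.diagonal] at hl
      exact M0.off_diagonal q q1 hne hl.symm
    have hz1 : τ q1 ∈ Z := (a1 q1 hq1).resolve_left hne1.symm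
    have np' : p ∉ Z \ {τ q1} := fun e => np e.1
    have nq' : τ q1 ∉ Z \ {τ q1} := fun e => e.2 rfl
    obtain ⟨N, ht⟩ := (h1 S S' M M' p (τ q1) (Z \ {τ q1})).1 hne1 (by rw [hl]; exact ho) np' nq'
      (fun z hz u hu h3 h4 => a6.2.2 z hz.1 u (fun e => hu ⟨e, h4⟩) h3)
    have hr := SL_step h1 a4 a5 ht (Set.sdiff_subset : Z \ {τ q1} ⊆ Z)
    have hw : ∀ u, u ∈ insert p Z ↔ u ∈ Z \ {τ q1} ∨ u = p ∨ u = τ q1 := by
      intro u
      constructor
      · rintro (h | h)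
        · exact Or.inr (Or.inl h)
        · by_cases e : u = τ q1
          exacts [Or.inr (Or.inr e), Or.inl ⟨h, e⟩]
      · rintro (h | h | h)
        exacts [Or.inr h.1, Or.inl h, Or.inr (h ▸ hz1)]
    have hang : Hang N A Z p := by
      refine ⟨a6.1, a6.2.1, fun z hz u hu h3 => ?_⟩
      rw [ht.2.2.2.2.2.2 z u (fun h => h.2.elim h3 fun e => hu (e ▸ hz1)) (fun h => hu h.1.1)]
      exact a6.2.2 z hz u hu h3
    obtain ⟨L, E2, y1, b1, b2⟩ := ih N (twE E p (τ q1) (Z \ {τ q1}))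
      (fun u => Equiv.swap p (τ q1) (τ u))
      (fun u hu => (hw _).2 (SL_swap_mem ((hw _).1 (a1 u hu)) np' nq'))
      (fun u hu v hv => by
        rw [SL_lab ht ((hw _).1 (a1 u hu)) ((hw _).1 (a1 v hv)), a2 u hu v hv])
      (Equiv.swap_apply_right _ _) hr.2.1 hr.2.2.1 hang
      (SL_edge a5 ht ((hw _).1 (a1 c hc)) ((hw _).1 (a1 y hy)) a7)
    exact ⟨L, E2, y1, SL_trans hr b1, b2⟩

end

theorem SL_thm (h1 : St_TWM) : St_SL := by
  intro S S' M M' V E A Z p0 p c y a' b' hn hm hh hp hc hy he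
  obtain ⟨N, E1, c1, y1, r1, g1, g2, g3, g4⟩ :=
    SL_stage0 h1 hp M E c y (fun _ _ _ _ => rfl) hn hm hh hc hy he
  obtain ⟨L, E2, y2, r2, k1, k2, k3⟩ := SL_stage1 h1 (SL_end g2 (Or.inl rfl)) g3 g2 N E1 id
    (fun _ h => h) (fun _ _ _ _ => rfl) rfl r1.2.1 r1.2.2.1 g1 g4
  have r := SL_trans r1 r2
  exact ⟨L, E2, y2, r.1, r.2.1, r.2.2.1, k1, k2, k3, r.2.2.2⟩

end Pool.Agent.Lib.MP_1b8ce0_al.T
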