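import Mathlib
import Pool.Agent.Lib.MP_1b8ce0_al.T.StsC

set_option linter.unusedSectionVars false
set_option linter.dupNamespace false

namespace Pool.Agent.Lib.MP_1b8ce0_al.T

open Pool.Agent.Lib.MP_6d85b4_al

section Grp

variable {G : Type} [Group G]

theorem THIN_fin_cj (c : G) {K : Subgroup G} (h : Finite K) : Finite (cj c K) :=
  Finite.of_injective (fun g : cj c K => (⟨c⁻¹ * g * c, g.2⟩ : K)) fun g g' e => by
    have := congrArg Subtype.val e
    exact Subtype.ext (by simpa using this)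

theorem THIN_chi (χ : G →* ℤˣ) (c g : G) : χ (c⁻¹ * g * c) = χ g := by
  rw [map_mul, map_mul, mul_right_comm, ← map_mul, inv_mul_cancel, map_one, one_mul]

/-- a cyclic group has at most one involution -/
theorem THIN_invol (c : G) {a b : G} (ha : a ∈ Subgroup.zpowers c) (hb : b ∈ Subgroup.zpowers c)
    (a2 : a * a = 1) (b2 : b * b = 1) (a1 : a ≠ 1) (b1 : b ≠ 1) : a = b := by
  have key : ∀ i : ℤ, c ^ i * c ^ i = 1 → c ^ i ≠ 1 →
      ∃ e : ℤ, 2 * i = orderOf c * (2 * e + 1) := fun i h2 h1 => by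
    rw [← zpow_add, ← orderOf_dvd_iff_zpow_eq_one] at h2
    obtain ⟨p, hp⟩ := h2
    obtain ⟨e, he | he⟩ := Int.even_or_odd' p
    · refine absurd (orderOf_dvd_iff_zpow_eq_one.1 ⟨e, ?_⟩) h1
      rw [he] at hp
      linarith
    · exact ⟨e, by rw [← he]; linarith⟩
  obtain ⟨i, rfl⟩ := ha
  obtain ⟨j, rfl⟩ := hb
  obtain ⟨e, he⟩ := key i a2 a1
  obtain ⟨e', he'⟩ := key j b2 b1
  have : c ^ (i - j) = 1 := orderOf_dvd_iff_zpow_eq_one.1 ⟨e - e', by linarith⟩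
  rw [zpow_sub] at this
  exact mul_inv_eq_one.1 this

theorem THIN_cyc {S : Type} (x : S → G) {A : Set S} (h : A.Subsingleton) :
    ∃ c, gp x A ≤ Subgroup.zpowers c := by
  rcases h.eq_empty_or_singleton with rfl | ⟨s, rfl⟩
  · exact ⟨1, gp_le.2 fun s hs => hs.elim⟩
  · exact ⟨x s, gp_le.2 fun t ht => ht ▸ Subgroup.mem_zpowers _⟩

theorem THIN_invol_cj {S : Type} (x : S → G) {A : Set S} (hA : A.Subsingleton) {h a b : G}
    (ha : a ∈ cj h (gp x A)) (hb : b ∈ cj h (gp x A)) (a2 : a * a = 1) (b2 : b * b = 1)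
    (a1 : a ≠ 1) (b1 : b ≠ 1) : a = b := by
  obtain ⟨c, hc⟩ := THIN_cyc x hA
  have sq : ∀ y : G, y * y = 1 → h⁻¹ * y * h * (h⁻¹ * y * h) = 1 := fun y e => by
    have : h⁻¹ * y * h * (h⁻¹ * y * h) = h⁻¹ * (y * y) * h := by group
    rw [this, e, mul_one, inv_mul_cancel]
  have ne : ∀ y : G, y ≠ 1 → h⁻¹ * y * h ≠ 1 := fun y e e' => e (by
    have : y = h * (h⁻¹ * y * h) * h⁻¹ := by group
    rw [this, e', mul_one, mul_inv_cancel])
  simpa using THIN_invol c (hc ha) (hc hb) (sq a a2) (sq b b2) (ne a a1) (ne b b1)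

theorem THIN_comm {S : Type} (x : S → G) {A : Set S}
    (hA : ∀ s ∈ A, ∀ t ∈ A, Commute (x s) (x t)) {h a b : G} (ha : a ∈ cj h (gp x A))
    (hb : b ∈ cj h (gp x A)) : Commute a b := by
  have k1 : ∀ s ∈ A, gp x A ≤ Subgroup.centralizer {x s} := fun s hs =>
    gp_le.2 fun t ht => Subgroup.mem_centralizer_singleton_iff.2 (hA t ht s hs)
  have k2 : gp x A ≤ Subgroup.centralizer {h⁻¹ * b * h} :=
    gp_le.2 fun s hs => Subgroup.mem_centralizer_singleton_iff.2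
      (Subgroup.mem_centralizer_singleton_iff.1 (k1 s hs hb)).symm
  have k3 : Commute (h⁻¹ * a * h) (h⁻¹ * b * h) := Subgroup.mem_centralizer_singleton_iff.1 (k2 ha)
  simpa [mul_assoc] using k3.map (MulAut.conj h)

theorem THIN_JE_symm {A1 A2 : Subgroup G} {g g' : G} (h : JE A1 A2 g g') : JE A1 A2 g' g := by
  obtain ⟨c, h | h⟩ := h
  · exact ⟨c, Or.inl h.symm⟩
  · exact ⟨c, Or.inr h.symm⟩

end Grp

variable {S G : Type} [Group G] {M : CoxeterMatrix S} {R : Set S} {x : S → G}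

theorem THIN_sub (rg : RG M) (dp : DP M R x) (hl : Low M R) {T : Set S} (hT : Rigid M T) :
    T ⊆ R := fun t ht => by
  by_contra hn
  obtain ⟨u, -, v, -, huv, au, av⟩ := rg.deg T t hT ht
  exact huv (hl t hn u v ((dp.fl t hn u au.1.symm).resolve_left au.2)
    ((dp.fl t hn v av.1.symm).resolve_left av.2))

/-- a rigid family of involutions lies in one vertex group if the edge group is cyclic -/
theorem THIN_vertex [Finite S] (dp : DP M R x) (P : DPar M R x) {T : Set S} (hT : Rigid M T)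
    (hR : T ⊆ R) {S' : Type} (x' : S' → G) {A : Set S'} (hA : A.Subsingleton)
    {A1 A2 : Subgroup G} (t1 : TT1 A1 A2 (gp x' A)) (t2 : TT2 A1 A2 (gp x' A)) :
    ∃ h, (∀ t ∈ T, x t ∈ cj h A1) ∨ ∀ t ∈ T, x t ∈ cj h A2 := by
  have sq : ∀ t ∈ T, x t * x t = 1 := fun t ht => dp.dy.sqr t (hR ht)
  have ne : ∀ t, x t ≠ 1 := fun t e => (P.mem t ∅).1 (e ▸ Subgroup.one_mem _)
  have el : ∀ t ∈ T, Ell A1 A2 (x t) := fun t ht =>
    t1.tors _ (isOfFinOrder_iff_pow_eq_one.2 ⟨2, by norm_num, by rw [pow_two, sq t ht]⟩)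
  have je : ∀ s ∈ T, ∀ t ∈ T, JE A1 A2 (x s) (x t) := fun s hs t ht => by
    by_contra hn
    obtain ⟨h, sd, n1, n2, p1, p2, pp⟩ := t2.side _ _ (el s hs) (el t ht) hn
    have hJ : ∀ u ∈ {u | u ∈ T ∧ x u ∈ cj h (gp x' A)},
        ∀ v ∈ {u | u ∈ T ∧ x u ∈ cj h (gp x' A)}, u = v := fun u hu v hv =>
      (P.mem u {v}).1 (by
        rw [THIN_invol_cj x' hA hu.2 hv.2 (sq u hu.1) (sq v hv.1) (ne u) (ne v)]
        exact gp_mem x rfl)
    have hc := hT.2 _ ⟨fun u hu v hv => by rw [hJ u hu v hv, M.diagonal]; exact one_ne_zero,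
      fun u hu v hv _ _ => Or.inl (hJ u hu v hv)⟩ s ⟨hs, fun h => n1 h.2⟩ t ⟨ht, fun h => n2 h.2⟩
    refine p2 ?_
    clear p2 n2 hn ht
    induction hc with
    | refl => exact p1
    | @tail u v _ huv ih =>
      obtain ⟨hu, hv, a⟩ := huv
      refine (pp _ _ (fun h => hu.2 ⟨hu.1, h⟩) (fun h => hv.2 ⟨hv.1, h⟩) ?_).1 ih
      refine t1.serre _ _ (el u hu.1) (el v hv.1) (t1.tors _ ?_)
      rw [← orderOf_ne_zero_iff, P.ord u (hR hu.1) v (hR hv.1)]
      exact a.2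
  obtain ⟨h, hh⟩ := t2.helly (x '' T) (T.toFinite.image x) (by
    rintro _ ⟨s, hs, rfl⟩ _ ⟨t, ht, rfl⟩
    exact je s hs t ht)
  exact ⟨h, hh.imp (fun e t ht => e _ ⟨t, ht, rfl⟩) fun e t ht => e _ ⟨t, ht, rfl⟩⟩

theorem THIN_ncomm (dp : DP M R x) (P : DPar M R x) {T : Set S} (hT : Rigid M T) :
    ¬ ∀ s ∈ T, ∀ t ∈ T, Commute (x s) (x t) := fun h => by
  obtain ⟨s, hs, t, ht, u, hu, a, b, c⟩ := hT.1
  have two : ∀ p ∈ T, ∀ q ∈ T, p ≠ q → M p q = 2 := fun p hp q hq e => by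
    by_contra n
    exact P.ncomm p q e n (h p hp q hq)
  have := dp.ns s t u a b c
  rw [two s hs t ht a, two t ht u hu b, two s hs u hu c] at this
  norm_num at this

theorem THIN_inter (dp : DP M R x) (P : DPar M R x) {ι : Type} (U : ι → Set S) (r : G)
    (F : Finset ι) (h : ∀ y ∈ F, r ∈ gp x (U y)) : r ∈ gp x {u | ∀ y ∈ F, u ∈ U y} := by
  classical
  induction F using Finset.induction_on with
  | empty =>
    have : {u | ∀ y ∈ (∅ : Finset ι), u ∈ U y} = Set.univ := by simp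
    rw [this, dp.dy.top]
    trivial
  | insert a F _ ih =>
    have h1 : r ∈ gp x (U a) ⊓ gp x {u | ∀ y ∈ F, u ∈ U y} :=
      ⟨h a (by simp), ih fun y hy => h y (by simp [hy])⟩
    rw [P.inter] at h1
    refine gp_mono x ?_ h1
    intro u hu y hy
    rcases Finset.mem_insert.1 hy with rfl | hy
    · exact hu.1
    · exact hu.2 y hy

theorem THIN_out {T : Set S} {y u : S} (hy : y ∉ T) (h : Conn M Tᶜ y u) : u ∉ T := by
  induction h with
  | refl => exact hy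
  | tail _ h _ => exact h.2.1

theorem THIN_last [Fintype S] [DecidableEq S] (h2 : St_TT) (rg : RG M) (dp : DP M R x)
    (P : DPar M R x) {T : Set S} (hT : MaxRigid M T) (hR : T ⊆ R) (r : G) (hr : IsOfFinOrder r)
    (hn : r ∉ gp x T) : ∃ K : Subgroup G, Finite K ∧
      ∀ g ∈ gp x T, IsOfFinOrder g → IsOfFinOrder (r * g) → g ∈ K := by
  classical
  obtain ⟨y, hy, ry⟩ : ∃ y, y ∉ T ∧ r ∉ gp x {u | Conn M Tᶜ y u}ᶜ := by
    by_contra h
    push Not at h
    refine hn (gp_mono x (fun u hu => ?_) (THIN_inter dp P (fun y => {u | Conn M Tᶜ y u}ᶜ) r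
      (Finset.univ.filter fun y => y ∉ T) fun y hy => h y (Finset.mem_filter.1 hy).2))
    by_contra hu'
    exact hu u (Finset.mem_filter.2 ⟨Finset.mem_univ _, hu'⟩) Relation.ReflTransGen.refl
  obtain ⟨t1, t2⟩ := h2 S G M R x {u | Conn M Tᶜ y u}ᶜ ({u | Conn M Tᶜ y u} ∪ Att M T y) dp.dy
    (by rw [← Set.union_assoc, Set.compl_union_self, Set.univ_union]) (fun s t hs ht => by
      have ht' : Conn M Tᶜ y t := not_not.1 ht
      by_contra h0
      have a : Adj M t s := ⟨fun e => hs (Or.inl (e ▸ ht')), by rwa [M.symmetric]⟩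
      by_cases hsT : s ∈ T
      · exact hs (Or.inr ⟨hsT, t, ht', a⟩)
      · exact hs (Or.inl (ht'.tail ⟨THIN_out hy ht', hsT, a⟩)))
  obtain ⟨h, -, hh⟩ := t2.at1 r (t1.tors r hr) ry
  have f1 : Finite (gp x (Att M T y)) :=
    (P.fin _).2 ⟨rg.closed dp.ns T hT y hy, fun p hp => hR hp.1⟩
  have le : gp x ({u | Conn M Tᶜ y u}ᶜ ∩ ({u | Conn M Tᶜ y u} ∪ Att M T y)) ≤ gp x (Att M T y) :=
    gp_mono x fun u hu => hu.2.resolve_left hu.1
  refine ⟨_, THIN_fin_cj h f1, fun g hg fg frg => cj_mono h le (hh g ?_ ?_)⟩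
  · exact gp_mono x (fun u hu e => THIN_out hy e hu) hg
  · exact THIN_JE_symm (t1.serre _ _ (t1.tors r hr) (t1.tors g fg) (t1.tors _ frg))

theorem THIN_thm (h1 : St_D1) (h2 : St_TT) (h3 : St_RESTR) (h4 : St_DPAR) (h5 : St_FREE)
    (h6 : St_RG) : St_THIN := by
  intro D S S' _ _ _ _ _ M R x M' R' x' dp dp' _ hl hl' T hT
  have rg := h6 S M
  have P := h4 S D M R x dp
  have P' := h4 S' D M' R' x' dp'
  have d1 := h1.2 S' D M' R' x' dp'.dy
  have hR := THIN_sub rg dp hl hT.1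
  refine ⟨hR, ?_, THIN_last h2 rg dp P hT hR⟩
  obtain ⟨d, T0, -, hd, hm⟩ := P'.pcl (gp x T) 1 Set.univ (by rw [cj_one, dp'.dy.top]; exact le_top)
  refine ⟨d, hd.trans (cj_mono d (gp_mono x' fun f hf => ?_))⟩
  by_contra hn
  obtain ⟨t1, t2⟩ := h2 S' D M' R' x' {f}ᶜ (insert f (lk M' f)) dp'.dy
    (Set.eq_univ_of_forall fun u => by by_cases e : u = f <;> simp [e]) (fun s t hs ht => by
      have e : t = f := not_not.1 ht
      rw [e, M'.symmetric]
      exact (dp'.fl f hn s fun e' => hs (Or.inl e')).resolve_right fun e' => hs (Or.inr e'))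
  obtain ⟨h, hh | hh⟩ := THIN_vertex dp P hT.1 hR x' (fun a ha b hb =>
    hl' f hn a b (ha.2.resolve_left ha.1) (hb.2.resolve_left hb.1)) t1 t2
  · obtain ⟨χ, c1, c2⟩ := d1.chc f
    have k : gp x' {f}ᶜ ≤ χ.ker := gp_le.2 fun s hs => c2 s fun oc => by
      rcases oc.cases_head with e | ⟨u, ⟨a, b⟩, -⟩
      · exact hs e.symm
      · rcases dp'.fl f hn u a.symm with e | e <;> rw [e] at b <;> exact absurd b (by decide)
    have e1 : χ (h⁻¹ * (d * x' f * d⁻¹) * h) = 1 :=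
      k (hm h _ (gp_le.2 hh) (conj_mem_cj.2 (gp_mem x' hf)))
    have e2 := THIN_chi χ d⁻¹ (x' f)
    rw [inv_inv] at e2
    rw [THIN_chi, e2, c1 f Relation.ReflTransGen.refl] at e1
    exact absurd e1 (by decide)
  · refine THIN_ncomm dp P hT.1 fun s hs t ht => THIN_comm x' ?_ (hh s hs) (hh t ht)
    rintro a (rfl | ha) b (rfl | hb)
    · exact Commute.refl _
    · exact d1.two _ _ hb
    · exact (d1.two _ _ ha).symm
    · rw [hl' f hn a b ha hb]

end Pool.Agent.Lib.MP_1b8ce0_al.T
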