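import Mathlib
import Pool.Agent.Lib.MP_1b8ce0_al.T.StsA
import Pool.Agent.Lib.MP_1d6a3f_al.BassSerre

/-! The Bass-Serre tree of a visual splitting. -/

set_option linter.unusedSectionVars false
set_option linter.dupNamespace false

namespace Pool.Agent.Lib.MP_1b8ce0_al.T

open Pool.Agent.Lib.MP_6d85b4_al Pool.Agent.Lib.MP_1d6a3f_al Pool.Agent.Shared.GroupTree

/-- a derivation which vanishes on `A1` and is principal on `A2` gives the tree -/
theorem TREE_of_der {G : Type} [Group G] (A1 A2 C : Subgroup G) (h1 : C ≤ A1) (h2 : C ≤ A2)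
    (hgen : Subgroup.closure ((A1 : Set G) ∪ A2) = ⊤) (D : G → G ⧸ C → ℤ)
    (hD : ∀ g k y, D (g * k) y = D g y + D k (g⁻¹ • y)) (hD1 : ∀ a ∈ A1, ∀ y, D a y = 0)
    (hD2 : ∀ a ∈ A2, ∀ y, D a y =
      Wr.δ (a • ((1 : G) : G ⧸ C)) y - Wr.δ ((1 : G) : G ⧸ C) y) : Split A1 A2 C := by
  classical
  set e0 : G ⧸ C := ((1 : G) : G ⧸ C) with he
  have he0 : ∀ g : G, g • e0 = (g : G ⧸ C) := fun g => by
    simp only [e0, MulAction.Quotient.smul_mk, smul_eq_mul, mul_one]
  let V := (G ⧸ A1) ⊕ (G ⧸ A2)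
  let τ : V := Sum.inl ((1 : G) : G ⧸ A1)
  let o : V := Sum.inr ((1 : G) : G ⧸ A2)
  have hτ : ∀ g : G, g • τ = Sum.inl (g : G ⧸ A1) := fun g => by
    simp only [τ, V, Sum.smul_inl, MulAction.Quotient.smul_mk, smul_eq_mul, mul_one]
  have ho : ∀ g : G, g • o = Sum.inr (g : G ⧸ A2) := fun g => by
    simp only [o, V, Sum.smul_inr, MulAction.Quotient.smul_mk, smul_eq_mul, mul_one]
  have hfixτ : ∀ g : G, g • τ = τ ↔ g ∈ A1 := by
    intro g
    rw [hτ]
    refine Sum.inl_injective.eq_iff.trans (QuotientGroup.eq.trans ?_)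
    rw [mul_one, inv_mem_iff]
  have hfixo : ∀ g : G, g • o = o ↔ g ∈ A2 := by
    intro g
    rw [ho]
    refine Sum.inr_injective.eq_iff.trans (QuotientGroup.eq.trans ?_)
    rw [mul_one, inv_mem_iff]
  let σ0 : G ⧸ A1 → G ⧸ C → ℤ := Quotient.lift D (by
    intro g k hgk
    have h3 : g⁻¹ * k ∈ A1 := QuotientGroup.leftRel_apply.1 hgk
    have e1 : k = g * (g⁻¹ * k) := by group
    funext y
    rw [e1, hD, hD1 _ h3, add_zero])
  let σ1 : G ⧸ A2 → G ⧸ C → ℤ :=
    Quotient.lift (fun g y => D g y - Wr.δ (g • e0) y) (by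
      intro g k hgk
      have h3 : g⁻¹ * k ∈ A2 := QuotientGroup.leftRel_apply.1 hgk
      obtain ⟨a, ha, rfl⟩ : ∃ a ∈ A2, k = g * a := ⟨_, h3, by group⟩
      funext y
      rw [hD, hD2 _ ha, Wr.δ_smul, Wr.δ_smul, mul_smul]
      ring)
  let d : SideData C o τ :=
    { σ := Sum.elim σ0 σ1
      fix_o := fun c hc => (hfixo _).2 (h2 hc)
      fix_τ := fun c hc => (hfixτ _).2 (h1 hc)
      jump := by
        intro g y
        rw [hτ, ho]
        change D g y - (D g y - Wr.δ (g • e0) y) = _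
        rw [he0]
        simp [Wr.δ] }
  have hall : ∀ v : V, ∃ g : G, v = g • o ∨ v = g • τ := by
    intro v
    rcases v with v | v
    · induction v using QuotientGroup.induction_on with
      | H g => exact ⟨g, Or.inr (hτ g).symm⟩
    · induction v using QuotientGroup.induction_on with
      | H g => exact ⟨g, Or.inl (ho g).symm⟩
  have hreach : ∀ g : G, (orbitGraph G o τ).Reachable o (g • o) := by
    intro g
    have hg : g ∈ Subgroup.closure ((A1 : Set G) ∪ A2) := hgen ▸ Subgroup.mem_top g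
    induction hg using Subgroup.closure_induction with
    | mem a ha =>
      rcases ha with ha | ha
      · have h3 := d.adj a
        rw [(hfixτ _).2 ha] at h3
        exact d.adj₀.reachable.trans h3.symm.reachable
      · rw [(hfixo _).2 ha]
    | one => rw [one_smul]
    | mul a b _ _ ha hb => exact reach_mul _ _ ha hb
    | inv a _ ha => exact reach_inv _ _ ha
  have hconn : ∀ v, (orbitGraph G o τ).Reachable o v := by
    intro v
    obtain ⟨g, rfl | rfl⟩ := hall v
    · exact hreach g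
    · exact (hreach g).trans (d.adj g).reachable
  refine ⟨{ V := V
            T := orbitGraph G o τ
            gt := ⟨⟨(SimpleGraph.connected_iff_exists_forall_reachable _).2 ⟨o, hconn⟩, d.acyclic⟩,
              fun g u w h => orbitGraph_adj_smul o τ g u w h, ?_⟩
            v1 := τ
            v2 := o
            adj := d.adj₀.symm
            st1 := hfixτ
            st2 := hfixo
            stC := fun g => ⟨fun h => ⟨h1 h, h2 h⟩, fun h => ?_⟩
            edge := fun u w h => ?_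
            ne := fun g e => ?_ }⟩
  · intro g u w h e1 e2
    obtain ⟨k, hk⟩ := adj_cases' h
    rcases hk with ⟨rfl, rfl⟩ | ⟨rfl, rfl⟩
    · exact d.no_swap k (g * k) (by rw [mul_smul, e1]) (by rw [mul_smul, e2])
    · exact d.no_swap k (g * k) (by rw [mul_smul, e2]) (by rw [mul_smul, e1])
  · have h3 := hD2 g h.2 e0
    rw [hD1 g h.1] at h3
    have h4 : e0 = g • e0 := by
      by_contra c
      simp [Wr.δ, c] at h3
    rw [he0] at h4
    simpa using QuotientGroup.eq.1 h4
  · obtain ⟨k, hk⟩ := adj_cases' h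
    rcases hk with ⟨rfl, rfl⟩ | ⟨rfl, rfl⟩
    · exact ⟨k, Or.inr ⟨rfl, rfl⟩⟩
    · exact ⟨k, Or.inl ⟨rfl, rfl⟩⟩
  · rw [hτ] at e
    exact Sum.inl_ne_inr e

theorem TREE_thm (_h1 : St_D1) : St_TREE := by
  intro S G _ M R x S1 S2 hx hU hM
  classical
  set C := gp x (S1 ∩ S2) with hC
  let e0 : G ⧸ C := ((1 : G) : G ⧸ C)
  let P : ℤ → G →* Wr G (G ⧸ C) := fun ε => Wr.principal (MonoidHom.id G) ε e0
  have hor : ∀ s, s ∈ S1 ∨ s ∈ S2 := fun s => (hU ▸ Set.mem_univ s : s ∈ S1 ∪ S2)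
  let f : S → Wr G (G ⧸ C) := fun s => if s ∈ S1 then P 0 (x s) else P 1 (x s)
  have f1 : ∀ s ∈ S1, f s = P 0 (x s) := fun s hs => if_pos hs
  have f2 : ∀ s ∈ S2, f s = P 1 (x s) := fun s hs => by
    by_cases c : s ∈ S1
    · rw [f1 s c]
      have : x s • e0 = e0 := by
        simp only [e0, MulAction.Quotient.smul_mk, smul_eq_mul, mul_one]
        refine QuotientGroup.eq.2 ?_
        rw [mul_one, inv_mem_iff]
        exact Subgroup.subset_closure ⟨s, ⟨c, hs⟩, rfl⟩
      ext y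
      · simp [P, Wr.principal, this]
      · rfl
    · exact if_neg c
  obtain ⟨φ, hφ⟩ := hx.lift _ f (fun s _ t _ hst hm => by
    have e := hx.braid s trivial t trivial hst hm
    by_cases c : s ∈ S2 ∧ t ∈ S2
    · rw [f2 s c.1, f2 t c.2, ← map_alt, ← map_alt, e]
    · have c1 : s ∈ S1 ∧ t ∈ S1 := by
        by_cases c2 : s ∈ S2
        · have c3 : t ∉ S2 := fun h => c ⟨c2, h⟩
          refine ⟨?_, (hor t).resolve_right c3⟩
          by_contra c4
          exact hm (by rw [M.symmetric, hM t s c3 c4])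
        · refine ⟨(hor s).resolve_right c2, ?_⟩
          by_contra c4
          exact hm (hM s t c2 c4)
      rw [f1 s c1.1, f1 t c1.2, ← map_alt, ← map_alt, e]) (fun s hs => by
    rcases hor s with c | c
    · rw [f1 s c, ← map_mul, hx.sqr s hs, map_one]
    · rw [f2 s c, ← map_mul, hx.sqr s hs, map_one])
  have g1 : ∀ g ∈ gp x S1, φ g = P 0 g := fun g hg =>
    MonoidHom.eqOn_closure (by
      rintro _ ⟨s, hs, rfl⟩
      rw [hφ, f1 s hs]) hg
  have g2 : ∀ g ∈ gp x S2, φ g = P 1 g := fun g hg =>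
    MonoidHom.eqOn_closure (by
      rintro _ ⟨s, hs, rfl⟩
      rw [hφ, f2 s hs]) hg
  have g0 : ∀ g, (φ g).g = g := fun g => by
    have hg : g ∈ gp x Set.univ := hx.top ▸ Subgroup.mem_top g
    refine MonoidHom.eqOn_closure (f := Wr.proj.comp φ) (g := MonoidHom.id G) ?_ hg
    rintro _ ⟨s, -, rfl⟩
    change (φ (x s)).g = x s
    rw [hφ]
    rcases hor s with c | c
    · rw [f1 s c]
      rfl
    · rw [f2 s c]
      rfl
  refine TREE_of_der _ _ _ (Subgroup.closure_mono (Set.image_mono Set.inter_subset_left))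
    (Subgroup.closure_mono (Set.image_mono Set.inter_subset_right)) ?_ (fun g => (φ g).f)
    (fun g k y => by rw [map_mul, Wr.mul_f, g0]) (fun a ha y => ?_) (fun a ha y => ?_)
  · rw [eq_top_iff, ← hx.top]
    refine Subgroup.closure_mono ?_
    rintro _ ⟨s, -, rfl⟩
    exact (hor s).imp (fun c => Subgroup.subset_closure ⟨s, c, rfl⟩)
      fun c => Subgroup.subset_closure ⟨s, c, rfl⟩
  · rw [g1 a ha]
    simp [P, Wr.principal]
  · rw [g2 a ha]
    simp [P, Wr.principal, e0]

end Pool.Agent.Lib.MP_1b8ce0_al.T
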