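import Mathlib
import Pool.Agent.Lib.MP_1b8ce0_al.T.StsA

/-! Algebraic form of the tree lemmas, first part. -/

set_option linter.unusedSectionVars false
set_option linter.dupNamespace false

namespace Pool.Agent.Lib.MP_1b8ce0_al.T

open Pool.Agent.Lib.MP_6d85b4_al Pool.Agent.Shared.GroupTree

section

variable {G V : Type} [Group G] [MulAction G V]

/-- the data of a splitting, unbundled -/
structure TT1_Hyp (A1 A2 C : Subgroup G) (T : SimpleGraph V) (v1 v2 : V) : Prop where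
  gt : GTree G T
  st1 : ∀ g : G, g • v1 = v1 ↔ g ∈ A1
  st2 : ∀ g : G, g • v2 = v2 ↔ g ∈ A2
  stC : ∀ g : G, g ∈ C ↔ g ∈ A1 ∧ g ∈ A2
  edge : ∀ u w, T.Adj u w → ∃ g : G, (u = g • v1 ∧ w = g • v2) ∨ (u = g • v2 ∧ w = g • v1)
  ne : ∀ g : G, g • v1 ≠ v2

theorem TT1_fix {A : Subgroup G} {v : V} (hs : ∀ g : G, g • v = v ↔ g ∈ A) (g h : G) :
    g • h • v = h • v ↔ g ∈ cj h A := by
  rw [mem_cj, ← hs, mul_smul, mul_smul, inv_smul_eq_iff]

variable {A1 A2 C : Subgroup G} {T : SimpleGraph V} {v1 v2 : V}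

theorem TT1_vert (H : TT1_Hyp A1 A2 C T v1 v2) (v : V) : ∃ h : G, v = h • v1 ∨ v = h • v2 := by
  by_cases e : v = v1
  · exact ⟨1, Or.inl (by rw [one_smul, e])⟩
  · obtain ⟨w, hw⟩ := exists_toward H.gt.tree e
    obtain ⟨g, hg | hg⟩ := H.edge v w hw.1
    · exact ⟨g, Or.inl hg.1⟩
    · exact ⟨g, Or.inr hg.1⟩

theorem TT1_ell (H : TT1_Hyp A1 A2 C T v1 v2) (g : G) : Ell A1 A2 g ↔ ∃ v : V, g • v = v := by
  constructor
  · rintro ⟨h, hh | hh⟩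
    · exact ⟨_, (TT1_fix H.st1 g h).2 hh⟩
    · exact ⟨_, (TT1_fix H.st2 g h).2 hh⟩
  · rintro ⟨v, hv⟩
    obtain ⟨h, rfl | rfl⟩ := TT1_vert H v
    · exact ⟨h, Or.inl ((TT1_fix H.st1 g h).1 hv)⟩
    · exact ⟨h, Or.inr ((TT1_fix H.st2 g h).1 hv)⟩

theorem TT1_je (H : TT1_Hyp A1 A2 C T v1 v2) {g g' : G} {v : V} (hv : g • v = v)
    (hv' : g' • v = v) : JE A1 A2 g g' := by
  obtain ⟨h, rfl | rfl⟩ := TT1_vert H v
  · exact ⟨h, Or.inl ⟨(TT1_fix H.st1 g h).1 hv, (TT1_fix H.st1 g' h).1 hv'⟩⟩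
  · exact ⟨h, Or.inr ⟨(TT1_fix H.st2 g h).1 hv, (TT1_fix H.st2 g' h).1 hv'⟩⟩

theorem TT1_edge (H : TT1_Hyp A1 A2 C T v1 v2) {u w : V} (huw : T.Adj u w) :
    ∃ h : G, ∀ g : G, g • u = u → g • w = w → g ∈ cj h C := by
  obtain ⟨h, ⟨rfl, rfl⟩ | ⟨rfl, rfl⟩⟩ := H.edge u w huw
  · exact ⟨h, fun g a b => (H.stC _).2 ⟨(TT1_fix H.st1 g h).1 a, (TT1_fix H.st2 g h).1 b⟩⟩
  · exact ⟨h, fun g a b => (H.stC _).2 ⟨(TT1_fix H.st1 g h).1 b, (TT1_fix H.st2 g h).1 a⟩⟩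

theorem TT1_two (H : TT1_Hyp A1 A2 C T v1 v2) {g : G} {x y : V} (hxy : x ≠ y) (hx : g • x = x)
    (hy : g • y = y) : ∃ k, g ∈ cj k C := by
  obtain ⟨w, hw, hf⟩ := H.gt.exists_edge hxy
  obtain ⟨h, hh⟩ := TT1_edge H hw
  exact ⟨h, hh g hx (hf g hx hy)⟩

theorem TT1_one (H : TT1_Hyp A1 A2 C T v1 v2) {g : G} {x y : V} (hg : ∀ k, g ∉ cj k C)
    (hx : g • x = x) (hy : g • y = y) : x = y := by
  by_contra e
  obtain ⟨k, hk⟩ := TT1_two H e hx hy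
  exact hg k hk

theorem TT1_uniq (H : TT1_Hyp A1 A2 C T v1 v2) {A : Subgroup G} {v : V}
    (hs : ∀ g : G, g • v = v ↔ g ∈ A) (y h h' : G) (hy : ∀ k, y ∉ cj k C) (a : y ∈ cj h A)
    (b : y ∈ cj h' A) : h⁻¹ * h' ∈ A := by
  have e := TT1_one H hy ((TT1_fix hs y h).2 a) ((TT1_fix hs y h').2 b)
  rw [← hs, mul_smul, inv_smul_eq_iff, e]

theorem TT1_cent (H : TT1_Hyp A1 A2 C T v1 v2) {A : Subgroup G} {v : V}
    (hs : ∀ g : G, g • v = v ↔ g ∈ A) (y h u : G) (hy : ∀ k, y ∉ cj k C) (a : y ∈ cj h A)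
    (c : Commute u y) : u ∈ cj h A := by
  have f := (TT1_fix hs y h).2 a
  refine (TT1_fix hs u h).1 (TT1_one H hy ?_ f)
  rw [← mul_smul, ← c.eq, mul_smul, f]

/-- a nonzero translation of a line has this line as an axis, up to inversion -/
theorem TT1_axis {L : ℤ → V} (hL : IsLine T L) {g : G} {q : ℤ} (hq : ∀ s, g • L s = L (s + q))
    (h0 : q ≠ 0) : (∃ p, IsAxis T g p L) ∨ ∃ p, IsAxis T g⁻¹ p L := by
  rcases lt_or_gt_of_ne h0 with h | h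
  · refine Or.inr ⟨(-q).toNat, by omega, hL, fun s => ?_⟩
    rw [eq_inv_smul_iff, hq, Int.toNat_of_nonneg (by omega)]
    congr 1
    ring
  · refine Or.inl ⟨q.toNat, by omega, hL, fun s => ?_⟩
    rw [hq, Int.toNat_of_nonneg h.le]

theorem TT1_zero (hT : GTree G T) {L : ℤ → V} (hL : IsLine T L) {g : G} {q : ℤ}
    (hq : ∀ s, g • L s = L (s + q)) (hg : ∃ v : V, g • v = v) (s : ℤ) : g • L s = L s := by
  obtain ⟨v, hv⟩ := hg
  by_cases h0 : q = 0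
  · rw [hq, h0, add_zero]
  · exfalso
    rcases TT1_axis hL hq h0 with ⟨p, hp⟩ | ⟨p, hp⟩
    · exact hp.not_fix hT v hv
    · exact hp.not_fix hT v (by rw [inv_smul_eq_iff, hv])

/-- translations of a line -/
def TT1_Tr (G : Type) [Group G] [MulAction G V] (L : ℤ → V) : Subgroup G where
  carrier := {g | ∃ q : ℤ, ∀ s, g • L s = L (s + q)}
  mul_mem' := by
    rintro a b ⟨q, hq⟩ ⟨r, hr⟩
    exact ⟨r + q, fun s => by rw [mul_smul, hr, hq, add_assoc]⟩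
  one_mem' := ⟨0, fun s => by rw [one_smul, add_zero]⟩
  inv_mem' := by
    rintro a ⟨q, hq⟩
    exact ⟨-q, fun s => by rw [inv_smul_eq_iff, hq, neg_add_cancel_right]⟩

theorem TT1_cm {L : ℤ → V} {a b : G} (ha : a ∈ TT1_Tr G L) (hb : b ∈ TT1_Tr G L) (s : ℤ) :
    cm a b • L s = L s := by
  obtain ⟨q, hq⟩ := ha
  obtain ⟨r, hr⟩ := hb
  have h1 : ∀ s, a⁻¹ • L s = L (s - q) := by
    intro s
    rw [inv_smul_eq_iff, hq, sub_add_cancel]
  have h2 : ∀ s, b⁻¹ • L s = L (s - r) := by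
    intro s
    rw [inv_smul_eq_iff, hr, sub_add_cancel]
  rw [cm, mul_smul, mul_smul, mul_smul, h2, h1, hr, hq]
  congr 1
  ring

theorem TT1_main (H : TT1_Hyp A1 A2 C T v1 v2) : TT1 A1 A2 C where
  le := ⟨fun g hg => ((H.stC g).1 hg).1, fun g hg => ((H.stC g).1 hg).2⟩
  tors g hg := (TT1_ell H g).2 (H.gt.fix_of_finOrder hg)
  serre g g' a b c := by
    obtain ⟨v, h1, h2⟩ := H.gt.serre ((TT1_ell H _).1 a) ((TT1_ell H _).1 b) ((TT1_ell H _).1 c)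
    exact TT1_je H h1 h2
  comm g g' a b c := by
    have a' := (TT1_ell H _).1 a
    have b' := (TT1_ell H _).1 b
    rcases H.gt.fix_or_axis (g * g') with h | ⟨p, L, hL⟩
    · obtain ⟨v, h1, h2⟩ := H.gt.serre a' b' h
      exact TT1_je H h1 h2
    · obtain ⟨q, hq⟩ := hL.commute H.gt ((Commute.refl g).mul_right c)
      obtain ⟨r, hr⟩ := hL.commute H.gt (c.symm.mul_right (Commute.refl g'))
      exact TT1_je H (TT1_zero H.gt hL.line hq a' 0) (TT1_zero H.gt hL.line hr b' 0)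
  uniq1 := TT1_uniq H H.st1
  uniq2 := TT1_uniq H H.st2
  uniq12 y h h' a b := by
    refine TT1_two H (fun e => H.ne (h'⁻¹ * h) ?_) ((TT1_fix H.st1 y h).2 a)
      ((TT1_fix H.st2 y h').2 b)
    rw [mul_smul, inv_smul_eq_iff, e]
  cent1 := TT1_cent H H.st1
  cent2 := TT1_cent H H.st2
  hyp z hz := by
    rcases H.gt.fix_or_axis z with h | ⟨p, L, hL⟩
    · exact absurd ((TT1_ell H z).2 h) hz
    obtain ⟨h, hh⟩ := TT1_edge H (hL.line.adj 0)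
    refine ⟨h, TT1_Tr G L, fun g hg => hL.commute H.gt hg, ?_,
      fun a ha b hb => hh _ (TT1_cm ha hb _) (TT1_cm ha hb _), ?_⟩
    · rintro y ⟨q, hq⟩ hy u hu
      have h0 : q ≠ 0 := by
        rintro rfl
        exact hy h (hh y (by rw [hq, add_zero]) (by rw [hq, add_zero]))
      rcases TT1_axis hL.line hq h0 with ⟨p', hp⟩ | ⟨p', hp⟩
      · exact hp.commute H.gt hu
      · exact hp.commute H.gt hu.inv_right
    · rintro y ⟨q, hq⟩ hy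
      have := TT1_zero H.gt hL.line hq ((TT1_ell H y).1 hy)
      exact hh y (this _) (this _)

end

theorem TT1_thm : St_TT1 := by
  rintro G _ A1 A2 C ⟨X⟩
  let _ := X.act
  exact TT1_main ⟨X.gt, X.st1, X.st2, X.stC, X.edge, X.ne⟩

end Pool.Agent.Lib.MP_1b8ce0_al.T
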