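import Mathlib
import Pool.Agent.Lib.MP_1b8ce0_al.T.StsA

namespace Pool.Agent.Lib.MP_1b8ce0_al.T

open Pool.Agent.Lib.MP_6d85b4_al Pool.Agent.Shared.GroupTree SimpleGraph

section Tree

variable {V : Type} {T : SimpleGraph V}

/-- convex sets of vertices -/
def TT2_Cvx (T : SimpleGraph V) (K : Set V) : Prop :=
  ∀ x w y, x ∈ K → y ∈ K → Toward T x w y → w ∈ K

theorem TT2_inter {K L : Set V} (hK : TT2_Cvx T K) (hL : TT2_Cvx T L) : TT2_Cvx T (K ∩ L) :=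
  fun x w y hx hy h => ⟨hK x w y hx.1 hy.1 h, hL x w y hx.2 hy.2 h⟩

theorem TT2_between (hT : T.IsTree) {K : Set V} (hK : TT2_Cvx T K) {p y : V} (hy : y ∈ K) :
    ∀ (n : ℕ) (x : V), T.dist x p = n → x ∈ K → T.dist x y = T.dist x p + T.dist p y → p ∈ K := by
  intro n
  induction n with
  | zero =>
    intro x h0 hx _
    rwa [← (dist_zero_iff hT).1 h0]
  | succ n ih =>
    intro x h0 hx hb
    have hxp : x ≠ p := by
      intro h
      rw [(dist_zero_iff hT).2 h] at h0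
      omega
    obtain ⟨w, hw⟩ := exists_toward hT hxp
    have h1 := toward_of_between hT hw hb
    have h2 := hw.2
    have h3 := h1.2
    exact ih w (by omega) (hK x w y hx hy h1) (by omega)

/-- a convex set with points on both sides of the edge `p, w` contains `p` -/
theorem TT2_both (hT : T.IsTree) {K : Set V} (hK : TT2_Cvx T K) {p w c k : V} (hc : c ∈ K)
    (hk : k ∈ K) (hw : Toward T p w c) (hn : ¬ Toward T p w k) : p ∈ K := by
  refine TT2_between hT hK hk _ c rfl hc ?_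
  rw [dist_add hT hw hn, dist_comm (u := c) (v := p)]

theorem TT2_near {K : Set V} (hne : K.Nonempty) (c : V) :
    ∃ p ∈ K, ∀ w, Toward T p w c → w ∉ K := by
  refine ⟨Function.argminOn (fun p => T.dist p c) K hne, Function.argminOn_mem _ _ _, ?_⟩
  intro w hw hK
  have h1 := Function.argminOn_le (fun p => T.dist p c) K hK
  have h2 := hw.2
  omega

theorem TT2_three (hT : T.IsTree) {A B K : Set V} (hA : TT2_Cvx T A) (hB : TT2_Cvx T B)
    (hK : TT2_Cvx T K) (hAB : (A ∩ B).Nonempty) (hAK : (A ∩ K).Nonempty)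
    (hBK : (B ∩ K).Nonempty) : (A ∩ B ∩ K).Nonempty := by
  obtain ⟨a, haA, haK⟩ := hAK
  obtain ⟨b, hbB, hbK⟩ := hBK
  obtain ⟨p, hp, hmin⟩ := TT2_near (T := T) hAB a
  by_cases hpK : p ∈ K
  · exact ⟨p, hp, hpK⟩
  exfalso
  have hpa : p ≠ a := fun h => hpK (h ▸ haK)
  obtain ⟨w, hw⟩ := exists_toward hT hpa
  have hwb : Toward T p w b := by
    by_contra hn
    exact hpK (TT2_both hT hK haK hbK hw hn)
  exact hmin w hw ⟨hA p w a hp.1 haA hw, hB p w b hp.2 hbB hwb⟩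

theorem TT2_helly (hT : T.IsTree) {I : Type} (X : I → Set V) (hX : ∀ i, TT2_Cvx T (X i))
    (F : Set I) (hF : F.Finite) : ∀ K : Set V, TT2_Cvx T K → K.Nonempty →
      (∀ i ∈ F, (X i ∩ K).Nonempty) → (∀ i ∈ F, ∀ j ∈ F, (X i ∩ X j).Nonempty) →
        ∃ v ∈ K, ∀ i ∈ F, v ∈ X i := by
  induction F, hF using Set.Finite.induction_on with
  | empty =>
    intro K _ hne _ _
    obtain ⟨v, hv⟩ := hne
    exact ⟨v, hv, fun i hi => absurd hi (Set.notMem_empty i)⟩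
  | @insert a s _ _ ih =>
    intro K hK _ h1 h2
    have ha : a ∈ insert a s := Set.mem_insert a s
    obtain ⟨v, hv, hall⟩ := ih (X a ∩ K) (TT2_inter (hX a) hK) (h1 a ha)
      (fun i hi => by
        have hi' : i ∈ insert a s := Set.mem_insert_of_mem a hi
        have := TT2_three hT (hX i) (hX a) hK (h2 i hi' a ha) (h1 i hi') (h1 a ha)
        rwa [Set.inter_assoc] at this)
      (fun i hi j hj => h2 i (Set.mem_insert_of_mem a hi) j (Set.mem_insert_of_mem a hj))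
    refine ⟨v, hv.2, fun i hi => ?_⟩
    rcases hi with rfl | hi
    · exact hv.1
    · exact hall i hi

end Tree

section Act

variable {G V : Type} [Group G] [MulAction G V] {T : SimpleGraph V}

theorem TT2_fixCvx (h : GTree G T) (g : G) : TT2_Cvx T {v | g • v = v} :=
  fun _ _ _ hx hy hw => h.fix_toward hw hx hy

theorem TT2_stab {v : V} {A : Subgroup G} (hv : ∀ g : G, g • v = v ↔ g ∈ A) (g h : G) :
    g • (h • v) = h • v ↔ g ∈ cj h A := by
  rw [mem_cj, ← hv, mul_smul, mul_smul, inv_smul_eq_iff]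

theorem TT2_main {A1 A2 C : Subgroup G} (gt : GTree G T) {v1 v2 : V} (adj : T.Adj v1 v2)
    (st1 : ∀ g : G, g • v1 = v1 ↔ g ∈ A1) (st2 : ∀ g : G, g • v2 = v2 ↔ g ∈ A2)
    (stC : ∀ g : G, g ∈ C ↔ g ∈ A1 ∧ g ∈ A2)
    (edge : ∀ u w, T.Adj u w → ∃ g : G, (u = g • v1 ∧ w = g • v2) ∨ (u = g • v2 ∧ w = g • v1))
    (ne : ∀ g : G, g • v1 ≠ v2) : TT2 A1 A2 C := by
  have hT := gt.tree
  have hv : ∀ v : V, ∃ g : G, v = g • v1 ∨ v = g • v2 := by
    intro v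
    by_cases h : v = v1
    · exact ⟨1, Or.inl (by rw [one_smul, h])⟩
    · obtain ⟨w, hw⟩ := exists_toward hT h
      obtain ⟨g, hg | hg⟩ := edge v w hw.1
      · exact ⟨g, Or.inl hg.1⟩
      · exact ⟨g, Or.inr hg.1⟩
  have hE : ∀ g : G, Ell A1 A2 g → ∃ v : V, g • v = v := by
    rintro g ⟨h, hh | hh⟩
    · exact ⟨h • v1, (TT2_stab st1 g h).2 hh⟩
    · exact ⟨h • v2, (TT2_stab st2 g h).2 hh⟩
  have hJ : ∀ g g' : G, JE A1 A2 g g' ↔ ∃ v : V, g • v = v ∧ g' • v = v := by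
    intro g g'
    constructor
    · rintro ⟨h, hh | hh⟩
      · exact ⟨h • v1, (TT2_stab st1 g h).2 hh.1, (TT2_stab st1 g' h).2 hh.2⟩
      · exact ⟨h • v2, (TT2_stab st2 g h).2 hh.1, (TT2_stab st2 g' h).2 hh.2⟩
    · rintro ⟨v, h1, h2⟩
      obtain ⟨h, rfl | rfl⟩ := hv v
      · exact ⟨h, Or.inl ⟨(TT2_stab st1 g h).1 h1, (TT2_stab st1 g' h).1 h2⟩⟩
      · exact ⟨h, Or.inr ⟨(TT2_stab st2 g h).1 h1, (TT2_stab st2 g' h).1 h2⟩⟩
  have hC : ∀ g h : G, g ∈ cj h C ↔ g • (h • v1) = h • v1 ∧ g • (h • v2) = h • v2 := by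
    intro g h
    rw [TT2_stab st1, TT2_stab st2, mem_cj, mem_cj, mem_cj, stC]
  have hEd : ∀ u w, T.Adj u w → ∃ h : G, ∀ g, g ∈ cj h C ↔ g • u = u ∧ g • w = w := by
    intro u w huw
    obtain ⟨h, ⟨rfl, rfl⟩ | ⟨rfl, rfl⟩⟩ := edge u w huw
    · exact ⟨h, fun g => hC g h⟩
    · exact ⟨h, fun g => (hC g h).trans and_comm⟩
  refine ⟨?_, ?_, ?_⟩
  · intro F hF hFJ
    obtain ⟨v, -, hall⟩ := TT2_helly hT (fun g : G => {v | g • v = v}) (TT2_fixCvx gt) F hF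
      Set.univ (fun _ _ _ _ _ _ => Set.mem_univ _) ⟨v1, Set.mem_univ _⟩
      (fun g hg => by
        obtain ⟨v, h1, -⟩ := (hJ g g).1 (hFJ g hg g hg)
        exact ⟨v, h1, Set.mem_univ _⟩)
      (fun g hg g' hg' => by
        obtain ⟨v, h1, h2⟩ := (hJ g g').1 (hFJ g hg g' hg')
        exact ⟨v, h1, h2⟩)
    obtain ⟨h, rfl | rfl⟩ := hv v
    · exact ⟨h, Or.inl fun g hg => (TT2_stab st1 g h).1 (hall g hg)⟩
    · exact ⟨h, Or.inr fun g hg => (TT2_stab st2 g h).1 (hall g hg)⟩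
  · intro y0 y1 h0 h1 hn
    obtain ⟨c, hc⟩ := hE y1 h1
    obtain ⟨p, hp, hmin⟩ := TT2_near (T := T) (K := {v : V | y0 • v = v}) (hE y0 h0) c
    have hp1 : y1 • p ≠ p := fun h => hn ((hJ y0 y1).2 ⟨p, hp, h⟩)
    have hpc : p ≠ c := fun h => hp1 (h ▸ hc)
    obtain ⟨w, hw⟩ := exists_toward hT hpc
    obtain ⟨h, hh⟩ := hEd p w hw.1
    have key : ∀ (y : G) (u : V), y ∉ cj h C → y • u = u →
        ((∃ v : V, y • v = v ∧ ¬ Toward T p w v) ↔ ¬ Toward T p w u) := by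
      intro y u hy hu
      constructor
      · rintro ⟨v, hv1, hv2⟩ hwu
        have hpy : y • p = p := TT2_both hT (TT2_fixCvx gt y) hu hv1 hwu hv2
        exact hy ((hh y).2 ⟨hpy, gt.fix_toward hwu hpy hu⟩)
      · exact fun hwu => ⟨u, hu, hwu⟩
    refine ⟨h, fun y => ∃ v : V, y • v = v ∧ ¬ Toward T p w v,
      fun h2 => hmin w hw ((hh y0).1 h2).2, fun h2 => hp1 ((hh y1).1 h2).1,
      ⟨p, hp, fun h2 => h2.ne rfl⟩, ?_, ?_⟩
    · rintro ⟨v, hv1, hv2⟩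
      exact hp1 (TT2_both hT (TT2_fixCvx gt y1) hc hv1 hw hv2)
    · intro y y' hy hy' hyy
      obtain ⟨u, hu, hu'⟩ := (hJ y y').1 hyy
      exact (key y u hy hu).trans (key y' u hy' hu').symm
  · intro r hr hr1
    obtain ⟨c, hc⟩ := hE r hr
    have hp1 : r • v1 ≠ v1 := fun h => hr1 ((st1 r).1 h)
    have hpc : v1 ≠ c := fun h => hp1 (h ▸ hc)
    obtain ⟨w, hw⟩ := exists_toward hT hpc
    obtain ⟨h, ⟨e1, e2⟩ | ⟨e1, -⟩⟩ := edge v1 w hw.1
    · refine ⟨h, (st1 h).1 e1.symm, fun g hg hgr => ?_⟩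
      obtain ⟨u, hu, hu'⟩ := (hJ g r).1 hgr
      have hwu : Toward T v1 w u := by
        by_contra hn
        exact hp1 (TT2_both hT (TT2_fixCvx gt r) hc hu' hw hn)
      have hg1 := (st1 g).2 hg
      rw [hC, ← e1, ← e2]
      exact ⟨hg1, gt.fix_toward hwu hg1 hu⟩
    · exact absurd (inv_smul_eq_iff.2 e1) (ne h⁻¹)

end Act

theorem TT2_thm : St_TT2 := by
  rintro G _ A1 A2 C ⟨D⟩
  letI := D.act
  exact TT2_main D.gt D.adj D.st1 D.st2 D.stC D.edge D.ne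

end Pool.Agent.Lib.MP_1b8ce0_al.T
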