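import Mathlib
import Pool.Agent.Lib.MP_1b8ce0_al.T.StsC

/-! Twists of labelled graphs. -/

set_option linter.unusedSectionVars false
set_option linter.dupNamespace false

namespace Pool.Agent.Lib.MP_1b8ce0_al.T

open Pool.Agent.Lib.MP_6d85b4_al

section

variable {S S' : Type}

/-- a label preserving map sends rigid sets to rigid sets -/
theorem TWM_rigid {M : CoxeterMatrix S} {M' : CoxeterMatrix S'} {T : Set S} (f : S → S')
    (hf : ∀ a ∈ T, ∀ b ∈ T, M' (f a) (f b) = M a b) (h : Rigid M T) : Rigid M' (f '' T) := by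
  have inj : ∀ a ∈ T, ∀ b ∈ T, a ≠ b → f a ≠ f b := fun a ha b hb hab e =>
    M.off_diagonal a b hab (by rw [← hf a ha b hb, e, M'.diagonal])
  obtain ⟨⟨s, hs, t, ht, u, hu, h1, h2, h3⟩, h⟩ := h
  refine ⟨⟨_, ⟨s, hs, rfl⟩, _, ⟨t, ht, rfl⟩, _, ⟨u, hu, rfl⟩, inj s hs t ht h1, inj t ht u hu h2,
    inj s hs u hu h3⟩, fun J hJ => ?_⟩
  have hJ' : Simplex M (T ∩ f ⁻¹' J) := by
    refine ⟨fun a ha b hb => ?_, fun a ha b hb c hc => ?_⟩
    · rw [← hf a ha.1 b hb.1]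
      exact hJ.1 _ ha.2 _ hb.2
    · by_contra hn
      push Not at hn
      rcases hJ.2 _ ha.2 _ hb.2 _ hc.2 with e | e | e
      · exact inj a ha.1 b hb.1 hn.1 e
      · exact inj b hb.1 c hc.1 hn.2.1 e
      · exact inj a ha.1 c hc.1 hn.2.2 e
  rintro _ ⟨⟨a, ha, rfl⟩, ha'⟩ _ ⟨⟨b, hb, rfl⟩, hb'⟩
  refine Relation.ReflTransGen.lift f ?_ a b
    (h _ hJ' a ⟨ha, fun e => ha' e.2⟩ b ⟨hb, fun e => hb' e.2⟩)
  rintro c d ⟨hc, hd, h1, h2⟩
  exact ⟨⟨⟨c, hc.1, rfl⟩, fun e => hc.2 ⟨hc.1, e⟩⟩, ⟨⟨d, hd.1, rfl⟩, fun e => hd.2 ⟨hd.1, e⟩⟩,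
    inj c hc.1 d hd.1 h1, by rwa [hf c hc.1 d hd.1]⟩

variable {M N : CoxeterMatrix S} {M' : CoxeterMatrix S'} {p q : S} {X : Set S}

theorem TWM_off (h : TwistAt M N p q X) {a b : S} (ha : a ∉ X) (hb : b ∉ X) : N a b = M a b :=
  h.2.2.2.2.2.2 a b (fun e => ha e.1) fun e => hb e.1

theorem TWM_symm (h : TwistAt M N p q X) : TwistAt N M p q X := by
  have h' := TWM_off h h.2.2.1 h.2.2.2.1
  obtain ⟨h1, h2, h3, h4, h5, h6, h7⟩ := h
  refine ⟨h1, by rwa [h'], h3, h4, fun x hx y hy e1 e2 => ?_,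
    fun x hx => ⟨(h6 x hx).2.symm, (h6 x hx).1.symm⟩, fun a b e1 e2 => (h7 a b e1 e2).symm⟩
  rw [h7 x y (fun e => e.2.elim e1 e2) fun e => hy e.1]
  exact h5 x hx y hy e1 e2

/-- a rigid set lies on one side of the twisting edge -/
theorem TWM_side (h : TwistAt M N p q X) {T : Set S} (hT : Rigid M T) :
    (∀ t ∈ T, t ∉ X) ∨ ∀ t ∈ T, t ∈ X ∨ t = p ∨ t = q := by
  obtain ⟨-, h2, h3, h4, h5, -, -⟩ := h
  have hpq : M p q ≠ 0 := fun e => by simp [e] at h2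
  have hJ : Simplex M {p, q} := by
    refine ⟨?_, ?_⟩
    · rintro a (rfl | rfl) b (rfl | rfl)
      · simp
      · exact hpq
      · rwa [M.symmetric]
      · simp
    · rintro a (rfl | rfl) b (rfl | rfl) c (rfl | rfl) <;> simp
  by_contra hn
  push Not at hn
  obtain ⟨⟨x, hx, hxX⟩, y, hy, y1, y2, y3⟩ := hn
  have hc := hT.2 _ hJ x ⟨hx, by rintro (rfl | rfl) <;> contradiction⟩ y
    ⟨hy, by rintro (e | e) <;> contradiction⟩
  refine y1 ?_
  clear hy y1 y2 y3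
  induction hc with
  | refl => exact hxX
  | tail _ hd ih =>
    by_contra hn
    exact hd.2.2.2 (h5 _ ih _ hn (fun e => hd.2.1.2 (Or.inl e)) fun e => hd.2.1.2 (Or.inr e))

theorem TWM_half {a b : S} (h : a ≠ b) : 1 / (N a b : ℚ) ≤ 1 / 2 := by
  rcases Nat.eq_zero_or_pos (N a b) with e | e
  · simp [e]
  · have := N.off_diagonal a b h
    exact one_div_le_one_div_of_le two_pos (by exact_mod_cast (by omega : 2 ≤ N a b))

open Classical

theorem TWM_fix (h3 : p ∉ X) (h4 : q ∉ X) {x : S} (hx : x ∈ X) : Equiv.swap p q x = x :=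
  Equiv.swap_apply_of_ne_of_ne (fun e => h3 (e ▸ hx)) fun e => h4 (e ▸ hx)

theorem TWM_mem (h : TwistAt M N p q X) (a : S) : Equiv.swap p q a ∈ X ↔ a ∈ X := by
  refine ⟨fun e => ?_, fun e => by rwa [TWM_fix h.2.2.1 h.2.2.2.1 e]⟩
  have := TWM_fix h.2.2.1 h.2.2.2.1 e
  rw [Equiv.swap_apply_self] at this
  rwa [this]

theorem TWM_in (h : TwistAt M N p q X) {a b : S} (hab : a ∈ X ∨ b ∈ X) :
    N a b = M (Equiv.swap p q a) (Equiv.swap p q b) := by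
  have key : ∀ a ∈ X, ∀ b, N a b = M (Equiv.swap p q a) (Equiv.swap p q b) := by
    intro a ha b
    obtain ⟨-, -, h3, h4, -, h6, h7⟩ := h
    rw [TWM_fix h3 h4 ha]
    by_cases e1 : b = p
    · rw [e1, Equiv.swap_apply_left, (h6 a ha).1]
    by_cases e2 : b = q
    · rw [e2, Equiv.swap_apply_right, (h6 a ha).2]
    rw [Equiv.swap_apply_of_ne_of_ne e1 e2]
    exact h7 a b (fun e => e.2.elim e1 e2) fun e =>
      e.2.elim (fun e' => h3 (e' ▸ ha)) fun e' => h4 (e' ▸ ha)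
  rcases hab with ha | hb
  · exact key a ha b
  · rw [N.symmetric, key b hb a, M.symmetric]

theorem TWM_pq (h : TwistAt M N p q X) {a b : S} (ha : a ∈ X ∨ a = p ∨ a = q)
    (hb : b ∈ X ∨ b = p ∨ b = q) (hn : ¬ (a ∈ X ∨ b ∈ X)) (hab : a ≠ b) :
    Equiv.swap p q a = b ∧ Equiv.swap p q b = a ∧ Odd (M a b) := by
  rcases ha.resolve_left fun e => hn (Or.inl e) with rfl | rfl <;>
    rcases hb.resolve_left fun e => hn (Or.inr e) with rfl | rfl
  · exact absurd rfl hab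
  · exact ⟨by simp, by simp, h.2.1⟩
  · exact ⟨by simp, by simp, by rw [M.symmetric]; exact h.2.1⟩
  · exact absurd rfl hab

theorem TWM_inY (h : TwistAt M N p q X) {a b : S} (ha : a ∈ X ∨ a = p ∨ a = q)
    (hb : b ∈ X ∨ b = p ∨ b = q) : N a b = M (Equiv.swap p q a) (Equiv.swap p q b) := by
  by_cases hn : a ∈ X ∨ b ∈ X
  · exact TWM_in h hn
  by_cases hab : a = b
  · rw [hab, N.diagonal, M.diagonal]
  obtain ⟨e1, e2, -⟩ := TWM_pq h ha hb hn hab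
  rw [e1, e2, M.symmetric, TWM_off h (fun e => hn (Or.inl e)) fun e => hn (Or.inr e)]

theorem TWM_memY (h : TwistAt M N p q X) {a : S} (ha : a ∈ X ∨ a = p ∨ a = q) :
    Equiv.swap p q a ∈ X ∨ Equiv.swap p q a = p ∨ Equiv.swap p q a = q := by
  rcases ha with ha | rfl | rfl
  · exact Or.inl ((TWM_mem h a).2 ha)
  · simp
  · simp

theorem TWM_ex (h1 : p ≠ q) (h2 : Odd (M p q)) (h3 : p ∉ X) (h4 : q ∉ X)
    (h5 : ∀ x ∈ X, ∀ y, y ∉ X → y ≠ p → y ≠ q → M x y = 0) : ∃ N, TwistAt M N p q X := by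
  refine ⟨⟨Matrix.of fun a b => if a ∈ X ∨ b ∈ X then M (Equiv.swap p q a) (Equiv.swap p q b)
    else M a b, ?_, fun a => ?_, fun a b hab => ?_⟩, h1, h2, h3, h4, h5, fun x hx => ?_,
    fun a b e1 e2 => ?_⟩
  · ext a b
    simp only [Matrix.transpose_apply, Matrix.of_apply, or_comm (a := b ∈ X)]
    rw [M.symmetric b a, M.symmetric (Equiv.swap p q b)]
  · simp
  · simp only [Matrix.of_apply]
    split_ifs
    · exact M.off_diagonal _ _ ((Equiv.swap p q).injective.ne hab)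
    · exact M.off_diagonal _ _ hab
  · simp [hx, TWM_fix h3 h4 hx]
  · simp only [Matrix.of_apply]
    split_ifs with hab
    · rcases hab with ha | hb
      · rw [TWM_fix h3 h4 ha, Equiv.swap_apply_of_ne_of_ne (fun e => e1 ⟨ha, Or.inl e⟩)
          fun e => e1 ⟨ha, Or.inr e⟩]
      · rw [TWM_fix h3 h4 hb, Equiv.swap_apply_of_ne_of_ne (fun e => e2 ⟨hb, Or.inl e⟩)
          fun e => e2 ⟨hb, Or.inr e⟩]
    · rfl

theorem TWM_nosph (h : TwistAt M N p q X) (hM : NoSph M) : NoSph N := by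
  intro s t u h1 h2 h3
  have a1 := TWM_half (N := N) h1
  have a2 := TWM_half (N := N) h2
  have a3 := TWM_half (N := N) h3
  by_cases z1 : N s t = 0
  · rw [z1]
    norm_num at a2 a3 ⊢
    linarith
  by_cases z2 : N t u = 0
  · rw [z2]
    norm_num at a1 a3 ⊢
    linarith
  by_cases z3 : N s u = 0
  · rw [z3]
    norm_num at a1 a2 ⊢
    linarith
  have key : ∀ a b, N a b ≠ 0 → (a ∈ X → b ∈ X ∨ b = p ∨ b = q) ∧
      (b ∈ X → a ∈ X ∨ a = p ∨ a = q) := fun a b hab => by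
    have h5 := (TWM_symm h).2.2.2.2.1
    refine ⟨fun ha => ?_, fun hb => ?_⟩ <;> by_contra hn <;> push Not at hn
    · exact hab (h5 a ha b hn.1 hn.2.1 hn.2.2)
    · exact hab (by rw [N.symmetric]; exact h5 b hb a hn.1 hn.2.1 hn.2.2)
  have k1 := key s t z1
  have k2 := key t u z2
  have k3 := key s u z3
  by_cases hX : s ∈ X ∨ t ∈ X ∨ u ∈ X
  · have hY : (s ∈ X ∨ s = p ∨ s = q) ∧ (t ∈ X ∨ t = p ∨ t = q) ∧ (u ∈ X ∨ u = p ∨ u = q) := by
      rcases hX with e | e | e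
      · exact ⟨Or.inl e, k1.1 e, k3.1 e⟩
      · exact ⟨k1.2 e, Or.inl e, k2.1 e⟩
      · exact ⟨k3.2 e, k2.2 e, Or.inl e⟩
    rw [TWM_inY h hY.1 hY.2.1, TWM_inY h hY.2.1 hY.2.2, TWM_inY h hY.1 hY.2.2]
    exact hM _ _ _ ((Equiv.swap p q).injective.ne h1) ((Equiv.swap p q).injective.ne h2)
      ((Equiv.swap p q).injective.ne h3)
  · push Not at hX
    rw [TWM_off h hX.1 hX.2.1, TWM_off h hX.2.1 hX.2.2, TWM_off h hX.1 hX.2.2]
    exact hM _ _ _ h1 h2 h3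

theorem TWM_oc (h : TwistAt M N p q X) (a : S) :
    OddConn M a (Equiv.swap p q a) ∧ OddConn M (Equiv.swap p q a) a := by
  have c1 : OddConn M p q := Relation.ReflTransGen.single ⟨h.1, h.2.1⟩
  have c2 : OddConn M q p :=
    Relation.ReflTransGen.single ⟨h.1.symm, by rw [M.symmetric]; exact h.2.1⟩
  by_cases e1 : a = p
  · rw [e1, Equiv.swap_apply_left]
    exact ⟨c1, c2⟩
  by_cases e2 : a = q
  · rw [e2, Equiv.swap_apply_right]
    exact ⟨c2, c1⟩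
  rw [Equiv.swap_apply_of_ne_of_ne e1 e2]
  exact ⟨Relation.ReflTransGen.refl, Relation.ReflTransGen.refl⟩

theorem TWM_odd (h : TwistAt M N p q X) {s t : S} (hc : OddConn N s t) : OddConn M s t := by
  induction hc with
  | refl => exact Relation.ReflTransGen.refl
  | @tail u v _ hd ih =>
    by_cases hn : u ∈ X ∨ v ∈ X
    · rw [TWM_in h hn] at hd
      exact ((ih.trans (TWM_oc h u).1).tail
        ⟨(Equiv.swap p q).injective.ne hd.1, hd.2⟩).trans (TWM_oc h v).2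
    · rw [TWM_off h (fun e => hn (Or.inl e)) fun e => hn (Or.inr e)] at hd
      exact ih.tail hd

variable {V : S → S' → Prop} {E : S → S → S' → S' → Prop}

theorem TWM_E1 {a b : S} (hab : a ∈ X ∨ b ∈ X) (a' b' : S') :
    twE E p q X a b a' b' ↔ E (Equiv.swap p q a) (Equiv.swap p q b) a' b' := by
  rw [twE, if_pos hab]

theorem TWM_E0 {a b : S} (hab : ¬ (a ∈ X ∨ b ∈ X)) (a' b' : S') :
    twE E p q X a b a' b' ↔ E a b a' b' := by
  rw [twE, if_neg hab]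

theorem TWM_EY (h : TwistAt M N p q X) (H : Half M M' V E) {a b : S} (ha : a ∈ X ∨ a = p ∨ a = q)
    (hb : b ∈ X ∨ b = p ∨ b = q) {a' b' : S'}
    (e : E (Equiv.swap p q a) (Equiv.swap p q b) a' b') : twE E p q X a b a' b' := by
  by_cases hn : a ∈ X ∨ b ∈ X
  · exact (TWM_E1 hn _ _).2 e
  have hab : a ≠ b := fun e' => (H.edge _ _ _ _ e).1.1 (by rw [e'])
  obtain ⟨e1, e2, e3⟩ := TWM_pq h ha hb hn hab
  rw [e1, e2] at e
  exact (TWM_E0 hn _ _).2 (H.odd _ _ _ _ (H.symm _ _ _ _ e) e3)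

/-- the twisted edge relation comes from an edge with the same label and the same classes -/
theorem TWM_src (h : TwistAt M N p q X) (a b : S) : ∃ c d, N a b = M c d ∧ (a ≠ b ↔ c ≠ d) ∧
    OddConn M c a ∧ (∀ a' b', twE E p q X a b a' b' ↔ E c d a' b') ∧
      ∀ a' b', twE E p q X b a a' b' ↔ E d c a' b' := by
  by_cases hn : a ∈ X ∨ b ∈ X
  · exact ⟨_, _, TWM_in h hn, (Equiv.swap p q).injective.ne_iff.symm, (TWM_oc h a).2,
      TWM_E1 hn, TWM_E1 hn.symm⟩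
  · exact ⟨a, b, TWM_off h (fun e => hn (Or.inl e)) fun e => hn (Or.inr e), Iff.rfl,
      Relation.ReflTransGen.refl, TWM_E0 hn, TWM_E0 fun e => hn e.symm⟩

theorem TWM_half1 (h : TwistAt M N p q X) (H : Half M M' V E) : Half N M' V (twE E p q X) := by
  refine ⟨H.vtot, fun s t s' e => ?_, fun s t s' t' e => ?_, fun s t s' t' e => ?_,
    fun s t e => ?_, fun s t s' t' a b e e' => ?_, fun s t s' t' e o => ?_, fun T hT => ?_⟩
  · exact (H.vcls s t s' e).trans ⟨TWM_odd (TWM_symm h), TWM_odd h⟩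
  · obtain ⟨c, d, -, -, -, h1, h2⟩ := TWM_src (E := E) h s t
    exact (h2 _ _).2 (H.symm _ _ _ _ ((h1 _ _).1 e))
  · obtain ⟨c, d, h0, h2, h3, h1, -⟩ := TWM_src (E := E) h s t
    obtain ⟨a1, a2, a3⟩ := H.edge _ _ _ _ ((h1 _ _).1 e)
    exact ⟨⟨h2.2 a1.1, by rw [h0]; exact a1.2⟩, by rw [h0, a2], (H.vcls c s s' a3).2 h3⟩
  · obtain ⟨c, d, h0, h2, -, h1, -⟩ := TWM_src (E := E) h s t
    obtain ⟨s', t', a⟩ := H.etot c d ⟨h2.1 e.1, by rw [← h0]; exact e.2⟩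
    exact ⟨s', t', (h1 _ _).2 a⟩
  · obtain ⟨c, d, h0, -, -, h1, -⟩ := TWM_src (E := E) h s t
    rw [h0]
    exact H.uniq c d _ _ _ _ ((h1 _ _).1 e) ((h1 _ _).1 e')
  · obtain ⟨c, d, h0, -, -, h1, -⟩ := TWM_src (E := E) h s t
    exact (h1 _ _).2 (H.odd c d _ _ ((h1 _ _).1 e) (by rwa [← h0]))
  · rcases TWM_side (TWM_symm h) hT with hs | hs
    · have l : ∀ a ∈ T, ∀ b ∈ T, M a b = N a b := fun a ha b hb =>
        (TWM_off h (hs a ha) (hs b hb)).symm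
      have := TWM_rigid id l hT
      rw [Set.image_id] at this
      obtain ⟨σ, g1, g2⟩ := H.rig T this
      refine ⟨σ, fun s a t b => by rw [g1 s a t b, l s a t b], fun s a t b e => ?_⟩
      exact (TWM_E0 (fun e' => e'.elim (hs s a) (hs t b)) _ _).2
        (g2 s a t b ⟨e.1, by rw [l s a t b]; exact e.2⟩)
    · have l : ∀ a ∈ T, ∀ b ∈ T, M (Equiv.swap p q a) (Equiv.swap p q b) = N a b :=
        fun a ha b hb => (TWM_inY h (hs a ha) (hs b hb)).symm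
      obtain ⟨σ, g1, g2⟩ := H.rig _ (TWM_rigid _ l hT)
      refine ⟨fun s => σ (Equiv.swap p q s), fun s a t b => ?_, fun s a t b e => ?_⟩
      · rw [g1 _ ⟨s, a, rfl⟩ _ ⟨t, b, rfl⟩, l s a t b]
      · exact TWM_EY h H (hs s a) (hs t b) (g2 _ ⟨s, a, rfl⟩ _ ⟨t, b, rfl⟩
          ⟨(Equiv.swap p q).injective.ne e.1, by rw [l s a t b]; exact e.2⟩)

theorem TWM_half2 (h : TwistAt M N p q X) (H : Half M M' V E)
    (H' : Half M' M (fun s' s => V s s') (fun s' t' s t => E s t s' t')) :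
    Half M' N (fun s' s => V s s') (fun s' t' s t => twE E p q X s t s' t') := by
  have H1 := TWM_half1 h H
  refine ⟨H'.vtot, H'.vcls, fun s' t' s t e => H1.symm _ _ _ _ e, fun s' t' s t e => ?_,
    fun s' t' e => ?_, fun s' t' s t a b e e' => ?_, fun s' t' s t e o => ?_, fun T hT => ?_⟩
  · obtain ⟨c, d, h0, -, -, h1, -⟩ := TWM_src (E := E) h s t
    obtain ⟨a1, a2, -⟩ := H'.edge s' t' c d ((h1 _ _).1 e)
    exact ⟨a1, by rw [h0, a2], (H1.edge _ _ _ _ e).2.2⟩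
  · obtain ⟨s, t, a⟩ := H'.etot s' t' e
    by_cases hn : s ∈ X ∨ t ∈ X
    · refine ⟨Equiv.swap p q s, Equiv.swap p q t,
        (TWM_E1 (by rwa [TWM_mem h, TWM_mem h]) _ _).2 ?_⟩
      rwa [Equiv.swap_apply_self, Equiv.swap_apply_self]
    · exact ⟨s, t, (TWM_E0 hn _ _).2 a⟩
  · have inj := (Equiv.swap p q).injective
    by_cases h1 : s ∈ X ∨ t ∈ X <;> by_cases h2 : a ∈ X ∨ b ∈ X
    · exact (H'.uniq s' t' _ _ _ _ ((TWM_E1 h1 _ _).1 e) ((TWM_E1 h2 _ _).1 e')).imp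
        (fun x => ⟨inj x.1, inj x.2⟩) fun x => ⟨x.1, inj x.2.1, inj x.2.2⟩
    · refine absurd ?_ h2
      rcases H'.uniq s' t' _ _ _ _ ((TWM_E1 h1 _ _).1 e) ((TWM_E0 h2 _ _).1 e') with
        ⟨x, y⟩ | ⟨-, x, y⟩
      · rwa [x, y, TWM_mem h, TWM_mem h]
      · rwa [x, y, TWM_mem h, TWM_mem h, or_comm]
    · refine absurd ?_ h1
      rcases H'.uniq s' t' _ _ _ _ ((TWM_E0 h1 _ _).1 e) ((TWM_E1 h2 _ _).1 e') with
        ⟨x, y⟩ | ⟨-, x, y⟩
      · rwa [← x, ← y, TWM_mem h, TWM_mem h]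
      · rwa [← x, ← y, TWM_mem h, TWM_mem h, or_comm]
    · exact H'.uniq s' t' _ _ _ _ ((TWM_E0 h1 _ _).1 e) ((TWM_E0 h2 _ _).1 e')
  · obtain ⟨c, d, -, -, -, h1, h2⟩ := TWM_src (E := E) h s t
    exact (h2 _ _).2 (H'.odd s' t' c d ((h1 _ _).1 e) o)
  · obtain ⟨σ, g1, g2⟩ := H'.rig T hT
    rcases TWM_side h (TWM_rigid σ g1 hT) with hs | hs
    · refine ⟨σ, fun s a t b => ?_, fun s a t b e => ?_⟩
      · rw [TWM_off h (hs _ ⟨s, a, rfl⟩) (hs _ ⟨t, b, rfl⟩), g1 s a t b]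
      · exact (TWM_E0 (fun e' => e'.elim (hs _ ⟨s, a, rfl⟩) (hs _ ⟨t, b, rfl⟩)) _ _).2
          (g2 s a t b e)
    · refine ⟨fun s => Equiv.swap p q (σ s), fun s a t b => ?_, fun s a t b e => ?_⟩
      · rw [TWM_inY h (TWM_memY h (hs _ ⟨s, a, rfl⟩)) (TWM_memY h (hs _ ⟨t, b, rfl⟩)),
          Equiv.swap_apply_self, Equiv.swap_apply_self, g1 s a t b]
      · refine TWM_EY h H (TWM_memY h (hs _ ⟨s, a, rfl⟩)) (TWM_memY h (hs _ ⟨t, b, rfl⟩)) ?_
        rw [Equiv.swap_apply_self, Equiv.swap_apply_self]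
        exact g2 s a t b e

end

theorem TWM_thm : St_TWM := fun _ _ _ _ _ _ _ =>
  ⟨TWM_ex, fun _ h => ⟨TWM_nosph h, fun _ _ => ⟨TWM_odd h, TWM_odd (TWM_symm h)⟩,
    fun _ _ H => ⟨TWM_half1 h H.1, TWM_half2 h H.1 H.2⟩⟩⟩

end Pool.Agent.Lib.MP_1b8ce0_al.T
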