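import Pool.Agent.Lib.MP_1b8ce0_al.T.ASIDE
import Pool.Agent.Lib.MP_1b8ce0_al.T.Asm
import Pool.Agent.Lib.MP_1b8ce0_al.T.C0a
import Pool.Agent.Lib.MP_1b8ce0_al.T.C0b
import Pool.Agent.Lib.MP_1b8ce0_al.T.C0c
import Pool.Agent.Lib.MP_1b8ce0_al.T.C1a
import Pool.Agent.Lib.MP_1b8ce0_al.T.C1b
import Pool.Agent.Lib.MP_1b8ce0_al.T.C1c
import Pool.Agent.Lib.MP_1b8ce0_al.T.C1d
import Pool.Agent.Lib.MP_1b8ce0_al.T.C1t
import Pool.Agent.Lib.MP_1b8ce0_al.T.C2a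
import Pool.Agent.Lib.MP_1b8ce0_al.T.C2b
import Pool.Agent.Lib.MP_1b8ce0_al.T.CH
import Pool.Agent.Lib.MP_1b8ce0_al.T.CLS
import Pool.Agent.Lib.MP_1b8ce0_al.T.CNT
import Pool.Agent.Lib.MP_1b8ce0_al.T.COL
import Pool.Agent.Lib.MP_1b8ce0_al.T.COUNT
import Pool.Agent.Lib.MP_1b8ce0_al.T.D1
import Pool.Agent.Lib.MP_1b8ce0_al.T.DBL
import Pool.Agent.Lib.MP_1b8ce0_al.T.DPAR
import Pool.Agent.Lib.MP_1b8ce0_al.T.EDGE
import Pool.Agent.Lib.MP_1b8ce0_al.T.EE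
import Pool.Agent.Lib.MP_1b8ce0_al.T.EXF
import Pool.Agent.Lib.MP_1b8ce0_al.T.EXT
import Pool.Agent.Lib.MP_1b8ce0_al.T.FA
import Pool.Agent.Lib.MP_1b8ce0_al.T.FCE
import Pool.Agent.Lib.MP_1b8ce0_al.T.FJ
import Pool.Agent.Lib.MP_1b8ce0_al.T.FOLD
import Pool.Agent.Lib.MP_1b8ce0_al.T.FREE
import Pool.Agent.Lib.MP_1b8ce0_al.T.FT
import Pool.Agent.Lib.MP_1b8ce0_al.T.G0
import Pool.Agent.Lib.MP_1b8ce0_al.T.G2
import Pool.Agent.Lib.MP_1b8ce0_al.T.GA0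
import Pool.Agent.Lib.MP_1b8ce0_al.T.GAB
import Pool.Agent.Lib.MP_1b8ce0_al.T.GFIN
import Pool.Agent.Lib.MP_1b8ce0_al.T.GOR
import Pool.Agent.Lib.MP_1b8ce0_al.T.GR1
import Pool.Agent.Lib.MP_1b8ce0_al.T.GR2
import Pool.Agent.Lib.MP_1b8ce0_al.T.GT
import Pool.Agent.Lib.MP_1b8ce0_al.T.H1
import Pool.Agent.Lib.MP_1b8ce0_al.T.H2
import Pool.Agent.Lib.MP_1b8ce0_al.T.HEE
import Pool.Agent.Lib.MP_1b8ce0_al.T.IA
import Pool.Agent.Lib.MP_1b8ce0_al.T.IB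
import Pool.Agent.Lib.MP_1b8ce0_al.T.KEY
import Pool.Agent.Lib.MP_1b8ce0_al.T.KEYN
import Pool.Agent.Lib.MP_1b8ce0_al.T.LEVEN
import Pool.Agent.Lib.MP_1b8ce0_al.T.LFLAT
import Pool.Agent.Lib.MP_1b8ce0_al.T.LOC
import Pool.Agent.Lib.MP_1b8ce0_al.T.LOC1
import Pool.Agent.Lib.MP_1b8ce0_al.T.LODD
import Pool.Agent.Lib.MP_1b8ce0_al.T.MATCH
import Pool.Agent.Lib.MP_1b8ce0_al.T.MOD
import Pool.Agent.Lib.MP_1b8ce0_al.T.MODEL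
import Pool.Agent.Lib.MP_1b8ce0_al.T.NF
import Pool.Agent.Lib.MP_1b8ce0_al.T.PAN
import Pool.Agent.Lib.MP_1b8ce0_al.T.PI
import Pool.Agent.Lib.MP_1b8ce0_al.T.RESTR
import Pool.Agent.Lib.MP_1b8ce0_al.T.RG
import Pool.Agent.Lib.MP_1b8ce0_al.T.RIG
import Pool.Agent.Lib.MP_1b8ce0_al.T.ROT
import Pool.Agent.Lib.MP_1b8ce0_al.T.ROT1
import Pool.Agent.Lib.MP_1b8ce0_al.T.SA
import Pool.Agent.Lib.MP_1b8ce0_al.T.SAC
import Pool.Agent.Lib.MP_1b8ce0_al.T.SIDE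
import Pool.Agent.Lib.MP_1b8ce0_al.T.SL
import Pool.Agent.Lib.MP_1b8ce0_al.T.THIN
import Pool.Agent.Lib.MP_1b8ce0_al.T.TREE
import Pool.Agent.Lib.MP_1b8ce0_al.T.TT1
import Pool.Agent.Lib.MP_1b8ce0_al.T.TT2
import Pool.Agent.Lib.MP_1b8ce0_al.T.TWM

set_option linter.dupNamespace false

namespace Pool.Agent.Lib.MP_1b8ce0_al.T

theorem fin_CH : St_CH :=
  CH_thm

theorem fin_C0a : St_C0a :=
  C0a_thm

theorem fin_C0b : St_C0b :=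
  C0b_thm fin_C0a

theorem fin_C0c : St_C0c :=
  C0c_thm fin_CH fin_C0a fin_C0b

theorem fin_C1a : St_C1a :=
  C1a_thm fin_C0a fin_C0b

theorem fin_C1b : St_C1b :=
  C1b_thm fin_CH fin_C0a fin_C0b fin_C0c fin_C1a

theorem fin_C1t : St_C1t :=
  C1t_thm fin_C0a fin_C0b fin_C0c fin_C1a fin_C1b

theorem fin_C2a : St_C2a :=
  C2a_thm fin_C0a fin_C0b fin_C1a

theorem fin_C1c : St_C1c :=
  C1c_thm fin_C0a fin_C0b fin_C1a fin_C1b fin_C1t fin_C2a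

theorem fin_C1d : St_C1d :=
  C1d_thm fin_C0a fin_C0b fin_C0c

theorem fin_C2b : St_C2b :=
  C2b_thm fin_C0a fin_C1a fin_C1b fin_C1t fin_C2a

theorem fin_CA : St_CA :=
  CA_of fin_C0a fin_C0b fin_C0c fin_C1a fin_C1b fin_C1t fin_C1c fin_C1d fin_C2a fin_C2b

theorem fin_D1 : St_D1 :=
  D1_thm

theorem fin_DBL : St_DBL :=
  DBL_thm fin_C0b

theorem fin_TREE : St_TREE :=
  TREE_thm fin_D1

theorem fin_TT1 : St_TT1 :=
  TT1_thm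

theorem fin_TT2 : St_TT2 :=
  TT2_thm

theorem fin_TT : St_TT :=
  TT fin_TREE fin_TT1 fin_TT2

theorem fin_FOLD : St_FOLD :=
  FOLD_thm fin_D1

theorem fin_RESTR : St_RESTR :=
  RESTR_thm fin_C0b fin_D1 fin_DBL fin_FOLD

theorem fin_SIDE : St_SIDE :=
  SIDE_thm fin_CA fin_D1 fin_DBL fin_FOLD

theorem fin_ASIDE : St_ASIDE :=
  ASIDE_thm fin_CA fin_D1 fin_SIDE

theorem fin_DPAR : St_DPAR :=
  DPAR_thm fin_CA fin_D1 fin_DBL fin_FOLD fin_RESTR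

theorem fin_FREE : St_FREE :=
  FREE_thm fin_D1 fin_TT fin_RESTR fin_DPAR

theorem fin_PAN : St_PAN :=
  PAN_thm fin_CA

theorem fin_SA : St_SA :=
  SA_thm fin_CA fin_PAN

theorem fin_SAC : St_SAC :=
  SAC_thm fin_CA fin_FREE

theorem fin_CB : St_CB :=
  CB_thm fin_CA

theorem fin_FJ : St_FJ :=
  FJ_thm fin_CA fin_SA

theorem fin_FT : St_FT :=
  FT_thm fin_CA

theorem fin_FA : St_FA :=
  FA_thm fin_CA

theorem fin_EUC : St_EUC :=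
  EUC_thm fin_CA

theorem fin_MODEL : St_MODEL :=
  MODEL_thm fin_C0a fin_C0b

theorem fin_G2 : St_G2 :=
  G2_thm fin_C0a fin_C0b fin_C0c

theorem fin_EXF : St_EXF :=
  EXF_thm fin_CA fin_SA fin_SAC fin_MODEL

theorem fin_NF : St_NF :=
  NF_thm fin_CA

theorem fin_LODD : St_LODD :=
  LODD_thm fin_CA fin_FREE fin_SAC fin_SA fin_CB fin_NF

theorem fin_LFLAT : St_LFLAT :=
  LFLAT_thm fin_CA fin_MODEL fin_NF

theorem fin_LEVEN : St_LEVEN :=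
  LEVEN_thm fin_CA fin_FREE fin_SAC fin_SA fin_CB fin_NF fin_FJ fin_FT fin_FA fin_EUC fin_G2 fin_LFLAT

theorem fin_COL : St_COL :=
  COL_thm fin_CA fin_D1 fin_TT

theorem fin_FCE : St_FCE :=
  FCE_thm fin_CA fin_D1 fin_TT

theorem fin_NOCOL : St_NOCOL :=
  NOCOL_thm fin_D1 fin_COL fin_FCE

theorem fin_CLS : St_CLS :=
  CLS_thm fin_CA fin_D1 fin_LODD fin_LEVEN fin_EXF

theorem fin_ROT1 : St_ROT1 :=
  ROT1_thm fin_CA fin_D1 fin_TT fin_NF fin_CLS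

theorem fin_ROT : St_ROT :=
  ROT_thm fin_CA fin_D1 fin_CLS fin_NOCOL fin_ROT1

theorem fin_TYP : St_TYP :=
  TYP_thm fin_CA fin_CLS fin_NOCOL fin_ROT

theorem fin_EE : St_EE :=
  EE_thm fin_CA fin_D1 fin_EXF fin_CLS fin_TYP

theorem fin_EXT : St_EXT :=
  EXT_thm fin_CA fin_D1 fin_TT fin_EXF

theorem fin_EXA : St_EXA :=
  EXA_thm fin_D1

theorem fin_IA : St_IA :=
  IA_thm fin_C0a fin_D1 fin_ASIDE fin_EXF fin_TYP fin_EE fin_EXT fin_EXA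

theorem fin_TR0 : St_TR0 :=
  TR0_thm fin_D1 fin_TT

theorem fin_KEY : St_KEY :=
  KEY_thm fin_D1 fin_TT fin_RESTR fin_DPAR fin_FREE fin_TR0

theorem fin_KEYN : St_KEYN :=
  KEYN_thm fin_D1 fin_TT fin_RESTR fin_DPAR fin_FREE fin_TR0

theorem fin_SYM : St_SYM :=
  SYM_thm fin_D1 fin_TT fin_RESTR fin_DPAR fin_FREE fin_TR0

theorem fin_CNT : St_CNT :=
  CNT_thm fin_D1 fin_TT fin_RESTR fin_DPAR fin_FREE fin_TR0

theorem fin_LOC1 : St_LOC1 :=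
  LOC1_thm fin_D1 fin_TT fin_RESTR fin_DPAR fin_FREE

theorem fin_LOC : St_LOC :=
  LOC_thm fin_D1 fin_TT fin_RESTR fin_DPAR fin_FREE fin_CNT fin_LOC1

theorem fin_LOC2 : St_LOC2 :=
  LOC2_thm fin_D1 fin_TT fin_RESTR fin_DPAR fin_FREE fin_LOC

theorem fin_MOD : St_MOD :=
  MOD_thm fin_D1 fin_TT fin_RESTR fin_DPAR fin_FREE fin_CNT fin_LOC2

theorem fin_IB : St_IB :=
  IB_thm fin_D1 fin_KEY fin_KEYN fin_SYM fin_MOD

theorem fin_G0 : St_G0 :=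
  G0_thm fin_CA

theorem fin_GT : St_GT :=
  GT_thm fin_CH fin_CA fin_G0

theorem fin_GA0 : St_GA0 :=
  GA0_thm fin_CH fin_CA fin_G0 fin_GT

theorem fin_GAB : St_GAB :=
  GAB_thm fin_CH fin_CA fin_G0 fin_GT fin_GA0

theorem fin_GOR : St_GOR :=
  GOR_thm fin_CA fin_G0 fin_GAB

theorem fin_HEE : St_HEE :=
  HEE_thm fin_CH fin_C0a

theorem fin_GFIN : St_GFIN :=
  GFIN_thm fin_CA fin_G0 fin_GAB fin_HEE

theorem fin_RG : St_RG :=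
  RG_thm

theorem fin_EDGE : St_EDGE :=
  EDGE_thm fin_CA fin_D1 fin_SIDE fin_RESTR fin_DPAR

theorem fin_THIN : St_THIN :=
  THIN_thm fin_D1 fin_TT fin_RESTR fin_DPAR fin_FREE fin_RG

theorem fin_RIG : St_RIG :=
  RIG_thm fin_CA fin_D1 fin_TT fin_RESTR fin_DPAR fin_FREE fin_RG fin_SIDE fin_THIN fin_GOR fin_GFIN

theorem fin_COUNT : St_COUNT :=
  COUNT_thm fin_D1

theorem fin_PI : St_PI :=
  PI_thm fin_D1 fin_COUNT

theorem fin_MATCH : St_MATCH :=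
  MATCH_thm fin_D1 fin_EDGE fin_RIG fin_PI

theorem fin_TWM : St_TWM :=
  TWM_thm

theorem fin_SL : St_SL :=
  SL_thm fin_TWM

theorem fin_GR0 : St_GR0 :=
  GR0_thm fin_RG

theorem fin_GR1 : St_GR1 :=
  GR1_thm fin_RG fin_TWM fin_GR0

theorem fin_GR2 : St_GR2 :=
  GR2_thm fin_SL fin_GR0

theorem fin_GL : St_GL :=
  GL_thm fin_GR0 fin_GR1 fin_GR2

theorem fin_H1 : St_H1 :=
  H1_thm

theorem fin_H2 : St_H2 :=
  H2_thm

theorem main_thm :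
    (∀ (S S' : Type) [Finite S] [Finite S'] (M : CoxeterMatrix S) (M' : CoxeterMatrix S'),
      TwoDim M → TwoDim M' →
        (Nonempty (ArtinGroup M ≃* ArtinGroup M') ↔ TwistEquiv M M')) ∧
    ∃ f : List (List ℕ) × List (List ℕ) → Bool, Computable f ∧
      ∀ (n n' : ℕ) (M : CoxeterMatrix (Fin n)) (M' : CoxeterMatrix (Fin n')),
        TwoDim M → TwoDim M' →
          (f (table M, table M') = true ↔ Nonempty (ArtinGroup M ≃* ArtinGroup M')) :=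
  asm fin_IA fin_IB fin_MATCH fin_GL fin_H1 fin_H2

end Pool.Agent.Lib.MP_1b8ce0_al.T
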