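import Mathlib
import Pool.Agent.Lib.MP_1b8ce0_al.T.StsA

set_option linter.unusedSectionVars false
set_option linter.dupNamespace false

namespace Pool.Agent.Lib.MP_1b8ce0_al.T

open Pool.Agent.Lib.MP_6d85b4_al

section Graph

variable {S : Type} {M : CoxeterMatrix S} {R : Set S} (E : Dbl M R)

theorem SIDE_eq_a {i : E.B} (h : E.p i ∈ R) : i = E.a (E.p i) := by
  rcases E.all i with h1 | h1
  · exact h1
  · rw [(E.ab (E.p i)).2 h]
    exact h1

theorem SIDE_same {i j : E.B} (hij : i ≠ j) (hp : E.p i = E.p j) : E.N i j = 0 := by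
  have hR : E.p i ∉ R := by
    intro h
    apply hij
    rw [SIDE_eq_a E h, hp]
    exact (SIDE_eq_a E (hp ▸ h)).symm
  have hinf := E.inf (E.p i) hR
  rcases E.all i with h1 | h1 <;> rcases E.all j with h2 | h2
  · exact absurd (h1.trans (by rw [hp, ← h2])) hij
  · rw [← hp] at h2
    rw [← h1, ← h2] at hinf
    exact hinf
  · rw [← hp] at h2
    rw [← h1, ← h2] at hinf
    rw [E.N.symmetric]
    exact hinf
  · exact absurd (h1.trans (by rw [hp, ← h2])) hij

theorem SIDE_lab (hF : Flex M R) {i j : E.B} (hij : i ≠ j) (h0 : E.N i j ≠ 0) :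
    E.p i ≠ E.p j ∧ (E.p i ∉ R ∨ E.p j ∉ R → E.N i j = 2) := by
  have hp : E.p i ≠ E.p j := fun h => h0 (SIDE_same E hij h)
  refine ⟨hp, ?_⟩
  have hl := E.lab i j hp
  rintro (h | h)
  · rcases hF _ h _ hp.symm with h1 | h1
    · exact absurd (hl.trans h1) h0
    · exact hl.trans h1
  · rcases hF _ h _ hp with h1 | h1
    · rw [M.symmetric] at h1
      exact absurd (hl.trans h1) h0
    · rw [M.symmetric] at h1
      exact hl.trans h1

end Graph

section Fold

variable {S D : Type} [Group D] {M : CoxeterMatrix S} {R : Set S} {E : Dbl M R} {y : S → D}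
  {ι : D →* E.N.Group} {fo : E.N.Group → D} {th : E.N.Group →* MulAut D}
  {ke : E.N.Group →* (S → ℤˣ)}

theorem SIDE_fo_one (F : Fold E y ι fo th ke) : fo 1 = 1 := by
  have h := (F.fi 1).1
  rwa [map_one] at h

theorem SIDE_th_mem (F : Fold E y ι fo th ke) (T : Set S) (c : E.N.Group) (u : D)
    (hu : u ∈ gp y T) : th c u ∈ gp y T := by
  have h : gp y T ≤ (gp y T).comap (th c).toMonoidHom := by
    refine gp_le.2 fun s hs => ?_
    show th c (y s) ∈ gp y T
    rw [F.thx]
    exact Subgroup.zpow_mem _ (gp_mem y hs) _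
  exact h hu

theorem SIDE_fo_mem (F : Fold E y ι fo th ke) (U : Set E.B) (w : E.N.Group)
    (hw : w ∈ par E.N U) : fo w ∈ gp y (E.p '' U) := by
  induction hw using Subgroup.closure_induction with
  | mem w hw =>
    obtain ⟨i, hi, rfl⟩ := hw
    by_cases hR : E.p i ∈ R
    · rw [SIDE_eq_a E hR, F.fa]
      exact gp_mem y ⟨i, hi, rfl⟩
    · rcases E.all i with h1 | h1
      · rw [h1, F.fa]
        exact gp_mem y ⟨i, hi, rfl⟩
      · rw [h1, F.fb _ hR]
        exact Subgroup.one_mem _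
  | one =>
    rw [SIDE_fo_one F]
    exact Subgroup.one_mem _
  | mul u v _ _ hu hv =>
    rw [F.mul]
    exact Subgroup.mul_mem _ hu (SIDE_th_mem F _ _ _ hv)
  | inv u _ hu =>
    have h := F.mul u⁻¹ u
    rw [inv_mul_cancel, SIDE_fo_one F] at h
    rw [eq_inv_of_mul_eq_one_left h.symm]
    exact Subgroup.inv_mem _ (SIDE_th_mem F _ _ _ hu)

theorem SIDE_key (F : Fold E y ι fo th ke) (g : D) (c w : E.N.Group)
    (h : ι g = c * w * c⁻¹) : ke w = 1 ∧ g = fo c * th c (fo w) * (fo c)⁻¹ := by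
  have h1 : ι g * c = c * w := by rw [h, inv_mul_cancel_right]
  constructor
  · have h2 := congrArg ke h1
    rw [map_mul, map_mul, (F.fi g).2, one_mul] at h2
    exact (mul_eq_left.1 h2.symm)
  · have h2 := congrArg fo h1
    rw [F.mul, F.mul, (F.fi g).1, F.thk _ (F.fi g).2, MulAut.one_apply] at h2
    rw [← h2, mul_inv_cancel_right]

end Fold

theorem SIDE_thm (h0 : St_CA) (h1 : St_D1) (h2 : St_DBL) (h3 : St_FOLD) : St_SIDE := by
  classical
  intro S G _ _ _ M R R0 x hx hR hF hM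
  obtain ⟨⟨E⟩, hE⟩ := h2 S M R
  obtain ⟨hns, hhom⟩ := hE E hF
  have hN : NoSph E.N := hns hM
  have hC := (h0 E.B E.N hN).b0
  have hG : D1 M R0 x := h1.2 S G M R0 x hx
  have hW : D1 E.N Set.univ (sr E.N) := h1.2 _ _ E.N Set.univ (sr E.N) hC.dyer
  obtain ⟨K, hK⟩ : ∃ K : Subgroup G,
      K = Subgroup.normalClosure {y | ∃ s ∈ R, y = x s * x s} := ⟨_, rfl⟩
  have : K.Normal := by
    rw [hK]
    infer_instance
  obtain ⟨π, hπs, hπk⟩ : ∃ π : G →* G ⧸ K, Function.Surjective π ∧ ∀ g, π g = 1 ↔ g ∈ K :=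
    ⟨QuotientGroup.mk' K, QuotientGroup.mk'_surjective K, fun g => QuotientGroup.eq_one_iff g⟩
  have hy : IsDyer M R (fun s => π (x s)) :=
    hG.quot (G ⧸ K) π R hπs hR (fun g => by rw [hπk, hK])
  obtain ⟨ι, hι⟩ := hhom (G ⧸ K) (fun s => π (x s)) R hy (fun _ h => h)
  obtain ⟨fo, th, ke, F⟩ := h3 S (G ⧸ K) M R (fun s => π (x s)) E ι hy hF hι
  have hlift : ∀ T u, u ∈ gp (fun s => π (x s)) T → ∃ g' ∈ gp x T, π g' = u := by
    intro T u hu
    have h : gp (fun s => π (x s)) T ≤ (gp x T).map π :=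
      gp_le.2 fun s hs => ⟨x s, gp_mem x hs, rfl⟩
    exact h hu
  have hfold2 : ∀ c d, π d = fo c → ∀ s ∈ R, ∀ g, ι (π g) = c * sr E.N (E.a s) * c⁻¹ →
      ι (π g) = ι (π (d * x s * d⁻¹)) := by
    intro c d hd s hs g hg
    have h := (SIDE_key F _ _ _ hg).2
    rw [F.fa, F.thx] at h
    have hz : π (x s) ^ ((ke c s : ℤˣ) : ℤ) = π (x s) := by
      rcases Int.units_eq_one_or (ke c s) with h4 | h4
      · rw [h4, Units.val_one, zpow_one]
      · rw [h4, Units.val_neg, Units.val_one, zpow_neg, zpow_one]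
        exact inv_eq_of_mul_eq_one_right (hy.sqr s hs)
    rw [hz] at h
    rw [h, map_mul π, map_mul π, map_inv π, hd]
  refine ⟨{
    toDbl := E
    ψ := ι.comp π
    hom := hι
    ker := ?_
    ns := hN
    mem := ?_
    elm := ?_
    chr := ?_
    refl := ?_
    rot := ?_
    big := ?_
    fold := ?_ }⟩
  · intro g
    rw [← hK, ← hπk]
    constructor
    · intro h
      have h4 : ι (π g) = 1 := h
      rw [← (F.fi (π g)).1, h4, SIDE_fo_one F]
    · intro h
      show ι (π g) = 1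
      rw [h, map_one]
  · intro T g hg
    have h : gp x T ≤ (par E.N (E.p ⁻¹' T)).comap (ι.comp π) := by
      refine gp_le.2 fun s hs => ?_
      have ha : sr E.N (E.a s) ∈ par E.N (E.p ⁻¹' T) :=
        gp_mem _ (show E.p (E.a s) ∈ T by rw [E.pa]; exact hs)
      have hb : sr E.N (E.b s) ∈ par E.N (E.p ⁻¹' T) :=
        gp_mem _ (show E.p (E.b s) ∈ T by rw [E.pb]; exact hs)
      show ι (π (x s)) ∈ par E.N (E.p ⁻¹' T)
      by_cases hs' : s ∈ R
      · rw [hι.1 s hs']
        exact ha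
      · rw [hι.2 s hs']
        exact Subgroup.mul_mem _ ha hb
    exact h hg
  · intro s U hU
    have hU' : ι (π (x s)) ∈ par E.N U := hU
    by_cases hs : s ∈ R
    · rw [hι.1 s hs] at hU'
      exact (hC.sr_mem U _).1 hU'
    · rw [hι.2 s hs] at hU'
      by_contra hn
      have h4 : sr E.N (E.a s) * sr E.N (E.b s) ∈ par E.N {E.a s, E.b s} :=
        Subgroup.mul_mem _ (gp_mem _ (by simp)) (gp_mem _ (by simp))
      have h5 : sr E.N (E.a s) * sr E.N (E.b s) ∈ par E.N (U ∩ {E.a s, E.b s}) := by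
        rw [← hC.inter]
        exact ⟨hU', h4⟩
      have h6 : U ∩ {E.a s, E.b s} ⊆ {E.b s} := by
        rintro i ⟨hi, rfl | hi'⟩
        · exact absurd hi hn
        · exact hi'
      have h7 : sr E.N (E.a s) * sr E.N (E.b s) ∈ par E.N {E.b s} := gp_mono _ h6 h5
      have h8 : sr E.N (E.a s) ∈ par E.N {E.b s} :=
        (Subgroup.mul_mem_cancel_right _ (gp_mem _ (Set.mem_singleton _))).1 h7
      have h9 : E.a s ∈ ({E.b s} : Set E.B) := (hC.sr_mem _ _).1 h8
      exact hs ((E.ab s).1 h9)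
  · intro χ
    obtain ⟨χ', hχ'⟩ := hW.chr (fun i => if i = E.a (E.p i) then χ (x (E.p i)) else 1) (by
      intro i j hij hodd
      have hne : E.N i j ≠ 0 := by
        intro h
        rw [h] at hodd
        exact absurd hodd (by decide)
      obtain ⟨hp, h2'⟩ := SIDE_lab E hF hij hne
      have hi : E.p i ∈ R := by
        by_contra h
        rw [h2' (Or.inl h)] at hodd
        exact absurd hodd (by decide)
      have hj : E.p j ∈ R := by
        by_contra h
        rw [h2' (Or.inr h)] at hodd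
        exact absurd hodd (by decide)
      rw [if_pos (SIDE_eq_a E hi), if_pos (SIDE_eq_a E hj)]
      rw [E.lab i j hp] at hodd
      have hc : IsConj (x (E.p i)) (x (E.p j)) :=
        (hG.conj _ _).2 (Relation.ReflTransGen.single ⟨hp, hodd⟩)
      exact isConj_iff_eq.1 (χ.map_isConj hc))
    have ha : ∀ s, χ' (sr E.N (E.a s)) = χ (x s) := by
      intro s
      rw [hχ', E.pa, if_pos rfl]
    refine ⟨χ', ?_, ha⟩
    have h : χ'.comp (ι.comp π) = χ := by
      refine hG.ext ℤˣ _ _ fun s => ?_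
      show χ' (ι (π (x s))) = χ (x s)
      by_cases hs : s ∈ R
      · rw [hι.1 s hs, ha]
      · rw [hι.2 s hs, map_mul, ha, hχ', E.pb, if_neg (fun h => hs ((E.ab s).1 h.symm)), mul_one]
    intro g
    exact DFunLike.congr_fun h g
  · rintro g ⟨a, w, i, _, hw⟩
    have hw' : ι (π g) = w * sr E.N i * w⁻¹ := hw
    have hi : E.p i ∈ R := by
      by_contra h
      have h4 := F.ke1 i h
      rw [(SIDE_key F _ _ _ hw').1] at h4
      exact absurd h4 (by simp)
    obtain ⟨d, hd⟩ := hπs (fo w)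
    rw [SIDE_eq_a E hi] at hw'
    exact ⟨E.p i, hi, d, hfold2 w d hd _ hi g hw'⟩
  · intro g c i j k hij hne hg hg1
    have hg' : ι (π g) = c * (sr E.N i * sr E.N j) ^ k * c⁻¹ := hg
    obtain ⟨hp, h2'⟩ := SIDE_lab E hF hij hne
    have hke := (SIDE_key F _ _ _ hg').1
    have hev : E.p i ∉ R ∨ E.p j ∉ R → ¬ Even k := by
      rintro h ⟨l, rfl⟩
      apply hg1
      show ι (π g) = 1
      have h4 : (sr E.N i * sr E.N j) ^ 2 = 1 := by
        rw [← h2' h]
        exact E.N.toCoxeterSystem.simple_mul_simple_pow i j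
      rw [hg', ← two_mul, pow_mul, h4, one_pow, mul_one, mul_inv_cancel]
    have hneg : ∀ s, ke (sr E.N i) s * ke (sr E.N j) s = -1 → Even k := by
      intro s hs
      have h4 := congrFun hke s
      rw [map_pow, map_mul, Pi.pow_apply, Pi.mul_apply, hs, Pi.one_apply] at h4
      exact (neg_one_pow_eq_one_iff_even (by decide)).1 h4
    have hi : E.p i ∈ R := by
      by_contra h
      refine hev (Or.inl h) (hneg (E.p i) ?_)
      rw [F.ke1 i h, F.ke0 j _ (Or.inr hp), mul_one]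
    have hj : E.p j ∈ R := by
      by_contra h
      refine hev (Or.inr h) (hneg (E.p j) ?_)
      rw [F.ke1 j h, F.ke0 i _ (Or.inr hp.symm), one_mul]
    exact ⟨E.p i, hi, E.p j, hj, SIDE_eq_a E hi, SIDE_eq_a E hj⟩
  · intro i j h
    have hij : i ≠ j := by
      rintro rfl
      rw [E.N.diagonal] at h
      omega
    obtain ⟨_, h2'⟩ := SIDE_lab E hF hij (by omega)
    have hi : E.p i ∈ R := by
      by_contra h'
      have := h2' (Or.inl h')
      omega
    exact ⟨E.p i, hi, SIDE_eq_a E hi⟩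
  · intro c
    obtain ⟨d, hd⟩ := hπs (fo c)
    refine ⟨d, ?_, hfold2 c d hd⟩
    intro U g hg
    have hw : c⁻¹ * ι (π g) * c ∈ par E.N U := hg
    have h4 : ι (π g) = c * (c⁻¹ * ι (π g) * c) * c⁻¹ := by group
    have h5 := (SIDE_key F _ _ _ h4).2
    obtain ⟨g', hg', hπ⟩ := hlift _ _ (SIDE_th_mem F _ c _ (SIDE_fo_mem F U _ hw))
    refine ⟨g', hg', ?_⟩
    show ι (π g) = ι (π (d * g' * d⁻¹))
    rw [map_mul π, map_mul π, map_inv π, hd, hπ, ← h5]

end Pool.Agent.Lib.MP_1b8ce0_al.T
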